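import Mathlib

/-!
# [LIN] MP_8a350d_lc : common definitions (the statement of the problem)

Everything that occurs in the final statement is defined here.
-/

namespace Pool.Agent.LIN

open FirstOrder

/-! ### 1. The arithmetical hierarchy -/

/-- `Sg n p`: the predicate `p` is `Sigma^0_n` (for `n = 0`: computable); `Sg (n+1) p` iff
`p a` is equivalent to `exists k, q (a, k)` for some `Pi^0_n` predicate `q`. -/
def Sg : ℕ → ∀ {α : Type} [Primcodable α], (α → Prop) → Prop
  | 0, _, _, p => ComputablePred p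
  | n + 1, α, _, p => ∃ q : α × ℕ → Prop, Sg n (fun x => ¬ q x) ∧ ∀ a, p a ↔ ∃ k, q (a, k)

/-- `Pg n p`: the predicate `p` is `Pi^0_n`. -/
def Pg (n : ℕ) {α : Type} [Primcodable α] (p : α → Prop) : Prop := Sg n (fun a => ¬ p a)

/-! ### 2. Numerated Boolean algebras -/

/-- The Boolean operations are induced by total computable functions on the indices. -/
def CompOps {B : Type} [BooleanAlgebra B] (ν : ℕ → B) : Prop :=
  (∃ f : ℕ → ℕ → ℕ, Computable₂ f ∧ ∀ m n, ν (f m n) = ν m ⊔ ν n) ∧
  (∃ f : ℕ → ℕ → ℕ, Computable₂ f ∧ ∀ m n, ν (f m n) = ν m ⊓ ν n) ∧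
  (∃ f : ℕ → ℕ, Computable f ∧ ∀ m, ν (f m) = (ν m)ᶜ)

/-- `(B, ν)` is a numerated `Pi^0_n`-algebra. -/
def PiAlg (n : ℕ) {B : Type} [BooleanAlgebra B] (ν : ℕ → B) : Prop :=
  Function.Surjective ν ∧ CompOps ν ∧ Pg n (fun p : ℕ × ℕ => ν p.1 = ν p.2)

/-- The Boolean algebra `B` has a `Pi^0_n` numeration. -/
def HasPi (n : ℕ) (B : Type) [BooleanAlgebra B] : Prop := ∃ ν : ℕ → B, PiAlg n ν

/-- `B` is the (abstract) universal `Pi^0_n`-algebra: it has a `Pi^0_n` numeration and every
Boolean algebra with a `Pi^0_n` numeration is isomorphic to the algebra of the elements below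
some element of `B`. -/
def UnivPi (n : ℕ) (B : Type) [BooleanAlgebra B] : Prop :=
  HasPi n B ∧ ∀ (A : Type) [BooleanAlgebra A], HasPi n A → ∃ b : B, Nonempty (A ≃o Set.Iic b)

/-- The literal notion of the problem file: `(A, α)` is isomorphic to `(B, β)[b]` as a
numerated algebra (total recursive `f`, `g`). -/
def NumIso {A B : Type} [BooleanAlgebra A] [BooleanAlgebra B] (α : ℕ → A) (β : ℕ → B) (b : B) :
    Prop :=
  ∃ μ : A ≃o Set.Iic b, ∃ f g : ℕ → ℕ, Computable f ∧ Computable g ∧
    (∀ m, ((μ (α m) : Set.Iic b) : B) = β (f m) ⊓ b) ∧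
    (∀ m, μ.symm ⟨β m ⊓ b, inf_le_right⟩ = α (g m))

/-- The literal notion of the problem file: `(B, β)` is a `Pi^0_n`-universal numerated algebra. -/
def NumUniversal (n : ℕ) {B : Type} [BooleanAlgebra B] (β : ℕ → B) : Prop :=
  PiAlg n β ∧ ∀ (A : Type) [BooleanAlgebra A] (α : ℕ → A), PiAlg n α → ∃ b : B, NumIso α β b

/-! ### 3. Finite rich languages and their Goedel numbering -/

/-- Enumeration of the symbols of a finite language. -/
structure Enum (L : FirstOrder.Language.{0, 0}) where
  nF : ℕ
  nR : ℕ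
  F : Fin nF ≃ Σ n, L.Functions n
  R : Fin nR ≃ Σ n, L.Relations n

/-- A rich language: a symbol of arity at least two or two unary function symbols. -/
def Rich (L : FirstOrder.Language.{0, 0}) : Prop :=
  (∃ n, 2 ≤ n ∧ Nonempty (L.Relations n)) ∨ (∃ n, 2 ≤ n ∧ Nonempty (L.Functions n)) ∨
  (∃ f g : L.Functions 1, f ≠ g)

/-- The `j`-th entry of the list coded by `c`. -/
def argc : ℕ → ℕ → ℕ
  | c, 0 => (Nat.unpair c).1
  | c, j + 1 => argc (Nat.unpair c).2 j

theorem argc_le (c j : ℕ) : argc c j ≤ c := by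
  induction j generalizing c with
  | zero => exact Nat.unpair_left_le c
  | succ j ih => exact (ih _).trans (Nat.unpair_right_le c)

variable {L : FirstOrder.Language.{0, 0}}

/-- Decoding of terms in a context of `n` bound variables. `2 k` is the de Bruijn variable
number `k` (counted from the innermost quantifier), `2 c + 1` is a function symbol applied to a
list of terms; codes that make no sense are read as `none`. -/
noncomputable def termOf (E : Enum L) (n : ℕ) (c : ℕ) : Option (L.Term (Empty ⊕ Fin n)) :=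
  if hc : c % 2 = 0 then
    if hn : c / 2 < n then some (FirstOrder.Language.Term.var (Sum.inr ⟨n - 1 - c / 2, by omega⟩)) else none
  else
    if hi : (Nat.unpair (c / 2)).1 < E.nF then
      have hdec : ∀ j, argc (Nat.unpair (c / 2)).2 j < c := fun j => by
        have h1 := argc_le (Nat.unpair (c / 2)).2 j
        have h2 := Nat.unpair_right_le (c / 2)
        omega
      if h : ∀ j : Fin (E.F ⟨_, hi⟩).1,
          (termOf E n (argc (Nat.unpair (c / 2)).2 j)).isSome then
        some (FirstOrder.Language.Term.func (E.F ⟨_, hi⟩).2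
          (fun j => (termOf E n (argc (Nat.unpair (c / 2)).2 j)).get (h j)))
      else none
    else none
termination_by c
decreasing_by all_goals exact hdec _

/-- Goedel numbering of the formulas (Mathlib syntax, `n` bound variables in scope):
`0` = falsum, `4 c + 1` = equality, `4 c + 2` = relation symbol, `4 c + 3` = implication,
`4 c + 4` = universal quantifier. -/
noncomputable def formOf (E : Enum L) (n : ℕ) (c : ℕ) : L.BoundedFormula Empty n :=
  if h0 : c = 0 then ⊥
  else if h1 : (c - 1) % 4 = 0 then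
    match termOf E n (Nat.unpair ((c - 1) / 4)).1, termOf E n (Nat.unpair ((c - 1) / 4)).2 with
    | some t, some s => FirstOrder.Language.BoundedFormula.equal t s
    | _, _ => ⊥
  else if h2 : (c - 1) % 4 = 1 then
    if hi : (Nat.unpair ((c - 1) / 4)).1 < E.nR then
      if h : ∀ j : Fin (E.R ⟨_, hi⟩).1,
          (termOf E n (argc (Nat.unpair ((c - 1) / 4)).2 j)).isSome then
        FirstOrder.Language.BoundedFormula.rel (E.R ⟨_, hi⟩).2
          (fun j => (termOf E n (argc (Nat.unpair ((c - 1) / 4)).2 j)).get (h j))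
      else ⊥
    else ⊥
  else if h3 : (c - 1) % 4 = 2 then
    have hd1 : (Nat.unpair ((c - 1) / 4)).1 < c := by
      have := Nat.unpair_left_le ((c - 1) / 4); omega
    have hd2 : (Nat.unpair ((c - 1) / 4)).2 < c := by
      have := Nat.unpair_right_le ((c - 1) / 4); omega
    FirstOrder.Language.BoundedFormula.imp (formOf E n (Nat.unpair ((c - 1) / 4)).1)
      (formOf E n (Nat.unpair ((c - 1) / 4)).2)
  else
    have hd3 : (c - 1) / 4 < c := by omega
    FirstOrder.Language.BoundedFormula.all (formOf E (n + 1) ((c - 1) / 4))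
termination_by c
decreasing_by all_goals assumption

/-- The `c`-th sentence. -/
noncomputable def sent (E : Enum L) (c : ℕ) : L.Sentence := formOf E 0 c

/-! ### 4. Decidable theories, theories that are not finitely axiomatisable -/

/-- The theory `T` is decidable. -/
def DecTh (E : Enum L) (T : L.Theory) : Prop := ComputablePred (fun c : ℕ => sent E c ∈ T)

/-- The theory `T` is finitely axiomatisable (by one of its sentences). -/
def FinAx (T : L.Theory) : Prop := ∃ φ ∈ T, ∀ ψ ∈ T, ({φ} : L.Theory) ⊨ᵇ ψ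

/-- `T` is the complete theory of some (nonempty) structure. -/
def IsTh (T : L.Theory) : Prop :=
  ∃ (M : Type) (_ : L.Structure M) (_ : Nonempty M), T = L.completeTheory M

/-- The complete theories of the structures in the class `N` and `D` : not finitely
axiomatisable and decidable. -/
def ND (E : Enum L) : Set L.Theory := {T | IsTh T ∧ DecTh E T ∧ ¬ FinAx T}

/-! ### 5. The Lindenbaum algebra of a class of structures -/

theorem IsTh.mem_not {T : L.Theory} (h : IsTh T) (φ : L.Sentence) : φ.not ∈ T ↔ φ ∉ T := by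
  obtain ⟨M, _, _, rfl⟩ := h
  simp [FirstOrder.Language.completeTheory, FirstOrder.Language.Sentence.Realize, FirstOrder.Language.Formula.realize_not]

theorem IsTh.mem_inf {T : L.Theory} (h : IsTh T) (φ ψ : L.Sentence) :
    (φ ⊓ ψ : L.Sentence) ∈ T ↔ φ ∈ T ∧ ψ ∈ T := by
  obtain ⟨M, _, _, rfl⟩ := h
  simp [FirstOrder.Language.completeTheory, FirstOrder.Language.Sentence.Realize, FirstOrder.Language.Formula.Realize]

/-- `Lind K`: the Lindenbaum algebra of the theory `Th(K) =` intersection of the complete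
theories in `K`, that is sentences modulo equivalence in `Th(K)`, realised as the algebra of
the sets `{T in K : φ in T}`. -/
def Lind (K : Set L.Theory) (hK : ∀ T ∈ K, IsTh T) : BooleanSubalgebra (Set K) where
  carrier := {s | ∃ φ : L.Sentence, ∀ T : K, T ∈ s ↔ φ ∈ T.1}
  bot_mem' := ⟨(⊥ : L.Sentence), fun T => by
    obtain ⟨M, _, _, h⟩ := hK T.1 T.2
    rw [h]
    simp [FirstOrder.Language.completeTheory, FirstOrder.Language.Sentence.Realize, FirstOrder.Language.Formula.Realize]⟩
  infClosed' := by
    rintro s ⟨φ, hφ⟩ t ⟨ψ, hψ⟩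
    exact ⟨φ ⊓ ψ, fun T => by
      rw [(hK T.1 T.2).mem_inf, ← hφ, ← hψ]; rfl⟩
  supClosed' := by
    rintro s ⟨φ, hφ⟩ t ⟨ψ, hψ⟩
    exact ⟨(φ.not ⊓ ψ.not : L.Sentence).not, fun T => by
      rw [(hK T.1 T.2).mem_not, (hK T.1 T.2).mem_inf, (hK T.1 T.2).mem_not,
        (hK T.1 T.2).mem_not, ← hφ, ← hψ]
      change T ∈ s ∪ t ↔ _
      rw [Set.mem_union]; tauto⟩
  compl_mem' := by
    rintro s ⟨φ, hφ⟩
    exact ⟨φ.not, fun T => by
      rw [(hK T.1 T.2).mem_not, ← hφ]; rfl⟩

/-- The Lindenbaum algebra of `Th(N cap D)`. -/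
abbrev LindND (E : Enum L) : Type := Lind (ND E) (fun _ h => h.1)

end Pool.Agent.LIN
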