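import Pool.Agent.LIN.Iface2

/-! # [LIN-GA1] block G: translation of relational formulas -/

namespace Pool.Agent.LIN

open FirstOrder FirstOrder.Language

variable {L : FirstOrder.Language.{0, 0}}

/-- Substitution of variables for variables. -/
theorem exists_subst {k n : ℕ} (χ : L.BoundedFormula Empty k) (f : Fin k → Fin n) :
    ∃ ψ : L.BoundedFormula Empty n, ∀ (M : Type) [L.Structure M] (v : Fin n → M),
      ψ.Realize (default : Empty → M) v ↔ χ.Realize (default : Empty → M) (v ∘ f) := by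
  refine ⟨(BoundedFormula.relabel (Sum.map id f : Empty ⊕ Fin k → Empty ⊕ Fin n)
    (χ.toFormula : L.BoundedFormula (Empty ⊕ Fin k) 0) : L.BoundedFormula Empty (n + 0)), ?_⟩
  intro M _ v
  rw [BoundedFormula.realize_relabel]
  have h := BoundedFormula.realize_toFormula χ (Sum.elim (default : Empty → M) (v ∘ f))
  rw [Sum.elim_comp_inl, Sum.elim_comp_inr] at h
  rw [← h]
  have e : (Sum.elim (default : Empty → M) (v ∘ Fin.castAdd 0) ∘
      (Sum.map id f : Empty ⊕ Fin k → Empty ⊕ Fin n)) = Sum.elim (default : Empty → M) (v ∘ f) := by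
    funext x
    rcases x with x | x
    · exact x.elim
    · rfl
  rw [e]
  have e2 : (v ∘ Fin.natAdd n : Fin 0 → M) = default := Subsingleton.elim _ _
  rw [e2]
  rfl

/-- Translation of relational formulas, relativised to the main points. -/
theorem exists_tr {C : Type} (μ : L.BoundedFormula Empty 1) (ρ : C → L.BoundedFormula Empty 2)
    {n : ℕ} (φ : RF C n) :
    ∃ ψ : L.BoundedFormula Empty n, ∀ (M : Type) [L.Structure M] (v : Fin n → MainPt μ M),
      ψ.Realize (default : Empty → M) (fun i => (v i).1) ↔ φ.Sat (RelOf μ ρ M) v := by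
  induction φ with
  | @eq n i j =>
    refine ⟨BoundedFormula.equal (Term.var (Sum.inr i)) (Term.var (Sum.inr j)), ?_⟩
    intro M _ v
    constructor
    · intro h
      have h' : (v i).1 = (v j).1 := h
      exact Subtype.ext h'
    · intro h
      have h' : v i = v j := h
      change (v i).1 = (v j).1
      rw [h']
  | @rel n c i j =>
    obtain ⟨ψ, hψ⟩ := exists_subst (ρ c) (![i, j] : Fin 2 → Fin n)
    refine ⟨ψ, ?_⟩
    intro M _ v
    rw [hψ]
    have e : ((fun i => (v i).1) ∘ ![i, j] : Fin 2 → M) = ![(v i).1, (v j).1] := by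
      funext x
      fin_cases x <;> rfl
    rw [e]
    rfl
  | @neg n φ ih =>
    obtain ⟨ψ, hψ⟩ := ih
    refine ⟨ψ.not, ?_⟩
    intro M _ v
    rw [BoundedFormula.realize_not, hψ]
    rfl
  | @and n φ φ' ih ih' =>
    obtain ⟨ψ, hψ⟩ := ih
    obtain ⟨ψ', hψ'⟩ := ih'
    refine ⟨ψ ⊓ ψ', ?_⟩
    intro M _ v
    rw [BoundedFormula.realize_inf, hψ, hψ']
    rfl
  | @ex n φ ih =>
    obtain ⟨ψ, hψ⟩ := ih
    obtain ⟨ν, hν⟩ := exists_subst μ (![Fin.last n] : Fin 1 → Fin (n + 1))
    refine ⟨(ν ⊓ ψ).ex, ?_⟩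
    intro M _ v
    rw [BoundedFormula.realize_ex]
    have key : ∀ w : MainPt μ M, (Fin.snoc (fun i => (v i).1) w.1 : Fin (n + 1) → M) =
        fun i => ((Fin.snoc v w : Fin (n + 1) → MainPt μ M) i).1 := by
      intro w
      funext i
      refine Fin.lastCases ?_ (fun i => ?_) i
      · have h1 : (Fin.snoc v w : Fin (n + 1) → MainPt μ M) (Fin.last n) = w := Fin.snoc_last _ _
        rw [h1]
        exact Fin.snoc_last _ _
      · have h1 : (Fin.snoc v w : Fin (n + 1) → MainPt μ M) i.castSucc = v i :=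
          Fin.snoc_castSucc _ _ _
        rw [h1]
        exact Fin.snoc_castSucc _ _ _
    have hone : ∀ x : M, ((Fin.snoc (fun i => (v i).1) x : Fin (n + 1) → M) ∘
        (![Fin.last n] : Fin 1 → Fin (n + 1))) = ![x] := by
      intro x
      funext i
      fin_cases i
      change (Fin.snoc (fun i => (v i).1) x : Fin (n + 1) → M) (Fin.last n) = x
      rw [Fin.snoc_last]
    constructor
    · rintro ⟨x, hx⟩
      rw [BoundedFormula.realize_inf, hν, hone] at hx
      have hw : ∃ w : MainPt μ M, w.1 = x := ⟨⟨x, hx.1⟩, rfl⟩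
      obtain ⟨w, rfl⟩ := hw
      refine ⟨w, ?_⟩
      rw [← hψ, ← key]
      exact hx.2
    · rintro ⟨x, hx⟩
      refine ⟨x.1, ?_⟩
      rw [BoundedFormula.realize_inf, hν, hone]
      refine ⟨x.2, ?_⟩
      rw [key x, hψ]
      exact hx

end Pool.Agent.LIN
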