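import Pool.Agent.LIN.GA1

/-! # [LIN-GA2] block G: isomorphic copies -/

namespace Pool.Agent.LIN

open FirstOrder FirstOrder.Language

theorem Sat_iso {C U U' : Type} (R : C → U → U → Prop) (R' : C → U' → U' → Prop) (e : U ≃ U')
    (h : ∀ c u v, R c u v ↔ R' c (e u) (e v)) {n : ℕ} (φ : RF C n) (v : Fin n → U) :
    φ.Sat R v ↔ φ.Sat R' (fun i => e (v i)) := by
  induction φ with
  | eq i j => exact e.injective.eq_iff.symm
  | rel c i j => exact h c _ _
  | neg φ ih => exact not_congr (ih v)
  | and φ ψ ih ih' => exact and_congr (ih v) (ih' v)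
  | @ex n φ ih =>
    have key : ∀ x : U, (fun i => e ((Fin.snoc v x : Fin (n + 1) → U) i)) =
        (Fin.snoc (fun i => e (v i)) (e x) : Fin (n + 1) → U') := by
      intro x
      funext i
      refine Fin.lastCases ?_ (fun i => ?_) i
      · rw [Fin.snoc_last, Fin.snoc_last]
      · rw [Fin.snoc_castSucc, Fin.snoc_castSucc]
    constructor
    · rintro ⟨x, hx⟩
      refine ⟨e x, ?_⟩
      have := (ih _).mp hx
      rw [key] at this
      exact this
    · rintro ⟨x, hx⟩
      refine ⟨e.symm x, ?_⟩
      refine (ih _).mpr ?_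
      rw [key, e.apply_symm_apply]
      exact hx

theorem EF_iso {C U U' V V' : Type} (R : C → U → U → Prop) (R' : C → U' → U' → Prop)
    (Q : C → V → V → Prop) (Q' : C → V' → V' → Prop) (e : U ≃ V) (e' : U' ≃ V')
    (h : ∀ c u v, R c u v ↔ Q c (e u) (e v)) (h' : ∀ c u v, R' c u v ↔ Q' c (e' u) (e' v))
    (n : ℕ) : ∀ l : List (U × U'), EF Q Q' n (l.map (Prod.map e e')) → EF R R' n l := by
  induction n with
  | zero =>
    intro l hl a ha b hb
    have := hl _ (List.mem_map_of_mem ha) _ (List.mem_map_of_mem hb)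
    refine ⟨?_, fun c => ?_⟩
    · have h1 := this.1
      change e a.1 = e b.1 ↔ e' a.2 = e' b.2 at h1
      rw [e.injective.eq_iff, e'.injective.eq_iff] at h1
      exact h1
    · have h1 := this.2 c
      change Q c (e a.1) (e b.1) ↔ Q' c (e' a.2) (e' b.2) at h1
      rw [h, h']
      exact h1
  | succ n ih =>
    intro l hl
    obtain ⟨h1, h2, h3⟩ := hl
    refine ⟨?_, ?_, ?_⟩
    · intro a ha b hb
      have := h1 _ (List.mem_map_of_mem ha) _ (List.mem_map_of_mem hb)
      refine ⟨?_, fun c => ?_⟩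
      · have h1 := this.1
        change e a.1 = e b.1 ↔ e' a.2 = e' b.2 at h1
        rw [e.injective.eq_iff, e'.injective.eq_iff] at h1
        exact h1
      · have h1 := this.2 c
        change Q c (e a.1) (e b.1) ↔ Q' c (e' a.2) (e' b.2) at h1
        rw [h, h']
        exact h1
    · intro u
      obtain ⟨v', hv'⟩ := h2 (e u)
      refine ⟨e'.symm v', ih _ ?_⟩
      rw [List.map_cons]
      change EF Q Q' n ((e u, e' (e'.symm v')) :: _)
      rw [e'.apply_symm_apply]
      exact hv'
    · intro u'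
      obtain ⟨v, hv⟩ := h3 (e' u')
      refine ⟨e.symm v, ih _ ?_⟩
      rw [List.map_cons]
      change EF Q Q' n ((e (e.symm v), e' u') :: _)
      rw [e.apply_symm_apply]
      exact hv

end Pool.Agent.LIN
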