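import Pool.Agent.LIN.GA2

/-! # [LIN-GA3] block G: assembly -/

namespace Pool.Agent.LIN

open FirstOrder FirstOrder.Language

theorem finite_sym (m : Mach) : Finite (Tower.Sym m) := by
  have h : Function.Injective (fun s : Tower.Sym m => (match s with
    | .S => Sum.inl 0
    | .p => Sum.inl 1
    | .h => Sum.inl 2
    | .lt => Sum.inl 3
    | .uT => Sum.inl 4
    | .uL => Sum.inl 5
    | .uE => Sum.inl 6
    | .uM => Sum.inl 7
    | .uP => Sum.inl 8
    | .uq q => Sum.inr (Sum.inl q)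
    | .ui i => Sum.inr (Sum.inr i) : Fin 9 ⊕ (Fin m.nQ ⊕ Fin m.k))) := by
    intro a b hab
    cases a <;> cases b <;> simp_all
  exact Finite.of_injective _ h

/-- Chains in the standard tower. -/
theorem chain_std {m : Mach} {c0 : m.Config} (A : Tower m) (hA : A.Ax c0) (r : m.Run c0)
    (hs : A.Spec r.1) (n : ℕ) (q : Fin m.nQ) :
    (∃ f : ℕ → A.U, f 0 = Sum.inl A.o ∧ (∀ i < 2 ^ n, A.rel .S (f i) (f (i + 1))) ∧
      A.rel (.uq q) (f (2 ^ n)) (f (2 ^ n))) ↔ (r.1 n).1 = q := by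
  have hst : A.st (A.S^[2 ^ n] A.o) (r.1 n).1 :=
    (hs n (2 ^ n) le_rfl (Nat.pow_lt_pow_right (by norm_num) (Nat.lt_succ_self n))).1
  constructor
  · rintro ⟨f, h0, h1, h2⟩
    have key : ∀ i ≤ 2 ^ n, f i = Sum.inl (A.S^[i] A.o) := by
      intro i
      induction i with
      | zero => intro _; exact h0
      | succ i ih =>
        intro hi
        have hS := h1 i (by omega)
        rw [ih (by omega)] at hS
        rcases hf : f (i + 1) with z | z
        · rw [hf] at hS
          have hS' : A.S (A.S^[i] A.o) = z := hS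
          rw [Function.iterate_succ_apply', hS']
        · rw [hf] at hS
          exact absurd hS (by simp [Tower.rel])
    rw [key _ le_rfl] at h2
    have h2' : A.S^[2 ^ n] A.o = A.S^[2 ^ n] A.o ∧ A.st (A.S^[2 ^ n] A.o) q := h2
    exact hA.st_uniq _ _ _ hst h2'.2
  · intro hq
    refine ⟨fun i => Sum.inl (A.S^[i] A.o), rfl, ?_, ?_⟩
    · intro i _
      change A.S (A.S^[i] A.o) = A.S^[i + 1] A.o
      rw [Function.iterate_succ_apply']
    · change A.S^[2 ^ n] A.o = A.S^[2 ^ n] A.o ∧ A.st (A.S^[2 ^ n] A.o) q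
      exact ⟨rfl, hq ▸ hst⟩

theorem tower_of (hG : CodeStatement) (hC : CodingStatement) (hR : RelAxStatement)
    (hK : ControlStatement) : TowerStatement := by
  intro L E hL m c0 hrich
  obtain ⟨κ, μ, ρ, hne, hex, heq⟩ := hC (Tower.Sym m) (finite_sym m) L E hL
  obtain ⟨φ, β, hφ1, hφ2, hβ⟩ := hR m c0
  obtain ⟨hrun, hctl⟩ := hK m c0 hrich
  obtain ⟨ψ, hψ⟩ := exists_tr μ ρ φ
  -- the models of the sentence
  have hmod : ∀ (M : Type) [L.Structure M], M ⊨ (κ ⊓ ψ : L.Sentence) ↔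
      M ⊨ κ ∧ φ.Sat (RelOf μ ρ M) Fin.elim0 := by
    intro M _
    have h1 := hψ M (Fin.elim0 : Fin 0 → MainPt μ M)
    rw [← h1]
    have e : (fun i => ((Fin.elim0 : Fin 0 → MainPt μ M) i).1 : Fin 0 → M) = default :=
      Subsingleton.elim _ _
    rw [e]
    change BoundedFormula.Realize (κ ⊓ ψ) (default : Empty → M) default ↔ _
    rw [BoundedFormula.realize_inf]
    rfl
  -- the codes of the standard towers
  have hstd : ∀ r : m.Run c0, ∃ (M : Type) (_ : L.Structure M), M ⊨ κ ∧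
      ∃ e : (Tower.std r.1).U ≃ MainPt μ M,
        ∀ c u v, (Tower.std r.1).rel c u v ↔ RelOf μ ρ M c (e u) (e v) := fun r =>
    hex _ (Tower.std r.1).rel ⟨Sum.inl (Tower.std r.1).o⟩
  choose Mr Sr hκ er her using hstd
  have hnonempty : ∀ r, Nonempty (Mr r) := by
    intro r
    letI := Sr r
    obtain ⟨x⟩ := hne (Mr r) (hκ r)
    exact ⟨x.1⟩
  have hax : ∀ r : m.Run c0, (Tower.std r.1).Ax c0 := fun r => Tower.std_Ax r
  have hspec : ∀ r : m.Run c0, (Tower.std r.1).Spec r.1 := fun r => Tower.std_Spec r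
  refine ⟨κ ⊓ ψ, fun r => letI := Sr r; L.completeTheory (Mr r), ?_, ?_, ?_⟩
  · intro r
    letI := Sr r
    refine ⟨⟨Mr r, Sr r, hnonempty r, rfl⟩, ?_⟩
    change (Mr r) ⊨ (κ ⊓ ψ : L.Sentence)
    rw [hmod]
    refine ⟨hκ r, ?_⟩
    have h1 := (Sat_iso _ _ (er r) (her r) φ Fin.elim0).mp (hφ1 _ (hax r))
    have e : (fun i => er r ((Fin.elim0 : Fin 0 → (Tower.std r.1).U) i) : Fin 0 → MainPt μ (Mr r)) =
      Fin.elim0 := Subsingleton.elim _ _
    rw [e] at h1
    exact h1
  · intro M _ _ ha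
    have ha' : M ⊨ (κ ⊓ ψ : L.Sentence) := ha
    rw [hmod] at ha'
    obtain ⟨A, hA, e, he⟩ := hφ2 (MainPt μ M) (RelOf μ ρ M) (hne M ha'.1) ha'.2
    obtain ⟨r, hr⟩ := hrun A hA
    refine ⟨r, ?_⟩
    letI := Sr r
    refine heq M (Mr r) ha'.1 (hκ r) ?_
    intro n
    refine EF_iso (RelOf μ ρ M) (RelOf μ ρ (Mr r)) A.rel (Tower.std r.1).rel e (er r).symm he ?_ n
      [] (hctl A _ r hA (hax r) hr (hspec r) n)
    intro c u v
    rw [her r c, Equiv.apply_symm_apply, Equiv.apply_symm_apply]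
  · -- the computable family
    obtain ⟨ψβ, hψβ⟩ := exists_tr μ ρ β
    obtain ⟨ψS, hψS⟩ := exists_tr μ ρ (RF.rel Tower.Sym.S (0 : Fin 2) (1 : Fin 2))
    have hQ : ∀ q : Fin m.nQ, ∃ ψq : L.BoundedFormula Empty 1, ∀ (M : Type) [L.Structure M]
        (v : Fin 1 → MainPt μ M), ψq.Realize (default : Empty → M) (fun i => (v i).1) ↔
          (RF.rel (Tower.Sym.uq q) (0 : Fin 1) (0 : Fin 1)).Sat (RelOf μ ρ M) v :=
      fun q => exists_tr μ ρ _
    choose ψQ hψQ using hQ
    obtain ⟨μ0, hμ0⟩ := exists_subst μ (![0] : Fin 1 → Fin 2)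
    obtain ⟨μ1, hμ1⟩ := exists_subst μ (![1] : Fin 1 → Fin 2)
    obtain ⟨g, hg, hgs⟩ := hG L E (μ ⊓ ψβ) (μ0 ⊓ μ1 ⊓ ψS) m.nQ (fun q => μ ⊓ ψQ q)
    refine ⟨g, hg, ?_⟩
    intro r n q
    letI := Sr r
    have h1 := hgs (Mr r) (hnonempty r) n q
    change (Mr r) ⊨ sent E (g (n, q)) ↔ _
    rw [h1]
    have hone : ∀ (χ : L.BoundedFormula Empty 1) (x : MainPt μ (Mr r)),
        χ.Realize (default : Empty → Mr r) ![x.1] ↔
          χ.Realize (default : Empty → Mr r) (fun i => ((![x] : Fin 1 → MainPt μ (Mr r)) i).1) := by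
      intro χ x
      have e : (fun i => ((![x] : Fin 1 → MainPt μ (Mr r)) i).1) = ![x.1] := by
        funext i; fin_cases i; rfl
      rw [e]
    have htwo : ∀ (χ : L.BoundedFormula Empty 2) (x y : MainPt μ (Mr r)),
        χ.Realize (default : Empty → Mr r) ![x.1, y.1] ↔
          χ.Realize (default : Empty → Mr r)
            (fun i => ((![x, y] : Fin 2 → MainPt μ (Mr r)) i).1) := by
      intro χ x y
      have e : (fun i => ((![x, y] : Fin 2 → MainPt μ (Mr r)) i).1) = ![x.1, y.1] := by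
        funext i; fin_cases i <;> rfl
      rw [e]
    have hB : ∀ x : Mr r, (μ ⊓ ψβ).Realize (default : Empty → Mr r) ![x] ↔
        ∃ u : (Tower.std r.1).U, x = (er r u).1 ∧ u = Sum.inl (Tower.std r.1).o := by
      intro x
      rw [BoundedFormula.realize_inf]
      constructor
      · rintro ⟨hx, hb⟩
        have hw : ∃ w : MainPt μ (Mr r), w.1 = x := ⟨⟨x, hx⟩, rfl⟩
        obtain ⟨w, rfl⟩ := hw
        refine ⟨(er r).symm w, ?_, ?_⟩
        · rw [Equiv.apply_symm_apply]
        · rw [hone, hψβ] at hb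
          have h2 := Sat_iso _ _ (er r) (her r) β ![(er r).symm w]
          have e : (fun i => er r ((![(er r).symm w] : Fin 1 → (Tower.std r.1).U) i)) = ![w] := by
            funext i; fin_cases i; exact Equiv.apply_symm_apply _ _
          rw [e] at h2
          exact (hβ _ (hax r) _).mp (h2.mpr hb)
      · rintro ⟨u, rfl, hu⟩
        refine ⟨(er r u).2, ?_⟩
        rw [hone, hψβ]
        have h2 := Sat_iso _ _ (er r) (her r) β ![u]
        have e : (fun i => er r ((![u] : Fin 1 → (Tower.std r.1).U) i)) = ![er r u] := by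
          funext i; fin_cases i; rfl
        rw [e] at h2
        exact h2.mp ((hβ _ (hax r) _).mpr hu)
    have hS : ∀ x y : Mr r, (μ0 ⊓ μ1 ⊓ ψS).Realize (default : Empty → Mr r) ![x, y] ↔
        ∃ u v : (Tower.std r.1).U, x = (er r u).1 ∧ y = (er r v).1 ∧
          (Tower.std r.1).rel .S u v := by
      intro x y
      rw [BoundedFormula.realize_inf, BoundedFormula.realize_inf, hμ0, hμ1]
      have e0 : (![x, y] ∘ (![0] : Fin 1 → Fin 2) : Fin 1 → Mr r) = ![x] := by
        funext i; fin_cases i; rfl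
      have e1 : (![x, y] ∘ (![1] : Fin 1 → Fin 2) : Fin 1 → Mr r) = ![y] := by
        funext i; fin_cases i; rfl
      rw [e0, e1]
      constructor
      · rintro ⟨⟨hx, hy⟩, hb⟩
        have hw : ∃ w : MainPt μ (Mr r), w.1 = x := ⟨⟨x, hx⟩, rfl⟩
        have hw' : ∃ w : MainPt μ (Mr r), w.1 = y := ⟨⟨y, hy⟩, rfl⟩
        obtain ⟨w, rfl⟩ := hw
        obtain ⟨w', rfl⟩ := hw'
        rw [htwo, hψS] at hb
        refine ⟨(er r).symm w, (er r).symm w', ?_, ?_, ?_⟩
        · rw [Equiv.apply_symm_apply]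
        · rw [Equiv.apply_symm_apply]
        · rw [her r, Equiv.apply_symm_apply, Equiv.apply_symm_apply]
          exact hb
      · rintro ⟨u, v, rfl, rfl, h⟩
        refine ⟨⟨(er r u).2, (er r v).2⟩, ?_⟩
        rw [htwo, hψS]
        exact (her r _ _ _).mp h
    have hQ' : ∀ (q : Fin m.nQ) (x : Mr r), (μ ⊓ ψQ q).Realize (default : Empty → Mr r) ![x] ↔
        ∃ u : (Tower.std r.1).U, x = (er r u).1 ∧ (Tower.std r.1).rel (.uq q) u u := by
      intro q x
      rw [BoundedFormula.realize_inf]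
      constructor
      · rintro ⟨hx, hb⟩
        have hw : ∃ w : MainPt μ (Mr r), w.1 = x := ⟨⟨x, hx⟩, rfl⟩
        obtain ⟨w, rfl⟩ := hw
        rw [hone, hψQ] at hb
        refine ⟨(er r).symm w, ?_, ?_⟩
        · rw [Equiv.apply_symm_apply]
        · rw [her r, Equiv.apply_symm_apply]
          exact hb
      · rintro ⟨u, rfl, h⟩
        refine ⟨(er r u).2, ?_⟩
        rw [hone, hψQ]
        exact (her r _ _ _).mp h
    constructor
    · rintro ⟨hq, f, h0, h1, h2⟩
      have hinj : ∀ u v : (Tower.std r.1).U, (er r u).1 = (er r v).1 → u = v := fun u v h =>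
        (er r).injective (Subtype.ext h)
      rw [hB] at h0
      obtain ⟨u0, hu0, hu0'⟩ := h0
      -- every element of the chain is a main point
      have hmain : ∀ i ≤ 2 ^ n, ∃ u : (Tower.std r.1).U, f i = (er r u).1 := by
        intro i hi
        rcases Nat.eq_zero_or_pos i with rfl | hpos
        · exact ⟨u0, hu0⟩
        · have := h1 (i - 1) (by omega)
          rw [hS] at this
          obtain ⟨u, v, _, hv, _⟩ := this
          have hi' : i - 1 + 1 = i := by omega
          rw [hi'] at hv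
          exact ⟨v, hv⟩
      choose F hF using hmain
      have hch := (chain_std (Tower.std r.1) (hax r) r (hspec r) n ⟨q, hq⟩).mp
        ⟨fun i => if h : i ≤ 2 ^ n then F i h else u0, ?_, ?_, ?_⟩
      · rw [hch]
      · have h00 : (0 : ℕ) ≤ 2 ^ n := Nat.zero_le _
        simp only [h00, dif_pos]
        have : F 0 h00 = u0 := hinj _ _ (by rw [← hF, ← hu0])
        rw [this, hu0']
      · intro i hi
        have hi1 : i ≤ 2 ^ n := by omega
        have hi2 : i + 1 ≤ 2 ^ n := by omega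
        simp only [hi1, hi2, dif_pos]
        have := h1 i hi
        rw [hS] at this
        obtain ⟨u, v, hu, hv, h⟩ := this
        have e1 : F i hi1 = u := hinj _ _ (by rw [← hF, ← hu])
        have e2 : F (i + 1) hi2 = v := hinj _ _ (by rw [← hF, ← hv])
        rw [e1, e2]
        exact h
      · have hn : 2 ^ n ≤ 2 ^ n := le_rfl
        simp only [hn, dif_pos]
        rw [hQ'] at h2
        obtain ⟨u, hu, h⟩ := h2
        have e1 : F (2 ^ n) hn = u := hinj _ _ (by rw [← hF, ← hu])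
        rw [e1]
        exact h
    · intro hq
      have hlt : q < m.nQ := hq ▸ ((r.1 n).1).2
      obtain ⟨f, h0, h1, h2⟩ := (chain_std (Tower.std r.1) (hax r) r (hspec r) n ⟨q, hlt⟩).mpr
        (Fin.ext hq)
      refine ⟨hlt, fun i => (er r (f i)).1, ?_, ?_, ?_⟩
      · rw [hB]
        exact ⟨f 0, rfl, h0⟩
      · intro i hi
        rw [hS]
        exact ⟨f i, f (i + 1), rfl, rfl, h1 i hi⟩
      · rw [hQ']
        exact ⟨f (2 ^ n), rfl, h2⟩

end Pool.Agent.LIN
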