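import Pool.Agent.LIN.Iface

/-! # [LIN-GCA] Predicates that are defined by one first-order formula in all structures

`FO L P`: there is one formula (with the free variables `α`) that defines `P M` in every structure `M`.  To prove that a property of all structures is first-order write it as a
Lean proposition and use the closure properties (`FO.all1`, `FO.ex1`: one variable; `FO.all`, `FO.ex`: a finite block of variables; `FO.fin_all`, `FO.fin_ex`: finite conjunctions). -/

namespace Pool.Agent.LIN

open FirstOrder FirstOrder.Language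

/-- One formula defines `P M` for all structures `M`. -/
def FO (L : FirstOrder.Language.{0, 0}) {α : Type} (P : ∀ (M : Type) (_ : L.Structure M), (α → M) → Prop) :
    Prop :=
  ∃ φ : L.Formula α, ∀ (M : Type) (_ : L.Structure M) (v : α → M), φ.Realize v ↔ P M ‹_› v

variable {L : FirstOrder.Language.{0, 0}} {α β : Type}

namespace FO

variable {P Q : ∀ (M : Type) (_ : L.Structure M), (α → M) → Prop}

theorem congr (h : FO L P) (hPQ : ∀ (M : Type) (i : L.Structure M) (v : α → M), P M i v ↔ Q M i v) :
    FO L Q := by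
  obtain ⟨φ, hφ⟩ := h
  exact ⟨φ, fun M i v => (hφ M i v).trans (hPQ M i v)⟩

theorem eq (a b : α) : FO L (fun _ _ v => v a = v b) := by
  refine ⟨Term.equal (Term.var a) (Term.var b), fun M i v => ?_⟩
  simp [Formula.realize_equal]

theorem rel {n : ℕ} (R : L.Relations n) (x : Fin n → α) :
    FO L (fun _ _ v => Structure.RelMap R (fun k => v (x k))) := by
  refine ⟨Relations.formula R (fun k => Term.var (x k)), fun M i v => ?_⟩
  simp [Formula.realize_rel]

theorem fn {n : ℕ} (f : L.Functions n) (x : Fin n → α) (b : α) :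
    FO L (fun _ _ v => Structure.funMap f (fun k => v (x k)) = v b) := by
  refine ⟨Term.equal (Term.func f (fun k => Term.var (x k))) (Term.var b), fun M i v => ?_⟩
  simp [Formula.realize_equal]

theorem not (h : FO L P) : FO L (fun M i v => ¬ P M i v) := by
  obtain ⟨φ, hφ⟩ := h
  exact ⟨φ.not, fun M i v => by rw [Formula.realize_not, hφ]⟩

theorem and (h : FO L P) (h' : FO L Q) : FO L (fun M i v => P M i v ∧ Q M i v) := by
  obtain ⟨φ, hφ⟩ := h
  obtain ⟨ψ, hψ⟩ := h'
  exact ⟨φ ⊓ ψ, fun M i v => by rw [Formula.realize_inf, hφ, hψ]⟩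

theorem imp (h : FO L P) (h' : FO L Q) : FO L (fun M i v => P M i v → Q M i v) := by
  obtain ⟨φ, hφ⟩ := h
  obtain ⟨ψ, hψ⟩ := h'
  exact ⟨φ.imp ψ, fun M i v => by rw [Formula.realize_imp, hφ, hψ]⟩

theorem or (h : FO L P) (h' : FO L Q) : FO L (fun M i v => P M i v ∨ Q M i v) :=
  (imp (not h) h').congr (fun M i v => by tauto)

theorem iff (h : FO L P) (h' : FO L Q) : FO L (fun M i v => P M i v ↔ Q M i v) :=
  (and (imp h h') (imp h' h)).congr (fun M i v => by tauto)

theorem const (p : Prop) : FO L (α := α) (fun _ _ _ => p) := by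
  by_cases hp : p
  · refine ⟨⊤, fun M i v => ?_⟩
    simp [hp]
  · refine ⟨⊥, fun M i v => ?_⟩
    simp [hp]

theorem fin_all {ι : Type} [Finite ι] {P : ι → ∀ (M : Type) (_ : L.Structure M), (α → M) → Prop}
    (h : ∀ k, FO L (P k)) : FO L (fun M i v => ∀ k, P k M i v) := by
  choose φ hφ using h
  refine ⟨BoundedFormula.iInf φ, fun M i v => ?_⟩
  unfold Formula.Realize
  rw [BoundedFormula.realize_iInf]
  exact forall_congr' (fun k => hφ k M i v)

theorem fin_ex {ι : Type} [Finite ι] {P : ι → ∀ (M : Type) (_ : L.Structure M), (α → M) → Prop}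
    (h : ∀ k, FO L (P k)) : FO L (fun M i v => ∃ k, P k M i v) := by
  choose φ hφ using h
  refine ⟨BoundedFormula.iSup φ, fun M i v => ?_⟩
  unfold Formula.Realize
  rw [BoundedFormula.realize_iSup]
  exact exists_congr (fun k => hφ k M i v)

/-- a finite block of universal quantifiers: the new variables are `Sum.inr b` -/
theorem all [Finite β] {P : ∀ (M : Type) (_ : L.Structure M), (β → M) → (α → M) → Prop}
    (h : FO L (α := α ⊕ β) (fun M i v => P M i (fun b => v (Sum.inr b)) (fun a => v (Sum.inl a)))) :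
    FO L (fun M i v => ∀ w : β → M, P M i w v) := by
  obtain ⟨φ, hφ⟩ := h
  refine ⟨φ.iAlls β, fun M i v => ?_⟩
  rw [Formula.realize_iAlls]
  exact forall_congr' (fun w => hφ M i (Sum.elim v w))

theorem ex [Finite β] {P : ∀ (M : Type) (_ : L.Structure M), (β → M) → (α → M) → Prop}
    (h : FO L (α := α ⊕ β) (fun M i v => P M i (fun b => v (Sum.inr b)) (fun a => v (Sum.inl a)))) :
    FO L (fun M i v => ∃ w : β → M, P M i w v) := by
  obtain ⟨φ, hφ⟩ := h
  refine ⟨φ.iExs β, fun M i v => ?_⟩
  rw [Formula.realize_iExs]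
  exact exists_congr (fun w => hφ M i (Sum.elim v w))

/-- renaming and identifying variables -/
theorem sub {P : ∀ (M : Type) (_ : L.Structure M), (α → M) → Prop} (h : FO L P) (g : α → β) :
    FO L (fun M i (v : β → M) => P M i (fun a => v (g a))) := by
  obtain ⟨φ, hφ⟩ := h
  refine ⟨φ.relabel g, fun M i v => ?_⟩
  rw [Formula.realize_relabel, hφ]
  exact Iff.rfl

/-- one universal quantifier: the new variable is `none` -/
theorem all1 {P : ∀ (M : Type) (_ : L.Structure M), M → (α → M) → Prop}
    (h : FO L (α := Option α) (fun M i v => P M i (v none) (fun a => v (some a)))) :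
    FO L (fun M i v => ∀ x : M, P M i x v) := by
  have h1 := h.sub (β := α ⊕ Unit) (fun o => Option.elim o (Sum.inr ()) Sum.inl)
  have h2 := all (β := Unit) (P := fun M i (w : Unit → M) v => P M i (w ()) v) h1
  refine h2.congr (fun M i v => ?_)
  exact ⟨fun h x => h (fun _ => x), fun h w => h (w ())⟩

theorem ex1 {P : ∀ (M : Type) (_ : L.Structure M), M → (α → M) → Prop}
    (h : FO L (α := Option α) (fun M i v => P M i (v none) (fun a => v (some a)))) :
    FO L (fun M i v => ∃ x : M, P M i x v) := by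
  have h1 := h.sub (β := α ⊕ Unit) (fun o => Option.elim o (Sum.inr ()) Sum.inl)
  have h2 := ex (β := Unit) (P := fun M i (w : Unit → M) v => P M i (w ()) v) h1
  refine h2.congr (fun M i v => ?_)
  exact ⟨fun ⟨w, h⟩ => ⟨w (), h⟩, fun ⟨x, h⟩ => ⟨fun _ => x, h⟩⟩

/-- Mathlib's bounded formulas with `n` bound variables -/
theorem bounded {n : ℕ} {P : ∀ (M : Type) (_ : L.Structure M), (Fin n → M) → Prop} (h : FO L P) :
    ∃ φ : L.BoundedFormula Empty n, ∀ (M : Type) (i : L.Structure M) (v : Empty → M) (w : Fin n → M),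
      φ.Realize v w ↔ P M i w := by
  obtain ⟨φ, hφ⟩ := h
  refine ⟨BoundedFormula.relabel (n := n) (k := 0) (Sum.inr : Fin n → Empty ⊕ Fin n) φ, fun M i v w => ?_⟩
  rw [BoundedFormula.realize_relabel]
  refine Iff.trans ?_ (hφ M i w)
  unfold Formula.Realize
  exact iff_of_eq (congrArg _ (funext fun x => Fin.elim0 x))

/-- a sentence -/
theorem sentence {P : ∀ (M : Type) (_ : L.Structure M), Prop} (h : FO L (α := Empty) (fun M i _ => P M i)) :
    ∃ φ : L.Sentence, ∀ (M : Type) (_ : L.Structure M), (M ⊨ φ) ↔ P M ‹_› := by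
  obtain ⟨φ, hφ⟩ := h
  exact ⟨φ, fun M i => hφ M i default⟩

end FO

end Pool.Agent.LIN
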