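import Pool.Agent.LIN.GCA

/-! # [LIN-GCB] Closed positions -/

namespace Pool.Agent.LIN

open FirstOrder FirstOrder.Language

/-- Back and forth with positions that are closed under the functions. -/
theorem completeTheory_eq_of_bf {L : FirstOrder.Language.{0, 0}} {M M' : Type} (i : L.Structure M)
    (i' : L.Structure M') (J : ℕ → (M → M' → Prop) → Prop)
    (heq : ∀ r P, J r P → ∀ a b a' b', P a b → P a' b' → (a = a' ↔ b = b'))
    (hrel : ∀ r P, J r P → ∀ (n : ℕ) (R : L.Relations n) (x : Fin n → M) (y : Fin n → M'),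
      (∀ i, P (x i) (y i)) → (Structure.RelMap R x ↔ Structure.RelMap R y))
    (hfn : ∀ r P, J r P → ∀ (n : ℕ) (f : L.Functions n) (x : Fin n → M) (y : Fin n → M'),
      (∀ i, P (x i) (y i)) → P (Structure.funMap f x) (Structure.funMap f y))
    (hforth : ∀ r P, J (r + 1) P → ∀ a, ∃ P' b, J r P' ∧ (∀ x y, P x y → P' x y) ∧ P' a b)
    (hback : ∀ r P, J (r + 1) P → ∀ b, ∃ P' a, J r P' ∧ (∀ x y, P x y → P' x y) ∧ P' a b)
    (hstart : ∀ r, ∃ P, J r P) : L.completeTheory M = L.completeTheory M' := by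
  have hterm : ∀ (r : ℕ) (P : M → M' → Prop), J r P → ∀ (n : ℕ) (t : L.Term (Empty ⊕ Fin n))
      (v : Empty → M) (v' : Empty → M') (x : Fin n → M) (y : Fin n → M'), (∀ i, P (x i) (y i)) →
      P (t.realize (Sum.elim v x)) (t.realize (Sum.elim v' y)) := by
    intro r P hP n t v v' x y hxy
    induction t with
    | var a =>
      rcases a with a | a
      · exact a.elim
      · exact hxy a
    | func f ts ih => exact hfn r P hP _ f _ _ ih
  have key : ∀ (n : ℕ) (φ : L.BoundedFormula Empty n), ∃ k : ℕ, ∀ r ≥ k, ∀ P, J r P →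
      ∀ (v : Empty → M) (v' : Empty → M') (x : Fin n → M) (y : Fin n → M'), (∀ i, P (x i) (y i)) →
      (φ.Realize v x ↔ φ.Realize v' y) := by
    intro n φ
    induction φ with
    | falsum => exact ⟨0, fun r _ P _ v v' x y _ => Iff.rfl⟩
    | equal t₁ t₂ =>
      refine ⟨0, fun r _ P hP v v' x y hxy => ?_⟩
      exact heq r P hP _ _ _ _ (hterm r P hP _ t₁ v v' x y hxy) (hterm r P hP _ t₂ v v' x y hxy)
    | rel R ts =>
      refine ⟨0, fun r _ P hP v v' x y hxy => ?_⟩
      exact hrel r P hP _ R _ _ (fun i => hterm r P hP _ (ts i) v v' x y hxy)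
    | imp f₁ f₂ ih₁ ih₂ =>
      obtain ⟨k₁, h₁⟩ := ih₁
      obtain ⟨k₂, h₂⟩ := ih₂
      refine ⟨max k₁ k₂, fun r hr P hP v v' x y hxy => ?_⟩
      exact imp_congr (h₁ r (le_of_max_le_left hr) P hP v v' x y hxy)
        (h₂ r (le_of_max_le_right hr) P hP v v' x y hxy)
    | all f ih =>
      obtain ⟨k, h⟩ := ih
      refine ⟨k + 1, fun r hr P hP v v' x y hxy => ?_⟩
      obtain ⟨r', rfl⟩ : ∃ r', r = r' + 1 := ⟨r - 1, by omega⟩
      have hr' : r' ≥ k := by omega
      have hsn : ∀ (P' : M → M' → Prop) (a : M) (b : M'), (∀ x y, P x y → P' x y) → P' a b →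
          ∀ i, P' ((Fin.snoc x a : Fin _ → M) i) ((Fin.snoc y b : Fin _ → M') i) := by
        intro P' a b hPP hab i
        refine Fin.lastCases ?_ (fun j => ?_) i
        · rw [Fin.snoc_last, Fin.snoc_last]
          exact hab
        · rw [Fin.snoc_castSucc, Fin.snoc_castSucc]
          exact hPP _ _ (hxy j)
      constructor
      · intro h1 b
        obtain ⟨P', a, hP', hPP, hab⟩ := hback r' P hP b
        exact (h r' hr' P' hP' v v' _ _ (hsn P' a b hPP hab)).1 (h1 a)
      · intro h1 a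
        obtain ⟨P', b, hP', hPP, hab⟩ := hforth r' P hP a
        exact (h r' hr' P' hP' v v' _ _ (hsn P' a b hPP hab)).2 (h1 b)
  ext φ
  obtain ⟨k, hk⟩ := key 0 φ
  obtain ⟨P, hP⟩ := hstart k
  exact hk k le_rfl P hP default default default default (fun i => Fin.elim0 i)

/-- isomorphic structures -/
theorem completeTheory_eq_of_equiv {L : FirstOrder.Language.{0, 0}} {M M' : Type} (i : L.Structure M)
    (i' : L.Structure M') (e : M ≃ M')
    (hrel : ∀ (n : ℕ) (R : L.Relations n) (x : Fin n → M),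
      (Structure.RelMap R x ↔ Structure.RelMap R (fun i => e (x i))))
    (hfn : ∀ (n : ℕ) (f : L.Functions n) (x : Fin n → M),
      e (Structure.funMap f x) = Structure.funMap f (fun i => e (x i))) :
    L.completeTheory M = L.completeTheory M' := by
  refine completeTheory_eq_of_bf i i' (fun _ P => P = fun a b => e a = b) ?_ ?_ ?_ ?_ ?_ ?_
  · rintro r P rfl a b a' b' rfl rfl
    exact e.apply_eq_iff_eq.symm
  · rintro r P rfl n R x y hxy
    rw [show y = fun i => e (x i) from funext fun i => (hxy i).symm]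
    exact hrel n R x
  · rintro r P rfl n f x y hxy
    rw [show y = fun i => e (x i) from funext fun i => (hxy i).symm]
    exact hfn n f x
  · rintro r P rfl a
    exact ⟨_, e a, rfl, fun _ _ h => h, rfl⟩
  · rintro r P rfl b
    exact ⟨_, e.symm b, rfl, fun _ _ h => h, e.apply_symm_apply b⟩
  · exact fun r => ⟨_, rfl⟩

/-- Back and forth systems for digraphs with a base point. -/
structure BFE {V V' : Type} (E : V → V → Prop) (s : V) (E' : V' → V' → Prop) (s' : V') where
  J : ℕ → (V → V' → Prop) → Prop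
  base : ∀ r P, J r P → P s s'
  eq : ∀ r P, J r P → ∀ a b a' b', P a b → P a' b' → (a = a' ↔ b = b')
  edge : ∀ r P, J r P → ∀ a b a' b', P a b → P a' b' → (E a a' ↔ E' b b')
  forth : ∀ r P, J (r + 1) P → ∀ a, ∃ P' b, J r P' ∧ (∀ x y, P x y → P' x y) ∧ P' a b
  back : ∀ r P, J (r + 1) P → ∀ b, ∃ P' a, J r P' ∧ (∀ x y, P x y → P' x y) ∧ P' a b
  start : ∀ r, ∃ P, J r P

/-- transport of both digraphs along isomorphisms -/
def BFE.congr {V V' V₁ V₁' : Type} {E : V → V → Prop} {s : V} {E' : V' → V' → Prop} {s' : V'}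
    {E₁ : V₁ → V₁ → Prop} {s₁ : V₁} {E₁' : V₁' → V₁' → Prop} {s₁' : V₁'} (h : BFE E s E' s')
    (e : V ≃ V₁) (he : ∀ a b, E a b ↔ E₁ (e a) (e b)) (hs : e s = s₁)
    (e' : V' ≃ V₁') (he' : ∀ a b, E' a b ↔ E₁' (e' a) (e' b)) (hs' : e' s' = s₁') :
    BFE E₁ s₁ E₁' s₁' where
  J r P := h.J r (fun a b => P (e a) (e' b))
  base r P hP := by
    have h1 := h.base r _ hP
    rw [hs, hs'] at h1
    exact h1
  eq r P hP a b a' b' h1 h2 := by
    have h3 := h.eq r _ hP (e.symm a) (e'.symm b) (e.symm a') (e'.symm b')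
      (by simpa using h1) (by simpa using h2)
    simpa using h3
  edge r P hP a b a' b' h1 h2 := by
    have h3 := h.edge r _ hP (e.symm a) (e'.symm b) (e.symm a') (e'.symm b')
      (by simpa using h1) (by simpa using h2)
    rw [he, he'] at h3
    simpa using h3
  forth r P hP a := by
    obtain ⟨P', b, hP', hPP, hab⟩ := h.forth r _ hP (e.symm a)
    refine ⟨fun x y => P' (e.symm x) (e'.symm y), e' b, ?_, ?_, ?_⟩
    · simpa using hP'
    · intro x y hxy
      exact hPP _ _ (by simpa using hxy)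
    · simpa using hab
  back r P hP b := by
    obtain ⟨P', a, hP', hPP, hab⟩ := h.back r _ hP (e'.symm b)
    refine ⟨fun x y => P' (e.symm x) (e'.symm y), e a, ?_, ?_, ?_⟩
    · simpa using hP'
    · intro x y hxy
      exact hPP _ _ (by simpa using hxy)
    · simpa using hab
  start r := by
    obtain ⟨P, hP⟩ := h.start r
    exact ⟨fun x y => P (e.symm x) (e'.symm y), by simpa using hP⟩

end Pool.Agent.LIN
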