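import Pool.Agent.LIN.TW0
import Pool.Agent.LIN.GCB

/-! # [LIN-GCC] The digraph of a structure with finitely many binary relations -/

namespace Pool.Agent.LIN

/-- Points of the digraph coding `(U, R)`: main points, ports, special points. -/
inductive VP (C U : Type) : Type
  | main (u : U)
  | port (c : C) (u : U)
  | sp (a : Option C)

/-- Edges of the digraph; `rk` numbers the special points. -/
def VE {C U : Type} (rk : Option C → ℕ) (R : C → U → U → Prop) : VP C U → VP C U → Prop
  | .sp a, .sp b => rk a ≤ rk b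
  | .port c _, .sp a => a = some c
  | .main u, .port _ u' => u = u'
  | .port c u, .main v => R c u v
  | _, _ => False

/-- Corresponding points. -/
def VPP {C U U' : Type} (l : List (U × U')) : VP C U → VP C U' → Prop
  | .main u, .main u' => (u, u') ∈ l
  | .port c u, .port c' u' => c = c' ∧ (u, u') ∈ l
  | .sp a, .sp a' => a = a'
  | _, _ => False

section
variable {C U U' : Type} {R : C → U → U → Prop} {R' : C → U' → U' → Prop}

theorem EF_atom {r : ℕ} {l : List (U × U')} (h : EF R R' r l) :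
    ∀ a ∈ l, ∀ b ∈ l, (a.1 = b.1 ↔ a.2 = b.2) ∧ ∀ c, R c a.1 b.1 ↔ R' c a.2 b.2 := by
  cases r with
  | zero => exact h
  | succ r => exact h.1

theorem EF_mono {r : ℕ} : ∀ {l : List (U × U')}, EF R R' (r + 1) l → EF R R' r l := by
  induction r with
  | zero => exact fun h => h.1
  | succ r ih =>
    intro l h
    refine ⟨h.1, fun u => ?_, fun u' => ?_⟩
    · obtain ⟨u', hu'⟩ := h.2.1 u
      exact ⟨u', ih hu'⟩
    · obtain ⟨u, hu⟩ := h.2.2 u'
      exact ⟨u, ih hu⟩

theorem VPP_mono {l : List (U × U')} (x : U × U') (a : VP C U) (b : VP C U') (h : VPP l a b) :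
    VPP (x :: l) a b := by
  cases a <;> cases b <;> simp_all [VPP]

/-- The digraphs of indistinguishable structures are indistinguishable. -/
def F_BF (rk : Option C → ℕ) (h : ∀ n, EF R R' n []) :
    BFE (VE rk R) (.sp none) (VE rk R') (.sp none) where
  J r P := ∃ l, EF R R' r l ∧ P = VPP l
  base := by
    rintro r P ⟨l, hl, rfl⟩
    rfl
  eq := by
    rintro r P ⟨l, hl, rfl⟩ a b a' b' h1 h2
    have h3 := EF_atom hl
    cases a <;> cases b <;> cases a' <;> cases b' <;> simp_all [VPP]
    · exact (h3 _ _ h1 _ _ h2).1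
    · exact fun _ => (h3 _ _ h1.2 _ _ h2.2).1
  edge := by
    rintro r P ⟨l, hl, rfl⟩ a b a' b' h1 h2
    have h3 := EF_atom hl
    cases a <;> cases b <;> cases a' <;> cases b' <;> simp_all [VPP, VE]
    · exact (h3 _ _ h1 _ _ h2.2).1
    · exact (h3 _ _ h1.2 _ _ h2).2 _
  forth := by
    rintro r P ⟨l, hl, rfl⟩ a
    cases a with
    | main u =>
      obtain ⟨u', hu'⟩ := hl.2.1 u
      exact ⟨_, .main u', ⟨_, hu', rfl⟩, VPP_mono _, by simp [VPP]⟩
    | port c u =>
      obtain ⟨u', hu'⟩ := hl.2.1 u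
      exact ⟨_, .port c u', ⟨_, hu', rfl⟩, VPP_mono _, by simp [VPP]⟩
    | sp a => exact ⟨_, .sp a, ⟨l, EF_mono hl, rfl⟩, fun _ _ h => h, rfl⟩
  back := by
    rintro r P ⟨l, hl, rfl⟩ b
    cases b with
    | main u' =>
      obtain ⟨u, hu⟩ := hl.2.2 u'
      exact ⟨_, .main u, ⟨_, hu, rfl⟩, VPP_mono _, by simp [VPP]⟩
    | port c u' =>
      obtain ⟨u, hu⟩ := hl.2.2 u'
      exact ⟨_, .port c u, ⟨_, hu, rfl⟩, VPP_mono _, by simp [VPP]⟩
    | sp a => exact ⟨_, .sp a, ⟨l, EF_mono hl, rfl⟩, fun _ _ h => h, rfl⟩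
  start r := ⟨_, [], h r, rfl⟩

end

/-! ### the axioms of these digraphs -/

section
variable {C X : Type}

/-- main points -/
def MainD (E : X → X → Prop) (s : Option C → X) (x : X) : Prop :=
  (∀ a, ¬ x = s a) ∧ ∀ a, ¬ E x (s a)

/-- ports of colour `c` -/
def PortD (E : X → X → Prop) (s : Option C → X) (c : C) (x : X) : Prop :=
  (∀ a, ¬ x = s a) ∧ ∀ a, (E x (s a) ↔ a = some c)

/-- The axioms of the digraph coding a structure with the binary relations `C`, relativised to `D`. -/
structure Psi (rk : Option C → ℕ) (D : X → Prop) (E : X → X → Prop) (s : Option C → X) : Prop where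
  sD : ∀ a, D (s a)
  inj : ∀ a b, s a = s b → a = b
  ss : ∀ a b, E (s a) (s b) ↔ rk a ≤ rk b
  loop : ∀ x, D x → E x x → ∃ a, x = s a
  out : ∀ x, D x → ∀ a, E (s a) x → ∃ b, x = s b
  cases : ∀ x, D x → (∃ a, x = s a) ∨ MainD E s x ∨ ∃ c, PortD E s c x
  port_ex : ∀ x, D x → MainD E s x → ∀ c, ∃ y, D y ∧ PortD E s c y ∧ E x y
  port_uniq : ∀ x, D x → ∀ y, D y → ∀ z, D z → MainD E s x → ∀ c, PortD E s c y → PortD E s c z →
    E x y → E x z → y = z
  main_ex : ∀ y, D y → ∀ c, PortD E s c y → ∃ x, D x ∧ MainD E s x ∧ E x y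
  main_uniq : ∀ y, D y → ∀ x, D x → ∀ z, D z → ∀ c, PortD E s c y → MainD E s x → MainD E s z →
    E x y → E z y → x = z
  mm : ∀ x, D x → ∀ y, D y → MainD E s x → MainD E s y → ¬ E x y
  pp : ∀ x, D x → ∀ y, D y → ∀ c c', PortD E s c x → PortD E s c' y → ¬ E x y
  ne : ∃ x, D x ∧ MainD E s x

/-- the special points are unique -/
theorem Psi.uniq {rk : Option C → ℕ} (hrk : Function.Injective rk) {D : X → Prop} {E : X → X → Prop}
    {s s' : Option C → X} (h : Psi rk D E s) (h' : Psi rk D E s') : s = s' := by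
  have h1 : ∀ a, ∃ b, s' a = s b := fun a => h.loop _ (h'.sD a) ((h'.ss a a).2 le_rfl)
  have h2 : ∀ a, ∃ b, s a = s' b := fun a => h'.loop _ (h.sD a) ((h.ss a a).2 le_rfl)
  choose σ hσ using h1
  choose τ hτ using h2
  have hle : ∀ a b, rk a ≤ rk b ↔ rk (σ a) ≤ rk (σ b) := by
    intro a b
    rw [← h'.ss, ← h.ss, hσ, hσ]
  have hσi : ∀ a b, σ a = σ b → a = b := by
    intro a b hab
    apply h'.inj
    rw [hσ, hσ, hab]
  have hστ : ∀ a, σ (τ a) = a := by
    intro a
    apply h.inj
    rw [← hσ, ← hτ]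
  have key : ∀ n a, rk a = n → σ a = a := by
    intro n
    induction n using Nat.strong_induction_on with
    | _ n ih =>
      intro a ha
      rcases lt_trichotomy (rk (σ a)) (rk a) with h3 | h3 | h3
      · exact hσi _ _ (ih _ (by omega) (σ a) rfl)
      · exact hrk h3
      · exfalso
        have h4 : rk (τ a) < rk a := by
          by_contra h5
          have h6 := (hle a (τ a)).1 (not_lt.1 h5)
          rw [hστ] at h6
          omega
        have h7 := ih _ (by omega) (τ a) rfl
        rw [hστ] at h7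
        rw [← h7] at h4
        omega
  funext a
  rw [hσ a, key _ a rfl]

/-- decoding -/
theorem Psi.decode {rk : Option C → ℕ} {D : X → Prop} {E : X → X → Prop}
    {s : Option C → X} (h : Psi rk D E s) {U : Type} (ι : U → X) (hι : Function.Injective ι)
    (hr : ∀ x, (D x ∧ MainD E s x) ↔ ∃ u, ι u = x) {R : C → U → U → Prop}
    (hR : ∀ c u v, R c u v ↔ ∃ z, D z ∧ PortD E s c z ∧ E (ι u) z ∧ E z (ι v)) :
    ∃ e : VP C U ≃ {x : X // D x}, (∀ a b, VE rk R a b ↔ E (e a).1 (e b).1) ∧
      (∀ a, (e (.sp a)).1 = s a) ∧ ∀ u, (e (.main u)).1 = ι u := by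
  classical
  have hmu : ∀ u, D (ι u) ∧ MainD E s (ι u) := fun u => (hr _).2 ⟨u, rfl⟩
  have hp : ∀ c u, ∃ y, D y ∧ PortD E s c y ∧ E (ι u) y := fun c u =>
    h.port_ex _ (hmu u).1 (hmu u).2 c
  choose p hpD hpP hpE using hp
  let f : VP C U → {x : X // D x} := fun a => match a with
    | .main u => ⟨ι u, (hmu u).1⟩
    | .port c u => ⟨p c u, hpD c u⟩
    | .sp a => ⟨s a, h.sD a⟩
  -- ports of different colours are different
  have hcol : ∀ c c' y, PortD E s c y → PortD E s c' y → c = c' := by
    intro c c' y h1 h2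
    have h3 : E y (s (some c)) := (h1.2 _).2 rfl
    exact Option.some_injective _ ((h2.2 _).1 h3)
  have hmp : ∀ c y, MainD E s y → ¬ PortD E s c y := by
    intro c y h1 h2
    exact h1.2 _ ((h2.2 (some c)).2 rfl)
  have hinj : Function.Injective f := by
    intro a b hab
    have hab' : (f a).1 = (f b).1 := congrArg Subtype.val hab
    cases a with
    | main u =>
      cases b with
      | main v =>
        have h1 : ι u = ι v := hab'
        rw [hι h1]
      | port c v =>
        exfalso
        have h1 : ι u = p c v := hab'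
        exact hmp c _ (hmu u).2 (h1 ▸ hpP c v)
      | sp a =>
        exfalso
        have h1 : ι u = s a := hab'
        exact (hmu u).2.1 a h1
    | port c u =>
      cases b with
      | main v =>
        exfalso
        have h1 : p c u = ι v := hab'
        exact hmp c _ (hmu v).2 (h1 ▸ hpP c u)
      | port c' v =>
        have h1 : p c u = p c' v := hab'
        have h2 : c = c' := hcol c c' _ (hpP c u) (h1 ▸ hpP c' v)
        subst h2
        have h3 : ι u = ι v := h.main_uniq (p c u) (hpD c u) _ (hmu u).1 _ (hmu v).1 c (hpP c u) (hmu u).2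
          (hmu v).2 (hpE c u) (h1 ▸ hpE c v)
        rw [hι h3]
      | sp a =>
        exfalso
        have h1 : p c u = s a := hab'
        exact (hpP c u).1 a h1
    | sp a =>
      cases b with
      | main v =>
        exfalso
        have h1 : s a = ι v := hab'
        exact (hmu v).2.1 a h1.symm
      | port c v =>
        exfalso
        have h1 : s a = p c v := hab'
        exact (hpP c v).1 a h1.symm
      | sp b =>
        have h1 : s a = s b := hab'
        rw [h.inj _ _ h1]
  have hsurj : Function.Surjective f := by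
    rintro ⟨x, hx⟩
    rcases h.cases x hx with ⟨a, ha⟩ | hm | ⟨c, hc⟩
    · exact ⟨.sp a, Subtype.ext ha.symm⟩
    · obtain ⟨u, hu⟩ := (hr x).1 ⟨hx, hm⟩
      exact ⟨.main u, Subtype.ext hu⟩
    · obtain ⟨y, hyD, hyM, hyE⟩ := h.main_ex x hx c hc
      obtain ⟨u, rfl⟩ := (hr y).1 ⟨hyD, hyM⟩
      refine ⟨.port c u, Subtype.ext ?_⟩
      exact h.port_uniq _ hyD _ (hpD c u) _ hx hyM c (hpP c u) hc (hpE c u) hyE
  refine ⟨Equiv.ofBijective f ⟨hinj, hsurj⟩, ?_, fun a => rfl, fun u => rfl⟩
  intro a b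
  show VE rk R a b ↔ E (f a).1 (f b).1
  have hsn : ∀ a x, D x → (∀ b, ¬ x = s b) → ¬ E (s a) x := fun a x hx h1 h2 => by
    obtain ⟨b, hb⟩ := h.out x hx a h2
    exact h1 b hb
  cases a with
  | main u =>
    cases b with
    | main v => exact iff_of_false (fun h => h) (h.mm _ (hmu u).1 _ (hmu v).1 (hmu u).2 (hmu v).2)
    | port c v =>
      show u = v ↔ E (ι u) (p c v)
      constructor
      · rintro rfl
        exact hpE c u
      · intro h1
        exact hι (h.main_uniq (p c v) (hpD c v) _ (hmu u).1 _ (hmu v).1 c (hpP c v) (hmu u).2 (hmu v).2 h1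
          (hpE c v))
    | sp b => exact iff_of_false (fun h => h) ((hmu u).2.2 b)
  | port c u =>
    cases b with
    | main v =>
      show R c u v ↔ E (p c u) (ι v)
      rw [hR]
      constructor
      · rintro ⟨z, hz, hzP, hz1, hz2⟩
        have h1 : z = p c u := h.port_uniq _ (hmu u).1 _ hz _ (hpD c u) (hmu u).2 c hzP (hpP c u) hz1 (hpE c u)
        rwa [h1] at hz2
      · intro h1
        exact ⟨p c u, hpD c u, hpP c u, hpE c u, h1⟩
    | port c' v => exact iff_of_false (fun h => h) (h.pp _ (hpD c u) _ (hpD c' v) c c' (hpP c u) (hpP c' v))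
    | sp b =>
      show b = some c ↔ E (p c u) (s b)
      exact ((hpP c u).2 b).symm
  | sp a =>
    cases b with
    | main v => exact iff_of_false (fun h => h) (hsn a _ (hmu v).1 (hmu v).2.1)
    | port c v => exact iff_of_false (fun h => h) (hsn a _ (hpD c v) (hpP c v).1)
    | sp b => exact (h.ss a b).symm

end

end Pool.Agent.LIN
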