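import Pool.Agent.LIN.GCC

/-! # [LIN-GCD] The axioms `Psi`: first-order, transport, the digraph `VP` -/

namespace Pool.Agent.LIN

open FirstOrder FirstOrder.Language

theorem Psi_iff {C X : Type} (rk : Option C → ℕ) (D : X → Prop) (E : X → X → Prop) (s : Option C → X) :
    Psi rk D E s ↔
      ((((∀ a, D (s a)) ∧ (∀ a b, s a = s b → a = b)) ∧ ((∀ a b, E (s a) (s b) ↔ rk a ≤ rk b) ∧
        (∀ x, D x → E x x → ∃ a, x = s a))) ∧
      (((∀ x, D x → ∀ a, E (s a) x → ∃ b, x = s b) ∧
        (∀ x, D x → (∃ a, x = s a) ∨ MainD E s x ∨ ∃ c, PortD E s c x)) ∧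
      ((∀ x, D x → MainD E s x → ∀ c, ∃ y, D y ∧ PortD E s c y ∧ E x y) ∧
        (∀ x, D x → ∀ y, D y → ∀ z, D z → MainD E s x → ∀ c, PortD E s c y → PortD E s c z →
          E x y → E x z → y = z)))) ∧
      ((((∀ y, D y → ∀ c, PortD E s c y → ∃ x, D x ∧ MainD E s x ∧ E x y) ∧
        (∀ y, D y → ∀ x, D x → ∀ z, D z → ∀ c, PortD E s c y → MainD E s x → MainD E s z →
          E x y → E z y → x = z)) ∧
      ((∀ x, D x → ∀ y, D y → MainD E s x → MainD E s y → ¬ E x y) ∧
        (∀ x, D x → ∀ y, D y → ∀ c c', PortD E s c x → PortD E s c' y → ¬ E x y))) ∧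
      (∃ x, D x ∧ MainD E s x)) := by
  constructor
  · intro h
    exact ⟨⟨⟨⟨h.sD, h.inj⟩, h.ss, h.loop⟩, ⟨h.out, h.cases⟩, h.port_ex, h.port_uniq⟩,
      ⟨⟨h.main_ex, h.main_uniq⟩, h.mm, h.pp⟩, h.ne⟩
  · rintro ⟨⟨⟨⟨h1, h2⟩, h3, h4⟩, ⟨h5, h6⟩, h7, h8⟩, ⟨⟨h9, h10⟩, h11, h12⟩, h13⟩
    exact ⟨h1, h2, h3, h4, h5, h6, h7, h8, h9, h10, h11, h12, h13⟩

section
variable {L : FirstOrder.Language.{0, 0}} {C : Type} [Finite C]
  {D : ∀ (M : Type) (_ : L.Structure M), M → Prop} {E : ∀ (M : Type) (_ : L.Structure M), M → M → Prop}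

theorem MainD_fo (hE : ∀ {α : Type} (a b : α), FO L (fun M i v => E M i (v a) (v b))) {α : Type}
    (s : Option C → α) (x : α) : FO L (fun M i v => MainD (E M i) (fun a => v (s a)) (v x)) := by
  unfold MainD
  refine FO.and (FO.fin_all fun a => ?_) (FO.fin_all fun a => ?_)
  · exact FO.not (FO.eq _ _)
  · exact FO.not (hE _ _)

theorem PortD_fo (hE : ∀ {α : Type} (a b : α), FO L (fun M i v => E M i (v a) (v b))) {α : Type}
    (s : Option C → α) (c : C) (x : α) : FO L (fun M i v => PortD (E M i) (fun a => v (s a)) c (v x)) := by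
  unfold PortD
  refine FO.and (FO.fin_all fun a => ?_) (FO.fin_all fun a => ?_)
  · exact FO.not (FO.eq _ _)
  · exact FO.iff (hE _ _) (FO.const _)

theorem Psi_fo (rk : Option C → ℕ) (hD : ∀ {α : Type} (a : α), FO L (fun M i v => D M i (v a)))
    (hE : ∀ {α : Type} (a b : α), FO L (fun M i v => E M i (v a) (v b))) {α : Type}
    (s : Option C → α) : FO L (fun M i v => Psi rk (D M i) (E M i) (fun a => v (s a))) := by
  refine FO.congr ?_ (fun M i v => (Psi_iff rk (D M i) (E M i) (fun a => v (s a))).symm)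
  refine FO.and (FO.and (FO.and (FO.and ?_ ?_) (FO.and ?_ ?_)) (FO.and (FO.and ?_ ?_) (FO.and ?_ ?_)))
    (FO.and (FO.and (FO.and ?_ ?_) (FO.and ?_ ?_)) ?_)
  · exact FO.fin_all fun a => hD _
  · exact FO.fin_all fun a => FO.fin_all fun b => FO.imp (FO.eq _ _) (FO.const _)
  · exact FO.fin_all fun a => FO.fin_all fun b => FO.iff (hE _ _) (FO.const _)
  · exact FO.all1 (FO.imp (hD none) (FO.imp (hE none none) (FO.fin_ex fun a => FO.eq none (some (s a)))))
  · exact FO.all1 (FO.imp (hD none) (FO.fin_all fun a => FO.imp (hE (some (s a)) none)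
      (FO.fin_ex fun b => FO.eq none (some (s b)))))
  · exact FO.all1 (FO.imp (hD none) (FO.or (FO.fin_ex fun a => FO.eq none (some (s a)))
      (FO.or (MainD_fo hE (fun a => some (s a)) none) (FO.fin_ex fun c => PortD_fo hE (fun a => some (s a)) c none))))
  · exact FO.all1 (FO.imp (hD none) (FO.imp (MainD_fo hE (fun a => some (s a)) none)
      (FO.fin_all fun c => FO.ex1 (FO.and (hD none) (FO.and
        (PortD_fo hE (fun a => some (some (s a))) c none) (hE (some none) none))))))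
  · exact FO.all1 (FO.imp (hD none) (FO.all1 (FO.imp (hD none) (FO.all1 (FO.imp (hD none)
      (FO.imp (MainD_fo hE (fun a => some (some (some (s a)))) (some (some none)))
      (FO.fin_all fun c => FO.imp (PortD_fo hE (fun a => some (some (some (s a)))) c (some none))
      (FO.imp (PortD_fo hE (fun a => some (some (some (s a)))) c none)
      (FO.imp (hE (some (some none)) (some none)) (FO.imp (hE (some (some none)) none)
      (FO.eq (some none) none)))))))))))
  · exact FO.all1 (FO.imp (hD none) (FO.fin_all fun c => FO.imp (PortD_fo hE (fun a => some (s a)) c none)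
      (FO.ex1 (FO.and (hD none) (FO.and (MainD_fo hE (fun a => some (some (s a))) none)
        (hE none (some none)))))))
  · exact FO.all1 (FO.imp (hD none) (FO.all1 (FO.imp (hD none) (FO.all1 (FO.imp (hD none)
      (FO.fin_all fun c => FO.imp (PortD_fo hE (fun a => some (some (some (s a)))) c (some (some none)))
      (FO.imp (MainD_fo hE (fun a => some (some (some (s a)))) (some none))
      (FO.imp (MainD_fo hE (fun a => some (some (some (s a)))) none)
      (FO.imp (hE (some none) (some (some none))) (FO.imp (hE none (some (some none)))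
      (FO.eq (some none) none)))))))))))
  · exact FO.all1 (FO.imp (hD none) (FO.all1 (FO.imp (hD none)
      (FO.imp (MainD_fo hE (fun a => some (some (s a))) (some none))
      (FO.imp (MainD_fo hE (fun a => some (some (s a))) none) (FO.not (hE (some none) none)))))))
  · exact FO.all1 (FO.imp (hD none) (FO.all1 (FO.imp (hD none) (FO.fin_all fun c => FO.fin_all fun c' =>
      (FO.imp (PortD_fo hE (fun a => some (some (s a))) c (some none))
      (FO.imp (PortD_fo hE (fun a => some (some (s a))) c' none) (FO.not (hE (some none) none))))))))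
  · exact FO.ex1 (FO.and (hD none) (MainD_fo hE (fun a => some (s a)) none))

end

/-! ### transport -/

section
variable {C V X : Type} {E₀ : V → V → Prop} {D : X → Prop} {E : X → X → Prop} {ι : V → X}

theorem MainD_map (hι : Function.Injective ι) (hE : ∀ u v, E (ι u) (ι v) ↔ E₀ u v) (s : Option C → V) (v : V) :
    MainD E (fun a => ι (s a)) (ι v) ↔ MainD E₀ s v := by
  unfold MainD
  simp only [hE, hι.eq_iff]

theorem PortD_map (hι : Function.Injective ι) (hE : ∀ u v, E (ι u) (ι v) ↔ E₀ u v) (s : Option C → V) (c : C)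
    (v : V) : PortD E (fun a => ι (s a)) c (ι v) ↔ PortD E₀ s c v := by
  unfold PortD
  simp only [hE, hι.eq_iff]

theorem Psi.map {rk : Option C → ℕ} {s : Option C → V} (h : Psi rk (fun _ => True) E₀ s)
    (hι : Function.Injective ι) (hD : ∀ x, D x ↔ ∃ v, ι v = x) (hE : ∀ u v, E (ι u) (ι v) ↔ E₀ u v) :
    Psi rk D E (fun a => ι (s a)) := by
  have hall : ∀ {p : X → Prop}, (∀ x, D x → p x) ↔ ∀ v, p (ι v) := by
    intro p
    constructor
    · exact fun h v => h _ ((hD _).2 ⟨v, rfl⟩)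
    · intro h x hx
      obtain ⟨v, rfl⟩ := (hD x).1 hx
      exact h v
  have hex : ∀ {p : X → Prop}, (∃ x, D x ∧ p x) ↔ ∃ v, p (ι v) := by
    intro p
    constructor
    · rintro ⟨x, hx, hp⟩
      obtain ⟨v, rfl⟩ := (hD x).1 hx
      exact ⟨v, hp⟩
    · rintro ⟨v, hp⟩
      exact ⟨ι v, (hD _).2 ⟨v, rfl⟩, hp⟩
  rw [Psi_iff] at h ⊢
  simp only [hall, hex, MainD_map hι hE, PortD_map hι hE, hE, hι.eq_iff]
  simp only [forall_const, true_and] at h
  refine ⟨⟨⟨⟨fun a => (hD _).2 ⟨_, rfl⟩, ?_⟩, ?_⟩, ?_⟩, ?_⟩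
  · exact h.1.1.1
  · exact h.1.1.2
  · exact h.1.2
  · exact h.2

end

/-! ### the digraph `VP` -/

section
variable {C U : Type} {rk : Option C → ℕ} {R : C → U → U → Prop}

theorem main_VP (x : VP C U) : MainD (VE rk R) VP.sp x ↔ ∃ u, VP.main u = x := by
  constructor
  · rintro ⟨h1, h2⟩
    cases x with
    | main u => exact ⟨u, rfl⟩
    | port c u => exact absurd (show some c = some c from rfl) (h2 (some c))
    | sp a => exact absurd rfl (h1 a)
  · rintro ⟨u, rfl⟩
    exact ⟨(fun a h => nomatch h), fun a h => h⟩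

theorem port_VP (c : C) (x : VP C U) : PortD (VE rk R) VP.sp c x ↔ ∃ u, VP.port c u = x := by
  constructor
  · rintro ⟨h1, h2⟩
    cases x with
    | main u => exact absurd ((h2 (some c)).2 rfl) (fun h => h)
    | port c' u =>
      have h3 : some c = some c' := (h2 (some c)).2 rfl
      rw [Option.some_injective _ h3]
      exact ⟨u, rfl⟩
    | sp a => exact absurd rfl (h1 a)
  · rintro ⟨u, rfl⟩
    exact ⟨(fun a h => nomatch h), fun a => Iff.rfl⟩

theorem rel_VP (c : C) (u v : U) :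
    R c u v ↔ ∃ z, PortD (VE rk R) VP.sp c z ∧ VE rk R (.main u) z ∧ VE rk R z (.main v) := by
  constructor
  · intro h
    exact ⟨.port c u, (port_VP c _).2 ⟨u, rfl⟩, rfl, h⟩
  · rintro ⟨z, hz, h1, h2⟩
    obtain ⟨w, rfl⟩ := (port_VP c z).1 hz
    have h3 : u = w := h1
    rw [h3]
    exact h2

theorem psi_VP (hU : Nonempty U) :
    Psi rk (fun _ => True) (VE rk R) (VP.sp : Option C → VP C U) where
  sD _ := trivial
  inj a b h := by cases h; rfl
  ss a b := Iff.rfl
  loop x _ h := by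
    cases x with
    | main u => exact absurd h (fun h => h)
    | port c u => exact absurd h (fun h => h)
    | sp a => exact ⟨a, rfl⟩
  out x _ a h := by
    cases x with
    | main u => exact absurd h (fun h => h)
    | port c u => exact absurd h (fun h => h)
    | sp a => exact ⟨a, rfl⟩
  cases x _ := by
    cases x with
    | main u => exact Or.inr (Or.inl ((main_VP _).2 ⟨u, rfl⟩))
    | port c u => exact Or.inr (Or.inr ⟨c, (port_VP c _).2 ⟨u, rfl⟩⟩)
    | sp a => exact Or.inl ⟨a, rfl⟩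
  port_ex x _ h c := by
    obtain ⟨u, rfl⟩ := (main_VP x).1 h
    exact ⟨.port c u, trivial, (port_VP c _).2 ⟨u, rfl⟩, rfl⟩
  port_uniq x _ y _ z _ hx c hy hz h1 h2 := by
    obtain ⟨u, rfl⟩ := (main_VP x).1 hx
    obtain ⟨v, rfl⟩ := (port_VP c y).1 hy
    obtain ⟨w, rfl⟩ := (port_VP c z).1 hz
    have h3 : u = v := h1
    have h4 : u = w := h2
    rw [← h3, ← h4]
  main_ex y _ c h := by
    obtain ⟨u, rfl⟩ := (port_VP c y).1 h
    exact ⟨.main u, trivial, (main_VP _).2 ⟨u, rfl⟩, rfl⟩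
  main_uniq y _ x _ z _ c hy hx hz h1 h2 := by
    obtain ⟨u, rfl⟩ := (port_VP c y).1 hy
    obtain ⟨v, rfl⟩ := (main_VP x).1 hx
    obtain ⟨w, rfl⟩ := (main_VP z).1 hz
    have h3 : v = u := h1
    have h4 : w = u := h2
    rw [h3, h4]
  mm x _ y _ hx hy h := by
    obtain ⟨v, rfl⟩ := (main_VP x).1 hx
    obtain ⟨w, rfl⟩ := (main_VP y).1 hy
    exact h
  pp x _ y _ c c' hx hy h := by
    obtain ⟨v, rfl⟩ := (port_VP c x).1 hx
    obtain ⟨w, rfl⟩ := (port_VP c' y).1 hy
    exact h
  ne := by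
    obtain ⟨u⟩ := hU
    exact ⟨.main u, trivial, (main_VP _).2 ⟨u, rfl⟩⟩

end

end Pool.Agent.LIN
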