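import Pool.Agent.LIN.GCD

/-! # [LIN-GCE] Digraphs in the structures of a language: the interface `KC`; the case of a relation symbol -/

namespace Pool.Agent.LIN

open FirstOrder FirstOrder.Language

/-- A way to read a digraph with a base point in the structures of `L`. -/
structure KC (L : FirstOrder.Language.{0, 0}) where
  D : ∀ (M : Type) (_ : L.Structure M), M → Prop
  E : ∀ (M : Type) (_ : L.Structure M), M → M → Prop
  Ax : ∀ (M : Type) (_ : L.Structure M), M → Prop
  D_fo : ∀ {α : Type} (a : α), FO L (fun M i v => D M i (v a))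
  E_fo : ∀ {α : Type} (a b : α), FO L (fun M i v => E M i (v a) (v b))
  Ax_fo : ∀ {α : Type} (a : α), FO L (fun M i v => Ax M i (v a))
  K : ∀ (V : Type) (_ : V → V → Prop), V → Type
  str : ∀ (V : Type) (E₀ : V → V → Prop) (s : V), L.Structure (K V E₀ s)
  pt : ∀ (V : Type) (E₀ : V → V → Prop) (s : V), V → K V E₀ s
  pt_inj : ∀ (V : Type) (E₀ : V → V → Prop) (s : V), Function.Injective (pt V E₀ s)
  D_iff : ∀ (V : Type) (E₀ : V → V → Prop) (s : V), E₀ s s → ∀ x, D _ (str V E₀ s) x ↔ ∃ v, pt V E₀ s v = x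
  E_iff : ∀ (V : Type) (E₀ : V → V → Prop) (s : V), E₀ s s → ∀ u v,
    E _ (str V E₀ s) (pt V E₀ s u) (pt V E₀ s v) ↔ E₀ u v
  Ax_K : ∀ (V : Type) (E₀ : V → V → Prop) (s : V), E₀ s s → Ax _ (str V E₀ s) (pt V E₀ s s)
  bf : ∀ (V : Type) (E₀ : V → V → Prop) (s : V) (V' : Type) (E₀' : V' → V' → Prop) (s' : V'), E₀ s s → E₀' s' s' →
    BFE E₀ s E₀' s' → @Language.completeTheory L (K V E₀ s) (str V E₀ s) =
      @Language.completeTheory L (K V' E₀' s') (str V' E₀' s')
  recn : ∀ (M : Type) (i : L.Structure M) (s : M), Ax M i s → ∀ hs : D M i s, E M i s s →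
    @Language.completeTheory L M i = @Language.completeTheory L
      (K {x // D M i x} (fun x y => E M i x.1 y.1) ⟨s, hs⟩) (str {x // D M i x} (fun x y => E M i x.1 y.1) ⟨s, hs⟩)

section
variable {L : FirstOrder.Language.{0, 0}}

/-- a trivial function: the first argument; a trivial constant: `s` -/
def TrF {k : ℕ} (f : L.Functions k) (M : Type) (_ : L.Structure M) (s : M) : Prop :=
  ∀ w : Fin k → M, Structure.funMap f w = (if h : 0 < k then w ⟨0, h⟩ else s)

theorem TrF_fo {k : ℕ} (f : L.Functions k) {α : Type} (a : α) : FO L (fun M i v => TrF f M i (v a)) := by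
  unfold TrF
  refine FO.all ?_
  by_cases h : 0 < k
  · refine (FO.fn f (fun b => Sum.inr b) (Sum.inr ⟨0, h⟩)).congr (fun M i v => ?_)
    rw [dif_pos h]
  · refine (FO.fn f (fun b => Sum.inr b) (Sum.inl a)).congr (fun M i v => ?_)
    rw [dif_neg h]

/-- all function symbols except those in `N` are trivial, all relation symbols except those in `N'` are false -/
def TrA (N : (Σ k, L.Functions k) → Prop) (N' : (Σ k, L.Relations k) → Prop) (M : Type) (i : L.Structure M)
    (s : M) : Prop :=
  (∀ f : (Σ k, L.Functions k), ¬ N f → TrF f.2 M i s) ∧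
  (∀ Q : (Σ k, L.Relations k), ¬ N' Q → ∀ w : Fin Q.1 → M, ¬ Structure.RelMap Q.2 w)

theorem TrA_fo (En : Enum L) (N : (Σ k, L.Functions k) → Prop) (N' : (Σ k, L.Relations k) → Prop) {α : Type}
    (a : α) : FO L (fun M i v => TrA N N' M i (v a)) := by
  have : Finite (Σ k, L.Functions k) := Finite.of_equiv _ En.F
  have : Finite (Σ k, L.Relations k) := Finite.of_equiv _ En.R
  unfold TrA
  refine FO.and (FO.fin_all fun f => FO.imp (FO.const _) (TrF_fo f.2 a)) (FO.fin_all fun Q =>
    FO.imp (FO.const _) ?_)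
  exact FO.all (FO.not (FO.rel Q.2 (fun b => Sum.inr b)))

end

/-! ### relation symbols -/

section
variable {L : FirstOrder.Language.{0, 0}} {n : ℕ}

/-- the argument tuple `(x, y, ..., y)` -/
def tup {M : Type} (k : ℕ) (x y : M) : Fin k → M := fun a => if a.1 = 0 then x else y

theorem tup_iff {M : Type} {k : ℕ} (hk : 2 ≤ k) (w : Fin k → M) (p : M → M → Prop) :
    (∃ x y, p x y ∧ w = tup k x y) ↔ p (w ⟨0, by omega⟩) (w ⟨1, by omega⟩) ∧
      ∀ a : Fin k, a.1 ≠ 0 → w a = w ⟨1, by omega⟩ := by
  constructor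
  · rintro ⟨x, y, h, rfl⟩
    refine ⟨by simpa [tup] using h, fun a ha => ?_⟩
    simp [tup, ha]
  · rintro ⟨h1, h2⟩
    refine ⟨_, _, h1, ?_⟩
    funext a
    unfold tup
    split_ifs with h3
    · congr 1
      exact Fin.ext h3
    · exact h2 a h3

theorem tup_fo {k : ℕ} {α : Type} (a b : α) {M : Type} (v : α → M) :
    (fun c => v (tup k a b c)) = tup k (v a) (v b) := by
  funext c
  unfold tup
  split_ifs <;> rfl

variable (P : L.Relations n)

/-- the structure with `P(x, y, .., y)` iff `E x y` -/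
@[instance_reducible] def str1 (V : Type) (E₀ : V → V → Prop) (s : V) : L.Structure V where
  funMap := fun {k} _ w => if h : 0 < k then w ⟨0, h⟩ else s
  RelMap := fun {k} Q w => (⟨k, Q⟩ : Σ k, L.Relations k) = ⟨n, P⟩ ∧ ∃ x y, E₀ x y ∧ w = tup k x y

/-- the first case of `Rich` -/
def KC1 (En : Enum L) (hn : 2 ≤ n) : KC L where
  D _ _ _ := True
  E M i x y := Structure.RelMap P (tup n x y)
  Ax M i s := TrA (fun _ => False) (fun Q => Q = ⟨n, P⟩) M i s ∧
    ∀ w : Fin n → M, Structure.RelMap P w → ∀ a : Fin n, a.1 ≠ 0 → w a = w ⟨1, by omega⟩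
  D_fo _ := FO.const True
  E_fo a b := (FO.rel P (tup n a b)).congr (fun M i v => by rw [tup_fo])
  Ax_fo a := by
    refine FO.and (TrA_fo En _ _ a) (FO.all (FO.imp (FO.rel P (fun b => Sum.inr b)) ?_))
    exact FO.fin_all fun a => FO.imp (FO.const _) (FO.eq _ _)
  K V _ _ := V
  str := str1 P
  pt V _ _ v := v
  pt_inj _ _ _ := Function.injective_id
  D_iff V E₀ s _ x := ⟨fun _ => ⟨x, rfl⟩, fun _ => trivial⟩
  E_iff V E₀ s _ u v := by
    show (_ ∧ ∃ x y, E₀ x y ∧ tup n u v = tup n x y) ↔ _
    rw [tup_iff hn]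
    constructor
    · rintro ⟨-, h, -⟩
      simpa [tup] using h
    · intro h
      refine ⟨rfl, by simpa [tup] using h, fun a ha => ?_⟩
      simp [tup, ha]
  Ax_K V E₀ s _ := by
    refine ⟨⟨fun f _ w => rfl, fun Q hQ w hw => hQ hw.1⟩, ?_⟩
    rintro w ⟨-, hw⟩ a ha
    exact ((tup_iff hn w E₀).1 hw).2 a ha
  bf V E₀ s V' E₀' s' hs hs' h := by
    refine completeTheory_eq_of_bf (str1 P V E₀ s) (str1 P V' E₀' s') h.J h.eq ?_ ?_ h.forth h.back h.start
    · intro r Pr hP k Q x y hxy
      refine and_congr_right (fun hQ => ?_)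
      have hkn : k = n := congrArg Sigma.fst hQ
      have hk : 2 ≤ k := by omega
      rw [tup_iff hk, tup_iff hk]
      refine and_congr (h.edge r Pr hP _ _ _ _ (hxy _) (hxy _)) (forall_congr' fun a => ?_)
      exact imp_congr Iff.rfl (h.eq r Pr hP _ _ _ _ (hxy _) (hxy _))
    · intro r Pr hP k f x y hxy
      show Pr (if h : 0 < k then x ⟨0, h⟩ else s) (if h : 0 < k then y ⟨0, h⟩ else s')
      by_cases hk : 0 < k
      · rw [dif_pos hk, dif_pos hk]
        exact hxy _
      · rw [dif_neg hk, dif_neg hk]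
        exact h.base r Pr hP
  recn M i s hA hs he := by
    refine completeTheory_eq_of_equiv i (str1 P {x : M // True} (fun x y => Structure.RelMap P (tup n x.1 y.1)) ⟨s, hs⟩)
      (Equiv.subtypeUnivEquiv (fun _ => trivial)).symm ?_ ?_
    · intro k Q x
      by_cases hQ : (⟨k, Q⟩ : Σ k, L.Relations k) = ⟨n, P⟩
      · cases hQ
        constructor
        · intro h
          refine ⟨rfl, (tup_iff hn _ _).2 ⟨?_, fun a ha => ?_⟩⟩
          · have h1 : x = tup n (x ⟨0, by omega⟩) (x ⟨1, by omega⟩) := by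
              funext a
              unfold tup
              split_ifs with h3
              · congr 1
                exact Fin.ext h3
              · exact hA.2 x h a h3
            show Structure.RelMap P (tup n (x ⟨0, by omega⟩) (x ⟨1, by omega⟩))
            rw [← h1]
            exact h
          · exact Subtype.ext (hA.2 x h a ha)
        · rintro ⟨-, x₀, y₀, h, hw⟩
          have h1 : x = tup n x₀.1 y₀.1 := by
            funext a
            have h2 := congrArg Subtype.val (congrFun hw a)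
            have h3 : x a = (tup n x₀ y₀ a).1 := h2
            rw [h3]
            unfold tup
            split_ifs <;> rfl
          rw [h1]
          exact h
      · refine iff_of_false (hA.1.2 ⟨k, Q⟩ hQ x) (fun h => hQ h.1)
    · intro k f x
      have h1 := hA.1.1 ⟨k, f⟩ (fun h => h) x
      apply Subtype.ext
      show Structure.funMap f x = ((if h : 0 < k then _ else _ : {x : M // True}) : {x : M // True}).1
      rw [h1]
      by_cases hk : 0 < k
      · rw [dif_pos hk, dif_pos hk]
        rfl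
      · rw [dif_neg hk, dif_neg hk]

end

end Pool.Agent.LIN
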