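import Pool.Agent.LIN.GCE

/-! # [LIN-GCF] Digraphs in the structures of a language: a function symbol of arity at least two -/

namespace Pool.Agent.LIN

open FirstOrder FirstOrder.Language Classical

section
variable {L : FirstOrder.Language.{0, 0}} {n : ℕ}

/-- the index of the first argument for `0`, of the last argument otherwise -/
def tsel (k : ℕ) (h : 0 < k) (a : Fin k) : Fin k := if a.1 = 0 then ⟨0, h⟩ else ⟨k - 1, by omega⟩

/-- the tuple is of the form `(x, y, .., y)` -/
def TupP {M : Type} (k : ℕ) (h : 0 < k) (w : Fin k → M) : Prop := ∀ a, w a = w (tsel k h a)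

theorem TupP_eq {M : Type} {k : ℕ} {h : 0 < k} {w : Fin k → M} (hw : TupP k h w) :
    w = tup k (w ⟨0, h⟩) (w ⟨k - 1, by omega⟩) := by
  funext a
  rw [hw a]
  unfold tup tsel
  split_ifs <;> rfl

theorem TupP_tup {M : Type} {k : ℕ} (h : 0 < k) (x y : M) : TupP k h (tup k x y) := by
  intro a
  unfold tup tsel
  by_cases ha : a.1 = 0
  · simp [ha]
  · have h1 : k - 1 ≠ 0 := by
      have := a.2
      omega
    simp [ha, h1]


/-- the value of the function on `(x, y, .., y)` -/
noncomputable def val {V : Type} (E₀ : V → V → Prop) (s x y : V) : V :=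
  if E₀ x y then x else if x = s then y else s

variable (f : L.Functions n)


/-- the structure with `f(x, y, .., y) = x` iff `E x y` -/
@[instance_reducible] noncomputable def str2 (V : Type) (E₀ : V → V → Prop) (s : V) : L.Structure V where
  funMap := fun {k} g w => if h : 0 < k then
    (if (⟨k, g⟩ : Σ k, L.Functions k) = ⟨n, f⟩ ∧ TupP k h w then val E₀ s (w ⟨0, h⟩) (w ⟨k - 1, by omega⟩)
      else w ⟨0, h⟩) else s
  RelMap := fun _ _ => False

theorem str2_tup (hn : 2 ≤ n) (V : Type) (E₀ : V → V → Prop) (s x y : V) :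
    (str2 f V E₀ s).funMap f (tup n x y) = val E₀ s x y := by
  show (if h : 0 < n then
    (if (⟨n, f⟩ : Σ k, L.Functions k) = ⟨n, f⟩ ∧ TupP n h (tup n x y) then
      val E₀ s (tup n x y ⟨0, h⟩) (tup n x y ⟨n - 1, by omega⟩) else tup n x y ⟨0, h⟩) else s) = _
  rw [dif_pos (by omega), if_pos ⟨rfl, TupP_tup _ x y⟩]
  have h1 : tup n x y ⟨n - 1, by omega⟩ = y := by
    have h2 : n - 1 ≠ 0 := by omega
    simp [tup, h2]
  rw [h1]
  rfl

theorem val_pos {V : Type} {E₀ : V → V → Prop} {s x y : V} (h : E₀ x y) : val E₀ s x y = x := if_pos h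

theorem val_s {V : Type} {E₀ : V → V → Prop} {s x y : V} (h : ¬ E₀ x y) (hx : x = s) : val E₀ s x y = y := by
  unfold val
  rw [if_neg h, if_pos hx]

theorem val_ns {V : Type} {E₀ : V → V → Prop} {s x y : V} (h : ¬ E₀ x y) (hx : ¬ x = s) : val E₀ s x y = s := by
  unfold val
  rw [if_neg h, if_neg hx]

theorem val_eq {V : Type} {E₀ : V → V → Prop} {s : V} (hs : E₀ s s) (x y : V) : val E₀ s x y = x ↔ E₀ x y := by
  unfold val
  by_cases h : E₀ x y
  · simp [h]
  · rw [if_neg h]
    refine iff_of_false (fun h1 => ?_) h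
    by_cases h2 : x = s
    · rw [if_pos h2] at h1
      apply h
      rw [h1, h2]
      exact hs
    · rw [if_neg h2] at h1
      exact h2 h1.symm

theorem val_P {V V' : Type} {E₀ : V → V → Prop} {s : V} {E₀' : V' → V' → Prop} {s' : V'} (h : BFE E₀ s E₀' s')
    {r : ℕ} {P : V → V' → Prop} (hP : h.J r P) {x y : V} {x' y' : V'} (hx : P x x') (hy : P y y') :
    P (val E₀ s x y) (val E₀' s' x' y') := by
  unfold val
  have h1 := h.edge r P hP _ _ _ _ hx hy
  have h2 := h.eq r P hP _ _ _ _ hx (h.base r P hP)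
  by_cases h3 : E₀ x y
  · rw [if_pos h3, if_pos (h1.1 h3)]
    exact hx
  · rw [if_neg h3, if_neg (fun h4 => h3 (h1.2 h4))]
    by_cases h4 : x = s
    · rw [if_pos h4, if_pos (h2.1 h4)]
      exact hy
    · rw [if_neg h4, if_neg (fun h5 => h4 (h2.2 h5))]
      exact h.base r P hP

/-- the second case of `Rich` -/
noncomputable def KC2 (En : Enum L) (hn : 2 ≤ n) : KC L where
  D _ _ _ := True
  E M i x y := Structure.funMap f (tup n x y) = x
  Ax M i s := TrA (fun g => g = ⟨n, f⟩) (fun _ => False) M i s ∧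
    ((∀ w : Fin n → M, ¬ TupP n (by omega) w → Structure.funMap f w = w ⟨0, by omega⟩) ∧
    ∀ x y : M, ¬ Structure.funMap f (tup n x y) = x →
      (x = s → Structure.funMap f (tup n x y) = y) ∧ (¬ x = s → Structure.funMap f (tup n x y) = s))
  D_fo _ := FO.const True
  E_fo a b := (FO.fn f (tup n a b) a).congr (fun M i v => by rw [tup_fo])
  Ax_fo a := by
    have hT : ∀ {α : Type} (a b c : α), FO L (fun M i v => Structure.funMap f (tup n (v a) (v b)) = v c) :=
      fun a b c => (FO.fn f (tup n a b) c).congr (fun M i v => by rw [tup_fo])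
    refine FO.and (TrA_fo En _ _ a) (FO.and (FO.all (FO.imp (FO.not ?_) (FO.fn f (fun b => Sum.inr b) _))) ?_)
    · exact FO.fin_all fun b => FO.eq _ _
    · exact FO.all1 (FO.all1 (FO.imp (FO.not (hT (some none) none (some none)))
        (FO.and (FO.imp (FO.eq (some none) (some (some a))) (hT (some none) none none))
          (FO.imp (FO.not (FO.eq (some none) (some (some a)))) (hT (some none) none (some (some a)))))))
  K V _ _ := V
  str := str2 f
  pt V _ _ v := v
  pt_inj _ _ _ := Function.injective_id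
  D_iff V E₀ s _ x := ⟨fun _ => ⟨x, rfl⟩, fun _ => trivial⟩
  E_iff V E₀ s hs u v := by
    show (str2 f V E₀ s).funMap f (tup n u v) = u ↔ _
    rw [str2_tup f hn, val_eq hs]
  Ax_K V E₀ s hs := by
    refine ⟨⟨fun g hg w => ?_, fun Q _ w hw => hw⟩, fun w hw => ?_, fun x y hxy => ?_⟩
    · show (if h : 0 < g.1 then (if (⟨g.1, g.2⟩ : Σ k, L.Functions k) = ⟨n, f⟩ ∧ TupP g.1 h w then _ else _) else _) = _
      by_cases hk : 0 < g.1
      · rw [dif_pos hk, dif_pos hk, if_neg (fun h => hg h.1)]
      · rw [dif_neg hk, dif_neg hk]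
    · show (if h : 0 < n then (if (⟨n, f⟩ : Σ k, L.Functions k) = ⟨n, f⟩ ∧ TupP n h w then _ else _) else _) = _
      rw [dif_pos (by omega), if_neg (fun h => hw h.2)]
    · change ¬ (str2 f V E₀ s).funMap f (tup n x y) = x at hxy
      show (x = s → (str2 f V E₀ s).funMap f (tup n x y) = y) ∧
        (¬ x = s → (str2 f V E₀ s).funMap f (tup n x y) = s)
      rw [str2_tup f hn] at hxy ⊢
      rw [val_eq hs] at hxy
      unfold val
      rw [if_neg hxy]
      exact ⟨fun h => if_pos h, fun h => if_neg h⟩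
  bf V E₀ s V' E₀' s' hs hs' h := by
    refine completeTheory_eq_of_bf (str2 f V E₀ s) (str2 f V' E₀' s') h.J h.eq
      (fun r P hP k Q x y hxy => Iff.rfl) ?_ h.forth h.back h.start
    intro r Pr hP k g x y hxy
    show Pr (if h : 0 < k then (if (⟨k, g⟩ : Σ k, L.Functions k) = ⟨n, f⟩ ∧ TupP k h x then _ else _) else _)
      (if h : 0 < k then (if (⟨k, g⟩ : Σ k, L.Functions k) = ⟨n, f⟩ ∧ TupP k h y then _ else _) else _)
    by_cases hk : 0 < k
    · rw [dif_pos hk, dif_pos hk]
      have h1 : TupP k hk x ↔ TupP k hk y :=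
        forall_congr' fun a => h.eq r Pr hP _ _ _ _ (hxy _) (hxy _)
      by_cases h2 : (⟨k, g⟩ : Σ k, L.Functions k) = ⟨n, f⟩ ∧ TupP k hk x
      · rw [if_pos h2, if_pos ⟨h2.1, h1.1 h2.2⟩]
        exact val_P h hP (hxy _) (hxy _)
      · rw [if_neg h2, if_neg (fun h3 => h2 ⟨h3.1, h1.2 h3.2⟩)]
        exact hxy _
    · rw [dif_neg hk, dif_neg hk]
      exact h.base r Pr hP
  recn M i s hA hs he := by
    refine completeTheory_eq_of_equiv i
      (str2 f {x : M // True} (fun x y => Structure.funMap f (tup n x.1 y.1) = x.1) ⟨s, hs⟩)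
      (Equiv.subtypeUnivEquiv (fun _ => trivial)).symm ?_ ?_
    · intro k Q x
      exact iff_of_false (hA.1.2 ⟨k, Q⟩ (fun h => h) x) (fun h => h)
    · intro k g x
      apply Subtype.ext
      show Structure.funMap g x = ((if h : 0 < k then (if (⟨k, g⟩ : Σ k, L.Functions k) = ⟨n, f⟩ ∧
        TupP k h (fun a => (⟨x a, trivial⟩ : {x : M // True})) then _ else _) else _ :
        {x : M // True}) : {x : M // True}).1
      by_cases hg : (⟨k, g⟩ : Σ k, L.Functions k) = ⟨n, f⟩
      · cases hg
        rw [dif_pos (show 0 < n by omega)]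
        by_cases hx : TupP n (by omega) x
        · rw [if_pos ⟨rfl, fun a => Subtype.ext (hx a)⟩]
          have h1 := TupP_eq hx
          have h2 := hA.2.2 (x ⟨0, by omega⟩) (x ⟨n - 1, by omega⟩)
          rw [← h1] at h2
          have h3 : (Structure.funMap f (tup n (x ⟨0, by omega⟩) (x ⟨n - 1, by omega⟩)) = x ⟨0, by omega⟩) ↔
              (Structure.funMap f x = x ⟨0, by omega⟩) := by rw [← h1]
          by_cases h4 : Structure.funMap f x = x ⟨0, by omega⟩
          · have h5 : val (fun x y : {x : M // True} => Structure.funMap f (tup n x.1 y.1) = x.1) ⟨s, hs⟩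
                ⟨x ⟨0, by omega⟩, trivial⟩ ⟨x ⟨n - 1, by omega⟩, trivial⟩ = ⟨x ⟨0, by omega⟩, trivial⟩ :=
              val_pos (h3.2 h4)
            exact h4.trans (congrArg Subtype.val h5).symm
          · by_cases h5 : x ⟨0, by omega⟩ = s
            · have h6 : val (fun x y : {x : M // True} => Structure.funMap f (tup n x.1 y.1) = x.1) ⟨s, hs⟩
                  ⟨x ⟨0, by omega⟩, trivial⟩ ⟨x ⟨n - 1, by omega⟩, trivial⟩ = ⟨x ⟨n - 1, by omega⟩, trivial⟩ :=
                val_s (fun h => h4 (h3.1 h)) (Subtype.ext h5)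
              exact ((h2 h4).1 h5).trans (congrArg Subtype.val h6).symm
            · have h6 : val (fun x y : {x : M // True} => Structure.funMap f (tup n x.1 y.1) = x.1) ⟨s, hs⟩
                  ⟨x ⟨0, by omega⟩, trivial⟩ ⟨x ⟨n - 1, by omega⟩, trivial⟩ = ⟨s, hs⟩ :=
                val_ns (fun h => h4 (h3.1 h)) (fun h => h5 (congrArg Subtype.val h))
              exact ((h2 h4).2 h5).trans (congrArg Subtype.val h6).symm
        · rw [if_neg (fun h => hx (fun a => congrArg Subtype.val (h.2 a)))]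
          exact hA.2.1 x hx
      · have h1 := hA.1.1 ⟨k, g⟩ hg x
        rw [h1]
        by_cases hk : 0 < k
        · rw [dif_pos hk, dif_pos hk, if_neg (fun h => hg h.1)]
          rfl
        · rw [dif_neg hk, dif_neg hk]

end

end Pool.Agent.LIN
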