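import Pool.Agent.LIN.GCF

/-! # [LIN-GCG] Digraphs in the structures of a language: two unary functions -/

namespace Pool.Agent.LIN

open FirstOrder FirstOrder.Language Classical

/-- vertices and edges -/
inductive K3 (V : Type) (E₀ : V → V → Prop) : Type
  | vt (v : V)
  | ed (a b : V) (h : E₀ a b)

namespace K3

variable {V V' : Type} {E₀ : V → V → Prop} {E₀' : V' → V' → Prop}

theorem ed_eq {a a' b b' : V} (h : E₀ a b) (h' : E₀ a' b') (ha : a = a') (hb : b = b') :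
    K3.ed a b h = K3.ed a' b' h' := by
  subst ha
  subst hb
  rfl

def src : K3 V E₀ → V
  | .vt v => v
  | .ed a _ _ => a

def tgt : K3 V E₀ → V
  | .vt v => v
  | .ed _ b _ => b

def lift (P : V → V' → Prop) : K3 V E₀ → K3 V' E₀' → Prop
  | .vt a, .vt b => P a b
  | .ed a c _, .ed b d _ => P a b ∧ P c d
  | _, _ => False

theorem lift_mono {P P' : V → V' → Prop} (h : ∀ x y, P x y → P' x y) (x : K3 V E₀) (y : K3 V' E₀')
    (hxy : lift P x y) : lift P' x y := by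
  rcases x with x | ⟨x, x', hx⟩ <;> rcases y with y | ⟨y, y', hy⟩
  · exact h _ _ hxy
  · exact hxy
  · exact hxy
  · exact ⟨h _ _ hxy.1, h _ _ hxy.2⟩

theorem lift_src {P : V → V' → Prop} {x : K3 V E₀} {y : K3 V' E₀'} (hxy : lift P x y) : P x.src y.src := by
  rcases x with x | ⟨x, x', hx⟩ <;> rcases y with y | ⟨y, y', hy⟩
  · exact hxy
  · exact hxy.elim
  · exact hxy.elim
  · exact hxy.1

theorem lift_tgt {P : V → V' → Prop} {x : K3 V E₀} {y : K3 V' E₀'} (hxy : lift P x y) : P x.tgt y.tgt := by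
  rcases x with x | ⟨x, x', hx⟩ <;> rcases y with y | ⟨y, y', hy⟩
  · exact hxy
  · exact hxy.elim
  · exact hxy.elim
  · exact hxy.2

end K3

section
variable {L : FirstOrder.Language.{0, 0}} (f g : L.Functions 1)

/-- the structure of vertices and edges, `f` = source, `g` = target -/
@[instance_reducible] noncomputable def str3 (V : Type) (E₀ : V → V → Prop) (s : V) :
    L.Structure (K3 V E₀) where
  funMap := fun {k} h w => if hk : 0 < k then
    (if (⟨k, h⟩ : Σ k, L.Functions k) = ⟨1, f⟩ then K3.vt (w ⟨0, hk⟩).src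
      else if (⟨k, h⟩ : Σ k, L.Functions k) = ⟨1, g⟩ then K3.vt (w ⟨0, hk⟩).tgt else w ⟨0, hk⟩) else K3.vt s
  RelMap := fun _ _ => False

variable {f g}

theorem str3_f {V : Type} {E₀ : V → V → Prop} {s : V} (w : Fin 1 → K3 V E₀) :
    (str3 f g V E₀ s).funMap f w = K3.vt (w 0).src := by
  show (if hk : 0 < 1 then (if (⟨1, f⟩ : Σ k, L.Functions k) = ⟨1, f⟩ then K3.vt (w ⟨0, hk⟩).src
      else _) else _) = _
  rw [dif_pos Nat.one_pos, if_pos rfl]
  rfl

theorem str3_g (hfg : f ≠ g) {V : Type} {E₀ : V → V → Prop} {s : V} (w : Fin 1 → K3 V E₀) :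
    (str3 f g V E₀ s).funMap g w = K3.vt (w 0).tgt := by
  show (if hk : 0 < 1 then (if (⟨1, g⟩ : Σ k, L.Functions k) = ⟨1, f⟩ then K3.vt (w ⟨0, hk⟩).src
      else if (⟨1, g⟩ : Σ k, L.Functions k) = ⟨1, g⟩ then K3.vt (w ⟨0, hk⟩).tgt else _) else _) = _
  rw [dif_pos Nat.one_pos, if_neg (fun h => ?_), if_pos rfl]
  · rfl
  · apply hfg
    cases h
    rfl

theorem str3_o {V : Type} {E₀ : V → V → Prop} {s : V} {k : ℕ} (h : L.Functions k)
    (h1 : ¬ (⟨k, h⟩ : Σ k, L.Functions k) = ⟨1, f⟩) (h2 : ¬ (⟨k, h⟩ : Σ k, L.Functions k) = ⟨1, g⟩)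
    (w : Fin k → K3 V E₀) :
    (str3 f g V E₀ s).funMap h w = if hk : 0 < k then w ⟨0, hk⟩ else K3.vt s := by
  show (if hk : 0 < k then (if (⟨k, h⟩ : Σ k, L.Functions k) = ⟨1, f⟩ then K3.vt (w ⟨0, hk⟩).src
      else if (⟨k, h⟩ : Σ k, L.Functions k) = ⟨1, g⟩ then K3.vt (w ⟨0, hk⟩).tgt else _) else _) = _
  by_cases hk : 0 < k
  · rw [dif_pos hk, dif_pos hk, if_neg h1, if_neg h2]
  · rw [dif_neg hk, dif_neg hk]

/-- vertices -/
def D3 (f : L.Functions 1) (M : Type) (_ : L.Structure M) (x : M) : Prop := Structure.funMap f (fun _ => x) = x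

/-- edges -/
def E3 (f g : L.Functions 1) (M : Type) (i : L.Structure M) (x y : M) : Prop :=
  D3 f M i x ∧ D3 f M i y ∧ ∃ e : M, ¬ D3 f M i e ∧ Structure.funMap f (fun _ => e) = x ∧
    Structure.funMap g (fun _ => e) = y

/-- axioms -/
def Ax3 (f g : L.Functions 1) (M : Type) (i : L.Structure M) (s : M) : Prop :=
  TrA (fun h => h = ⟨1, f⟩ ∨ h = ⟨1, g⟩) (fun _ => False) M i s ∧
    ((∀ x y : M, Structure.funMap f (fun _ => x) = y → D3 f M i y) ∧
    ((∀ x y : M, Structure.funMap g (fun _ => x) = y → D3 f M i y) ∧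
    ((∀ x : M, D3 f M i x → Structure.funMap g (fun _ => x) = x) ∧
    (∀ x y a b : M, ¬ D3 f M i x → ¬ D3 f M i y → Structure.funMap f (fun _ => x) = a →
      Structure.funMap f (fun _ => y) = a → Structure.funMap g (fun _ => x) = b →
      Structure.funMap g (fun _ => y) = b → x = y))))

theorem fn1_fo (f : L.Functions 1) {α : Type} (a b : α) :
    FO L (fun M i v => Structure.funMap f (fun _ => v a) = v b) := FO.fn f (fun _ => a) b

theorem D3_fo (f : L.Functions 1) {α : Type} (a : α) : FO L (fun M i v => D3 f M i (v a)) := fn1_fo f a a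

theorem E3_fo (f g : L.Functions 1) {α : Type} (a b : α) : FO L (fun M i v => E3 f g M i (v a) (v b)) := by
  unfold E3
  exact FO.and (D3_fo f a) (FO.and (D3_fo f b) (FO.ex1 (FO.and (FO.not (D3_fo f none))
    (FO.and (fn1_fo f none (some a)) (fn1_fo g none (some b))))))

theorem Ax3_fo (En : Enum L) (f g : L.Functions 1) {α : Type} (a : α) :
    FO L (fun M i v => Ax3 f g M i (v a)) := by
  unfold Ax3
  refine FO.and (TrA_fo En _ _ a) (FO.and ?_ (FO.and ?_ (FO.and ?_ ?_)))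
  · exact FO.all1 (FO.all1 (FO.imp (fn1_fo f (some none) none) (D3_fo f none)))
  · exact FO.all1 (FO.all1 (FO.imp (fn1_fo g (some none) none) (D3_fo f none)))
  · exact FO.all1 (FO.imp (D3_fo f none) (fn1_fo g none none))
  · exact FO.all1 (FO.all1 (FO.all1 (FO.all1 (FO.imp (FO.not (D3_fo f (some (some (some none)))))
      (FO.imp (FO.not (D3_fo f (some (some none)))) (FO.imp (fn1_fo f (some (some (some none))) (some none))
      (FO.imp (fn1_fo f (some (some none)) (some none)) (FO.imp (fn1_fo g (some (some (some none))) none)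
      (FO.imp (fn1_fo g (some (some none)) none) (FO.eq (some (some (some none))) (some (some none)))))))))))) 

section
variable {V : Type} {E₀ : V → V → Prop} {s : V}

theorem D3_iff (x : K3 V E₀) : D3 f (K3 V E₀) (str3 f g V E₀ s) x ↔ ∃ v, K3.vt v = x := by
  unfold D3
  rw [str3_f]
  constructor
  · intro h
    exact ⟨_, h⟩
  · rintro ⟨v, rfl⟩
    rfl

theorem not_D3 (x : K3 V E₀) (h : ¬ D3 f (K3 V E₀) (str3 f g V E₀ s) x) : ∃ a b hab, K3.ed a b hab = x := by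
  rcases x with x | ⟨a, b, hab⟩
  · exact absurd ((D3_iff _).2 ⟨x, rfl⟩) h
  · exact ⟨a, b, hab, rfl⟩

theorem E3_iff (hfg : f ≠ g) (u v : V) :
    E3 f g (K3 V E₀) (str3 f g V E₀ s) (K3.vt u) (K3.vt v) ↔ E₀ u v := by
  unfold E3
  constructor
  · rintro ⟨-, -, e, h1, h2, h3⟩
    rw [str3_f] at h2
    rw [str3_g hfg] at h3
    obtain ⟨a, b, hab, rfl⟩ := not_D3 e h1
    have h4 : a = u := K3.vt.inj h2
    have h5 : b = v := K3.vt.inj h3
    rw [← h4, ← h5]
    exact hab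
  · intro h
    refine ⟨(D3_iff _).2 ⟨u, rfl⟩, (D3_iff _).2 ⟨v, rfl⟩, .ed u v h, ?_, ?_, ?_⟩
    · rw [D3_iff]
      rintro ⟨w, hw⟩
      cases hw
    · rw [str3_f]
      rfl
    · rw [str3_g hfg]
      rfl

theorem Ax3_K (hfg : f ≠ g) : Ax3 f g (K3 V E₀) (str3 f g V E₀ s) (K3.vt s) := by
  refine ⟨⟨?_, fun Q _ w h => h⟩, ?_, ?_, ?_, ?_⟩
  · rintro ⟨k, h⟩ hh w
    exact str3_o h (fun h1 => hh (Or.inl h1)) (fun h1 => hh (Or.inr h1)) w
  · intro x y h
    rw [str3_f] at h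
    rw [← h]
    exact (D3_iff _).2 ⟨_, rfl⟩
  · intro x y h
    rw [str3_g hfg] at h
    rw [← h]
    exact (D3_iff _).2 ⟨_, rfl⟩
  · intro x h
    obtain ⟨v, rfl⟩ := (D3_iff _).1 h
    rw [str3_g hfg]
    rfl
  · intro x y a b hx hy h1 h2 h3 h4
    obtain ⟨a1, b1, hab1, rfl⟩ := not_D3 x hx
    obtain ⟨a2, b2, hab2, rfl⟩ := not_D3 y hy
    rw [str3_f] at h1 h2
    rw [str3_g hfg] at h3 h4
    have h5 : a1 = a2 := K3.vt.inj (h1.trans h2.symm)
    have h6 : b1 = b2 := K3.vt.inj (h3.trans h4.symm)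
    subst h5
    subst h6
    rfl

end

theorem bf3 {V : Type} {E₀ : V → V → Prop} {s : V} {V' : Type} {E₀' : V' → V' → Prop} {s' : V'}
    (h : BFE E₀ s E₀' s') : @Language.completeTheory L (K3 V E₀) (str3 f g V E₀ s) =
      @Language.completeTheory L (K3 V' E₀') (str3 f g V' E₀' s') := by
  have hmono : ∀ r P, h.J (r + 1) P → ∃ P', h.J r P' ∧ ∀ x y, P x y → P' x y := by
    intro r P hP
    obtain ⟨P', b, h1, h2, -⟩ := h.forth r P hP s
    exact ⟨P', h1, h2⟩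
  refine completeTheory_eq_of_bf (str3 f g V E₀ s) (str3 f g V' E₀' s')
    (fun r P' => ∃ P, h.J (2 * r) P ∧ P' = K3.lift P) ?_ (fun r P hP k Q x y hxy => Iff.rfl) ?_ ?_ ?_ ?_
  · rintro r _ ⟨P, hP, rfl⟩ a b a' b' h1 h2
    rcases a with a | ⟨a, c, hac⟩ <;> rcases b with b | ⟨b, d, hbd⟩
    · rcases a' with a' | ⟨a', c', hac'⟩ <;> rcases b' with b' | ⟨b', d', hbd'⟩
      · have h3 := h.eq _ P hP _ _ _ _ h1 h2
        exact ⟨fun h4 => congrArg K3.vt (h3.1 (K3.vt.inj h4)), fun h4 => congrArg K3.vt (h3.2 (K3.vt.inj h4))⟩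
      · exact h2.elim
      · exact h2.elim
      · exact ⟨(fun h4 => nomatch h4), (fun h4 => nomatch h4)⟩
    · exact h1.elim
    · exact h1.elim
    · rcases a' with a' | ⟨a', c', hac'⟩ <;> rcases b' with b' | ⟨b', d', hbd'⟩
      · exact ⟨(fun h4 => nomatch h4), (fun h4 => nomatch h4)⟩
      · exact h2.elim
      · exact h2.elim
      · have h3 := h.eq _ P hP _ _ _ _ h1.1 h2.1
        have h5 := h.eq _ P hP _ _ _ _ h1.2 h2.2
        rw [K3.ed.injEq, K3.ed.injEq]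
        exact and_congr h3 h5
  · rintro r _ ⟨P, hP, rfl⟩ k h' x y hxy
    show K3.lift P (if hk : 0 < k then (if (⟨k, h'⟩ : Σ k, L.Functions k) = ⟨1, f⟩ then K3.vt (x ⟨0, hk⟩).src
      else if (⟨k, h'⟩ : Σ k, L.Functions k) = ⟨1, g⟩ then K3.vt (x ⟨0, hk⟩).tgt else x ⟨0, hk⟩) else K3.vt s)
      (if hk : 0 < k then (if (⟨k, h'⟩ : Σ k, L.Functions k) = ⟨1, f⟩ then K3.vt (y ⟨0, hk⟩).src
      else if (⟨k, h'⟩ : Σ k, L.Functions k) = ⟨1, g⟩ then K3.vt (y ⟨0, hk⟩).tgt else y ⟨0, hk⟩) else K3.vt s')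
    by_cases hk : 0 < k
    · rw [dif_pos hk, dif_pos hk]
      by_cases h1 : (⟨k, h'⟩ : Σ k, L.Functions k) = ⟨1, f⟩
      · rw [if_pos h1, if_pos h1]
        exact K3.lift_src (hxy _)
      · rw [if_neg h1, if_neg h1]
        by_cases h2 : (⟨k, h'⟩ : Σ k, L.Functions k) = ⟨1, g⟩
        · rw [if_pos h2, if_pos h2]
          exact K3.lift_tgt (hxy _)
        · rw [if_neg h2, if_neg h2]
          exact hxy _
    · rw [dif_neg hk, dif_neg hk]
      exact h.base _ P hP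
  · rintro r _ ⟨P, hP, rfl⟩ a
    have hP' : h.J (2 * r + 1 + 1) P := hP
    rcases a with a | ⟨a, c, hac⟩
    · obtain ⟨P1, b, hP1, hPP, hab⟩ := h.forth _ P hP' a
      obtain ⟨P2, hP2, hPP2⟩ := hmono _ P1 hP1
      exact ⟨_, K3.vt b, ⟨P2, hP2, rfl⟩, K3.lift_mono (fun x y hxy => hPP2 _ _ (hPP _ _ hxy)), hPP2 _ _ hab⟩
    · obtain ⟨P1, b, hP1, hPP, hab⟩ := h.forth _ P hP' a
      obtain ⟨P2, d, hP2, hPP2, hcd⟩ := h.forth _ P1 hP1 c
      exact ⟨_, .ed b d ((h.edge _ P2 hP2 _ _ _ _ (hPP2 _ _ hab) hcd).1 hac), ⟨P2, hP2, rfl⟩,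
        K3.lift_mono (fun x y hxy => hPP2 _ _ (hPP _ _ hxy)), hPP2 _ _ hab, hcd⟩
  · rintro r _ ⟨P, hP, rfl⟩ b
    have hP' : h.J (2 * r + 1 + 1) P := hP
    rcases b with b | ⟨b, d, hbd⟩
    · obtain ⟨P1, a, hP1, hPP, hab⟩ := h.back _ P hP' b
      obtain ⟨P2, hP2, hPP2⟩ := hmono _ P1 hP1
      exact ⟨_, K3.vt a, ⟨P2, hP2, rfl⟩, K3.lift_mono (fun x y hxy => hPP2 _ _ (hPP _ _ hxy)), hPP2 _ _ hab⟩
    · obtain ⟨P1, a, hP1, hPP, hab⟩ := h.back _ P hP' b
      obtain ⟨P2, c, hP2, hPP2, hcd⟩ := h.back _ P1 hP1 d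
      exact ⟨_, .ed a c ((h.edge _ P2 hP2 _ _ _ _ (hPP2 _ _ hab) hcd).2 hbd), ⟨P2, hP2, rfl⟩,
        K3.lift_mono (fun x y hxy => hPP2 _ _ (hPP _ _ hxy)), hPP2 _ _ hab, hcd⟩
  · intro r
    obtain ⟨P, hP⟩ := h.start (2 * r)
    exact ⟨_, P, hP, rfl⟩

theorem rec3 (hfg : f ≠ g) (M : Type) (i : L.Structure M) (s : M) (hA : Ax3 f g M i s) (hs : D3 f M i s) :
    @Language.completeTheory L M i = @Language.completeTheory L
      (K3 {x // D3 f M i x} (fun x y => E3 f g M i x.1 y.1)) (str3 f g {x // D3 f M i x}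
        (fun x y => E3 f g M i x.1 y.1) ⟨s, hs⟩) := by
  obtain ⟨hT, hA1, hA2, hA3, hA4⟩ := hA
  let e : M → K3 {x // D3 f M i x} (fun x y => E3 f g M i x.1 y.1) := fun x =>
    if h : D3 f M i x then .vt ⟨x, h⟩
    else .ed ⟨Structure.funMap f (fun _ => x), hA1 x _ rfl⟩ ⟨Structure.funMap g (fun _ => x), hA2 x _ rfl⟩
      ⟨hA1 x _ rfl, hA2 x _ rfl, x, h, rfl, rfl⟩
  have e1 : ∀ x (h : D3 f M i x), e x = .vt ⟨x, h⟩ := fun x h => dif_pos h
  have e2 : ∀ x (h : ¬ D3 f M i x), e x = .ed ⟨Structure.funMap f (fun _ => x), hA1 x _ rfl⟩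
      ⟨Structure.funMap g (fun _ => x), hA2 x _ rfl⟩ ⟨hA1 x _ rfl, hA2 x _ rfl, x, h, rfl, rfl⟩ :=
    fun x h => dif_neg h
  have hsrc : ∀ x, (e x).src = ⟨Structure.funMap f (fun _ => x), hA1 x _ rfl⟩ := by
    intro x
    by_cases h : D3 f M i x
    · rw [e1 x h]
      exact Subtype.ext h.symm
    · rw [e2 x h]
      rfl
  have htgt : ∀ x, (e x).tgt = ⟨Structure.funMap g (fun _ => x), hA2 x _ rfl⟩ := by
    intro x
    by_cases h : D3 f M i x
    · rw [e1 x h]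
      exact Subtype.ext (hA3 x h).symm
    · rw [e2 x h]
      rfl
  have hinj : Function.Injective e := by
    intro x y hxy
    have h1 := hsrc x
    rw [hxy, hsrc] at h1
    have h2 := htgt x
    rw [hxy, htgt] at h2
    have h1' := congrArg Subtype.val h1
    have h2' := congrArg Subtype.val h2
    by_cases hx : D3 f M i x <;> by_cases hy : D3 f M i y
    · have h3 : Structure.funMap f (fun _ => y) = Structure.funMap f (fun _ => x) := h1'
      have h4 : Structure.funMap f (fun _ => x) = x := hx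
      have h5 : Structure.funMap f (fun _ => y) = y := hy
      rw [← h4, ← h5, h3]
    · rw [e1 x hx, e2 y hy] at hxy
      cases hxy
    · rw [e2 x hx, e1 y hy] at hxy
      cases hxy
    · exact hA4 x y _ _ hx hy rfl h1' rfl h2'
  have hsurj : Function.Surjective e := by
    rintro (⟨x, hx⟩ | ⟨x, y, hxy⟩)
    · exact ⟨x, e1 x hx⟩
    · have hxy' : ∃ z : M, ¬ D3 f M i z ∧ Structure.funMap f (fun _ => z) = x.1 ∧
          Structure.funMap g (fun _ => z) = y.1 := hxy.2.2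
      obtain ⟨z, hz, hz1, hz2⟩ := hxy'
      exact ⟨z, (e2 z hz).trans (K3.ed_eq _ _ (Subtype.ext hz1) (Subtype.ext hz2))⟩
  have hw : ∀ x : Fin 1 → M, x = fun _ => x 0 := fun x => funext fun a => by rw [Subsingleton.elim a 0]
  refine completeTheory_eq_of_equiv i _ (Equiv.ofBijective e ⟨hinj, hsurj⟩) ?_ ?_
  · intro k Q x
    exact iff_of_false (hT.2 ⟨k, Q⟩ (fun h => h) x) (fun h => h)
  · intro k h x
    show e (Structure.funMap h x) = (str3 f g _ _ _).funMap h (fun a => e (x a))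
    by_cases h1 : (⟨k, h⟩ : Σ k, L.Functions k) = ⟨1, f⟩
    · cases h1
      rw [str3_f, hsrc, hw x]
      exact e1 _ (hA1 _ _ rfl)
    · by_cases h2 : (⟨k, h⟩ : Σ k, L.Functions k) = ⟨1, g⟩
      · cases h2
        rw [str3_g hfg, htgt, hw x]
        exact e1 _ (hA2 _ _ rfl)
      · rw [str3_o h h1 h2, hT.1 ⟨k, h⟩ (fun h3 => h3.elim h1 h2) x]
        by_cases hk : 0 < k
        · rw [dif_pos hk, dif_pos hk]
        · rw [dif_neg hk, dif_neg hk]
          exact e1 s hs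

/-- the third case of `Rich` -/
noncomputable def KC3 (En : Enum L) (hfg : f ≠ g) : KC L where
  D := D3 f
  E := E3 f g
  Ax := Ax3 f g
  D_fo := D3_fo f
  E_fo := E3_fo f g
  Ax_fo := Ax3_fo En f g
  K V E₀ _ := K3 V E₀
  str := str3 f g
  pt _ _ _ v := .vt v
  pt_inj _ _ _ := fun _ _ h => K3.vt.inj h
  D_iff V E₀ s _ x := D3_iff x
  E_iff V E₀ s _ u v := E3_iff hfg u v
  Ax_K V E₀ s _ := Ax3_K hfg
  bf V E₀ s V' E₀' s' _ _ h := bf3 h
  recn M i s hA hs _ := rec3 hfg M i s hA hs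

end

/-- every rich language has an interface -/
theorem exists_KC {L : FirstOrder.Language.{0, 0}} (En : Enum L) (h : Rich L) : Nonempty (KC L) := by
  rcases h with ⟨n, hn, ⟨P⟩⟩ | ⟨n, hn, ⟨f⟩⟩ | ⟨f, g, hfg⟩
  · exact ⟨KC1 P En hn⟩
  · exact ⟨KC2 f En hn⟩
  · exact ⟨KC3 En hfg⟩

end Pool.Agent.LIN
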