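import Pool.Agent.LIN.Iface2
import Pool.Agent.LIN.GCG

/-! # [LIN-GCH] `CodingStatement` -/

namespace Pool.Agent.LIN

open FirstOrder FirstOrder.Language

theorem codingStatement : CodingStatement := by
  classical
  intro C hC L En hL
  obtain ⟨Kc⟩ := exists_KC En hL
  obtain ⟨rk, hrk⟩ : ∃ rk : Option C → ℕ, Function.Injective rk := exists_injective_nat (Option C)
  let Sp : ∀ (M : Type) (_ : L.Structure M), (Option C → M) → Prop := fun M i s =>
    Kc.Ax M i (s none) ∧ Psi rk (Kc.D M i) (Kc.E M i) s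
  have hSp : ∀ {α : Type} (s : Option C → α), FO L (fun M i v => Sp M i (fun a => v (s a))) :=
    fun s => FO.and (Kc.Ax_fo (s none)) (Psi_fo rk Kc.D_fo Kc.E_fo s)
  obtain ⟨κ, hκ⟩ := FO.sentence (L := L) (P := fun M i => ∃ s : Option C → M, Sp M i s)
    (FO.ex (hSp (fun a => Sum.inr a)))
  obtain ⟨μ, hμ⟩ := FO.bounded (L := L) (n := 1)
    (P := fun M i v => ∃ s : Option C → M, Sp M i s ∧ (Kc.D M i (v 0) ∧ MainD (Kc.E M i) s (v 0)))
    (FO.ex (FO.and (hSp (fun a => Sum.inr a)) (FO.and (Kc.D_fo (Sum.inl 0))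
      (MainD_fo Kc.E_fo (fun a => Sum.inr a) (Sum.inl 0)))))
  have h1 : ∀ c : C, ∃ ρ : L.BoundedFormula Empty 2, ∀ (M : Type) (i : L.Structure M) (v : Empty → M)
      (w : Fin 2 → M), ρ.Realize v w ↔ ∃ s : Option C → M, Sp M i s ∧ ∃ z, Kc.D M i z ∧
        (PortD (Kc.E M i) s c z ∧ (Kc.E M i (w 0) z ∧ Kc.E M i z (w 1))) := by
    intro c
    refine FO.bounded (L := L) (n := 2) (P := fun M i w => ∃ s : Option C → M, Sp M i s ∧ ∃ z, Kc.D M i z ∧
        (PortD (Kc.E M i) s c z ∧ (Kc.E M i (w 0) z ∧ Kc.E M i z (w 1)))) ?_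
    exact FO.ex (FO.and (hSp (fun a => Sum.inr a)) (FO.ex1 (FO.and (Kc.D_fo none)
      (FO.and (PortD_fo Kc.E_fo (fun a => some (Sum.inr a)) c none)
        (FO.and (Kc.E_fo (some (Sum.inl 0)) none) (Kc.E_fo none (some (Sum.inl 1))))))))
  choose ρ hρ using h1
  -- the formulas in a structure with special points `s`
  have hμ' : ∀ (M : Type) (i : L.Structure M) (s : Option C → M), Sp M i s → ∀ x : M,
      μ.Realize (default : Empty → M) ![x] ↔ Kc.D M i x ∧ MainD (Kc.E M i) s x := by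
    intro M i s hs x
    rw [hμ M i]
    constructor
    · rintro ⟨s', hs', h⟩
      have h2 : s' = s := hs'.2.uniq hrk hs.2
      rw [h2] at h
      exact h
    · exact fun h => ⟨s, hs, h⟩
  have hρ' : ∀ (M : Type) (i : L.Structure M) (s : Option C → M), Sp M i s → ∀ (c : C) (x y : M),
      (ρ c).Realize (default : Empty → M) ![x, y] ↔ ∃ z, Kc.D M i z ∧ PortD (Kc.E M i) s c z ∧
        Kc.E M i x z ∧ Kc.E M i z y := by
    intro M i s hs c x y
    rw [hρ c M i]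
    constructor
    · rintro ⟨s', hs', h⟩
      have h2 : s' = s := hs'.2.uniq hrk hs.2
      rw [h2] at h
      exact h
    · exact fun h => ⟨s, hs, h⟩
  have key : ∀ (U : Type) (R : C → U → U → Prop) (M : Type) (i : L.Structure M) (pt : VP C U → M),
      Function.Injective pt → (∀ x, Kc.D M i x ↔ ∃ v, pt v = x) →
      (∀ u v, Kc.E M i (pt u) (pt v) ↔ VE rk R u v) → Sp M i (fun a => pt (VP.sp a)) →
      ∃ e : U ≃ MainPt μ M, ∀ c u v, R c u v ↔ RelOf μ ρ M c (e u) (e v) := by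
    intro U R M i pt hinj hDi hEi hs
    have hmain : ∀ u : U, μ.Realize (default : Empty → M) ![pt (VP.main u)] := by
      intro u
      refine (hμ' M i (fun a => pt (VP.sp a)) hs _).2 ⟨(hDi _).2 ⟨_, rfl⟩, ?_⟩
      exact (MainD_map hinj hEi VP.sp _).2 ((main_VP _).2 ⟨u, rfl⟩)
    let f : U → MainPt μ M := fun u => ⟨_, hmain u⟩
    have hf : Function.Bijective f := by
      constructor
      · intro u v huv
        have h2 := hinj (congrArg Subtype.val huv)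
        exact VP.main.inj h2
      · rintro ⟨x, hx⟩
        obtain ⟨hx1, hx2⟩ := (hμ' M i (fun a => pt (VP.sp a)) hs _).1 hx
        obtain ⟨v, rfl⟩ := (hDi x).1 hx1
        obtain ⟨u, rfl⟩ := (main_VP v).1 ((MainD_map hinj hEi VP.sp _).1 hx2)
        exact ⟨u, rfl⟩
    refine ⟨Equiv.ofBijective f hf, ?_⟩
    intro c u v
    refine Iff.trans (rel_VP (rk := rk) (R := R) c u v) ?_
    refine Iff.trans ?_ (hρ' M i (fun a => pt (VP.sp a)) hs c _ _).symm
    constructor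
    · rintro ⟨z, hz, hz1, hz2⟩
      exact ⟨_, (hDi _).2 ⟨z, rfl⟩, (PortD_map hinj hEi VP.sp c z).2 hz, (hEi _ _).2 hz1, (hEi _ _).2 hz2⟩
    · rintro ⟨x, hx, hz, hz1, hz2⟩
      obtain ⟨z, rfl⟩ := (hDi x).1 hx
      exact ⟨z, (PortD_map hinj hEi VP.sp c z).1 hz, (hEi _ _).1 hz1, (hEi _ _).1 hz2⟩
  refine ⟨κ, μ, ρ, ?_, ?_, ?_⟩
  · intro M i hM
    obtain ⟨s, hs⟩ := (hκ M i).1 hM
    obtain ⟨x, hx⟩ := hs.2.ne
    exact ⟨⟨x, (hμ' M i s hs x).2 hx⟩⟩
  · intro U R hU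
    have hs0 : VE rk R (VP.sp none) (VP.sp none) := le_rfl
    have hDi := Kc.D_iff (VP C U) (VE rk R) (VP.sp none) hs0
    have hEi := Kc.E_iff (VP C U) (VE rk R) (VP.sp none) hs0
    have hinj := Kc.pt_inj (VP C U) (VE rk R) (VP.sp none)
    have hps := (psi_VP (rk := rk) (R := R) hU).map hinj hDi hEi
    have hs : Sp _ (Kc.str (VP C U) (VE rk R) (VP.sp none))
        (fun a => Kc.pt (VP C U) (VE rk R) (VP.sp none) (VP.sp a)) :=
      ⟨Kc.Ax_K _ _ _ hs0, hps⟩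
    refine ⟨Kc.K (VP C U) (VE rk R) (VP.sp none), Kc.str _ _ _,
      (hκ _ _).2 ⟨fun a => Kc.pt (VP C U) (VE rk R) (VP.sp none) (VP.sp a), hs⟩, ?_⟩
    exact key U R _ (Kc.str (VP C U) (VE rk R) (VP.sp none)) (Kc.pt (VP C U) (VE rk R) (VP.sp none)) hinj hDi hEi hs
  · intro M M' i i' hM hM' hEF
    obtain ⟨s, hs⟩ := (hκ M i).1 hM
    obtain ⟨s', hs'⟩ := (hκ M' i').1 hM'
    have hdec : ∀ (M : Type) (i : L.Structure M) (s : Option C → M), Sp M i s →
        ∃ e : VP C (MainPt μ M) ≃ {x : M // Kc.D M i x},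
          (∀ a b, VE rk (RelOf μ ρ M) a b ↔ Kc.E M i (e a).1 (e b).1) ∧ (∀ a, (e (.sp a)).1 = s a) := by
      intro M i s hs
      obtain ⟨e, he1, he2, -⟩ := hs.2.decode (U := MainPt μ M) Subtype.val Subtype.val_injective
        (fun x => ⟨fun h => ⟨⟨x, (hμ' M i s hs x).2 h⟩, rfl⟩, by
          rintro ⟨⟨y, hy⟩, rfl⟩
          exact (hμ' M i s hs y).1 hy⟩)
        (R := RelOf μ ρ M) (fun c u v => hρ' M i s hs c u.1 v.1)
      exact ⟨e, he1, he2⟩
    obtain ⟨e, he1, he2⟩ := hdec M i s hs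
    obtain ⟨e', he1', he2'⟩ := hdec M' i' s' hs'
    have hss : Kc.E M i (s none) (s none) := (hs.2.ss _ _).2 le_rfl
    have hss' : Kc.E M' i' (s' none) (s' none) := (hs'.2.ss _ _).2 le_rfl
    have hB := (F_BF (R := RelOf μ ρ M) (R' := RelOf μ ρ M') rk hEF).congr
      (E₁ := fun x y : {x // Kc.D M i x} => Kc.E M i x.1 y.1) (s₁ := ⟨s none, hs.2.sD none⟩)
      (E₁' := fun x y : {x // Kc.D M' i' x} => Kc.E M' i' x.1 y.1) (s₁' := ⟨s' none, hs'.2.sD none⟩)
      e he1 (Subtype.ext (he2 none)) e' he1' (Subtype.ext (he2' none))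
    rw [Kc.recn M i (s none) hs.1 (hs.2.sD none) hss, Kc.recn M' i' (s' none) hs'.1 (hs'.2.sD none) hss']
    exact Kc.bf _ _ _ _ _ _ hss hss' hB

end Pool.Agent.LIN
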