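import Pool.Agent.LIN.Iface2

/-! # [LIN-GK] block G: Goedel numbers of the sentences about chains of length `2^n` -/

namespace Pool.Agent.LIN

open FirstOrder FirstOrder.Language

variable {L : FirstOrder.Language.{0, 0}}

/-! ### 1. unfolding of the decoding functions -/

theorem gk_var (E : Enum L) (n d : ℕ) (h : d < n) :
    termOf E n (2 * d) = some (Term.var (Sum.inr ⟨n - 1 - d, by omega⟩)) := by
  rw [termOf, dif_pos (by omega : 2 * d % 2 = 0), dif_pos (by omega : 2 * d / 2 < n)]
  congr 4
  omega

theorem gk_odd (E : Enum L) (n c : ℕ) : termOf E n (2 * c + 1) =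
    if hi : (Nat.unpair c).1 < E.nF then
      if h : ∀ j : Fin (E.F ⟨_, hi⟩).1, (termOf E n (argc (Nat.unpair c).2 j)).isSome then
        some (Term.func (E.F ⟨_, hi⟩).2
          (fun j => (termOf E n (argc (Nat.unpair c).2 j)).get (h j)))
      else none
    else none := by
  have key : ∀ d, d = c → (if hi : (Nat.unpair d).1 < E.nF then
      if h : ∀ j : Fin (E.F ⟨_, hi⟩).1, (termOf E n (argc (Nat.unpair d).2 j)).isSome then
        some (Term.func (E.F ⟨_, hi⟩).2
          (fun j => (termOf E n (argc (Nat.unpair d).2 j)).get (h j)))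
      else none
    else none) = (if hi : (Nat.unpair c).1 < E.nF then
      if h : ∀ j : Fin (E.F ⟨_, hi⟩).1, (termOf E n (argc (Nat.unpair c).2 j)).isSome then
        some (Term.func (E.F ⟨_, hi⟩).2
          (fun j => (termOf E n (argc (Nat.unpair c).2 j)).get (h j)))
      else none
    else none) := by
    rintro d rfl; rfl
  rw [termOf, dif_neg (by omega : ¬ (2 * c + 1) % 2 = 0)]
  exact key _ (by omega)

theorem gk_func (E : Enum L) (n : ℕ) (i : Fin E.nF) (l : ℕ)
    (ts : Fin (E.F i).1 → L.Term (Empty ⊕ Fin n))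
    (h : ∀ j : Fin (E.F i).1, termOf E n (argc l j) = some (ts j)) :
    termOf E n (2 * Nat.pair i l + 1) = some (Term.func (E.F i).2 ts) := by
  have hu : Nat.unpair (Nat.pair i l) = ((i : ℕ), l) := Nat.unpair_pair _ _
  rw [gk_odd, hu, dif_pos i.2, dif_pos (fun j => by
    change (termOf E n (argc l j)).isSome = true
    rw [h j]; rfl)]
  congr 2
  funext j
  change (termOf E n (argc l j)).get _ = ts j
  simp only [h j, Option.get_some]

theorem gk_bot (E : Enum L) (n : ℕ) : formOf E n 0 = ⊥ := by
  rw [formOf, dif_pos rfl]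

theorem gk_eq (E : Enum L) (n a b : ℕ) (t s : L.Term (Empty ⊕ Fin n))
    (ha : termOf E n a = some t) (hb : termOf E n b = some s) :
    formOf E n (4 * Nat.pair a b + 1) = BoundedFormula.equal t s := by
  have h1 : (4 * Nat.pair a b + 1 - 1) / 4 = Nat.pair a b := by omega
  rw [formOf, dif_neg (by omega), dif_pos (by omega), h1, Nat.unpair_pair]
  simp only [ha, hb]

theorem gk_rel (E : Enum L) (n : ℕ) (i : Fin E.nR) (l : ℕ)
    (ts : Fin (E.R i).1 → L.Term (Empty ⊕ Fin n))
    (h : ∀ j : Fin (E.R i).1, termOf E n (argc l j) = some (ts j)) :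
    formOf E n (4 * Nat.pair i l + 2) = BoundedFormula.rel (E.R i).2 ts := by
  have h1 : (4 * Nat.pair i l + 2 - 1) / 4 = Nat.pair i l := by omega
  have hu : Nat.unpair ((4 * Nat.pair i l + 2 - 1) / 4) = ((i : ℕ), l) := by
    rw [h1]; exact Nat.unpair_pair _ _
  rw [formOf, dif_neg (by omega), dif_neg (by omega), dif_pos (by omega), hu, dif_pos i.2,
    dif_pos (fun j => by
    change (termOf E n (argc l j)).isSome = true
    rw [h j]; rfl)]
  congr 1
  funext j
  change (termOf E n (argc l j)).get _ = ts j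
  simp only [h j, Option.get_some]

theorem gk_imp (E : Enum L) (n a b : ℕ) :
    formOf E n (4 * Nat.pair a b + 3) = BoundedFormula.imp (formOf E n a) (formOf E n b) := by
  have h1 : (4 * Nat.pair a b + 3 - 1) / 4 = Nat.pair a b := by omega
  rw [formOf, dif_neg (by omega), dif_neg (by omega), dif_neg (by omega), dif_pos (by omega)]
  change BoundedFormula.imp (formOf E n (Nat.unpair ((4 * Nat.pair a b + 3 - 1) / 4)).1)
    (formOf E n (Nat.unpair ((4 * Nat.pair a b + 3 - 1) / 4)).2) = _
  rw [h1, Nat.unpair_pair]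

theorem gk_all (E : Enum L) (n a : ℕ) :
    formOf E n (4 * a + 4) = BoundedFormula.all (formOf E (n + 1) a) := by
  have h1 : (4 * a + 4 - 1) / 4 = a := by omega
  rw [formOf, dif_neg (by omega), dif_neg (by omega), dif_neg (by omega), dif_neg (by omega)]
  change BoundedFormula.all (formOf E (n + 1) ((4 * a + 4 - 1) / 4)) = _
  rw [h1]

/-! ### 2. lists -/

theorem gk_list (d : ℕ → ℕ) (k : ℕ) : ∃ l, ∀ j < k, argc l j = d j := by
  induction k generalizing d with
  | zero => exact ⟨0, fun j hj => absurd hj (Nat.not_lt_zero _)⟩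
  | succ k ih =>
    obtain ⟨l, hl⟩ := ih (fun j => d (j + 1))
    refine ⟨Nat.pair (d 0) l, ?_⟩
    intro j hj
    cases j with
    | zero => rw [argc, Nat.unpair_pair]
    | succ j =>
      rw [argc, Nat.unpair_pair]
      exact hl j (by omega)

/-! ### 3. codes of terms and formulas -/

/-- `c` is a code of the term `t` in every context ending with the `n` variables of `t`. -/
def CodT (E : Enum L) {n : ℕ} (t : L.Term (Empty ⊕ Fin n)) (c : ℕ) : Prop :=
  ∀ j, ∃ t' : L.Term (Empty ⊕ Fin (j + n)), termOf E (j + n) c = some t' ∧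
    ∀ (M : Type) [L.Structure M] (v : Fin (j + n) → M),
      t'.realize (Sum.elim (default : Empty → M) v) =
        t.realize (Sum.elim (default : Empty → M) (fun i => v (Fin.natAdd j i)))

theorem exists_codT (E : Enum L) {n : ℕ} (t : L.Term (Empty ⊕ Fin n)) : ∃ c, CodT E t c := by
  induction t with
  | var x =>
    rcases x with x | i
    · exact x.elim
    · refine ⟨2 * (n - 1 - i), fun j => ⟨_, gk_var E (j + n) (n - 1 - i) (by omega), ?_⟩⟩
      intro M _ v
      change v _ = v _
      congr 1
      apply Fin.ext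
      change j + n - 1 - (n - 1 - (i : ℕ)) = j + i
      have := i.2
      omega
  | @func k f ts ih =>
    have key : ∀ (s : Σ n, L.Functions n) (ts : Fin s.1 → L.Term (Empty ⊕ Fin n)),
        (∀ i, ∃ c, CodT E (ts i) c) → ∃ c, CodT E (Term.func s.2 ts) c := by
      intro s
      obtain ⟨i, rfl⟩ := E.F.surjective s
      intro ts h
      choose c hc using h
      obtain ⟨l, hl⟩ := gk_list (fun j => if h : j < (E.F i).1 then c ⟨j, h⟩ else 0) (E.F i).1
      refine ⟨2 * Nat.pair i l + 1, ?_⟩
      intro j
      have hc' := fun x => hc x j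
      choose ts' hts' hre using hc'
      refine ⟨Term.func (E.F i).2 ts', gk_func E (j + n) i l ts' ?_, ?_⟩
      · intro x
        rw [hl x x.2, dif_pos x.2]
        exact hts' x
      · intro M _ v
        rw [Term.realize_func, Term.realize_func]
        congr 1
        funext x
        exact hre x M v
    exact key ⟨k, f⟩ ts ih

/-- `c` is a code of the formula `φ` in every context ending with the `n` variables of `φ`. -/
def CodF (E : Enum L) {n : ℕ} (φ : L.BoundedFormula Empty n) (c : ℕ) : Prop :=
  ∀ (j : ℕ) (M : Type) [L.Structure M] (v : Fin (j + n) → M),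
    (formOf E (j + n) c).Realize (default : Empty → M) v ↔
      φ.Realize (default : Empty → M) (fun i => v (Fin.natAdd j i))

theorem gk_snoc {M : Type} (j n : ℕ) (v : Fin (j + n) → M) (x : M) :
    (fun i => (Fin.snoc v x : Fin (j + n + 1) → M) (Fin.natAdd j i)) =
      (Fin.snoc (fun i => v (Fin.natAdd j i)) x : Fin (n + 1) → M) := by
  funext i
  refine Fin.lastCases ?_ (fun i => ?_) i
  · rw [Fin.snoc_last]
    have h : (Fin.natAdd j (Fin.last n) : Fin (j + n + 1)) = Fin.last (j + n) := rfl
    rw [h, Fin.snoc_last]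
  · rw [Fin.snoc_castSucc]
    have h : (Fin.natAdd j (Fin.castSucc i) : Fin (j + n + 1)) = Fin.castSucc (Fin.natAdd j i) := rfl
    rw [h, Fin.snoc_castSucc]

theorem exists_codF (E : Enum L) {n : ℕ} (φ : L.BoundedFormula Empty n) : ∃ c, CodF E φ c := by
  induction φ with
  | falsum =>
    refine ⟨0, ?_⟩
    intro j M _ v
    rw [gk_bot]
    exact Iff.rfl
  | equal t s =>
    obtain ⟨a, ha⟩ := exists_codT E t
    obtain ⟨b, hb⟩ := exists_codT E s
    refine ⟨4 * Nat.pair a b + 1, ?_⟩
    intro j M _ v
    obtain ⟨t', ht', hrt⟩ := ha j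
    obtain ⟨s', hs', hrs⟩ := hb j
    rw [gk_eq E _ a b t' s' ht' hs']
    change t'.realize (Sum.elim (default : Empty → M) v) =
      s'.realize (Sum.elim (default : Empty → M) v) ↔
      t.realize (Sum.elim (default : Empty → M) (fun i => v (Fin.natAdd j i))) =
      s.realize (Sum.elim (default : Empty → M) (fun i => v (Fin.natAdd j i)))
    rw [hrt, hrs]
  | @rel n k R ts =>
    have key : ∀ (s : Σ n, L.Relations n) (ts : Fin s.1 → L.Term (Empty ⊕ Fin n)),
        ∃ c, CodF E (BoundedFormula.rel s.2 ts) c := by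
      intro s
      obtain ⟨i, rfl⟩ := E.R.surjective s
      intro ts
      have h := fun x => exists_codT E (ts x)
      choose c hc using h
      obtain ⟨l, hl⟩ := gk_list (fun j => if h : j < (E.R i).1 then c ⟨j, h⟩ else 0) (E.R i).1
      refine ⟨4 * Nat.pair i l + 2, ?_⟩
      intro j M _ v
      have hc' := fun x => hc x j
      choose ts' hts' hre using hc'
      rw [gk_rel E (j + n) i l ts' (by
        intro x
        rw [hl x x.2, dif_pos x.2]
        exact hts' x)]
      change Structure.RelMap (E.R i).2 (fun x => (ts' x).realize (Sum.elim default v)) ↔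
        Structure.RelMap (E.R i).2 (fun x => (ts x).realize
          (Sum.elim default (fun i => v (Fin.natAdd j i))))
      have e : (fun x => (ts' x).realize (Sum.elim (default : Empty → M) v)) =
          (fun x => (ts x).realize
            (Sum.elim (default : Empty → M) (fun i => v (Fin.natAdd j i)))) := by
        funext x
        exact hre x M v
      rw [e]
    exact key ⟨k, R⟩ ts
  | imp φ ψ ih ih' =>
    obtain ⟨a, ha⟩ := ih
    obtain ⟨b, hb⟩ := ih'
    refine ⟨4 * Nat.pair a b + 3, ?_⟩
    intro j M _ v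
    rw [gk_imp]
    rw [BoundedFormula.realize_imp, BoundedFormula.realize_imp, ha j M v, hb j M v]
  | @all n φ ih =>
    obtain ⟨a, ha⟩ := ih
    refine ⟨4 * a + 4, ?_⟩
    intro j M _ v
    rw [gk_all, BoundedFormula.realize_all, BoundedFormula.realize_all]
    refine forall_congr' fun x => ?_
    rw [← gk_snoc]
    exact ha j M (Fin.snoc v x)

/-! ### 4. the chain codes -/

/-- Code of `a → ¬ b` (the negation of the conjunction). -/
def gkAnd (a b : ℕ) : ℕ := 4 * Nat.pair a (4 * Nat.pair b 0 + 3) + 3

/-- Code of the negation. -/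
def gkNot (a : ℕ) : ℕ := 4 * Nat.pair a 0 + 3

/-- Code of the existential quantifier. -/
def gkEx (a : ℕ) : ℕ := gkNot (4 * gkNot a + 4)

theorem gk_not_real (E : Enum L) (n a : ℕ) (M : Type) [L.Structure M] (v : Fin n → M) :
    (formOf E n (gkNot a)).Realize (default : Empty → M) v ↔
      ¬ (formOf E n a).Realize (default : Empty → M) v := by
  rw [gkNot, gk_imp, gk_bot, BoundedFormula.realize_imp, BoundedFormula.realize_bot]

theorem gk_and_real (E : Enum L) (n a b : ℕ) (M : Type) [L.Structure M] (v : Fin n → M) :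
    (formOf E n (4 * Nat.pair (4 * Nat.pair a (4 * Nat.pair b 0 + 3) + 3) 0 + 3)).Realize
      (default : Empty → M) v ↔
      (formOf E n a).Realize (default : Empty → M) v ∧
        (formOf E n b).Realize (default : Empty → M) v := by
  rw [gk_imp, gk_imp, gk_imp, gk_bot, BoundedFormula.realize_imp, BoundedFormula.realize_imp,
    BoundedFormula.realize_imp, BoundedFormula.realize_bot]
  tauto

theorem gk_ex_real (E : Enum L) (n a : ℕ) (M : Type) [L.Structure M] (v : Fin n → M) :
    (formOf E n (gkEx a)).Realize (default : Empty → M) v ↔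
      ∃ x, (formOf E (n + 1) a).Realize (default : Empty → M) (Fin.snoc v x) := by
  rw [gkEx, gk_not_real, gk_all, BoundedFormula.realize_all]
  push Not
  refine exists_congr fun x => ?_
  rw [gk_not_real, not_not]

/-- Code of the formula 'there is a chain of length `k` to a point coded by `t`'. -/
def gkChain (s t : ℕ) : ℕ → ℕ
  | 0 => t
  | k + 1 => gkEx (gkNot (gkAnd s (gkChain s t k)))

theorem gk_chain_real (E : Enum L) (σ : L.BoundedFormula Empty 2) (θ : L.BoundedFormula Empty 1)
    (s t : ℕ) (hs : CodF E σ s) (ht : CodF E θ t) (k : ℕ) :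
    ∀ (j : ℕ) (M : Type) [L.Structure M] (v : Fin (j + 1) → M),
    (formOf E (j + 1) (gkChain s t k)).Realize (default : Empty → M) v ↔
      ∃ f : ℕ → M, f 0 = v (Fin.last j) ∧
        (∀ i < k, σ.Realize (default : Empty → M) ![f i, f (i + 1)]) ∧
        θ.Realize (default : Empty → M) ![f k] := by
  have e1 : ∀ (j : ℕ) (M : Type) (v : Fin (j + 1) → M),
      (fun i : Fin 1 => v (Fin.natAdd j i)) = ![v (Fin.last j)] := by
    intro j M v
    funext i
    fin_cases i
    rfl
  have e2 : ∀ (j : ℕ) (M : Type) (v : Fin (j + 1) → M) (x : M),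
      (fun i : Fin 2 => (Fin.snoc v x : Fin (j + 1 + 1) → M) (Fin.natAdd j i)) =
        ![v (Fin.last j), x] := by
    intro j M v x
    rw [gk_snoc j 1 v x, e1]
    funext i
    fin_cases i <;> rfl
  induction k with
  | zero =>
    intro j M _ v
    change (formOf E (j + 1) t).Realize (default : Empty → M) v ↔ _
    rw [ht j M v, e1]
    constructor
    · intro h
      exact ⟨fun _ => v (Fin.last j), rfl, fun i hi => absurd hi (Nat.not_lt_zero _), h⟩
    · rintro ⟨f, h0, _, h⟩
      rw [← h0]
      exact h
  | succ k ih =>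
    intro j M _ v
    change (formOf E (j + 1) (gkEx (gkNot (gkAnd s (gkChain s t k))))).Realize
      (default : Empty → M) v ↔ _
    rw [gk_ex_real]
    have hx : ∀ x, (formOf E (j + 1 + 1) (gkNot (gkAnd s (gkChain s t k)))).Realize
        (default : Empty → M) (Fin.snoc v x) ↔
        σ.Realize (default : Empty → M) ![v (Fin.last j), x] ∧
          ∃ f : ℕ → M, f 0 = x ∧
            (∀ i < k, σ.Realize (default : Empty → M) ![f i, f (i + 1)]) ∧
            θ.Realize (default : Empty → M) ![f k] := by
      intro x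
      have h1 := gk_and_real E (j + 1 + 1) s (gkChain s t k) M (Fin.snoc v x)
      have h2 := hs j M (Fin.snoc v x : Fin (j + 2) → M)
      have h3 := ih (j + 1) M (Fin.snoc v x : Fin (j + 1 + 1) → M)
      rw [Fin.snoc_last] at h3
      rw [← h3]
      rw [← e2 j M v x, ← h2]
      exact h1
    constructor
    · rintro ⟨x, h⟩
      obtain ⟨h1, f, h0, h2, h3⟩ := (hx x).mp h
      refine ⟨fun i => Nat.casesOn i (v (Fin.last j)) f, rfl, ?_, h3⟩
      intro i hi
      cases i with
      | zero =>
        change σ.Realize (default : Empty → M) ![v (Fin.last j), f 0]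
        rw [h0]
        exact h1
      | succ i => exact h2 i (by omega)
    · rintro ⟨f, h0, h2, h3⟩
      refine ⟨f 1, (hx (f 1)).mpr ⟨?_, fun i => f (i + 1), rfl, ?_, h3⟩⟩
      · rw [← h0]
        exact h2 0 (by omega)
      · intro i hi
        exact h2 (i + 1) (by omega)

/-! ### 5. computability -/

theorem gkNot_prim : Primrec gkNot := by
  unfold gkNot
  exact (Primrec.nat_add.comp (Primrec.nat_mul.comp (Primrec.const 4)
    (Primrec₂.natPair.comp Primrec.id (Primrec.const 0))) (Primrec.const 3))

theorem gkAnd_prim : Primrec₂ gkAnd := by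
  unfold gkAnd
  exact (Primrec.nat_add.comp (Primrec.nat_mul.comp (Primrec.const 4)
    (Primrec₂.natPair.comp Primrec.fst (Primrec.nat_add.comp (Primrec.nat_mul.comp (Primrec.const 4)
    (Primrec₂.natPair.comp Primrec.snd (Primrec.const 0))) (Primrec.const 3)))) (Primrec.const 3))

theorem gkEx_prim : Primrec gkEx := by
  unfold gkEx
  exact gkNot_prim.comp (Primrec.nat_add.comp (Primrec.nat_mul.comp (Primrec.const 4)
    gkNot_prim) (Primrec.const 4))

theorem gkChain_prim (s : ℕ) : Primrec₂ (fun t k : ℕ => gkChain s t k) := by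
  have h : Primrec₂ (fun (t : ℕ) (p : ℕ × ℕ) => gkEx (gkNot (gkAnd s p.2))) :=
    (gkEx_prim.comp (gkNot_prim.comp (gkAnd_prim.comp (Primrec.const s)
      (Primrec.snd.comp Primrec.snd)))).to₂
  refine (Primrec.nat_rec (Primrec.id : Primrec (fun t : ℕ => t)) h).of_eq ?_
  intro t k
  induction k with
  | zero => rfl
  | succ k ih =>
    change gkEx (gkNot (gkAnd s _)) = gkEx (gkNot (gkAnd s (gkChain s t k)))
    rw [← ih]

theorem pow_prim : Primrec (fun n : ℕ => 2 ^ n) := by
  have h : Primrec₂ (fun (t : ℕ) (p : ℕ × ℕ) => 2 * p.2) :=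
    (Primrec.nat_mul.comp (Primrec.const 2) (Primrec.snd.comp Primrec.snd)).to₂
  have h1 : Primrec₂ (fun t k : ℕ => t * 2 ^ k) := by
    refine (Primrec.nat_rec (Primrec.id : Primrec (fun t : ℕ => t)) h).of_eq ?_
    intro t k
    induction k with
    | zero => simp
    | succ k ih =>
      change 2 * _ = _
      rw [ih, pow_succ]
      ring
  refine (h1.comp (Primrec.const 1) Primrec.id).of_eq ?_
  intro n
  simp

theorem codeStatement : CodeStatement := by
  intro L E β σ nQ θ
  obtain ⟨b, hb⟩ := exists_codF E β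
  obtain ⟨s, hs⟩ := exists_codF E σ
  have hθ := fun q => exists_codF E (θ q)
  choose c hc using hθ
  refine ⟨fun p => if p.2 < nQ then
    gkEx (gkNot (gkAnd b (gkChain s ((List.ofFn c).getD p.2 0) (2 ^ p.1)))) else 0, ?_, ?_⟩
  · apply Primrec.to_comp
    refine Primrec.ite ?_ ?_ (Primrec.const 0)
    · exact Primrec.nat_lt.comp Primrec.snd (Primrec.const nQ)
    · refine gkEx_prim.comp (gkNot_prim.comp (gkAnd_prim.comp (Primrec.const b) ?_))
      exact (gkChain_prim s).comp ((Primrec.list_getD 0).comp (Primrec.const (List.ofFn c)) Primrec.snd)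
        (pow_prim.comp Primrec.fst)
  · intro M _ _ n q
    by_cases hq : q < nQ
    · have hget : (List.ofFn c).getD q 0 = c ⟨q, hq⟩ := by
        rw [List.getD_eq_getElem _ _ (by rw [List.length_ofFn]; exact hq), List.getElem_ofFn]
      simp only [hq, if_true, hget]
      change (formOf E 0 (gkEx (gkNot (gkAnd b (gkChain s (c ⟨q, hq⟩) (2 ^ n)))))).Realize
        (default : Empty → M) (default : Fin 0 → M) ↔ _
      rw [gk_ex_real]
      have e1 : ∀ x : M, (fun i : Fin 1 => (Fin.snoc (default : Fin 0 → M) x : Fin (0 + 1) → M)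
          (Fin.natAdd 0 i)) = ![x] := by
        intro x
        funext i
        fin_cases i
        rfl
      have hx : ∀ x : M, (formOf E (0 + 1) (gkNot (gkAnd b (gkChain s (c ⟨q, hq⟩) (2 ^ n))))).Realize
          (default : Empty → M) (Fin.snoc (default : Fin 0 → M) x) ↔
          β.Realize (default : Empty → M) ![x] ∧
          ∃ f : ℕ → M, f 0 = x ∧
            (∀ i < 2 ^ n, σ.Realize (default : Empty → M) ![f i, f (i + 1)]) ∧
            (θ ⟨q, hq⟩).Realize (default : Empty → M) ![f (2 ^ n)] := by
        intro x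
        have h1 := gk_and_real E (0 + 1) b (gkChain s (c ⟨q, hq⟩) (2 ^ n)) M
          (Fin.snoc (default : Fin 0 → M) x)
        have h2 := hb 0 M (Fin.snoc (default : Fin 0 → M) x : Fin (0 + 1) → M)
        have h3 := gk_chain_real E σ (θ ⟨q, hq⟩) s (c ⟨q, hq⟩) hs (hc _) (2 ^ n) 0 M
          (Fin.snoc (default : Fin 0 → M) x : Fin (0 + 1) → M)
        have h4 : (Fin.snoc (default : Fin 0 → M) x : Fin (0 + 1) → M) (Fin.last 0) = x :=
          Fin.snoc_last _ _
        rw [h4] at h3
        rw [← h3, ← e1 x, ← h2]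
        exact h1
      constructor
      · rintro ⟨x, h⟩
        obtain ⟨h1, f, h0, h2, h3⟩ := (hx x).mp h
        refine ⟨trivial, f, ?_, h2, h3⟩
        rw [h0]
        exact h1
      · rintro ⟨_, f, h1, h2, h3⟩
        exact ⟨f 0, (hx (f 0)).mpr ⟨h1, f, rfl, h2, h3⟩⟩
    · simp only [hq, if_false]
      constructor
      · intro h
        exfalso
        change (formOf E 0 0).Realize (default : Empty → M) (default : Fin 0 → M) at h
        rw [gk_bot] at h
        exact h
      · rintro ⟨h, _⟩
        exact h.elim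

end Pool.Agent.LIN
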