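import Pool.Agent.LIN.Iface2

/-!
# [LIN] block GR : two-sorted formulas about towers (definitions)

`TF m a b`: formulas with `a` variables for elements of `T` and `b` variables for elements of `F`; index
`0` is the variable bound by the innermost quantifier of its sort. The functions `S, p, h, pi, V` and
the constant `o` are allowed in terms.
-/

namespace Pool.Agent.LIN

/-- Terms of sort `F`. -/
inductive FT (b : ℕ) : Type
  | w (i : Fin b) : FT b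
  | V (s : FT b) : FT b

/-- Terms of sort `T`. -/
inductive TT (a b : ℕ) : Type
  | v (i : Fin a) : TT a b
  | o : TT a b
  | S (t : TT a b) : TT a b
  | p (t : TT a b) : TT a b
  | h (t : TT a b) : TT a b
  | pi (s : FT b) : TT a b

/-- Formulas. `prp` is a constant truth value, `allI`, `exI` are conjunctions and disjunctions over
a finite index type. -/
inductive TF (m : Mach) : ℕ → ℕ → Type 1
  | prp {a b : ℕ} (P : Prop) : TF m a b
  | eqT {a b : ℕ} (t t' : TT a b) : TF m a b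
  | eqF {a b : ℕ} (s s' : FT b) : TF m a b
  | lt {a b : ℕ} (t t' : TT a b) : TF m a b
  | flt {a b : ℕ} (s s' : FT b) : TF m a b
  | Lf {a b : ℕ} (t : TT a b) : TF m a b
  | Ev {a b : ℕ} (t : TT a b) : TF m a b
  | st {a b : ℕ} (t : TT a b) (q : Fin m.nQ) : TF m a b
  | Mk {a b : ℕ} (s : FT b) : TF m a b
  | Pt {a b : ℕ} (s : FT b) : TF m a b
  | ix {a b : ℕ} (s : FT b) (i : Fin m.k) : TF m a b
  | neg {a b : ℕ} (φ : TF m a b) : TF m a b
  | and {a b : ℕ} (φ ψ : TF m a b) : TF m a b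
  | or {a b : ℕ} (φ ψ : TF m a b) : TF m a b
  | imp {a b : ℕ} (φ ψ : TF m a b) : TF m a b
  | iff {a b : ℕ} (φ ψ : TF m a b) : TF m a b
  | allT {a b : ℕ} (φ : TF m (a + 1) b) : TF m a b
  | exT {a b : ℕ} (φ : TF m (a + 1) b) : TF m a b
  | allF {a b : ℕ} (φ : TF m a (b + 1)) : TF m a b
  | exF {a b : ℕ} (φ : TF m a (b + 1)) : TF m a b
  | allI {a b : ℕ} (ι : Type) (hι : Finite ι) (φ : ι → TF m a b) : TF m a b
  | exI {a b : ℕ} (ι : Type) (hι : Finite ι) (φ : ι → TF m a b) : TF m a b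

variable {m : Mach}

def FT.ev (A : Tower m) {b : ℕ} : FT b → (Fin b → A.F) → A.F
  | .w i, τ => τ i
  | .V s, τ => A.V (s.ev A τ)

def TT.ev (A : Tower m) {a b : ℕ} : TT a b → (Fin a → A.T) → (Fin b → A.F) → A.T
  | .v i, σ, _ => σ i
  | .o, _, _ => A.o
  | .S t, σ, τ => A.S (t.ev A σ τ)
  | .p t, σ, τ => A.p (t.ev A σ τ)
  | .h t, σ, τ => A.h (t.ev A σ τ)
  | .pi s, _, τ => A.pi (s.ev A τ)

def TF.ev (A : Tower m) : {a b : ℕ} → TF m a b → (Fin a → A.T) → (Fin b → A.F) → Prop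
  | _, _, .prp P, _, _ => P
  | _, _, .eqT t t', σ, τ => t.ev A σ τ = t'.ev A σ τ
  | _, _, .eqF s s', _, τ => s.ev A τ = s'.ev A τ
  | _, _, .lt t t', σ, τ => A.lt (t.ev A σ τ) (t'.ev A σ τ)
  | _, _, .flt s s', _, τ => A.flt (s.ev A τ) (s'.ev A τ)
  | _, _, .Lf t, σ, τ => A.Lf (t.ev A σ τ)
  | _, _, .Ev t, σ, τ => A.Ev (t.ev A σ τ)
  | _, _, .st t q, σ, τ => A.st (t.ev A σ τ) q
  | _, _, .Mk s, _, τ => A.Mk (s.ev A τ)
  | _, _, .Pt s, _, τ => A.Pt (s.ev A τ)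
  | _, _, .ix s i, _, τ => A.ix (s.ev A τ) = i
  | _, _, .neg φ, σ, τ => ¬ φ.ev A σ τ
  | _, _, .and φ ψ, σ, τ => φ.ev A σ τ ∧ ψ.ev A σ τ
  | _, _, .or φ ψ, σ, τ => φ.ev A σ τ ∨ ψ.ev A σ τ
  | _, _, .imp φ ψ, σ, τ => φ.ev A σ τ → ψ.ev A σ τ
  | _, _, .iff φ ψ, σ, τ => φ.ev A σ τ ↔ ψ.ev A σ τ
  | _, _, .allT φ, σ, τ => ∀ x : A.T, φ.ev A (Fin.cons x σ : Fin _ → A.T) τ
  | _, _, .exT φ, σ, τ => ∃ x : A.T, φ.ev A (Fin.cons x σ : Fin _ → A.T) τ
  | _, _, .allF φ, σ, τ => ∀ x : A.F, φ.ev A σ (Fin.cons x τ : Fin _ → A.F)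
  | _, _, .exF φ, σ, τ => ∃ x : A.F, φ.ev A σ (Fin.cons x τ : Fin _ → A.F)
  | _, _, .allI _ _ φ, σ, τ => ∀ i, (φ i).ev A σ τ
  | _, _, .exI _ _ φ, σ, τ => ∃ i, (φ i).ev A σ τ

/-- Lifting of terms under a quantifier. -/
def FT.up {b : ℕ} : FT b → FT (b + 1)
  | .w i => .w i.succ
  | .V s => .V s.up

def TT.upT {a b : ℕ} : TT a b → TT (a + 1) b
  | .v i => .v i.succ
  | .o => .o
  | .S t => .S t.upT
  | .p t => .p t.upT
  | .h t => .h t.upT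
  | .pi s => .pi s

/-- `Org t`. -/
def TF.org {a b : ℕ} (t : TT a b) : TF m a b := .allT (.neg (.eqT (.S (.v 0)) t.upT))

/-- `Nx s s'`. -/
def TF.nx {a b : ℕ} (s s' : FT b) : TF m a b :=
  .and (.flt s s') (.allF (.imp (.flt s.up (.w 0)) (.or (.eqF (.w 0) s'.up) (.flt s'.up (.w 0)))))

/-- `Fst s`. -/
def TF.fst {a b : ℕ} (s : FT b) : TF m a b := .allF (.neg (.flt (.w 0) s.up))

/-- `Tm t`. -/
def TF.tm {a b : ℕ} (t : TT a b) : TF m a b := .eqT (.h t) .o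

theorem FT.ev_up (A : Tower m) {b : ℕ} (s : FT b) (τ : Fin b → A.F) (x : A.F) :
    s.up.ev A (Fin.cons x τ : Fin _ → A.F) = s.ev A τ := by
  induction s with
  | w i => rfl
  | V s ih => exact congrArg A.V ih

theorem TT.ev_upT (A : Tower m) {a b : ℕ} (t : TT a b) (σ : Fin a → A.T) (τ : Fin b → A.F)
    (x : A.T) : t.upT.ev A (Fin.cons x σ : Fin _ → A.T) τ = t.ev A σ τ := by
  induction t with
  | v i => rfl
  | o => rfl
  | S t ih => exact congrArg A.S ih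
  | p t ih => exact congrArg A.p ih
  | h t ih => exact congrArg A.h ih
  | pi s => rfl

@[simp] theorem TF.ev_org (A : Tower m) {a b : ℕ} (t : TT a b) (σ : Fin a → A.T)
    (τ : Fin b → A.F) : (TF.org t : TF m a b).ev A σ τ ↔ A.Org (t.ev A σ τ) := by
  change (∀ x : A.T, ¬ (A.S x = t.upT.ev A (Fin.cons x σ : Fin _ → A.T) τ)) ↔ _
  simp only [TT.ev_upT]
  rfl

@[simp] theorem TF.ev_nx (A : Tower m) {a b : ℕ} (s s' : FT b) (σ : Fin a → A.T)
    (τ : Fin b → A.F) : (TF.nx s s' : TF m a b).ev A σ τ ↔ A.Nx (s.ev A τ) (s'.ev A τ) := by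
  change (A.flt _ _ ∧ ∀ x : A.F, A.flt (s.up.ev A (Fin.cons x τ : Fin _ → A.F)) x →
    (x = s'.up.ev A (Fin.cons x τ : Fin _ → A.F) ∨ A.flt (s'.up.ev A (Fin.cons x τ : Fin _ → A.F)) x))
    ↔ _
  simp only [FT.ev_up]
  rfl

@[simp] theorem TF.ev_fst (A : Tower m) {a b : ℕ} (s : FT b) (σ : Fin a → A.T)
    (τ : Fin b → A.F) : (TF.fst s : TF m a b).ev A σ τ ↔ A.Fst (s.ev A τ) := by
  change (∀ x : A.F, ¬ A.flt x (s.up.ev A (Fin.cons x τ : Fin _ → A.F))) ↔ _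
  simp only [FT.ev_up]
  rfl

/-- Test: `p_odd` is transcribed verbatim. -/
example (A : Tower m) (σ : Fin 0 → A.T) (τ : Fin 0 → A.F) :
    (TF.allT (.imp (.neg (.Lf (.v 0))) (.eqT (.p (.S (.v 0))) (.S (.p (.v 0))))) : TF m 0 0).ev A σ τ ↔
      ∀ y, ¬ A.Lf y → A.p (A.S y) = A.S (A.p y) := Iff.rfl

/-- Test: several variables. -/
example (A : Tower m) (σ : Fin 0 → A.T) (τ : Fin 0 → A.F) :
    (TF.allT (.allT (.allT (.imp (.lt (.v 2) (.v 1)) (.imp (.lt (.v 1) (.v 0))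
      (.lt (.v 2) (.v 0)))))) : TF m 0 0).ev A σ τ ↔
      ∀ x y z, A.lt x y → A.lt y z → A.lt x z := Iff.rfl

end Pool.Agent.LIN
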