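import Pool.Agent.LIN.GR0

/-! # [LIN-GR1] block GR: translation of terms, finite conjunctions -/

namespace Pool.Agent.LIN

variable {m : Mach} {a b : ℕ}

/-- Induction on `s`. `w i`: `eq j (f i)`. `V s`: there is `y` with `y = s` and `R S y x_j` (one more
variable, `f' i = (f i).castSucc`, the new variable is `Fin.last n`; `Fin.snoc_last`,
`Fin.snoc_castSucc`). -/
theorem graph_F (s : FT b) : ∀ (n : ℕ) (f : Fin b → Fin n) (j : Fin n),
    ∃ ψ : RF (Tower.Sym m) n, ∀ (A : Tower m) (τ : Fin b → A.F) (x : Fin n → A.U),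
      (∀ i, x (f i) = Sum.inr (τ i)) → (ψ.Sat A.rel x ↔ x j = Sum.inr (s.ev A τ)) := by
  induction s with
  | w i =>
    intro n f j
    refine ⟨.eq j (f i), fun A τ x hf => ?_⟩
    change x j = x (f i) ↔ x j = Sum.inr (τ i)
    rw [hf i]
  | V s ih =>
    intro n f j
    obtain ⟨ψ, hψ⟩ := ih (n + 1) (fun i => (f i).castSucc) (Fin.last n)
    refine ⟨.ex (.and ψ (.rel Tower.Sym.S (Fin.last n) j.castSucc)), fun A τ x hf => ?_⟩
    have h1 : ∀ y : A.U, ψ.Sat A.rel (Fin.snoc x y : Fin _ → A.U) ↔ y = Sum.inr (s.ev A τ) := by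
      intro y
      rw [hψ A τ (Fin.snoc x y : Fin _ → A.U) (fun i => by rw [Fin.snoc_castSucc]; exact hf i),
        Fin.snoc_last]
    change (∃ y : A.U, ψ.Sat A.rel (Fin.snoc x y : Fin _ → A.U) ∧
      A.rel Tower.Sym.S ((Fin.snoc x y : Fin _ → A.U) (Fin.last n))
        ((Fin.snoc x y : Fin _ → A.U) j.castSucc)) ↔ x j = Sum.inr (A.V (s.ev A τ))
    simp only [h1, Fin.snoc_last, Fin.snoc_castSucc, exists_eq_left]
    rcases x j with z | c
    · change False ↔ _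
      exact ⟨False.elim, fun h => Sum.inl_ne_inr h⟩
    · change A.V (s.ev A τ) = c ↔ _
      rw [Sum.inr.injEq]
      exact eq_comm

/-- One step of `graph_T`: application of a function given by a relation symbol. -/
theorem gr1_step {n : ℕ} (g : ∀ A : Tower m, (Fin a → A.T) → (Fin b → A.F) → A.T)
    (F : ∀ A : Tower m, A.T → A.T) (c : Tower.Sym m) (e : Fin a → Fin n) (f : Fin b → Fin n)
    (o j : Fin n) (ψ : RF (Tower.Sym m) (n + 1))
    (hψ : ∀ (A : Tower m) (σ : Fin a → A.T) (τ : Fin b → A.F) (x : Fin (n + 1) → A.U),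
      (∀ i, x (e i).castSucc = Sum.inl (σ i)) → (∀ i, x (f i).castSucc = Sum.inr (τ i)) →
      x o.castSucc = Sum.inl A.o → (ψ.Sat A.rel x ↔ x (Fin.last n) = Sum.inl (g A σ τ)))
    (h1 : ∀ (A : Tower m) (y z : A.T), A.rel c (Sum.inl y) (Sum.inl z) ↔ F A y = z)
    (h2 : ∀ (A : Tower m) (y : A.T) (d : A.F), A.rel c (Sum.inl y) (Sum.inr d) ↔ False) :
    ∃ ψ : RF (Tower.Sym m) n, ∀ (A : Tower m) (σ : Fin a → A.T) (τ : Fin b → A.F)
      (x : Fin n → A.U), (∀ i, x (e i) = Sum.inl (σ i)) → (∀ i, x (f i) = Sum.inr (τ i)) →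
      x o = Sum.inl A.o → (ψ.Sat A.rel x ↔ x j = Sum.inl (F A (g A σ τ))) := by
  refine ⟨.ex (.and ψ (.rel c (Fin.last n) j.castSucc)), fun A σ τ x he hf ho => ?_⟩
  have h3 : ∀ y : A.U, ψ.Sat A.rel (Fin.snoc x y : Fin _ → A.U) ↔ y = Sum.inl (g A σ τ) := by
    intro y
    rw [hψ A σ τ (Fin.snoc x y : Fin _ → A.U) (fun i => by rw [Fin.snoc_castSucc]; exact he i)
      (fun i => by rw [Fin.snoc_castSucc]; exact hf i) (by rw [Fin.snoc_castSucc]; exact ho),
      Fin.snoc_last]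
  change (∃ y : A.U, ψ.Sat A.rel (Fin.snoc x y : Fin _ → A.U) ∧
    A.rel c ((Fin.snoc x y : Fin _ → A.U) (Fin.last n))
      ((Fin.snoc x y : Fin _ → A.U) j.castSucc)) ↔ x j = Sum.inl (F A (g A σ τ))
  simp only [h3, Fin.snoc_last, Fin.snoc_castSucc, exists_eq_left]
  rcases x j with z | d
  · rw [h1, Sum.inl.injEq]
    exact eq_comm
  · rw [h2]
    exact ⟨False.elim, fun h => Sum.inr_ne_inl h⟩

/-- The same for terms of sort `T`; `pi s`: `R h y x_j` for `y = s` (sort `F`). -/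
theorem graph_T (t : TT a b) : ∀ (n : ℕ) (e : Fin a → Fin n) (f : Fin b → Fin n) (o j : Fin n),
    ∃ ψ : RF (Tower.Sym m) n, ∀ (A : Tower m) (σ : Fin a → A.T) (τ : Fin b → A.F)
      (x : Fin n → A.U), (∀ i, x (e i) = Sum.inl (σ i)) → (∀ i, x (f i) = Sum.inr (τ i)) →
      x o = Sum.inl A.o → (ψ.Sat A.rel x ↔ x j = Sum.inl (t.ev A σ τ)) := by
  induction t with
  | v i =>
    intro n e f o j
    refine ⟨.eq j (e i), fun A σ τ x he hf ho => ?_⟩
    change x j = x (e i) ↔ x j = Sum.inl (σ i)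
    rw [he i]
  | o =>
    intro n e f o j
    refine ⟨.eq j o, fun A σ τ x he hf ho => ?_⟩
    change x j = x o ↔ x j = Sum.inl A.o
    rw [ho]
  | S t ih =>
    intro n e f o j
    obtain ⟨ψ, hψ⟩ := ih (n + 1) (fun i => (e i).castSucc) (fun i => (f i).castSucc)
      o.castSucc (Fin.last n)
    exact gr1_step (fun A σ τ => t.ev A σ τ) (fun A y => A.S y) Tower.Sym.S e f o j ψ hψ
      (fun A y z => Iff.rfl) (fun A y c => Iff.rfl)
  | p t ih =>
    intro n e f o j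
    obtain ⟨ψ, hψ⟩ := ih (n + 1) (fun i => (e i).castSucc) (fun i => (f i).castSucc)
      o.castSucc (Fin.last n)
    exact gr1_step (fun A σ τ => t.ev A σ τ) (fun A y => A.p y) Tower.Sym.p e f o j ψ hψ
      (fun A y z => Iff.rfl) (fun A y c => Iff.rfl)
  | h t ih =>
    intro n e f o j
    obtain ⟨ψ, hψ⟩ := ih (n + 1) (fun i => (e i).castSucc) (fun i => (f i).castSucc)
      o.castSucc (Fin.last n)
    exact gr1_step (fun A σ τ => t.ev A σ τ) (fun A y => A.h y) Tower.Sym.h e f o j ψ hψ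
      (fun A y z => Iff.rfl) (fun A y c => Iff.rfl)
  | pi s =>
    intro n e f o j
    obtain ⟨ψ, hψ⟩ := graph_F (m := m) s (n + 1) (fun i => (f i).castSucc) (Fin.last n)
    refine ⟨.ex (.and ψ (.rel Tower.Sym.h (Fin.last n) j.castSucc)), fun A σ τ x he hf ho => ?_⟩
    have h1 : ∀ y : A.U, ψ.Sat A.rel (Fin.snoc x y : Fin _ → A.U) ↔ y = Sum.inr (s.ev A τ) := by
      intro y
      rw [hψ A τ (Fin.snoc x y : Fin _ → A.U) (fun i => by rw [Fin.snoc_castSucc]; exact hf i),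
        Fin.snoc_last]
    change (∃ y : A.U, ψ.Sat A.rel (Fin.snoc x y : Fin _ → A.U) ∧
      A.rel Tower.Sym.h ((Fin.snoc x y : Fin _ → A.U) (Fin.last n))
        ((Fin.snoc x y : Fin _ → A.U) j.castSucc)) ↔ x j = Sum.inl (A.pi (s.ev A τ))
    simp only [h1, Fin.snoc_last, Fin.snoc_castSucc, exists_eq_left]
    rcases x j with z | c
    · change A.pi (s.ev A τ) = z ↔ _
      rw [Sum.inl.injEq]
      exact eq_comm
    · change False ↔ _
      exact ⟨False.elim, fun h => Sum.inr_ne_inl h⟩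

theorem gr1_list {C : Type} {n : ℕ} {ι : Type} (ψ : ι → RF C n) (l : List ι) :
    ∃ χ : RF C n, ∀ (U : Type) (R : C → U → U → Prop) (x : Fin n → U),
      χ.Sat R x ↔ ∀ i ∈ l, (ψ i).Sat R x := by
  induction l with
  | nil =>
    refine ⟨.neg (.ex (.neg (.eq (Fin.last n) (Fin.last n)))), fun U R x => ?_⟩
    change (¬ ∃ y : U, ¬ ((Fin.snoc x y : Fin _ → U) (Fin.last n) =
      (Fin.snoc x y : Fin _ → U) (Fin.last n))) ↔ _
    refine ⟨fun _ i hi => absurd hi List.not_mem_nil, fun _ h => ?_⟩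
    obtain ⟨y, hy⟩ := h
    exact hy rfl
  | cons i l ih =>
    obtain ⟨χ, hχ⟩ := ih
    refine ⟨.and (ψ i) χ, fun U R x => ?_⟩
    change ((ψ i).Sat R x ∧ χ.Sat R x) ↔ _
    rw [hχ U R x, List.forall_mem_cons]

/-- Finite conjunctions. The true formula is `not exists y, not y = y`. Induction over the finite
type (`Finite.induction_empty_option`) or over a list of its elements. -/
theorem RF.exists_all {C : Type} {n : ℕ} (ι : Type) (hι : Finite ι) (ψ : ι → RF C n) :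
    ∃ χ : RF C n, ∀ (U : Type) (R : C → U → U → Prop) (x : Fin n → U),
      χ.Sat R x ↔ ∀ i, (ψ i).Sat R x := by
  have : Fintype ι := Fintype.ofFinite ι
  obtain ⟨χ, hχ⟩ := gr1_list ψ (Finset.univ : Finset ι).toList
  refine ⟨χ, fun U R x => ?_⟩
  rw [hχ U R x]
  exact ⟨fun h i => h i (Finset.mem_toList.2 (Finset.mem_univ i)), fun h i _ => h i⟩

theorem RF.exists_any {C : Type} {n : ℕ} (ι : Type) (hι : Finite ι) (ψ : ι → RF C n) :
    ∃ χ : RF C n, ∀ (U : Type) (R : C → U → U → Prop) (x : Fin n → U),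
      χ.Sat R x ↔ ∃ i, (ψ i).Sat R x := by
  obtain ⟨χ, hχ⟩ := RF.exists_all ι hι fun i => .neg (ψ i)
  refine ⟨.neg χ, fun U R x => ?_⟩
  change (¬ χ.Sat R x) ↔ _
  rw [hχ U R x]
  change (¬ ∀ i, ¬ (ψ i).Sat R x) ↔ _
  exact not_forall_not

end Pool.Agent.LIN
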