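import Pool.Agent.LIN.GR1

/-! # [LIN-GR1b] block GR: translation of two-sorted formulas into relational formulas -/

namespace Pool.Agent.LIN

variable {m : Mach} {a b : ℕ}

/-! #### auxiliary lemmas -/

theorem gr1b_T (t : TT a b) {n : ℕ} (e : Fin a → Fin n) (f : Fin b → Fin n) (o : Fin n)
    (χ : RF (Tower.Sym m) (n + 1)) :
    ∃ ψ : RF (Tower.Sym m) n, ∀ (A : Tower m) (σ : Fin a → A.T) (τ : Fin b → A.F)
      (x : Fin n → A.U), (∀ i, x (e i) = Sum.inl (σ i)) → (∀ i, x (f i) = Sum.inr (τ i)) →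
      x o = Sum.inl A.o →
      (ψ.Sat A.rel x ↔ χ.Sat A.rel (Fin.snoc x (Sum.inl (t.ev A σ τ)) : Fin _ → A.U)) := by
  obtain ⟨g, hg⟩ := graph_T (m := m) t (n + 1) (fun i => (e i).castSucc)
    (fun i => (f i).castSucc) o.castSucc (Fin.last n)
  refine ⟨.ex (.and g χ), fun A σ τ x he hf ho => ?_⟩
  have h1 : ∀ y : A.U, g.Sat A.rel (Fin.snoc x y : Fin _ → A.U) ↔ y = Sum.inl (t.ev A σ τ) := by
    intro y
    have h2 := hg A σ τ (Fin.snoc x y : Fin _ → A.U)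
      (fun i => by rw [Fin.snoc_castSucc]; exact he i)
      (fun i => by rw [Fin.snoc_castSucc]; exact hf i)
      (by rw [Fin.snoc_castSucc]; exact ho)
    rw [Fin.snoc_last] at h2
    exact h2
  show (∃ y : A.U, g.Sat A.rel (Fin.snoc x y : Fin _ → A.U) ∧
    χ.Sat A.rel (Fin.snoc x y : Fin _ → A.U)) ↔ _
  constructor
  · rintro ⟨y, hy, hχ⟩
    rw [h1] at hy
    rw [← hy]
    exact hχ
  · intro h
    exact ⟨_, (h1 _).2 rfl, h⟩

theorem gr1b_F (s : FT b) {n : ℕ} (f : Fin b → Fin n) (χ : RF (Tower.Sym m) (n + 1)) :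
    ∃ ψ : RF (Tower.Sym m) n, ∀ (A : Tower m) (τ : Fin b → A.F)
      (x : Fin n → A.U), (∀ i, x (f i) = Sum.inr (τ i)) →
      (ψ.Sat A.rel x ↔ χ.Sat A.rel (Fin.snoc x (Sum.inr (s.ev A τ)) : Fin _ → A.U)) := by
  obtain ⟨g, hg⟩ := graph_F (m := m) s (n + 1) (fun i => (f i).castSucc) (Fin.last n)
  refine ⟨.ex (.and g χ), fun A τ x hf => ?_⟩
  have h1 : ∀ y : A.U, g.Sat A.rel (Fin.snoc x y : Fin _ → A.U) ↔ y = Sum.inr (s.ev A τ) := by
    intro y
    have h2 := hg A τ (Fin.snoc x y : Fin _ → A.U)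
      (fun i => by rw [Fin.snoc_castSucc]; exact hf i)
    rw [Fin.snoc_last] at h2
    exact h2
  show (∃ y : A.U, g.Sat A.rel (Fin.snoc x y : Fin _ → A.U) ∧
    χ.Sat A.rel (Fin.snoc x y : Fin _ → A.U)) ↔ _
  constructor
  · rintro ⟨y, hy, hχ⟩
    rw [h1] at hy
    rw [← hy]
    exact hχ
  · intro h
    exact ⟨_, (h1 _).2 rfl, h⟩

/-- a formula `ψ` translates the property `P` of the values of the variables -/
def Gr1bTr {n : ℕ} (e : Fin a → Fin n) (f : Fin b → Fin n) (o : Fin n)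
    (P : ∀ A : Tower m, (Fin a → A.T) → (Fin b → A.F) → Prop) : Prop :=
  ∃ ψ : RF (Tower.Sym m) n, ∀ (A : Tower m) (σ : Fin a → A.T) (τ : Fin b → A.F)
      (x : Fin n → A.U), (∀ i, x (e i) = Sum.inl (σ i)) → (∀ i, x (f i) = Sum.inr (τ i)) →
      x o = Sum.inl A.o → (ψ.Sat A.rel x ↔ P A σ τ)

section
variable {n : ℕ} {e : Fin a → Fin n} {f : Fin b → Fin n} {o : Fin n}
  {P P' : ∀ A : Tower m, (Fin a → A.T) → (Fin b → A.F) → Prop}

theorem gr1b_neg (h : Gr1bTr e f o P) : Gr1bTr e f o fun A σ τ => ¬ P A σ τ := by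
  obtain ⟨ψ, h⟩ := h
  exact ⟨.neg ψ, fun A σ τ x he hf ho => not_congr (h A σ τ x he hf ho)⟩

theorem gr1b_and (h : Gr1bTr e f o P) (h' : Gr1bTr e f o P') :
    Gr1bTr e f o fun A σ τ => P A σ τ ∧ P' A σ τ := by
  obtain ⟨ψ, h⟩ := h
  obtain ⟨ψ', h'⟩ := h'
  exact ⟨.and ψ ψ', fun A σ τ x he hf ho =>
    and_congr (h A σ τ x he hf ho) (h' A σ τ x he hf ho)⟩

theorem gr1b_congr (h : Gr1bTr e f o P) (hP : ∀ A σ τ, P A σ τ ↔ P' A σ τ) :
    Gr1bTr e f o P' := by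
  obtain ⟨ψ, h⟩ := h
  exact ⟨ψ, fun A σ τ x he hf ho => (h A σ τ x he hf ho).trans (hP A σ τ)⟩

theorem gr1b_imp (h : Gr1bTr e f o P) (h' : Gr1bTr e f o P') :
    Gr1bTr e f o fun A σ τ => P A σ τ → P' A σ τ :=
  gr1b_congr (gr1b_neg (gr1b_and h (gr1b_neg h'))) fun A σ τ => by tauto

/-- atomic formulas with one term of sort `T` -/
theorem gr1b_T1 (t : TT a b) (χ : RF (Tower.Sym m) (n + 1))
    (P : ∀ A : Tower m, A.T → Prop)
    (h : ∀ (A : Tower m) (x : Fin n → A.U) (y : A.T),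
      χ.Sat A.rel (Fin.snoc x (Sum.inl y) : Fin _ → A.U) ↔ P A y) :
    Gr1bTr e f o fun A σ τ => P A (t.ev A σ τ) := by
  obtain ⟨ψ, hψ⟩ := gr1b_T t e f o χ
  exact ⟨ψ, fun A σ τ x he hf ho => (hψ A σ τ x he hf ho).trans (h A x _)⟩

/-- atomic formulas with one term of sort `F` -/
theorem gr1b_F1 (s : FT b) (χ : RF (Tower.Sym m) (n + 1))
    (P : ∀ A : Tower m, A.F → Prop)
    (h : ∀ (A : Tower m) (x : Fin n → A.U) (y : A.F),
      χ.Sat A.rel (Fin.snoc x (Sum.inr y) : Fin _ → A.U) ↔ P A y) :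
    Gr1bTr e f o fun A _ τ => P A (s.ev A τ) := by
  obtain ⟨ψ, hψ⟩ := gr1b_F s f χ
  exact ⟨ψ, fun A σ τ x he hf ho => (hψ A τ x hf).trans (h A x _)⟩

end

theorem gr1b_snoc2 {U : Type} {n : ℕ} (x : Fin n → U) (y z : U) :
    (Fin.snoc (Fin.snoc x y : Fin (n + 1) → U) z : Fin (n + 2) → U) (Fin.last n).castSucc = y := by
  rw [Fin.snoc_castSucc, Fin.snoc_last]

/-- Induction on `φ`. Atomic formulas: new variables for the values of the terms (`graph_T`,
`graph_F`), e.g. `lt t t'`: there are `y, y'` with `y = t`, `y' = t'`, `R lt y y'`; `eqT t t'`: there is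
`y` with `y = t` and `y = t'`; `Lf t`: there is `y` with `y = t` and `R uL y y`; similarly `Ev, st, Mk,
Pt, ix`. `prp P`: a true or a false formula. Quantifiers: `allT φ` is `not exists y (R uT y y and not φ)`
with the new variable in front (`e' = Fin.cons (Fin.last n) (castSucc o e)`); `allF` with
`not R uT y y`. `allI, exI`: `RF.exists_all, RF.exists_any` (choose the formulas). -/
theorem exists_RF (φ : TF m a b) : ∀ (n : ℕ) (e : Fin a → Fin n) (f : Fin b → Fin n) (o : Fin n),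
    ∃ ψ : RF (Tower.Sym m) n, ∀ (A : Tower m) (σ : Fin a → A.T) (τ : Fin b → A.F)
      (x : Fin n → A.U), (∀ i, x (e i) = Sum.inl (σ i)) → (∀ i, x (f i) = Sum.inr (τ i)) →
      x o = Sum.inl A.o → (ψ.Sat A.rel x ↔ φ.ev A σ τ) := by
  suffices H : ∀ (n : ℕ) (e : Fin a → Fin n) (f : Fin b → Fin n) (o : Fin n),
      Gr1bTr e f o fun (A : Tower m) σ τ => φ.ev A σ τ from H
  -- quantifiers
  have qT : ∀ {a b n : ℕ} {e : Fin a → Fin n} {f : Fin b → Fin n} {o : Fin n} (φ : TF m (a + 1) b),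
      Gr1bTr (Fin.cons (Fin.last n) (fun i => (e i).castSucc) : Fin (a + 1) → Fin (n + 1))
        (fun i => (f i).castSucc) o.castSucc (fun (A : Tower m) σ τ => φ.ev A σ τ) →
      Gr1bTr e f o fun (A : Tower m) σ τ => ∃ y : A.T, φ.ev A (Fin.cons y σ : Fin _ → A.T) τ := by
    intro a b n e f o φ ⟨ψ, hψ⟩
    refine ⟨.ex (.and (.rel Tower.Sym.uT (Fin.last n) (Fin.last n)) ψ),
      fun A σ τ x he hf ho => ?_⟩
    have h1 : ∀ y : A.T, ψ.Sat A.rel (Fin.snoc x (Sum.inl y) : Fin _ → A.U) ↔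
        φ.ev A (Fin.cons y σ : Fin _ → A.T) τ := by
      intro y
      refine hψ A _ τ _ (fun i => ?_) (fun i => ?_) ?_
      · refine Fin.cases ?_ (fun i => ?_) i
        · rw [Fin.cons_zero, Fin.cons_zero, Fin.snoc_last]
        · rw [Fin.cons_succ, Fin.cons_succ, Fin.snoc_castSucc]
          exact he i
      · rw [Fin.snoc_castSucc]
        exact hf i
      · rw [Fin.snoc_castSucc]
        exact ho
    show (∃ y : A.U, A.rel Tower.Sym.uT ((Fin.snoc x y : Fin (n + 1) → A.U) (Fin.last n))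
      ((Fin.snoc x y : Fin (n + 1) → A.U) (Fin.last n)) ∧
      ψ.Sat A.rel (Fin.snoc x y : Fin _ → A.U)) ↔ _
    constructor
    · rintro ⟨y | c, hy, hs⟩
      · exact ⟨y, (h1 y).1 hs⟩
      · rw [Fin.snoc_last] at hy
        exact hy.elim
    · rintro ⟨y, hy⟩
      refine ⟨Sum.inl y, ?_, (h1 y).2 hy⟩
      rw [Fin.snoc_last]
      rfl
  have qF : ∀ {a b n : ℕ} {e : Fin a → Fin n} {f : Fin b → Fin n} {o : Fin n} (φ : TF m a (b + 1)),
      Gr1bTr (fun i => (e i).castSucc)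
        (Fin.cons (Fin.last n) (fun i => (f i).castSucc) : Fin (b + 1) → Fin (n + 1))
        o.castSucc (fun (A : Tower m) σ τ => φ.ev A σ τ) →
      Gr1bTr e f o fun (A : Tower m) σ τ => ∃ y : A.F, φ.ev A σ (Fin.cons y τ : Fin _ → A.F) := by
    intro a b n e f o φ ⟨ψ, hψ⟩
    refine ⟨.ex (.and (.neg (.rel Tower.Sym.uT (Fin.last n) (Fin.last n))) ψ),
      fun A σ τ x he hf ho => ?_⟩
    have h1 : ∀ y : A.F, ψ.Sat A.rel (Fin.snoc x (Sum.inr y) : Fin _ → A.U) ↔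
        φ.ev A σ (Fin.cons y τ : Fin _ → A.F) := by
      intro y
      refine hψ A σ _ _ (fun i => ?_) (fun i => ?_) ?_
      · rw [Fin.snoc_castSucc]
        exact he i
      · refine Fin.cases ?_ (fun i => ?_) i
        · rw [Fin.cons_zero, Fin.cons_zero, Fin.snoc_last]
        · rw [Fin.cons_succ, Fin.cons_succ, Fin.snoc_castSucc]
          exact hf i
      · rw [Fin.snoc_castSucc]
        exact ho
    show (∃ y : A.U, ¬ A.rel Tower.Sym.uT ((Fin.snoc x y : Fin (n + 1) → A.U) (Fin.last n))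
      ((Fin.snoc x y : Fin (n + 1) → A.U) (Fin.last n)) ∧
      ψ.Sat A.rel (Fin.snoc x y : Fin _ → A.U)) ↔ _
    constructor
    · rintro ⟨y | c, hy, hs⟩
      · rw [Fin.snoc_last] at hy
        exact (hy rfl).elim
      · exact ⟨c, (h1 c).1 hs⟩
    · rintro ⟨y, hy⟩
      refine ⟨Sum.inr y, ?_, (h1 y).2 hy⟩
      rw [Fin.snoc_last]
      exact fun h => h
  induction φ with
  | prp P =>
    intro n e f o
    by_cases hP : P
    · obtain ⟨χ, hχ⟩ := RF.exists_all (C := Tower.Sym m) (n := n) Empty inferInstance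
        fun i => i.elim
      refine ⟨χ, fun A σ τ x _ _ _ => (hχ _ _ _).trans ?_⟩
      exact ⟨fun _ => hP, fun _ i => i.elim⟩
    · obtain ⟨χ, hχ⟩ := RF.exists_any (C := Tower.Sym m) (n := n) Empty inferInstance
        fun i => i.elim
      refine ⟨χ, fun A σ τ x _ _ _ => (hχ _ _ _).trans ?_⟩
      exact ⟨fun ⟨i, _⟩ => i.elim, fun h => (hP h).elim⟩
  | eqT t t' =>
    intro n e f o
    obtain ⟨g, hg⟩ := graph_T (m := m) t' (n + 1) (fun i => (e i).castSucc)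
      (fun i => (f i).castSucc) o.castSucc (Fin.last n)
    obtain ⟨ψ, hψ⟩ := gr1b_T t e f o g
    refine ⟨ψ, fun A σ τ x he hf ho => (hψ A σ τ x he hf ho).trans ?_⟩
    refine (hg A σ τ _ (fun i => ?_) (fun i => ?_) ?_).trans ?_
    · rw [Fin.snoc_castSucc]
      exact he i
    · rw [Fin.snoc_castSucc]
      exact hf i
    · rw [Fin.snoc_castSucc]
      exact ho
    · rw [Fin.snoc_last]
      exact Sum.inl_injective.eq_iff
  | eqF s s' =>
    intro n e f o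
    obtain ⟨g, hg⟩ := graph_F (m := m) s' (n + 1) (fun i => (f i).castSucc) (Fin.last n)
    obtain ⟨ψ, hψ⟩ := gr1b_F s f g
    refine ⟨ψ, fun A σ τ x he hf ho => (hψ A τ x hf).trans ?_⟩
    refine (hg A τ _ (fun i => ?_)).trans ?_
    · rw [Fin.snoc_castSucc]
      exact hf i
    · rw [Fin.snoc_last]
      exact Sum.inr_injective.eq_iff
  | lt t t' =>
    intro n e f o
    obtain ⟨g, hg⟩ := gr1b_T t' (fun i => (e i).castSucc) (fun i => (f i).castSucc) o.castSucc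
      (RF.rel (Tower.Sym.lt : Tower.Sym m) (Fin.last n).castSucc (Fin.last (n + 1)))
    obtain ⟨ψ, hψ⟩ := gr1b_T t e f o g
    refine ⟨ψ, fun A σ τ x he hf ho => (hψ A σ τ x he hf ho).trans ?_⟩
    refine (hg A σ τ _ (fun i => ?_) (fun i => ?_) ?_).trans ?_
    · rw [Fin.snoc_castSucc]
      exact he i
    · rw [Fin.snoc_castSucc]
      exact hf i
    · rw [Fin.snoc_castSucc]
      exact ho
    · unfold RF.Sat
      rw [gr1b_snoc2, Fin.snoc_last]
      rfl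
  | flt s s' =>
    intro n e f o
    obtain ⟨g, hg⟩ := gr1b_F s' (fun i => (f i).castSucc)
      (RF.rel (Tower.Sym.lt : Tower.Sym m) (Fin.last n).castSucc (Fin.last (n + 1)))
    obtain ⟨ψ, hψ⟩ := gr1b_F s f g
    refine ⟨ψ, fun A σ τ x he hf ho => (hψ A τ x hf).trans ?_⟩
    refine (hg A τ _ (fun i => ?_)).trans ?_
    · rw [Fin.snoc_castSucc]
      exact hf i
    · unfold RF.Sat
      rw [gr1b_snoc2, Fin.snoc_last]
      rfl
  | Lf t =>
    intro n e f o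
    refine gr1b_T1 t (.rel Tower.Sym.uL (Fin.last n) (Fin.last n)) (fun A y => A.Lf y) ?_
    intro A x y
    unfold RF.Sat
    rw [Fin.snoc_last]
    exact ⟨fun h => h.2, fun h => ⟨rfl, h⟩⟩
  | Ev t =>
    intro n e f o
    refine gr1b_T1 t (.rel Tower.Sym.uE (Fin.last n) (Fin.last n)) (fun A y => A.Ev y) ?_
    intro A x y
    unfold RF.Sat
    rw [Fin.snoc_last]
    exact ⟨fun h => h.2, fun h => ⟨rfl, h⟩⟩
  | st t q =>
    intro n e f o
    refine gr1b_T1 t (.rel (Tower.Sym.uq q) (Fin.last n) (Fin.last n)) (fun A y => A.st y q) ?_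
    intro A x y
    unfold RF.Sat
    rw [Fin.snoc_last]
    exact ⟨fun h => h.2, fun h => ⟨rfl, h⟩⟩
  | Mk s =>
    intro n e f o
    refine gr1b_F1 s (.rel Tower.Sym.uM (Fin.last n) (Fin.last n)) (fun A y => A.Mk y) ?_
    intro A x y
    unfold RF.Sat
    rw [Fin.snoc_last]
    exact ⟨fun h => h.2, fun h => ⟨rfl, h⟩⟩
  | Pt s =>
    intro n e f o
    refine gr1b_F1 s (.rel Tower.Sym.uP (Fin.last n) (Fin.last n)) (fun A y => A.Pt y) ?_
    intro A x y
    unfold RF.Sat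
    rw [Fin.snoc_last]
    exact ⟨fun h => h.2, fun h => ⟨rfl, h⟩⟩
  | ix s i =>
    intro n e f o
    refine gr1b_F1 s (.rel (Tower.Sym.ui i) (Fin.last n) (Fin.last n)) (fun A y => A.ix y = i) ?_
    intro A x y
    unfold RF.Sat
    rw [Fin.snoc_last]
    exact ⟨fun h => h.2, fun h => ⟨rfl, h⟩⟩
  | neg φ ih =>
    intro n e f o
    exact gr1b_neg (ih n e f o)
  | and φ ψ ih ih' =>
    intro n e f o
    exact gr1b_and (ih n e f o) (ih' n e f o)
  | or φ ψ ih ih' =>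
    intro n e f o
    refine gr1b_congr (gr1b_neg (gr1b_and (gr1b_neg (ih n e f o)) (gr1b_neg (ih' n e f o))))
      fun A σ τ => ?_
    show _ ↔ (φ.ev A σ τ ∨ ψ.ev A σ τ)
    tauto
  | imp φ ψ ih ih' =>
    intro n e f o
    exact gr1b_imp (ih n e f o) (ih' n e f o)
  | iff φ ψ ih ih' =>
    intro n e f o
    refine gr1b_congr (gr1b_and (gr1b_imp (ih n e f o) (ih' n e f o))
      (gr1b_imp (ih' n e f o) (ih n e f o))) fun A σ τ => ?_
    show _ ↔ (φ.ev A σ τ ↔ ψ.ev A σ τ)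
    tauto
  | allT φ ih =>
    intro n e f o
    refine gr1b_congr (gr1b_neg (qT (.neg φ) (gr1b_neg (ih _ _ _ _)))) fun A σ τ => ?_
    show ¬ (∃ y : A.T, ¬ φ.ev A (Fin.cons y σ : Fin _ → A.T) τ) ↔
      ∀ y : A.T, φ.ev A (Fin.cons y σ : Fin _ → A.T) τ
    exact not_exists_not
  | exT φ ih =>
    intro n e f o
    exact qT φ (ih _ _ _ _)
  | allF φ ih =>
    intro n e f o
    refine gr1b_congr (gr1b_neg (qF (.neg φ) (gr1b_neg (ih _ _ _ _)))) fun A σ τ => ?_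
    show ¬ (∃ y : A.F, ¬ φ.ev A σ (Fin.cons y τ : Fin _ → A.F)) ↔
      ∀ y : A.F, φ.ev A σ (Fin.cons y τ : Fin _ → A.F)
    exact not_exists_not
  | exF φ ih =>
    intro n e f o
    exact qF φ (ih _ _ _ _)
  | allI ι hι φ ih =>
    intro n e f o
    choose ψ hψ using fun i => ih i n e f o
    obtain ⟨χ, hχ⟩ := RF.exists_all ι hι ψ
    refine ⟨χ, fun A σ τ x he hf ho => (hχ _ _ _).trans ?_⟩
    exact forall_congr' fun i => hψ i A σ τ x he hf ho
  | exI ι hι φ ih =>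
    intro n e f o
    choose ψ hψ using fun i => ih i n e f o
    obtain ⟨χ, hχ⟩ := RF.exists_any ι hι ψ
    refine ⟨χ, fun A σ τ x he hf ho => (hχ _ _ _).trans ?_⟩
    exact exists_congr fun i => hψ i A σ τ x he hf ho

end Pool.Agent.LIN
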