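import Pool.Agent.LIN.GR0

/-! # [LIN-GR2M] block GR: transcription of the axioms `AxM` -/

namespace Pool.Agent.LIN

/-- Index of the instruction data. -/
abbrev GR2M_I (m : Mach) : Type := Fin m.nQ × Fin m.k × Option (Fin m.nQ) × Option (Fin m.nQ)

/-- The fields `mk_*`. -/
theorem GR2M_mk (m : Mach) : ∃ φ : TF m 0 0, ∀ A : Tower m, φ.ev A Fin.elim0 Fin.elim0 ↔
    (∀ b, A.Mk b → A.pi b ≠ A.o) ∧
    (∀ x i, A.Tm x → x ≠ A.o → ∃ b, A.pi b = x ∧ A.ix b = i ∧ A.Mk b) ∧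
    (∀ b c i, A.Mk b → A.Mk c → A.pi b = A.pi c → A.ix b = i → A.ix c = i → b = c) ∧
    (∀ b c i, A.Mk b → A.Mk c → A.pi c = A.S (A.pi b) → A.ix c = i → A.ix b = i →
      ¬ A.Ev (A.S (A.pi b)) → A.Mv1 b c) :=
  ⟨.and (.allF (.imp (.Mk (.w 0)) (.neg (.eqT (.pi (.w 0)) .o))))
    (.and (.allT (.allI (Fin m.k) inferInstance fun i => .imp (.tm (.v 0))
        (.imp (.neg (.eqT (.v 0) .o)) (.exF (.and (.eqT (.pi (.w 0)) (.v 0))
          (.and (.ix (.w 0) i) (.Mk (.w 0))))))))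
      (.and (.allF (.allF (.allI (Fin m.k) inferInstance fun i => .imp (.Mk (.w 1))
          (.imp (.Mk (.w 0)) (.imp (.eqT (.pi (.w 1)) (.pi (.w 0)))
            (.imp (.ix (.w 1) i) (.imp (.ix (.w 0) i) (.eqF (.w 1) (.w 0)))))))))
        (.allF (.allF (.allI (Fin m.k) inferInstance fun i => .imp (.Mk (.w 1))
          (.imp (.Mk (.w 0)) (.imp (.eqT (.pi (.w 0)) (.S (.pi (.w 1))))
            (.imp (.ix (.w 0) i) (.imp (.ix (.w 1) i)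
              (.imp (.neg (.Ev (.S (.pi (.w 1))))) (.nx (.V (.w 1)) (.w 0)))))))))))),
    fun _ => Iff.rfl⟩

/-- The fields `pt_*`, first part. -/
theorem GR2M_pt (m : Mach) : ∃ φ : TF m 0 0, ∀ A : Tower m, φ.ev A Fin.elim0 Fin.elim0 ↔
    (∀ b, A.Pt b → ∃ t : GR2M_I m, A.st (A.pi b) t.1 ∧ A.ix b = t.2.1 ∧
      m.prog t.1 = Instr.test t.2.1 t.2.2.1 t.2.2.2) ∧
    (∀ x (t : GR2M_I m), A.st x t.1 → m.prog t.1 = Instr.test t.2.1 t.2.2.1 t.2.2.2 →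
      ∃ b, A.pi b = x ∧ A.ix b = t.2.1 ∧ A.Pt b) ∧
    (∀ b c, A.Pt b → A.Pt c → A.pi b = A.pi c → b = c) ∧
    (∀ b, A.Pt b → A.Ev (A.pi b) → A.Fst b) :=
  ⟨.and (.allF (.imp (.Pt (.w 0)) (.exI (GR2M_I m) inferInstance fun t =>
        .and (.st (.pi (.w 0)) t.1) (.and (.ix (.w 0) t.2.1)
          (.prp (m.prog t.1 = Instr.test t.2.1 t.2.2.1 t.2.2.2))))))
    (.and (.allT (.allI (GR2M_I m) inferInstance fun t => .imp (.st (.v 0) t.1)
        (.imp (.prp (m.prog t.1 = Instr.test t.2.1 t.2.2.1 t.2.2.2))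
          (.exF (.and (.eqT (.pi (.w 0)) (.v 0)) (.and (.ix (.w 0) t.2.1) (.Pt (.w 0))))))))
      (.and (.allF (.allF (.imp (.Pt (.w 1)) (.imp (.Pt (.w 0))
          (.imp (.eqT (.pi (.w 1)) (.pi (.w 0))) (.eqF (.w 1) (.w 0)))))))
        (.allF (.imp (.Pt (.w 0)) (.imp (.Ev (.pi (.w 0))) (.fst (.w 0))))))),
    fun _ => Iff.rfl⟩

/-- The fields `pt_*`, second part. -/
theorem GR2M_pt2 (m : Mach) : ∃ φ : TF m 0 0, ∀ A : Tower m, φ.ev A Fin.elim0 Fin.elim0 ↔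
    (∀ b c i, A.Pt b → A.Mk c → A.pi b = A.pi c → A.ix b = i → A.ix c = i → A.flt b c) ∧
    (∀ b c, A.Pt b → A.Pt c → A.pi c = A.S (A.pi b) → ¬ A.Ev (A.S (A.pi b)) → A.Mv2 b c) :=
  ⟨.and (.allF (.allF (.allI (Fin m.k) inferInstance fun i => .imp (.Pt (.w 1))
        (.imp (.Mk (.w 0)) (.imp (.eqT (.pi (.w 1)) (.pi (.w 0)))
          (.imp (.ix (.w 1) i) (.imp (.ix (.w 0) i) (.flt (.w 1) (.w 0)))))))))
      (.allF (.allF (.imp (.Pt (.w 1)) (.imp (.Pt (.w 0))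
        (.imp (.eqT (.pi (.w 0)) (.S (.pi (.w 1)))) (.imp (.neg (.Ev (.S (.pi (.w 1)))))
          (.exF (.and (.nx (.V (.w 2)) (.w 0)) (.nx (.w 0) (.w 1)))))))))),
    fun _ => Iff.rfl⟩

/-- Transcription of marks and pointers. `pt_st`: use `exI` over `q`, over `i : Fin m.k` and over `z p : Option (Fin m.nQ)`, with `ix b = i` and `prp (m.prog q = Instr.test i z p)`. `Mv1 b c` = `TF.nx (V b) c`, `Mv2 b c` = there is `d` with `nx (V b) d` and `nx d c`.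
Most fields are `Iff.rfl` or `by simp [TF.ev, TT.ev, FT.ev]`. -/
theorem tf_AxM (m : Mach) (c0 : m.Config) :
    ∃ φ : TF m 0 0, ∀ A : Tower m, φ.ev A Fin.elim0 Fin.elim0 ↔ A.AxM c0 := by
  obtain ⟨φ, hφ⟩ := GR2M_mk m
  obtain ⟨ψ, hψ⟩ := GR2M_pt m
  obtain ⟨χ, hχ⟩ := GR2M_pt2 m
  refine ⟨.and φ (.and ψ χ), fun A => ?_⟩
  change (φ.ev A Fin.elim0 Fin.elim0 ∧ ψ.ev A Fin.elim0 Fin.elim0 ∧ χ.ev A Fin.elim0 Fin.elim0) ↔ _
  rw [hφ, hψ, hχ]
  constructor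
  · rintro ⟨⟨h1, h2, h3, h4⟩, ⟨h5, h6, h7, h8⟩, h9, h10⟩
    exact
      { mk_o := h1
        mk_ex := h2
        mk_uniq := fun b c hb hc hp hi => h3 b c (A.ix c) hb hc hp hi rfl
        mk_move := fun b c hb hc hp hi he => h4 b c (A.ix b) hb hc hp hi rfl he
        pt_st := by
          intro b hb
          obtain ⟨⟨q, i, z, p⟩, hs, hi, hq⟩ := h5 b hb
          have hi' : A.ix b = i := hi
          refine ⟨q, z, p, hs, ?_⟩
          rw [hi']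
          exact hq
        pt_ex := fun x q i z p hs hq => h6 x (q, i, z, p) hs hq
        pt_uniq := h7
        pt_start := h8
        pt_mk := fun b c hb hc hp hi => h9 b c (A.ix c) hb hc hp hi rfl
        pt_move := h10 }
  · intro H
    refine ⟨⟨H.mk_o, H.mk_ex, fun b c i hb hc hp h1 h2 => H.mk_uniq b c hb hc hp (h1.trans h2.symm),
      fun b c i hb hc hp h1 h2 he => H.mk_move b c hb hc hp (h1.trans h2.symm) he⟩,
      ⟨?_, fun x t hs hq => H.pt_ex x t.1 t.2.1 t.2.2.1 t.2.2.2 hs hq, H.pt_uniq, H.pt_start⟩,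
      fun b c i hb hc hp h1 h2 => H.pt_mk b c hb hc hp (h1.trans h2.symm), H.pt_move⟩
    intro b hb
    obtain ⟨q, z, p, hs, hq⟩ := H.pt_st b hb
    exact ⟨(q, A.ix b, z, p), hs, rfl, hq⟩

end Pool.Agent.LIN
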