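import Pool.Agent.LIN.GR0

/-! # [LIN-GR2R] block GR: transcription of the axioms `AxR` -/

namespace Pool.Agent.LIN

/-- Conjunctions. -/
theorem GR2R_and {m : Mach} {P Q : Tower m → Prop}
    (hP : ∃ φ : TF m 0 0, ∀ A : Tower m, φ.ev A Fin.elim0 Fin.elim0 ↔ P A)
    (hQ : ∃ φ : TF m 0 0, ∀ A : Tower m, φ.ev A Fin.elim0 Fin.elim0 ↔ Q A) :
    ∃ φ : TF m 0 0, ∀ A : Tower m, φ.ev A Fin.elim0 Fin.elim0 ↔ P A ∧ Q A := by
  obtain ⟨φ, hφ⟩ := hP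
  obtain ⟨ψ, hψ⟩ := hQ
  refine ⟨.and φ ψ, fun A => ?_⟩
  change (φ.ev A Fin.elim0 Fin.elim0 ∧ ψ.ev A Fin.elim0 Fin.elim0) ↔ _
  rw [hφ, hψ]

/-- Field `st_tm`. -/
theorem GR2R_st_tm (m : Mach) : ∃ φ : TF m 0 0, ∀ A : Tower m, φ.ev A Fin.elim0 Fin.elim0 ↔
    (∀ y q, A.st y q → A.Tm y ∧ y ≠ A.o) :=
  ⟨(.allT (.allI (Fin m.nQ) inferInstance fun q => (.imp (.st (.v 0) q) (.and (.tm (.v 0)) (.neg (.eqT (.v 0) .o)))))),
    fun _ => Iff.rfl⟩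

/-- Field `st_ex`. -/
theorem GR2R_st_ex (m : Mach) : ∃ φ : TF m 0 0, ∀ A : Tower m, φ.ev A Fin.elim0 Fin.elim0 ↔
    (∀ y, A.Tm y → y ≠ A.o → ∃ q, A.st y q) :=
  ⟨(.allT (.imp (.tm (.v 0)) (.imp (.neg (.eqT (.v 0) .o)) (.exI (Fin m.nQ) inferInstance fun q => (.st (.v 0) q))))),
    fun _ => Iff.rfl⟩

/-- Field `st_uniq`. -/
theorem GR2R_st_uniq (m : Mach) : ∃ φ : TF m 0 0, ∀ A : Tower m, φ.ev A Fin.elim0 Fin.elim0 ↔
    (∀ y q q', A.st y q → A.st y q' → q = q') :=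
  ⟨(.allT (.allI (Fin m.nQ) inferInstance fun q => (.allI (Fin m.nQ) inferInstance fun q' => (.imp (.st (.v 0) q) (.imp (.st (.v 0) q') (.prp (q = q'))))))),
    fun _ => Iff.rfl⟩

/-- Field `st_const`. -/
theorem GR2R_st_const (m : Mach) : ∃ φ : TF m 0 0, ∀ A : Tower m, φ.ev A Fin.elim0 Fin.elim0 ↔
    (∀ y q, A.st y q → ¬ A.Ev (A.S y) → A.st (A.S y) q) :=
  ⟨(.allT (.allI (Fin m.nQ) inferInstance fun q => (.imp (.st (.v 0) q) (.imp (.neg (.Ev (.S (.v 0)))) (.st (.S (.v 0)) q))))),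
    fun _ => Iff.rfl⟩

/-- Field `pi_tm`. -/
theorem GR2R_pi_tm (m : Mach) : ∃ φ : TF m 0 0, ∀ A : Tower m, φ.ev A Fin.elim0 Fin.elim0 ↔
    (∀ b, A.Tm (A.pi b)) :=
  ⟨(.allF (.tm (.pi (.w 0)))),
    fun _ => Iff.rfl⟩

/-- Field `pi_V`. -/
theorem GR2R_pi_V (m : Mach) : ∃ φ : TF m 0 0, ∀ A : Tower m, φ.ev A Fin.elim0 Fin.elim0 ↔
    (∀ b, A.pi (A.V b) = A.S (A.pi b)) :=
  ⟨(.allF (.eqT (.pi (.V (.w 0))) (.S (.pi (.w 0))))),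
    fun _ => Iff.rfl⟩

/-- Field `ix_V`. -/
theorem GR2R_ix_V (m : Mach) : ∃ φ : TF m 0 0, ∀ A : Tower m, φ.ev A Fin.elim0 Fin.elim0 ↔
    (∀ b i, A.ix b = i → A.ix (A.V b) = i) :=
  ⟨(.allF (.allI (Fin m.k) inferInstance fun i => (.imp (.ix (.w 0) i) (.ix (.V (.w 0)) i)))),
    fun _ => Iff.rfl⟩

/-- Field `V_inj`. -/
theorem GR2R_V_inj (m : Mach) : ∃ φ : TF m 0 0, ∀ A : Tower m, φ.ev A Fin.elim0 Fin.elim0 ↔
    (∀ b c, A.V b = A.V c → b = c) :=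
  ⟨(.allF (.allF (.imp (.eqF (.V (.w 1)) (.V (.w 0))) (.eqF (.w 1) (.w 0))))),
    fun _ => Iff.rfl⟩

/-- Field `V_surj`. -/
theorem GR2R_V_surj (m : Mach) : ∃ φ : TF m 0 0, ∀ A : Tower m, φ.ev A Fin.elim0 Fin.elim0 ↔
    (∀ b, A.pi b ≠ A.o → ∃ c, A.V c = b) :=
  ⟨(.allF (.imp (.neg (.eqT (.pi (.w 0)) .o)) (.exF (.eqF (.V (.w 0)) (.w 1))))),
    fun _ => Iff.rfl⟩

/-- Field `flt_row`. -/
theorem GR2R_flt_row (m : Mach) : ∃ φ : TF m 0 0, ∀ A : Tower m, φ.ev A Fin.elim0 Fin.elim0 ↔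
    (∀ b c i, A.flt b c → A.pi b = A.pi c ∧ (A.ix b = i → A.ix c = i)) :=
  ⟨(.allF (.allF (.allI (Fin m.k) inferInstance fun i => (.imp (.flt (.w 1) (.w 0)) (.and (.eqT (.pi (.w 1)) (.pi (.w 0))) (.imp (.ix (.w 1) i) (.ix (.w 0) i))))))),
    fun _ => Iff.rfl⟩

/-- Field `flt_irrefl`. -/
theorem GR2R_flt_irrefl (m : Mach) : ∃ φ : TF m 0 0, ∀ A : Tower m, φ.ev A Fin.elim0 Fin.elim0 ↔
    (∀ b, ¬ A.flt b b) :=
  ⟨(.allF (.neg (.flt (.w 0) (.w 0)))),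
    fun _ => Iff.rfl⟩

/-- Field `flt_trans`. -/
theorem GR2R_flt_trans (m : Mach) : ∃ φ : TF m 0 0, ∀ A : Tower m, φ.ev A Fin.elim0 Fin.elim0 ↔
    (∀ b c d, A.flt b c → A.flt c d → A.flt b d) :=
  ⟨(.allF (.allF (.allF (.imp (.flt (.w 2) (.w 1)) (.imp (.flt (.w 1) (.w 0)) (.flt (.w 2) (.w 0))))))),
    fun _ => Iff.rfl⟩

/-- Field `flt_total`. -/
theorem GR2R_flt_total (m : Mach) : ∃ φ : TF m 0 0, ∀ A : Tower m, φ.ev A Fin.elim0 Fin.elim0 ↔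
    (∀ b c i, A.pi b = A.pi c → A.ix b = i → A.ix c = i → b = c ∨ A.flt b c ∨ A.flt c b) :=
  ⟨(.allF (.allF (.allI (Fin m.k) inferInstance fun i => (.imp (.eqT (.pi (.w 1)) (.pi (.w 0))) (.imp (.ix (.w 1) i) (.imp (.ix (.w 0) i) (.or (.eqF (.w 1) (.w 0)) (.or (.flt (.w 1) (.w 0)) (.flt (.w 0) (.w 1)))))))))),
    fun _ => Iff.rfl⟩

/-- Field `flt_V`. -/
theorem GR2R_flt_V (m : Mach) : ∃ φ : TF m 0 0, ∀ A : Tower m, φ.ev A Fin.elim0 Fin.elim0 ↔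
    (∀ b c, A.flt (A.V b) (A.V c) ↔ A.flt b c) :=
  ⟨(.allF (.allF (.iff (.flt (.V (.w 1)) (.V (.w 0))) (.flt (.w 1) (.w 0))))),
    fun _ => Iff.rfl⟩

/-- Field `row_first`. -/
theorem GR2R_row_first (m : Mach) : ∃ φ : TF m 0 0, ∀ A : Tower m, φ.ev A Fin.elim0 Fin.elim0 ↔
    (∀ x i, A.Tm x → ∃ b, A.pi b = x ∧ A.ix b = i ∧ A.Fst b) :=
  ⟨(.allT (.allI (Fin m.k) inferInstance fun i => (.imp (.tm (.v 0)) (.exF (.and (.eqT (.pi (.w 0)) (.v 0)) (.and (.ix (.w 0) i) (.fst (.w 0)))))))),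
    fun _ => Iff.rfl⟩

/-- Field `row_next`. -/
theorem GR2R_row_next (m : Mach) : ∃ φ : TF m 0 0, ∀ A : Tower m, φ.ev A Fin.elim0 Fin.elim0 ↔
    (∀ b, ∃ c, A.Nx b c) :=
  ⟨(.allF (.exF (.nx (.w 1) (.w 0)))),
    fun _ => Iff.rfl⟩

/-- Field `row_prev`. -/
theorem GR2R_row_prev (m : Mach) : ∃ φ : TF m 0 0, ∀ A : Tower m, φ.ev A Fin.elim0 Fin.elim0 ↔
    (∀ b, ¬ A.Fst b → ∃ c, A.Nx c b) :=
  ⟨(.allF (.imp (.neg (.fst (.w 0))) (.exF (.nx (.w 0) (.w 1))))),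
    fun _ => Iff.rfl⟩

/-- Transcription of states and rows. `q` and `i` are quantified with `allI (Fin m.nQ)`, `exI`, `allI (Fin m.k)`; `A.ix b = A.ix c` is `allI (Fin m.k) (fun i => iff (ix (w 1) i) (ix (w 0) i))`; `Fst` = `TF.fst`, `Nx` = `TF.nx`.
Most fields are `Iff.rfl` or `by simp [TF.ev, TT.ev, FT.ev]`. -/
theorem tf_AxR (m : Mach) (c0 : m.Config) :
    ∃ φ : TF m 0 0, ∀ A : Tower m, φ.ev A Fin.elim0 Fin.elim0 ↔ A.AxR c0 := by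
  obtain ⟨φ, hφ⟩ := (GR2R_and (GR2R_st_tm m) (GR2R_and (GR2R_st_ex m) (GR2R_and (GR2R_st_uniq m) (GR2R_and (GR2R_st_const m) (GR2R_and (GR2R_pi_tm m) (GR2R_and (GR2R_pi_V m) (GR2R_and (GR2R_ix_V m) (GR2R_and (GR2R_V_inj m) (GR2R_and (GR2R_V_surj m) (GR2R_and (GR2R_flt_row m) (GR2R_and (GR2R_flt_irrefl m) (GR2R_and (GR2R_flt_trans m) (GR2R_and (GR2R_flt_total m) (GR2R_and (GR2R_flt_V m) (GR2R_and (GR2R_row_first m) (GR2R_and (GR2R_row_next m) (GR2R_row_prev m)))))))))))))))))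
  refine ⟨φ, fun A => ?_⟩
  rw [hφ]
  constructor
  · rintro ⟨h0, h1, h2, h3, h4, h5, h6, h7, h8, h9, h10, h11, h12, h13, h14, h15, h16⟩
    exact
      { st_tm := h0
        st_ex := h1
        st_uniq := h2
        st_const := h3
        pi_tm := h4
        pi_V := h5
        ix_V := fun b => h6 b _ rfl
        V_inj := fun b c h => h7 b c h
        V_surj := h8
        flt_row := fun b c h => ⟨(h9 b c (A.ix b) h).1, ((h9 b c (A.ix b) h).2 rfl).symm⟩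
        flt_irrefl := h10
        flt_trans := h11
        flt_total := fun b c h h1 => h12 b c (A.ix b) h rfl h1.symm
        flt_V := h13
        row_first := h14
        row_next := h15
        row_prev := h16 }
  · intro H
    exact ⟨H.st_tm, H.st_ex, H.st_uniq, H.st_const, H.pi_tm, H.pi_V, fun b i h => (H.ix_V b).trans h, fun b c h => H.V_inj h, H.V_surj, fun b c i h => ⟨(H.flt_row b c h).1, fun h1 => (H.flt_row b c h).2.symm.trans h1⟩, H.flt_irrefl, H.flt_trans, fun b c i h h1 h2 => H.flt_total b c h (h1.trans h2.symm), H.flt_V, H.row_first, H.row_next, H.row_prev⟩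

end Pool.Agent.LIN
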