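import Pool.Agent.LIN.GR0

/-! # [LIN-GR2T] block GR: transcription of the axioms `AxT` -/

namespace Pool.Agent.LIN

/-- Conjunction of two transcribed properties. -/
theorem tfT_and {m : Mach} {P Q : Tower m → Prop}
    (hP : ∃ φ : TF m 0 0, ∀ A : Tower m, φ.ev A Fin.elim0 Fin.elim0 ↔ P A)
    (hQ : ∃ φ : TF m 0 0, ∀ A : Tower m, φ.ev A Fin.elim0 Fin.elim0 ↔ Q A) :
    ∃ φ : TF m 0 0, ∀ A : Tower m, φ.ev A Fin.elim0 Fin.elim0 ↔ (P A ∧ Q A) := by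
  obtain ⟨φ, hφ⟩ := hP
  obtain ⟨ψ, hψ⟩ := hQ
  exact ⟨.and φ ψ, fun A => and_congr (hφ A) (hψ A)⟩

theorem tfT_S_inj (m : Mach) : ∃ φ : TF m 0 0, ∀ A : Tower m,
    φ.ev A Fin.elim0 Fin.elim0 ↔ (Function.Injective A.S) :=
  ⟨.allT (.allT (.imp (.eqT (.S (.v 1)) (.S (.v 0))) (.eqT (.v 1) (.v 0)))), fun _ => Iff.rfl⟩

theorem tfT_h_org (m : Mach) : ∃ φ : TF m 0 0, ∀ A : Tower m,
    φ.ev A Fin.elim0 Fin.elim0 ↔ (∀ y, A.Org (A.h y)) :=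
  ⟨.allT (TF.org (.h (.v 0))), fun _ => Iff.rfl⟩

theorem tfT_h_S (m : Mach) : ∃ φ : TF m 0 0, ∀ A : Tower m,
    φ.ev A Fin.elim0 Fin.elim0 ↔ (∀ y, A.h (A.S y) = A.h y) :=
  ⟨.allT (.eqT (.h (.S (.v 0))) (.h (.v 0))), fun _ => Iff.rfl⟩

theorem tfT_org_h (m : Mach) : ∃ φ : TF m 0 0, ∀ A : Tower m,
    φ.ev A Fin.elim0 Fin.elim0 ↔ (∀ y, A.Org y → A.h y = y) :=
  ⟨.allT (.imp (TF.org (.v 0)) (.eqT (.h (.v 0)) (.v 0))), fun _ => Iff.rfl⟩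

theorem tfT_h_p (m : Mach) : ∃ φ : TF m 0 0, ∀ A : Tower m,
    φ.ev A Fin.elim0 Fin.elim0 ↔ (∀ y, A.h (A.p y) = A.p (A.h y)) :=
  ⟨.allT (.eqT (.h (.p (.v 0))) (.p (.h (.v 0)))), fun _ => Iff.rfl⟩

theorem tfT_Lf_S (m : Mach) : ∃ φ : TF m 0 0, ∀ A : Tower m,
    φ.ev A Fin.elim0 Fin.elim0 ↔ (∀ y, A.Lf (A.S y) ↔ ¬ A.Lf y) :=
  ⟨.allT (.iff (.Lf (.S (.v 0))) (.neg (.Lf (.v 0)))), fun _ => Iff.rfl⟩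

theorem tfT_Lf_org (m : Mach) : ∃ φ : TF m 0 0, ∀ A : Tower m,
    φ.ev A Fin.elim0 Fin.elim0 ↔ (∀ y, A.Org y → A.Lf y) :=
  ⟨.allT (.imp (TF.org (.v 0)) (.Lf (.v 0))), fun _ => Iff.rfl⟩

theorem tfT_p_even (m : Mach) : ∃ φ : TF m 0 0, ∀ A : Tower m,
    φ.ev A Fin.elim0 Fin.elim0 ↔ (∀ y, A.Lf y → A.p (A.S y) = A.p y) :=
  ⟨.allT (.imp (.Lf (.v 0)) (.eqT (.p (.S (.v 0))) (.p (.v 0)))), fun _ => Iff.rfl⟩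

theorem tfT_p_odd (m : Mach) : ∃ φ : TF m 0 0, ∀ A : Tower m,
    φ.ev A Fin.elim0 Fin.elim0 ↔ (∀ y, ¬ A.Lf y → A.p (A.S y) = A.S (A.p y)) :=
  ⟨.allT (.imp (.neg (.Lf (.v 0))) (.eqT (.p (.S (.v 0))) (.S (.p (.v 0))))), fun _ => Iff.rfl⟩

theorem tfT_child (m : Mach) : ∃ φ : TF m 0 0, ∀ A : Tower m,
    φ.ev A Fin.elim0 Fin.elim0 ↔ (∀ y, A.h y ≠ A.o → ∃ z, A.Lf z ∧ A.p z = y) :=
  ⟨.allT (.imp (.neg (.eqT (.h (.v 0)) .o)) (.exT (.and (.Lf (.v 0)) (.eqT (.p (.v 0)) (.v 1))))), fun _ => Iff.rfl⟩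

theorem tfT_child_inj (m : Mach) : ∃ φ : TF m 0 0, ∀ A : Tower m,
    φ.ev A Fin.elim0 Fin.elim0 ↔ (∀ y z, A.Lf y → A.Lf z → A.p y = A.p z → y = z) :=
  ⟨.allT (.allT (.imp (.Lf (.v 1)) (.imp (.Lf (.v 0)) (.imp (.eqT (.p (.v 1)) (.p (.v 0))) (.eqT (.v 1) (.v 0)))))), fun _ => Iff.rfl⟩

theorem tfT_lt_org (m : Mach) : ∃ φ : TF m 0 0, ∀ A : Tower m,
    φ.ev A Fin.elim0 Fin.elim0 ↔ (∀ y z, A.lt y z → A.Org y ∧ A.Org z) :=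
  ⟨.allT (.allT (.imp (.lt (.v 1) (.v 0)) (.and (TF.org (.v 1)) (TF.org (.v 0))))), fun _ => Iff.rfl⟩

theorem tfT_lt_irrefl (m : Mach) : ∃ φ : TF m 0 0, ∀ A : Tower m,
    φ.ev A Fin.elim0 Fin.elim0 ↔ (∀ y, ¬ A.lt y y) :=
  ⟨.allT (.neg (.lt (.v 0) (.v 0))), fun _ => Iff.rfl⟩

theorem tfT_lt_trans (m : Mach) : ∃ φ : TF m 0 0, ∀ A : Tower m,
    φ.ev A Fin.elim0 Fin.elim0 ↔ (∀ x y z, A.lt x y → A.lt y z → A.lt x z) :=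
  ⟨.allT (.allT (.allT (.imp (.lt (.v 2) (.v 1)) (.imp (.lt (.v 1) (.v 0)) (.lt (.v 2) (.v 0)))))), fun _ => Iff.rfl⟩

theorem tfT_lt_total (m : Mach) : ∃ φ : TF m 0 0, ∀ A : Tower m,
    φ.ev A Fin.elim0 Fin.elim0 ↔ (∀ y z, A.Org y → A.Org z → y = z ∨ A.lt y z ∨ A.lt z y) :=
  ⟨.allT (.allT (.imp (TF.org (.v 1)) (.imp (TF.org (.v 0)) (.or (.eqT (.v 1) (.v 0)) (.or (.lt (.v 1) (.v 0)) (.lt (.v 0) (.v 1))))))), fun _ => Iff.rfl⟩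

theorem tfT_o_org (m : Mach) : ∃ φ : TF m 0 0, ∀ A : Tower m,
    φ.ev A Fin.elim0 Fin.elim0 ↔ (A.Org A.o) :=
  ⟨TF.org .o, fun _ => Iff.rfl⟩

theorem tfT_o_least (m : Mach) : ∃ φ : TF m 0 0, ∀ A : Tower m,
    φ.ev A Fin.elim0 Fin.elim0 ↔ (∀ y, ¬ A.lt y A.o) :=
  ⟨.allT (.neg (.lt (.v 0) .o)), fun _ => Iff.rfl⟩

theorem tfT_p_lt (m : Mach) : ∃ φ : TF m 0 0, ∀ A : Tower m,
    φ.ev A Fin.elim0 Fin.elim0 ↔ (∀ y, A.Org y → A.lt y (A.p y)) :=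
  ⟨.allT (.imp (TF.org (.v 0)) (.lt (.v 0) (.p (.v 0)))), fun _ => Iff.rfl⟩

theorem tfT_p_succ (m : Mach) : ∃ φ : TF m 0 0, ∀ A : Tower m,
    φ.ev A Fin.elim0 Fin.elim0 ↔ (∀ y z, A.lt y z → z = A.p y ∨ A.lt (A.p y) z) :=
  ⟨.allT (.allT (.imp (.lt (.v 1) (.v 0)) (.or (.eqT (.v 0) (.p (.v 1))) (.lt (.p (.v 1)) (.v 0))))), fun _ => Iff.rfl⟩

theorem tfT_Ev_org (m : Mach) : ∃ φ : TF m 0 0, ∀ A : Tower m,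
    φ.ev A Fin.elim0 Fin.elim0 ↔ (∀ y, A.Org y → ¬ A.Ev y) :=
  ⟨.allT (.imp (TF.org (.v 0)) (.neg (.Ev (.v 0)))), fun _ => Iff.rfl⟩

theorem tfT_Ev_one (m : Mach) : ∃ φ : TF m 0 0, ∀ A : Tower m,
    φ.ev A Fin.elim0 Fin.elim0 ↔ (∀ y, A.Org y → A.Ev (A.S y)) :=
  ⟨.allT (.imp (TF.org (.v 0)) (.Ev (.S (.v 0)))), fun _ => Iff.rfl⟩

theorem tfT_Ev_even (m : Mach) : ∃ φ : TF m 0 0, ∀ A : Tower m,
    φ.ev A Fin.elim0 Fin.elim0 ↔ (∀ y, A.Lf y → (A.Ev y ↔ A.Ev (A.p y))) :=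
  ⟨.allT (.imp (.Lf (.v 0)) (.iff (.Ev (.v 0)) (.Ev (.p (.v 0))))), fun _ => Iff.rfl⟩

theorem tfT_Ev_odd (m : Mach) : ∃ φ : TF m 0 0, ∀ A : Tower m,
    φ.ev A Fin.elim0 Fin.elim0 ↔ (∀ y, ¬ A.Lf y → A.Ev y → ∃ z, A.Org z ∧ y = A.S z) :=
  ⟨.allT (.imp (.neg (.Lf (.v 0))) (.imp (.Ev (.v 0)) (.exT (.and (TF.org (.v 0)) (.eqT (.v 1) (.S (.v 0))))))), fun _ => Iff.rfl⟩

/-- Transcription of the clock tower axioms. Write one formula per field (verbatim, see the two examples at the end of GR0.lean; `Org t` = `TF.org t`, `Tm t` = `TF.tm t`, the variables are de Bruijn: `v 0` is the innermost one) and take the conjunction.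
Most fields are `Iff.rfl` or `by simp [TF.ev, TT.ev, FT.ev]`. -/
theorem tf_AxT (m : Mach) (c0 : m.Config) :
    ∃ φ : TF m 0 0, ∀ A : Tower m, φ.ev A Fin.elim0 Fin.elim0 ↔ A.AxT c0 := by
  obtain ⟨φ, hφ⟩ := tfT_and (tfT_S_inj m) (tfT_and (tfT_h_org m) (tfT_and (tfT_h_S m) (tfT_and (tfT_org_h m) (tfT_and (tfT_h_p m) (tfT_and (tfT_Lf_S m) (tfT_and (tfT_Lf_org m) (tfT_and (tfT_p_even m) (tfT_and (tfT_p_odd m) (tfT_and (tfT_child m) (tfT_and (tfT_child_inj m) (tfT_and (tfT_lt_org m) (tfT_and (tfT_lt_irrefl m) (tfT_and (tfT_lt_trans m) (tfT_and (tfT_lt_total m) (tfT_and (tfT_o_org m) (tfT_and (tfT_o_least m) (tfT_and (tfT_p_lt m) (tfT_and (tfT_p_succ m) (tfT_and (tfT_Ev_org m) (tfT_and (tfT_Ev_one m) (tfT_and (tfT_Ev_even m) (tfT_Ev_odd m))))))))))))))))))))))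
  refine ⟨φ, fun A => (hφ A).trans ?_⟩
  constructor
  · rintro ⟨h0, h1, h2, h3, h4, h5, h6, h7, h8, h9, h10, h11, h12, h13, h14, h15, h16, h17, h18, h19, h20, h21, h22⟩
    exact ⟨h0, h1, h2, h3, h4, h5, h6, h7, h8, h9, h10, h11, h12, h13, h14, h15, h16, h17, h18, h19, h20, h21, h22⟩
  · intro h
    exact ⟨h.S_inj, h.h_org, h.h_S, h.org_h, h.h_p, h.Lf_S, h.Lf_org, h.p_even, h.p_odd, h.child, h.child_inj, h.lt_org, h.lt_irrefl, h.lt_trans, h.lt_total, h.o_org, h.o_least, h.p_lt, h.p_succ, h.Ev_org, h.Ev_one, h.Ev_even, h.Ev_odd⟩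

end Pool.Agent.LIN
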