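import Pool.Agent.LIN.GR0

/-! # [LIN-GR2X] block GR: transcription of the axioms `AxX` -/

namespace Pool.Agent.LIN

/-- The formula `At n b`. -/
def GR2X_at {m : Mach} {a : ℕ} : ℕ → (b : ℕ) → FT b → TF m a b
  | 0, _, s => .fst s
  | n + 1, b, s => .exF (.and (GR2X_at n (b + 1) (.w 0)) (.nx (.w 0) s.up))

theorem GR2X_ev_at {m : Mach} (A : Tower m) {a : ℕ} (n : ℕ) : ∀ {b : ℕ} (s : FT b)
    (σ : Fin a → A.T) (τ : Fin b → A.F),
    (GR2X_at n b s : TF m a b).ev A σ τ ↔ A.At n (s.ev A τ) := by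
  induction n with
  | zero =>
    intro b s σ τ
    exact TF.ev_fst A s σ τ
  | succ n ih =>
    intro b s σ τ
    change (∃ x : A.F, (GR2X_at n (b + 1) (.w 0) : TF m a (b + 1)).ev A σ (Fin.cons x τ : Fin _ → A.F) ∧
      (TF.nx (.w 0) s.up : TF m a (b + 1)).ev A σ (Fin.cons x τ : Fin _ → A.F)) ↔
      ∃ c, A.At n c ∧ A.Nx c (s.ev A τ)
    refine exists_congr fun x => ?_
    rw [ih, TF.ev_nx, FT.ev_up]
    rfl

/-- Marks move by one position in all rows: `x` is the variable `v 0`. -/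
def GR2X_mv1 (m : Mach) : TF m 1 0 :=
  .allF (.allF (.allI (Fin m.k) inferInstance fun j => .imp (.Mk (.w 1)) (.imp (.Mk (.w 0))
    (.imp (.eqT (.pi (.w 1)) (.v 0)) (.imp (.eqT (.pi (.w 0)) (.S (.v 0)))
      (.imp (.ix (.w 1) j) (.imp (.ix (.w 0) j) (.nx (.V (.w 1)) (.w 0)))))))))

/-- Marks move by `d` in row `i` (`d = 2` or `0`) and by one position in the other rows. -/
def GR2X_mv (m : Mach) (two : Bool) (i : Fin m.k) : TF m 1 0 :=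
  .allF (.allF (.allI (Fin m.k) inferInstance fun j => .imp (.Mk (.w 1)) (.imp (.Mk (.w 0))
    (.imp (.eqT (.pi (.w 1)) (.v 0)) (.imp (.eqT (.pi (.w 0)) (.S (.v 0)))
      (.imp (.ix (.w 1) j) (.imp (.ix (.w 0) j)
        (.and (.imp (.prp (j = i)) (match two with
            | true => .exF (.and (.nx (.V (.w 2)) (.w 0)) (.nx (.w 0) (.w 1)))
            | false => .eqF (.w 0) (.V (.w 1))))
          (.imp (.prp (j ≠ i)) (.nx (.V (.w 1)) (.w 0)))))))))))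

theorem GR2X_ev_mv1 {m : Mach} (A : Tower m) (x : A.T) (τ : Fin 0 → A.F) (σ : Fin 0 → A.T) :
    (GR2X_mv1 m).ev A (Fin.cons x σ : Fin 1 → A.T) τ ↔
      ∀ b c, A.Mk b → A.Mk c → A.pi b = x → A.pi c = A.S x → A.ix c = A.ix b → A.Mv1 b c := by
  change (∀ b c, ∀ j, A.Mk b → A.Mk c → A.pi b = x → A.pi c = A.S x → A.ix b = j → A.ix c = j →
    A.Mv1 b c) ↔ _
  constructor
  · intro h b c h1 h2 h3 h4 h5
    exact h b c (A.ix b) h1 h2 h3 h4 rfl h5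
  · intro h b c j h1 h2 h3 h4 h5 h6
    exact h b c h1 h2 h3 h4 (h6.trans h5.symm)

theorem GR2X_ev_mvT {m : Mach} (A : Tower m) (x : A.T) (τ : Fin 0 → A.F) (σ : Fin 0 → A.T)
    (i : Fin m.k) :
    (GR2X_mv m true i).ev A (Fin.cons x σ : Fin 1 → A.T) τ ↔
      ∀ b c, A.Mk b → A.Mk c → A.pi b = x → A.pi c = A.S x → A.ix c = A.ix b →
        (A.ix b = i → A.Mv2 b c) ∧ (A.ix b ≠ i → A.Mv1 b c) := by
  change (∀ b c, ∀ j, A.Mk b → A.Mk c → A.pi b = x → A.pi c = A.S x → A.ix b = j → A.ix c = j →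
    ((j = i → A.Mv2 b c) ∧ (j ≠ i → A.Mv1 b c))) ↔ _
  constructor
  · intro h b c h1 h2 h3 h4 h5
    exact h b c (A.ix b) h1 h2 h3 h4 rfl h5
  · intro h b c j h1 h2 h3 h4 h5 h6
    rw [← h5]
    exact h b c h1 h2 h3 h4 (h6.trans h5.symm)

theorem GR2X_ev_mvF {m : Mach} (A : Tower m) (x : A.T) (τ : Fin 0 → A.F) (σ : Fin 0 → A.T)
    (i : Fin m.k) :
    (GR2X_mv m false i).ev A (Fin.cons x σ : Fin 1 → A.T) τ ↔
      ∀ b c, A.Mk b → A.Mk c → A.pi b = x → A.pi c = A.S x → A.ix c = A.ix b →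
        (A.ix b = i → A.Mv0 b c) ∧ (A.ix b ≠ i → A.Mv1 b c) := by
  change (∀ b c, ∀ j, A.Mk b → A.Mk c → A.pi b = x → A.pi c = A.S x → A.ix b = j → A.ix c = j →
    ((j = i → A.Mv0 b c) ∧ (j ≠ i → A.Mv1 b c))) ↔ _
  constructor
  · intro h b c h1 h2 h3 h4 h5
    exact h b c (A.ix b) h1 h2 h3 h4 rfl h5
  · intro h b c j h1 h2 h3 h4 h5 h6
    rw [← h5]
    exact h b c h1 h2 h3 h4 (h6.trans h5.symm)

/-- Combination of a formula about `x` with the hypothesis of a transition. -/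
theorem GR2X_inc (m : Mach) : ∃ φ : TF m 0 0, ∀ A : Tower m, φ.ev A Fin.elim0 Fin.elim0 ↔
    ∀ x, ∀ t : Fin m.nQ × Fin m.k × Fin m.nQ, A.st x t.1 → A.Ev (A.S x) →
      m.prog t.1 = Instr.inc t.2.1 t.2.2 →
      A.st (A.S x) t.2.2 ∧ ∀ b c, A.Mk b → A.Mk c → A.pi b = x → A.pi c = A.S x →
        A.ix c = A.ix b → (A.ix b = t.2.1 → A.Mv2 b c) ∧ (A.ix b ≠ t.2.1 → A.Mv1 b c) := by
  refine ⟨.allT (.allI (Fin m.nQ × Fin m.k × Fin m.nQ) inferInstance fun t =>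
    .imp (.st (.v 0) t.1) (.imp (.Ev (.S (.v 0))) (.imp (.prp (m.prog t.1 = Instr.inc t.2.1 t.2.2))
      (.and (.st (.S (.v 0)) t.2.2) (GR2X_mv m true t.2.1))))), fun A => ?_⟩
  refine forall_congr' fun x => forall_congr' fun t => ?_
  refine imp_congr Iff.rfl (imp_congr Iff.rfl (imp_congr Iff.rfl (and_congr Iff.rfl ?_)))
  exact GR2X_ev_mvT A x Fin.elim0 Fin.elim0 t.2.1

theorem GR2X_guess (m : Mach) : ∃ φ : TF m 0 0, ∀ A : Tower m, φ.ev A Fin.elim0 Fin.elim0 ↔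
    ∀ x, ∀ t : Fin m.nQ × Fin m.nQ × Fin m.nQ, A.st x t.1 → A.Ev (A.S x) →
      m.prog t.1 = Instr.guess t.2.1 t.2.2 →
      (A.st (A.S x) t.2.1 ∨ A.st (A.S x) t.2.2) ∧
      ∀ b c, A.Mk b → A.Mk c → A.pi b = x → A.pi c = A.S x → A.ix c = A.ix b → A.Mv1 b c := by
  refine ⟨.allT (.allI (Fin m.nQ × Fin m.nQ × Fin m.nQ) inferInstance fun t =>
    .imp (.st (.v 0) t.1) (.imp (.Ev (.S (.v 0))) (.imp (.prp (m.prog t.1 = Instr.guess t.2.1 t.2.2))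
      (.and (.or (.st (.S (.v 0)) t.2.1) (.st (.S (.v 0)) t.2.2)) (GR2X_mv1 m))))), fun A => ?_⟩
  refine forall_congr' fun x => forall_congr' fun t => ?_
  refine imp_congr Iff.rfl (imp_congr Iff.rfl (imp_congr Iff.rfl (and_congr Iff.rfl ?_)))
  exact GR2X_ev_mv1 A x Fin.elim0 Fin.elim0

/-- Index of the data of a test instruction. -/
abbrev GR2X_I (m : Mach) : Type := Fin m.nQ × Fin m.k × Option (Fin m.nQ) × Option (Fin m.nQ)

/-- The hypothesis `pointer and mark over x` (register `i`), next to each other or not. -/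
def GR2X_hyp (m : Mach) (i : Fin m.k) (next : Bool) : TF m 1 0 :=
  .exF (.exF (.and (.Pt (.w 1)) (.and (.Mk (.w 0)) (.and (.eqT (.pi (.w 1)) (.v 0))
    (.and (.eqT (.pi (.w 0)) (.v 0)) (.and (.ix (.w 0) i) (match next with
      | true => .nx (.w 1) (.w 0)
      | false => .neg (.nx (.w 1) (.w 0)))))))))

theorem GR2X_zero (m : Mach) : ∃ φ : TF m 0 0, ∀ A : Tower m, φ.ev A Fin.elim0 Fin.elim0 ↔
    ∀ x, ∀ t : GR2X_I m, A.st x t.1 → A.Ev (A.S x) →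
      m.prog t.1 = Instr.test t.2.1 t.2.2.1 t.2.2.2 →
      (∃ b c, A.Pt b ∧ A.Mk c ∧ A.pi b = x ∧ A.pi c = x ∧ A.ix c = t.2.1 ∧ A.Nx b c) →
      (∃ q', t.2.2.1 = some q' ∧ A.st (A.S x) q') ∧
      ∀ b c, A.Mk b → A.Mk c → A.pi b = x → A.pi c = A.S x → A.ix c = A.ix b → A.Mv1 b c := by
  refine ⟨.allT (.allI (GR2X_I m) inferInstance fun t =>
    .imp (.st (.v 0) t.1) (.imp (.Ev (.S (.v 0)))
      (.imp (.prp (m.prog t.1 = Instr.test t.2.1 t.2.2.1 t.2.2.2))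
      (.imp (GR2X_hyp m t.2.1 true)
      (.and (.exI (Fin m.nQ) inferInstance fun q' => .and (.prp (t.2.2.1 = some q'))
        (.st (.S (.v 0)) q')) (GR2X_mv1 m)))))), fun A => ?_⟩
  refine forall_congr' fun x => forall_congr' fun t => ?_
  refine imp_congr Iff.rfl (imp_congr Iff.rfl (imp_congr Iff.rfl (imp_congr Iff.rfl
    (and_congr Iff.rfl ?_))))
  exact GR2X_ev_mv1 A x Fin.elim0 Fin.elim0

theorem GR2X_pos (m : Mach) : ∃ φ : TF m 0 0, ∀ A : Tower m, φ.ev A Fin.elim0 Fin.elim0 ↔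
    ∀ x, ∀ t : GR2X_I m, A.st x t.1 → A.Ev (A.S x) →
      m.prog t.1 = Instr.test t.2.1 t.2.2.1 t.2.2.2 →
      (∃ b c, A.Pt b ∧ A.Mk c ∧ A.pi b = x ∧ A.pi c = x ∧ A.ix c = t.2.1 ∧ ¬ A.Nx b c) →
      (∃ q', t.2.2.2 = some q' ∧ A.st (A.S x) q') ∧
      ∀ b c, A.Mk b → A.Mk c → A.pi b = x → A.pi c = A.S x → A.ix c = A.ix b →
        (A.ix b = t.2.1 → A.Mv0 b c) ∧ (A.ix b ≠ t.2.1 → A.Mv1 b c) := by
  refine ⟨.allT (.allI (GR2X_I m) inferInstance fun t =>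
    .imp (.st (.v 0) t.1) (.imp (.Ev (.S (.v 0)))
      (.imp (.prp (m.prog t.1 = Instr.test t.2.1 t.2.2.1 t.2.2.2))
      (.imp (GR2X_hyp m t.2.1 false)
      (.and (.exI (Fin m.nQ) inferInstance fun q' => .and (.prp (t.2.2.2 = some q'))
        (.st (.S (.v 0)) q')) (GR2X_mv m false t.2.1)))))), fun A => ?_⟩
  refine forall_congr' fun x => forall_congr' fun t => ?_
  refine imp_congr Iff.rfl (imp_congr Iff.rfl (imp_congr Iff.rfl (imp_congr Iff.rfl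
    (and_congr Iff.rfl ?_))))
  exact GR2X_ev_mvF A x Fin.elim0 Fin.elim0 t.2.1

theorem GR2X_in (m : Mach) (c0 : m.Config) : ∃ φ : TF m 0 0, ∀ A : Tower m,
    φ.ev A Fin.elim0 Fin.elim0 ↔ A.st (A.S A.o) c0.1 ∧
      ∀ b, ∀ i : Fin m.k, A.ix b = i → A.Mk b → A.pi b = A.S A.o → A.At (c0.2 i + 1) b := by
  refine ⟨.and (.st (.S .o) c0.1) (.allF (.allI (Fin m.k) inferInstance fun i =>
    .imp (.ix (.w 0) i) (.imp (.Mk (.w 0)) (.imp (.eqT (.pi (.w 0)) (.S .o))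
      (GR2X_at (c0.2 i + 1) 1 (.w 0)))))), fun A => ?_⟩
  refine and_congr Iff.rfl (forall_congr' fun b => forall_congr' fun i => ?_)
  refine imp_congr Iff.rfl (imp_congr Iff.rfl (imp_congr Iff.rfl ?_))
  exact GR2X_ev_at A (c0.2 i + 1) (.w 0) Fin.elim0 (Fin.cons b Fin.elim0 : Fin 1 → A.F)

/-- Transcription of transitions and the initial configuration. -/
theorem tf_AxX (m : Mach) (c0 : m.Config) :
    ∃ φ : TF m 0 0, ∀ A : Tower m, φ.ev A Fin.elim0 Fin.elim0 ↔ A.AxX c0 := by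
  obtain ⟨φ1, h1⟩ := GR2X_inc m
  obtain ⟨φ2, h2⟩ := GR2X_guess m
  obtain ⟨φ3, h3⟩ := GR2X_zero m
  obtain ⟨φ4, h4⟩ := GR2X_pos m
  obtain ⟨φ5, h5⟩ := GR2X_in m c0
  refine ⟨.and φ1 (.and φ2 (.and φ3 (.and φ4 φ5))), fun A => ?_⟩
  change (φ1.ev A Fin.elim0 Fin.elim0 ∧ φ2.ev A Fin.elim0 Fin.elim0 ∧
    φ3.ev A Fin.elim0 Fin.elim0 ∧ φ4.ev A Fin.elim0 Fin.elim0 ∧ φ5.ev A Fin.elim0 Fin.elim0) ↔ _
  rw [h1, h2, h3, h4, h5]
  constructor
  · rintro ⟨g1, g2, g3, g4, g5, g6⟩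
    exact
      { tr_inc := fun x q i q' hs he hq => g1 x (q, i, q') hs he hq
        tr_guess := fun x q a a' hs he hq => g2 x (q, a, a') hs he hq
        tr_zero := fun x q i z p b c hs he hq k1 k2 k3 k4 k5 k6 =>
          g3 x (q, i, z, p) hs he hq ⟨b, c, k1, k2, k3, k4, k5, k6⟩
        tr_pos := fun x q i z p b c hs he hq k1 k2 k3 k4 k5 k6 =>
          g4 x (q, i, z, p) hs he hq ⟨b, c, k1, k2, k3, k4, k5, k6⟩
        in_st := g5
        in_mk := fun b hb hp => g6 b (A.ix b) rfl hb hp }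
  · intro H
    refine ⟨?_, ?_, ?_, ?_, H.in_st, ?_⟩
    · rintro x ⟨q, i, q'⟩ hs he hq
      exact H.tr_inc x q i q' hs he hq
    · rintro x ⟨q, a, a'⟩ hs he hq
      exact H.tr_guess x q a a' hs he hq
    · rintro x ⟨q, i, z, p⟩ hs he hq ⟨b, c, k1, k2, k3, k4, k5, k6⟩
      exact H.tr_zero x q i z p b c hs he hq k1 k2 k3 k4 k5 k6
    · rintro x ⟨q, i, z, p⟩ hs he hq ⟨b, c, k1, k2, k3, k4, k5, k6⟩
      exact H.tr_pos x q i z p b c hs he hq k1 k2 k3 k4 k5 k6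
    · rintro b i rfl hb hp
      exact H.in_mk b hb hp

end Pool.Agent.LIN
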