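import Pool.Agent.LIN.GR1

/-! # [LIN-GR3] block GR: relational structures that come from a tower (definition, formula) -/

namespace Pool.Agent.LIN

/-- The structure `(U, R)` with the element `x` comes from a tower. `T u` is `R uT u u`. -/
structure RB {m : Mach} {U : Type} (R : Tower.Sym m → U → U → Prop) (x : U) : Prop where
  x_T : R .uT x x
  diag_T : ∀ u v, R .uT u v → u = v
  diag_L : ∀ u v, R .uL u v → u = v ∧ R .uT u u
  diag_E : ∀ u v, R .uE u v → u = v ∧ R .uT u u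
  diag_M : ∀ u v, R .uM u v → u = v ∧ ¬ R .uT u u
  diag_P : ∀ u v, R .uP u v → u = v ∧ ¬ R .uT u u
  diag_q : ∀ q u v, R (.uq q) u v → u = v ∧ R .uT u u
  diag_i : ∀ i u v, R (.ui i) u v → u = v ∧ ¬ R .uT u u
  S_ex : ∀ u, ∃ v, R .S u v
  S_un : ∀ u v v', R .S u v → R .S u v' → v = v'
  S_T : ∀ u v, R .S u v → (R .uT u u ↔ R .uT v v)
  p_ex : ∀ u, R .uT u u → ∃ v, R .p u v
  p_un : ∀ u v v', R .p u v → R .p u v' → v = v'
  p_T : ∀ u v, R .p u v → R .uT u u ∧ R .uT v v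
  h_ex : ∀ u, ∃ v, R .h u v
  h_un : ∀ u v v', R .h u v → R .h u v' → v = v'
  h_T : ∀ u v, R .h u v → R .uT v v
  lt_T : ∀ u v, R .lt u v → (R .uT u u ↔ R .uT v v)
  ix_ex : ∀ u, ¬ R .uT u u → ∃ i, R (.ui i) u u
  ix_un : ∀ i j u, R (.ui i) u u → R (.ui j) u u → i = j

variable {m : Mach}

/-- Every tower satisfies `RB` (cases on the sorts). -/
theorem RB_tower (A : Tower m) : RB A.rel (Sum.inl A.o) where
  x_T := rfl
  diag_T := by rintro (u | u) (v | v) h <;> simp_all [Tower.rel]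
  diag_L := by rintro (u | u) (v | v) h <;> simp_all [Tower.rel]
  diag_E := by rintro (u | u) (v | v) h <;> simp_all [Tower.rel]
  diag_M := by rintro (u | u) (v | v) h <;> simp_all [Tower.rel]
  diag_P := by rintro (u | u) (v | v) h <;> simp_all [Tower.rel]
  diag_q := by rintro q (u | u) (v | v) h <;> simp_all [Tower.rel]
  diag_i := by rintro i (u | u) (v | v) h <;> simp_all [Tower.rel]
  S_ex := by
    rintro (u | u)
    · exact ⟨Sum.inl (A.S u), rfl⟩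
    · exact ⟨Sum.inr (A.V u), rfl⟩
  S_un := by rintro (u | u) (v | v) (v' | v') h h' <;> simp_all [Tower.rel]
  S_T := by rintro (u | u) (v | v) h <;> simp_all [Tower.rel]
  p_ex := by
    rintro (u | u) h
    · exact ⟨Sum.inl (A.p u), rfl⟩
    · simp_all [Tower.rel]
  p_un := by rintro (u | u) (v | v) (v' | v') h h' <;> simp_all [Tower.rel]
  p_T := by rintro (u | u) (v | v) h <;> simp_all [Tower.rel]
  h_ex := by
    rintro (u | u)
    · exact ⟨Sum.inl (A.h u), rfl⟩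
    · exact ⟨Sum.inl (A.pi u), rfl⟩
  h_un := by rintro (u | u) (v | v) (v' | v') h h' <;> simp_all [Tower.rel]
  h_T := by rintro (u | u) (v | v) h <;> simp_all [Tower.rel]
  lt_T := by rintro (u | u) (v | v) h <;> simp_all [Tower.rel]
  ix_ex := by
    rintro (u | u) h
    · simp_all [Tower.rel]
    · exact ⟨A.ix u, rfl, rfl⟩
  ix_un := by
    rintro i j (u | u) h h'
    · simp_all [Tower.rel]
    · exact h.2.symm.trans h'.2

/-- Closed statements expressed in the context of one variable. -/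
def GR3_E (m : Mach) (P : ∀ (U : Type), (Tower.Sym m → U → U → Prop) → U → Prop) : Prop :=
  ∃ φ : RF (Tower.Sym m) 1, ∀ (U : Type) (R : Tower.Sym m → U → U → Prop) (x : U),
    φ.Sat R ![x] ↔ P U R x

theorem GR3_and {P Q : ∀ (U : Type), (Tower.Sym m → U → U → Prop) → U → Prop}
    (h : GR3_E m P) (h' : GR3_E m Q) : GR3_E m (fun U R x => P U R x ∧ Q U R x) := by
  obtain ⟨φ, hφ⟩ := h
  obtain ⟨ψ, hψ⟩ := h'
  exact ⟨.and φ ψ, fun U R x => and_congr (hφ U R x) (hψ U R x)⟩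

theorem GR3_allI {ι : Type} (hι : Finite ι)
    {P : ι → ∀ (U : Type), (Tower.Sym m → U → U → Prop) → U → Prop}
    (h : ∀ i, GR3_E m (P i)) : GR3_E m (fun U R x => ∀ i, P i U R x) := by
  choose φ hφ using h
  obtain ⟨χ, hχ⟩ := RF.exists_all ι hι φ
  exact ⟨χ, fun U R x => (hχ U R _).trans (forall_congr' fun i => hφ i U R x)⟩

/-- `for all u, v: s u v -> (u = v and T u)`. -/
theorem GR3_diag (s : Tower.Sym m) : GR3_E m (fun _ R _ => ∀ u v, R s u v → u = v ∧ R .uT u u) := by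
  refine ⟨.neg (.ex (.ex (.and (.rel s 1 2) (.neg (.and (.eq 1 2) (.rel .uT 1 1)))))), ?_⟩
  intro U R x
  change (¬ ∃ u, ∃ v, R s u v ∧ ¬ (u = v ∧ R .uT u u)) ↔ _
  push Not
  rfl

theorem GR3_diagF (s : Tower.Sym m) :
    GR3_E m (fun _ R _ => ∀ u v, R s u v → u = v ∧ ¬ R .uT u u) := by
  refine ⟨.neg (.ex (.ex (.and (.rel s 1 2) (.neg (.and (.eq 1 2) (.neg (.rel .uT 1 1))))))), ?_⟩
  intro U R x
  change (¬ ∃ u, ∃ v, R s u v ∧ ¬ (u = v ∧ ¬ R .uT u u)) ↔ _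
  constructor
  · intro h u v hs
    by_contra hc
    exact h ⟨u, v, hs, hc⟩
  · rintro h ⟨u, v, hs, hc⟩
    exact hc (h u v hs)

theorem GR3_ex (s : Tower.Sym m) : GR3_E m (fun _ R _ => ∀ u, ∃ v, R s u v) := by
  refine ⟨.neg (.ex (.neg (.ex (.rel s 1 2)))), ?_⟩
  intro U R x
  change (¬ ∃ u, ¬ ∃ v, R s u v) ↔ _
  rw [not_exists_not]

theorem GR3_exT (s : Tower.Sym m) : GR3_E m (fun _ R _ => ∀ u, R .uT u u → ∃ v, R s u v) := by
  refine ⟨.neg (.ex (.and (.rel .uT 1 1) (.neg (.ex (.rel s 1 2))))), ?_⟩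
  intro U R x
  change (¬ ∃ u, R .uT u u ∧ ¬ ∃ v, R s u v) ↔ _
  constructor
  · intro h u hu
    by_contra hc
    exact h ⟨u, hu, hc⟩
  · rintro h ⟨u, hu, hc⟩
    exact hc (h u hu)

theorem GR3_un (s : Tower.Sym m) :
    GR3_E m (fun _ R _ => ∀ u v v', R s u v → R s u v' → v = v') := by
  refine ⟨.neg (.ex (.ex (.ex (.and (.rel s 1 2) (.and (.rel s 1 3) (.neg (.eq 2 3))))))), ?_⟩
  intro U R x
  change (¬ ∃ u, ∃ v, ∃ v', R s u v ∧ R s u v' ∧ ¬ v = v') ↔ _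
  constructor
  · intro h u v v' h1 h2
    by_contra hc
    exact h ⟨u, v, v', h1, h2, hc⟩
  · rintro h ⟨u, v, v', h1, h2, hc⟩
    exact hc (h u v v' h1 h2)

theorem GR3_TT (s : Tower.Sym m) :
    GR3_E m (fun _ R _ => ∀ u v, R s u v → R .uT u u ∧ R .uT v v) := by
  refine ⟨.neg (.ex (.ex (.and (.rel s 1 2) (.neg (.and (.rel .uT 1 1) (.rel .uT 2 2)))))), ?_⟩
  intro U R x
  change (¬ ∃ u, ∃ v, R s u v ∧ ¬ (R .uT u u ∧ R .uT v v)) ↔ _
  constructor
  · intro h u v hs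
    by_contra hc
    exact h ⟨u, v, hs, hc⟩
  · rintro h ⟨u, v, hs, hc⟩
    exact hc (h u v hs)

theorem GR3_T2 (s : Tower.Sym m) : GR3_E m (fun _ R _ => ∀ u v, R s u v → R .uT v v) := by
  refine ⟨.neg (.ex (.ex (.and (.rel s 1 2) (.neg (.rel .uT 2 2))))), ?_⟩
  intro U R x
  change (¬ ∃ u, ∃ v, R s u v ∧ ¬ R .uT v v) ↔ _
  constructor
  · intro h u v hs
    by_contra hc
    exact h ⟨u, v, hs, hc⟩
  · rintro h ⟨u, v, hs, hc⟩
    exact hc (h u v hs)

theorem GR3_iff (s : Tower.Sym m) :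
    GR3_E m (fun _ R _ => ∀ u v, R s u v → (R .uT u u ↔ R .uT v v)) := by
  refine ⟨.neg (.ex (.ex (.and (.rel s 1 2) (.neg (.and (.neg (.and (.rel .uT 1 1)
    (.neg (.rel .uT 2 2)))) (.neg (.and (.rel .uT 2 2) (.neg (.rel .uT 1 1))))))))), ?_⟩
  intro U R x
  change (¬ ∃ u, ∃ v, R s u v ∧ ¬ (¬ (R .uT u u ∧ ¬ R .uT v v) ∧ ¬ (R .uT v v ∧ ¬ R .uT u u))) ↔ _
  constructor
  · intro h u v hs
    by_contra hc
    exact h ⟨u, v, hs, fun hd => hc (by tauto)⟩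
  · rintro h ⟨u, v, hs, hc⟩
    have := h u v hs
    exact hc (by tauto)

theorem GR3_diagT : GR3_E m (fun _ R _ => ∀ u v, R .uT u v → u = v) := by
  refine ⟨.neg (.ex (.ex (.and (.rel .uT 1 2) (.neg (.eq 1 2))))), ?_⟩
  intro U R x
  change (¬ ∃ u, ∃ v, R .uT u v ∧ ¬ (u = v)) ↔ _
  constructor
  · intro h u v hs
    by_contra hc
    exact h ⟨u, v, hs, hc⟩
  · rintro h ⟨u, v, hs, hc⟩
    exact hc (h u v hs)

theorem GR3_ixex : GR3_E m (fun _ R _ => ∀ u, ¬ R .uT u u → ∃ i, R (.ui i) u u) := by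
  obtain ⟨χ, hχ⟩ := RF.exists_any (Fin m.k) inferInstance
    (fun i => (RF.rel (Tower.Sym.ui i) 1 1 : RF (Tower.Sym m) 2))
  refine ⟨.neg (.ex (.and (.neg (.rel .uT 1 1)) (.neg χ))), ?_⟩
  intro U R x
  change (¬ ∃ u, ¬ R .uT u u ∧ ¬ χ.Sat R (Fin.snoc ![x] u : Fin 2 → U)) ↔ _
  have h1 : ∀ u, χ.Sat R (Fin.snoc ![x] u : Fin 2 → U) ↔ ∃ i, R (.ui i) u u := fun u =>
    hχ U R _
  constructor
  · intro h u hu
    by_contra hc
    exact h ⟨u, hu, fun hd => hc ((h1 u).mp hd)⟩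
  · rintro h ⟨u, hu, hc⟩
    exact hc ((h1 u).mpr (h u hu))

theorem GR3_ixun : GR3_E m (fun _ R _ => ∀ t : Fin m.k × Fin m.k, ∀ u, R (.ui t.1) u u →
    R (.ui t.2) u u → t.1 = t.2) := by
  refine GR3_allI inferInstance (fun t => ?_)
  by_cases ht : t.1 = t.2
  · refine ⟨.neg (.and (.rel .uT 0 0) (.neg (.rel .uT 0 0))), fun U R x => ?_⟩
    change (¬ (R .uT x x ∧ ¬ R .uT x x)) ↔ _
    exact ⟨fun _ _ _ _ => ht, fun _ h => h.2 h.1⟩
  · refine ⟨.neg (.ex (.and (.rel (.ui t.1) 1 1) (.rel (.ui t.2) 1 1))), fun U R x => ?_⟩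
    change (¬ ∃ u, R (.ui t.1) u u ∧ R (.ui t.2) u u) ↔ _
    constructor
    · intro h u h1 h2
      exact absurd ⟨u, h1, h2⟩ h
    · rintro h ⟨u, h1, h2⟩
      exact ht (h u h1 h2)

/-- `RB` is expressed by a relational formula with one free variable (number `0`). -/
theorem RB_formula (m : Mach) : ∃ φ : RF (Tower.Sym m) 1,
    ∀ (U : Type) (R : Tower.Sym m → U → U → Prop) (x : U), φ.Sat R ![x] ↔ RB R x := by
  have h0 : GR3_E m (fun _ R x => R .uT x x) := ⟨.rel .uT 0 0, fun U R x => Iff.rfl⟩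
  have hall := GR3_and h0 (GR3_and GR3_diagT (GR3_and (GR3_diag .uL) (GR3_and (GR3_diag .uE)
    (GR3_and (GR3_diagF .uM) (GR3_and (GR3_diagF .uP) (GR3_and
      (GR3_allI (inferInstance : Finite (Fin m.nQ)) (fun q => GR3_diag (.uq q))) (GR3_and
      (GR3_allI (inferInstance : Finite (Fin m.k)) (fun i => GR3_diagF (.ui i))) (GR3_and
      (GR3_ex .S) (GR3_and (GR3_un .S) (GR3_and (GR3_iff .S) (GR3_and (GR3_exT .p) (GR3_and
      (GR3_un .p) (GR3_and (GR3_TT .p) (GR3_and (GR3_ex .h) (GR3_and (GR3_un .h) (GR3_and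
      (GR3_T2 .h) (GR3_and (GR3_iff .lt) (GR3_and GR3_ixex GR3_ixun))))))))))))))))))
  obtain ⟨φ, hφ⟩ := hall
  refine ⟨φ, fun U R x => (hφ U R x).trans ?_⟩
  constructor
  · rintro ⟨h1, h2, h3, h4, h5, h6, h7, h8, h9, h10, h11, h12, h13, h14, h15, h16, h17, h18, h19,
      h20⟩
    exact
      { x_T := h1
        diag_T := h2
        diag_L := h3
        diag_E := h4
        diag_M := h5
        diag_P := h6
        diag_q := h7
        diag_i := h8
        S_ex := h9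
        S_un := h10
        S_T := h11
        p_ex := h12
        p_un := h13
        p_T := h14
        h_ex := h15
        h_un := h16
        h_T := h17
        lt_T := h18
        ix_ex := h19
        ix_un := fun i j u h h' => h20 (i, j) u h h' }
  · intro H
    exact ⟨H.x_T, H.diag_T, H.diag_L, H.diag_E, H.diag_M, H.diag_P, H.diag_q, H.diag_i, H.S_ex,
      H.S_un, H.S_T, H.p_ex, H.p_un, H.p_T, H.h_ex, H.h_un, H.h_T, H.lt_T, H.ix_ex,
      fun t u h h' => H.ix_un t.1 t.2 u h h'⟩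

end Pool.Agent.LIN
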