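import Pool.Agent.LIN.GR3

/-! # [LIN-GR3b] block GR: a structure satisfying RB is a tower -/

namespace Pool.Agent.LIN

variable {m : Mach}

/-- `T = {u // R uT u u}`, `F = {u // not R uT u u}`, `e` = the equivalence of `U` with the sum of the two
subtypes (`Equiv.sumCompl`), `S, p, h, pi, V, ix` by choice from `S_ex, p_ex, h_ex, ix_ex`; `lt, flt` =
`R lt`, the predicates on the diagonal. Then `R s u v` iff `A.rel s (e u) (e v)` by cases on `s` and on
the sorts of `u`, `v`, using the uniqueness and sort fields. -/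
theorem tower_of_RB {U : Type} (R : Tower.Sym m → U → U → Prop) (x : U) (h : RB R x) :
    ∃ (A : Tower m) (e : U ≃ A.U), (∀ s u v, R s u v ↔ A.rel s (e u) (e v)) ∧
      e x = Sum.inl A.o := by
  classical
  choose S hS using h.S_ex
  have hp' : ∀ u : {u // R .uT u u}, ∃ v, R .p u.1 v := fun u => h.p_ex u.1 u.2
  choose P hP using hp'
  choose H hH using h.h_ex
  have hi' : ∀ u : {u // ¬ R .uT u u}, ∃ i, R (.ui i) u.1 u.1 := fun u => h.ix_ex u.1 u.2
  choose I hI using hi'
  let A : Tower m :=
    { T := {u // R .uT u u}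
      F := {u // ¬ R .uT u u}
      o := ⟨x, h.x_T⟩
      S := fun u => ⟨S u.1, (h.S_T _ _ (hS u.1)).1 u.2⟩
      p := fun u => ⟨P u, (h.p_T _ _ (hP u)).2⟩
      h := fun u => ⟨H u.1, h.h_T _ _ (hH u.1)⟩
      lt := fun u v => R .lt u.1 v.1
      Lf := fun u => R .uL u.1 u.1
      Ev := fun u => R .uE u.1 u.1
      st := fun u q => R (.uq q) u.1 u.1
      pi := fun u => ⟨H u.1, h.h_T _ _ (hH u.1)⟩
      ix := I
      V := fun u => ⟨S u.1, fun h1 => u.2 ((h.S_T _ _ (hS u.1)).2 h1)⟩
      flt := fun u v => R .lt u.1 v.1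
      Mk := fun u => R .uM u.1 u.1
      Pt := fun u => R .uP u.1 u.1 }
  have key : ∀ (s : Tower.Sym m) (a b : A.U),
      R s (Equiv.sumCompl (fun u => R .uT u u) a) (Equiv.sumCompl (fun u => R .uT u u) b) ↔
        A.rel s a b := by
    intro s a b
    cases s with
    | S =>
      rcases a with a | a <;> rcases b with b | b
      · change R .S a.1 b.1 ↔ (⟨S a.1, _⟩ : {u // R .uT u u}) = b
        rw [Subtype.ext_iff]
        exact ⟨fun h1 => h.S_un _ _ _ (hS a.1) h1, fun h1 => h1 ▸ hS a.1⟩
      · change R .S a.1 b.1 ↔ False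
        exact iff_false_intro fun h1 => b.2 ((h.S_T _ _ h1).1 a.2)
      · change R .S a.1 b.1 ↔ False
        exact iff_false_intro fun h1 => a.2 ((h.S_T _ _ h1).2 b.2)
      · change R .S a.1 b.1 ↔ (⟨S a.1, _⟩ : {u // ¬ R .uT u u}) = b
        rw [Subtype.ext_iff]
        exact ⟨fun h1 => h.S_un _ _ _ (hS a.1) h1, fun h1 => h1 ▸ hS a.1⟩
    | p =>
      rcases a with a | a <;> rcases b with b | b
      · change R .p a.1 b.1 ↔ (⟨P a, _⟩ : {u // R .uT u u}) = b
        rw [Subtype.ext_iff]
        exact ⟨fun h1 => h.p_un _ _ _ (hP a) h1, fun h1 => h1 ▸ hP a⟩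
      · change R .p a.1 b.1 ↔ False
        exact iff_false_intro fun h1 => b.2 (h.p_T _ _ h1).2
      · change R .p a.1 b.1 ↔ False
        exact iff_false_intro fun h1 => a.2 (h.p_T _ _ h1).1
      · change R .p a.1 b.1 ↔ False
        exact iff_false_intro fun h1 => a.2 (h.p_T _ _ h1).1
    | h =>
      rcases a with a | a <;> rcases b with b | b
      · change R .h a.1 b.1 ↔ (⟨H a.1, _⟩ : {u // R .uT u u}) = b
        rw [Subtype.ext_iff]
        exact ⟨fun h1 => h.h_un _ _ _ (hH a.1) h1, fun h1 => h1 ▸ hH a.1⟩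
      · change R .h a.1 b.1 ↔ False
        exact iff_false_intro fun h1 => b.2 (h.h_T _ _ h1)
      · change R .h a.1 b.1 ↔ (⟨H a.1, _⟩ : {u // R .uT u u}) = b
        rw [Subtype.ext_iff]
        exact ⟨fun h1 => h.h_un _ _ _ (hH a.1) h1, fun h1 => h1 ▸ hH a.1⟩
      · change R .h a.1 b.1 ↔ False
        exact iff_false_intro fun h1 => b.2 (h.h_T _ _ h1)
    | lt =>
      rcases a with a | a <;> rcases b with b | b
      · exact Iff.rfl
      · change R .lt a.1 b.1 ↔ False
        exact iff_false_intro fun h1 => b.2 ((h.lt_T _ _ h1).1 a.2)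
      · change R .lt a.1 b.1 ↔ False
        exact iff_false_intro fun h1 => a.2 ((h.lt_T _ _ h1).2 b.2)
      · exact Iff.rfl
    | uT =>
      rcases a with a | a <;> rcases b with b | b
      · change R .uT a.1 b.1 ↔ a = b
        exact ⟨fun h1 => Subtype.ext (h.diag_T _ _ h1), fun h1 => h1 ▸ a.2⟩
      · change R .uT a.1 b.1 ↔ False
        exact iff_false_intro fun h1 => b.2 (by
          have h2 := h.diag_T _ _ h1
          rw [← h2]
          exact a.2)
      · change R .uT a.1 b.1 ↔ False
        exact iff_false_intro fun h1 => a.2 (by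
          have h2 := h.diag_T _ _ h1
          rw [h2]
          exact b.2)
      · change R .uT a.1 b.1 ↔ False
        exact iff_false_intro fun h1 => a.2 (by
          have h2 := h.diag_T _ _ h1
          rw [← h2] at h1
          exact h1)
    | uL =>
      rcases a with a | a <;> rcases b with b | b
      · change R .uL a.1 b.1 ↔ a = b ∧ R .uL a.1 a.1
        constructor
        · intro h1
          have h2 := Subtype.ext (h.diag_L _ _ h1).1
          exact ⟨h2, h2 ▸ h1⟩
        · rintro ⟨rfl, h2⟩
          exact h2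
      · change R .uL a.1 b.1 ↔ False
        exact iff_false_intro fun h1 => b.2 ((h.diag_L _ _ h1).1 ▸ (h.diag_L _ _ h1).2)
      · change R .uL a.1 b.1 ↔ False
        exact iff_false_intro fun h1 => a.2 (h.diag_L _ _ h1).2
      · change R .uL a.1 b.1 ↔ False
        exact iff_false_intro fun h1 => a.2 (h.diag_L _ _ h1).2
    | uE =>
      rcases a with a | a <;> rcases b with b | b
      · change R .uE a.1 b.1 ↔ a = b ∧ R .uE a.1 a.1
        constructor
        · intro h1
          have h2 := Subtype.ext (h.diag_E _ _ h1).1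
          exact ⟨h2, h2 ▸ h1⟩
        · rintro ⟨rfl, h2⟩
          exact h2
      · change R .uE a.1 b.1 ↔ False
        exact iff_false_intro fun h1 => b.2 ((h.diag_E _ _ h1).1 ▸ (h.diag_E _ _ h1).2)
      · change R .uE a.1 b.1 ↔ False
        exact iff_false_intro fun h1 => a.2 (h.diag_E _ _ h1).2
      · change R .uE a.1 b.1 ↔ False
        exact iff_false_intro fun h1 => a.2 (h.diag_E _ _ h1).2
    | uM =>
      rcases a with a | a <;> rcases b with b | b
      · change R .uM a.1 b.1 ↔ False
        exact iff_false_intro fun h1 => (h.diag_M _ _ h1).2 a.2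
      · change R .uM a.1 b.1 ↔ False
        exact iff_false_intro fun h1 => (h.diag_M _ _ h1).2 a.2
      · change R .uM a.1 b.1 ↔ False
        exact iff_false_intro fun h1 => (h.diag_M _ _ h1).2 ((h.diag_M _ _ h1).1 ▸ b.2)
      · change R .uM a.1 b.1 ↔ a = b ∧ R .uM a.1 a.1
        constructor
        · intro h1
          have h2 := Subtype.ext (h.diag_M _ _ h1).1
          exact ⟨h2, h2 ▸ h1⟩
        · rintro ⟨rfl, h2⟩
          exact h2
    | uP =>
      rcases a with a | a <;> rcases b with b | b
      · change R .uP a.1 b.1 ↔ False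
        exact iff_false_intro fun h1 => (h.diag_P _ _ h1).2 a.2
      · change R .uP a.1 b.1 ↔ False
        exact iff_false_intro fun h1 => (h.diag_P _ _ h1).2 a.2
      · change R .uP a.1 b.1 ↔ False
        exact iff_false_intro fun h1 => (h.diag_P _ _ h1).2 ((h.diag_P _ _ h1).1 ▸ b.2)
      · change R .uP a.1 b.1 ↔ a = b ∧ R .uP a.1 a.1
        constructor
        · intro h1
          have h2 := Subtype.ext (h.diag_P _ _ h1).1
          exact ⟨h2, h2 ▸ h1⟩
        · rintro ⟨rfl, h2⟩
          exact h2
    | uq q =>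
      rcases a with a | a <;> rcases b with b | b
      · change R (.uq q) a.1 b.1 ↔ a = b ∧ R (.uq q) a.1 a.1
        constructor
        · intro h1
          have h2 := Subtype.ext (h.diag_q _ _ _ h1).1
          exact ⟨h2, h2 ▸ h1⟩
        · rintro ⟨rfl, h2⟩
          exact h2
      · change R (.uq q) a.1 b.1 ↔ False
        exact iff_false_intro fun h1 => b.2 ((h.diag_q _ _ _ h1).1 ▸ (h.diag_q _ _ _ h1).2)
      · change R (.uq q) a.1 b.1 ↔ False
        exact iff_false_intro fun h1 => a.2 (h.diag_q _ _ _ h1).2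
      · change R (.uq q) a.1 b.1 ↔ False
        exact iff_false_intro fun h1 => a.2 (h.diag_q _ _ _ h1).2
    | ui i =>
      rcases a with a | a <;> rcases b with b | b
      · change R (.ui i) a.1 b.1 ↔ False
        exact iff_false_intro fun h1 => (h.diag_i _ _ _ h1).2 a.2
      · change R (.ui i) a.1 b.1 ↔ False
        exact iff_false_intro fun h1 => (h.diag_i _ _ _ h1).2 a.2
      · change R (.ui i) a.1 b.1 ↔ False
        exact iff_false_intro fun h1 => (h.diag_i _ _ _ h1).2 ((h.diag_i _ _ _ h1).1 ▸ b.2)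
      · change R (.ui i) a.1 b.1 ↔ a = b ∧ I a = i
        constructor
        · intro h1
          have h2 := Subtype.ext (h.diag_i _ _ _ h1).1
          refine ⟨h2, ?_⟩
          subst h2
          exact h.ix_un _ _ _ (hI a) h1
        · rintro ⟨rfl, h2⟩
          rw [← h2]
          exact hI a
  refine ⟨A, (Equiv.sumCompl _).symm, ?_, ?_⟩
  · intro s u v
    have h1 := key s ((Equiv.sumCompl (fun u => R .uT u u)).symm u)
      ((Equiv.sumCompl (fun u => R .uT u u)).symm v)
    rw [Equiv.apply_symm_apply, Equiv.apply_symm_apply] at h1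
    exact h1
  · rw [Equiv.symm_apply_eq]
    rfl

end Pool.Agent.LIN
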