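import Pool.Agent.LIN.GR1b
import Pool.Agent.LIN.GR2T
import Pool.Agent.LIN.GR2R
import Pool.Agent.LIN.GR2M
import Pool.Agent.LIN.GR2X
import Pool.Agent.LIN.GR3b
import Pool.Agent.LIN.GA2

/-! # [LIN-GR4] block GR: assembly of RelAxStatement -/

namespace Pool.Agent.LIN

theorem Tower.Ax.toAxT {m : Mach} {A : Tower m} {c0 : m.Config} (h : A.Ax c0) : A.AxT c0 where
  S_inj := h.S_inj
  h_org := h.h_org
  h_S := h.h_S
  org_h := h.org_h
  h_p := h.h_p
  Lf_S := h.Lf_S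
  Lf_org := h.Lf_org
  p_even := h.p_even
  p_odd := h.p_odd
  child := h.child
  child_inj := h.child_inj
  lt_org := h.lt_org
  lt_irrefl := h.lt_irrefl
  lt_trans := h.lt_trans
  lt_total := h.lt_total
  o_org := h.o_org
  o_least := h.o_least
  p_lt := h.p_lt
  p_succ := h.p_succ
  Ev_org := h.Ev_org
  Ev_one := h.Ev_one
  Ev_even := h.Ev_even
  Ev_odd := h.Ev_odd

theorem Tower.Ax.toAxR {m : Mach} {A : Tower m} {c0 : m.Config} (h : A.Ax c0) : A.AxR c0 where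
  st_tm := h.st_tm
  st_ex := h.st_ex
  st_uniq := h.st_uniq
  st_const := h.st_const
  pi_tm := h.pi_tm
  pi_V := h.pi_V
  ix_V := h.ix_V
  V_inj := h.V_inj
  V_surj := h.V_surj
  flt_row := h.flt_row
  flt_irrefl := h.flt_irrefl
  flt_trans := h.flt_trans
  flt_total := h.flt_total
  flt_V := h.flt_V
  row_first := h.row_first
  row_next := h.row_next
  row_prev := h.row_prev

theorem Tower.Ax.toAxM {m : Mach} {A : Tower m} {c0 : m.Config} (h : A.Ax c0) : A.AxM c0 where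
  mk_o := h.mk_o
  mk_ex := h.mk_ex
  mk_uniq := h.mk_uniq
  mk_move := h.mk_move
  pt_st := h.pt_st
  pt_ex := h.pt_ex
  pt_uniq := h.pt_uniq
  pt_start := h.pt_start
  pt_mk := h.pt_mk
  pt_move := h.pt_move

theorem Tower.Ax.toAxX {m : Mach} {A : Tower m} {c0 : m.Config} (h : A.Ax c0) : A.AxX c0 where
  tr_inc := h.tr_inc
  tr_guess := h.tr_guess
  tr_zero := h.tr_zero
  tr_pos := h.tr_pos
  in_st := h.in_st
  in_mk := h.in_mk

/-- The definition of `o`: an element of `T` without predecessor and without smaller element. -/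
theorem def_o {m : Mach} {c0 : m.Config} (A : Tower m) (hA : A.Ax c0) (x : A.U) :
    (A.rel .uT x x ∧ ¬ (∃ z, A.rel .S z x) ∧ ¬ ∃ z, A.rel .lt z x) ↔ x = Sum.inl A.o := by
  constructor
  · rintro ⟨h1, h2, h3⟩
    rcases x with y | b
    · have hy : A.Org y := fun z hz => h2 ⟨Sum.inl z, hz⟩
      rcases hA.lt_total A.o y hA.o_org hy with h | h | h
      · rw [h]
      · exact absurd (⟨Sum.inl A.o, h⟩ : ∃ z, A.rel .lt z (Sum.inl y)) h3
      · exact absurd h (hA.o_least y)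
    · exact absurd h1 (by simp [Tower.rel])
  · rintro rfl
    refine ⟨rfl, ?_, ?_⟩
    · rintro ⟨z, hz⟩
      rcases z with z | z
      · exact hA.o_org z hz
      · exact absurd hz (by simp [Tower.rel])
    · rintro ⟨z, hz⟩
      rcases z with z | z
      · exact hA.o_least z hz
      · exact absurd hz (by simp [Tower.rel])

theorem relAx : RelAxStatement := by
  intro m c0
  obtain ⟨φT, hT⟩ := tf_AxT m c0
  obtain ⟨φR, hR⟩ := tf_AxR m c0
  obtain ⟨φM, hM⟩ := tf_AxM m c0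
  obtain ⟨φX, hX⟩ := tf_AxX m c0
  obtain ⟨ψ, hψ⟩ := exists_RF (.and φT (.and φR (.and φM φX))) 1 Fin.elim0 Fin.elim0 0
  obtain ⟨χ, hχ⟩ := RB_formula m
  have hax : ∀ A : Tower m, ψ.Sat A.rel ![Sum.inl A.o] ↔ A.Ax c0 := by
    intro A
    rw [hψ A Fin.elim0 Fin.elim0 ![Sum.inl A.o] (fun i => i.elim0) (fun i => i.elim0) rfl]
    change (φT.ev A _ _ ∧ φR.ev A _ _ ∧ φM.ev A _ _ ∧ φX.ev A _ _) ↔ _
    rw [hT, hR, hM, hX]
    constructor
    · rintro ⟨h1, h2, h3, h4⟩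
      exact Tower.Ax.of_parts h1 h2 h3 h4
    · intro h
      exact ⟨h.toAxT, h.toAxR, h.toAxM, h.toAxX⟩
  have hsn : ∀ {U : Type} (x : U), (Fin.snoc (Fin.elim0 : Fin 0 → U) x : Fin 1 → U) = ![x] := by
    intro U x
    funext i
    fin_cases i
    rfl
  refine ⟨.ex (.and χ ψ), .and (.rel .uT 0 0) (.and (.neg (.ex (.rel .S 1 0)))
    (.neg (.ex (.rel .lt 1 0)))), ?_, ?_, ?_⟩
  · intro A hA
    refine ⟨Sum.inl A.o, ?_⟩
    rw [hsn]
    exact ⟨(hχ _ _ _).mpr (RB_tower A), (hax A).mpr hA⟩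
  · rintro U R _ ⟨x, hx⟩
    rw [hsn] at hx
    obtain ⟨h1, h2⟩ := hx
    obtain ⟨A, e, he, hex⟩ := tower_of_RB R x ((hχ _ _ _).mp h1)
    refine ⟨A, ?_, e, he⟩
    rw [← hax A]
    have h3 := (Sat_iso R A.rel e he ψ ![x]).mp h2
    have e3 : (fun i => e ((![x] : Fin 1 → U) i)) = ![Sum.inl A.o] := by
      funext i
      fin_cases i
      exact hex
    rw [e3] at h3
    exact h3
  · intro A hA x
    rw [← def_o A hA x]
    rfl

end Pool.Agent.LIN
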