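import Pool.Agent.LIN.Defs

/-!
# [LIN] interfaces between the blocks R, S, M, C, G
-/

namespace Pool.Agent.LIN

open FirstOrder

/-! ### machines -/

/-- Instructions of a counter machine with states `Q` and `k` registers. -/
inductive Instr (Q : Type) (k : ℕ) : Type
  | inc (i : Fin k) (q : Q)
  | test (i : Fin k) (z p : Option Q)
  | guess (a b : Q)

/-- Nondeterministic counter machines. -/
structure Mach where
  nQ : ℕ
  k : ℕ
  prog : Fin nQ → Instr (Fin nQ) k

namespace Mach

/-- Configurations: state and contents of the registers. -/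
abbrev Config (m : Mach) : Type := Fin m.nQ × (Fin m.k → ℕ)

/-- One step of the machine. -/
def Step (m : Mach) (c c' : m.Config) : Prop :=
  match m.prog c.1 with
  | Instr.inc i q => c'.1 = q ∧ c'.2 = Function.update c.2 i (c.2 i + 1)
  | Instr.test i z p =>
      (c.2 i = 0 ∧ z = some c'.1 ∧ c'.2 = c.2) ∨
      (0 < c.2 i ∧ p = some c'.1 ∧ c'.2 = Function.update c.2 i (c.2 i - 1))
  | Instr.guess a b => (c'.1 = a ∨ c'.1 = b) ∧ c'.2 = c.2

/-- Infinite runs from `c0`. -/
def Run (m : Mach) (c0 : m.Config) : Type :=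
  {r : ℕ → m.Config // r 0 = c0 ∧ ∀ n, m.Step (r n) (r (n + 1))}

/-- Rich sequences of configurations: every state occurs infinitely often, a test state occurs
infinitely often with value zero (if the zero branch exists) and with every positive value (if the
positive branch exists), a guess state occurs infinitely often with both outcomes. -/
def Rich (m : Mach) (r : ℕ → m.Config) : Prop :=
  ∀ q : Fin m.nQ, (∀ N, ∃ n ≥ N, (r n).1 = q) ∧
    match m.prog q with
    | Instr.inc _ _ => True
    | Instr.test i z p =>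
        (z.isSome = true → ∀ N, ∃ n ≥ N, (r n).1 = q ∧ (r n).2 i = 0) ∧
        (p.isSome = true → ∀ d ≥ 1, ∀ N, ∃ n ≥ N, (r n).1 = q ∧ (r n).2 i = d)
    | Instr.guess a b =>
        (∀ N, ∃ n ≥ N, (r n).1 = q ∧ (r (n + 1)).1 = a) ∧
        (∀ N, ∃ n ≥ N, (r n).1 = q ∧ (r (n + 1)).1 = b)

end Mach

/-- The prefix of length `n` of an infinite binary sequence. -/
def pre (X : ℕ → Bool) (n : ℕ) : List Bool := (List.range n).map X

/-- The `Pi^0_1` class of the tree predicate `R`. -/
def Cls (R : List Bool → Prop) : Type := {X : ℕ → Bool // ∀ n, R (pre X n)}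

/-! ### the interface statements -/

/-- Block M: every `Pi^0_1` class is the class of the runs of a machine all of whose runs are
rich. -/
def MachineStatement : Prop :=
  ∀ R : List Bool → Prop, ComputablePred R →
    ∃ (m : Mach) (c0 : m.Config) (Φ : Cls R ≃ m.Run c0),
      (∀ r : m.Run c0, m.Rich r.1) ∧
      (∀ n, ∃ N, ∀ X Y : Cls R, pre X.1 N = pre Y.1 N → ∀ j ≤ n, (Φ X).1 j = (Φ Y).1 j) ∧
      (∀ n, ∃ N, ∀ X Y : Cls R, (∀ j ≤ N, ((Φ X).1 j).1 = ((Φ Y).1 j).1) →
        pre X.1 n = pre Y.1 n) ∧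
      (∀ X : Cls R, Computable X.1 ↔ Computable (fun n => (((Φ X).1 n).1 : ℕ)))

/-- Blocks C and G: the finitely axiomatised theory of a machine all of whose runs are rich, in
every rich language. -/
def TowerStatement : Prop :=
  ∀ (L : FirstOrder.Language.{0, 0}) (E : Enum L), Rich L →
    ∀ (m : Mach) (c0 : m.Config), (∀ r : m.Run c0, m.Rich r.1) →
      ∃ (a : L.Sentence) (Th : m.Run c0 → L.Theory),
        (∀ r, IsTh (Th r) ∧ a ∈ Th r) ∧
        (∀ (M : Type) [L.Structure M] [Nonempty M], a ∈ L.completeTheory M →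
          ∃ r, L.completeTheory M = Th r) ∧
        ∃ g : ℕ × ℕ → ℕ, Computable g ∧
          ∀ r n q, sent E (g (n, q)) ∈ Th r ↔ (((r.1 n).1 : Fin m.nQ) : ℕ) = q

/-- Block S: satisfiability is `Pi^0_1`. -/
def SatStatement : Prop :=
  ∀ (L : FirstOrder.Language.{0, 0}) (E : Enum L),
    REPred (fun c : ℕ => ¬ ∃ (M : Type) (_ : L.Structure M) (_ : Nonempty M), M ⊨ sent E c)

/-- The Hanf theorem (assembled from M, C, G, S). -/
def HanfStatement : Prop :=
  ∀ (L : FirstOrder.Language.{0, 0}) (E : Enum L), Rich L →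
    ∀ R : List Bool → Prop, ComputablePred R →
      ∃ (a : L.Sentence) (Th : Cls R → L.Theory),
        Function.Injective Th ∧
        (∀ X, IsTh (Th X) ∧ a ∈ Th X) ∧
        (∀ T : L.Theory, IsTh T → a ∈ T → ∃ X, T = Th X) ∧
        (∀ φ : L.Sentence, ∃ n, ∀ X Y : Cls R, pre X.1 n = pre Y.1 n → (φ ∈ Th X ↔ φ ∈ Th Y)) ∧
        (∀ n, ∃ φ : L.Sentence, ∀ X : Cls R, φ ∈ Th X ↔ X.1 n = true) ∧
        (∀ X, DecTh E (Th X) ↔ Computable X.1)

/-- The final theorem (block R). -/
def FinalStatement : Prop :=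
  ∀ (L : FirstOrder.Language.{0, 0}) (E : Enum L), Rich L →
    UnivPi 4 (LindND E) ∧
      ∀ (B : Type) [BooleanAlgebra B], UnivPi 4 B → Nonempty (B ≃o LindND E)

end Pool.Agent.LIN
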