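import Pool.Agent.LIN.TJ4

/-!
# [LIN] block G : interfaces between the sub-blocks

`RelAxStatement` (GR): the tower axioms are one first-order sentence about the binary relations.
`CodingStatement` (GC): structures with finitely many binary relations can be coded in structures of
an arbitrary rich language. `CodeStatement` (GK): Goedel numbers of the sentences 'the element
reached from the origin by `2^n` steps has the property `q`'. `ControlStatement` (block C).
-/

namespace Pool.Agent.LIN

open FirstOrder

/-- First-order formulas about binary relations, with `n` free variables (variable number `n` is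
bound by the next quantifier). -/
inductive RF (C : Type) : ℕ → Type
  | eq {n : ℕ} (i j : Fin n) : RF C n
  | rel {n : ℕ} (c : C) (i j : Fin n) : RF C n
  | neg {n : ℕ} (φ : RF C n) : RF C n
  | and {n : ℕ} (φ ψ : RF C n) : RF C n
  | ex {n : ℕ} (φ : RF C (n + 1)) : RF C n

/-- Satisfaction. -/
def RF.Sat {C U : Type} (R : C → U → U → Prop) : {n : ℕ} → RF C n → (Fin n → U) → Prop
  | _, .eq i j, v => v i = v j
  | _, .rel c i j, v => R c (v i) (v j)
  | _, .neg φ, v => ¬ φ.Sat R v
  | _, .and φ ψ, v => φ.Sat R v ∧ ψ.Sat R v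
  | _, .ex φ, v => ∃ x, φ.Sat R (Fin.snoc v x : Fin _ → U)

/-- GR: finite axiomatisation of the towers as relational structures, and a definition of `o`. -/
def RelAxStatement : Prop :=
  ∀ (m : Mach) (c0 : m.Config),
    ∃ (φ : RF (Tower.Sym m) 0) (β : RF (Tower.Sym m) 1),
      (∀ A : Tower m, A.Ax c0 → φ.Sat A.rel Fin.elim0) ∧
      (∀ (U : Type) (R : Tower.Sym m → U → U → Prop), Nonempty U → φ.Sat R Fin.elim0 →
        ∃ A : Tower m, A.Ax c0 ∧ ∃ e : U ≃ A.U, ∀ s u v, R s u v ↔ A.rel s (e u) (e v)) ∧
      ∀ A : Tower m, A.Ax c0 → ∀ x : A.U, β.Sat A.rel ![x] ↔ x = Sum.inl A.o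

section Coding

variable {L : FirstOrder.Language.{0, 0}} {C : Type}

/-- The elements defined by a formula. -/
def MainPt (μ : L.BoundedFormula Empty 1) (M : Type) [L.Structure M] : Type :=
  {x : M // μ.Realize (default : Empty → M) ![x]}

/-- The binary relations defined by formulas on the elements defined by `μ`. -/
def RelOf (μ : L.BoundedFormula Empty 1) (ρ : C → L.BoundedFormula Empty 2) (M : Type)
    [L.Structure M] (c : C) (x y : MainPt μ M) : Prop :=
  (ρ c).Realize (default : Empty → M) ![x.1, y.1]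

end Coding

/-- GC: coding of structures with finitely many binary relations in a rich language. -/
def CodingStatement : Prop :=
  ∀ (C : Type), Finite C → ∀ (L : FirstOrder.Language.{0, 0}) (_ : Enum L), Rich L →
    ∃ (κ : L.Sentence) (μ : L.BoundedFormula Empty 1) (ρ : C → L.BoundedFormula Empty 2),
      (∀ (M : Type) [L.Structure M], M ⊨ κ → Nonempty (MainPt μ M)) ∧
      (∀ (U : Type) (R : C → U → U → Prop), Nonempty U →
        ∃ (M : Type) (_ : L.Structure M), M ⊨ κ ∧
          ∃ e : U ≃ MainPt μ M, ∀ c u v, R c u v ↔ RelOf μ ρ M c (e u) (e v)) ∧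
      (∀ (M M' : Type) [L.Structure M] [L.Structure M'], M ⊨ κ → M' ⊨ κ →
        (∀ n, EF (RelOf μ ρ M) (RelOf μ ρ M') n []) → L.completeTheory M = L.completeTheory M')

/-- GK: the Goedel numbers of the sentences about chains of length `2^n`. -/
def CodeStatement : Prop :=
  ∀ (L : FirstOrder.Language.{0, 0}) (E : Enum L) (β : L.BoundedFormula Empty 1)
    (σ : L.BoundedFormula Empty 2) (nQ : ℕ) (θ : Fin nQ → L.BoundedFormula Empty 1),
    ∃ g : ℕ × ℕ → ℕ, Computable g ∧ ∀ (M : Type) [L.Structure M] (_ : Nonempty M) (n q : ℕ),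
      (M ⊨ sent E (g (n, q))) ↔ ∃ (hq : q < nQ) (f : ℕ → M),
        β.Realize (default : Empty → M) ![f 0] ∧
        (∀ i < 2 ^ n, σ.Realize (default : Empty → M) ![f i, f (i + 1)]) ∧
        (θ ⟨q, hq⟩).Realize (default : Empty → M) ![f (2 ^ n)]

/-- Block C: every tower has a run, towers with the same run are indistinguishable. -/
def ControlStatement : Prop :=
  ∀ (m : Mach) (c0 : m.Config), (∀ r : m.Run c0, m.Rich r.1) →
    (∀ A : Tower m, A.Ax c0 → ∃ r : m.Run c0, A.Spec r.1) ∧
    ∀ (A B : Tower m) (r : m.Run c0), A.Ax c0 → B.Ax c0 → A.Spec r.1 → B.Spec r.1 →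
      ∀ n, EF A.rel B.rel n []

end Pool.Agent.LIN
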