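import Pool.Agent.LIN.Defs

/-!
# [LIN] MP_8a350d_lc : the Lindenbaum algebra of the theory of the class (definitions)
-/

namespace Pool.Agent.LIN

open FirstOrder FirstOrder.Language

variable {L : FirstOrder.Language.{0, 0}}

/-- `Th(N ∩ D)`: the sentences that are true in all structures whose complete theory is decidable
and not finitely axiomatisable. -/
def ThND (E : Enum L) : L.Theory :=
  {φ | ∀ (M : Type) (_ : L.Structure M) (_ : Nonempty M), DecTh E (L.completeTheory M) →
    ¬ FinAx (L.completeTheory M) → M ⊨ φ}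

/-- `(B, γ)` is the Lindenbaum algebra of the theory `T`: the sentences modulo the equivalence
`φ ↔ ψ ∈ T`, with the operations induced by the connectives. -/
structure IsLind (T : L.Theory) {B : Type} [BooleanAlgebra B] (γ : L.Sentence → B) : Prop where
  surj : Function.Surjective γ
  inf : ∀ φ ψ : L.Sentence, γ (φ ⊓ ψ) = γ φ ⊓ γ ψ
  sup : ∀ φ ψ : L.Sentence, γ (φ ⊔ ψ) = γ φ ⊔ γ ψ
  compl : ∀ φ : L.Sentence, γ (BoundedFormula.not φ) = (γ φ)ᶜ
  eq_iff : ∀ φ ψ : L.Sentence, γ φ = γ ψ ↔ BoundedFormula.iff φ ψ ∈ T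

end Pool.Agent.LIN
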