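import Pool.Agent.LIN.RH5

/-! # [LIN-RA1] Data extracted from a numerated `Pi_4` algebra

`nz m := ν m ≠ ⊥` is `Sg 4`: with `ν z = ⊥` (surjectivity), `Pg 4 (fun m => ν m = ν z)` by `Pg.comp`, then `Pg.not`.  `Q` from `Sg.ucert 3`.
`sp d l x` : index of `ν d ⊓ ν l` or `ν d ⊓ (ν l)ᶜ` from `CompOps` (`Computable.cond`).
`G`: `Sg.reduction` for `p (d, l) := nz (sp d l true)`, `q (d, l) := nz (sp d l false)`; `G0 ((d, l), x) := (x = true ∧ p' (d, l)) ∨ (x = false ∧ q' (d, l))` is `Sg 4`;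
`G` from `Sg.ucert 3`.  `G_ex`: `ν d = (ν d ⊓ ν l) ⊔ (ν d ⊓ (ν l)ᶜ)`, so one of the two is not `⊥`. -/

namespace Pool.Agent.LIN

/-- Certificates for a numerated `Pi_4` algebra: `Q (m, y)` certifies `ν m ≠ ⊥`, `G (((d, l), x), y)` certifies that `x` is the
preferred half of `ν d` with respect to `ν l`. -/
structure AD {B : Type} [BooleanAlgebra B] (ν : ℕ → B) where
  top : ℕ
  ν_top : ν top = ⊤
  sp : ℕ → ℕ → Bool → ℕ
  sp_comp : Computable (fun x : (ℕ × ℕ) × Bool => sp x.1.1 x.1.2 x.2)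
  ν_sp : ∀ d l x, ν (sp d l x) = ν d ⊓ (if x = true then ν l else (ν l)ᶜ)
  Q : ℕ × ℕ → Prop
  Q_pg : Pg 3 Q
  Q_iff : ∀ m, ν m ≠ ⊥ ↔ ∃ y, Q (m, y)
  Q_uniq : ∀ m y y', Q (m, y) → Q (m, y') → y = y'
  G : ((ℕ × ℕ) × Bool) × ℕ → Prop
  G_pg : Pg 3 G
  G_ex : ∀ d l, ν d ≠ ⊥ → ∃ x y, G (((d, l), x), y)
  G_uniq : ∀ d l x x' y y', G (((d, l), x), y) → G (((d, l), x'), y') → x = x' ∧ y = y'
  G_ne : ∀ d l x y, G (((d, l), x), y) → ν (sp d l x) ≠ ⊥

theorem exists_AD {B : Type} [BooleanAlgebra B] {ν : ℕ → B} (h : PiAlg 4 ν) : Nonempty (AD ν) := by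
  obtain ⟨hsurj, ⟨⟨fs, hfs, hfs'⟩, ⟨fi, hfi, hfi'⟩, ⟨fc, hfc, hfc'⟩⟩, hpg⟩ := h
  obtain ⟨z, hz⟩ := hsurj ⊥
  obtain ⟨t, ht⟩ := hsurj ⊤
  have hnz : Sg 4 (fun m : ℕ => ν m ≠ ⊥) := by
    have h1 : Pg 4 (fun m : ℕ => ν m = ν z) :=
      Pg.comp (p := fun p : ℕ × ℕ => ν p.1 = ν p.2) hpg (f := fun m : ℕ => (m, z))
        (Computable.pair Computable.id (Computable.const z))
    exact Sg.of_iff (Pg.not h1) (fun m => by rw [hz])
  obtain ⟨Q, hQ1, hQ2, hQ3⟩ := Sg.ucert 3 hnz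
  let sp : ℕ → ℕ → Bool → ℕ := fun d l x => cond x (fi d l) (fi d (fc l))
  have hsp : Computable (fun x : (ℕ × ℕ) × Bool => sp x.1.1 x.1.2 x.2) :=
    Computable.cond Computable.snd
      (hfi.comp (Computable.fst.comp Computable.fst) (Computable.snd.comp Computable.fst))
      (hfi.comp (Computable.fst.comp Computable.fst)
        (hfc.comp (Computable.snd.comp Computable.fst)))
  have hνsp : ∀ d l x, ν (sp d l x) = ν d ⊓ (if x = true then ν l else (ν l)ᶜ) := by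
    intro d l x
    cases x <;> simp [sp, hfi', hfc']
  have hp : Sg 4 (fun x : ℕ × ℕ => ν (sp x.1 x.2 true) ≠ ⊥) :=
    Sg.comp hnz (f := fun x : ℕ × ℕ => sp x.1 x.2 true)
      (hsp.comp (Computable.pair Computable.id (Computable.const true)))
  have hq : Sg 4 (fun x : ℕ × ℕ => ν (sp x.1 x.2 false) ≠ ⊥) :=
    Sg.comp hnz (f := fun x : ℕ × ℕ => sp x.1 x.2 false)
      (hsp.comp (Computable.pair Computable.id (Computable.const false)))
  obtain ⟨p', q', hp', hq', hpp, hqq, hor, hno⟩ := Sg.reduction hp hq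
  have hT : ComputablePred (fun x : (ℕ × ℕ) × Bool => x.2 = true) :=
    ⟨fun x => inferInstanceAs (Decidable (x.2 = true)), Computable.of_eq Computable.snd (fun x => by
      cases h : x.2 <;> simp [h])⟩
  have hF : ComputablePred (fun x : (ℕ × ℕ) × Bool => x.2 = false) :=
    ⟨fun x => inferInstanceAs (Decidable (x.2 = false)),
      Computable.of_eq (Primrec.not.to_comp.comp Computable.snd) (fun x => by
      cases h : x.2 <;> simp [h])⟩
  have hG0 : Sg 4 (fun x : (ℕ × ℕ) × Bool => (x.2 = true ∧ p' x.1) ∨ (x.2 = false ∧ q' x.1)) :=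
    Sg.or (Sg.and (Sg.of_computable hT) (Sg.comp hp' Computable.fst))
      (Sg.and (Sg.of_computable hF) (Sg.comp hq' Computable.fst))
  obtain ⟨G, hG1, hG2, hG3⟩ := Sg.ucert 3 hG0
  refine ⟨{ top := t, ν_top := ht, sp := sp, sp_comp := hsp, ν_sp := hνsp, Q := Q, Q_pg := hQ1,
            Q_iff := hQ2, Q_uniq := hQ3, G := G, G_pg := hG1, G_ex := ?_, G_uniq := ?_, G_ne := ?_ }⟩
  · intro d l hd
    have h1 : ν (sp d l true) ≠ ⊥ ∨ ν (sp d l false) ≠ ⊥ := by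
      by_contra hcon
      rw [not_or, not_not, not_not] at hcon
      apply hd
      have h2 := hνsp d l true
      have h3 := hνsp d l false
      rw [hcon.1] at h2
      rw [hcon.2] at h3
      simp only [if_true, Bool.false_eq_true, if_false] at h2 h3
      calc ν d = ν d ⊓ (ν l ⊔ (ν l)ᶜ) := by rw [sup_compl_eq_top, inf_top_eq]
        _ = (ν d ⊓ ν l) ⊔ (ν d ⊓ (ν l)ᶜ) := inf_sup_left _ _ _
        _ = ⊥ := by rw [← h2, ← h3, bot_sup_eq]
    rcases hor (d, l) h1 with h2 | h2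
    · obtain ⟨y, hy⟩ := (hG2 ((d, l), true)).1 (Or.inl ⟨rfl, h2⟩)
      exact ⟨true, y, hy⟩
    · obtain ⟨y, hy⟩ := (hG2 ((d, l), false)).1 (Or.inr ⟨rfl, h2⟩)
      exact ⟨false, y, hy⟩
  · intro d l x x' y y' h1 h2
    have h3 := (hG2 ((d, l), x)).2 ⟨y, h1⟩
    have h4 := (hG2 ((d, l), x')).2 ⟨y', h2⟩
    have hx : x = x' := by
      rcases h3 with ⟨e1, e2⟩ | ⟨e1, e2⟩
      · rcases h4 with ⟨e3, e4⟩ | ⟨e3, e4⟩
        · exact e1.trans e3.symm
        · exact (hno (d, l) ⟨e2, e4⟩).elim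
      · rcases h4 with ⟨e3, e4⟩ | ⟨e3, e4⟩
        · exact (hno (d, l) ⟨e4, e2⟩).elim
        · exact e1.trans e3.symm
    subst hx
    exact ⟨rfl, hG3 _ _ _ h1 h2⟩
  · intro d l x y h1
    rcases (hG2 ((d, l), x)).2 ⟨y, h1⟩ with ⟨e1, e2⟩ | ⟨e1, e2⟩
    · have e1' : x = true := e1
      rw [e1']
      exact hpp _ e2
    · have e1' : x = false := e1
      rw [e1']
      exact hqq _ e2

end Pool.Agent.LIN
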