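import Pool.Agent.LIN.RA1

/-! # [LIN-RA2] The tree `U` of labels

A state is `s = (d, l)`: an index `d` of an element and a level `l`.  A label `t` codes a list `y' :: us` (`Denumerable.ofNat (List ℕ) t`), `us` nonempty; every
`u` in `us` codes a bit `u.bodd` and a certificate `u.div2`.  The preferred steps: `(d, l) ↦ (sp d l x, l + 1)`. -/

namespace Pool.Agent.LIN

namespace AD

variable {B : Type} [BooleanAlgebra B] {ν : ℕ → B} (D : AD ν)

/-- one step with the bit `x` -/
def step1 (s : ℕ × ℕ) (x : Bool) : ℕ × ℕ := (D.sp s.1 s.2 x, s.2 + 1)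

/-- follow the bits of `us` -/
def run (s : ℕ × ℕ) (us : List ℕ) : ℕ × ℕ := us.foldl (fun s u => D.step1 s u.bodd) s

/-- all steps are certified preferred steps -/
def pathOK (s : ℕ × ℕ) (us : List ℕ) : Prop :=
  ∀ i < us.length, D.G ((D.run s (us.take i), (us.getD i 0).bodd), (us.getD i 0).div2)

/-- the first entry of the label -/
def lhd (t : ℕ) : ℕ := (Denumerable.ofNat (List ℕ) t).headD 0

/-- the remaining entries of the label -/
def ltl (t : ℕ) : List ℕ := (Denumerable.ofNat (List ℕ) t).tail

/-- the number of the step at which the child with label `t` leaves the preferred path -/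
def lj (t : ℕ) : ℕ := (ltl t).length - 1

/-- the child: preferred steps except for the last one -/
def ch (s : ℕ × ℕ) (t : ℕ) : ℕ × ℕ :=
  D.step1 (D.run s ((ltl t).take (lj t))) (!((ltl t).getD (lj t) 0).bodd)

/-- valid labels -/
def Lab (s : ℕ × ℕ) (t : ℕ) : Prop :=
  ltl t ≠ [] ∧ D.pathOK s (ltl t) ∧ D.Q ((D.ch s t).1, lhd t)

/-- the state of a node (the last label is the head of the list) -/
def nd : List ℕ → ℕ × ℕ
  | [] => (D.top, 0)
  | t :: γ => D.ch (nd γ) t

/-- the tree -/
def U : List ℕ → Prop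
  | [] => True
  | t :: γ => U γ ∧ D.Lab (nd D γ) t

theorem ra2_foldl {α β σ : Type} [Primcodable α] [Primcodable β] [Primcodable σ]
    (f : α → List β) (g : α → σ) (h : α → σ × β → σ) (hf : Computable f) (hg : Computable g)
    (hh : Computable₂ h) : Computable (fun a => (f a).foldl (fun s b => h a (s, b)) (g a)) := by
  let H : α → ℕ × σ → σ := fun a y =>
    Option.casesOn (motive := fun _ => σ) ((f a)[y.1]?) y.2 (fun b => h a (y.2, b))
  have hH : Computable₂ H := by
    refine Computable.option_casesOn (o := fun x : α × (ℕ × σ) => (f x.1)[x.2.1]?)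
      (f := fun x : α × (ℕ × σ) => x.2.2) (g := fun x b => h x.1 (x.2.2, b)) ?_ ?_ ?_
    · exact Computable.list_getElem?.comp (hf.comp Computable.fst)
        (Computable.fst.comp Computable.snd)
    · exact Computable.snd.comp Computable.snd
    · exact hh.comp (Computable.fst.comp Computable.fst)
        (Computable.pair (Computable.snd.comp (Computable.snd.comp Computable.fst)) Computable.snd)
  have h1 := Computable.nat_rec (f := fun a => (f a).length) (g := g) (h := H)
    (Computable.list_length.comp hf) hg hH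
  have key : ∀ (a : α) (n : ℕ), ((f a).take n).foldl (fun s b => h a (s, b)) (g a) =
      Nat.rec (motive := fun _ => σ) (g a) (fun k IH => H a (k, IH)) n := by
    intro a n
    induction n with
    | zero => rfl
    | succ n ih =>
      rw [List.take_add_one, List.foldl_append, ih]
      show _ = H a (n, _)
      generalize (Nat.rec (motive := fun _ => σ) (g a) (fun k IH => H a (k, IH)) n : σ) = z
      show _ = (Option.casesOn (motive := fun _ => σ) ((f a)[n]?) z (fun b => h a (z, b)) : σ)
      cases hb : (f a)[n]? with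
      | none => rfl
      | some b => rfl
  refine h1.of_eq fun a => ?_
  rw [← key a (f a).length, List.take_length]

theorem ra2_step1 : Computable (fun x : (ℕ × ℕ) × Bool => D.step1 x.1 x.2) :=
  Computable.pair D.sp_comp (Computable.succ.comp (Computable.snd.comp Computable.fst))

theorem ra2_ltl : Primrec ltl := Primrec.list_tail.comp (Primrec.ofNat (List ℕ))

theorem ra2_lj : Primrec lj :=
  Primrec.nat_sub.comp (Primrec.list_length.comp ra2_ltl) (Primrec.const 1)

/-- `List.foldl` of a computable step function -/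
theorem run_comp : Computable (fun x : (ℕ × ℕ) × List ℕ => D.run x.1 x.2) := by
  have hb : Computable (fun x : ((ℕ × ℕ) × List ℕ) × ((ℕ × ℕ) × ℕ) => Nat.bodd x.2.2) :=
    Computable.comp (f := Nat.bodd) (g := fun x : ((ℕ × ℕ) × List ℕ) × ((ℕ × ℕ) × ℕ) => x.2.2)
      Primrec.nat_bodd.to_comp (Computable.snd.comp Computable.snd)
  have hp : Computable (fun x : ((ℕ × ℕ) × List ℕ) × ((ℕ × ℕ) × ℕ) => (x.2.1, Nat.bodd x.2.2)) :=
    Computable.pair (Computable.fst.comp Computable.snd) hb
  have h1 : Computable₂ (fun (_ : (ℕ × ℕ) × List ℕ) (y : (ℕ × ℕ) × ℕ) => D.step1 y.1 y.2.bodd) :=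
    Computable.comp (f := fun x : (ℕ × ℕ) × Bool => D.step1 x.1 x.2)
      (g := fun x : ((ℕ × ℕ) × List ℕ) × ((ℕ × ℕ) × ℕ) => (x.2.1, Nat.bodd x.2.2)) D.ra2_step1 hp
  exact ra2_foldl (fun x : (ℕ × ℕ) × List ℕ => x.2) (fun x => x.1)
    (fun (_ : (ℕ × ℕ) × List ℕ) (y : (ℕ × ℕ) × ℕ) => D.step1 y.1 y.2.bodd)
    Computable.snd Computable.fst h1

theorem ch_comp : Computable (fun x : (ℕ × ℕ) × ℕ => D.ch x.1 x.2) := by
  have h1 : Computable (fun x : (ℕ × ℕ) × ℕ => (ltl x.2).take (lj x.2)) :=
    (Primrec.list_take.comp (ra2_lj.comp Primrec.snd) (ra2_ltl.comp Primrec.snd)).to_comp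
  have h2 : Computable (fun x : (ℕ × ℕ) × ℕ => !((ltl x.2).getD (lj x.2) 0).bodd) :=
    (Primrec.not.comp (Primrec.nat_bodd.comp ((Primrec.list_getD 0).comp
      (ra2_ltl.comp Primrec.snd) (ra2_lj.comp Primrec.snd)))).to_comp
  exact D.ra2_step1.comp (Computable.pair (D.run_comp.comp (Computable.pair Computable.fst h1)) h2)

/-- `List.foldr` -/
theorem nd_comp : Computable D.nd := by
  have h1 : Computable₂ (fun (_ : List ℕ) (y : (ℕ × ℕ) × ℕ) => D.ch y.1 y.2) :=
    D.ch_comp.comp Computable.snd
  have h2 := ra2_foldl (fun x : List ℕ => x.reverse) (fun _ => (D.top, 0))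
    (fun (_ : List ℕ) (y : (ℕ × ℕ) × ℕ) => D.ch y.1 y.2)
    Computable.list_reverse (Computable.const _) h1
  refine h2.of_eq fun γ => ?_
  rw [List.foldl_reverse]
  induction γ with
  | nil => rfl
  | cons t γ ih =>
    rw [List.foldr_cons]
    show D.ch _ t = D.ch (nd D γ) t
    rw [ih]

end AD

end Pool.Agent.LIN
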