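import Pool.Agent.LIN.RA2

/-! # [LIN-RA3] The tree `U` is `Pi_3`

`pathOK` is `Pg 3` as a predicate of `(s, us)` (`Pg.ball` with bound `us.length`, `Pg.comp` of `G_pg` with a computable map).  `Lab` is `Pg 3` as a predicate of `(s, t)`
(`ltl t ≠ []` is computable, `Q_pg` composed with `ch`, `lhd`).  `U γ ↔ ∀ i < γ.length, Lab (nd (γ.drop (i + 1))) (γ.getD i 0)` by induction on `γ`; `Pg.ball`. -/

namespace Pool.Agent.LIN

namespace AD

variable {B : Type} [BooleanAlgebra B] {ν : ℕ → B} (D : AD ν)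

theorem ra3_ltl : Computable ltl :=
  (Primrec.list_tail.comp (Primrec.ofNat (List ℕ))).to_comp

theorem ra3_lhd : Computable lhd := by
  have h1 : Computable (fun t : ℕ => (Denumerable.ofNat (List ℕ) t).getD 0 0) :=
    ((Primrec.list_getD 0).comp (Primrec.ofNat (List ℕ)) (Primrec.const 0)).to_comp
  refine h1.of_eq fun t => ?_
  unfold lhd
  cases Denumerable.ofNat (List ℕ) t <;> rfl

theorem ra3_path (r : ℕ × ℕ → List ℕ → ℕ × ℕ)
    (hr : Computable (fun x : (ℕ × ℕ) × List ℕ => r x.1 x.2))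
    (G : ((ℕ × ℕ) × Bool) × ℕ → Prop) (hG : Pg 3 G) :
    Pg 3 (fun x : (ℕ × ℕ) × List ℕ => ∀ i < x.2.length,
      G ((r x.1 (x.2.take i), (x.2.getD i 0).bodd), (x.2.getD i 0).div2)) := by
  have hget : Computable (fun y : ((ℕ × ℕ) × List ℕ) × ℕ => y.1.2.getD y.2 0) :=
    ((Primrec.list_getD 0).comp (Primrec.snd.comp Primrec.fst) Primrec.snd).to_comp
  have htake : Computable (fun y : ((ℕ × ℕ) × List ℕ) × ℕ => y.1.2.take y.2) :=
    (Primrec.list_take.comp Primrec.snd (Primrec.snd.comp Primrec.fst)).to_comp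
  have hrun : Computable (fun y : ((ℕ × ℕ) × List ℕ) × ℕ => r y.1.1 (y.1.2.take y.2)) :=
    hr.comp ((Computable.fst.comp Computable.fst).pair htake)
  have hf : Computable (fun y : ((ℕ × ℕ) × List ℕ) × ℕ =>
      ((r y.1.1 (y.1.2.take y.2), (y.1.2.getD y.2 0).bodd), (y.1.2.getD y.2 0).div2)) :=
    (hrun.pair (Primrec.nat_bodd.to_comp.comp hget)).pair (Primrec.nat_div2.to_comp.comp hget)
  have h1 : Pg 3 (fun y : ((ℕ × ℕ) × List ℕ) × ℕ =>
      G ((r y.1.1 (y.1.2.take y.2), (y.1.2.getD y.2 0).bodd), (y.1.2.getD y.2 0).div2)) :=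
    Pg.comp (p := G) hG hf
  have hlen : Computable (fun x : (ℕ × ℕ) × List ℕ => x.2.length) :=
    Primrec.list_length.to_comp.comp Computable.snd
  exact Pg.ball h1 hlen

theorem pathOK_pg : Pg 3 (fun x : (ℕ × ℕ) × List ℕ => D.pathOK x.1 x.2) := by
  exact ra3_path D.run D.run_comp D.G D.G_pg

theorem Lab_pg : Pg 3 (fun x : (ℕ × ℕ) × ℕ => D.Lab x.1 x.2) := by
  have h1 : Pg 3 (fun x : (ℕ × ℕ) × ℕ => ltl x.2 ≠ []) := by
    refine Pg.of_computable ⟨fun x => inferInstance, ?_⟩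
    have h2 : Computable (fun x : (ℕ × ℕ) × ℕ => !(decide ((ltl x.2).length = 0))) := by
      refine Computable.comp (f := Bool.not) Primrec.not.to_comp ?_
      exact (Primrec.eq.decide.comp (Primrec.list_length.comp
        ((Primrec.list_tail.comp (Primrec.ofNat (List ℕ))).comp Primrec.snd))
        (Primrec.const 0)).to_comp
    refine h2.of_eq fun x => ?_
    cases h : ltl x.2 with
    | nil => simp [h]
    | cons a l => simp [h]
  have h3 : Pg 3 (fun x : (ℕ × ℕ) × ℕ => D.pathOK x.1 (ltl x.2)) :=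
    Pg.comp D.pathOK_pg (Computable.fst.pair (ra3_ltl.comp Computable.snd))
  have h4 : Pg 3 (fun x : (ℕ × ℕ) × ℕ => D.Q ((D.ch x.1 x.2).1, lhd x.2)) :=
    Pg.comp D.Q_pg ((Computable.fst.comp D.ch_comp).pair (ra3_lhd.comp Computable.snd))
  exact Pg.and h1 (Pg.and h3 h4)

theorem U_iff (γ : List ℕ) : D.U γ ↔ ∀ i < γ.length, D.Lab (D.nd (γ.drop (i + 1))) (γ.getD i 0) := by
  induction γ with
  | nil => exact ⟨fun _ i hi => absurd hi (Nat.not_lt_zero i), fun _ => trivial⟩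
  | cons t γ ih =>
    have e : D.U (t :: γ) ↔ D.U γ ∧ D.Lab (D.nd γ) t := Iff.rfl
    rw [e, ih]
    constructor
    · rintro ⟨h1, h2⟩ i hi
      cases i with
      | zero => exact h2
      | succ i => exact h1 i (Nat.lt_of_succ_lt_succ hi)
    · intro h
      refine ⟨fun i hi => ?_, ?_⟩
      · exact h (i + 1) (Nat.succ_lt_succ hi)
      · exact h 0 (Nat.succ_pos _)

theorem U_pg : Pg 3 D.U := by
  have h1 : Pg 3 (fun γ : List ℕ => ∀ i < γ.length,
      D.Lab (D.nd (γ.drop (i + 1))) (γ.getD i 0)) := by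
    have hdrop : Computable (fun y : List ℕ × ℕ => y.1.drop (y.2 + 1)) :=
      (Primrec.list_drop.comp (Primrec.succ.comp Primrec.snd) Primrec.fst).to_comp
    have hget : Computable (fun y : List ℕ × ℕ => y.1.getD y.2 0) :=
      ((Primrec.list_getD 0).comp Primrec.fst Primrec.snd).to_comp
    exact Pg.ball (Pg.comp D.Lab_pg ((D.nd_comp.comp hdrop).pair hget)) Primrec.list_length.to_comp
  exact Pg.of_iff h1 D.U_iff

end AD

end Pool.Agent.LIN
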