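import Pool.Agent.LIN.RA3

/-! # [LIN-RA4] Tree bases, and the tree basis of a numerated algebra

`TB ν U`: to every node `γ` of the tree `U` belongs a decreasing sequence `d γ j` of nonzero elements which decides more and more elements `ν n`; the children of `γ`
correspond to the nonzero differences `d γ j \ d γ (j + 1)`. -/

namespace Pool.Agent.LIN

/-- Tree bases.  Nodes are lists, the last label is the head. -/
structure TB {B : Type} [BooleanAlgebra B] (ν : ℕ → B) (U : List ℕ → Prop) where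
  d : List ℕ → ℕ → B
  lv : List ℕ → ℕ
  J : List ℕ → ℕ → ℕ
  root : U []
  tail : ∀ t γ, U (t :: γ) → U γ
  d_root : d [] 0 = ⊤
  lv_root : lv [] = 0
  d_ne : ∀ γ j, U γ → d γ j ≠ ⊥
  d_anti : ∀ γ j, U γ → d γ (j + 1) ≤ d γ j
  child : ∀ t γ, U (t :: γ) → d (t :: γ) 0 = d γ (J γ t) \ d γ (J γ t + 1)
  lv_child : ∀ t γ, U (t :: γ) → lv (t :: γ) = lv γ + J γ t + 1
  J_inj : ∀ γ t t', U (t :: γ) → U (t' :: γ) → J γ t = J γ t' → t = t'
  J_surj : ∀ γ j, U γ → d γ (j + 1) ≠ d γ j → ∃ t, U (t :: γ) ∧ J γ t = j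
  decide : ∀ γ n j, U γ → n < lv γ + j → d γ j ≤ ν n ∨ d γ j ≤ (ν n)ᶜ

namespace AD

variable {B : Type} [BooleanAlgebra B] {ν : ℕ → B} (D : AD ν)

open Classical in
/-- the preferred bit at a state (the bit `x` with `G`, if there is one) -/
noncomputable def pb (s : ℕ × ℕ) : Bool := if ∃ y, D.G ((s, true), y) then true else false

/-- the preferred path from a state -/
noncomputable def pp (s : ℕ × ℕ) : ℕ → ℕ × ℕ
  | 0 => s
  | j + 1 => D.step1 (pp s j) (D.pb (pp s j))

theorem pb_spec {s : ℕ × ℕ} (h : ν s.1 ≠ ⊥) : ∃ y, D.G ((s, D.pb s), y) := by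
  classical
  by_cases h1 : ∃ y, D.G ((s, true), y)
  · have h2 : D.pb s = true := if_pos h1
    rw [h2]
    exact h1
  · have h2 : D.pb s = false := if_neg h1
    rw [h2]
    obtain ⟨x, y, h3⟩ := D.G_ex s.1 s.2 h
    cases x with
    | true => exact absurd ⟨y, h3⟩ h1
    | false => exact ⟨y, h3⟩

theorem pb_eq {s : ℕ × ℕ} {x : Bool} {y : ℕ} (h : D.G ((s, x), y)) : D.pb s = x := by
  classical
  cases x with
  | true => exact if_pos ⟨y, h⟩
  | false =>
    refine if_neg ?_
    rintro ⟨y', h'⟩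
    have h1 := (D.G_uniq s.1 s.2 _ _ _ _ h' h).1
    exact Bool.noConfusion h1

theorem pp_ne {s : ℕ × ℕ} (h : ν s.1 ≠ ⊥) (j : ℕ) : ν (D.pp s j).1 ≠ ⊥ := by
  induction j with
  | zero => exact h
  | succ j ih =>
    obtain ⟨y, hy⟩ := D.pb_spec ih
    exact D.G_ne _ _ _ _ hy

theorem pp_snd (s : ℕ × ℕ) (j : ℕ) : (D.pp s j).2 = s.2 + j := by
  induction j with
  | zero => rfl
  | succ j ih =>
    show (D.pp s j).2 + 1 = s.2 + (j + 1)
    rw [ih, add_assoc]

theorem ra4_run_snoc (s : ℕ × ℕ) (us : List ℕ) (u : ℕ) :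
    D.run s (us ++ [u]) = D.step1 (D.run s us) u.bodd := by
  unfold run
  rw [List.foldl_append]
  rfl

theorem ra4_take {us : List ℕ} {i : ℕ} (hi : i < us.length) :
    us.take (i + 1) = us.take i ++ [us.getD i 0] := by
  rw [List.take_succ_eq_append_getElem hi, List.getD_eq_getElem _ _ hi]

/-- `pathOK s us` iff the bits are the preferred ones with their certificates; in particular `run s (us.take i) = pp s i` -/
theorem run_take {s : ℕ × ℕ} {us : List ℕ} (h : D.pathOK s us) {i : ℕ} (hi : i ≤ us.length) :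
    D.run s (us.take i) = D.pp s i := by
  induction i with
  | zero => rfl
  | succ i ih =>
    have h1 := ih (Nat.le_of_succ_le hi)
    have h2 := D.pb_eq (h i hi)
    rw [h1] at h2
    rw [ra4_take hi, ra4_run_snoc, h1, ← h2]
    rfl

theorem pathOK_bit {s : ℕ × ℕ} {us : List ℕ} (h : D.pathOK s us) {i : ℕ} (hi : i < us.length) :
    (us.getD i 0).bodd = D.pb (D.pp s i) := by
  have h2 := D.pb_eq (h i hi)
  rw [D.run_take h hi.le] at h2
  exact h2.symm

/-- two certified paths of the same length are equal -/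
theorem pathOK_unique {s : ℕ × ℕ} {us us' : List ℕ} (h : D.pathOK s us) (h' : D.pathOK s us')
    (hl : us.length = us'.length) : us = us' := by
  refine List.ext_getElem hl fun i h1 h2 => ?_
  have h3 := h i h1
  have h4 := h' i h2
  rw [D.run_take h h1.le] at h3
  rw [D.run_take h' h2.le] at h4
  obtain ⟨h5, h6⟩ := D.G_uniq _ _ _ _ _ _ h3 h4
  rw [← List.getD_eq_getElem _ 0 h1, ← List.getD_eq_getElem _ 0 h2,
    ← Nat.bodd_add_div2 (us.getD i 0), ← Nat.bodd_add_div2 (us'.getD i 0), h5, h6]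

/-- there are certified paths of every length -/
theorem exists_pathOK {s : ℕ × ℕ} (h : ν s.1 ≠ ⊥) (j : ℕ) : ∃ us : List ℕ, us.length = j ∧ D.pathOK s us := by
  induction j with
  | zero => exact ⟨[], rfl, fun i hi => absurd hi (Nat.not_lt_zero i)⟩
  | succ j ih =>
    obtain ⟨us, hl, hus⟩ := ih
    obtain ⟨y, hy⟩ := D.pb_spec (D.pp_ne h j)
    refine ⟨us ++ [Nat.bit (D.pb (D.pp s j)) y], by rw [List.length_append, hl]; rfl, fun i hi => ?_⟩
    rw [List.length_append, hl] at hi
    rcases Nat.lt_succ_iff_lt_or_eq.1 hi with h1 | h1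
    · have h2 : i < us.length := by rw [hl]; exact h1
      rw [List.take_append_of_le_length h2.le, List.getD_append _ _ _ _ h2]
      exact hus i h2
    · subst h1
      have h2 : (us ++ [Nat.bit (D.pb (D.pp s i)) y]).getD i 0 = Nat.bit (D.pb (D.pp s i)) y := by
        rw [List.getD_append_right _ _ _ _ hl.le, hl, Nat.sub_self]
        rfl
      have h3 : (us ++ [Nat.bit (D.pb (D.pp s i)) y]).take i = us.take i :=
        List.take_append_of_le_length hl.ge
      rw [h2, h3, D.run_take hus hl.ge, Nat.bodd_bit, Nat.div2_bit]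
      exact hy

end AD

end Pool.Agent.LIN
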