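import Pool.Agent.LIN.RA4

/-! # [LIN-RA5] The tree basis of a numerated algebra

`d γ j = ν (pp (nd γ) j).1`, `lv γ = (nd γ).2`, `J γ t = lj t`.
For `U (t :: γ)` with `s = nd γ`, `j = lj t`, `us = ltl t` (length `j + 1`): `run_take`, `pathOK_bit` give `ch s t = step1 (pp s j) (!pb (pp s j))`, so with `c = ν (pp s j).1`, `e = ν (s.2 + j)` or its
complement: `d γ (j + 1) = c ⊓ e`, `d (t :: γ) 0 = c ⊓ eᶜ = c \ (c ⊓ e)`.  `d_ne`: induction on `γ` shows `ν (nd γ).1 ≠ ⊥` (`Q_iff`), then `pp_ne`.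
`J_inj`: `ltl t = ltl t'` by `pathOK_unique`, then the elements `(ch s t).1` are equal and `lhd t = lhd t'` by `Q_uniq`; both lists `lhd t :: ltl t` (nonempty because `ltl t ≠ []`) are equal, `Denumerable.ofNat` is injective.
`J_surj`: `d γ (j + 1) ≠ d γ j` implies `c ⊓ eᶜ ≠ ⊥`; take `us` of length `j + 1` (`exists_pathOK`), `y'` from `Q_iff`, `t = encode (y' :: us)`.
`decide`: first for `j = 0` by induction on `γ` together with the statement for all `j`: from `j` to `j + 1`: `n < lv γ + j` by `d_anti`, `n = lv γ + j`: `d γ (j + 1) = c ⊓ e` with `e = ν n` or `(ν n)ᶜ`. For the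
child `t :: γ`: `lv (t :: γ) = lv γ + j + 1`, `d (t :: γ) 0 ≤ d γ j` decides `n < lv γ + j`, and `d (t :: γ) 0 ≤ eᶜ` decides `n = lv γ + j`. -/

namespace Pool.Agent.LIN

namespace AD

variable {B : Type} [BooleanAlgebra B] {ν : ℕ → B} (D : AD ν)

theorem RA5_ch {s : ℕ × ℕ} {t : ℕ} (h1 : ltl t ≠ []) (h2 : D.pathOK s (ltl t)) :
    D.ch s t = D.step1 (D.pp s (lj t)) (!D.pb (D.pp s (lj t))) := by
  have hlen : 0 < (ltl t).length := List.length_pos_iff.2 h1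
  have hj : lj t < (ltl t).length := by
    unfold lj
    omega
  unfold ch
  rw [D.run_take h2 hj.le, D.pathOK_bit h2 hj]

theorem ch_eq {s : ℕ × ℕ} {t : ℕ} (h : D.Lab s t) :
    D.ch s t = D.step1 (D.pp s (lj t)) (!D.pb (D.pp s (lj t))) :=
  D.RA5_ch h.1 h.2.1

theorem nd_ne [Nontrivial B] {γ : List ℕ} (h : D.U γ) : ν (D.nd γ).1 ≠ ⊥ := by
  cases γ with
  | nil =>
    show ν D.top ≠ ⊥
    rw [D.ν_top]
    exact top_ne_bot
  | cons t γ => exact (D.Q_iff _).2 ⟨lhd t, h.2.2.2⟩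

/-- the literal -/
noncomputable def RA5_e (ν : ℕ → B) (n : ℕ) (b : Bool) : B := if b = true then ν n else (ν n)ᶜ

theorem RA5_e_not (n : ℕ) (b : Bool) : RA5_e ν n (!b) = (RA5_e ν n b)ᶜ := by
  unfold RA5_e
  cases b
  · simp
  · simp

theorem RA5_step (s : ℕ × ℕ) (b : Bool) : ν (D.step1 s b).1 = ν s.1 ⊓ RA5_e ν s.2 b := D.ν_sp _ _ _

theorem RA5_dec {x c : B} (n : ℕ) (b : Bool) (hx : x = c ⊓ RA5_e ν n b) : x ≤ ν n ∨ x ≤ (ν n)ᶜ := by
  unfold RA5_e at hx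
  cases b
  · right
    rw [hx]
    exact inf_le_right
  · left
    rw [hx]
    exact inf_le_right

theorem RA5_d_anti (s : ℕ × ℕ) (j : ℕ) : ν (D.pp s (j + 1)).1 ≤ ν (D.pp s j).1 := by
  show ν (D.step1 (D.pp s j) (D.pb (D.pp s j))).1 ≤ _
  rw [D.RA5_step]
  exact inf_le_left

theorem RA5_child {t : ℕ} {γ : List ℕ} (h : D.U (t :: γ)) :
    ν (D.nd (t :: γ)).1 = ν (D.pp (D.nd γ) (lj t)).1 ⊓
      RA5_e ν ((D.nd γ).2 + lj t) (!D.pb (D.pp (D.nd γ) (lj t))) := by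
  show ν (D.ch (D.nd γ) t).1 = _
  rw [D.ch_eq h.2, D.RA5_step, D.pp_snd]

theorem RA5_succ (s : ℕ × ℕ) (j : ℕ) :
    ν (D.pp s (j + 1)).1 = ν (D.pp s j).1 ⊓ RA5_e ν (s.2 + j) (D.pb (D.pp s j)) := by
  show ν (D.step1 (D.pp s j) (D.pb (D.pp s j))).1 = _
  rw [D.RA5_step, D.pp_snd]

theorem RA5_lv {t : ℕ} {γ : List ℕ} (h : D.U (t :: γ)) :
    (D.nd (t :: γ)).2 = (D.nd γ).2 + lj t + 1 := by
  show (D.ch (D.nd γ) t).2 = _
  rw [D.ch_eq h.2]
  show (D.pp (D.nd γ) (lj t)).2 + 1 = _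
  rw [D.pp_snd]

theorem RA5_dec_step {s : ℕ × ℕ} (h0 : ∀ n, n < s.2 → ν s.1 ≤ ν n ∨ ν s.1 ≤ (ν n)ᶜ) (j : ℕ) :
    ∀ n, n < s.2 + j → ν (D.pp s j).1 ≤ ν n ∨ ν (D.pp s j).1 ≤ (ν n)ᶜ := by
  induction j with
  | zero => exact h0
  | succ j ih =>
    intro n hn
    rcases Nat.lt_or_ge n (s.2 + j) with h | h
    · rcases ih n h with h1 | h1
      · exact Or.inl ((D.RA5_d_anti s j).trans h1)
      · exact Or.inr ((D.RA5_d_anti s j).trans h1)
    · have hn' : n = s.2 + j := by omega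
      subst hn'
      exact RA5_dec _ _ (D.RA5_succ s j)

theorem RA5_decide (γ : List ℕ) (h : D.U γ) :
    ∀ n, n < (D.nd γ).2 → ν (D.nd γ).1 ≤ ν n ∨ ν (D.nd γ).1 ≤ (ν n)ᶜ := by
  induction γ with
  | nil =>
    intro n hn
    exact absurd hn (Nat.not_lt_zero n)
  | cons t γ ih =>
    intro n hn
    rw [D.RA5_lv h] at hn
    rcases Nat.lt_or_ge n ((D.nd γ).2 + lj t) with h1 | h1
    · have h2 : ν (D.nd (t :: γ)).1 ≤ ν (D.pp (D.nd γ) (lj t)).1 := by
        rw [D.RA5_child h]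
        exact inf_le_left
      rcases D.RA5_dec_step (ih h.1) (lj t) n h1 with h3 | h3
      · exact Or.inl (h2.trans h3)
      · exact Or.inr (h2.trans h3)
    · have hn' : n = (D.nd γ).2 + lj t := by omega
      subst hn'
      exact RA5_dec _ _ (D.RA5_child h)

theorem RA5_list {t : ℕ} (h : ltl t ≠ []) : Denumerable.ofNat (List ℕ) t = lhd t :: ltl t := by
  unfold lhd
  unfold ltl at h ⊢
  cases hl : Denumerable.ofNat (List ℕ) t with
  | nil =>
    rw [hl] at h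
    exact absurd rfl h
  | cons a l => rfl

theorem RA5_inj {γ : List ℕ} {t t' : ℕ} (h : D.U (t :: γ)) (h' : D.U (t' :: γ))
    (hj : lj t = lj t') : t = t' := by
  have hl : 0 < (ltl t).length := List.length_pos_iff.2 h.2.1
  have hl' : 0 < (ltl t').length := List.length_pos_iff.2 h'.2.1
  have hlen : (ltl t).length = (ltl t').length := by
    unfold lj at hj
    omega
  have htl : ltl t = ltl t' := D.pathOK_unique h.2.2.1 h'.2.2.1 hlen
  have hch : D.ch (D.nd γ) t = D.ch (D.nd γ) t' := by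
    rw [D.ch_eq h.2, D.ch_eq h'.2, hj]
  have hq := h'.2.2.2
  rw [← hch] at hq
  have hhd : lhd t = lhd t' := D.Q_uniq _ _ _ h.2.2.2 hq
  have e : Denumerable.ofNat (List ℕ) t = Denumerable.ofNat (List ℕ) t' := by
    rw [RA5_list h.2.1, RA5_list h'.2.1, htl, hhd]
  have e2 := congrArg Encodable.encode e
  rwa [Denumerable.encode_ofNat, Denumerable.encode_ofNat] at e2

theorem RA5_surj [Nontrivial B] {γ : List ℕ} {j : ℕ} (h : D.U γ)
    (hne : ν (D.pp (D.nd γ) (j + 1)).1 ≠ ν (D.pp (D.nd γ) j).1) :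
    ∃ t, D.U (t :: γ) ∧ lj t = j := by
  obtain ⟨us, hlen, hok⟩ := D.exists_pathOK (D.nd_ne h) (j + 1)
  have hx : ν (D.step1 (D.pp (D.nd γ) j) (!D.pb (D.pp (D.nd γ) j))).1 ≠ ⊥ := by
    intro h0
    apply hne
    rw [D.RA5_step, RA5_e_not, ← sdiff_eq, sdiff_eq_bot_iff] at h0
    show ν (D.step1 (D.pp (D.nd γ) j) (D.pb (D.pp (D.nd γ) j))).1 = _
    rw [D.RA5_step]
    exact inf_eq_left.2 h0
  obtain ⟨y, hy⟩ := (D.Q_iff _).1 hx
  have htl : ltl (Encodable.encode (y :: us)) = us := by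
    unfold ltl
    rw [Denumerable.ofNat_encode]
    rfl
  have hhd : lhd (Encodable.encode (y :: us)) = y := by
    unfold lhd
    rw [Denumerable.ofNat_encode]
    rfl
  have hlj : lj (Encodable.encode (y :: us)) = j := by
    unfold lj
    rw [htl, hlen]
    rfl
  have hne' : ltl (Encodable.encode (y :: us)) ≠ [] := by
    rw [htl]
    intro h0
    rw [h0] at hlen
    simp at hlen
  have hok' : D.pathOK (D.nd γ) (ltl (Encodable.encode (y :: us))) := by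
    rw [htl]
    exact hok
  refine ⟨Encodable.encode (y :: us), ⟨h, hne', hok', ?_⟩, hlj⟩
  rw [D.RA5_ch hne' hok', hlj, hhd]
  exact hy

end AD

/-- every nontrivial numerated `Pi_4` algebra has a tree basis with a `Pi_3` tree -/
theorem exists_TB {B : Type} [BooleanAlgebra B] [Nontrivial B] {ν : ℕ → B} (h : PiAlg 4 ν) :
    ∃ U : List ℕ → Prop, Pg 3 U ∧ Nonempty (TB ν U) := by
  obtain ⟨D⟩ := exists_AD h
  refine ⟨D.U, D.U_pg, ⟨{
    d := fun γ j => ν (D.pp (D.nd γ) j).1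
    lv := fun γ => (D.nd γ).2
    J := fun _ t => AD.lj t
    root := trivial
    tail := fun _ _ h => h.1
    d_root := D.ν_top
    lv_root := rfl
    d_ne := fun γ j h => D.pp_ne (D.nd_ne h) j
    d_anti := fun γ j _ => D.RA5_d_anti _ j
    child := ?_
    lv_child := fun t γ h => D.RA5_lv h
    J_inj := fun γ t t' h h' hj => D.RA5_inj h h' hj
    J_surj := fun γ j h hne => D.RA5_surj h hne
    decide := fun γ n j h hn => D.RA5_dec_step (D.RA5_decide γ h) j n hn }⟩⟩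
  intro t γ h
  show ν (D.nd (t :: γ)).1 = _
  rw [D.RA5_child h, D.RA5_succ, AD.RA5_e_not, sdiff_inf_self_left, sdiff_eq]

end Pool.Agent.LIN
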