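import Pool.Agent.LIN.RH6

/-! # [LIN-RB1] Positions

`U γ ↔ {w | S (γ, w)}` infinite, `S` in `Pi_1` (`Pg.inf`, `n = 1`).  Basic validity of `v : ℕ` (`w = v / 2`, DNC bit `v % 2`):
`P0 (γ, v) := S (γ, v / 2) ∧ ¬ ev γ.length γ.length (v % 2)`: `Pg 1`.  For every valid `w` at least one of `2 w`, `2 w + 1` is valid (`ev_unique`), so
`{v | P0 (γ, v)}` is infinite iff `U γ`.  Let `f` be the approximation of `P0` (`Pg.approx`), `cnt γ v s = ((List.range v).filter (fun v' => f ((γ, v'), s))).length`
(non-increasing in `s`, eventually the number `N γ v` of `v' < v` with `P0 (γ, v')`).  A position `c` codes `(v, i, s)` (`c.unpair.1 = v`, `c.unpair.2.unpair = (i, s)`):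
`Pos (γ, c) := P0 (γ, v) ∧ (∀ s' ≥ s, cnt γ v s' = i) ∧ (s = 0 ∨ cnt γ v (s - 1) ≠ i)`, `idx c = i`, `bit c = v % 2`.
Then `i = N γ v`, and `s` is determined by `γ, v` (least stage with `cnt = i`; `cnt` is monotone so from the first such stage on it is constant as `i` is its limit).
So `Pos (γ, ·)` is in bijection with the valid `v`, `idx` is the number of smaller valid `v'`: injective; if there are infinitely many valid `v` every `i` occurs. -/

namespace Pool.Agent.LIN

/-- combinatorial part: a stage approximation `f` (antitone) of a set `{v | ∀ s, f v s}` -/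
theorem exists_codes (f : ℕ → ℕ → Bool) (hf : ∀ v s s', s ≤ s' → f v s' = true → f v s = true) :
    ∀ cnt : ℕ → ℕ → ℕ, (∀ v s, cnt v s = ((List.range v).filter (fun v' => f v' s)).length) →
    ∀ Pos : ℕ → Prop, (∀ c, Pos c ↔ (∀ s, f c.unpair.1 s = true) ∧
      (∀ s' ≥ c.unpair.2.unpair.2, cnt c.unpair.1 s' = c.unpair.2.unpair.1) ∧
      (c.unpair.2.unpair.2 = 0 ∨ cnt c.unpair.1 (c.unpair.2.unpair.2 - 1) ≠ c.unpair.2.unpair.1)) →
    (∀ c c', Pos c → Pos c' → c.unpair.2.unpair.1 = c'.unpair.2.unpair.1 → c = c') ∧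
    ({v | ∀ s, f v s = true}.Infinite → ∀ i, ∃ c, Pos c ∧ c.unpair.2.unpair.1 = i) ∧
    ({v | ∀ s, f v s = true}.Finite → {c | Pos c}.Finite) := by
  classical
  intro cnt hcnt Pos hPos
  let V : ℕ → Prop := fun v => ∀ s, f v s = true
  have hc : ∀ v s, cnt v s = Nat.count (fun v' => f v' s = true) v := by
    intro v s
    rw [hcnt]
    induction v with
    | zero => simp
    | succ v ih =>
      rw [List.range_succ, List.filter_append, List.length_append, ih, Nat.count_succ]
      congr 1
      by_cases h : f v s = true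
      · simp [h]
      · simp [h]
  have hanti : ∀ v s s', s ≤ s' → cnt v s' ≤ cnt v s := by
    intro v s s' hss
    rw [hc, hc]
    exact Nat.count_mono_left (fun k _ hk => hf k s s' hss hk)
  have hge : ∀ v s, Nat.count V v ≤ cnt v s := by
    intro v s
    rw [hc]
    exact Nat.count_mono_left (fun k _ hk => hk s)
  have hlim : ∀ v, ∃ s0, cnt v s0 = Nat.count V v := by
    intro v
    have h1 : ∃ s0, ∀ v' < v, f v' s0 = true → V v' := by
      induction v with
      | zero => exact ⟨0, fun _ h => absurd h (Nat.not_lt_zero _)⟩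
      | succ v ih =>
        obtain ⟨s0, hs0⟩ := ih
        by_cases hv : V v
        · refine ⟨s0, fun v' hv' h => ?_⟩
          rcases Nat.lt_succ_iff_lt_or_eq.1 hv' with h2 | h2
          · exact hs0 v' h2 h
          · rw [h2]
            exact hv
        · have h3 : ∃ s1, f v s1 ≠ true := not_forall.1 hv
          obtain ⟨s1, hs1⟩ := h3
          refine ⟨max s0 s1, fun v' hv' h => ?_⟩
          rcases Nat.lt_succ_iff_lt_or_eq.1 hv' with h2 | h2
          · exact hs0 v' h2 (hf v' _ _ (le_max_left _ _) h)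
          · rw [h2] at h
            exact absurd (hf v _ _ (le_max_right _ _) h) hs1
    obtain ⟨s0, hs0⟩ := h1
    refine ⟨s0, le_antisymm ?_ (hge v s0)⟩
    rw [hc, Nat.count_eq_card_filter_range, Nat.count_eq_card_filter_range]
    apply Finset.card_le_card
    intro k hk
    rw [Finset.mem_filter] at hk ⊢
    exact ⟨hk.1, hs0 k (Finset.mem_range.1 hk.1) hk.2⟩
  have hval : ∀ v s i, (∀ s' ≥ s, cnt v s' = i) → i = Nat.count V v := by
    intro v s i h
    obtain ⟨s0, hs0⟩ := hlim v
    have h1 := h (max s s0) (le_max_left _ _)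
    rw [← h1]
    exact le_antisymm ((hanti v s0 _ (le_max_right _ _)).trans hs0.le) (hge v _)
  have huniq : ∀ c c', Pos c → Pos c' → c.unpair.2.unpair.1 = c'.unpair.2.unpair.1 → c = c' := by
    intro c c' h h' he
    obtain ⟨a1, a2, a3⟩ := (hPos c).1 h
    obtain ⟨b1, b2, b3⟩ := (hPos c').1 h'
    have e1 := hval _ _ _ a2
    have e2 := hval _ _ _ b2
    have hv : c.unpair.1 = c'.unpair.1 := by
      rcases lt_trichotomy c.unpair.1 c'.unpair.1 with h3 | h3 | h3
      · have h4 := Nat.count_strict_mono (p := V) a1 h3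
        omega
      · exact h3
      · have h4 := Nat.count_strict_mono (p := V) b1 h3
        omega
    have hs : c.unpair.2.unpair.2 = c'.unpair.2.unpair.2 := by
      rcases lt_trichotomy c.unpair.2.unpair.2 c'.unpair.2.unpair.2 with h3 | h3 | h3
      · exfalso
        rcases b3 with b3 | b3
        · omega
        · apply b3
          rw [← hv, ← he]
          exact a2 _ (by omega)
      · exact h3
      · exfalso
        rcases a3 with a3 | a3
        · omega
        · apply a3
          rw [hv, he]
          exact b2 _ (by omega)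
    calc c = Nat.pair c.unpair.1 (Nat.pair c.unpair.2.unpair.1 c.unpair.2.unpair.2) := by simp
      _ = Nat.pair c'.unpair.1 (Nat.pair c'.unpair.2.unpair.1 c'.unpair.2.unpair.2) := by rw [hv, he, hs]
      _ = c' := by simp
  refine ⟨huniq, ?_, ?_⟩
  · intro hinf i
    have hinf' : ({v | V v} : Set ℕ).Infinite := hinf
    have hv1 : V (Nat.nth V i) := Nat.nth_mem_of_infinite hinf' i
    have hv2 : Nat.count V (Nat.nth V i) = i := Nat.count_nth_of_infinite hinf' i
    have hex : ∃ s, cnt (Nat.nth V i) s = i := by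
      obtain ⟨s0, hs0⟩ := hlim (Nat.nth V i)
      exact ⟨s0, by rw [hs0, hv2]⟩
    refine ⟨Nat.pair (Nat.nth V i) (Nat.pair i (Nat.find hex)), ?_, ?_⟩
    · rw [hPos]
      simp only [Nat.unpair_pair]
      refine ⟨hv1, ?_, ?_⟩
      · intro s' hs'
        exact le_antisymm ((hanti _ _ _ hs').trans (Nat.find_spec hex).le) (hv2.symm.le.trans (hge _ s'))
      · rcases Nat.eq_zero_or_pos (Nat.find hex) with h0 | h0
        · exact Or.inl h0
        · exact Or.inr (Nat.find_min hex (by omega))
    · simp
  · intro hfin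
    refine Set.Finite.of_finite_image (f := fun c => c.unpair.1) (hfin.subset ?_) ?_
    · rintro _ ⟨c, hc', rfl⟩
      exact ((hPos c).1 hc').1
    · intro c h c' h' he
      obtain ⟨a1, a2, a3⟩ := (hPos c).1 h
      obtain ⟨b1, b2, b3⟩ := (hPos c').1 h'
      have e1 := hval _ _ _ a2
      have e2 := hval _ _ _ b2
      have he' : c.unpair.1 = c'.unpair.1 := he
      exact huniq c c' h h' (by rw [e1, e2, he'])

end Pool.Agent.LIN
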