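import Pool.Agent.LIN.RB1

/-! # [LIN-RB2] Positions, see the header of RB1 -/

namespace Pool.Agent.LIN

/-- Positions: a `Pi_1` predicate `Pos (γ, c)`, the index `idx c` of the child, the DNC bit `bit c`. -/
structure PosD (U : List ℕ → Prop) where
  Pos : List ℕ × ℕ → Prop
  idx : ℕ → ℕ
  bit : ℕ → ℕ
  Pos_pg : Pg 1 Pos
  idx_comp : Computable idx
  bit_comp : Computable bit
  dnc : ∀ γ c, Pos (γ, c) → ¬ ev γ.length γ.length (bit c)
  all : ∀ γ, U γ → ∀ i, ∃ c, Pos (γ, c) ∧ idx c = i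
  fin : ∀ γ, ¬ U γ → {c | Pos (γ, c)}.Finite
  inj : ∀ γ c c', Pos (γ, c) → Pos (γ, c') → idx c = idx c' → c = c'

theorem cp_eq {α : Type} [Primcodable α] {g h : α → ℕ} (hg : Computable g) (hh : Computable h) :
    ComputablePred (fun a => g a = h a) := by
  obtain ⟨hd, hp⟩ : PrimrecPred (fun p : ℕ × ℕ => p.1 = p.2) := Primrec.eq.comp Primrec.fst Primrec.snd
  exact ⟨fun a => hd (g a, h a), (hp.to_comp).comp (hg.pair hh)⟩

theorem cp_le {α : Type} [Primcodable α] {g h : α → ℕ} (hg : Computable g) (hh : Computable h) :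
    ComputablePred (fun a => g a ≤ h a) := by
  obtain ⟨hd, hp⟩ : PrimrecPred (fun p : ℕ × ℕ => p.1 ≤ p.2) := Primrec.nat_le.comp Primrec.fst Primrec.snd
  exact ⟨fun a => hd (g a, h a), (hp.to_comp).comp (hg.pair hh)⟩

/-- the number of the positions below `v` at the stage `s` -/
def cntF (f : (List ℕ × ℕ) × ℕ → Bool) (x : (List ℕ × ℕ) × ℕ) : ℕ :=
  Nat.rec 0 (fun k c => c + cond (f ((x.1.1, k), x.2)) 1 0) x.1.2

theorem cntF_comp {f : (List ℕ × ℕ) × ℕ → Bool} (hf : Computable f) : Computable (cntF f) := by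
  refine Computable.nat_rec (f := fun x : (List ℕ × ℕ) × ℕ => x.1.2) (g := fun _ => 0)
    (h := fun x y => y.2 + cond (f ((x.1.1, y.1), x.2)) 1 0) (Computable.snd.comp Computable.fst)
    (Computable.const 0) ?_
  have h1 : Computable (fun z : ((List ℕ × ℕ) × ℕ) × (ℕ × ℕ) => f ((z.1.1.1, z.2.1), z.1.2)) := by
    refine hf.comp (Computable.pair (Computable.pair ?_ ?_) ?_)
    · exact Computable.fst.comp (Computable.fst.comp Computable.fst)
    · exact Computable.fst.comp Computable.snd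
    · exact Computable.snd.comp Computable.fst
  have h2 : Computable (fun z : ((List ℕ × ℕ) × ℕ) × (ℕ × ℕ) => cond (f ((z.1.1.1, z.2.1), z.1.2)) 1 0) :=
    Computable.cond h1 (Computable.const 1) (Computable.const 0)
  exact (Primrec.nat_add.to_comp).comp (Computable.snd.comp Computable.snd) h2

theorem cntF_eq (f : (List ℕ × ℕ) × ℕ → Bool) (γ : List ℕ) (v s : ℕ) :
    cntF f ((γ, v), s) = ((List.range v).filter (fun v' => f ((γ, v'), s))).length := by
  induction v with
  | zero => rfl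
  | succ v ih =>
    have h1 : cntF f ((γ, v + 1), s) = cntF f ((γ, v), s) + cond (f ((γ, v), s)) 1 0 := rfl
    rw [h1, ih, List.range_succ, List.filter_append, List.length_append]
    congr 1
    cases h : f ((γ, v), s)
    · simp [h]
    · simp [h]

/-- See the header of RB1: `Pg.inf`, `ev_Sg`, `Pg.approx`, `exists_codes` (for each `γ`). -/
theorem exists_PosD {U : List ℕ → Prop} (hU : Pg 3 U) : Nonempty (PosD U) := by
  classical
  obtain ⟨S, hS, hUS⟩ := Pg.inf (n := 1) hU
  let P0 : List ℕ × ℕ → Prop := fun x => S (x.1, x.2 / 2) ∧ ¬ ev x.1.length x.1.length (x.2 % 2)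
  have hlen : Computable (fun x : List ℕ × ℕ => x.1.length) := (Primrec.list_length.to_comp).comp Computable.fst
  have hP0 : Pg 1 P0 := by
    refine Pg.and (Pg.comp hS (f := fun x : List ℕ × ℕ => (x.1, x.2 / 2)) ?_)
      (Sg.not (Sg.comp ev_Sg (f := fun x : List ℕ × ℕ => ((x.1.length, x.1.length), x.2 % 2)) ?_))
    · exact Computable.fst.pair ((Primrec.nat_div.to_comp).comp Computable.snd (Computable.const 2))
    · exact (hlen.pair hlen).pair ((Primrec.nat_mod.to_comp).comp Computable.snd (Computable.const 2))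
  obtain ⟨f, hf, hf1, hf2⟩ := Pg.approx hP0
  have hinf : ∀ γ, {w | S (γ, w)}.Infinite → {v | P0 (γ, v)}.Infinite := by
    intro γ hw
    have hb : ∀ w, ∃ v, v / 2 = w ∧ ¬ ev γ.length γ.length (v % 2) := by
      intro w
      by_cases h0 : ev γ.length γ.length 0
      · refine ⟨2 * w + 1, by omega, fun h1 => ?_⟩
        have h2 : (2 * w + 1) % 2 = 1 := by omega
        rw [h2] at h1
        exact absurd (ev_unique h0 h1) (by omega)
      · refine ⟨2 * w, by omega, ?_⟩
        have h2 : (2 * w) % 2 = 0 := by omega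
        rw [h2]
        exact h0
    choose g hg1 hg2 using hb
    refine Set.infinite_of_injOn_mapsTo (f := g) ?_ ?_ hw
    · intro w _ w' _ h
      rw [← hg1 w, ← hg1 w', h]
    · intro w hw'
      refine ⟨?_, hg2 w⟩
      show S (γ, g w / 2)
      rw [hg1]
      exact hw'
  have hfin : ∀ γ, {w | S (γ, w)}.Finite → {v | P0 (γ, v)}.Finite := by
    intro γ hw
    refine ((hw.image (fun w => 2 * w)).union (hw.image (fun w => 2 * w + 1))).subset ?_
    rintro v ⟨hv, -⟩
    rcases Nat.mod_two_eq_zero_or_one v with h | h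
    · exact Or.inl ⟨v / 2, hv, by show 2 * (v / 2) = v; omega⟩
    · exact Or.inr ⟨v / 2, hv, by show 2 * (v / 2) + 1 = v; omega⟩
  let Pos : List ℕ × ℕ → Prop := fun x => P0 (x.1, x.2.unpair.1) ∧
    ((∀ s', (x.2.unpair.2.unpair.2 ≤ s' → cntF f ((x.1, x.2.unpair.1), s') = x.2.unpair.2.unpair.1)) ∧
    (x.2.unpair.2.unpair.2 = 0 ∨
      ¬ (cntF f ((x.1, x.2.unpair.1), x.2.unpair.2.unpair.2 - 1) = x.2.unpair.2.unpair.1)))
  have hun : Computable (fun c : ℕ => c.unpair) := Primrec.unpair.to_comp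
  have h1 : Computable (fun x : List ℕ × ℕ => x.2.unpair.1) := Computable.fst.comp (hun.comp Computable.snd)
  have h2 : Computable (fun x : List ℕ × ℕ => x.2.unpair.2) := Computable.snd.comp (hun.comp Computable.snd)
  have h3 : Computable (fun x : List ℕ × ℕ => x.2.unpair.2.unpair.1) := Computable.fst.comp (hun.comp h2)
  have h4 : Computable (fun x : List ℕ × ℕ => x.2.unpair.2.unpair.2) := Computable.snd.comp (hun.comp h2)
  have hPos : Pg 1 Pos := by
    refine Pg.and (Pg.comp hP0 (f := fun x : List ℕ × ℕ => (x.1, x.2.unpair.1)) (Computable.fst.pair h1)) ?_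
    refine Pg.and ?_ ?_
    · refine Pg.all_of_Sg (n := 0) (q := fun y : (List ℕ × ℕ) × ℕ => y.1.2.unpair.2.unpair.2 ≤ y.2 →
        cntF f ((y.1.1, y.1.2.unpair.1), y.2) = y.1.2.unpair.2.unpair.1) ?_
      refine Sg.imp (Pg.of_computable (cp_le (h4.comp Computable.fst) Computable.snd))
        (Sg.of_computable (cp_eq ?_ (h3.comp Computable.fst)))
      exact (cntF_comp hf).comp (((Computable.fst.comp Computable.fst).pair (h1.comp Computable.fst)).pair
        Computable.snd)
    · refine Pg.or (Pg.of_computable (cp_eq h4 (Computable.const 0))) (Sg.not (Sg.of_computable (cp_eq ?_ h3)))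
      refine (cntF_comp hf).comp (Computable.pair (Computable.fst.pair h1) ?_)
      exact (Primrec.nat_sub.to_comp).comp h4 (Computable.const 1)
  have key : ∀ γ : List ℕ,
      (∀ c c', Pos (γ, c) → Pos (γ, c') → c.unpair.2.unpair.1 = c'.unpair.2.unpair.1 → c = c') ∧
      ({v | ∀ s, f ((γ, v), s) = true}.Infinite → ∀ i, ∃ c, Pos (γ, c) ∧ c.unpair.2.unpair.1 = i) ∧
      ({v | ∀ s, f ((γ, v), s) = true}.Finite → {c | Pos (γ, c)}.Finite) := by
    intro γ
    refine exists_codes (fun v s => f ((γ, v), s)) (fun v s s' hss h => hf2 _ _ _ hss h)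
      (fun v s => cntF f ((γ, v), s)) (fun v s => cntF_eq f γ v s) (fun c => Pos (γ, c)) ?_
    intro c
    show P0 (γ, c.unpair.1) ∧ _ ↔ _
    rw [hf1]
  have hset : ∀ γ : List ℕ, {v | ∀ s, f ((γ, v), s) = true} = {v | P0 (γ, v)} := by
    intro γ
    ext v
    exact (hf1 (γ, v)).symm
  refine ⟨⟨Pos, fun c => c.unpair.2.unpair.1, fun c => c.unpair.1 % 2, hPos, ?_, ?_, ?_, ?_, ?_, ?_⟩⟩
  · exact Computable.fst.comp (hun.comp (Computable.snd.comp hun))
  · exact (Primrec.nat_mod.to_comp).comp (Computable.fst.comp hun) (Computable.const 2)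
  · intro γ c h
    exact h.1.2
  · intro γ hγ i
    refine (key γ).2.1 ?_ i
    rw [hset]
    exact hinf γ ((hUS γ).1 hγ)
  · intro γ hγ
    refine (key γ).2.2 ?_
    rw [hset]
    refine hfin γ ?_
    by_contra hn
    exact hγ ((hUS γ).2 hn)
  · intro γ c c' h h' he
    exact (key γ).1 c c' h h' he

end Pool.Agent.LIN
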