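import Pool.Agent.LIN.Iface

/-! # [LIN-RB3] Parsing binary strings into blocks `0^c 1`

`prs τ` = (the reversed list of the complete blocks of `τ`, number of trailing zeros). -/

namespace Pool.Agent.LIN

/-- read one more bit -/
def stp (s : List ℕ × ℕ) (b : Bool) : List ℕ × ℕ := if b = true then (s.2 :: s.1, 0) else (s.1, s.2 + 1)

/-- parse a string -/
def prs (τ : List Bool) : List ℕ × ℕ := τ.foldl stp ([], 0)

/-- the string of a (reversed) list of blocks -/
def str : List ℕ → List Bool
  | [] => []
  | c :: cs => str cs ++ (List.replicate c false ++ [true])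

/-- the string of a list of blocks followed by zeros -/
def ptc (cs : List ℕ) : ℕ → Bool := fun n => (str cs).getD n false

theorem prs_append (τ : List Bool) (b : Bool) : prs (τ ++ [b]) = stp (prs τ) b := by
  simp [prs, List.foldl_append]

theorem prs_append_zeros (τ : List Bool) (m : ℕ) :
    prs (τ ++ List.replicate m false) = ((prs τ).1, (prs τ).2 + m) := by
  induction m with
  | zero => simp
  | succ m ih =>
    rw [List.replicate_succ', ← List.append_assoc, prs_append, ih]
    simp [stp, Nat.add_assoc]

theorem prs_str (cs : List ℕ) (m : ℕ) : prs (str cs ++ List.replicate m false) = (cs, m) := by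
  rw [prs_append_zeros]
  induction cs with
  | nil => simp [str, prs]
  | cons c cs ih =>
    have h1 : prs (str (c :: cs)) = (c :: cs, 0) := by
      have h2 : str (c :: cs) = (str cs ++ List.replicate c false) ++ [true] := by
        simp [str, List.append_assoc]
      have h3 : prs (str cs) = (cs, 0) := by
        have h4 := (Prod.ext_iff.1 ih)
        have h5 : (prs (str cs)).1 = cs := h4.1
        have h6 : (prs (str cs)).2 + m = m := h4.2
        exact Prod.ext h5 (by show (prs (str cs)).2 = 0; omega)
      rw [h2, prs_append, prs_append_zeros, h3]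
      simp [stp]
    rw [h1]
    simp

theorem str_prs (τ : List Bool) : str (prs τ).1 ++ List.replicate (prs τ).2 false = τ := by
  induction τ using List.reverseRecOn with
  | nil => simp [prs, str]
  | append_singleton τ b ih =>
    rw [prs_append]
    cases b
    · have h1 : stp (prs τ) false = ((prs τ).1, (prs τ).2 + 1) := by simp [stp]
      rw [h1]
      show str (prs τ).1 ++ List.replicate ((prs τ).2 + 1) false = τ ++ [false]
      rw [List.replicate_succ', ← List.append_assoc, ih]
    · have h1 : stp (prs τ) true = ((prs τ).2 :: (prs τ).1, 0) := by simp [stp]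
      rw [h1]
      show str ((prs τ).2 :: (prs τ).1) ++ List.replicate 0 false = τ ++ [true]
      rw [str, List.replicate_zero, List.append_nil, ← List.append_assoc, ih]

/-- the blocks of a prefix are a suffix of the (reversed) list of blocks -/
theorem prs_suffix {τ τ' : List Bool} (h : τ <+: τ') : (prs τ).1 <:+ (prs τ').1 := by
  obtain ⟨t, rfl⟩ := h
  induction t using List.reverseRecOn with
  | nil => simp
  | append_singleton t b ih =>
    rw [← List.append_assoc, prs_append]
    refine ih.trans ?_
    cases b
    · simp [stp]
    · have h1 : (stp (prs (τ ++ t)) true).1 = (prs (τ ++ t)).2 :: (prs (τ ++ t)).1 := by simp [stp]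
      rw [h1]
      exact List.suffix_cons _ _

theorem str_prefix {cs cs' : List ℕ} (h : cs <:+ cs') : str cs <+: str cs' := by
  obtain ⟨l, rfl⟩ := h
  induction l with
  | nil => simp
  | cons a l ih =>
    refine ih.trans ?_
    show str (l ++ cs) <+: str (l ++ cs) ++ (List.replicate a false ++ [true])
    exact List.prefix_append _ _

theorem prs_comp : Computable prs := by
  have h : Primrec₂ (fun (_ : List Bool) (x : (List ℕ × ℕ) × Bool) => stp x.1 x.2) := by
    have h1 : Primrec (fun x : List Bool × ((List ℕ × ℕ) × Bool) =>
        if x.2.2 = true then (x.2.1.2 :: x.2.1.1, 0) else (x.2.1.1, x.2.1.2 + 1)) := by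
      refine Primrec.ite (Primrec.eq.comp (Primrec.snd.comp Primrec.snd) (Primrec.const true)) ?_ ?_
      · exact Primrec.pair (Primrec.list_cons.comp (Primrec.snd.comp (Primrec.fst.comp Primrec.snd))
          (Primrec.fst.comp (Primrec.fst.comp Primrec.snd))) (Primrec.const 0)
      · exact Primrec.pair (Primrec.fst.comp (Primrec.fst.comp Primrec.snd))
          (Primrec.succ.comp (Primrec.snd.comp (Primrec.fst.comp Primrec.snd)))
    exact h1
  have h2 : Primrec (fun τ : List Bool => τ.foldl (fun s b => stp s b) (([], 0) : List ℕ × ℕ)) :=
    Primrec.list_foldl Primrec.id (Primrec.const (([], 0) : List ℕ × ℕ)) h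
  exact h2.to_comp

theorem str_comp : Computable str := by
  have hrep : Primrec (fun c : ℕ => List.replicate c false) := by
    have h1 : Primrec (fun c : ℕ => (List.range c).map (fun _ => false)) :=
      Primrec.list_map Primrec.list_range (Primrec.const false)
    refine h1.of_eq (fun c => ?_)
    simp
  have h : Primrec₂ (fun (_ : List ℕ) (x : ℕ × List Bool) =>
      x.2 ++ (List.replicate x.1 false ++ [true])) := by
    have h1 : Primrec (fun x : List ℕ × (ℕ × List Bool) =>
        x.2.2 ++ (List.replicate x.2.1 false ++ [true])) :=
      Primrec.list_append.comp (Primrec.snd.comp Primrec.snd)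
        (Primrec.list_append.comp (hrep.comp (Primrec.fst.comp Primrec.snd)) (Primrec.const [true]))
    exact h1
  have h2 : Primrec (fun cs : List ℕ =>
      cs.foldr (fun c acc => acc ++ (List.replicate c false ++ [true])) ([] : List Bool)) :=
    Primrec.list_foldr Primrec.id (Primrec.const ([] : List Bool)) h
  refine (h2.of_eq fun cs => ?_).to_comp
  induction cs with
  | nil => rfl
  | cons c cs ih =>
    rw [List.foldr_cons, ih]
    rfl

theorem pre_length (X : ℕ → Bool) (n : ℕ) : (pre X n).length = n := by
  simp [pre]

theorem pre_succ (X : ℕ → Bool) (n : ℕ) : pre X (n + 1) = pre X n ++ [X n] := by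
  simp [pre, List.range_succ]

theorem pre_prefix (X : ℕ → Bool) {m n : ℕ} (h : m ≤ n) : pre X m <+: pre X n := by
  obtain ⟨k, rfl⟩ := Nat.exists_eq_add_of_le h
  clear h
  induction k with
  | zero => exact List.prefix_rfl
  | succ k ih =>
    rw [← Nat.add_assoc, pre_succ]
    exact ih.trans (List.prefix_append _ _)

/-- prefixes of `ptc cs` -/
theorem pre_ptc (cs : List ℕ) (m : ℕ) :
    pre (ptc cs) ((str cs).length + m) = str cs ++ List.replicate m false := by
  apply List.ext_getElem
  · rw [pre_length]; simp
  · intro i h1 h2
    have h3 : (pre (ptc cs) ((str cs).length + m))[i] = (str cs).getD i false := by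
      simp [pre, ptc]
    rw [h3]
    by_cases hi : i < (str cs).length
    · rw [List.getElem_append_left hi, List.getD_eq_getElem _ _ hi]
    · rw [List.getElem_append_right (by omega), List.getD_eq_default _ _ (by omega)]
      simp

theorem pre_eq_iff (X Y : ℕ → Bool) (n : ℕ) : pre X n = pre Y n ↔ ∀ i < n, X i = Y i := by
  constructor
  · intro h i hi
    have h1 : (pre X n)[i]? = (pre Y n)[i]? := by rw [h]
    simpa [pre, hi] using h1
  · intro h
    unfold pre
    refine List.map_congr_left fun i hi => ?_
    exact h i (List.mem_range.1 hi)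

/-- the blocks of the prefixes of `ptc cs` -/
theorem prs_pre_ptc_suffix (cs : List ℕ) (n : ℕ) : (prs (pre (ptc cs) n)).1 <:+ cs := by
  have h1 : pre (ptc cs) n <+: pre (ptc cs) ((str cs).length + n) := pre_prefix _ (by omega)
  have h2 := prs_suffix h1
  rw [pre_ptc, prs_str] at h2
  exact h2

end Pool.Agent.LIN
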