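import Pool.Agent.LIN.RB2
import Pool.Agent.LIN.RB3

/-! # [LIN-RB4] The `Pi_1` class of valid sequences of blocks

`Val cs`: every block is a valid position at the node given by the indices of the earlier blocks.
`R τ := ∀ i < cs.length, f (((cs.drop (i+1)).map idx, cs.getD i 0), τ.length) = true` with `cs = (prs τ).1` and `f` the approximation of `Pos` (`Pg.approx`).
`∀ n, R (pre X n)` iff `∀ n, Val (prs (pre X n)).1`: for `n ≤ s` the blocks of `pre X n` are a suffix of those of `pre X s` (`prs_suffix`), so all `f (.., s) = true` for all `s ≥ n`, and `f` is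
antitone in `s`. -/

namespace Pool.Agent.LIN

theorem RB4_map {g : ℕ → ℕ} (hg : Computable g) : Computable (fun l : List ℕ => l.map g) := by
  have h1 : Computable (fun l : List ℕ => (Nat.rec (motive := fun _ => List ℕ) []
      (fun k acc => acc ++ [g (l.getD k 0)]) l.length : List ℕ)) := by
    refine Computable.nat_rec (f := fun l : List ℕ => l.length) (g := fun _ : List ℕ => ([] : List ℕ))
      (h := fun (l : List ℕ) (p : ℕ × List ℕ) => p.2 ++ [g (l.getD p.1 0)])
      Computable.list_length (Computable.const []) ?_
    have h2 : Computable (fun x : List ℕ × (ℕ × List ℕ) => x.1.getD x.2.1 0) :=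
      (Primrec.list_getD 0).to_comp.comp Computable.fst (Computable.fst.comp Computable.snd)
    exact (Computable.list_concat.comp (Computable.snd.comp Computable.snd) (hg.comp h2)).to₂
  refine h1.of_eq fun l => ?_
  have h2 : ∀ n, n ≤ l.length → (Nat.rec (motive := fun _ => List ℕ) []
      (fun k acc => acc ++ [g (l.getD k 0)]) n : List ℕ) = (l.take n).map g := by
    intro n
    induction n with
    | zero =>
      intro _
      rw [List.take_zero]
      rfl
    | succ n ih =>
      intro hn
      have h3 : l.take (n + 1) = l.take n ++ [l.getD n 0] := by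
        have h4 : n < l.length := by omega
        rw [List.take_succ_eq_append_getElem h4, List.getD_eq_getElem l 0 h4]
      rw [h3, List.map_append, ← ih (by omega)]
      rfl
  rw [h2 _ le_rfl, List.take_length]

variable {U : List ℕ → Prop}

namespace PosD

/-- valid lists of blocks -/
def Val (P : PosD U) : List ℕ → Prop
  | [] => True
  | c :: cs => Val P cs ∧ P.Pos (cs.map P.idx, c)

theorem Val_suffix (P : PosD U) {cs cs' : List ℕ} (h : cs <:+ cs') (h' : P.Val cs') : P.Val cs := by
  induction cs' with
  | nil =>
    rw [List.suffix_nil] at h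
    rw [h]
    exact trivial
  | cons c cs' ih =>
    rcases List.suffix_cons_iff.1 h with h1 | h1
    · rw [h1]
      exact h'
    · exact ih h1 h'.1

theorem Val_iff (P : PosD U) (cs : List ℕ) : P.Val cs ↔
    ∀ i < cs.length, P.Pos ((cs.drop (i + 1)).map P.idx, cs.getD i 0) := by
  induction cs with
  | nil =>
    refine ⟨fun _ i hi => absurd hi (Nat.not_lt_zero i), fun _ => trivial⟩
  | cons c cs ih =>
    refine ⟨fun h i hi => ?_, fun h => ⟨ih.2 fun i hi => ?_, ?_⟩⟩
    · cases i with
      | zero => exact h.2
      | succ i => exact ih.1 h.1 i (Nat.lt_of_succ_lt_succ hi)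
    · exact h (i + 1) (Nat.succ_lt_succ hi)
    · exact h 0 (Nat.succ_pos _)

theorem exists_R (P : PosD U) : ∃ R : List Bool → Prop, ComputablePred R ∧
    ∀ X : ℕ → Bool, (∀ n, R (pre X n)) ↔ ∀ n, P.Val (prs (pre X n)).1 := by
  obtain ⟨f, hf, hPos, hanti⟩ := P.Pos_pg.approx
  refine ⟨fun τ => ∀ i < (prs τ).1.length,
    f ((((prs τ).1.drop (i + 1)).map P.idx, (prs τ).1.getD i 0), τ.length) = true, ?_, ?_⟩
  · have hp : Computable (fun x : List Bool × ℕ => (prs x.1).1) :=
      Computable.fst.comp (prs_comp.comp Computable.fst)
    have h1 : Computable (fun x : List Bool × ℕ => (prs x.1).1.drop (x.2 + 1)) :=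
      Primrec.list_drop.to_comp.comp (Computable.succ.comp Computable.snd) hp
    have h2 : Computable (fun x : List Bool × ℕ => ((prs x.1).1.drop (x.2 + 1)).map P.idx) :=
      (RB4_map P.idx_comp).comp h1
    have h3 : Computable (fun x : List Bool × ℕ => (prs x.1).1.getD x.2 0) :=
      (Primrec.list_getD 0).to_comp.comp hp Computable.snd
    have h4 : Computable (fun x : List Bool × ℕ =>
        f ((((prs x.1).1.drop (x.2 + 1)).map P.idx, (prs x.1).1.getD x.2 0), x.1.length)) :=
      hf.comp ((h2.pair h3).pair (Computable.list_length.comp Computable.fst))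
    have h5 : Sg 0 (fun x : List Bool × ℕ =>
        f ((((prs x.1).1.drop (x.2 + 1)).map P.idx, (prs x.1).1.getD x.2 0), x.1.length) = true) :=
      ComputablePred.computable_iff.2 ⟨_, h4, rfl⟩
    exact Sg.ball h5 (Computable.list_length.comp (Computable.fst.comp prs_comp))
  · intro X
    constructor
    · intro h n
      rw [P.Val_iff]
      intro i hi
      rw [hPos]
      intro s
      obtain ⟨l, hl⟩ := prs_suffix (pre_prefix X (le_max_left n s))
      have h1 := h (max n s) (l.length + i) (by
        rw [← hl, List.length_append]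
        omega)
      rw [← hl, pre_length] at h1
      have h2 : (l ++ (prs (pre X n)).1).drop (l.length + i + 1) =
          (prs (pre X n)).1.drop (i + 1) := by
        rw [add_assoc, List.drop_append]
        simp
      have h3 : (l ++ (prs (pre X n)).1).getD (l.length + i) 0 = (prs (pre X n)).1.getD i 0 := by
        rw [List.getD_append_right _ _ _ _ (Nat.le_add_right _ _), Nat.add_sub_cancel_left]
      rw [h2, h3] at h1
      exact hanti _ _ _ (le_max_right n s) h1
    · intro h n i hi
      exact (hPos _).1 ((P.Val_iff _).1 (h n) i hi) _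

/-- a list of valid blocks is determined by its node -/
theorem Val_inj (P : PosD U) {cs cs' : List ℕ} (h : P.Val cs) (h' : P.Val cs')
    (he : cs.map P.idx = cs'.map P.idx) : cs = cs' := by
  induction cs generalizing cs' with
  | nil =>
    rw [List.map_nil] at he
    exact (List.map_eq_nil_iff.1 he.symm).symm
  | cons c cs ih =>
    cases cs' with
    | nil => exact absurd he (by simp)
    | cons c' cs' =>
      rw [List.map_cons, List.map_cons] at he
      injection he with h1 h2
      have h3 := ih h.1 h'.1 h2
      subst h3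
      rw [P.inj _ _ _ h.2 h'.2 h1]

/-- every node of `U` is the node of a valid list of blocks -/
theorem exists_Val (P : PosD U) (ht : ∀ t γ, U (t :: γ) → U γ) {γ : List ℕ} (h : U γ) :
    ∃ cs, P.Val cs ∧ cs.map P.idx = γ := by
  induction γ with
  | nil => exact ⟨[], trivial, rfl⟩
  | cons t γ ih =>
    obtain ⟨cs, h1, h2⟩ := ih (ht t γ h)
    obtain ⟨c, h3, h4⟩ := P.all γ (ht t γ h) t
    refine ⟨c :: cs, ⟨h1, ?_⟩, ?_⟩
    · rw [h2]
      exact h3
    · rw [List.map_cons, h2, h4]

end PosD

end Pool.Agent.LIN
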