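import Pool.Agent.LIN.RB4

/-! # [LIN-RB5] Computable points of the class have finitely many blocks

Suppose `X` is computable, all `Val (prs (pre X n)).1`, and `X n = true` for infinitely many `n`.  The number of blocks of `pre X n` is unbounded; `F k := bit` of the block number `k` (counted from 0, i.e.
the entry of the reversed list `cs` at position `cs.length - 1 - k`, for any `n` with more than `k` blocks; it does not depend on `n` by `prs_suffix`).  `F` is computable (search for `n`:
`Partrec` with `Nat.rfind`, or `Computable` via `Partrec.of_eq`).  `exists_ev` gives `e` with `ev e x (F x)` for all `x`.  Take `n` with more than `e` blocks: the suffix `c :: cs'` of `cs`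
with `cs'.length = e` is valid, so `Pos (cs'.map idx, c)` and by `dnc` (`(cs'.map idx).length = e`) `¬ ev e e (bit c)`; but `bit c = F e`. -/

namespace Pool.Agent.LIN

variable {U : List ℕ → Prop}

theorem rb5_pre_comp {X : ℕ → Bool} (hX : Computable X) : Computable (pre X) := by
  have h : Computable fun n : ℕ => (Nat.rec ([] : List Bool)
      (fun y IH => IH ++ [X y]) n : List Bool) := by
    refine Computable.nat_rec (f := fun n : ℕ => n) (g := fun _ => ([] : List Bool))
      (h := fun _ (p : ℕ × List Bool) => p.2 ++ [X p.1]) Computable.id (Computable.const _) ?_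
    have h1 : Computable fun q : ℕ × (ℕ × List Bool) => q.2.2 :=
      Computable.snd.comp Computable.snd
    have h2 : Computable fun q : ℕ × (ℕ × List Bool) => X q.2.1 :=
      hX.comp (Computable.fst.comp Computable.snd)
    exact Computable.list_concat.comp h1 h2
  refine h.of_eq fun n => ?_
  induction n with
  | zero => rfl
  | succ n ih =>
    rw [pre_succ, ← ih]

theorem rb5_len_mono (X : ℕ → Bool) {m n : ℕ} (h : m ≤ n) :
    (prs (pre X m)).1.length ≤ (prs (pre X n)).1.length :=
  (prs_suffix (pre_prefix X h)).length_le

theorem rb5_unb {X : ℕ → Bool} (h : ∀ N, ∃ n ≥ N, X n = true) (k : ℕ) :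
    ∃ n, k < (prs (pre X n)).1.length := by
  have hs : ∀ n, X n = true → (prs (pre X n)).1.length < (prs (pre X (n + 1))).1.length := by
    intro n hn
    rw [pre_succ, prs_append, hn]
    show _ < ((prs (pre X n)).2 :: (prs (pre X n)).1).length
    rw [List.length_cons]
    exact Nat.lt_succ_self _
  induction k with
  | zero =>
    obtain ⟨n, _, hn⟩ := h 0
    exact ⟨n + 1, lt_of_le_of_lt (Nat.zero_le _) (hs n hn)⟩
  | succ k ih =>
    obtain ⟨n, hn⟩ := ih
    obtain ⟨m, hm, hm'⟩ := h n
    have h1 := rb5_len_mono X hm
    have h2 := hs m hm'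
    exact ⟨m + 1, by omega⟩

theorem PosD.eventually_false (P : PosD U) {X : ℕ → Bool} (hX : Computable X)
    (hv : ∀ n, P.Val (prs (pre X n)).1) : ∃ N, ∀ n ≥ N, X n = false := by
  classical
  by_contra hcon
  have hinf : ∀ N, ∃ n ≥ N, X n = true := by
    intro N
    by_contra hN
    refine hcon ⟨N, fun n hn => ?_⟩
    cases hx : X n
    · rfl
    · exact absurd ⟨n, hn, hx⟩ hN
  have hu := rb5_unb hinf
  have hpre := rb5_pre_comp hX
  have hcs : Computable fun n => (prs (pre X n)).1 :=
    Computable.fst.comp (prs_comp.comp hpre)
  have hlen : Computable fun n => (prs (pre X n)).1.length :=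
    Computable.list_length.comp hcs
  have hlt : Computable₂ fun a b : ℕ => decide (a < b) :=
    (Primrec.nat_lt.decide).to_comp
  have hfind : Computable fun k => Nat.find (hu k) := by
    have h1 : Partrec₂ fun (k n : ℕ) =>
        (Part.some (decide (k < (prs (pre X n)).1.length)) : Part Bool) := by
      have h2 : Computable fun q : ℕ × ℕ => decide (q.1 < (prs (pre X q.2)).1.length) :=
        hlt.comp Computable.fst (hlen.comp Computable.snd)
      exact h2
    refine (Partrec.rfind h1).of_eq fun k => ?_
    refine Part.eq_some_iff.2 (Nat.mem_rfind.2 ⟨?_, ?_⟩)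
    · rw [Part.mem_some_iff]
      exact (decide_eq_true (Nat.find_spec (hu k))).symm
    · intro m hm
      rw [Part.mem_some_iff]
      exact (decide_eq_false (Nat.find_min (hu k) hm)).symm
  obtain ⟨F, hF⟩ : ∃ F : ℕ → ℕ, ∀ k, F k = P.bit ((prs (pre X (Nat.find (hu k)))).1.getD
      ((prs (pre X (Nat.find (hu k)))).1.length - 1 - k) 0) := ⟨_, fun _ => rfl⟩
  have hFc : Computable F := by
    have h1 : Computable fun k => (prs (pre X (Nat.find (hu k)))).1 := hcs.comp hfind
    have h2 : Computable fun k => (prs (pre X (Nat.find (hu k)))).1.length := hlen.comp hfind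
    have hsub : Computable₂ fun a b : ℕ => a - b := Primrec.nat_sub.to_comp
    have h3 : Computable fun k => (prs (pre X (Nat.find (hu k)))).1.length - 1 - k :=
      hsub.comp (hsub.comp h2 (Computable.const 1)) Computable.id
    have h4 : Computable₂ fun (l : List ℕ) (i : ℕ) => l.getD i 0 :=
      (Primrec.list_getD 0).to_comp
    exact (P.bit_comp.comp (h4.comp h1 h3)).of_eq fun k => (hF k).symm
  obtain ⟨e, he⟩ := exists_ev hFc
  have h1 := Nat.find_spec (hu e)
  have h2 := (P.Val_iff _).1 (hv (Nat.find (hu e)))
    ((prs (pre X (Nat.find (hu e)))).1.length - 1 - e) (by omega)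
  have h3 := P.dnc _ _ h2
  rw [List.length_map, List.length_drop] at h3
  have h4 : (prs (pre X (Nat.find (hu e)))).1.length -
      ((prs (pre X (Nat.find (hu e)))).1.length - 1 - e + 1) = e := by omega
  rw [h4, ← hF] at h3
  exact h3 (he e)

/-- a point with finitely many ones is `ptc cs` for the list `cs` of its blocks -/
theorem eq_ptc {X : ℕ → Bool} {N : ℕ} (h : ∀ n ≥ N, X n = false) : X = ptc (prs (pre X N)).1 := by
  have h1 := str_prs (pre X N)
  funext n
  have h2 : (pre X N).getD n false = X n := by
    by_cases hn : n < N
    · have h3 : n < (pre X N).length := by rw [pre_length]; exact hn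
      rw [List.getD_eq_getElem _ _ h3]
      simp [pre]
    · rw [List.getD_eq_default _ _ (by rw [pre_length]; omega)]
      exact (h n (by omega)).symm
  rw [← h2]
  conv_lhs => rw [← h1]
  show _ = (str (prs (pre X N)).1).getD n false
  by_cases hn : n < (str (prs (pre X N)).1).length
  · rw [List.getD_append _ _ _ _ hn]
  · rw [List.getD_append_right _ _ _ _ (by omega), List.getD_eq_default (str _) _ (by omega)]
    by_cases hm : n - (str (prs (pre X N)).1).length < (List.replicate (prs (pre X N)).2 false).length
    · rw [List.getD_eq_getElem _ _ hm, List.getElem_replicate]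
    · rw [List.getD_eq_default _ _ (by omega)]

theorem ptc_computable (cs : List ℕ) : Computable (ptc cs) := by
  have h : Computable₂ fun (l : List Bool) (i : ℕ) => l.getD i false :=
    (Primrec.list_getD false).to_comp
  exact h.comp (Computable.const (str cs)) Computable.id

theorem ptc_inj {cs cs' : List ℕ} (h : ptc cs = ptc cs') : cs = cs' := by
  have key : ∀ (cs : List ℕ) (M : ℕ), (str cs).length ≤ M → (prs (pre (ptc cs) M)).1 = cs := by
    intro cs M hM
    obtain ⟨m, rfl⟩ := Nat.exists_eq_add_of_le hM
    rw [pre_ptc, prs_str]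
  have h1 := key cs (max (str cs).length (str cs').length) (le_max_left _ _)
  have h2 := key cs' (max (str cs).length (str cs').length) (le_max_right _ _)
  rw [h] at h1
  exact h1.symm.trans h2

/-- `ptc cs` is in the class iff `cs` is valid -/
theorem PosD.ptc_mem (P : PosD U) (cs : List ℕ) : (∀ n, P.Val (prs (pre (ptc cs) n)).1) ↔ P.Val cs := by
  constructor
  · intro h
    have h1 := h ((str cs).length + 0)
    rw [pre_ptc, prs_str] at h1
    exact h1
  · intro h n
    exact P.Val_suffix (prs_pre_ptc_suffix cs n) h

end Pool.Agent.LIN
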