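import Pool.Agent.LIN.RB5

/-! # [LIN-RB6] Isolated points

`Val cs`, `M = (str cs).length`.  If `{c | Pos (cs.map idx, c)}` is infinite: given `n`, take `c ≥ n` in it; `Y = ptc (c :: cs)` is in the class, differs from `ptc cs` (`ptc_inj`) and
agrees with it below `M + c ≥ n`.  If it is finite with all elements `< m`: let `Y` be in the class with `pre Y (M + m) = str cs ++ 0^m`.  If `Y ≠ ptc cs` there is a first `k ≥ M + m` with `Y k = true`;
`prs (pre Y (k + 1)) = ((k - M) :: cs, 0)`, valid, so `Pos (cs.map idx, k - M)` with `k - M ≥ m`, contradiction. -/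

namespace Pool.Agent.LIN

variable {U : List ℕ → Prop}

/-- the points of the class that are computable and not isolated -/
def NP (R : List Bool → Prop) : Set (ℕ → Bool) :=
  {X | (∀ n, R (pre X n)) ∧ Computable X ∧
    ∀ n, ∃ Y : ℕ → Bool, (∀ m, R (pre Y m)) ∧ pre Y n = pre X n ∧ Y ≠ X}

theorem RB6_ptc_ge (cs : List ℕ) {i : ℕ} (h : (str cs).length ≤ i) : ptc cs i = false := by
  show (str cs).getD i false = false
  rw [List.getD_eq_getElem?_getD, List.getElem?_eq_none h]
  rfl

theorem RB6_ptc_cons (c : ℕ) (cs : List ℕ) {i : ℕ} (h : i < (str cs).length + c) :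
    ptc (c :: cs) i = ptc cs i := by
  by_cases h1 : i < (str cs).length
  · show (str cs ++ (List.replicate c false ++ [true])).getD i false = (str cs).getD i false
    rw [List.getD_append _ _ _ _ h1]
  · have h2 : (str cs).length ≤ i := not_lt.1 h1
    rw [RB6_ptc_ge cs h2]
    show (str cs ++ (List.replicate c false ++ [true])).getD i false = false
    rw [List.getD_append_right _ _ _ _ h2]
    have h3 : i - (str cs).length < (List.replicate c false).length := by
      rw [List.length_replicate]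
      omega
    rw [List.getD_append _ _ _ _ h3, List.getD_eq_getElem _ _ h3, List.getElem_replicate]

theorem PosD.not_isolated_iff (P : PosD U) {cs : List ℕ} (h : P.Val cs) :
    (∀ n, ∃ Y : ℕ → Bool, (∀ m, P.Val (prs (pre Y m)).1) ∧ pre Y n = pre (ptc cs) n ∧ Y ≠ ptc cs) ↔
      {c | P.Pos (cs.map P.idx, c)}.Infinite := by
  constructor
  · intro hY hfin
    obtain ⟨m, hm⟩ := hfin.bddAbove
    obtain ⟨Y, hYv, hYp, hYne⟩ := hY ((str cs).length + (m + 1))
    have hag : ∀ i < (str cs).length + (m + 1), Y i = ptc cs i := (pre_eq_iff _ _ _).1 hYp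
    obtain ⟨k0, hk0⟩ : ∃ k, Y k ≠ ptc cs k := by
      by_contra hcon
      push Not at hcon
      exact hYne (funext hcon)
    have hk0' : (str cs).length + (m + 1) ≤ k0 := by
      by_contra hcon
      exact hk0 (hag k0 (not_le.1 hcon))
    have hk0Y : Y k0 = true := by
      rw [RB6_ptc_ge cs (by omega)] at hk0
      simpa using hk0
    have hex : ∃ k, (str cs).length + (m + 1) ≤ k ∧ Y k = true := ⟨k0, hk0', hk0Y⟩
    classical
    obtain ⟨hk1, hk2⟩ := Nat.find_spec hex
    set k := Nat.find hex with hk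
    have hmin : ∀ i < k, (str cs).length + (m + 1) ≤ i → Y i = false := by
      intro i hi hi2
      have h1 := Nat.find_min hex hi
      by_contra hcon
      exact h1 ⟨hi2, by simpa using hcon⟩
    have hagk : ∀ i < k, Y i = ptc cs i := by
      intro i hi
      by_cases hi2 : i < (str cs).length + (m + 1)
      · exact hag i hi2
      · rw [hmin i hi (not_lt.1 hi2), RB6_ptc_ge cs (by omega)]
    have hpre : pre Y k = str cs ++ List.replicate (k - (str cs).length) false := by
      rw [(pre_eq_iff _ _ _).2 hagk, ← pre_ptc]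
      congr 1
      omega
    have hv := hYv (k + 1)
    rw [pre_succ, prs_append, hpre, prs_str, hk2] at hv
    have hv2 : P.Val ((k - (str cs).length) :: cs) := hv
    have h5 : k - (str cs).length ≤ m := hm hv2.2
    omega
  · intro hinf n
    obtain ⟨c, hc, hn⟩ := hinf.exists_gt n
    refine ⟨ptc (c :: cs), (P.ptc_mem (c :: cs)).2 ⟨h, hc⟩, ?_, ?_⟩
    · rw [pre_eq_iff]
      intro i hi
      exact RB6_ptc_cons c cs (by omega)
    · intro he
      have h1 := congrArg List.length (ptc_inj he)
      simp at h1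

theorem PosD.mem_NP (P : PosD U) {R : List Bool → Prop}
    (hR : ∀ X : ℕ → Bool, (∀ n, R (pre X n)) ↔ ∀ n, P.Val (prs (pre X n)).1) (X : ℕ → Bool) :
    X ∈ NP R ↔ ∃ cs, P.Val cs ∧ U (cs.map P.idx) ∧ X = ptc cs := by
  constructor
  · rintro ⟨h1, h2, h3⟩
    have h4 := (hR X).1 h1
    obtain ⟨N, hN⟩ := P.eventually_false h2 h4
    have h5 := eq_ptc hN
    refine ⟨(prs (pre X N)).1, h4 N, ?_, h5⟩
    by_contra hU
    have h6 := P.fin _ hU
    have h7 : {c | P.Pos ((prs (pre X N)).1.map P.idx, c)}.Infinite := by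
      rw [← P.not_isolated_iff (h4 N)]
      intro n
      obtain ⟨Y, hY1, hY2, hY3⟩ := h3 n
      rw [h5] at hY3
      refine ⟨Y, (hR Y).1 hY1, ?_, hY3⟩
      rw [hY2, ← h5]
    exact h7 h6
  · rintro ⟨cs, h1, h2, rfl⟩
    have h3 := (P.ptc_mem cs).2 h1
    refine ⟨(hR _).2 h3, ptc_computable cs, ?_⟩
    have h4 : {c | P.Pos (cs.map P.idx, c)}.Infinite := by
      intro hfin
      have h5 : (Set.univ : Set ℕ) ⊆ P.idx '' {c | P.Pos (cs.map P.idx, c)} := by
        intro i _
        obtain ⟨c, hc, hi⟩ := P.all _ h2 i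
        exact ⟨c, hc, hi⟩
      exact Set.infinite_univ ((hfin.image P.idx).subset h5)
    intro n
    obtain ⟨Y, hY1, hY2, hY3⟩ := (P.not_isolated_iff h1).2 h4 n
    exact ⟨Y, (hR Y).2 hY1, hY2, hY3⟩

end Pool.Agent.LIN
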