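import Pool.Agent.LIN.RB6

/-! # [LIN-RB7] The class of a `Pi_3` tree

`pt γ = ptc cs` for the unique valid `cs` with `cs.map idx = γ` (`exists_Val`, `Val_inj`; choose).
For `U γ`, `U δ` with lists `cs`, `ds`: `pre (ptc ds) (str cs).length = str cs ↔ cs <:+ ds ↔ γ <:+ δ`.  (`cs <:+ ds → str cs <+: str ds`; conversely, if `str cs` is a prefix of `ptc ds` then by
`prs_pre_ptc_suffix` and `prs_str` `cs <:+ ds`.  `cs <:+ ds → γ <:+ δ` by `map`; if `γ <:+ δ` then the suffix of `ds` of length `γ.length` is valid with node `γ`, so it is `cs`.)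
Last statement, for a string `τ`: `τ = str cs ++ 0^m` with `(cs, m) = prs τ` (`str_prs`).  `ptc ds` starts with `τ` iff `cs <:+ ds` and not `(c :: cs) <:+ ds` for `c < m`
(if `cs <:+ ds`, `ds = cs` or `ds = .. ++ c :: cs`, i.e. `(c :: cs) <:+ ds` for exactly one `c`; then `ptc ds` starts with `str cs ++ 0^c ++ 1`).
If some `δ` with `U δ` has this prefix then `cs` is valid (`Val_suffix`) and `γ = cs.map idx` satisfies `U γ` (closed under tails).  `F` = the finite set of the `idx c` with `c < m`, `Pos (γ, c)`;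
`(c :: cs) <:+ ds ↔ (idx c :: γ) <:+ δ` when `Pos (γ, c)` (use `inj`). -/

namespace Pool.Agent.LIN

theorem rb7_pre_of_le {X : ℕ → Bool} {n : ℕ} {σ τ : List Bool} (h : pre X n = τ) (hσ : σ <+: τ) :
    pre X σ.length = σ := by
  have hlen : τ.length = n := by rw [← h]; exact pre_length X n
  have h1 : pre X σ.length <+: pre X n := pre_prefix X (by rw [← hlen]; exact hσ.length_le)
  rw [h] at h1
  have h2 : (pre X σ.length).length = σ.length := pre_length X _
  exact (List.prefix_of_prefix_length_le h1 hσ (le_of_eq h2)).eq_of_length h2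

theorem rb7_pre_str (ds : List ℕ) : pre (ptc ds) (str ds).length = str ds := by
  have h := pre_ptc ds 0
  simpa using h

theorem rb7_A (cs ds : List ℕ) : pre (ptc ds) (str cs).length = str cs ↔ cs <:+ ds := by
  constructor
  · intro h
    have h1 := prs_pre_ptc_suffix ds (str cs).length
    rw [h] at h1
    have h2 := prs_str cs 0
    rw [List.replicate_zero, List.append_nil] at h2
    rw [h2] at h1
    exact h1
  · intro h
    exact rb7_pre_of_le (rb7_pre_str ds) (str_prefix h)

theorem rb7_suffix_cases {γ δ : List ℕ} (h : γ <:+ δ) : δ = γ ∨ ∃ t, (t :: γ) <:+ δ := by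
  obtain ⟨l, rfl⟩ := h
  rcases List.eq_nil_or_concat l with rfl | ⟨l', t, rfl⟩
  · exact Or.inl rfl
  · refine Or.inr ⟨t, l', ?_⟩
    simp

theorem rb7_C (cs ds : List ℕ) (m : ℕ) :
    pre (ptc ds) (str cs ++ List.replicate m false).length = str cs ++ List.replicate m false ↔
      cs <:+ ds ∧ ∀ c < m, ¬ (c :: cs) <:+ ds := by
  constructor
  · intro h
    refine ⟨(rb7_A cs ds).1 (rb7_pre_of_le h (List.prefix_append _ _)), fun c hc hs => ?_⟩
    have h1 := (rb7_A (c :: cs) ds).2 hs
    have h2 : str (c :: cs) = (str cs ++ List.replicate c false) ++ [true] := by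
      simp [str]
    have h3 : str cs ++ List.replicate (c + 1) false <+: str cs ++ List.replicate m false := by
      rw [List.prefix_append_right_inj]
      exact ⟨List.replicate (m - (c + 1)) false, by rw [List.replicate_append_replicate]; congr 1; omega⟩
    have h4 := rb7_pre_of_le h h3
    have h5 : (str (c :: cs)).length = (str cs ++ List.replicate (c + 1) false).length := by
      rw [h2]; simp
    rw [h5, h4, h2, List.replicate_succ', ← List.append_assoc] at h1
    have h6 := List.append_inj' h1 rfl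
    simp at h6
  · rintro ⟨hs, hc⟩
    rcases rb7_suffix_cases hs with h | ⟨c, h⟩
    · rw [h]
      rw [List.length_append, List.length_replicate]
      exact pre_ptc cs m
    · have hcm : m ≤ c := by
        by_contra hcm
        exact hc c (by omega) h
      have h1 := (rb7_A (c :: cs) ds).2 h
      apply rb7_pre_of_le h1
      have h2 : str (c :: cs) = str cs ++ (List.replicate c false ++ [true]) := by
        simp [str]
      rw [h2, List.prefix_append_right_inj]
      refine List.IsPrefix.trans ⟨List.replicate (c - m) false, ?_⟩ (List.prefix_append _ _)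
      rw [List.replicate_append_replicate]
      congr 1
      omega

theorem rb7_B {U : List ℕ → Prop} (P : PosD U) {cs ds : List ℕ} (hc : P.Val cs) (hd : P.Val ds) :
    cs <:+ ds ↔ cs.map P.idx <:+ ds.map P.idx := by
  constructor
  · intro h
    exact h.map P.idx
  · rintro ⟨l, hl⟩
    obtain ⟨l₁, l₂, h1, _, h3⟩ := List.map_eq_append_iff.1 hl.symm
    have h4 : l₂ <:+ ds := ⟨l₁, h1.symm⟩
    have h5 := P.Val_inj (P.Val_suffix h4 hd) hc h3
    rw [← h5]
    exact h4

theorem exists_class {U : List ℕ → Prop} (hU : Pg 3 U) (ht : ∀ t γ, U (t :: γ) → U γ) :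
    ∃ (R : List Bool → Prop) (pt : List ℕ → ℕ → Bool), ComputablePred R ∧
      (∀ X, X ∈ NP R ↔ ∃ γ, U γ ∧ X = pt γ) ∧
      (∀ γ δ, U γ → U δ → pt γ = pt δ → γ = δ) ∧
      (∀ γ, U γ → ∃ τ : List Bool, ∀ δ, U δ → (pre (pt δ) τ.length = τ ↔ γ <:+ δ)) ∧
      (∀ τ : List Bool, (∀ δ, U δ → pre (pt δ) τ.length ≠ τ) ∨
        ∃ γ, U γ ∧ ∃ F : Finset ℕ, ∀ δ, U δ →
          (pre (pt δ) τ.length = τ ↔ γ <:+ δ ∧ ∀ t ∈ F, ¬ (t :: γ) <:+ δ)) := by
  classical
  obtain ⟨P⟩ := exists_PosD hU
  obtain ⟨R, hRc, hR⟩ := P.exists_R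
  have hex : ∀ γ, U γ → ∃ cs, P.Val cs ∧ cs.map P.idx = γ := fun γ h => P.exists_Val ht h
  choose! csf hcs1 hcs2 using hex
  have hsuf : ∀ {γ δ : List ℕ}, U δ → γ <:+ δ → U γ := by
    intro γ δ hδ h
    obtain ⟨l, rfl⟩ := h
    induction l with
    | nil => exact hδ
    | cons a l ih => exact ih (ht _ _ hδ)
  refine ⟨R, fun γ => ptc (csf γ), hRc, ?_, ?_, ?_, ?_⟩
  · intro X
    rw [P.mem_NP hR X]
    constructor
    · rintro ⟨cs, h1, h2, h3⟩
      refine ⟨cs.map P.idx, h2, ?_⟩
      show X = ptc (csf (cs.map P.idx))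
      rw [h3, P.Val_inj (hcs1 _ h2) h1 (hcs2 _ h2)]
    · rintro ⟨γ, h1, h2⟩
      refine ⟨csf γ, hcs1 γ h1, ?_, h2⟩
      rw [hcs2 γ h1]
      exact h1
  · intro γ δ hγ hδ h
    have h1 := ptc_inj h
    rw [← hcs2 γ hγ, ← hcs2 δ hδ, h1]
  · intro γ hγ
    refine ⟨str (csf γ), fun δ hδ => ?_⟩
    show pre (ptc (csf δ)) _ = _ ↔ _
    rw [rb7_A, rb7_B P (hcs1 γ hγ) (hcs1 δ hδ), hcs2 γ hγ, hcs2 δ hδ]
  · intro τ
    by_cases hex : ∃ δ, U δ ∧ pre (ptc (csf δ)) τ.length = τ
    · right
      obtain ⟨δ₀, hδ₀, hpre⟩ := hex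
      obtain ⟨cs, m, hτ⟩ : ∃ cs m, τ = str cs ++ List.replicate m false :=
        ⟨(prs τ).1, (prs τ).2, (str_prs τ).symm⟩
      subst hτ
      rw [rb7_C] at hpre
      have hV : P.Val cs := P.Val_suffix hpre.1 (hcs1 δ₀ hδ₀)
      have hU' : U (cs.map P.idx) := by
        have h1 := (rb7_B P hV (hcs1 δ₀ hδ₀)).1 hpre.1
        rw [hcs2 δ₀ hδ₀] at h1
        exact hsuf hδ₀ h1
      refine ⟨cs.map P.idx, hU', ((Finset.range m).filter (fun c => P.Pos (cs.map P.idx, c))).image P.idx,
        fun δ hδ => ?_⟩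
      show pre (ptc (csf δ)) _ = _ ↔ _
      rw [rb7_C, rb7_B P hV (hcs1 δ hδ), hcs2 δ hδ]
      apply and_congr_right
      intro _
      constructor
      · intro h t htF hs
        rw [Finset.mem_image] at htF
        obtain ⟨c, hcF, hct⟩ := htF
        rw [Finset.mem_filter, Finset.mem_range] at hcF
        have hVc : P.Val (c :: cs) := ⟨hV, hcF.2⟩
        apply h c hcF.1
        rw [rb7_B P hVc (hcs1 δ hδ), hcs2 δ hδ, List.map_cons, hct]
        exact hs
      · intro h c hcm hs
        have hVc : P.Val (c :: cs) := P.Val_suffix hs (hcs1 δ hδ)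
        apply h (P.idx c)
        · rw [Finset.mem_image]
          exact ⟨c, by rw [Finset.mem_filter, Finset.mem_range]; exact ⟨hcm, hVc.2⟩, rfl⟩
        · have h1 := (rb7_B P hVc (hcs1 δ hδ)).1 hs
          rw [hcs2 δ hδ, List.map_cons] at h1
          exact h1
    · left
      intro δ hδ h
      exact hex ⟨δ, hδ, h⟩

end Pool.Agent.LIN
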