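import Pool.Agent.LIN.RA5

/-! # [LIN-RC1] The ultrafilters of a tree basis

`Ps b` : the nodes `γ` of `U` whose ultrafilter (generated by the `d γ j`) contains `b`.
`Ps_inf`: `d_anti` (take the larger `j`).  `Ps_compl`: `b = ν n` (surjectivity), `decide` with `j = n + 1` gives `d γ j ≤ b` or `≤ bᶜ`; not both kinds: `d γ (max j j') ≤ b ⊓ bᶜ = ⊥` contradicts `d_ne`.
`Ps_nonempty`: `b = ν n ≠ ⊥`.  Claim for all `k`: there are `γ`, `j` with `U γ`, `lv γ + j = k`, `d γ j ⊓ b ≠ ⊥`.  `k = 0`: `γ = []`.  Step: if `d γ (j+1) ⊓ b ≠ ⊥` take `(γ, j + 1)`; otherwise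
`(d γ j \ d γ (j+1)) ⊓ b ≠ ⊥`, in particular `d γ (j + 1) ≠ d γ j`, `J_surj` gives `t`, take `(t :: γ, 0)` (`child`, `lv_child`).  For `k = n + 1`: `decide` and `d γ j ⊓ ν n ≠ ⊥` give `d γ j ≤ ν n`.
`Ps_injective`: if `b ≠ b'` then `b ⊓ b'ᶜ ≠ ⊥` or `b' ⊓ bᶜ ≠ ⊥`. -/

namespace Pool.Agent.LIN

/-- the nodes of `U` above `γ` -/
def VV (U : List ℕ → Prop) (γ : List ℕ) : Set (List ℕ) := {δ | U δ ∧ γ <:+ δ}

namespace TB

variable {B : Type} [BooleanAlgebra B] {ν : ℕ → B} {U : List ℕ → Prop} (T : TB ν U)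

/-- the nodes whose ultrafilter contains `b` -/
def Ps (b : B) : Set (List ℕ) := {γ | U γ ∧ ∃ j, T.d γ j ≤ b}

theorem d_le {γ : List ℕ} (h : U γ) {j j' : ℕ} (hj : j ≤ j') : T.d γ j' ≤ T.d γ j := by
  induction j', hj using Nat.le_induction with
  | base => exact le_refl _
  | succ m _ ih => exact (T.d_anti γ m h).trans ih

theorem Ps_top : T.Ps ⊤ = {γ | U γ} := by
  ext γ
  exact ⟨fun h => h.1, fun h => ⟨h, 0, le_top⟩⟩

theorem Ps_inf (b b' : B) : T.Ps (b ⊓ b') = T.Ps b ∩ T.Ps b' := by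
  ext γ
  constructor
  · rintro ⟨hγ, j, hj⟩
    exact ⟨⟨hγ, j, hj.trans inf_le_left⟩, hγ, j, hj.trans inf_le_right⟩
  · rintro ⟨⟨hγ, j, hj⟩, _, j', hj'⟩
    exact ⟨hγ, max j j', le_inf ((T.d_le hγ (le_max_left _ _)).trans hj)
      ((T.d_le hγ (le_max_right _ _)).trans hj')⟩

theorem Ps_compl (hν : Function.Surjective ν) (b : B) : T.Ps bᶜ = {γ | U γ} \ T.Ps b := by
  obtain ⟨n, rfl⟩ := hν b
  ext γ
  constructor
  · rintro ⟨hγ, j, hj⟩
    refine ⟨hγ, ?_⟩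
    rintro ⟨_, j', hj'⟩
    apply T.d_ne γ (max j j') hγ
    rw [eq_bot_iff]
    calc T.d γ (max j j') ≤ ν n ⊓ (ν n)ᶜ := le_inf ((T.d_le hγ (le_max_right _ _)).trans hj')
          ((T.d_le hγ (le_max_left _ _)).trans hj)
      _ = ⊥ := inf_compl_eq_bot
  · rintro ⟨hγ, hn⟩
    have hγ' : U γ := hγ
    rcases T.decide γ n (n + 1) hγ' (by omega) with h | h
    · exact absurd ⟨hγ', n + 1, h⟩ hn
    · exact ⟨hγ', n + 1, h⟩

theorem Ps_nonempty (hν : Function.Surjective ν) {b : B} (hb : b ≠ ⊥) : (T.Ps b).Nonempty := by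
  obtain ⟨n, rfl⟩ := hν b
  have key : ∀ k, ∃ γ j, U γ ∧ T.lv γ + j = k ∧ T.d γ j ⊓ ν n ≠ ⊥ := by
    intro k
    induction k with
    | zero =>
      refine ⟨[], 0, T.root, by rw [T.lv_root], ?_⟩
      rw [T.d_root, top_inf_eq]
      exact hb
    | succ k ih =>
      obtain ⟨γ, j, hγ, hk, hne⟩ := ih
      by_cases h1 : T.d γ (j + 1) ⊓ ν n = ⊥
      · have h2 : (T.d γ j \ T.d γ (j + 1)) ⊓ ν n ≠ ⊥ := by
          intro h3
          apply hne
          have h4 : T.d γ j = T.d γ (j + 1) ⊔ (T.d γ j \ T.d γ (j + 1)) := by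
            rw [sup_sdiff_self_right, sup_eq_right.2 (T.d_anti γ j hγ)]
          rw [h4, inf_sup_right, h1, h3, bot_sup_eq]
        have h3 : T.d γ (j + 1) ≠ T.d γ j := by
          intro h4
          apply h2
          rw [h4, sdiff_self, bot_inf_eq]
        obtain ⟨t, ht, hJ⟩ := T.J_surj γ j hγ h3
        refine ⟨t :: γ, 0, ht, ?_, ?_⟩
        · rw [T.lv_child t γ ht, hJ]
          omega
        · rw [T.child t γ ht, hJ]
          exact h2
      · exact ⟨γ, j + 1, hγ, by omega, h1⟩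
  obtain ⟨γ, j, hγ, hk, hne⟩ := key (n + 1)
  refine ⟨γ, hγ, j, ?_⟩
  rcases T.decide γ n j hγ (by omega) with h | h
  · exact h
  · exfalso
    apply hne
    rw [eq_bot_iff]
    calc T.d γ j ⊓ ν n ≤ (ν n)ᶜ ⊓ ν n := inf_le_inf_right _ h
      _ = ⊥ := compl_inf_eq_bot

theorem Ps_injective (hν : Function.Surjective ν) : Function.Injective T.Ps := by
  have hle : ∀ b b', T.Ps b = T.Ps b' → b ≤ b' := by
    intro b b' h
    by_contra hn
    have h1 : b ⊓ b'ᶜ ≠ ⊥ := by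
      intro h2
      apply hn
      rw [← sdiff_eq, sdiff_eq_bot_iff] at h2
      exact h2
    obtain ⟨γ, hγ⟩ := T.Ps_nonempty hν h1
    rw [T.Ps_inf, T.Ps_compl hν, h] at hγ
    exact hγ.2.2 hγ.1
  intro b b' h
  exact le_antisymm (hle b b' h) (hle b' b h.symm)

end TB

end Pool.Agent.LIN
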