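import Pool.Agent.LIN.RC1

/-! # [LIN-RC2] Subtrees

`d_le_of_suffix`: induction on `δ` (`child`: `d (t :: δ) 0 ≤ d δ (J δ t) ≤ d δ 0`).
`disj_children`: `J γ t ≠ J γ t'` by `J_inj`; if `J γ t < J γ t'` then `d (t' :: γ) 0 ≤ d γ (J γ t') ≤ d γ (J γ t + 1)`, which is disjoint from `d (t :: γ) 0`.
`not_le`: `γ` not above `δ` .. precisely: `U γ`, `U δ`, `¬ γ <:+ δ` imply `¬ d δ j ≤ d γ 0` for all `j`: induction on `γ`.  `γ = []` is a suffix of everything.  `γ = t :: γ'`: if `¬ γ' <:+ δ` then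
`d γ 0 ≤ d γ' 0` and induction.  If `γ' <:+ δ` and `δ = γ'`: `d γ 0 = d δ m \ d δ (m + 1)` (`m = J δ t`); `d δ (max j (m+1)) ≠ ⊥` is below `d δ (m+1)` and `d δ j`.  Otherwise `(t' :: γ') <:+ δ` for some `t' ≠ t`:
`d δ j ≤ d δ 0 ≤ d (t' :: γ') 0`, disjoint from `d (t :: γ') 0` (`disj_children`), and `d δ j ≠ ⊥`.
`Ps_d0`: `⊇`: `d_le_of_suffix`; `⊆`: `not_le`. -/

namespace Pool.Agent.LIN

namespace TB

variable {B : Type} [BooleanAlgebra B] {ν : ℕ → B} {U : List ℕ → Prop} (T : TB ν U)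

include T in
/-- `U` is closed under suffixes -/
theorem U_suffix {γ δ : List ℕ} (hδ : U δ) (h : γ <:+ δ) : U γ := by
  obtain ⟨l, rfl⟩ := h
  induction l with
  | nil => exact hδ
  | cons a l ih => exact ih (T.tail _ _ hδ)

theorem d_le_of_suffix {γ δ : List ℕ} (hδ : U δ) (h : γ <:+ δ) : T.d δ 0 ≤ T.d γ 0 := by
  obtain ⟨l, rfl⟩ := h
  induction l with
  | nil => exact le_refl _
  | cons a l ih =>
    have h1 := T.tail _ _ hδ
    refine le_trans ?_ (ih h1)
    show T.d (a :: (l ++ γ)) 0 ≤ T.d (l ++ γ) 0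
    rw [T.child a (l ++ γ) hδ]
    exact sdiff_le.trans (T.d_le h1 (Nat.zero_le _))

theorem disj_children {γ : List ℕ} {t t' : ℕ} (h : U (t :: γ)) (h' : U (t' :: γ)) (hne : t ≠ t') :
    Disjoint (T.d (t :: γ) 0) (T.d (t' :: γ) 0) := by
  have hγ := T.tail _ _ h
  have key : ∀ t t', U (t :: γ) → U (t' :: γ) → T.J γ t < T.J γ t' →
      Disjoint (T.d (t :: γ) 0) (T.d (t' :: γ) 0) := by
    intro t t' h h' hlt
    rw [T.child t γ h, T.child t' γ h']
    have h1 : T.d γ (T.J γ t') ≤ T.d γ (T.J γ t + 1) := T.d_le hγ hlt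
    exact Disjoint.mono_right (sdiff_le.trans h1) disjoint_sdiff_self_left
  rcases lt_trichotomy (T.J γ t) (T.J γ t') with h1 | h1 | h1
  · exact key t t' h h' h1
  · exact absurd (T.J_inj γ t t' h h' h1) hne
  · exact (key t' t h' h h1).symm

theorem not_le {γ δ : List ℕ} (hγ : U γ) (hδ : U δ) (h : ¬ γ <:+ δ) (j : ℕ) :
    ¬ T.d δ j ≤ T.d γ 0 := by
  induction γ with
  | nil => exact absurd List.nil_suffix h
  | cons t γ ih =>
    intro hle
    have hγ' := T.tail _ _ hγ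
    by_cases hs : γ <:+ δ
    · obtain ⟨l, rfl⟩ := hs
      rcases List.eq_nil_or_concat l with rfl | ⟨l', t', rfl⟩
      · rw [List.nil_append] at hle hδ h
        rw [T.child t γ hγ] at hle
        apply T.d_ne γ (max j (T.J γ t + 1)) hδ
        rw [eq_bot_iff]
        have h1 : T.d γ (max j (T.J γ t + 1)) ≤ T.d γ (T.J γ t) \ T.d γ (T.J γ t + 1) :=
          (T.d_le hδ (le_max_left _ _)).trans hle
        have h2 : T.d γ (max j (T.J γ t + 1)) ≤ T.d γ (T.J γ t + 1) := T.d_le hδ (le_max_right _ _)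
        calc T.d γ (max j (T.J γ t + 1)) ≤ (T.d γ (T.J γ t) \ T.d γ (T.J γ t + 1)) ⊓ T.d γ (T.J γ t + 1) := le_inf h1 h2
          _ = ⊥ := disjoint_sdiff_self_left.eq_bot
      · rw [List.concat_eq_append] at hle hδ h
        have h1 : (t' :: γ) <:+ (l' ++ [t']) ++ γ := ⟨l', by simp⟩
        have h2 : U (t' :: γ) := T.U_suffix hδ h1
        by_cases htt : t = t'
        · rw [htt] at h
          exact h h1
        · have h3 := T.disj_children hγ h2 htt
          apply T.d_ne _ j hδ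
          rw [eq_bot_iff]
          have h4 : T.d ((l' ++ [t']) ++ γ) j ≤ T.d (t' :: γ) 0 :=
            (T.d_le hδ (Nat.zero_le j)).trans (T.d_le_of_suffix hδ h1)
          exact h3 hle h4
    · refine ih hγ' hs (hle.trans ?_)
      rw [T.child t γ hγ]
      exact sdiff_le.trans (T.d_le hγ' (Nat.zero_le _))

theorem Ps_d0 {γ : List ℕ} (hγ : U γ) : T.Ps (T.d γ 0) = VV U γ := by
  ext δ
  constructor
  · rintro ⟨hδ, j, hj⟩
    refine ⟨hδ, ?_⟩
    by_contra hn
    exact T.not_le hγ hδ hn j hj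
  · rintro ⟨hδ, hs⟩
    exact ⟨hδ, 0, T.d_le_of_suffix hδ hs⟩

end TB

end Pool.Agent.LIN
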