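import Pool.Agent.LIN.RC2

/-! # [LIN-RC3] The sets `Ps b` are generated by the subtrees

`b = ν n`.  Claim for all `k` and all `γ` with `U γ`, `n < lv γ + k`: `Ps b ∩ VV U γ ∈ 𝒯`.  (For `γ = []`, `k = n + 1` this is `Ps b`.)
`k = 0`: `d γ 0 ≤ b` or `d γ 0 ≤ bᶜ` (`decide`); in the first case `Ps b ∩ VV U γ = VV U γ`, in the second case it is empty (`δ` with `γ <:+ δ`: `d δ 0 ≤ d γ 0`), and
`∅ = VV U γ ∩ ({γ | U γ} \ VV U γ) ∈ 𝒯`.
Step `k → k + 1`: `j = k + 1`, `d γ j ≤ b` or `≤ bᶜ`.  The set `F` of the labels `t` with `U (t :: γ)`, `J γ t ≤ k` is finite (`J_inj`).  For `t ∈ F`: `lv (t :: γ) ≥ lv γ + 1`, so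
`Ps b ∩ VV U (t :: γ) ∈ 𝒯` by induction.  Let `W = VV U γ \ ⋃ t ∈ F, VV U (t :: γ) ∈ 𝒯`.  Every `δ ∈ W` has `d δ j' ≤ d γ (k + 1)` for some `j'` (`δ = γ`: `j' = k + 1`; otherwise `(t :: γ) <:+ δ` with
`J γ t ≥ k + 1` and `d δ 0 ≤ d (t :: γ) 0 ≤ d γ (J γ t) ≤ d γ (k + 1)`).  So `Ps b ∩ W` is `W` or `∅`, and `Ps b ∩ VV U γ = (⋃ t ∈ F, Ps b ∩ VV U (t :: γ)) ∪ (Ps b ∩ W)`; `𝒯` is closed under finite
unions of subsets of `{γ | U γ}` (de Morgan). -/

namespace Pool.Agent.LIN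

namespace TB

variable {B : Type} [BooleanAlgebra B] {ν : ℕ → B} {U : List ℕ → Prop} (T : TB ν U)

theorem rc3_suffix_cases {γ δ : List ℕ} (h : γ <:+ δ) : δ = γ ∨ ∃ t, (t :: γ) <:+ δ := by
  obtain ⟨l, rfl⟩ := h
  rcases List.eq_nil_or_concat l with rfl | ⟨l', t, rfl⟩
  · exact Or.inl rfl
  · refine Or.inr ⟨t, l', ?_⟩
    simp

theorem rc3_VV_root : VV U [] = {γ | U γ} := by
  ext δ
  constructor
  · exact fun h => h.1
  · exact fun h => ⟨h, List.nil_suffix⟩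

theorem rc3_biUnion {𝒯 : Set (Set (List ℕ))} (hc : ∀ s ∈ 𝒯, {γ | U γ} \ s ∈ 𝒯)
    (hi : ∀ s ∈ 𝒯, ∀ t ∈ 𝒯, s ∩ t ∈ 𝒯) (he : ∅ ∈ 𝒯) (F : Finset ℕ) (f : ℕ → Set (List ℕ))
    (hf : ∀ t ∈ F, f t ∈ 𝒯 ∧ f t ⊆ {γ | U γ}) : (⋃ t ∈ F, f t) ∈ 𝒯 := by
  classical
  induction F using Finset.induction_on with
  | empty => simpa using he
  | insert a F ha ih =>
    have h1 := ih (fun t ht => hf t (Finset.mem_insert_of_mem ht))
    have h2 := hf a (Finset.mem_insert_self a F)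
    have h3 : (⋃ t ∈ F, f t) ⊆ {γ | U γ} := by
      intro x hx
      simp only [Set.mem_iUnion] at hx
      obtain ⟨t, ht, hx⟩ := hx
      exact (hf t (Finset.mem_insert_of_mem ht)).2 hx
    have h4 : (⋃ t ∈ insert a F, f t) = {γ | U γ} \ (({γ | U γ} \ f a) ∩ ({γ | U γ} \ ⋃ t ∈ F, f t)) := by
      rw [Finset.set_biUnion_insert]
      ext x
      have e1 : x ∈ f a → U x := fun h => h2.2 h
      have e2 : (x ∈ ⋃ t ∈ F, f t) → U x := fun h => h3 h
      simp only [Set.mem_union, Set.mem_diff, Set.mem_inter_iff, Set.mem_setOf_eq]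
      tauto
    rw [h4]
    exact hc _ (hi _ (hc _ h2.1) _ (hc _ h1))

theorem Ps_mem (hν : Function.Surjective ν) (𝒯 : Set (Set (List ℕ)))
    (hV : ∀ γ, U γ → VV U γ ∈ 𝒯) (hc : ∀ s ∈ 𝒯, {γ | U γ} \ s ∈ 𝒯)
    (hi : ∀ s ∈ 𝒯, ∀ t ∈ 𝒯, s ∩ t ∈ 𝒯) (b : B) : T.Ps b ∈ 𝒯 := by
  classical
  obtain ⟨n, rfl⟩ := hν b
  have hU : {γ | U γ} ∈ 𝒯 := by
    rw [← rc3_VV_root]
    exact hV [] T.root
  have he : (∅ : Set (List ℕ)) ∈ 𝒯 := by
    have h1 := hc _ hU
    rwa [Set.diff_self] at h1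
  have key : ∀ k γ, U γ → n < T.lv γ + k → T.Ps (ν n) ∩ VV U γ ∈ 𝒯 := by
    intro k
    induction k with
    | zero =>
      intro γ hγ hn
      rcases T.decide γ n 0 hγ hn with h | h
      · have h1 : T.Ps (ν n) ∩ VV U γ = VV U γ := by
          ext δ
          constructor
          · exact fun h => h.2
          · intro hδ
            exact ⟨⟨hδ.1, 0, (T.d_le_of_suffix hδ.1 hδ.2).trans h⟩, hδ⟩
        rw [h1]
        exact hV γ hγ
      · have h1 : T.Ps (ν n) ∩ VV U γ = ∅ := by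
          apply Set.eq_empty_of_forall_notMem
          rintro δ ⟨⟨hδ, j, hj⟩, _, hs⟩
          have h2 : T.d δ j ≤ (ν n)ᶜ :=
            ((T.d_le hδ (Nat.zero_le j)).trans (T.d_le_of_suffix hδ hs)).trans h
          apply T.d_ne δ j hδ
          rw [eq_bot_iff]
          calc T.d δ j ≤ ν n ⊓ (ν n)ᶜ := le_inf hj h2
            _ = ⊥ := inf_compl_eq_bot
        rw [h1]
        exact he
    | succ k ih =>
      intro γ hγ hn
      by_cases hlt : n < T.lv γ + k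
      · exact ih γ hγ hlt
      have hfin : {t | U (t :: γ) ∧ T.J γ t ≤ k}.Finite := by
        apply Set.Finite.of_finite_image (f := T.J γ)
        · apply (Set.finite_Iic k).subset
          rintro _ ⟨t, ht, rfl⟩
          exact ht.2
        · intro t ht t' ht' heq
          exact T.J_inj γ t t' ht.1 ht'.1 heq
      let F : Finset ℕ := hfin.toFinset
      have hF : ∀ t, t ∈ F ↔ U (t :: γ) ∧ T.J γ t ≤ k := fun t => by
        simp only [F, Set.Finite.mem_toFinset, Set.mem_setOf_eq]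
      have hA : (⋃ t ∈ F, T.Ps (ν n) ∩ VV U (t :: γ)) ∈ 𝒯 := by
        apply rc3_biUnion hc hi he
        intro t ht
        have ht' := (hF t).1 ht
        refine ⟨ih (t :: γ) ht'.1 ?_, fun x hx => hx.2.1⟩
        rw [T.lv_child t γ ht'.1]
        omega
      have hB : (⋃ t ∈ F, VV U (t :: γ)) ∈ 𝒯 := by
        apply rc3_biUnion hc hi he
        intro t ht
        exact ⟨hV _ ((hF t).1 ht).1, fun x hx => hx.1⟩
      have hW : VV U γ ∩ ({γ | U γ} \ ⋃ t ∈ F, VV U (t :: γ)) ∈ 𝒯 := hi _ (hV γ hγ) _ (hc _ hB)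
      have hWd : ∀ δ ∈ VV U γ ∩ ({γ | U γ} \ ⋃ t ∈ F, VV U (t :: γ)), ∃ j', T.d δ j' ≤ T.d γ (k + 1) := by
        rintro δ ⟨⟨hδ, hs⟩, _, hn'⟩
        rcases rc3_suffix_cases hs with h1 | ⟨t, ht⟩
        · exact ⟨k + 1, by rw [h1]⟩
        · have hUt : U (t :: γ) := T.U_suffix hδ ht
          have hJ : k + 1 ≤ T.J γ t := by
            by_contra hJ
            apply hn'
            simp only [Set.mem_iUnion]
            exact ⟨t, (hF t).2 ⟨hUt, by omega⟩, hδ, ht⟩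
          refine ⟨0, (T.d_le_of_suffix hδ ht).trans ?_⟩
          rw [T.child t γ hUt]
          exact sdiff_le.trans (T.d_le hγ hJ)
      have hPW : T.Ps (ν n) ∩ (VV U γ ∩ ({γ | U γ} \ ⋃ t ∈ F, VV U (t :: γ))) ∈ 𝒯 := by
        rcases T.decide γ n (k + 1) hγ hn with h | h
        · have h1 : T.Ps (ν n) ∩ (VV U γ ∩ ({γ | U γ} \ ⋃ t ∈ F, VV U (t :: γ))) =
              VV U γ ∩ ({γ | U γ} \ ⋃ t ∈ F, VV U (t :: γ)) := by
            apply Set.inter_eq_right.2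
            intro δ hδ
            obtain ⟨j', hj'⟩ := hWd δ hδ
            exact ⟨hδ.1.1, j', hj'.trans h⟩
          rw [h1]
          exact hW
        · have h1 : T.Ps (ν n) ∩ (VV U γ ∩ ({γ | U γ} \ ⋃ t ∈ F, VV U (t :: γ))) = ∅ := by
            apply Set.eq_empty_of_forall_notMem
            rintro δ ⟨⟨hδ, j, hj⟩, hδW⟩
            obtain ⟨j', hj'⟩ := hWd δ hδW
            have h2 : T.d δ (max j j') ≤ ν n := (T.d_le hδ (le_max_left _ _)).trans hj
            have h3 : T.d δ (max j j') ≤ (ν n)ᶜ := ((T.d_le hδ (le_max_right _ _)).trans hj').trans h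
            apply T.d_ne δ (max j j') hδ
            rw [eq_bot_iff]
            calc T.d δ (max j j') ≤ ν n ⊓ (ν n)ᶜ := le_inf h2 h3
              _ = ⊥ := inf_compl_eq_bot
          rw [h1]
          exact he
      have hfinal : T.Ps (ν n) ∩ VV U γ = {γ | U γ} \ (({γ | U γ} \ ⋃ t ∈ F, T.Ps (ν n) ∩ VV U (t :: γ)) ∩
          ({γ | U γ} \ (T.Ps (ν n) ∩ (VV U γ ∩ ({γ | U γ} \ ⋃ t ∈ F, VV U (t :: γ)))))) := by
        ext δ
        constructor
        · rintro ⟨hP, hδ⟩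
          refine ⟨hδ.1, ?_⟩
          rintro ⟨⟨_, h1⟩, ⟨_, h2⟩⟩
          apply h2
          refine ⟨hP, hδ, hδ.1, ?_⟩
          intro h3
          apply h1
          simp only [Set.mem_iUnion] at h3 ⊢
          obtain ⟨t, ht, h3⟩ := h3
          exact ⟨t, ht, hP, h3⟩
        · rintro ⟨hUδ, h1⟩
          have hUδ' : U δ := hUδ
          by_contra h2
          apply h1
          refine ⟨⟨hUδ, ?_⟩, hUδ, ?_⟩
          · intro h3
            simp only [Set.mem_iUnion] at h3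
            obtain ⟨t, ht, h3, h4⟩ := h3
            exact h2 ⟨h3, hUδ', (List.suffix_cons t γ).trans h4.2⟩
          · rintro ⟨h3, h4, _⟩
            exact h2 ⟨h3, h4⟩
      rw [hfinal]
      exact hc _ (hi _ (hc _ hA) _ (hc _ hPW))
  have h1 := key (n + 1) [] T.root (by rw [T.lv_root]; omega)
  rw [rc3_VV_root] at h1
  have h2 : T.Ps (ν n) ∩ {γ | U γ} = T.Ps (ν n) := Set.inter_eq_left.2 (fun δ hδ => hδ.1)
  rw [h2] at h1
  exact h1

end TB

end Pool.Agent.LIN
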