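import Pool.Agent.LIN.RC3
import Pool.Agent.LIN.RB7

/-! # [LIN-RC4] A numerated `Pi_4` algebra as the algebra of traces of a `Pi_1` class

`exists_TB` gives `U`, `T : TB ν U`; `exists_class` gives `R`, `pt`.  `Ψ b = pt '' (T.Ps b)`.  `pt` is injective on `U` (so images of intersections and differences of subsets of `{γ | U γ}` are the
intersections and differences).  `fin`: `Ps_mem` with `𝒯` = the subsets `s` of `{γ | U γ}` for which there is `N` with `pre (pt γ) N = pre (pt δ) N → (γ ∈ s ↔ δ ∈ s)` for `U γ`, `U δ`.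
`cyl`: by the last clause of `exists_class` the trace of `Cyl τ` is empty (`b = ⊥`) or the image of `VV U γ \ ⋃ t ∈ F, VV U (t :: γ)`; `VV U γ = Ps (d γ 0)`, and `VV U (t :: γ)` is `Ps (d (t :: γ) 0)` if
`U (t :: γ)`, else empty; `b = d γ 0 ⊓ ⨅ t ∈ F', (d (t :: γ) 0)ᶜ`, `F'` = the `t ∈ F` with `U (t :: γ)` (induction over finite sets). -/

namespace Pool.Agent.LIN

/-- cylinders -/
def Cyl (τ : List Bool) : Set (ℕ → Bool) := {X | pre X τ.length = τ}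

/-- `B` is isomorphic to the algebra of the traces of the clopen sets on `NP R`. -/
structure PsiD (B : Type) [BooleanAlgebra B] (R : List Bool → Prop) where
  Ψ : B → Set (ℕ → Bool)
  top : Ψ ⊤ = NP R
  inf : ∀ b b', Ψ (b ⊓ b') = Ψ b ∩ Ψ b'
  compl : ∀ b, Ψ bᶜ = NP R \ Ψ b
  inj : Function.Injective Ψ
  fin : ∀ b, ∃ N, ∀ X ∈ NP R, ∀ Y ∈ NP R, pre X N = pre Y N → (X ∈ Ψ b ↔ Y ∈ Ψ b)
  cyl : ∀ τ, ∃ b, Ψ b = NP R ∩ Cyl τ

theorem rc4_Ps_bot {B : Type} [BooleanAlgebra B] {ν : ℕ → B} {U : List ℕ → Prop} (T : TB ν U) :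
    T.Ps ⊥ = ∅ := by
  apply Set.eq_empty_of_forall_notMem
  rintro γ ⟨hγ, j, hj⟩
  exact T.d_ne γ j hγ (le_bot_iff.1 hj)

theorem rc4_Ps_sup {B : Type} [BooleanAlgebra B] {ν : ℕ → B} {U : List ℕ → Prop} (T : TB ν U)
    (hν : Function.Surjective ν) (b b' : B) : T.Ps (b ⊔ b') = T.Ps b ∪ T.Ps b' := by
  have h1 : b ⊔ b' = (bᶜ ⊓ b'ᶜ)ᶜ := by rw [compl_inf, compl_compl, compl_compl]
  rw [h1, T.Ps_compl hν, T.Ps_inf, T.Ps_compl hν, T.Ps_compl hν]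
  ext γ
  have e1 : γ ∈ T.Ps b → U γ := fun h => h.1
  have e2 : γ ∈ T.Ps b' → U γ := fun h => h.1
  constructor
  · rintro ⟨hγ, h2⟩
    by_contra h3
    apply h2
    exact ⟨⟨hγ, fun h => h3 (Or.inl h)⟩, hγ, fun h => h3 (Or.inr h)⟩
  · rintro (h | h)
    · exact ⟨e1 h, fun h2 => h2.1.2 h⟩
    · exact ⟨e2 h, fun h2 => h2.2.2 h⟩

theorem rc4_Ps_fsup {B : Type} [BooleanAlgebra B] {ν : ℕ → B} {U : List ℕ → Prop} (T : TB ν U)
    (hν : Function.Surjective ν) (F : Finset ℕ) (g : ℕ → B) (γ : List ℕ) :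
    γ ∈ T.Ps (F.sup g) ↔ ∃ t ∈ F, γ ∈ T.Ps (g t) := by
  classical
  induction F using Finset.induction_on with
  | empty => simp [rc4_Ps_bot]
  | insert a F ha ih =>
    rw [Finset.sup_insert, rc4_Ps_sup T hν, Set.mem_union, ih]
    simp

theorem exists_PsiD {B : Type} [BooleanAlgebra B] [Nontrivial B] {ν : ℕ → B} (h : PiAlg 4 ν) :
    ∃ R : List Bool → Prop, ComputablePred R ∧ Nonempty (PsiD B R) := by
  classical
  obtain ⟨U, hU, ⟨T⟩⟩ := exists_TB h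
  obtain ⟨R, pt, hRc, h1, h2, h3, h4⟩ := exists_class hU T.tail
  have hν : Function.Surjective ν := h.1
  have hmem : ∀ b γ, U γ → (pt γ ∈ pt '' (T.Ps b) ↔ γ ∈ T.Ps b) := by
    intro b γ hγ
    constructor
    · rintro ⟨δ, hδ, he⟩
      rw [← h2 δ γ hδ.1 hγ he]
      exact hδ
    · exact fun hγ => ⟨γ, hγ, rfl⟩
  have hext : ∀ s t : Set (ℕ → Bool), s ⊆ NP R → t ⊆ NP R → (∀ γ, U γ → (pt γ ∈ s ↔ pt γ ∈ t)) → s = t := by
    intro s t hs ht hst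
    ext X
    constructor
    · intro hX
      obtain ⟨γ, hγ, rfl⟩ := (h1 X).1 (hs hX)
      exact (hst γ hγ).1 hX
    · intro hX
      obtain ⟨γ, hγ, rfl⟩ := (h1 X).1 (ht hX)
      exact (hst γ hγ).2 hX
  have hsub : ∀ b, pt '' (T.Ps b) ⊆ NP R := by
    rintro b _ ⟨γ, hγ, rfl⟩
    exact (h1 _).2 ⟨γ, hγ.1, rfl⟩
  have hpt : ∀ γ, U γ → pt γ ∈ NP R := fun γ hγ => (h1 _).2 ⟨γ, hγ, rfl⟩
  refine ⟨R, hRc, ⟨⟨fun b => pt '' (T.Ps b), ?_, ?_, ?_, ?_, ?_, ?_⟩⟩⟩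
  · apply hext _ _ (hsub ⊤) (le_refl _)
    intro γ hγ
    rw [hmem ⊤ γ hγ, T.Ps_top]
    exact ⟨fun _ => hpt γ hγ, fun _ => hγ⟩
  · intro b b'
    apply hext _ _ (hsub _) (fun X hX => hsub b hX.1)
    intro γ hγ
    rw [Set.mem_inter_iff, hmem _ γ hγ, hmem _ γ hγ, hmem _ γ hγ, T.Ps_inf, Set.mem_inter_iff]
  · intro b
    apply hext _ _ (hsub _) (fun X hX => hX.1)
    intro γ hγ
    rw [hmem _ γ hγ, T.Ps_compl hν]
    constructor
    · rintro ⟨_, h5⟩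
      exact ⟨hpt γ hγ, fun h6 => h5 ((hmem b γ hγ).1 h6)⟩
    · rintro ⟨_, h5⟩
      exact ⟨hγ, fun h6 => h5 ((hmem b γ hγ).2 h6)⟩
  · intro b b' hbb
    apply T.Ps_injective hν
    ext γ
    constructor
    · intro hγ
      have h5 : pt γ ∈ pt '' (T.Ps b') := by
        have h6 : pt γ ∈ pt '' (T.Ps b) := ⟨γ, hγ, rfl⟩
        have h7 : pt '' (T.Ps b) = pt '' (T.Ps b') := hbb
        rwa [h7] at h6
      exact (hmem b' γ hγ.1).1 h5
    · intro hγ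
      have h5 : pt γ ∈ pt '' (T.Ps b) := by
        have h6 : pt γ ∈ pt '' (T.Ps b') := ⟨γ, hγ, rfl⟩
        have h7 : pt '' (T.Ps b) = pt '' (T.Ps b') := hbb
        rwa [← h7] at h6
      exact (hmem b γ hγ.1).1 h5
  · intro b
    have h5 : T.Ps b ∈ {s : Set (List ℕ) | ∃ N, ∀ γ δ, U γ → U δ → pre (pt γ) N = pre (pt δ) N → (γ ∈ s ↔ δ ∈ s)} := by
      apply T.Ps_mem hν
      · intro γ hγ
        obtain ⟨τ, hτ⟩ := h3 γ hγ
        refine ⟨τ.length, fun γ' δ hγ' hδ he => ?_⟩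
        have e1 := hτ γ' hγ'
        have e2 := hτ δ hδ
        rw [he, e2] at e1
        constructor
        · rintro ⟨_, h6⟩
          exact ⟨hδ, e1.2 h6⟩
        · rintro ⟨_, h6⟩
          exact ⟨hγ', e1.1 h6⟩
      · rintro s ⟨N, hN⟩
        refine ⟨N, fun γ δ hγ hδ he => ?_⟩
        have e1 := hN γ δ hγ hδ he
        constructor
        · rintro ⟨_, h6⟩
          exact ⟨hδ, fun h7 => h6 (e1.2 h7)⟩
        · rintro ⟨_, h6⟩
          exact ⟨hγ, fun h7 => h6 (e1.1 h7)⟩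
      · rintro s ⟨N, hN⟩ t ⟨M, hM⟩
        refine ⟨max N M, fun γ δ hγ hδ he => ?_⟩
        rw [pre_eq_iff] at he
        have e1 := hN γ δ hγ hδ ((pre_eq_iff _ _ _).2 (fun i hi => he i (lt_of_lt_of_le hi (le_max_left _ _))))
        have e2 := hM γ δ hγ hδ ((pre_eq_iff _ _ _).2 (fun i hi => he i (lt_of_lt_of_le hi (le_max_right _ _))))
        rw [Set.mem_inter_iff, Set.mem_inter_iff, e1, e2]
    obtain ⟨N, hN⟩ := h5
    refine ⟨N, fun X hX Y hY he => ?_⟩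
    obtain ⟨γ, hγ, rfl⟩ := (h1 X).1 hX
    obtain ⟨δ, hδ, rfl⟩ := (h1 Y).1 hY
    show pt γ ∈ pt '' (T.Ps b) ↔ pt δ ∈ pt '' (T.Ps b)
    rw [hmem b γ hγ, hmem b δ hδ]
    exact hN γ δ hγ hδ he
  · intro τ
    rcases h4 τ with h5 | ⟨γ, hγ, F, hF⟩
    · refine ⟨⊥, ?_⟩
      show pt '' (T.Ps ⊥) = _
      rw [rc4_Ps_bot, Set.image_empty]
      symm
      apply Set.eq_empty_of_forall_notMem
      rintro X ⟨hX, hXτ⟩
      obtain ⟨δ, hδ, rfl⟩ := (h1 X).1 hX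
      exact h5 δ hδ hXτ
    · refine ⟨T.d γ 0 ⊓ ((F.filter (fun t => U (t :: γ))).sup (fun t => T.d (t :: γ) 0))ᶜ, ?_⟩
      apply hext _ _ (hsub _) (fun X hX => hX.1)
      intro δ hδ
      rw [hmem _ δ hδ, T.Ps_inf, T.Ps_compl hν, Set.mem_inter_iff, T.Ps_d0 hγ]
      have e1 : pt δ ∈ NP R ∩ Cyl τ ↔ pre (pt δ) τ.length = τ := ⟨fun h6 => h6.2, fun h6 => ⟨hpt δ hδ, h6⟩⟩
      rw [e1, hF δ hδ]
      constructor
      · rintro ⟨h6, _, h7⟩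
        refine ⟨h6.2, fun t ht hs => ?_⟩
        apply h7
        rw [rc4_Ps_fsup T hν]
        have hUt : U (t :: γ) := T.U_suffix hδ hs
        refine ⟨t, by rw [Finset.mem_filter]; exact ⟨ht, hUt⟩, ?_⟩
        rw [T.Ps_d0 hUt]
        exact ⟨hδ, hs⟩
      · rintro ⟨h6, h7⟩
        refine ⟨⟨hδ, h6⟩, hδ, fun h8 => ?_⟩
        rw [rc4_Ps_fsup T hν] at h8
        obtain ⟨t, ht, h9⟩ := h8
        rw [Finset.mem_filter] at ht
        rw [T.Ps_d0 ht.2] at h9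
        exact h7 t ht.1 h9.2

end Pool.Agent.LIN
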