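import Pool.Agent.LIN.RC4

/-! # [LIN-RC5] Finite dependence

`s` is the union of the traces of the cylinders of the strings `τ` of length `N` that are prefixes `pre X N` of points `X ∈ s`; these are finitely many strings (`List Bool` of length `N`),
`Ψ` turns finite suprema into unions (`b ⊔ b' = (bᶜ ⊓ b'ᶜ)ᶜ`). -/

namespace Pool.Agent.LIN

namespace PsiD

variable {B : Type} [BooleanAlgebra B] {R : List Bool → Prop} (P : PsiD B R)

theorem sub (b : B) : P.Ψ b ⊆ NP R := by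
  have h := P.inf b ⊤
  rw [inf_top_eq, P.top] at h
  rw [h]
  exact Set.inter_subset_right

theorem bot : P.Ψ ⊥ = ∅ := by
  have h := P.compl ⊤
  rw [compl_top, P.top] at h
  rw [h]
  ext X
  exact ⟨fun hX => hX.2 hX.1, fun hX => absurd hX (Set.notMem_empty X)⟩

theorem sup (b b' : B) : P.Ψ (b ⊔ b') = P.Ψ b ∪ P.Ψ b' := by
  have h1 : b ⊔ b' = (bᶜ ⊓ b'ᶜ)ᶜ := by rw [compl_inf, compl_compl, compl_compl]
  rw [h1, P.compl, P.inf, P.compl, P.compl]
  ext X
  have e1 : X ∈ P.Ψ b → X ∈ NP R := fun h => P.sub b h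
  have e2 : X ∈ P.Ψ b' → X ∈ NP R := fun h => P.sub b' h
  constructor
  · rintro ⟨hX, h2⟩
    by_contra h3
    apply h2
    exact ⟨⟨hX, fun h => h3 (Or.inl h)⟩, hX, fun h => h3 (Or.inr h)⟩
  · rintro (h | h)
    · exact ⟨e1 h, fun h2 => h2.1.2 h⟩
    · exact ⟨e2 h, fun h2 => h2.2.2 h⟩

theorem le_iff (b b' : B) : b ≤ b' ↔ P.Ψ b ⊆ P.Ψ b' := by
  constructor
  · intro h
    have h1 := P.inf b b'
    rw [inf_eq_left.2 h] at h1
    rw [h1]
    exact Set.inter_subset_right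
  · intro h
    rw [← inf_eq_left]
    apply P.inj
    rw [P.inf]
    exact Set.inter_eq_left.2 h

theorem of_dep {s : Set (ℕ → Bool)} (hs : s ⊆ NP R) {N : ℕ}
    (h : ∀ X ∈ NP R, ∀ Y ∈ NP R, pre X N = pre Y N → (X ∈ s ↔ Y ∈ s)) : ∃ b, P.Ψ b = s := by
  classical
  have key : ∀ G : Finset (List Bool), ∃ b, ∀ X, X ∈ P.Ψ b ↔ X ∈ NP R ∧ ∃ τ ∈ G, X ∈ Cyl τ := by
    intro G
    induction G using Finset.induction_on with
    | empty =>
      refine ⟨⊥, fun X => ?_⟩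
      rw [P.bot]
      simp
    | insert τ G _ ih =>
      obtain ⟨b, hb⟩ := ih
      obtain ⟨b', hb'⟩ := P.cyl τ
      refine ⟨b ⊔ b', fun X => ?_⟩
      rw [P.sup, Set.mem_union, hb, hb', Set.mem_inter_iff]
      constructor
      · rintro (⟨h1, σ, h2, h3⟩ | ⟨h1, h2⟩)
        · exact ⟨h1, σ, Finset.mem_insert_of_mem h2, h3⟩
        · exact ⟨h1, τ, Finset.mem_insert_self τ G, h2⟩
      · rintro ⟨h1, σ, h2, h3⟩
        rcases Finset.mem_insert.1 h2 with rfl | h2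
        · exact Or.inr ⟨h1, h3⟩
        · exact Or.inl ⟨h1, σ, h2, h3⟩
  have hfin : {τ : List Bool | ∃ X ∈ s, pre X N = τ}.Finite := by
    apply (List.finite_length_eq Bool N).subset
    rintro τ ⟨X, _, h1⟩
    rw [← h1]
    exact pre_length X N
  obtain ⟨b, hb⟩ := key hfin.toFinset
  refine ⟨b, ?_⟩
  ext X
  rw [hb]
  constructor
  · rintro ⟨hX, τ, hτ, hXτ⟩
    rw [Set.Finite.mem_toFinset] at hτ
    obtain ⟨Y, hY, rfl⟩ := hτ
    have h1 : pre X (pre Y N).length = pre Y N := hXτ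
    rw [pre_length] at h1
    exact (h X hX Y (hs hY) h1).2 hY
  · intro hX
    refine ⟨hs hX, pre X N, ?_, ?_⟩
    · rw [Set.Finite.mem_toFinset]
      exact ⟨X, hX, rfl⟩
    · show pre X (pre X N).length = pre X N
      rw [pre_length]

end PsiD

end Pool.Agent.LIN
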