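import Pool.Agent.LIN.RH6

/-! # [LIN-RD1] Codes of Boolean combinations of sentences

`sent E (cImp a b) = (sent E a).imp (sent E b)`: unfold `sent`, `formOf` (`rw [formOf]`), `(4 * Nat.pair a b + 3 - 1) % 4 = 2`. -/

namespace Pool.Agent.LIN

open FirstOrder

/-- code of an implication -/
def cImp (a b : ℕ) : ℕ := 4 * Nat.pair a b + 3

/-- code of a negation -/
def cNot (a : ℕ) : ℕ := cImp a 0

/-- code of a conjunction -/
def cAnd (a b : ℕ) : ℕ := cNot (cImp a (cNot b))

/-- code of a disjunction -/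
def cOr (a b : ℕ) : ℕ := cImp (cNot a) b

theorem cImp_comp : Computable₂ cImp := by
  have h1 : Computable (fun x : ℕ × ℕ => Nat.pair x.1 x.2) := (Primrec₂.natPair).to_comp
  have h2 : Primrec (fun n : ℕ => 4 * n + 3) :=
    Primrec.nat_add.comp (Primrec.nat_mul.comp (Primrec.const 4) Primrec.id) (Primrec.const 3)
  exact h2.to_comp.comp h1

theorem cNot_comp : Computable cNot := by
  exact cImp_comp.comp Computable.id (Computable.const 0)

theorem cAnd_comp : Computable₂ cAnd := by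
  exact cNot_comp.comp (cImp_comp.comp Computable.fst (cNot_comp.comp Computable.snd))

theorem cOr_comp : Computable₂ cOr := by
  exact cImp_comp.comp (cNot_comp.comp Computable.fst) Computable.snd

variable {L : FirstOrder.Language.{0, 0}} (E : Enum L)

theorem sent_zero : sent E 0 = ⊥ := by
  unfold sent
  rw [formOf]
  simp

theorem sent_imp (a b : ℕ) : sent E (cImp a b) = (sent E a).imp (sent E b) := by
  have h0 : cImp a b ≠ 0 := by unfold cImp; omega
  have h1 : (cImp a b - 1) % 4 = 2 := by unfold cImp; omega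
  have h2 : (cImp a b - 1) / 4 = Nat.pair a b := by unfold cImp; omega
  have h3 : (Nat.unpair ((cImp a b - 1) / 4)).1 = a := by rw [h2, Nat.unpair_pair]
  have h4 : (Nat.unpair ((cImp a b - 1) / 4)).2 = b := by rw [h2, Nat.unpair_pair]
  show formOf E 0 (cImp a b) = (formOf E 0 a).imp (formOf E 0 b)
  rw [formOf]
  rw [dif_neg h0, dif_neg (by omega), dif_neg (by omega), dif_pos h1]
  simp only [h3, h4]

theorem realize_cImp (a b : ℕ) (M : Type) [L.Structure M] [Nonempty M] :
    (M ⊨ sent E (cImp a b)) ↔ ((M ⊨ sent E a) → (M ⊨ sent E b)) := by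
  rw [sent_imp]
  exact Iff.rfl

theorem realize_cNot (a : ℕ) (M : Type) [L.Structure M] [Nonempty M] :
    (M ⊨ sent E (cNot a)) ↔ ¬ (M ⊨ sent E a) := by
  unfold cNot
  rw [realize_cImp, sent_zero]
  exact Iff.rfl

theorem realize_cAnd (a b : ℕ) (M : Type) [L.Structure M] [Nonempty M] :
    (M ⊨ sent E (cAnd a b)) ↔ (M ⊨ sent E a) ∧ (M ⊨ sent E b) := by
  unfold cAnd
  rw [realize_cNot, realize_cImp, realize_cNot]
  tauto

theorem realize_cOr (a b : ℕ) (M : Type) [L.Structure M] [Nonempty M] :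
    (M ⊨ sent E (cOr a b)) ↔ (M ⊨ sent E a) ∨ (M ⊨ sent E b) := by
  unfold cOr
  rw [realize_cImp, realize_cNot]
  tauto

theorem IsTh.cNot_mem {T : L.Theory} (h : IsTh T) (a : ℕ) : sent E (cNot a) ∈ T ↔ sent E a ∉ T := by
  obtain ⟨M, _, _, rfl⟩ := h
  exact realize_cNot E a M

theorem IsTh.cAnd_mem {T : L.Theory} (h : IsTh T) (a b : ℕ) :
    sent E (cAnd a b) ∈ T ↔ sent E a ∈ T ∧ sent E b ∈ T := by
  obtain ⟨M, _, _, rfl⟩ := h
  exact realize_cAnd E a b M

theorem IsTh.cOr_mem {T : L.Theory} (h : IsTh T) (a b : ℕ) :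
    sent E (cOr a b) ∈ T ↔ sent E a ∈ T ∨ sent E b ∈ T := by
  obtain ⟨M, _, _, rfl⟩ := h
  exact realize_cOr E a b M

end Pool.Agent.LIN
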