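import Pool.Agent.LIN.RD1

/-! # [LIN-RD2] Every sentence has a code

`exists_args`: for `c : Fin m → ℕ` there is a code `x` with `argc x j = c j` for all `j < m` (`x = pair (c 0) (pair (c 1) ...)`).
`termOf_surj`: induction on the term: `Sum.inl` impossible (`Empty`), `var (Sum.inr k)`: `c = 2 * (n - 1 - k)`; `func f ts` with `f : L.Functions m`: `i = E.F.symm ⟨m, f⟩`,
`c = 2 * Nat.pair i x + 1` with the argument code `x` of the codes of the `ts j`; unfold `termOf`; `E.F i = ⟨m, f⟩` (`E.F.apply_symm_apply`): generalize `E.F ⟨i, _⟩` and substitute.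
`formOf_surj`: induction on the formula, same for `equal`, `rel`, `imp`, `all`. -/

namespace Pool.Agent.LIN

open FirstOrder

variable {L : FirstOrder.Language.{0, 0}} (E : Enum L)

theorem exists_args {m : ℕ} (c : Fin m → ℕ) : ∃ x : ℕ, ∀ j : Fin m, argc x j = c j := by
  induction m with
  | zero => exact ⟨0, fun j => j.elim0⟩
  | succ m ih =>
    obtain ⟨x, hx⟩ := ih (fun j => c j.succ)
    refine ⟨Nat.pair (c 0) x, fun j => ?_⟩
    refine Fin.cases ?_ (fun j => ?_) j
    · show (Nat.unpair (Nat.pair (c 0) x)).1 = c 0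
      rw [Nat.unpair_pair]
    · show argc (Nat.unpair (Nat.pair (c 0) x)).2 j = c j.succ
      rw [Nat.unpair_pair]
      exact hx j

theorem RD2_term {n : ℕ} (i : ℕ) (hi : i < E.nF) (l : ℕ) (f : L.Functions l)
    (hf : E.F ⟨i, hi⟩ = ⟨l, f⟩) (ts : Fin l → L.Term (Empty ⊕ Fin n)) (x : ℕ)
    (hx : ∀ j : Fin l, termOf E n (argc x j) = some (ts j)) :
    termOf E n (2 * Nat.pair i x + 1) = some (FirstOrder.Language.Term.func f ts) := by
  have h0 : ¬ (2 * Nat.pair i x + 1) % 2 = 0 := by omega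
  have h1 : (2 * Nat.pair i x + 1) / 2 = Nat.pair i x := by omega
  rw [termOf, dif_neg h0]
  simp only [h1, Nat.unpair_pair]
  rw [dif_pos hi]
  have key : ∀ (s : Σ n, L.Functions n), s = ⟨l, f⟩ →
      (if h : ∀ j : Fin s.1, (termOf E n (argc x j)).isSome then
        some (FirstOrder.Language.Term.func s.2 (fun j => (termOf E n (argc x j)).get (h j)))
        else none) = some (FirstOrder.Language.Term.func f ts) := by
    intro s hs
    subst hs
    have h2 : ∀ j : Fin l, (termOf E n (argc x j)).isSome := fun j => by rw [hx j]; rfl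
    rw [dif_pos h2]
    refine congrArg some (congrArg (FirstOrder.Language.Term.func f) ?_)
    funext j
    exact Option.get_of_eq_some _ (hx j)
  refine key _ ?_
  rw [← hf]
  refine congrArg E.F (Fin.ext ?_)
  show (Nat.unpair ((2 * Nat.pair i x + 1) / 2)).1 = i
  rw [h1, Nat.unpair_pair]

theorem RD2_rel {n : ℕ} (i : ℕ) (hi : i < E.nR) (l : ℕ) (f : L.Relations l)
    (hf : E.R ⟨i, hi⟩ = ⟨l, f⟩) (ts : Fin l → L.Term (Empty ⊕ Fin n)) (x : ℕ)
    (hx : ∀ j : Fin l, termOf E n (argc x j) = some (ts j)) :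
    formOf E n (4 * Nat.pair i x + 2) = FirstOrder.Language.BoundedFormula.rel f ts := by
  have h0 : ¬ (4 * Nat.pair i x + 2) = 0 := by omega
  have h1 : ¬ (4 * Nat.pair i x + 2 - 1) % 4 = 0 := by omega
  have h2 : (4 * Nat.pair i x + 2 - 1) % 4 = 1 := by omega
  have h3 : (4 * Nat.pair i x + 2 - 1) / 4 = Nat.pair i x := by omega
  rw [formOf, dif_neg h0, dif_neg h1, dif_pos h2]
  simp only [h3, Nat.unpair_pair]
  rw [dif_pos hi]
  have key : ∀ (s : Σ n, L.Relations n), s = ⟨l, f⟩ →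
      (if h : ∀ j : Fin s.1, (termOf E n (argc x j)).isSome then
        FirstOrder.Language.BoundedFormula.rel s.2 (fun j => (termOf E n (argc x j)).get (h j))
        else (⊥ : L.BoundedFormula Empty n)) = FirstOrder.Language.BoundedFormula.rel f ts := by
    intro s hs
    subst hs
    have h2 : ∀ j : Fin l, (termOf E n (argc x j)).isSome := fun j => by rw [hx j]; rfl
    rw [dif_pos h2]
    refine congrArg (FirstOrder.Language.BoundedFormula.rel f) ?_
    funext j
    exact Option.get_of_eq_some _ (hx j)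
  refine key _ ?_
  rw [← hf]
  refine congrArg E.R (Fin.ext ?_)
  show (Nat.unpair ((4 * Nat.pair i x + 2 - 1) / 4)).1 = i
  rw [h3, Nat.unpair_pair]

theorem termOf_surj {n : ℕ} (t : L.Term (Empty ⊕ Fin n)) : ∃ c, termOf E n c = some t := by
  induction t with
  | var v =>
    rcases v with e | k
    · exact e.elim
    · refine ⟨2 * (n - 1 - k), ?_⟩
      have hk := k.2
      have h0 : 2 * (n - 1 - (k : ℕ)) % 2 = 0 := by omega
      have h1 : 2 * (n - 1 - (k : ℕ)) / 2 < n := by omega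
      rw [termOf, dif_pos h0, dif_pos h1]
      refine congrArg some (congrArg FirstOrder.Language.Term.var (congrArg Sum.inr ?_))
      apply Fin.ext
      show n - 1 - 2 * (n - 1 - (k : ℕ)) / 2 = k
      omega
  | func f ts ih =>
    choose c hc using ih
    obtain ⟨x, hx⟩ := exists_args c
    refine ⟨2 * Nat.pair (E.F.symm ⟨_, f⟩ : Fin E.nF) x + 1, ?_⟩
    refine RD2_term E _ (E.F.symm ⟨_, f⟩ : Fin E.nF).2 _ f ?_ ts x (fun j => ?_)
    · exact E.F.apply_symm_apply ⟨_, f⟩
    · rw [hx j]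
      exact hc j

theorem formOf_surj {n : ℕ} (φ : L.BoundedFormula Empty n) : ∃ c, formOf E n c = φ := by
  induction φ with
  | falsum =>
    refine ⟨0, ?_⟩
    rw [formOf, dif_pos rfl]
    rfl
  | equal t s =>
    obtain ⟨a, ha⟩ := termOf_surj E t
    obtain ⟨b, hb⟩ := termOf_surj E s
    refine ⟨4 * Nat.pair a b + 1, ?_⟩
    have h0 : ¬ (4 * Nat.pair a b + 1) = 0 := by omega
    have h1 : (4 * Nat.pair a b + 1 - 1) % 4 = 0 := by omega
    have h3 : (4 * Nat.pair a b + 1 - 1) / 4 = Nat.pair a b := by omega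
    rw [formOf, dif_neg h0, dif_pos h1]
    simp only [h3, Nat.unpair_pair, ha, hb]
  | rel R ts =>
    choose c hc using fun j => termOf_surj E (ts j)
    obtain ⟨x, hx⟩ := exists_args c
    refine ⟨4 * Nat.pair (E.R.symm ⟨_, R⟩ : Fin E.nR) x + 2, ?_⟩
    refine RD2_rel E _ (E.R.symm ⟨_, R⟩ : Fin E.nR).2 _ R ?_ ts x (fun j => ?_)
    · exact E.R.apply_symm_apply ⟨_, R⟩
    · rw [hx j]
      exact hc j
  | imp φ ψ ihφ ihψ =>
    obtain ⟨a, ha⟩ := ihφ
    obtain ⟨b, hb⟩ := ihψ
    refine ⟨4 * Nat.pair a b + 3, ?_⟩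
    have h0 : ¬ (4 * Nat.pair a b + 3) = 0 := by omega
    have h1 : ¬ (4 * Nat.pair a b + 3 - 1) % 4 = 0 := by omega
    have h2 : ¬ (4 * Nat.pair a b + 3 - 1) % 4 = 1 := by omega
    have h2' : (4 * Nat.pair a b + 3 - 1) % 4 = 2 := by omega
    have h3 : (4 * Nat.pair a b + 3 - 1) / 4 = Nat.pair a b := by omega
    rw [formOf, dif_neg h0, dif_neg h1, dif_neg h2, dif_pos h2']
    simp only [h3, Nat.unpair_pair, ha, hb]
  | all φ ih =>
    obtain ⟨a, ha⟩ := ih
    refine ⟨4 * a + 4, ?_⟩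
    have h0 : ¬ (4 * a + 4) = 0 := by omega
    have h1 : ¬ (4 * a + 4 - 1) % 4 = 0 := by omega
    have h2 : ¬ (4 * a + 4 - 1) % 4 = 1 := by omega
    have h2' : ¬ (4 * a + 4 - 1) % 4 = 2 := by omega
    have h3 : (4 * a + 4 - 1) / 4 = a := by omega
    rw [formOf, dif_neg h0, dif_neg h1, dif_neg h2, dif_neg h2']
    simp only [h3, ha]

theorem sent_surj (φ : L.Sentence) : ∃ c, sent E c = φ := formOf_surj E φ

end Pool.Agent.LIN
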