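import Pool.Agent.LIN.RD2

/-! # [LIN-RD3] Complete theories in terms of codes

`isTh_of_char`: `T = {φ | ∃ c, sent E c = φ ∧ χ c = true}` is finitely satisfiable (a finite subset is `{sent E c | c ∈ s}` with `χ = true` on `s`; by `h2` and induction there is `c` with `χ c = true` and
`M ⊨ sent E c → M ⊨` all of them; `h3`), so it has a model `M : ModelType.{0,0,0} T` by compactness (`FirstOrder.Language.Theory.isSatisfiable_iff_isFinitelySatisfiable`); if `χ c = false` then `χ (cNot c) = true` so `M ⊭ sent E c`.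
So `sent E c ∈ completeTheory M ↔ χ c = true`.
`finAx_iff_codes`: `{φ} ⊨ᵇ ψ` iff `φ ⊓ ¬ψ` has no model; `sent_surj`. -/

namespace Pool.Agent.LIN

open FirstOrder

variable {L : FirstOrder.Language.{0, 0}} (E : Enum L)

/-- the sentence number `c` is satisfiable -/
def Sat (c : ℕ) : Prop := ∃ (M : Type) (_ : L.Structure M) (_ : Nonempty M), M ⊨ sent E c

theorem Sat_pg (h : SatStatement) : Pg 1 (Sat E) := Sg.of_re (h L E)

theorem rd3_fin (χ : ℕ → Bool) (h1 : ∀ c, χ (cNot c) = !χ c)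
    (h2 : ∀ c c', χ c = true → χ c' = true → χ (cAnd c c') = true) (s : Finset L.Sentence)
    (hs : ∀ φ ∈ s, ∃ c, sent E c = φ ∧ χ c = true) :
    ∃ c, χ c = true ∧ ∀ (M : Type) (_ : L.Structure M) (_ : Nonempty M), M ⊨ sent E c →
      ∀ φ ∈ s, M ⊨ φ := by
  classical
  induction s using Finset.induction_on with
  | empty =>
    have h3 : ∃ c, χ c = true := by
      by_cases h : χ 0 = true
      · exact ⟨0, h⟩
      · refine ⟨cNot 0, ?_⟩
        rw [h1, Bool.eq_false_iff.2 h]
        rfl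
    obtain ⟨c, hc⟩ := h3
    exact ⟨c, hc, fun _ _ _ _ φ hφ => absurd hφ (Finset.notMem_empty φ)⟩
  | insert φ s hφ ih =>
    obtain ⟨c2, hc2, hM2⟩ := ih fun ψ hψ => hs ψ (Finset.mem_insert_of_mem hψ)
    obtain ⟨c1, hc1, hc1'⟩ := hs φ (Finset.mem_insert_self _ _)
    refine ⟨cAnd c1 c2, h2 _ _ hc1' hc2, ?_⟩
    intro M i1 i2 hM ψ hψ
    rw [realize_cAnd] at hM
    rcases Finset.mem_insert.1 hψ with h | h
    · rw [h, ← hc1]
      exact hM.1
    · exact hM2 M i1 i2 hM.2 ψ h

theorem isTh_of_char (χ : ℕ → Bool) (h1 : ∀ c, χ (cNot c) = !χ c)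
    (h2 : ∀ c c', χ c = true → χ c' = true → χ (cAnd c c') = true) (h3 : ∀ c, χ c = true → Sat E c) :
    ∃ T : L.Theory, IsTh T ∧ ∀ c, sent E c ∈ T ↔ χ c = true := by
  obtain ⟨T0, hT0⟩ : ∃ T0 : L.Theory, T0 = {φ | ∃ c, sent E c = φ ∧ χ c = true} := ⟨_, rfl⟩
  have hsat : T0.IsSatisfiable := by
    rw [FirstOrder.Language.Theory.isSatisfiable_iff_isFinitelySatisfiable]
    intro s hs
    obtain ⟨c, hc, hM⟩ := rd3_fin E χ h1 h2 s (fun φ hφ => by
      have := hs hφ
      rw [hT0] at this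
      exact this)
    obtain ⟨M, i1, i2, hMc⟩ := h3 c hc
    have : M ⊨ (s : L.Theory) := by
      rw [FirstOrder.Language.Theory.model_iff]
      intro φ hφ
      exact hM M i1 i2 hMc φ hφ
    exact FirstOrder.Language.Theory.Model.isSatisfiable M
  obtain ⟨M⟩ := hsat
  have hMT : ∀ c, χ c = true → (M ⊨ sent E c) := by
    intro c hc
    have hm := (FirstOrder.Language.Theory.model_iff (M := M) T0).1 inferInstance
    exact hm _ (by rw [hT0]; exact ⟨c, rfl, hc⟩)
  refine ⟨L.completeTheory M, ⟨M, inferInstance, inferInstance, rfl⟩, fun c => ?_⟩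
  rw [FirstOrder.Language.mem_completeTheory]
  constructor
  · intro h
    by_contra hc
    have h4 : χ (cNot c) = true := by
      rw [h1, Bool.eq_false_iff.2 hc]
      rfl
    have h5 := hMT _ h4
    rw [realize_cNot] at h5
    exact h5 h
  · exact hMT c

theorem sat_of_mem {T : L.Theory} (h : IsTh T) {c : ℕ} (hc : sent E c ∈ T) : Sat E c := by
  obtain ⟨M, i1, i2, rfl⟩ := h
  rw [FirstOrder.Language.mem_completeTheory] at hc
  exact ⟨M, i1, i2, hc⟩

theorem finAx_iff_codes {T : L.Theory} (h : IsTh T) :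
    FinAx T ↔ ∃ c, sent E c ∈ T ∧ ∀ c', sent E c' ∈ T → ¬ Sat E (cAnd c (cNot c')) := by
  constructor
  · rintro ⟨φ, hφ, hall⟩
    obtain ⟨c, rfl⟩ := sent_surj E φ
    refine ⟨c, hφ, fun c' hc' => ?_⟩
    rintro ⟨M, i1, i2, hM⟩
    rw [realize_cAnd, realize_cNot] at hM
    have hmod : M ⊨ ({sent E c} : L.Theory) := by
      rw [FirstOrder.Language.Theory.model_iff]
      intro φ hφ
      rw [Set.mem_singleton_iff.1 hφ]
      exact hM.1
    have h1 := FirstOrder.Language.Theory.models_sentence_iff.1 (hall _ hc')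
      (FirstOrder.Language.Theory.ModelType.of _ M)
    exact hM.2 h1
  · rintro ⟨c, hc, hall⟩
    refine ⟨_, hc, fun ψ hψ => ?_⟩
    obtain ⟨c', rfl⟩ := sent_surj E ψ
    rw [FirstOrder.Language.Theory.models_sentence_iff]
    intro M
    by_contra hcon
    apply hall c' hψ
    refine ⟨M, inferInstance, inferInstance, ?_⟩
    rw [realize_cAnd, realize_cNot]
    refine ⟨?_, hcon⟩
    have hm := (FirstOrder.Language.Theory.model_iff (M := M) ({sent E c} : L.Theory)).1 inferInstance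
    exact hm _ (Set.mem_singleton _)

end Pool.Agent.LIN
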