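import Pool.Agent.LIN.RD3

/-! # [LIN-RD4] Decidable complete theories that are not finitely axiomatisable, by indices

`GN e`: the `e`-th partial recursive function is the characteristic function of such a theory.
`exists_iff`: (→) `T ∈ ND E`: the function `c ↦ if sent E c ∈ T then 1 else 0` is computable (`DecTh`), `exists_ev` gives `e`; check `GN e` (`IsTh.cNot_mem`, `IsTh.cAnd_mem`, `sat_of_mem`, `finAx_iff_codes`).
(←) `χ c = decide (ev e c 1)` (classical); `isTh_of_char`; `DecTh` by `computable_of_ev` for the function with values `0`, `1`; `finAx_iff_codes`. -/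

namespace Pool.Agent.LIN

open FirstOrder

variable {L : FirstOrder.Language.{0, 0}} (E : Enum L)

/-- index of the characteristic function of a complete decidable theory that is not finitely
axiomatisable -/
def GN (e : ℕ) : Prop :=
  (∀ c, ev e c 0 ∨ ev e c 1) ∧
  (∀ c, (ev e c 0 ∧ ev e (cNot c) 1) ∨ (ev e c 1 ∧ ev e (cNot c) 0)) ∧
  (∀ c c', ev e c 1 → ev e c' 1 → ev e (cAnd c c') 1) ∧
  (∀ c, ev e c 1 → Sat E c) ∧
  (∀ c, ev e c 1 → ∃ c', ev e c' 1 ∧ Sat E (cAnd c (cNot c')))

theorem exists_iff (p q : ℕ) : (∃ T ∈ ND E, ¬ (sent E p ∈ T ↔ sent E q ∈ T)) ↔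
    ∃ e, GN E e ∧ ((ev e p 1 ∧ ev e q 0) ∨ (ev e p 0 ∧ ev e q 1)) := by
  classical
  constructor
  · rintro ⟨T, ⟨hT, hdec, hfa⟩, hpq⟩
    obtain ⟨b, hb, hbe⟩ := ComputablePred.computable_iff.1 hdec
    have hbe' : ∀ c, sent E c ∈ T ↔ b c = true := fun c => by
      have := congrFun hbe c
      simpa using this
    obtain ⟨e, he⟩ := exists_ev (f := fun c => cond (b c) 1 0)
      (Computable.cond hb (Computable.const 1) (Computable.const 0))
    have h1 : ∀ c, ev e c 1 ↔ sent E c ∈ T := by
      intro c
      rw [hbe']
      constructor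
      · intro h
        have := ev_unique h (he c)
        by_contra hc
        rw [Bool.not_eq_true] at hc
        simp [hc] at this
      · intro h
        have := he c
        simpa [h] using this
    have h0 : ∀ c, ev e c 0 ↔ sent E c ∉ T := by
      intro c
      rw [hbe']
      constructor
      · intro h hc
        have := ev_unique h (he c)
        simp [hc] at this
      · intro h
        have := he c
        rw [Bool.not_eq_true] at h
        simpa [h] using this
    refine ⟨e, ⟨?_, ?_, ?_, ?_, ?_⟩, ?_⟩
    · intro c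
      rw [h0, h1]
      exact (em _).symm
    · intro c
      rw [h0, h1, h0, h1, hT.cNot_mem E]
      by_cases hc : sent E c ∈ T
      · right; exact ⟨hc, fun h => h hc⟩
      · left; exact ⟨hc, hc⟩
    · intro c c' hc hc'
      rw [h1] at hc hc' ⊢
      exact (hT.cAnd_mem E c c').2 ⟨hc, hc'⟩
    · intro c hc
      exact sat_of_mem E hT ((h1 c).1 hc)
    · intro c hc
      by_contra hne
      push Not at hne
      apply hfa
      rw [finAx_iff_codes E hT]
      exact ⟨c, (h1 c).1 hc, fun c' hc' => hne c' ((h1 c').2 hc')⟩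
    · rw [h1, h1, h0, h0]
      tauto
  · rintro ⟨e, ⟨g1, g2, g3, g4, g5⟩, hpq⟩
    have h01 : ∀ c, ev e c 0 → ¬ ev e c 1 := fun c h h' => by
      have := ev_unique h h'
      omega
    obtain ⟨T, hT, hTc⟩ := isTh_of_char E (fun c => decide (ev e c 1))
      (fun c => by
        rcases g2 c with ⟨ha, hb⟩ | ⟨ha, hb⟩
        · simp [h01 c ha, hb]
        · simp [h01 _ hb, ha])
      (fun c c' hc hc' => by
        simp only [decide_eq_true_eq] at hc hc' ⊢
        exact g3 c c' hc hc')
      (fun c hc => by
        simp only [decide_eq_true_eq] at hc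
        exact g4 c hc)
    have hTc' : ∀ c, sent E c ∈ T ↔ ev e c 1 := fun c => by
      rw [hTc c]; simp
    have hcomp : Computable (fun c => if ev e c 1 then 1 else 0) := by
      apply computable_of_ev (e := e)
      intro c
      by_cases h : ev e c 1
      · rw [if_pos h]; exact h
      · rw [if_neg h]
        exact (g1 c).resolve_right h
    refine ⟨T, ⟨hT, ?_, ?_⟩, ?_⟩
    · refine ComputablePred.computable_iff.2
        ⟨fun c => Nat.casesOn (if ev e c 1 then 1 else 0) false (fun _ => true), ?_, ?_⟩
      · exact Computable.nat_casesOn hcomp (Computable.const false) ((Computable.const true).to₂)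
      · funext c
        rw [hTc' c]
        by_cases h : ev e c 1
        · simp [h]
        · simp [h]
    · intro hfa
      rw [finAx_iff_codes E hT] at hfa
      obtain ⟨c, hc, hc2⟩ := hfa
      obtain ⟨c', hc', hs⟩ := g5 c ((hTc' c).1 hc)
      exact hc2 c' ((hTc' c').2 hc') hs
    · rw [hTc', hTc']
      rcases hpq with ⟨ha, hb⟩ | ⟨ha, hb⟩
      · intro h
        exact h01 q hb (h.1 ha)
      · intro h
        exact h01 p ha (h.2 hb)

end Pool.Agent.LIN
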