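import Pool.Agent.LIN.RD4

/-! # [LIN-RD5] `GN` is `Pi_3`; the Lindenbaum algebra is a `Pi_4` algebra

`ev e c v` is `Sg 1` (`ev_Sg`, compose), hence `Sg 2`, `Pg 2`.  The five parts: `∀ c (Sg 1)` is `Pg 2`; `∀ c (Sg 1)`; `∀ c c' (Sg 1 → Sg 1 → Sg 1)` is `Pg 3` (crudely: the matrix is `Pg 2` by `Sg.toPg` and `Pg.imp`, ...);
`∀ c (Sg 1 → Pg 1)` is `Pg 1`; `∀ c (Sg 1 → ∃ c' (Sg 1 ∧ Pg 1))`: matrix `Sg 2`, so `Pg 3`.  Use `Pg.all`, `Pg.all_of_Sg`, `Sg.ex`, `Pg.imp`, `Sg.imp`, `Sg.succ`, `Pg.succ`, `Sg.toPg`, `Pg.toSg`.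
`hasPi_LindND`: `ν c = {T | sent E c ∈ T.1}`; surjective by `sent_surj`; operations `cOr`, `cAnd`, `cNot`; `ν p = ν q` iff no `T ∈ ND E` distinguishes: `exists_iff`; `Sg 4` by `Sg.ex_of_Pg` or `Sg.ex`. -/

namespace Pool.Agent.LIN

open FirstOrder

variable {L : FirstOrder.Language.{0, 0}} (E : Enum L)

theorem rd5_ev {α : Type} [Primcodable α] {f g h : α → ℕ} (hf : Computable f) (hg : Computable g)
    (hh : Computable h) : Sg 1 (fun a => ev (f a) (g a) (h a)) :=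
  Sg.comp ev_Sg ((hf.pair hg).pair hh)

theorem GN_pg (h : SatStatement) : Pg 3 (GN E) := by
  have c1 : Computable (fun x : ℕ × ℕ => x.1) := Computable.fst
  have c2 : Computable (fun x : ℕ × ℕ => x.2) := Computable.snd
  have k : ∀ {α : Type} [Primcodable α] (n : ℕ), Computable (fun _ : α => n) := fun n => Computable.const n
  have p1 : Pg 3 (fun e : ℕ => ∀ c, ev e c 0 ∨ ev e c 1) :=
    Pg.succ (Pg.all_of_Sg (q := fun x : ℕ × ℕ => ev x.1 x.2 0 ∨ ev x.1 x.2 1)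
      (Sg.or (rd5_ev c1 c2 (k 0)) (rd5_ev c1 c2 (k 1))))
  have p2 : Pg 3 (fun e : ℕ => ∀ c, (ev e c 0 ∧ ev e (cNot c) 1) ∨ (ev e c 1 ∧ ev e (cNot c) 0)) :=
    Pg.succ (Pg.all_of_Sg (q := fun x : ℕ × ℕ => (ev x.1 x.2 0 ∧ ev x.1 (cNot x.2) 1) ∨
        (ev x.1 x.2 1 ∧ ev x.1 (cNot x.2) 0))
      (Sg.or (Sg.and (rd5_ev c1 c2 (k 0)) (rd5_ev c1 (cNot_comp.comp c2) (k 1)))
        (Sg.and (rd5_ev c1 c2 (k 1)) (rd5_ev c1 (cNot_comp.comp c2) (k 0)))))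
  have p3 : Pg 3 (fun e : ℕ => ∀ c c', ev e c 1 → ev e c' 1 → ev e (cAnd c c') 1) := by
    have d1 : Computable (fun x : (ℕ × ℕ) × ℕ => x.1.1) := c1.comp Computable.fst
    have d2 : Computable (fun x : (ℕ × ℕ) × ℕ => x.1.2) := c2.comp Computable.fst
    have d3 : Computable (fun x : (ℕ × ℕ) × ℕ => x.2) := Computable.snd
    have h1 : Pg 2 (fun x : (ℕ × ℕ) × ℕ =>
        ev x.1.1 x.1.2 1 → ev x.1.1 x.2 1 → ev x.1.1 (cAnd x.1.2 x.2) 1) :=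
      Pg.imp (Sg.succ (rd5_ev d1 d2 (k 1))) (Pg.imp (Sg.succ (rd5_ev d1 d3 (k 1)))
        (Sg.toPg (rd5_ev d1 (cAnd_comp.comp d2 d3) (k 1))))
    have h2 : Pg 2 (fun x : ℕ × ℕ => ∀ c', ev x.1 x.2 1 → ev x.1 c' 1 → ev x.1 (cAnd x.2 c') 1) :=
      Pg.all (n := 1) h1
    exact Pg.succ (Pg.all (n := 1) h2)
  have p4 : Pg 3 (fun e : ℕ => ∀ c, ev e c 1 → Sat E c) := by
    have h1 : Pg 1 (fun x : ℕ × ℕ => ev x.1 x.2 1 → Sat E x.2) :=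
      Pg.imp (rd5_ev c1 c2 (k 1)) (Pg.comp (Sat_pg E h) c2)
    exact Pg.succ (Pg.succ (Pg.all (n := 0) h1))
  have p5 : Pg 3 (fun e : ℕ => ∀ c, ev e c 1 → ∃ c', ev e c' 1 ∧ Sat E (cAnd c (cNot c'))) := by
    have d1 : Computable (fun x : (ℕ × ℕ) × ℕ => x.1.1) := c1.comp Computable.fst
    have d2 : Computable (fun x : (ℕ × ℕ) × ℕ => x.1.2) := c2.comp Computable.fst
    have d3 : Computable (fun x : (ℕ × ℕ) × ℕ => x.2) := Computable.snd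
    have h1 : Sg 2 (fun x : (ℕ × ℕ) × ℕ => ev x.1.1 x.2 1 ∧ Sat E (cAnd x.1.2 (cNot x.2))) :=
      Sg.and (Sg.succ (rd5_ev d1 d3 (k 1)))
        (Pg.toSg (Pg.comp (Sat_pg E h) (cAnd_comp.comp d2 (cNot_comp.comp d3))))
    have h2 : Sg 2 (fun x : ℕ × ℕ => ∃ c', ev x.1 c' 1 ∧ Sat E (cAnd x.2 (cNot c'))) :=
      Sg.ex (n := 1) h1
    have h3 : Pg 3 (fun x : ℕ × ℕ => ev x.1 x.2 1 → ∃ c', ev x.1 c' 1 ∧ Sat E (cAnd x.2 (cNot c'))) :=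
      Pg.imp (Sg.succ (Sg.succ (rd5_ev c1 c2 (k 1)))) (Sg.toPg h2)
    exact Pg.all (n := 2) h3
  exact Pg.and p1 (Pg.and p2 (Pg.and p3 (Pg.and p4 p5)))

theorem ne_Sg (h : SatStatement) :
    Sg 4 (fun x : ℕ × ℕ => ∃ e, GN E e ∧ ((ev e x.1 1 ∧ ev e x.2 0) ∨ (ev e x.1 0 ∧ ev e x.2 1))) := by
  have k : ∀ (n : ℕ), Computable (fun _ : (ℕ × ℕ) × ℕ => n) := fun n => Computable.const n
  have d1 : Computable (fun x : (ℕ × ℕ) × ℕ => x.1.1) := Computable.fst.comp Computable.fst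
  have d2 : Computable (fun x : (ℕ × ℕ) × ℕ => x.1.2) := Computable.snd.comp Computable.fst
  have d3 : Computable (fun x : (ℕ × ℕ) × ℕ => x.2) := Computable.snd
  have s : ∀ {p : (ℕ × ℕ) × ℕ → Prop}, Sg 1 p → Sg 4 p := fun hp => Sg.succ (Sg.succ (Sg.succ hp))
  have h1 : Sg 4 (fun x : (ℕ × ℕ) × ℕ => GN E x.2 ∧
      ((ev x.2 x.1.1 1 ∧ ev x.2 x.1.2 0) ∨ (ev x.2 x.1.1 0 ∧ ev x.2 x.1.2 1))) :=
    Sg.and (Pg.toSg (Pg.comp (GN_pg E h) d3))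
      (s (Sg.or (Sg.and (rd5_ev d3 d1 (k 1)) (rd5_ev d3 d2 (k 0)))
        (Sg.and (rd5_ev d3 d1 (k 0)) (rd5_ev d3 d2 (k 1)))))
  exact Sg.ex (n := 3) h1

/-- the Goedel numeration -/
def gnum : ℕ → LindND E := fun c => ⟨{T : ND E | sent E c ∈ T.1}, sent E c, fun T => Iff.rfl⟩

theorem piAlg_gnum (h : SatStatement) : PiAlg 4 (gnum E) := by
  let ν : ℕ → LindND E := gnum E
  have hν : ∀ p q, ν p = ν q ↔ ∀ T : ND E, sent E p ∈ T.1 ↔ sent E q ∈ T.1 := by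
    intro p q
    constructor
    · intro h T
      have h1 : {T : ND E | sent E p ∈ T.1} = {T : ND E | sent E q ∈ T.1} := congrArg Subtype.val h
      exact Set.ext_iff.1 h1 T
    · intro h
      exact Subtype.ext (Set.ext h)
  refine ⟨?_, ⟨⟨cOr, cOr_comp, ?_⟩, ⟨cAnd, cAnd_comp, ?_⟩, ⟨cNot, cNot_comp, ?_⟩⟩, ?_⟩
  · rintro ⟨s, φ, hφ⟩
    obtain ⟨c, rfl⟩ := sent_surj E φ
    refine ⟨c, Subtype.ext (Set.ext fun T => ?_)⟩
    exact (hφ T).symm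
  · intro m n
    refine Subtype.ext (Set.ext fun T => ?_)
    show sent E (cOr m n) ∈ T.1 ↔ sent E m ∈ T.1 ∨ sent E n ∈ T.1
    exact IsTh.cOr_mem E T.2.1 m n
  · intro m n
    refine Subtype.ext (Set.ext fun T => ?_)
    show sent E (cAnd m n) ∈ T.1 ↔ sent E m ∈ T.1 ∧ sent E n ∈ T.1
    exact IsTh.cAnd_mem E T.2.1 m n
  · intro m
    refine Subtype.ext (Set.ext fun T => ?_)
    show sent E (cNot m) ∈ T.1 ↔ ¬ sent E m ∈ T.1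
    exact IsTh.cNot_mem E T.2.1 m
  · refine Sg.of_iff (ne_Sg E h) ?_
    intro p
    rw [← exists_iff E p.1 p.2]
    show ¬ (ν p.1 = ν p.2) ↔ _
    rw [hν]
    constructor
    · intro h1
      by_contra h2
      refine h1 fun T => ?_
      by_contra h3
      exact h2 ⟨T.1, T.2, h3⟩
    · rintro ⟨T, hT, h1⟩ h2
      exact h1 (h2 ⟨T, hT⟩)

theorem hasPi_LindND (h : SatStatement) : HasPi 4 (LindND E) := ⟨gnum E, piAlg_gnum E h⟩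

end Pool.Agent.LIN
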