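import Pool.Agent.LIN.RH6

/-! # [LIN-RE1] Products and principal ideals of Boolean algebras -/

namespace Pool.Agent.LIN

/-- `x ↦ (x ⊓ b, x ⊓ bᶜ)` -/
theorem iso_split {B : Type} [BooleanAlgebra B] (b : B) : Nonempty (B ≃o Set.Iic b × Set.Iic bᶜ) := by
  refine ⟨⟨⟨fun x => (⟨x ⊓ b, inf_le_right⟩, ⟨x ⊓ bᶜ, inf_le_right⟩), fun p => (p.1 : B) ⊔ (p.2 : B), ?_, ?_⟩, ?_⟩⟩
  · intro x
    show (x ⊓ b) ⊔ (x ⊓ bᶜ) = x
    rw [← inf_sup_left, sup_compl_eq_top, inf_top_eq]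
  · rintro ⟨⟨p, hp⟩, ⟨q, hq⟩⟩
    have hp' : p ≤ b := hp
    have hq' : q ≤ bᶜ := hq
    have h1 : p ⊓ bᶜ = ⊥ := (disjoint_compl_right.mono_left hp').eq_bot
    have h2 : q ⊓ b = ⊥ := (disjoint_compl_left.mono_left hq').eq_bot
    apply Prod.ext
    · apply Subtype.ext
      show (p ⊔ q) ⊓ b = p
      rw [inf_sup_right, h2, sup_bot_eq, inf_eq_left.2 hp']
    · apply Subtype.ext
      show (p ⊔ q) ⊓ bᶜ = q
      rw [inf_sup_right, h1, bot_sup_eq, inf_eq_left.2 hq']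
  · intro x y
    constructor
    · rintro ⟨h1, h2⟩
      have h1' : x ⊓ b ≤ y ⊓ b := h1
      have h2' : x ⊓ bᶜ ≤ y ⊓ bᶜ := h2
      have h3 : (x ⊓ b) ⊔ (x ⊓ bᶜ) ≤ (y ⊓ b) ⊔ (y ⊓ bᶜ) := sup_le_sup h1' h2'
      rwa [← inf_sup_left, ← inf_sup_left, sup_compl_eq_top, inf_top_eq, inf_top_eq] at h3
    · intro h
      exact ⟨inf_le_inf_right _ h, inf_le_inf_right _ h⟩

section
variable {A A' B B' C : Type} [Preorder A] [Preorder A'] [Preorder B] [Preorder B'] [Preorder C]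

theorem prod_congr' (h : Nonempty (A ≃o A')) (h' : Nonempty (B ≃o B')) : Nonempty (A × B ≃o A' × B') := by
  obtain ⟨e⟩ := h
  obtain ⟨e'⟩ := h'
  refine ⟨⟨Equiv.prodCongr e.toEquiv e'.toEquiv, ?_⟩⟩
  rintro ⟨a, b⟩ ⟨c, d⟩
  exact and_congr e.le_iff_le e'.le_iff_le

theorem prod_comm' : Nonempty (A × B ≃o B × A) := by
  refine ⟨⟨Equiv.prodComm A B, ?_⟩⟩
  rintro ⟨a, b⟩ ⟨c, d⟩
  exact and_comm

theorem prod_assoc' : Nonempty ((A × B) × C ≃o A × (B × C)) := by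
  refine ⟨⟨Equiv.prodAssoc A B C, ?_⟩⟩
  rintro ⟨⟨a, b⟩, c⟩ ⟨⟨a', b'⟩, c'⟩
  exact and_assoc.symm

end

/-- The weak power: sequences that are eventually `⊥` or eventually `⊤`. -/
def WP (B : Type) [BooleanAlgebra B] : BooleanSubalgebra (ℕ → B) where
  carrier := {f | (∃ N, ∀ n ≥ N, f n = ⊥) ∨ ∃ N, ∀ n ≥ N, f n = ⊤}
  bot_mem' := Or.inl ⟨0, fun _ _ => rfl⟩
  supClosed' := by
    rintro f (⟨N, hf⟩ | ⟨N, hf⟩) g (⟨M, hg⟩ | ⟨M, hg⟩)
    · exact Or.inl ⟨max N M, fun n hn => by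
        rw [Pi.sup_apply, hf n (le_of_max_le_left hn), hg n (le_of_max_le_right hn), sup_idem]⟩
    · exact Or.inr ⟨max N M, fun n hn => by
        rw [Pi.sup_apply, hf n (le_of_max_le_left hn), hg n (le_of_max_le_right hn), bot_sup_eq]⟩
    · exact Or.inr ⟨max N M, fun n hn => by
        rw [Pi.sup_apply, hf n (le_of_max_le_left hn), hg n (le_of_max_le_right hn), sup_bot_eq]⟩
    · exact Or.inr ⟨max N M, fun n hn => by
        rw [Pi.sup_apply, hf n (le_of_max_le_left hn), hg n (le_of_max_le_right hn), sup_idem]⟩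
  infClosed' := by
    rintro f (⟨N, hf⟩ | ⟨N, hf⟩) g (⟨M, hg⟩ | ⟨M, hg⟩)
    · exact Or.inl ⟨max N M, fun n hn => by
        rw [Pi.inf_apply, hf n (le_of_max_le_left hn), hg n (le_of_max_le_right hn), inf_idem]⟩
    · exact Or.inl ⟨max N M, fun n hn => by
        rw [Pi.inf_apply, hf n (le_of_max_le_left hn), hg n (le_of_max_le_right hn), bot_inf_eq]⟩
    · exact Or.inl ⟨max N M, fun n hn => by
        rw [Pi.inf_apply, hf n (le_of_max_le_left hn), hg n (le_of_max_le_right hn), inf_bot_eq]⟩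
    · exact Or.inr ⟨max N M, fun n hn => by
        rw [Pi.inf_apply, hf n (le_of_max_le_left hn), hg n (le_of_max_le_right hn), inf_idem]⟩
  compl_mem' := by
    rintro f (⟨N, hf⟩ | ⟨N, hf⟩)
    · exact Or.inr ⟨N, fun n hn => by rw [Pi.compl_apply, hf n hn, compl_bot]⟩
    · exact Or.inl ⟨N, fun n hn => by rw [Pi.compl_apply, hf n hn, compl_top]⟩

/-- shift: `f ↦ (f 0, fun n => f (n + 1))` -/
theorem WP_iso (B : Type) [BooleanAlgebra B] : Nonempty (WP B ≃o B × WP B) := by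
  have hs : ∀ f : WP B, (fun n => f.1 (n + 1)) ∈ WP B := by
    rintro ⟨f, ⟨N, hf⟩ | ⟨N, hf⟩⟩
    · exact Or.inl ⟨N, fun n hn => hf (n + 1) (by omega)⟩
    · exact Or.inr ⟨N, fun n hn => hf (n + 1) (by omega)⟩
  have hc : ∀ p : B × WP B, (fun n => Nat.casesOn n p.1 (fun k => p.2.1 k) : ℕ → B) ∈ WP B := by
    rintro ⟨b, ⟨f, ⟨N, hf⟩ | ⟨N, hf⟩⟩⟩
    · refine Or.inl ⟨N + 1, fun n hn => ?_⟩
      obtain ⟨k, rfl⟩ : ∃ k, n = k + 1 := ⟨n - 1, by omega⟩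
      exact hf k (by omega)
    · refine Or.inr ⟨N + 1, fun n hn => ?_⟩
      obtain ⟨k, rfl⟩ : ∃ k, n = k + 1 := ⟨n - 1, by omega⟩
      exact hf k (by omega)
  refine ⟨⟨⟨fun f => (f.1 0, ⟨fun n => f.1 (n + 1), hs f⟩), fun p => ⟨fun n => Nat.casesOn n p.1 (fun k => p.2.1 k), hc p⟩, ?_, ?_⟩, ?_⟩⟩
  · intro f
    apply Subtype.ext
    funext n
    cases n with
    | zero => rfl
    | succ k => rfl
  · rintro ⟨b, f⟩
    rfl
  · intro f g
    constructor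
    · rintro ⟨h1, h2⟩ n
      cases n with
      | zero => exact h1
      | succ k => exact h2 k
    · intro h
      exact ⟨h 0, fun n => h (n + 1)⟩

end Pool.Agent.LIN
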