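import Pool.Agent.LIN.RE1

/-! # [LIN-RE2] The weak power of a `Pi_n` algebra is a `Pi_n` algebra

Let `ν` be a `Pi_n` numeration of `B`, `ν z = ⊥`, `ν o = ⊤`.  Numeration of `WP B`: `c ↦` the sequence `i ↦ ν (l.getD i (if b then o else z))` with `l = Denumerable.ofNat (List ℕ) c.div2`, `b = c.bodd`.
Surjective: choose indices of the first `N` values.  Operations: for `c`, `c'` the list `(List.range (max l.length l'.length)).map fun i => f (l.getD i _) (l'.getD i _)` and the Boolean operation of the tail bits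
(the tail values: `ν (f o z) = ⊤` etc. but the new tail index is again `o` or `z`; the values are the same).
Equality: `c ~ c'` iff for all `i < max l.length l'.length + 1`: `ν (l.getD i _) = ν (l'.getD i _)` (the last index compares the tails): `Pg.ball`, `Pg.comp`. -/

namespace Pool.Agent.LIN

/-- the list of the values of a computable function -/
theorem RE2_map {α : Type} [Primcodable α] {f : α → ℕ} {g : α → ℕ → ℕ} (hf : Computable f)
    (hg : Computable₂ g) : Computable fun a => (List.range (f a)).map (g a) := by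
  have h1 : Computable fun a => (Nat.rec [] (fun y IH => IH ++ [g a y]) (f a) : List ℕ) := by
    refine Computable.nat_rec (h := fun a x => x.2 ++ [g a x.1]) hf (Computable.const []) ?_
    exact Computable.list_concat.comp (Computable.snd.comp Computable.snd)
      (hg.comp Computable.fst (Computable.fst.comp Computable.snd))
  refine h1.of_eq fun a => ?_
  induction f a with
  | zero => rfl
  | succ k ih =>
    rw [List.range_succ, List.map_append, List.map_singleton]
    show (Nat.rec [] (fun y IH => IH ++ [g a y]) k : List ℕ) ++ [g a k] = _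
    rw [ih]

/-- The list coded by `c`. -/
def RE2_l (c : ℕ) : List ℕ := Denumerable.ofNat (List ℕ) (c / 2)

/-- The index of the `i`-th value of the sequence number `c`. -/
def RE2_idx (z o c i : ℕ) : ℕ :=
  if c % 2 = 1 then (RE2_l c).getD i o else (RE2_l c).getD i z

theorem RE2_l_primrec : Primrec RE2_l :=
  (Primrec.ofNat (List ℕ)).comp (Primrec.nat_div.comp Primrec.id (Primrec.const 2))

theorem RE2_idx_computable (z o : ℕ) : Computable₂ (RE2_idx z o) := by
  apply Primrec₂.to_comp
  have hl : Primrec fun x : ℕ × ℕ => RE2_l x.1 := RE2_l_primrec.comp Primrec.fst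
  refine Primrec.ite ?_ ((Primrec.list_getD o).comp hl Primrec.snd)
    ((Primrec.list_getD z).comp hl Primrec.snd)
  exact Primrec.eq.comp (Primrec.nat_mod.comp Primrec.fst (Primrec.const 2)) (Primrec.const 1)

/-- The code of the list `L` with the tail `t`. -/
def RE2_code (L : List ℕ) (t : ℕ) : ℕ := 2 * Encodable.encode L + t

theorem RE2_l_code (L : List ℕ) {t : ℕ} (ht : t < 2) : RE2_l (RE2_code L t) = L := by
  unfold RE2_l RE2_code
  have h : (2 * Encodable.encode L + t) / 2 = Encodable.encode L := by omega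
  rw [h, Denumerable.ofNat_encode]

theorem RE2_mod_code (L : List ℕ) {t : ℕ} (ht : t < 2) : RE2_code L t % 2 = t := by
  unfold RE2_code
  omega

theorem RE2_idx_code (z o : ℕ) (L : List ℕ) {t : ℕ} (ht : t < 2) (i : ℕ) :
    RE2_idx z o (RE2_code L t) i = L.getD i (if t = 1 then o else z) := by
  unfold RE2_idx
  rw [RE2_l_code L ht, RE2_mod_code L ht]
  split_ifs <;> rfl

theorem RE2_idx_tail (z o c : ℕ) {i : ℕ} (hi : (RE2_l c).length ≤ i) :
    RE2_idx z o c i = if c % 2 = 1 then o else z := by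
  unfold RE2_idx
  rw [List.getD_eq_default _ _ hi, List.getD_eq_default _ _ hi]

theorem RE2_getD {N i : ℕ} (g : ℕ → ℕ) (d : ℕ) :
    ((List.range N).map g).getD i d = if i < N then g i else d := by
  split_ifs with h
  · rw [List.getD_eq_getElem _ _ (by rw [List.length_map, List.length_range]; exact h),
      List.getElem_map, List.getElem_range]
  · rw [List.getD_eq_default]
    rw [List.length_map, List.length_range]
    omega

section
variable {B : Type} [BooleanAlgebra B]

/-- The sequence number `c`. -/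
def RE2_mu (ν : ℕ → B) {z o : ℕ} (hz : ν z = ⊥) (ho : ν o = ⊤) (c : ℕ) : WP B :=
  ⟨fun i => ν (RE2_idx z o c i), by
    by_cases h : c % 2 = 1
    · exact Or.inr ⟨(RE2_l c).length, fun n hn => by
        show ν (RE2_idx z o c n) = ⊤
        rw [RE2_idx_tail z o c hn, if_pos h, ho]⟩
    · exact Or.inl ⟨(RE2_l c).length, fun n hn => by
        show ν (RE2_idx z o c n) = ⊥
        rw [RE2_idx_tail z o c hn, if_neg h, hz]⟩⟩

theorem RE2_mu_apply (ν : ℕ → B) {z o : ℕ} (hz : ν z = ⊥) (ho : ν o = ⊤) (c i : ℕ) :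
    (RE2_mu ν hz ho c).1 i = ν (RE2_idx z o c i) := rfl

theorem RE2_surj (ν : ℕ → B) (hν : Function.Surjective ν) {z o : ℕ} (hz : ν z = ⊥)
    (ho : ν o = ⊤) : Function.Surjective (RE2_mu ν hz ho) := by
  rintro ⟨F, hF⟩
  choose g hg using hν
  rcases hF with ⟨N, hN⟩ | ⟨N, hN⟩
  · refine ⟨RE2_code ((List.range N).map fun i => g (F i)) 0, Subtype.ext (funext fun i => ?_)⟩
    rw [RE2_mu_apply, RE2_idx_code z o _ (by omega), RE2_getD]
    show ν (if i < N then g (F i) else if (0 : ℕ) = 1 then o else z) = F i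
    by_cases h : i < N
    · rw [if_pos h, hg]
    · rw [if_neg h, if_neg (by omega), hz, hN i (by omega)]
  · refine ⟨RE2_code ((List.range N).map fun i => g (F i)) 1, Subtype.ext (funext fun i => ?_)⟩
    rw [RE2_mu_apply, RE2_idx_code z o _ (by omega), RE2_getD]
    show ν (if i < N then g (F i) else if (1 : ℕ) = 1 then o else z) = F i
    by_cases h : i < N
    · rw [if_pos h, hg]
    · rw [if_neg h, if_pos rfl, ho, hN i (by omega)]

/-- The code of a binary operation. -/
def RE2_op (z o : ℕ) (f : ℕ → ℕ → ℕ) (t : ℕ → ℕ → ℕ) (m n : ℕ) : ℕ :=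
  RE2_code ((List.range (max (RE2_l m).length (RE2_l n).length)).map fun i =>
    f (RE2_idx z o m i) (RE2_idx z o n i)) (t (m % 2) (n % 2))

theorem RE2_op_computable (z o : ℕ) {f t : ℕ → ℕ → ℕ} (hf : Computable₂ f) (ht : Primrec₂ t) :
    Computable₂ (RE2_op z o f t) := by
  have h1 : Computable fun x : ℕ × ℕ => max (RE2_l x.1).length (RE2_l x.2).length :=
    (Primrec.nat_max.comp (Primrec.list_length.comp (RE2_l_primrec.comp Primrec.fst))
      (Primrec.list_length.comp (RE2_l_primrec.comp Primrec.snd))).to_comp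
  have h2 : Computable₂ fun (x : ℕ × ℕ) (i : ℕ) => f (RE2_idx z o x.1 i) (RE2_idx z o x.2 i) :=
    hf.comp ((RE2_idx_computable z o).comp (Computable.fst.comp Computable.fst) Computable.snd)
      ((RE2_idx_computable z o).comp (Computable.snd.comp Computable.fst) Computable.snd)
  have h3 := RE2_map h1 h2
  have h4 : Primrec fun x : ℕ × ℕ => t (x.1 % 2) (x.2 % 2) :=
    ht.comp (Primrec.nat_mod.comp Primrec.fst (Primrec.const 2))
      (Primrec.nat_mod.comp Primrec.snd (Primrec.const 2))
  have h5 : Computable₂ fun a b : ℕ => 2 * a + b :=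
    (Primrec.nat_add.comp (Primrec.nat_mul.comp (Primrec.const 2) Primrec.fst) Primrec.snd).to_comp
  exact h5.comp (Computable.encode.comp h3) h4.to_comp

theorem RE2_op_spec (ν : ℕ → B) {z o : ℕ} (hz : ν z = ⊥) (ho : ν o = ⊤) (f t : ℕ → ℕ → ℕ)
    (op : B → B → B) (hop : ∀ m n, ν (f m n) = op (ν m) (ν n))
    (ht : ∀ a b, a < 2 → b < 2 → t a b < 2)
    (ht' : ∀ a b, a < 2 → b < 2 → (if t a b = 1 then (⊤ : B) else ⊥) =
      op (if a = 1 then ⊤ else ⊥) (if b = 1 then ⊤ else ⊥)) (m n i : ℕ) :
    (RE2_mu ν hz ho (RE2_op z o f t m n)).1 i =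
      op ((RE2_mu ν hz ho m).1 i) ((RE2_mu ν hz ho n).1 i) := by
  have hm : m % 2 < 2 := Nat.mod_lt _ (by omega)
  have hn : n % 2 < 2 := Nat.mod_lt _ (by omega)
  rw [RE2_mu_apply, RE2_mu_apply, RE2_mu_apply]
  unfold RE2_op
  rw [RE2_idx_code z o _ (ht _ _ hm hn), RE2_getD]
  by_cases h : i < max (RE2_l m).length (RE2_l n).length
  · rw [if_pos h, hop]
  · rw [if_neg h]
    have h1 : (RE2_l m).length ≤ i := by omega
    have h2 : (RE2_l n).length ≤ i := by omega
    rw [RE2_idx_tail z o m h1, RE2_idx_tail z o n h2]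
    have h3 : ∀ a : ℕ, ν (if a = 1 then o else z) = if a = 1 then (⊤ : B) else ⊥ := by
      intro a
      split_ifs
      · exact ho
      · exact hz
    rw [h3, h3, h3]
    exact ht' _ _ hm hn

end

theorem HasPi.wp {n : ℕ} {B : Type} [BooleanAlgebra B] (h : HasPi n B) : HasPi n (WP B) := by
  obtain ⟨ν, hν, ⟨⟨fs, hfs, hfs'⟩, ⟨fi, hfi, hfi'⟩, ⟨fc, hfc, hfc'⟩⟩, hP⟩ := h
  obtain ⟨z, hz⟩ := hν ⊥
  obtain ⟨o, ho⟩ := hν ⊤
  refine ⟨RE2_mu ν hz ho, RE2_surj ν hν hz ho, ⟨?_, ?_, ?_⟩, ?_⟩
  · refine ⟨RE2_op z o fs max, RE2_op_computable z o hfs Primrec.nat_max, fun m n => ?_⟩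
    refine Subtype.ext (funext fun i => ?_)
    refine RE2_op_spec ν hz ho fs max (fun x y => x ⊔ y) hfs' (fun a b ha hb => max_lt ha hb)
      (fun a b ha hb => ?_) m n i
    interval_cases a <;> interval_cases b <;> simp
  · refine ⟨RE2_op z o fi min, RE2_op_computable z o hfi Primrec.nat_min, fun m n => ?_⟩
    refine Subtype.ext (funext fun i => ?_)
    refine RE2_op_spec ν hz ho fi min (fun x y => x ⊓ y) hfi'
      (fun a b ha hb => lt_of_le_of_lt (min_le_left a b) ha) (fun a b ha hb => ?_) m n i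
    interval_cases a <;> interval_cases b <;> simp
  · refine ⟨fun m => RE2_op z o (fun a _ => fc a) (fun a _ => 1 - a) m m, ?_, fun m => ?_⟩
    · have h1 : Computable₂ fun a _ : ℕ => fc a := hfc.comp Computable.fst
      have h2 : Primrec₂ fun a _ : ℕ => 1 - a :=
        Primrec.nat_sub.comp (Primrec.const 1) Primrec.fst
      exact (RE2_op_computable z o h1 h2).comp Computable.id Computable.id
    · refine Subtype.ext (funext fun i => ?_)
      refine RE2_op_spec ν hz ho (fun a _ => fc a) (fun a _ => 1 - a) (fun x _ => xᶜ)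
        (fun a _ => hfc' a) (fun a b _ _ => by omega) (fun a b ha _ => ?_) m m i
      interval_cases a <;> simp
  · have h1 : Pg n (fun x : (ℕ × ℕ) × ℕ =>
        ν (RE2_idx z o x.1.1 x.2) = ν (RE2_idx z o x.1.2 x.2)) := by
      refine Pg.comp (p := fun p : ℕ × ℕ => ν p.1 = ν p.2)
        (f := fun x : (ℕ × ℕ) × ℕ => (RE2_idx z o x.1.1 x.2, RE2_idx z o x.1.2 x.2)) hP ?_
      exact ((RE2_idx_computable z o).comp (Computable.fst.comp Computable.fst)
        Computable.snd).pair ((RE2_idx_computable z o).comp (Computable.snd.comp Computable.fst)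
        Computable.snd)
    have h2 : Computable fun x : ℕ × ℕ => max (RE2_l x.1).length (RE2_l x.2).length + 1 :=
      (Primrec.succ.comp (Primrec.nat_max.comp
        (Primrec.list_length.comp (RE2_l_primrec.comp Primrec.fst))
        (Primrec.list_length.comp (RE2_l_primrec.comp Primrec.snd)))).to_comp
    refine Pg.of_iff (Pg.ball h1 h2) fun p => ?_
    constructor
    · intro h i _
      have h3 := congrFun (congrArg Subtype.val h) i
      exact h3
    · intro h
      refine Subtype.ext (funext fun i => ?_)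
      rw [RE2_mu_apply, RE2_mu_apply]
      by_cases hi : i < max (RE2_l p.1).length (RE2_l p.2).length + 1
      · exact h i hi
      · have h4 := h (max (RE2_l p.1).length (RE2_l p.2).length) (by omega)
        have h5 : (RE2_l p.1).length ≤ i := by omega
        have h6 : (RE2_l p.2).length ≤ i := by omega
        have h7 : ν (RE2_idx z o p.1 (max (RE2_l p.1).length (RE2_l p.2).length)) =
            ν (RE2_idx z o p.2 (max (RE2_l p.1).length (RE2_l p.2).length)) := h4
        rw [RE2_idx_tail z o p.1 (le_max_left _ _), RE2_idx_tail z o p.2 (le_max_right _ _)] at h7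
        rw [RE2_idx_tail z o p.1 h5, RE2_idx_tail z o p.2 h6]
        exact h7

/-- transport along an isomorphism -/
theorem HasPi.congr {n : ℕ} {A B : Type} [BooleanAlgebra A] [BooleanAlgebra B] (h : HasPi n A)
    (e : A ≃o B) : HasPi n B := by
  obtain ⟨ν, hν, ⟨⟨fs, hfs, hfs'⟩, ⟨fi, hfi, hfi'⟩, ⟨fc, hfc, hfc'⟩⟩, hP⟩ := h
  refine ⟨fun m => e (ν m), e.surjective.comp hν, ⟨⟨fs, hfs, fun m n => ?_⟩,
    ⟨fi, hfi, fun m n => ?_⟩, ⟨fc, hfc, fun m => ?_⟩⟩, ?_⟩
  · show e (ν (fs m n)) = e (ν m) ⊔ e (ν n)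
    rw [hfs', e.map_sup]
  · show e (ν (fi m n)) = e (ν m) ⊓ e (ν n)
    rw [hfi', e.map_inf]
  · show e (ν (fc m)) = (e (ν m))ᶜ
    rw [hfc']
    exact (e.isCompl (isCompl_compl (x := ν m))).compl_eq.symm
  · refine Pg.of_iff hP fun p => ?_
    exact e.injective.eq_iff

end Pool.Agent.LIN
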