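import Pool.Agent.LIN.RE2

/-! # [LIN-RE3] Uniqueness of the universal algebra (absorption)

`absorb`: if `B` is universal and `A` has a `Pi_n` numeration then `B ≃o A × B`.  `WP A` has a `Pi_n` numeration (`HasPi.wp`), so `WP A ≃o Set.Iic b` for some `b : B`, `B ≃o Set.Iic b × Set.Iic bᶜ ≃o WP A × D` with
`D = Set.Iic bᶜ` (a Boolean algebra: the instance on `Set.Iic`), and `WP A ≃o A × WP A`, so `B ≃o (A × WP A) × D ≃o A × (WP A × D) ≃o A × B`.
`UnivPi.unique`: both algebras have `Pi_n` numerations, so `B ≃o B' × B`, `B' ≃o B × B'`, and `B × B' ≃o B' × B`. -/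

namespace Pool.Agent.LIN

theorem UnivPi.absorb {n : ℕ} {A B : Type} [BooleanAlgebra A] [BooleanAlgebra B] (h : UnivPi n B)
    (hA : HasPi n A) : Nonempty (B ≃o A × B) := by
  obtain ⟨b, e1⟩ := h.2 (WP A) hA.wp
  have h1 : Nonempty (B ≃o Set.Iic b × Set.Iic bᶜ) := iso_split b
  have h2 : Nonempty (Set.Iic b × Set.Iic bᶜ ≃o WP A × Set.Iic bᶜ) := prod_congr' ⟨e1.some.symm⟩ ⟨OrderIso.refl _⟩
  have h3 : Nonempty (WP A × Set.Iic bᶜ ≃o (A × WP A) × Set.Iic bᶜ) := prod_congr' (WP_iso A) ⟨OrderIso.refl _⟩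
  have h4 : Nonempty ((A × WP A) × Set.Iic bᶜ ≃o A × (WP A × Set.Iic bᶜ)) := prod_assoc'
  have h5 : Nonempty (WP A × Set.Iic bᶜ ≃o B) := ⟨(h1.some.trans h2.some).symm⟩
  have h6 : Nonempty (A × (WP A × Set.Iic bᶜ) ≃o A × B) := prod_congr' ⟨OrderIso.refl _⟩ h5
  exact ⟨h1.some.trans (h2.some.trans (h3.some.trans (h4.some.trans h6.some)))⟩

theorem UnivPi.unique {n : ℕ} {B B' : Type} [BooleanAlgebra B] [BooleanAlgebra B'] (h : UnivPi n B)
    (h' : UnivPi n B') : Nonempty (B ≃o B') := by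
  have h1 : Nonempty (B ≃o B' × B) := h.absorb h'.1
  have h2 : Nonempty (B' ≃o B × B') := h'.absorb h.1
  have h3 : Nonempty (B' × B ≃o B × B') := prod_comm'
  exact ⟨h1.some.trans (h3.some.trans h2.some.symm)⟩

end Pool.Agent.LIN
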