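import Pool.Agent.LIN.RH6

/-! # [LIN-RF1] Propositional formulas as a numeration of the two element algebra

Codes: `0` = falsum, `3 m + 1` = atom `m`, `3 m + 2` = negation of `m`, `3 m + 3` = conjunction of the components of `m`.
`evl l c` : the value when atom `m` has the value `l.getD m false`; it is computable (`Nat.strongRec`-type recursion with `Primrec.nat_strong_rec` / `Computable.nat_strong_rec`), and it depends only on the atoms `< c + 1`.
`valX X c`: the same with `X : ℕ → Bool`; `valX X c = evl ((List.range (c + 1)).map X) c`. -/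

namespace Pool.Agent.LIN

/-- the value of the formula with code `c` when the atom `m` has the value `X m` -/
def valX (X : ℕ → Bool) (c : ℕ) : Bool :=
  if h0 : c = 0 then false
  else if h1 : (c - 1) % 3 = 0 then X ((c - 1) / 3)
  else if h2 : (c - 1) % 3 = 1 then
    have : (c - 1) / 3 < c := by omega
    !(valX X ((c - 1) / 3))
  else
    have h3 : (Nat.unpair ((c - 1) / 3)).1 < c := by
      have := Nat.unpair_left_le ((c - 1) / 3); omega
    have h4 : (Nat.unpair ((c - 1) / 3)).2 < c := by
      have := Nat.unpair_right_le ((c - 1) / 3); omega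
    valX X (Nat.unpair ((c - 1) / 3)).1 && valX X (Nat.unpair ((c - 1) / 3)).2
termination_by c

theorem rf1_eq (X : ℕ → Bool) (c : ℕ) : valX X c =
    if c = 0 then false
    else if (c - 1) % 3 = 0 then X ((c - 1) / 3)
    else if (c - 1) % 3 = 1 then !(valX X ((c - 1) / 3))
    else valX X (Nat.unpair ((c - 1) / 3)).1 && valX X (Nat.unpair ((c - 1) / 3)).2 := by
  rw [valX]
  split_ifs <;> rfl

/-- the recursion step of the evaluation for lists of values -/
def rf1_g (l vs : List Bool) : Option Bool :=
  some (if vs.length = 0 then false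
    else if (vs.length - 1) % 3 = 0 then l.getD ((vs.length - 1) / 3) false
    else if (vs.length - 1) % 3 = 1 then !(vs.getD ((vs.length - 1) / 3) false)
    else vs.getD (Nat.unpair ((vs.length - 1) / 3)).1 false &&
      vs.getD (Nat.unpair ((vs.length - 1) / 3)).2 false)

theorem rf1_g_prim : Primrec₂ rf1_g := by
  have l1 : Primrec (fun x : List Bool × List Bool => x.2.length) :=
    Primrec.list_length.comp Primrec.snd
  have l2 : Primrec (fun x : List Bool × List Bool => x.2.length - 1) :=
    Primrec.nat_sub.comp l1 (Primrec.const 1)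
  have l3 : Primrec (fun x : List Bool × List Bool => (x.2.length - 1) % 3) :=
    Primrec.nat_mod.comp l2 (Primrec.const 3)
  have l4 : Primrec (fun x : List Bool × List Bool => (x.2.length - 1) / 3) :=
    Primrec.nat_div.comp l2 (Primrec.const 3)
  have l5 : Primrec (fun x : List Bool × List Bool => Nat.unpair ((x.2.length - 1) / 3)) :=
    Primrec.unpair.comp l4
  have h : Primrec (fun x : List Bool × List Bool => (if x.2.length = 0 then false
    else if (x.2.length - 1) % 3 = 0 then x.1.getD ((x.2.length - 1) / 3) false
    else if (x.2.length - 1) % 3 = 1 then !(x.2.getD ((x.2.length - 1) / 3) false)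
    else x.2.getD (Nat.unpair ((x.2.length - 1) / 3)).1 false &&
      x.2.getD (Nat.unpair ((x.2.length - 1) / 3)).2 false)) :=
    Primrec.ite (Primrec.eq.comp l1 (Primrec.const 0)) (Primrec.const false)
      (Primrec.ite (Primrec.eq.comp l3 (Primrec.const 0))
        ((Primrec.list_getD false).comp Primrec.fst l4)
        (Primrec.ite (Primrec.eq.comp l3 (Primrec.const 1))
          (Primrec.not.comp ((Primrec.list_getD false).comp Primrec.snd l4))
          (Primrec.and.comp ((Primrec.list_getD false).comp Primrec.snd (Primrec.fst.comp l5))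
            ((Primrec.list_getD false).comp Primrec.snd (Primrec.snd.comp l5)))))
  exact Primrec.option_some.comp h

theorem rf1_getD (f : ℕ → Bool) (n k : ℕ) (h : k < n) :
    ((List.range n).map f).getD k false = f k := by
  rw [List.getD_eq_getElem?_getD, List.getElem?_map, List.getElem?_range h]
  rfl

theorem valX_zero (X : ℕ → Bool) : valX X 0 = false := by
  rw [rf1_eq]
  rfl

theorem valX_atom (X : ℕ → Bool) (m : ℕ) : valX X (3 * m + 1) = X m := by
  rw [rf1_eq, if_neg (by omega), if_pos (by omega)]
  congr 1
  omega

theorem valX_not (X : ℕ → Bool) (m : ℕ) : valX X (3 * m + 2) = !valX X m := by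
  rw [rf1_eq, if_neg (by omega), if_neg (by omega), if_pos (by omega)]
  congr 2
  omega

theorem valX_and (X : ℕ → Bool) (m k : ℕ) : valX X (3 * Nat.pair m k + 3) = (valX X m && valX X k) := by
  rw [rf1_eq, if_neg (by omega), if_neg (by omega), if_neg (by omega)]
  have h : (3 * Nat.pair m k + 3 - 1) / 3 = Nat.pair m k := by omega
  rw [h, Nat.unpair_pair]

/-- only the atoms `≤ c` matter -/
theorem valX_congr {X Y : ℕ → Bool} {c : ℕ} (h : ∀ m ≤ c, X m = Y m) : valX X c = valX Y c := by
  induction c using Nat.strong_induction_on with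
  | _ c ih =>
    rw [rf1_eq X c, rf1_eq Y c]
    by_cases h0 : c = 0
    · rw [if_pos h0, if_pos h0]
    · have hl := Nat.unpair_left_le ((c - 1) / 3)
      have hr := Nat.unpair_right_le ((c - 1) / 3)
      rw [if_neg h0, if_neg h0, h ((c - 1) / 3) (by omega),
        ih ((c - 1) / 3) (by omega) fun m hm => h m (by omega),
        ih (Nat.unpair ((c - 1) / 3)).1 (by omega) fun m hm => h m (by omega),
        ih (Nat.unpair ((c - 1) / 3)).2 (by omega) fun m hm => h m (by omega)]

/-- for finite lists of values the evaluation is computable -/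
theorem valX_comp : Computable (fun x : List Bool × ℕ => valX (fun m => x.1.getD m false) x.2) := by
  have h : Primrec₂ (fun (l : List Bool) (c : ℕ) => valX (fun m => l.getD m false) c) := by
    refine Primrec.nat_strong_rec _ rf1_g_prim ?_
    intro l n
    unfold rf1_g
    rw [List.length_map, List.length_range, rf1_eq _ n]
    by_cases h0 : n = 0
    · rw [if_pos h0, if_pos h0]
    · have hl := Nat.unpair_left_le ((n - 1) / 3)
      have hr := Nat.unpair_right_le ((n - 1) / 3)
      rw [if_neg h0, if_neg h0, rf1_getD _ _ _ (by omega : (n - 1) / 3 < n),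
        rf1_getD _ _ _ (by omega : (Nat.unpair ((n - 1) / 3)).1 < n),
        rf1_getD _ _ _ (by omega : (Nat.unpair ((n - 1) / 3)).2 < n)]
  exact h.to_comp

end Pool.Agent.LIN
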