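import Pool.Agent.LIN.RF1

/-! # [LIN-RF2] The two element algebra with the numeration given by a `Delta_{n+1}` set

`{c | valX X c = true}`: `∃ l : List Bool` (coded by a number, `Sg.ex'`), `l.length = c + 1`, `∀ i < c + 1, (l.getD i false = true → X i = true) ∧ (l.getD i false = false → X i = false)`, `valX (l..) c = true`;
same with `false`.  So both `valX X c = true` and `valX X c = false` are `Sg (n+1)`, and `valX X c = valX X c'` is `Sg (n+1)` and `Pg (n+1)`. -/

namespace Pool.Agent.LIN

theorem rf2_cp {α : Type} [Primcodable α] {f : α → Bool} (hf : Computable f) (b : Bool) :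
    ComputablePred (fun a => f a = b) := by
  refine ⟨fun a => instDecidableEqBool (f a) b, ?_⟩
  cases b with
  | true =>
    refine hf.of_eq fun a => ?_
    show f a = decide (f a = true)
    cases f a <;> rfl
  | false =>
    refine (Primrec.not.to_comp.comp hf).of_eq fun a => ?_
    show (!(f a)) = decide (f a = false)
    cases f a <;> rfl

theorem rf2_list (X : ℕ → Bool) (c i : ℕ) (hi : i < c + 1) :
    ((List.range (c + 1)).map X).getD i false = X i := by
  rw [List.getD_eq_getElem _ _ (by simpa using hi)]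
  simp

theorem rf2_iff (X : ℕ → Bool) (c : ℕ) (b : Bool) : valX X c = b ↔ ∃ l : List Bool,
    (∀ i < c + 1, (l.getD i false = true ∧ X i = true) ∨ (l.getD i false = false ∧ X i = false)) ∧
      valX (fun m => l.getD m false) c = b := by
  constructor
  · intro h
    refine ⟨(List.range (c + 1)).map X, fun i hi => ?_, ?_⟩
    · rw [rf2_list X c i hi]
      cases X i
      · exact Or.inr ⟨rfl, rfl⟩
      · exact Or.inl ⟨rfl, rfl⟩
    · rw [← h]
      exact valX_congr fun m hm => rf2_list X c m (by omega)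
  · rintro ⟨l, h1, h2⟩
    rw [← h2]
    refine valX_congr fun m hm => ?_
    rcases h1 m (by omega) with ⟨h3, h4⟩ | ⟨h3, h4⟩
    · rw [h3, h4]
    · rw [h3, h4]

theorem rf2_Sg {n : ℕ} {X : ℕ → Bool} (h : Sg (n + 1) (fun m => X m = true))
    (h' : Sg (n + 1) (fun m => X m = false)) (b : Bool) : Sg (n + 1) (fun c => valX X c = b) := by
  have hg : Computable (fun y : (ℕ × List Bool) × ℕ => y.1.2.getD y.2 false) :=
    ((Primrec.list_getD false).comp (Primrec.snd.comp Primrec.fst) Primrec.snd).to_comp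
  have hQ : Sg (n + 1) (fun y : (ℕ × List Bool) × ℕ =>
      (y.1.2.getD y.2 false = true ∧ X y.2 = true) ∨ (y.1.2.getD y.2 false = false ∧ X y.2 = false)) :=
    Sg.or (Sg.and (Sg.of_computable (rf2_cp hg true)) (Sg.comp h Computable.snd))
      (Sg.and (Sg.of_computable (rf2_cp hg false)) (Sg.comp h' Computable.snd))
  have hf : Computable (fun x : ℕ × List Bool => x.1 + 1) := Computable.succ.comp Computable.fst
  have hB := Sg.ball hQ hf
  have hv : Computable (fun x : ℕ × List Bool => valX (fun m => x.2.getD m false) x.1) :=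
    valX_comp.comp (Computable.pair Computable.snd Computable.fst)
  have hP := Sg.ex' (Sg.and hB (Sg.of_computable (n := n + 1) (rf2_cp hv b)))
  exact Sg.of_iff hP fun c => rf2_iff X c b

theorem valX_Sg {n : ℕ} {X : ℕ → Bool} (h : Sg (n + 1) (fun m => X m = true)) (h' : Sg (n + 1) (fun m => X m = false)) :
    Sg (n + 1) (fun c => valX X c = true) ∧ Sg (n + 1) (fun c => valX X c = false) :=
  ⟨rf2_Sg h h' true, rf2_Sg h h' false⟩

theorem valX_piAlg {n : ℕ} {X : ℕ → Bool} (h : Sg (n + 1) (fun m => X m = true)) (h' : Sg (n + 1) (fun m => X m = false)) :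
    PiAlg (n + 1) (valX X) := by
  obtain ⟨ht, hf⟩ := valX_Sg h h'
  have p3 : Primrec₂ (fun a b : ℕ => 3 * a + b) :=
    Primrec.nat_add.comp (Primrec.nat_mul.comp (Primrec.const 3) Primrec.fst) Primrec.snd
  have pn : Primrec (fun m : ℕ => 3 * m + 2) := p3.comp Primrec.id (Primrec.const 2)
  have pa : Primrec₂ (fun m k : ℕ => 3 * Nat.pair m k + 3) :=
    p3.comp (Primrec₂.natPair.comp Primrec.fst Primrec.snd) (Primrec.const 3)
  refine ⟨fun b => ?_, ⟨⟨fun m k => 3 * (3 * Nat.pair (3 * m + 2) (3 * k + 2) + 3) + 2, ?_, ?_⟩,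
    ⟨fun m k => 3 * Nat.pair m k + 3, ?_, ?_⟩, ⟨fun m => 3 * m + 2, ?_, ?_⟩⟩, ?_⟩
  · cases b with
    | false => exact ⟨0, valX_zero X⟩
    | true => exact ⟨3 * 0 + 2, by rw [valX_not, valX_zero]; rfl⟩
  · have : Primrec₂ (fun m k : ℕ => 3 * (3 * Nat.pair (3 * m + 2) (3 * k + 2) + 3) + 2) :=
      pn.comp (pa.comp (pn.comp Primrec.fst) (pn.comp Primrec.snd))
    exact this.to_comp
  · intro m k
    rw [valX_not, valX_and, valX_not, valX_not]
    cases valX X m <;> cases valX X k <;> rfl
  · exact pa.to_comp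
  · intro m k
    rw [valX_and]
    cases valX X m <;> cases valX X k <;> rfl
  · exact pn.to_comp
  · intro m
    rw [valX_not]
    cases valX X m <;> rfl
  · show Sg (n + 1) (fun p : ℕ × ℕ => ¬ (valX X p.1 = valX X p.2))
    have h1 : Sg (n + 1) (fun p : ℕ × ℕ => (valX X p.1 = true ∧ valX X p.2 = false) ∨
        (valX X p.1 = false ∧ valX X p.2 = true)) :=
      Sg.or (Sg.and (Sg.comp ht Computable.fst) (Sg.comp hf Computable.snd))
        (Sg.and (Sg.comp hf Computable.fst) (Sg.comp ht Computable.snd))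
    refine Sg.of_iff h1 fun p => ?_
    cases valX X p.1 <;> cases valX X p.2 <;> simp

end Pool.Agent.LIN
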