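import Pool.Agent.LIN.RF2

/-! # [LIN-RF3] There is no `Pi_n` universal numerated Boolean algebra in the literal sense, `n ≥ 2`

Let `β` be `NumUniversal (n + 2)`.  `nz j := β j ≠ ⊥` is `Sg (n+2)` (compare with an index of `⊥`), `Q` its certificates (`Sg.cert`, `Pg (n+1)`): `nz j ↔ ∃ a, Q (j, a)`.
For `k : ℕ` let `j = k.unpair.1`, `a = k.unpair.2.unpair.1`, `e = k.unpair.2.unpair.2`.
`A0 k := ∃ y, ev e (3 * k + 1) y ∧ β y ⊓ β j ≠ ⊥`, `A1 k := ∃ y, ev e (3 * k + 1) y ∧ β j ⊓ (β y)ᶜ ≠ ⊥`: `Sg (n+2)` (`ev_Sg`, `Sg.ex`; `β y ⊓ β j = β (f y j)`).  `Sg.reduction`: `A0'`, `A1'` disjoint.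
`dom k := Q (j, a) ∧ ∃ y, ev e (3 * k + 1) y`: both `Sg (n+2)` and `Pg (n+2)`.  `X k := decide (dom k ∧ A1' k)`.  `X k = true` is `Sg (n+2)`; `X k = false` iff `¬ dom k ∨ A0' k`
(if `dom k` then `β j ≠ ⊥` so `A0 k ∨ A1 k`, so exactly one of `A0' k`, `A1' k`) is `Sg (n+2)`.
`valX_piAlg`: `(Bool, valX X)` is a `Pi_{n+2}` algebra, so there are `b` and `μ : Bool ≃o Set.Iic b`, computable `f` with `μ (valX X m) = β (f m) ⊓ b`.  `b = β j` (surjectivity), `b ≠ ⊥` (otherwise `Set.Iic b` has one element), so `Q (j, a)` for some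
`a`; `exists_ev` for `f` gives `e`; `k = pair j (pair a e)`, `y = f (3 * k + 1)`, `ev e (3 * k + 1) y`, `dom k`.  If `X k = true`: `A1 k`: `b ⊓ (β y)ᶜ ≠ ⊥`; but `valX X (3 * k + 1) = X k = ⊤`, `μ ⊤ = ⊤` so `β y ⊓ b = b`: contradiction.
If `X k = false`: `A0' k` so `β y ⊓ b ≠ ⊥`, but `μ ⊥ = ⊥` gives `β y ⊓ b = ⊥`. -/

namespace Pool.Agent.LIN

theorem RF3_mono {α : Type} [Primcodable α] {m : ℕ} {p : α → Prop} (h : Sg m p) (i : ℕ) :
    Sg (m + i) p := by
  induction i with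
  | zero => exact h
  | succ i ih => exact ih.succ

theorem no_numUniversal (n : ℕ) {B : Type} [BooleanAlgebra B] (β : ℕ → B) : ¬ NumUniversal (n + 2) β := by
  classical
  rintro ⟨⟨hsurj, ⟨-, ⟨fi, hfi, hfi'⟩, ⟨fc, hfc, hfc'⟩⟩, heq⟩, huniv⟩
  obtain ⟨o, ho⟩ := hsurj ⊥
  have nz : Sg (n + 2) (fun j : ℕ => β j ≠ ⊥) := by
    have h1 : Sg (n + 2) (fun p : ℕ × ℕ => ¬ β p.1 = β p.2) := heq.not
    have h2 : Sg (n + 2) (fun j : ℕ => ¬ β (j, o).1 = β (j, o).2) :=
      h1.comp (f := fun j : ℕ => (j, o)) (Computable.pair Computable.id (Computable.const o))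
    exact h2.of_iff fun j => by simp [ho]
  obtain ⟨Q, hQ, hQ'⟩ := nz.cert
  have cj : Computable (fun k : ℕ => k.unpair.1) :=
    (Primrec.fst.comp Primrec.unpair).to_comp
  have ca : Computable (fun k : ℕ => k.unpair.2.unpair.1) :=
    (Primrec.fst.comp (Primrec.unpair.comp (Primrec.snd.comp Primrec.unpair))).to_comp
  have ce : Computable (fun k : ℕ => k.unpair.2.unpair.2) :=
    (Primrec.snd.comp (Primrec.unpair.comp (Primrec.snd.comp Primrec.unpair))).to_comp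
  have c3 : Computable (fun k : ℕ => 3 * k + 1) :=
    (Primrec.nat_add.comp (Primrec.nat_mul.comp (Primrec.const 3) Primrec.id)
      (Primrec.const 1)).to_comp
  have evS1 : Sg 1 (fun x : ℕ × ℕ => ev x.1.unpair.2.unpair.2 (3 * x.1 + 1) x.2) :=
    ev_Sg.comp (f := fun x : ℕ × ℕ => ((x.1.unpair.2.unpair.2, 3 * x.1 + 1), x.2))
      (Computable.pair (Computable.pair (ce.comp Computable.fst) (c3.comp Computable.fst))
        Computable.snd)
  have evS : Sg (n + 2) (fun x : ℕ × ℕ => ev x.1.unpair.2.unpair.2 (3 * x.1 + 1) x.2) := by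
    have := RF3_mono evS1 (n + 1)
    rwa [show 1 + (n + 1) = n + 2 by ring] at this
  have hA0 : Sg (n + 2) (fun k : ℕ => ∃ y, ev k.unpair.2.unpair.2 (3 * k + 1) y ∧
      β (fi y k.unpair.1) ≠ ⊥) := by
    refine Sg.ex (p := fun x : ℕ × ℕ => ev x.1.unpair.2.unpair.2 (3 * x.1 + 1) x.2 ∧
      β (fi x.2 x.1.unpair.1) ≠ ⊥) (evS.and ?_)
    exact nz.comp (f := fun x : ℕ × ℕ => fi x.2 x.1.unpair.1)
      (hfi.comp Computable.snd (cj.comp Computable.fst))
  have hA1 : Sg (n + 2) (fun k : ℕ => ∃ y, ev k.unpair.2.unpair.2 (3 * k + 1) y ∧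
      β (fi k.unpair.1 (fc y)) ≠ ⊥) := by
    refine Sg.ex (p := fun x : ℕ × ℕ => ev x.1.unpair.2.unpair.2 (3 * x.1 + 1) x.2 ∧
      β (fi x.1.unpair.1 (fc x.2)) ≠ ⊥) (evS.and ?_)
    exact nz.comp (f := fun x : ℕ × ℕ => fi x.1.unpair.1 (fc x.2))
      (hfi.comp (cj.comp Computable.fst) (hfc.comp Computable.snd))
  obtain ⟨A0', A1', s0, s1, i0, i1, hcov, hdis⟩ := Sg.reduction hA0 hA1
  set dom : ℕ → Prop := fun k => Q (k.unpair.1, k.unpair.2.unpair.1) ∧
    ∃ y, ev k.unpair.2.unpair.2 (3 * k + 1) y with hdom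
  have hQc : Pg (n + 1) (fun k : ℕ => Q (k.unpair.1, k.unpair.2.unpair.1)) :=
    hQ.comp (f := fun k : ℕ => (k.unpair.1, k.unpair.2.unpair.1)) (Computable.pair cj ca)
  have exS1 : Sg 1 (fun k : ℕ => ∃ y, ev k.unpair.2.unpair.2 (3 * k + 1) y) := Sg.ex evS1
  have exS : Sg (n + 1) (fun k : ℕ => ∃ y, ev k.unpair.2.unpair.2 (3 * k + 1) y) := by
    have := RF3_mono exS1 n
    rwa [show 1 + n = n + 1 by ring] at this
  have domS : Sg (n + 2) dom := hQc.toSg.and exS.succ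
  have domP : Pg (n + 2) dom := hQc.succ.and exS.toPg
  set X : ℕ → Bool := fun k => decide (dom k ∧ A1' k) with hX
  have key : ∀ k, dom k → A0' k ∨ A1' k := by
    rintro k ⟨hq, y, hy⟩
    apply hcov k
    have hb : β k.unpair.1 ≠ ⊥ := (hQ' _).2 ⟨_, hq⟩
    by_contra hc
    push Not at hc
    obtain ⟨h0, h1⟩ := hc
    have e0 := h0 y hy
    have e1 := h1 y hy
    rw [hfi'] at e0 e1
    rw [hfc'] at e1
    apply hb
    have : β k.unpair.1 = (β y ⊓ β k.unpair.1) ⊔ (β k.unpair.1 ⊓ (β y)ᶜ) := by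
      rw [inf_comm (β y), ← inf_sup_left, sup_compl_eq_top, inf_top_eq]
    rw [this, e0, e1, sup_bot_eq]
  have hX1 : Sg (n + 2) (fun k => X k = true) :=
    (domS.and s1).of_iff fun k => by simp [hX]
  have hXf : ∀ k, X k = false ↔ (¬ dom k ∨ A0' k) := by
    intro k
    simp only [hX, decide_eq_false_iff_not]
    constructor
    · intro h
      by_cases hd : dom k
      · right
        rcases key k hd with h' | h'
        · exact h'
        · exact absurd ⟨hd, h'⟩ h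
      · left; exact hd
    · rintro (h | h) ⟨hd, h'⟩
      · exact h hd
      · exact hdis k ⟨h, h'⟩
  have hX0 : Sg (n + 2) (fun k => X k = false) :=
    (domP.not.or s0).of_iff hXf
  obtain ⟨b, μ, f, g, hf, hg, hμ, -⟩ := huniv Bool (valX X) (valX_piAlg hX1 hX0)
  obtain ⟨j, hj⟩ := hsurj b
  have hb : b ≠ ⊥ := by
    rintro rfl
    have h1 : (μ true : Set.Iic (⊥ : B)) = μ false := by
      apply Subtype.ext
      have a1 : ((μ true : Set.Iic (⊥ : B)) : B) ≤ ⊥ := (μ true).2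
      have a2 : ((μ false : Set.Iic (⊥ : B)) : B) ≤ ⊥ := (μ false).2
      rw [le_bot_iff] at a1 a2
      rw [a1, a2]
    have := μ.injective h1
    simp at this
  obtain ⟨a, ha⟩ := (hQ' j).1 (by rw [hj]; exact hb)
  obtain ⟨e, he⟩ := exists_ev hf
  set k := Nat.pair j (Nat.pair a e) with hk
  have k1 : k.unpair.1 = j := by rw [hk, Nat.unpair_pair]
  have k2 : k.unpair.2.unpair.1 = a := by rw [hk, Nat.unpair_pair, Nat.unpair_pair]
  have k3 : k.unpair.2.unpair.2 = e := by rw [hk, Nat.unpair_pair, Nat.unpair_pair]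
  have hd : dom k := by
    refine ⟨?_, f (3 * k + 1), ?_⟩
    · rw [k1, k2]; exact ha
    · rw [k3]; exact he _
  have hμk := hμ (3 * k + 1)
  rw [valX_atom] at hμk
  rcases hXk : X k with _ | _
  · -- false
    rw [hXk] at hμk
    have h0 : A0' k := by
      rcases (hXf k).1 hXk with h | h
      · exact absurd hd h
      · exact h
    obtain ⟨y, hy, hy2⟩ := i0 k h0
    rw [k3] at hy
    have : y = f (3 * k + 1) := ev_unique hy (he _)
    subst this
    apply hy2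
    rw [hfi', k1, hj, ← hμk]
    have hbot : μ false = ⟨⊥, bot_le⟩ := by
      apply le_antisymm
      · have : μ false ≤ μ (μ.symm ⟨⊥, bot_le⟩) := μ.monotone (Bool.false_le _)
        rwa [μ.apply_symm_apply] at this
      · exact (bot_le : (⊥ : B) ≤ _)
    rw [hbot]
  · rw [hXk] at hμk
    have h1 : A1' k := by
      have : decide (dom k ∧ A1' k) = true := hXk
      rw [decide_eq_true_eq] at this
      exact this.2
    obtain ⟨y, hy, hy2⟩ := i1 k h1
    rw [k3] at hy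
    have : y = f (3 * k + 1) := ev_unique hy (he _)
    subst this
    apply hy2
    rw [hfi', hfc', k1, hj]
    have htop : μ true = ⟨b, le_refl b⟩ := by
      apply le_antisymm
      · exact (μ true).2
      · have : μ (μ.symm ⟨b, le_refl b⟩) ≤ μ true := μ.monotone (Bool.le_true _)
        rwa [μ.apply_symm_apply] at this
    rw [htop] at hμk
    have hle : b ≤ β (f (3 * k + 1)) := by
      have : b = β (f (3 * k + 1)) ⊓ b := hμk
      rw [this]; exact inf_le_left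
    rw [← le_bot_iff]
    calc b ⊓ (β (f (3 * k + 1)))ᶜ ≤ β (f (3 * k + 1)) ⊓ (β (f (3 * k + 1)))ᶜ :=
          inf_le_inf_right _ hle
      _ = ⊥ := inf_compl_eq_bot

end Pool.Agent.LIN
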