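import Pool.Agent.LIN.RC5

/-! # [LIN-RG1] Hanf data: finitely axiomatisable = isolated

`finAx_iff`: (→) let `φ ∈ Th X` with `{φ} ⊨ᵇ ψ` for all `ψ ∈ Th X`; `dep` for `φ` gives `n`.  If `pre Y n = pre X n` then `φ ∈ Th Y`, so `Th X ⊆ Th Y` (`Th Y` is the complete theory of a structure `M`, `M ⊨ φ`),
hence `Th X = Th Y` (complete theories, `IsTh.mem_not`) and `Y = X` by injectivity.  (←) let `n` isolate `X`; `φ = a ⊓ ⨅ k < n, (bit sentence number k or its negation) ∈ Th X` (`exists_cyl`).  If a nonempty structure `M`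
satisfies `φ` then its complete theory `T` contains `a`; to apply `surj` one needs a structure in `Type`: use that `{φ} ⊨ᵇ ψ` fails iff `{φ, ¬ψ}` is satisfiable, `ModelType.{0,0,0}`; so `T = Th Y` with
`pre Y n = pre X n`, `Y = X`, `M ⊨ ψ` for `ψ ∈ Th X`. -/

namespace Pool.Agent.LIN

open FirstOrder

/-- The data given by the Hanf theorem for the class of `R`. -/
structure HD {L : FirstOrder.Language.{0, 0}} (E : Enum L) (R : List Bool → Prop) where
  a : L.Sentence
  Th : Cls R → L.Theory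
  inj : Function.Injective Th
  isTh : ∀ X, IsTh (Th X)
  a_mem : ∀ X, a ∈ Th X
  surj : ∀ T : L.Theory, IsTh T → a ∈ T → ∃ X, T = Th X
  dep : ∀ φ : L.Sentence, ∃ n, ∀ X Y : Cls R, pre X.1 n = pre Y.1 n → (φ ∈ Th X ↔ φ ∈ Th Y)
  bits : ∀ n, ∃ φ : L.Sentence, ∀ X : Cls R, φ ∈ Th X ↔ X.1 n = true
  dec : ∀ X, DecTh E (Th X) ↔ Computable X.1

theorem HanfStatement.exists_HD (h : HanfStatement) {L : FirstOrder.Language.{0, 0}} (E : Enum L) (hL : Rich L)
    {R : List Bool → Prop} (hR : ComputablePred R) : Nonempty (HD E R) := by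
  obtain ⟨a, Th, h1, h2, h3, h4, h5, h6⟩ := h L E hL R hR
  exact ⟨⟨a, Th, h1, fun X => (h2 X).1, fun X => (h2 X).2, h3, h4, h5, h6⟩⟩

/-- a complete theory of a structure is determined by inclusion -/
theorem IsTh.eq_of_subset {L : FirstOrder.Language.{0, 0}} {T T' : L.Theory} (h : IsTh T) (h' : IsTh T')
    (hs : T ⊆ T') : T = T' := by
  apply Set.Subset.antisymm hs
  intro φ hφ
  by_contra h1
  have h2 := (h.mem_not φ).2 h1
  exact (h'.mem_not φ).1 (hs h2) hφ

namespace HD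

variable {L : FirstOrder.Language.{0, 0}} {E : Enum L} {R : List Bool → Prop} (H : HD E R)

/-- the sentence of a cylinder (induction on the string from the right, `bits`) -/
theorem exists_cyl (τ : List Bool) : ∃ φ : L.Sentence, ∀ X : Cls R, φ ∈ H.Th X ↔ pre X.1 τ.length = τ := by
  induction τ using List.reverseRecOn with
  | nil => exact ⟨H.a, fun X => ⟨fun _ => rfl, fun _ => H.a_mem X⟩⟩
  | append_singleton τ b ih =>
    obtain ⟨φ, hφ⟩ := ih
    obtain ⟨ψ, hψ⟩ := H.bits τ.length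
    have hb : ∃ χ : L.Sentence, ∀ X : Cls R, χ ∈ H.Th X ↔ X.1 τ.length = b := by
      cases b with
      | true => exact ⟨ψ, hψ⟩
      | false =>
        refine ⟨ψ.not, fun X => ?_⟩
        rw [(H.isTh X).mem_not, hψ]
        simp
    obtain ⟨χ, hχ⟩ := hb
    refine ⟨φ ⊓ χ, fun X => ?_⟩
    rw [(H.isTh X).mem_inf, hφ, hχ, List.length_append, List.length_singleton, pre_succ]
    constructor
    · rintro ⟨h1, h2⟩
      rw [h1, h2]
    · intro h
      have := List.append_inj' h rfl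
      exact ⟨this.1, by simpa using this.2⟩

/-- sets of points depending on finitely many bits are given by sentences (finite disjunctions of cylinder sentences) -/
theorem exists_dep (s : Set (ℕ → Bool)) (N : ℕ)
    (h : ∀ X Y : Cls R, pre X.1 N = pre Y.1 N → (X.1 ∈ s ↔ Y.1 ∈ s)) :
    ∃ φ : L.Sentence, ∀ X : Cls R, φ ∈ H.Th X ↔ X.1 ∈ s := by
  classical
  have key : ∀ G : Finset (List Bool), (∀ τ ∈ G, τ.length = N) →
      ∃ φ : L.Sentence, ∀ X : Cls R, φ ∈ H.Th X ↔ pre X.1 N ∈ G := by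
    intro G
    induction G using Finset.induction_on with
    | empty =>
      intro _
      refine ⟨H.a.not, fun X => ?_⟩
      rw [(H.isTh X).mem_not]
      simp [H.a_mem X]
    | insert τ G hτ ih =>
      intro hG
      obtain ⟨φ, hφ⟩ := ih (fun σ hσ => hG σ (Finset.mem_insert_of_mem hσ))
      obtain ⟨ψ, hψ⟩ := H.exists_cyl τ
      refine ⟨(φ.not ⊓ ψ.not : L.Sentence).not, fun X => ?_⟩
      rw [(H.isTh X).mem_not, (H.isTh X).mem_inf, (H.isTh X).mem_not, (H.isTh X).mem_not, hφ, hψ,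
        hG τ (Finset.mem_insert_self τ G), Finset.mem_insert]
      tauto
  have hfin : {τ : List Bool | ∃ X : Cls R, pre X.1 N = τ ∧ X.1 ∈ s}.Finite := by
    apply (List.finite_length_eq Bool N).subset
    rintro τ ⟨X, h1, _⟩
    rw [← h1]
    exact pre_length X.1 N
  obtain ⟨φ, hφ⟩ := key hfin.toFinset (by
    intro τ hτ
    rw [Set.Finite.mem_toFinset] at hτ
    obtain ⟨X, h1, _⟩ := hτ
    rw [← h1]
    exact pre_length X.1 N)
  refine ⟨φ, fun X => ?_⟩
  rw [hφ, Set.Finite.mem_toFinset]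
  constructor
  · rintro ⟨Y, h1, h2⟩
    exact (h Y X h1).1 h2
  · intro h1
    exact ⟨X, rfl, h1⟩

theorem finAx_iff (X : Cls R) : FinAx (H.Th X) ↔ ∃ n, ∀ Y : Cls R, pre Y.1 n = pre X.1 n → Y = X := by
  constructor
  · rintro ⟨φ, hφ, hall⟩
    obtain ⟨n, hn⟩ := H.dep φ
    refine ⟨n, fun Y hY => ?_⟩
    have h1 : φ ∈ H.Th Y := (hn Y X hY).2 hφ
    obtain ⟨M, iM, iN, hM⟩ := H.isTh Y
    apply H.inj
    symm
    apply IsTh.eq_of_subset (H.isTh X) (H.isTh Y)
    intro ψ hψ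
    have h2 := hall ψ hψ
    rw [hM] at h1 ⊢
    have h3 : M ⊨ φ := h1
    haveI : M ⊨ ({φ} : L.Theory) := by
      rw [FirstOrder.Language.Theory.model_iff]
      intro χ hχ
      rw [Set.mem_singleton_iff] at hχ
      rw [hχ]
      exact h3
    exact h2.realize_sentence M
  · rintro ⟨n, hn⟩
    obtain ⟨φ, hφ⟩ := H.exists_cyl (pre X.1 n)
    have hφX : φ ∈ H.Th X := by
      rw [hφ, pre_length]
    refine ⟨H.a ⊓ φ, ((H.isTh X).mem_inf _ _).2 ⟨H.a_mem X, hφX⟩, fun ψ hψ => ?_⟩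
    rw [FirstOrder.Language.Theory.models_sentence_iff]
    intro M
    have hMm : M ⊨ (H.a ⊓ φ : L.Sentence) :=
      FirstOrder.Language.Theory.realize_sentence_of_mem ({H.a ⊓ φ} : L.Theory) (Set.mem_singleton _)
    have hT : IsTh (L.completeTheory M) := ⟨M, inferInstance, inferInstance, rfl⟩
    have h1 : (H.a ⊓ φ : L.Sentence) ∈ L.completeTheory M := hMm
    rw [hT.mem_inf] at h1
    obtain ⟨Y, hY⟩ := H.surj _ hT h1.1
    have h2 := h1.2
    rw [hY, hφ, pre_length] at h2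
    have h3 := hn Y h2
    rw [h3] at hY
    have h4 : ψ ∈ L.completeTheory M := by
      rw [hY]
      exact hψ
    exact h4

/-- `isTh`, `dec`, `finAx_iff` -/
theorem mem_ND_iff (X : Cls R) : H.Th X ∈ ND E ↔ X.1 ∈ NP R := by
  constructor
  · rintro ⟨_, h2, h3⟩
    refine ⟨X.2, (H.dec X).1 h2, fun n => ?_⟩
    by_contra hcon
    apply h3
    rw [H.finAx_iff]
    refine ⟨n, fun Y hY => ?_⟩
    by_contra hne
    apply hcon
    exact ⟨Y.1, Y.2, hY, fun h => hne (Subtype.ext h)⟩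
  · rintro ⟨_, h2, h3⟩
    refine ⟨H.isTh X, (H.dec X).2 h2, fun hF => ?_⟩
    rw [H.finAx_iff] at hF
    obtain ⟨n, hn⟩ := hF
    obtain ⟨Y, hY, hYn, hne⟩ := h3 n
    exact hne (congrArg Subtype.val (hn ⟨Y, hY⟩ hYn))

end HD

end Pool.Agent.LIN
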