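import Pool.Agent.LIN.RG1

/-! # [LIN-RG2] The Lindenbaum algebra below the sentence `a`

`A := {T ∈ ND | a ∈ T}`, an element of `LindND E`.  Map `b ↦ {T : ND E | ∃ X : Cls R, X.1 ∈ P.Ψ b ∧ T.1 = H.Th X}`; it is in `LindND E`: `s := {X | ∃ Y ∈ P.Ψ b, pre Y N = pre X N}` (`N` from `P.fin b`) depends
on `N` bits, `exists_dep` gives `φ`; the set is defined by `φ ⊓ a` (for `T ∈ ND E` with `a ∈ T`: `T = Th X`, `X.1 ∈ NP R` by `mem_ND_iff`, and `X.1 ∈ s ↔ X.1 ∈ P.Ψ b` by `P.fin`).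
It is `≤ A`; it preserves and reflects `≤` (`le_iff`; `P.Ψ b ⊆ NP R`, `H.inj`).  Surjective onto `Set.Iic A`: for `S ≤ A`, `S` given by `φ`: the set `{X ∈ NP R | φ ∈ Th X}` has finite dependence (`H.dep`), `of_dep`. -/

namespace Pool.Agent.LIN

open FirstOrder

/-- the set of theories of the points of `P.Ψ b` -/
def rg2_F {L : FirstOrder.Language.{0, 0}} {E : Enum L} {R : List Bool → Prop} (H : HD E R)
    {B : Type} [BooleanAlgebra B] (P : PsiD B R) (b : B) : Set (ND E) :=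
  {T | ∃ X : Cls R, X.1 ∈ P.Ψ b ∧ T.1 = H.Th X}

theorem rg2_mem {L : FirstOrder.Language.{0, 0}} {E : Enum L} {R : List Bool → Prop} (H : HD E R)
    {B : Type} [BooleanAlgebra B] (P : PsiD B R) (b : B) :
    ∃ φ : L.Sentence, ∀ T : ND E, T ∈ rg2_F H P b ↔ φ ∈ T.1 := by
  obtain ⟨N, hN⟩ := P.fin b
  obtain ⟨φ, hφ⟩ := H.exists_dep {X | ∃ Y ∈ P.Ψ b, pre Y N = pre X N} N (by
    intro X Y hXY
    constructor
    · rintro ⟨Z, hZ, h⟩
      exact ⟨Z, hZ, h.trans hXY⟩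
    · rintro ⟨Z, hZ, h⟩
      exact ⟨Z, hZ, h.trans hXY.symm⟩)
  refine ⟨φ ⊓ H.a, fun T => ?_⟩
  have hT : IsTh T.1 := T.2.1
  constructor
  · rintro ⟨X, hX, hTX⟩
    rw [hT.mem_inf, hTX, hφ]
    exact ⟨⟨X.1, hX, rfl⟩, H.a_mem X⟩
  · intro h
    rw [hT.mem_inf] at h
    obtain ⟨X, hX⟩ := H.surj _ hT h.2
    have h1 := h.1
    rw [hX, hφ] at h1
    obtain ⟨Y, hY, hYX⟩ := h1
    have hXNP : X.1 ∈ NP R := by
      rw [← H.mem_ND_iff, ← hX]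
      exact T.2
    exact ⟨X, (hN Y (P.sub b hY) X.1 hXNP hYX).1 hY, hX⟩

theorem exists_iic {L : FirstOrder.Language.{0, 0}} {E : Enum L} {R : List Bool → Prop} (H : HD E R)
    {B : Type} [BooleanAlgebra B] (P : PsiD B R) : ∃ A : LindND E, Nonempty (B ≃o Set.Iic A) := by
  let A : LindND E := ⟨{T : ND E | H.a ∈ T.1}, H.a, fun T => Iff.rfl⟩
  have hle : ∀ b, (⟨rg2_F H P b, rg2_mem H P b⟩ : LindND E) ≤ A := by
    intro b T hT
    obtain ⟨X, _, hX⟩ := hT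
    show H.a ∈ T.1
    rw [hX]
    exact H.a_mem X
  let f : B → Set.Iic A := fun b => ⟨⟨rg2_F H P b, rg2_mem H P b⟩, hle b⟩
  have hf : ∀ b b', f b ≤ f b' ↔ b ≤ b' := by
    intro b b'
    rw [P.le_iff]
    constructor
    · intro h X hX
      have hXNP := P.sub b hX
      let X' : Cls R := ⟨X, hXNP.1⟩
      have h1 : (⟨H.Th X', (H.mem_ND_iff X').2 hXNP⟩ : ND E) ∈ rg2_F H P b := ⟨X', hX, rfl⟩
      have h2 : (⟨H.Th X', (H.mem_ND_iff X').2 hXNP⟩ : ND E) ∈ rg2_F H P b' := h h1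
      obtain ⟨Y, hY, hXY⟩ := h2
      have h3 : X' = Y := H.inj hXY
      rw [← h3] at hY
      exact hY
    · intro h T hT
      obtain ⟨X, hX, hTX⟩ := hT
      exact ⟨X, h hX, hTX⟩
  have hsurj : Function.Surjective f := by
    rintro ⟨⟨S, φ, hφ⟩, hS⟩
    obtain ⟨N, hN⟩ := H.dep φ
    obtain ⟨b, hb⟩ := P.of_dep (s := {X | ∃ h : X ∈ NP R, φ ∈ H.Th ⟨X, h.1⟩}) (fun X hX => hX.1) (N := N) (by
      intro X hX Y hY hXY
      constructor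
      · rintro ⟨h1, h2⟩
        exact ⟨hY, (hN ⟨X, hX.1⟩ ⟨Y, hY.1⟩ hXY).1 h2⟩
      · rintro ⟨h1, h2⟩
        exact ⟨hX, (hN ⟨X, hX.1⟩ ⟨Y, hY.1⟩ hXY).2 h2⟩)
    refine ⟨b, ?_⟩
    apply Subtype.ext
    apply Subtype.ext
    show rg2_F H P b = S
    ext T
    constructor
    · rintro ⟨X, hX, hTX⟩
      rw [hb] at hX
      obtain ⟨h1, h2⟩ := hX
      rw [hφ, hTX]
      exact h2
    · intro hT
      have hTφ := (hφ T).1 hT
      have hTa : H.a ∈ T.1 := hS hT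
      obtain ⟨X, hX⟩ := H.surj _ T.2.1 hTa
      have hXNP : X.1 ∈ NP R := by
        rw [← H.mem_ND_iff, ← hX]
        exact T.2
      refine ⟨X, ?_, hX⟩
      rw [hb]
      refine ⟨hXNP, ?_⟩
      rw [hX] at hTφ
      exact hTφ
  exact ⟨A, ⟨RelIso.ofSurjective (OrderEmbedding.ofMapLEIff f hf) hsurj⟩⟩

end Pool.Agent.LIN
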