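import Pool.Agent.LIN.RG2
import Pool.Agent.LIN.RD5
import Pool.Agent.LIN.RE3

/-! # [LIN-RG3] Final assembly of block R -/

namespace Pool.Agent.LIN

open FirstOrder

theorem final_of_hanf (hH : HanfStatement) (hS : SatStatement) : FinalStatement := by
  intro L E hL
  have h1 : UnivPi 4 (LindND E) := by
    refine ⟨hasPi_LindND E hS, ?_⟩
    intro A _ hA
    obtain ⟨ν, hν⟩ := hA
    rcases subsingleton_or_nontrivial A with hs | hn
    · refine ⟨⊥, ⟨{ toFun := fun _ => ⟨⊥, Set.mem_Iic.2 (le_refl _)⟩, invFun := fun _ => ⊥, left_inv := fun a => Subsingleton.elim _ _,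
                    right_inv := fun x => ?_, map_rel_iff' := ?_ }⟩⟩
      · apply Subtype.ext
        exact (le_bot_iff.1 x.2).symm
      · intro a b
        constructor
        · intro _
          exact le_of_eq (Subsingleton.elim _ _)
        · intro _
          exact le_refl _
    · obtain ⟨R, hR, ⟨P⟩⟩ := exists_PsiD hν
      obtain ⟨H⟩ := hH.exists_HD E hL hR
      exact exists_iic H P
  exact ⟨h1, fun B _ hB => UnivPi.unique hB h1⟩

end Pool.Agent.LIN
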