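import Pool.Agent.LIN.Iface

/-! # [LIN-RH1] The arithmetical hierarchy: basic closure properties -/

namespace Pool.Agent.LIN

section
variable {α β : Type} [Primcodable α] [Primcodable β]

theorem Sg.of_iff {n : ℕ} {p q : α → Prop} (h : Sg n p) (hpq : ∀ a, q a ↔ p a) : Sg n q := by
  have : q = p := funext fun a => propext (hpq a)
  rw [this]
  exact h

theorem Pg.of_iff {n : ℕ} {p q : α → Prop} (h : Pg n p) (hpq : ∀ a, q a ↔ p a) : Pg n q := by
  have : q = p := funext fun a => propext (hpq a)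
  rw [this]
  exact h

theorem Pg.not {n : ℕ} {p : α → Prop} (h : Pg n p) : Sg n (fun a => ¬ p a) := h

theorem Sg.not {n : ℕ} {p : α → Prop} (h : Sg n p) : Pg n (fun a => ¬ p a) :=
  Sg.of_iff h fun _ => not_not

/-- Induction on `n` (generalizing `α`, `β`): for `n = 0` composition of computable functions; for `n + 1` the matrix is
`fun x => q (f x.1, x.2)`. -/
theorem Sg.comp {n : ℕ} {p : β → Prop} (h : Sg n p) {f : α → β} (hf : Computable f) :
    Sg n (fun a => p (f a)) := by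
  induction n generalizing α β with
  | zero =>
    have h' : ComputablePred p := h
    obtain ⟨hd, hc⟩ := h'
    exact ⟨fun a => hd (f a), hc.comp hf⟩
  | succ n ih =>
    obtain ⟨q, hq, h1⟩ := h
    refine ⟨fun x : α × ℕ => q (f x.1, x.2), ?_, fun a => h1 (f a)⟩
    exact ih (p := fun x : β × ℕ => ¬ q x) hq (f := fun x : α × ℕ => (f x.1, x.2))
      ((hf.comp Computable.fst).pair Computable.snd)

theorem Pg.comp {n : ℕ} {p : β → Prop} (h : Pg n p) {f : α → β} (hf : Computable f) :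
    Pg n (fun a => p (f a)) := Sg.comp (p := fun b => ¬ p b) h hf

/-- by definition (use the matrix `q`; `Pg n q` unfolds to `Sg n (¬ q)`) -/
theorem Sg.ex_of_Pg {n : ℕ} {q : α × ℕ → Prop} (h : Pg n q) : Sg (n + 1) (fun a => ∃ k, q (a, k)) := by
  exact ⟨q, h, fun _ => Iff.rfl⟩

theorem Sg.cert {n : ℕ} {p : α → Prop} (h : Sg (n + 1) p) :
    ∃ q : α × ℕ → Prop, Pg n q ∧ ∀ a, p a ↔ ∃ k, q (a, k) := by
  obtain ⟨q, hq, h1⟩ := h
  exact ⟨q, hq, h1⟩

theorem Pg.cert {n : ℕ} {p : α → Prop} (h : Pg (n + 1) p) :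
    ∃ q : α × ℕ → Prop, Sg n q ∧ ∀ a, p a ↔ ∀ k, q (a, k) := by
  obtain ⟨q, hq, h1⟩ := h
  refine ⟨fun x => ¬ q x, hq, fun a => ?_⟩
  have h2 := h1 a
  rw [← not_exists, ← h2, not_not]

/-- matrix not depending on the quantified variable -/
theorem Pg.toSg {n : ℕ} {p : α → Prop} (h : Pg n p) : Sg (n + 1) p := by
  refine ⟨fun x => p x.1, ?_, fun a => ⟨fun h => ⟨0, h⟩, fun ⟨_, h⟩ => h⟩⟩
  exact Sg.comp (p := fun a => ¬ p a) h Computable.fst

theorem Sg.toPg {n : ℕ} {p : α → Prop} (h : Sg n p) : Pg (n + 1) p :=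
  Pg.toSg (p := fun a => ¬ p a) h.not

/-- `Sg 0 p → Sg 1 p` since `¬ ¬ p` is computable; `Sg (n+1) p → Sg (n+2) p` by induction on the matrix. -/
theorem Sg.succ {n : ℕ} {p : α → Prop} (h : Sg n p) : Sg (n + 1) p := by
  induction n generalizing α with
  | zero =>
    have h0 : Pg 0 p := by
      have h' : ComputablePred p := h
      exact h'.not
    exact Pg.toSg h0
  | succ n ih =>
    obtain ⟨q, hq, h1⟩ := h
    exact ⟨q, ih (p := fun x => ¬ q x) hq, h1⟩

theorem Pg.succ {n : ℕ} {p : α → Prop} (h : Pg n p) : Pg (n + 1) p :=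
  Sg.succ (p := fun a => ¬ p a) h

theorem Sg.of_computable {n : ℕ} {p : α → Prop} (h : ComputablePred p) : Sg n p := by
  induction n with
  | zero => exact h
  | succ n ih => exact Sg.succ ih

theorem Pg.of_computable {n : ℕ} {p : α → Prop} (h : ComputablePred p) : Pg n p :=
  Sg.of_computable (p := fun a => ¬ p a) h.not

end

end Pool.Agent.LIN
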