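import Pool.Agent.LIN.RH1

/-! # [LIN-RH2] The arithmetical hierarchy: conjunction, disjunction, quantifiers

`Sg.and_or`: simultaneous induction on `n` for all types.  `n = 0`: `ComputablePred.and`, `ComputablePred.or` (or `Computable` of Boolean operations).
Step: `Sg (n+1)`: `p a ↔ ∃ k, u (a, k)`, `q a ↔ ∃ k, w (a, k)` with `Pg n u`, `Pg n w`.  `p ∧ q`: matrix `fun x => u (x.1, x.2.unpair.1) ∧ w (x.1, x.2.unpair.2)`,
which is `Pg n` because its negation is the disjunction of two `Sg n` predicates (composed with computable maps, `Sg.comp`).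
`p ∨ q`: matrix `fun x => u x ∨ w x` (same `k` is enough), its negation is a conjunction of `Sg n` predicates.
`Sg.ex`: `p (a, k) ↔ ∃ l, u ((a, k), l)`, matrix `fun x => u ((x.1, x.2.unpair.1), x.2.unpair.2)`. -/

namespace Pool.Agent.LIN

section
variable {α β : Type} [Primcodable α] [Primcodable β]

theorem RH2_and {α : Type} [Primcodable α] {p q : α → Prop} (hp : ComputablePred p)
    (hq : ComputablePred q) : ComputablePred (fun a => p a ∧ q a) := by
  obtain ⟨f, hf, rfl⟩ := ComputablePred.computable_iff.1 hp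
  obtain ⟨g, hg, rfl⟩ := ComputablePred.computable_iff.1 hq
  refine ComputablePred.computable_iff.2 ⟨fun a => f a && g a, ?_, ?_⟩
  · exact (Primrec.and.to_comp).comp hf hg
  · funext a
    simp

theorem RH2_or {α : Type} [Primcodable α] {p q : α → Prop} (hp : ComputablePred p)
    (hq : ComputablePred q) : ComputablePred (fun a => p a ∨ q a) := by
  obtain ⟨f, hf, rfl⟩ := ComputablePred.computable_iff.1 hp
  obtain ⟨g, hg, rfl⟩ := ComputablePred.computable_iff.1 hq
  refine ComputablePred.computable_iff.2 ⟨fun a => f a || g a, ?_, ?_⟩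
  · exact (Primrec.or.to_comp).comp hf hg
  · funext a
    simp

theorem RH2_f1 {α : Type} [Primcodable α] :
    Computable (fun x : α × ℕ => (x.1, (Nat.unpair x.2).1)) :=
  (Primrec.pair Primrec.fst (Primrec.fst.comp (Primrec.unpair.comp Primrec.snd))).to_comp

theorem RH2_f2 {α : Type} [Primcodable α] :
    Computable (fun x : α × ℕ => (x.1, (Nat.unpair x.2).2)) :=
  (Primrec.pair Primrec.fst (Primrec.snd.comp (Primrec.unpair.comp Primrec.snd))).to_comp

theorem RH2_f3 {α : Type} [Primcodable α] :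
    Computable (fun x : α × ℕ => ((x.1, (Nat.unpair x.2).1), (Nat.unpair x.2).2)) :=
  (Primrec.pair (Primrec.pair Primrec.fst (Primrec.fst.comp (Primrec.unpair.comp Primrec.snd)))
    (Primrec.snd.comp (Primrec.unpair.comp Primrec.snd))).to_comp

theorem Sg.and_or (n : ℕ) : ∀ {α : Type} [Primcodable α] {p q : α → Prop}, Sg n p → Sg n q →
    Sg n (fun a => p a ∧ q a) ∧ Sg n (fun a => p a ∨ q a) := by
  induction n with
  | zero =>
    intro α _ p q hp hq
    exact ⟨RH2_and hp hq, RH2_or hp hq⟩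
  | succ n ih =>
    intro α _ p q hp hq
    obtain ⟨u, hu, hpu⟩ := Sg.cert hp
    obtain ⟨w, hw, hqw⟩ := Sg.cert hq
    constructor
    · have h1 : Pg n (fun x : α × ℕ => u (x.1, (Nat.unpair x.2).1)) := Pg.comp hu RH2_f1
      have h2 : Pg n (fun x : α × ℕ => w (x.1, (Nat.unpair x.2).2)) := Pg.comp hw RH2_f2
      have h3 : Pg n (fun x : α × ℕ => u (x.1, (Nat.unpair x.2).1) ∧
          w (x.1, (Nat.unpair x.2).2)) :=
        Sg.of_iff (ih h1 h2).2 fun x => by tauto
      refine Sg.of_iff (Sg.ex_of_Pg h3) fun a => ?_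
      rw [hpu, hqw]
      constructor
      · rintro ⟨⟨k, hk⟩, ⟨l, hl⟩⟩
        exact ⟨Nat.pair k l, by simpa using ⟨hk, hl⟩⟩
      · rintro ⟨k, hk1, hk2⟩
        exact ⟨⟨_, hk1⟩, ⟨_, hk2⟩⟩
    · have h3 : Pg n (fun x : α × ℕ => u x ∨ w x) :=
        Sg.of_iff (ih hu hw).1 fun x => by tauto
      refine Sg.of_iff (Sg.ex_of_Pg h3) fun a => ?_
      rw [hpu, hqw]
      exact exists_or.symm

theorem Sg.and {n : ℕ} {p q : α → Prop} (hp : Sg n p) (hq : Sg n q) : Sg n (fun a => p a ∧ q a) :=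
  (Sg.and_or n hp hq).1

theorem Sg.or {n : ℕ} {p q : α → Prop} (hp : Sg n p) (hq : Sg n q) : Sg n (fun a => p a ∨ q a) :=
  (Sg.and_or n hp hq).2

theorem Pg.and {n : ℕ} {p q : α → Prop} (hp : Pg n p) (hq : Pg n q) : Pg n (fun a => p a ∧ q a) := by
  exact Sg.of_iff (Sg.or (Pg.not hp) (Pg.not hq)) fun a => by tauto

theorem Pg.or {n : ℕ} {p q : α → Prop} (hp : Pg n p) (hq : Pg n q) : Pg n (fun a => p a ∨ q a) := by
  exact Sg.of_iff (Sg.and (Pg.not hp) (Pg.not hq)) fun a => by tauto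

theorem Pg.imp {n : ℕ} {p q : α → Prop} (hp : Sg n p) (hq : Pg n q) : Pg n (fun a => p a → q a) := by
  exact Sg.of_iff (Sg.and hp (Pg.not hq)) fun a => by tauto

theorem Sg.imp {n : ℕ} {p q : α → Prop} (hp : Pg n p) (hq : Sg n q) : Sg n (fun a => p a → q a) := by
  exact Sg.of_iff (Sg.or (Pg.not hp) hq) fun a => by tauto

theorem Sg.ex {n : ℕ} {p : α × ℕ → Prop} (h : Sg (n + 1) p) : Sg (n + 1) (fun a => ∃ k, p (a, k)) := by
  obtain ⟨u, hu, hpu⟩ := Sg.cert h
  have h1 : Pg n (fun x : α × ℕ => u ((x.1, (Nat.unpair x.2).1), (Nat.unpair x.2).2)) :=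
    Pg.comp hu RH2_f3
  refine Sg.of_iff (Sg.ex_of_Pg h1) fun a => ?_
  constructor
  · rintro ⟨k, hk⟩
    obtain ⟨l, hl⟩ := (hpu _).1 hk
    exact ⟨Nat.pair k l, by simpa using hl⟩
  · rintro ⟨k, hk⟩
    exact ⟨_, (hpu _).2 ⟨_, hk⟩⟩

theorem Pg.all {n : ℕ} {p : α × ℕ → Prop} (h : Pg (n + 1) p) : Pg (n + 1) (fun a => ∀ k, p (a, k)) := by
  exact Sg.of_iff (Sg.ex (Pg.not h)) fun a => not_forall

theorem Pg.all_of_Sg {n : ℕ} {q : α × ℕ → Prop} (h : Sg n q) : Pg (n + 1) (fun a => ∀ k, q (a, k)) := by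
  exact Sg.of_iff (Sg.ex_of_Pg (Sg.not h)) fun a => not_forall

/-- quantifiers over an arbitrary `Primcodable` type (`Encodable.decode` of the number `k`) -/
theorem Sg.ex' {n : ℕ} {p : α × β → Prop} (h : Sg (n + 1) p) : Sg (n + 1) (fun a => ∃ b, p (a, b)) := by
  rcases isEmpty_or_nonempty β with hβ | ⟨⟨b0⟩⟩
  · have h0 : ComputablePred (fun _ : α => False) :=
      ComputablePred.computable_iff.2 ⟨fun _ => false, Computable.const false, by simp⟩
    exact Sg.of_iff (Sg.of_computable h0) fun a => by simp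
  obtain ⟨u, hu, hpu⟩ := Sg.cert h
  have hdec : Primrec (fun x : α × ℕ => (Encodable.decode (Nat.unpair x.2).1 : Option β)) :=
    Primrec.decode.comp (Primrec.fst.comp (Primrec.unpair.comp Primrec.snd))
  have hf : Computable (fun x : α × ℕ =>
      ((x.1, (Encodable.decode (Nat.unpair x.2).1 : Option β).getD b0), (Nat.unpair x.2).2)) :=
    (Primrec.pair (Primrec.pair Primrec.fst
      (Primrec.option_getD.comp hdec (Primrec.const b0)))
      (Primrec.snd.comp (Primrec.unpair.comp Primrec.snd))).to_comp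
  have h1 : Pg n (fun x : α × ℕ =>
      u ((x.1, (Encodable.decode (Nat.unpair x.2).1 : Option β).getD b0), (Nat.unpair x.2).2)) :=
    Pg.comp hu hf
  have h2 : ComputablePred (fun x : α × ℕ =>
      (Encodable.decode (Nat.unpair x.2).1 : Option β).isSome = true) :=
    ComputablePred.computable_iff.2
      ⟨fun x => (Encodable.decode (Nat.unpair x.2).1 : Option β).isSome,
        (Primrec.option_isSome.comp hdec).to_comp, rfl⟩
  refine Sg.of_iff (Sg.ex_of_Pg (Pg.and (Pg.of_computable h2) h1)) fun a => ?_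
  constructor
  · rintro ⟨b, hb⟩
    obtain ⟨l, hl⟩ := (hpu _).1 hb
    refine ⟨Nat.pair (Encodable.encode b) l, ?_, ?_⟩
    · simp
    · simpa using hl
  · rintro ⟨k, _, hk⟩
    exact ⟨_, (hpu _).2 ⟨_, hk⟩⟩

end

end Pool.Agent.LIN
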