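import Pool.Agent.LIN.RH2

/-! # [LIN-RH3] The arithmetical hierarchy: bounded quantifiers

`Sg.bq`: simultaneous induction on `n` for both bounded quantifiers, for all types.  `n = 0`: the predicate `∀ k < f a, p (a, k)` is computable
(`Nat.rec` on the bound, or `List.all` over `List.range`, or least counterexample by `Nat.rfind`-free primitive recursion `Computable.nat_rec`).
Step: `p (a, k) ↔ ∃ l, u ((a, k), l)` with `Pg n u`.
`∃ k < f a, ∃ l, u ..`: matrix `fun x => ∃ k < f x.1, u ((x.1, k), x.2)` (`Pg n` by the bounded `∀` for `¬ u`).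
`∀ k < f a, ∃ l, u ..`: iff there is a list of witnesses: `∃ L : ℕ, ∀ k < f a, u ((a, k), (Denumerable.ofNat (List ℕ) L).getD k 0)`. -/

namespace Pool.Agent.LIN

section
variable {α : Type} [Primcodable α]

/-- the bounded universal quantifier of a computable predicate -/
theorem rh3_ball {p : α × ℕ → Prop} {f : α → ℕ} (h : ComputablePred p) (hf : Computable f) :
    ComputablePred (fun a => ∀ k < f a, p (a, k)) := by
  obtain ⟨g, hg, rfl⟩ := ComputablePred.computable_iff.1 h
  rw [ComputablePred.computable_iff]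
  have h1 : Computable₂ (fun (a : α) (x : ℕ × Bool) => x.2 && g (a, x.1)) := by
    have h2 : Computable₂ Bool.and := Primrec.and.to_comp
    exact Computable₂.comp h2 (Computable.snd.comp Computable.snd)
      (hg.comp (Computable.fst.pair (Computable.fst.comp Computable.snd)))
  refine ⟨fun a => Nat.rec true (fun k b => b && g (a, k)) (f a), ?_, ?_⟩
  · exact Computable.nat_rec hf (Computable.const true) h1
  · funext a
    have h3 : ∀ N : ℕ, ((Nat.rec true (fun k b => b && g (a, k)) N : Bool) = true) ↔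
        ∀ k < N, g (a, k) = true := by
      intro N
      induction N with
      | zero => exact ⟨fun _ k hk => absurd hk (Nat.not_lt_zero k), fun _ => rfl⟩
      | succ N ih =>
        show ((Nat.rec true (fun k b => b && g (a, k)) N : Bool) && g (a, N)) = true ↔ _
        rw [Bool.and_eq_true, ih]
        constructor
        · rintro ⟨h4, h5⟩ k hk
          rcases Nat.lt_succ_iff_lt_or_eq.1 hk with h6 | h6
          · exact h4 k h6
          · rw [h6]
            exact h5
        · intro h4
          exact ⟨fun k hk => h4 k (Nat.lt_succ_of_lt hk), h4 N (Nat.lt_succ_self N)⟩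
    exact propext (h3 (f a)).symm

/-- decoding of a list of witnesses -/
theorem rh3_getD : Computable (fun y : (α × ℕ) × ℕ =>
    (((y.1.1, y.2), (Denumerable.ofNat (List ℕ) y.1.2).getD y.2 0) : (α × ℕ) × ℕ)) := by
  have h1 : Computable (fun y : (α × ℕ) × ℕ => (Denumerable.ofNat (List ℕ) y.1.2).getD y.2 0) := by
    have h2 : Computable₂ (fun (l : List ℕ) (k : ℕ) => l.getD k 0) := (Primrec.list_getD 0).to_comp
    exact Computable₂.comp (f := fun (l : List ℕ) (k : ℕ) => l.getD k 0) h2
      ((Computable.ofNat (List ℕ)).comp (Computable.snd.comp Computable.fst)) Computable.snd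
  exact ((Computable.fst.comp Computable.fst).pair Computable.snd).pair h1

theorem Sg.bq (n : ℕ) : ∀ {α : Type} [Primcodable α] {p : α × ℕ → Prop} {f : α → ℕ}, Sg n p → Computable f →
    Sg n (fun a => ∀ k < f a, p (a, k)) ∧ Sg n (fun a => ∃ k, k < f a ∧ p (a, k)) := by
  induction n with
  | zero =>
    intro α _ p f hp hf
    have hp' : ComputablePred p := hp
    refine ⟨rh3_ball hp' hf, ?_⟩
    have h1 : ComputablePred (fun a => ¬ ∀ k < f a, ¬ p (a, k)) :=
      (rh3_ball (p := fun x => ¬ p x) hp'.not hf).not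
    refine Sg.of_iff (n := 0) h1 fun a => ?_
    constructor
    · rintro ⟨k, hk, h⟩ h2
      exact h2 k hk h
    · intro h2
      by_contra h3
      exact h2 fun k hk h4 => h3 ⟨k, hk, h4⟩
  | succ n ih =>
    intro α _ p f hp hf
    obtain ⟨u, hu, hpu⟩ := Sg.cert hp
    constructor
    · have h1 : Sg n (fun x : α × ℕ => ∃ k, k < f x.1 ∧
          ¬ u ((x.1, k), (Denumerable.ofNat (List ℕ) x.2).getD k 0)) :=
        (ih (p := fun y : (α × ℕ) × ℕ => ¬ u ((y.1.1, y.2), (Denumerable.ofNat (List ℕ) y.1.2).getD y.2 0))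
          (f := fun x : α × ℕ => f x.1) (Sg.comp (Pg.not hu) rh3_getD) (hf.comp Computable.fst)).2
      have h2 : Pg n (fun x : α × ℕ => ∀ k < f x.1,
          u ((x.1, k), (Denumerable.ofNat (List ℕ) x.2).getD k 0)) := by
        refine Sg.of_iff (p := fun x : α × ℕ => ∃ k, k < f x.1 ∧
          ¬ u ((x.1, k), (Denumerable.ofNat (List ℕ) x.2).getD k 0)) h1 fun x => ?_
        constructor
        · intro h3
          by_contra h4
          exact h3 fun k hk => by
            by_contra h5
            exact h4 ⟨k, hk, h5⟩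
        · rintro ⟨k, hk, h3⟩ h4
          exact h3 (h4 k hk)
      refine Sg.of_iff (Sg.ex_of_Pg h2) fun a => ?_
      constructor
      · intro h3
        have h4 : ∀ k : ℕ, ∃ l : ℕ, k < f a → u ((a, k), l) := by
          intro k
          by_cases hk : k < f a
          · obtain ⟨l, hl⟩ := (hpu (a, k)).1 (h3 k hk)
            exact ⟨l, fun _ => hl⟩
          · exact ⟨0, fun h => absurd h hk⟩
        choose w hw using h4
        refine ⟨Encodable.encode ((List.range (f a)).map w), fun k hk => ?_⟩
        have h5 : (Denumerable.ofNat (List ℕ) (Encodable.encode ((List.range (f a)).map w))).getD k 0 = w k := by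
          rw [Denumerable.ofNat_encode, List.getD_eq_getElem?_getD, List.getElem?_map,
            List.getElem?_range hk]
          rfl
        show u ((a, k), _)
        rw [h5]
        exact hw k hk
      · rintro ⟨L, hL⟩ k hk
        exact (hpu (a, k)).2 ⟨_, hL k hk⟩
    · have h1 : Sg n (fun x : α × ℕ => ∀ k < f x.1, ¬ u ((x.1, k), x.2)) :=
        (ih (p := fun y : (α × ℕ) × ℕ => ¬ u ((y.1.1, y.2), y.1.2))
          (f := fun x : α × ℕ => f x.1) (Sg.comp (Pg.not hu) (f := fun y : (α × ℕ) × ℕ =>
            (((y.1.1, y.2), y.1.2) : (α × ℕ) × ℕ))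
            (((Computable.fst.comp Computable.fst).pair Computable.snd).pair
              (Computable.snd.comp Computable.fst))) (hf.comp Computable.fst)).1
      have h2 : Pg n (fun x : α × ℕ => ∃ k, k < f x.1 ∧ u ((x.1, k), x.2)) := by
        refine Sg.of_iff (p := fun x : α × ℕ => ∀ k < f x.1, ¬ u ((x.1, k), x.2)) h1 fun x => ?_
        constructor
        · intro h3 k hk h4
          exact h3 ⟨k, hk, h4⟩
        · rintro h3 ⟨k, hk, h4⟩
          exact h3 k hk h4
      refine Sg.of_iff (Sg.ex_of_Pg h2) fun a => ?_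
      constructor
      · rintro ⟨k, hk, h3⟩
        obtain ⟨l, hl⟩ := (hpu (a, k)).1 h3
        exact ⟨l, k, hk, hl⟩
      · rintro ⟨l, k, hk, h3⟩
        exact ⟨k, hk, (hpu (a, k)).2 ⟨l, h3⟩⟩

theorem Sg.ball {n : ℕ} {p : α × ℕ → Prop} {f : α → ℕ} (h : Sg n p) (hf : Computable f) :
    Sg n (fun a => ∀ k < f a, p (a, k)) := (Sg.bq n h hf).1

theorem Sg.bex {n : ℕ} {p : α × ℕ → Prop} {f : α → ℕ} (h : Sg n p) (hf : Computable f) :
    Sg n (fun a => ∃ k, k < f a ∧ p (a, k)) := (Sg.bq n h hf).2

theorem Pg.ball {n : ℕ} {p : α × ℕ → Prop} {f : α → ℕ} (h : Pg n p) (hf : Computable f) :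
    Pg n (fun a => ∀ k < f a, p (a, k)) := by
  refine Sg.of_iff (p := fun a => ∃ k, k < f a ∧ ¬ p (a, k)) (Sg.bex (p := fun x => ¬ p x) h hf)
    fun a => ?_
  constructor
  · intro h3
    by_contra h4
    exact h3 fun k hk => by
      by_contra h5
      exact h4 ⟨k, hk, h5⟩
  · rintro ⟨k, hk, h3⟩ h4
    exact h3 (h4 k hk)

theorem Pg.bex {n : ℕ} {p : α × ℕ → Prop} {f : α → ℕ} (h : Pg n p) (hf : Computable f) :
    Pg n (fun a => ∃ k, k < f a ∧ p (a, k)) := by
  refine Sg.of_iff (p := fun a => ∀ k < f a, ¬ p (a, k)) (Sg.ball (p := fun x => ¬ p x) h hf)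
    fun a => ?_
  constructor
  · intro h3 k hk h4
    exact h3 ⟨k, hk, h4⟩
  · rintro h3 ⟨k, hk, h4⟩
    exact h3 k hk h4

end

end Pool.Agent.LIN
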