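import Pool.Agent.LIN.RH3

/-! # [LIN-RH4] Unique certificates

Induction on `n` (all types).
`n = 0`: `p a ↔ ∃ k, q (a, k)` with `q` computable (`Pg 0 q` means `¬ q` computable); new certificate: the least `k`,
`q' (a, k) := q (a, k) ∧ ∀ k' < k, ¬ q (a, k')` (`Pg.ball`, `Pg 0` = computable).
Step: `p a ↔ ∃ k, q (a, k)` with `Pg (n+1) q`; apply the induction hypothesis to the `Sg (n+1)` predicate `¬ q (a, k)` of `(a, k)`:
`¬ q (a, k) ↔ ∃ y, s ((a, k), y)`, `Pg n s`, `y` unique.  New certificate: `w : ℕ`, `Denumerable.ofNat (List ℕ) w = ys`: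
`q (a, ys.length) ∧ ∀ i < ys.length, s ((a, i), ys.getD i 0)`.  It is `Pg (n+1)` (`Pg.and`, `Pg.ball`, `Sg.toPg`-type inclusions, `Pg.comp`).
Existence: the least `k` with `q (a, k)` and the list of the unique witnesses.  Uniqueness: if `ys`, `ys'` are certificates the lengths are equal
(if `ys.length < ys'.length` then `s ((a, ys.length), _)`, so `¬ q (a, ys.length)`), and the entries are equal by uniqueness. -/

namespace Pool.Agent.LIN

section
variable {α : Type} [Primcodable α]

theorem Sg.ucert (n : ℕ) : ∀ {α : Type} [Primcodable α] {p : α → Prop}, Sg (n + 1) p →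
    ∃ q : α × ℕ → Prop, Pg n q ∧ (∀ a, p a ↔ ∃ k, q (a, k)) ∧ ∀ a k k', q (a, k) → q (a, k') → k = k' := by
  classical
  induction n with
  | zero =>
    intro α _ p hp
    obtain ⟨q, hq, h⟩ := hp.cert
    have h0 : Pg 0 (fun x : α × ℕ => ¬ q x) := ComputablePred.not hq
    refine ⟨fun x => q x ∧ ∀ k' < x.2, ¬ q (x.1, k'), ?_, ?_, ?_⟩
    · refine Pg.and hq ?_
      have h1 : Pg 0 (fun y : (α × ℕ) × ℕ => ¬ q (y.1.1, y.2)) :=
        Pg.comp h0 (f := fun y : (α × ℕ) × ℕ => (y.1.1, y.2))
          ((Computable.fst.comp Computable.fst).pair Computable.snd)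
      exact Pg.ball (p := fun y : (α × ℕ) × ℕ => ¬ q (y.1.1, y.2)) h1 Computable.snd
    · intro a
      rw [h a]
      constructor
      · intro hk
        exact ⟨Nat.find hk, Nat.find_spec hk, fun k' hk' => Nat.find_min hk hk'⟩
      · rintro ⟨k, hk, -⟩
        exact ⟨k, hk⟩
    · rintro a k k' ⟨h1, h2⟩ ⟨h3, h4⟩
      rcases lt_trichotomy k k' with h5 | h5 | h5
      · exact absurd h1 (h4 k h5)
      · exact h5
      · exact absurd h3 (h2 k' h5)
  | succ n ih =>
    intro α _ p hp
    obtain ⟨q, hq, h⟩ := hp.cert
    obtain ⟨s, hs, h1, h2⟩ := ih (p := fun x : α × ℕ => ¬ q x) hq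
    have hL : Computable (fun w : ℕ => Denumerable.ofNat (List ℕ) w) := (Primrec.ofNat (List ℕ)).to_comp
    refine ⟨fun x => q (x.1, (Denumerable.ofNat (List ℕ) x.2).length) ∧
      ∀ i < (Denumerable.ofNat (List ℕ) x.2).length,
        s ((x.1, i), (Denumerable.ofNat (List ℕ) x.2).getD i 0), ?_, ?_, ?_⟩
    · have hlen : Computable (fun x : α × ℕ => (Denumerable.ofNat (List ℕ) x.2).length) :=
        (Primrec.list_length.to_comp).comp (hL.comp Computable.snd)
      refine Pg.and (Pg.comp hq (f := fun x : α × ℕ => (x.1, (Denumerable.ofNat (List ℕ) x.2).length))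
        (Computable.fst.pair hlen)) ?_
      refine Pg.ball (p := fun y : (α × ℕ) × ℕ =>
        s ((y.1.1, y.2), (Denumerable.ofNat (List ℕ) y.1.2).getD y.2 0)) ?_ hlen
      refine Pg.comp hs.succ (f := fun y : (α × ℕ) × ℕ =>
        ((y.1.1, y.2), (Denumerable.ofNat (List ℕ) y.1.2).getD y.2 0)) ?_
      refine ((Computable.fst.comp Computable.fst).pair Computable.snd).pair ?_
      exact ((Primrec.list_getD 0).to_comp).comp (hL.comp (Computable.snd.comp Computable.fst)) Computable.snd
    · intro a
      rw [h a]
      constructor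
      · intro hk
        have hk1 : q (a, Nat.find hk) := Nat.find_spec hk
        have hk2 : ∀ i, ∃ y, i < Nat.find hk → s ((a, i), y) := by
          intro i
          by_cases hi : i < Nat.find hk
          · obtain ⟨y, hy⟩ := (h1 (a, i)).1 (Nat.find_min hk hi)
            exact ⟨y, fun _ => hy⟩
          · exact ⟨0, fun h' => absurd h' hi⟩
        choose g hg using hk2
        refine ⟨Encodable.encode ((List.range (Nat.find hk)).map g), ?_, ?_⟩
        · show q (a, (Denumerable.ofNat (List ℕ) (Encodable.encode ((List.range (Nat.find hk)).map g))).length)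
          rw [Denumerable.ofNat_encode, List.length_map, List.length_range]
          exact hk1
        · intro i hi
          have hi' : i < Nat.find hk := by
            change i < (Denumerable.ofNat (List ℕ) (Encodable.encode ((List.range (Nat.find hk)).map g))).length at hi
            rwa [Denumerable.ofNat_encode, List.length_map, List.length_range] at hi
          show s ((a, i), (Denumerable.ofNat (List ℕ) (Encodable.encode ((List.range (Nat.find hk)).map g))).getD i 0)
          rw [Denumerable.ofNat_encode, List.getD_eq_getElem _ _ (by rwa [List.length_map, List.length_range]),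
            List.getElem_map, List.getElem_range]
          exact hg i hi'
      · rintro ⟨w, hw, -⟩
        exact ⟨_, hw⟩
    · intro a w w' hw hw'
      have key : ∀ u v : List ℕ, q (a, u.length) → (∀ i < v.length, s ((a, i), v.getD i 0)) →
          ¬ u.length < v.length := by
        intro u v hu hv hlt
        exact (h1 (a, u.length)).2 ⟨_, hv _ hlt⟩ hu
      have hlen : (Denumerable.ofNat (List ℕ) w).length = (Denumerable.ofNat (List ℕ) w').length :=
        le_antisymm (not_lt.1 (key _ _ hw'.1 hw.2)) (not_lt.1 (key _ _ hw.1 hw'.2))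
      have heq : Denumerable.ofNat (List ℕ) w = Denumerable.ofNat (List ℕ) w' := by
        apply List.ext_getElem hlen
        intro i hi hi'
        have e1 := hw.2 i hi
        have e2 := hw'.2 i hi'
        change s ((a, i), (Denumerable.ofNat (List ℕ) w).getD i 0) at e1
        change s ((a, i), (Denumerable.ofNat (List ℕ) w').getD i 0) at e2
        rw [List.getD_eq_getElem _ _ hi] at e1
        rw [List.getD_eq_getElem _ _ hi'] at e2
        exact h2 _ _ _ e1 e2
      calc w = Encodable.encode (Denumerable.ofNat (List ℕ) w) := (Denumerable.encode_ofNat w).symm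
        _ = Encodable.encode (Denumerable.ofNat (List ℕ) w') := by rw [heq]
        _ = w' := Denumerable.encode_ofNat w'

end

end Pool.Agent.LIN
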