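import Pool.Agent.LIN.RH4

/-! # [LIN-RH5] `Pi_{n+2}` predicates as 'infinitely many', approximation of `Pi_1` predicates, reduction

`Pg.inf`: `U a ↔ ∀ k, r (a, k)` with `Sg (n+1) r` (`Pg.cert`), `r (a, k) ↔ ∃ y, s ((a, k), y)`, `Pg n s`, `y` unique (`Sg.ucert`).
`S (a, w)`: `∀ i < ys.length, s ((a, i), ys.getD i 0)` with `ys = Denumerable.ofNat (List ℕ) w`.  If `U a` there is such a `ys` of every length.  If `¬ r (a, k)` then
every such `ys` has length `≤ k` and is determined by its length, so there are at most `k + 1` of them.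

`Pg.approx`: `P a ↔ ∀ k, q (a, k)`, `q` computable; `f (a, s) = decide (∀ k ≤ s, q (a, k))`.

`Sg.reduction`: certificates `u`, `w` (both `Pg n`); `p' a := ∃ k, u (a, k) ∧ ∀ k' < k, ¬ w (a, k')`, `q' a := ∃ k, w (a, k) ∧ ∀ k' ≤ k, ¬ u (a, k')`
(`Pg n`, and `¬ w` is `Sg n ⊆ Pg (n+1)`; so `p'` is `∃ k` of a `Pg n` and a `Sg n` statement; both are `Sg (n+1)`, use `Sg.ex`, `Sg.and`, `Sg.ball`). -/

namespace Pool.Agent.LIN

section
variable {α : Type} [Primcodable α]

theorem Pg.inf {n : ℕ} {U : α → Prop} (h : Pg (n + 2) U) :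
    ∃ S : α × ℕ → Prop, Pg n S ∧ ∀ a, U a ↔ {w : ℕ | S (a, w)}.Infinite := by
  obtain ⟨r, hr, h⟩ := h.cert
  obtain ⟨s, hs, h1, h2⟩ := Sg.ucert n hr
  have hL : Computable (fun w : ℕ => Denumerable.ofNat (List ℕ) w) := (Primrec.ofNat (List ℕ)).to_comp
  refine ⟨fun x => ∀ i < (Denumerable.ofNat (List ℕ) x.2).length,
        s ((x.1, i), (Denumerable.ofNat (List ℕ) x.2).getD i 0), ?_, ?_⟩
  · have hlen : Computable (fun x : α × ℕ => (Denumerable.ofNat (List ℕ) x.2).length) :=
      (Primrec.list_length.to_comp).comp (hL.comp Computable.snd)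
    refine Pg.ball (p := fun y : (α × ℕ) × ℕ =>
      s ((y.1.1, y.2), (Denumerable.ofNat (List ℕ) y.1.2).getD y.2 0)) ?_ hlen
    refine Pg.comp hs (f := fun y : (α × ℕ) × ℕ =>
      ((y.1.1, y.2), (Denumerable.ofNat (List ℕ) y.1.2).getD y.2 0)) ?_
    refine ((Computable.fst.comp Computable.fst).pair Computable.snd).pair ?_
    exact ((Primrec.list_getD 0).to_comp).comp (hL.comp (Computable.snd.comp Computable.fst)) Computable.snd
  · intro a
    constructor
    · intro hU
      have h3 : ∀ i, ∃ y, s ((a, i), y) := fun i => (h1 (a, i)).1 ((h a).1 hU i)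
      choose g hg using h3
      refine Set.infinite_of_injective_forall_mem (f := fun k => Encodable.encode ((List.range k).map g)) ?_ ?_
      · intro k k' hk
        have h4 := Encodable.encode_injective hk
        have h5 := congrArg List.length h4
        rwa [List.length_map, List.length_range, List.length_map, List.length_range] at h5
      · intro k i hi
        have hi' : i < k := by
          change i < (Denumerable.ofNat (List ℕ) (Encodable.encode ((List.range k).map g))).length at hi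
          rwa [Denumerable.ofNat_encode, List.length_map, List.length_range] at hi
        show s ((a, i), (Denumerable.ofNat (List ℕ) (Encodable.encode ((List.range k).map g))).getD i 0)
        rw [Denumerable.ofNat_encode, List.getD_eq_getElem _ _ (by rwa [List.length_map, List.length_range]),
          List.getElem_map, List.getElem_range]
        exact hg i
    · intro hinf
      by_contra hU
      apply hinf
      rw [h a] at hU
      push Not at hU
      obtain ⟨k, hk⟩ := hU
      refine Set.Finite.of_finite_image (f := fun w => (Denumerable.ofNat (List ℕ) w).length) ?_ ?_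
      · refine (Set.finite_Iic k).subset ?_
        rintro _ ⟨w, hw, rfl⟩
        by_contra hlt
        have hlt' : k < (Denumerable.ofNat (List ℕ) w).length := not_le.1 hlt
        exact hk ((h1 (a, k)).2 ⟨_, hw k hlt'⟩)
      · intro w hw w' hw' hlen
        have heq : Denumerable.ofNat (List ℕ) w = Denumerable.ofNat (List ℕ) w' := by
          apply List.ext_getElem hlen
          intro i hi hi'
          have e1 := hw i hi
          have e2 := hw' i hi'
          change s ((a, i), (Denumerable.ofNat (List ℕ) w).getD i 0) at e1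
          change s ((a, i), (Denumerable.ofNat (List ℕ) w').getD i 0) at e2
          rw [List.getD_eq_getElem _ _ hi] at e1
          rw [List.getD_eq_getElem _ _ hi'] at e2
          exact h2 _ _ _ e1 e2
        calc w = Encodable.encode (Denumerable.ofNat (List ℕ) w) := (Denumerable.encode_ofNat w).symm
          _ = Encodable.encode (Denumerable.ofNat (List ℕ) w') := by rw [heq]
          _ = w' := Denumerable.encode_ofNat w'

theorem Pg.approx {P : α → Prop} (h : Pg 1 P) :
    ∃ f : α × ℕ → Bool, Computable f ∧ (∀ a, P a ↔ ∀ s, f (a, s) = true) ∧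
      ∀ a s s', s ≤ s' → f (a, s') = true → f (a, s) = true := by
  obtain ⟨q, hq, h⟩ := h.cert
  have h1 : Sg 0 (fun x : α × ℕ => ∀ k < x.2 + 1, q (x.1, k)) :=
    Sg.ball (p := fun y : (α × ℕ) × ℕ => q (y.1.1, y.2)) (f := fun x : α × ℕ => x.2 + 1)
      (Sg.comp hq (f := fun y : (α × ℕ) × ℕ => (y.1.1, y.2))
        ((Computable.fst.comp Computable.fst).pair Computable.snd))
      (Computable.succ.comp Computable.snd)
  obtain ⟨hd, hc⟩ := h1
  refine ⟨fun x => @decide (∀ k < x.2 + 1, q (x.1, k)) (hd x), hc, ?_, ?_⟩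
  · intro a
    rw [h a]
    constructor
    · intro h2 s
      exact decide_eq_true (fun k _ => h2 k)
    · intro h2 k
      exact of_decide_eq_true (h2 k) k (Nat.lt_succ_self k)
  · intro a s s' hss h2
    exact decide_eq_true (fun k hk => of_decide_eq_true h2 k (by omega))

theorem Sg.reduction {n : ℕ} {p q : α → Prop} (hp : Sg (n + 1) p) (hq : Sg (n + 1) q) :
    ∃ p' q' : α → Prop, Sg (n + 1) p' ∧ Sg (n + 1) q' ∧ (∀ a, p' a → p a) ∧ (∀ a, q' a → q a) ∧
      (∀ a, p a ∨ q a → p' a ∨ q' a) ∧ ∀ a, ¬ (p' a ∧ q' a) := by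
  classical
  obtain ⟨u, hu, h1⟩ := hp.cert
  obtain ⟨w, hw, h2⟩ := hq.cert
  refine ⟨fun a => ∃ k, (u (a, k) ∧ ∀ k' < k, ¬ w (a, k')), fun a => ∃ k, (w (a, k) ∧ ∀ k' < k + 1, ¬ u (a, k')),
    ?_, ?_, ?_, ?_, ?_, ?_⟩
  · refine Sg.ex (p := fun x : α × ℕ => u x ∧ ∀ k' < x.2, ¬ w (x.1, k')) ?_
    refine Sg.and hu.toSg (Sg.succ ?_)
    exact Sg.ball (p := fun y : (α × ℕ) × ℕ => ¬ w (y.1.1, y.2)) (f := fun x : α × ℕ => x.2)
      (Sg.comp hw.not (f := fun y : (α × ℕ) × ℕ => (y.1.1, y.2))
        ((Computable.fst.comp Computable.fst).pair Computable.snd)) Computable.snd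
  · refine Sg.ex (p := fun x : α × ℕ => w x ∧ ∀ k' < x.2 + 1, ¬ u (x.1, k')) ?_
    refine Sg.and hw.toSg (Sg.succ ?_)
    exact Sg.ball (p := fun y : (α × ℕ) × ℕ => ¬ u (y.1.1, y.2)) (f := fun x : α × ℕ => x.2 + 1)
      (Sg.comp hu.not (f := fun y : (α × ℕ) × ℕ => (y.1.1, y.2))
        ((Computable.fst.comp Computable.fst).pair Computable.snd)) (Computable.succ.comp Computable.snd)
  · rintro a ⟨k, hk, -⟩
    exact (h1 a).2 ⟨k, hk⟩
  · rintro a ⟨k, hk, -⟩
    exact (h2 a).2 ⟨k, hk⟩
  · intro a hpq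
    have hex : ∃ k, u (a, k) ∨ w (a, k) := by
      rcases hpq with h | h
      · obtain ⟨k, hk⟩ := (h1 a).1 h
        exact ⟨k, Or.inl hk⟩
      · obtain ⟨k, hk⟩ := (h2 a).1 h
        exact ⟨k, Or.inr hk⟩
    have hmin : ∀ k' < Nat.find hex, ¬ (u (a, k') ∨ w (a, k')) := fun k' hk' => Nat.find_min hex hk'
    by_cases hu' : u (a, Nat.find hex)
    · exact Or.inl ⟨Nat.find hex, hu', fun k' hk' hw' => hmin k' hk' (Or.inr hw')⟩
    · refine Or.inr ⟨Nat.find hex, (Nat.find_spec hex).resolve_left hu', fun k' hk' hu'' => ?_⟩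
      rcases Nat.lt_succ_iff_lt_or_eq.1 hk' with h3 | h3
      · exact hmin k' h3 (Or.inl hu'')
      · rw [h3] at hu''
        exact hu' hu''
  · rintro a ⟨⟨k, hk, hk'⟩, ⟨l, hl, hl'⟩⟩
    by_cases hlk : l < k
    · exact hk' l hlk hl
    · exact hl' k (by omega) hk

end

end Pool.Agent.LIN
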