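import Pool.Agent.LIN.RH5

/-! # [LIN-RH6] Recursively enumerable predicates and the evaluation of codes in the hierarchy

`REPred p` gives a partial recursive function with domain `p`; with a code `c` (`Nat.Partrec.Code.exists_code`, encode the argument): `p a ↔ ∃ k, evaln k c (encode a)` is
defined, and `evaln` is primitive recursive (`Nat.Partrec.Code.primrec_evaln`).  `ev e x v` : the `e`-th partial recursive function has the value `v` at `x`. -/

namespace Pool.Agent.LIN

/-- the `e`-th partial recursive function takes the value `v` at `x` -/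
def ev (e x v : ℕ) : Prop := v ∈ Nat.Partrec.Code.eval (Denumerable.ofNat Nat.Partrec.Code e) x

theorem ev_unique {e x v v' : ℕ} (h : ev e x v) (h' : ev e x v') : v = v' := Part.mem_unique h h'

section
variable {α : Type} [Primcodable α]

theorem Sg.of_re {p : α → Prop} (h : REPred p) : Sg 1 p := by
  obtain ⟨c, hc⟩ := Nat.Partrec.Code.exists_code.1 h
  have hq : Computable (fun x : α × ℕ => (Nat.Partrec.Code.evaln x.2 c (Encodable.encode x.1)).isSome) := by
    have h1 : Primrec (fun x : α × ℕ => Nat.Partrec.Code.evaln x.2 c (Encodable.encode x.1)) :=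
      Nat.Partrec.Code.primrec_evaln.comp ((Primrec.snd.pair (Primrec.const c)).pair (Primrec.encode.comp Primrec.fst))
    exact (Primrec.option_isSome.comp h1).to_comp
  have hq' : ComputablePred (fun x : α × ℕ => (Nat.Partrec.Code.evaln x.2 c (Encodable.encode x.1)).isSome = true) :=
    ComputablePred.computable_iff.2 ⟨_, hq, rfl⟩
  refine ⟨fun x => (Nat.Partrec.Code.evaln x.2 c (Encodable.encode x.1)).isSome = true, hq'.not, ?_⟩
  intro a
  have h2 : Nat.Partrec.Code.eval c (Encodable.encode a) =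
      (Part.assert (p a) fun _ => Part.some ()).map Encodable.encode := by
    rw [hc]
    simp only [Encodable.encodek, Part.coe_some, Part.bind_some]
  constructor
  · intro hp
    have h3 : Encodable.encode () ∈ Nat.Partrec.Code.eval c (Encodable.encode a) := by
      rw [h2]
      exact Part.mem_map _ (Part.mem_assert hp (Part.mem_some ()))
    obtain ⟨k, hk⟩ := Nat.Partrec.Code.evaln_complete.1 h3
    exact ⟨k, by
      show (Nat.Partrec.Code.evaln k c (Encodable.encode a)).isSome = true
      rw [Option.mem_def.1 hk]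
      rfl⟩
  · rintro ⟨k, hk⟩
    obtain ⟨y, hy⟩ := Option.isSome_iff_exists.1 hk
    have h3 : y ∈ Nat.Partrec.Code.eval c (Encodable.encode a) := Nat.Partrec.Code.evaln_complete.2 ⟨k, hy⟩
    rw [h2] at h3
    obtain ⟨z, hz, -⟩ := (Part.mem_map_iff _).1 h3
    exact (Part.mem_assert_iff.1 hz).1

theorem ev_Sg : Sg 1 (fun x : (ℕ × ℕ) × ℕ => ev x.1.1 x.1.2 x.2) := by
  have h1 : Primrec (fun x : ((ℕ × ℕ) × ℕ) × ℕ =>
      Nat.Partrec.Code.evaln x.2 (Denumerable.ofNat Nat.Partrec.Code x.1.1.1) x.1.1.2) :=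
    Nat.Partrec.Code.primrec_evaln.comp ((Primrec.snd.pair ((Primrec.ofNat Nat.Partrec.Code).comp
      (Primrec.fst.comp (Primrec.fst.comp Primrec.fst)))).pair (Primrec.snd.comp (Primrec.fst.comp Primrec.fst)))
  have h2 : Primrec (fun x : ((ℕ × ℕ) × ℕ) × ℕ => (some x.1.2 : Option ℕ)) :=
    Primrec.option_some.comp (Primrec.snd.comp Primrec.fst)
  have h3 : PrimrecPred (fun x : ((ℕ × ℕ) × ℕ) × ℕ =>
      Nat.Partrec.Code.evaln x.2 (Denumerable.ofNat Nat.Partrec.Code x.1.1.1) x.1.1.2 = some x.1.2) :=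
    Primrec.eq.comp h1 h2
  have h4 : ComputablePred (fun x : ((ℕ × ℕ) × ℕ) × ℕ =>
      Nat.Partrec.Code.evaln x.2 (Denumerable.ofNat Nat.Partrec.Code x.1.1.1) x.1.1.2 = some x.1.2) := by
    obtain ⟨hd, hp⟩ := h3
    exact ⟨hd, hp.to_comp⟩
  refine ⟨_, h4.not, ?_⟩
  intro a
  exact Nat.Partrec.Code.evaln_complete

/-- every total computable function is the `e`-th partial recursive function for some `e` -/
theorem exists_ev {f : ℕ → ℕ} (hf : Computable f) : ∃ e, ∀ x, ev e x (f x) := by
  obtain ⟨c, hc⟩ := Nat.Partrec.Code.exists_code.1 (Partrec.nat_iff.1 hf)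
  refine ⟨Encodable.encode c, fun x => ?_⟩
  unfold ev
  rw [Denumerable.ofNat_encode, hc]
  exact Part.mem_some _

/-- if all values are defined then `x ↦` the value is computable -/
theorem computable_of_ev {e : ℕ} {f : ℕ → ℕ} (h : ∀ x, ev e x (f x)) : Computable f := by
  have h1 : Nat.Partrec (Nat.Partrec.Code.eval (Denumerable.ofNat Nat.Partrec.Code e)) :=
    Nat.Partrec.Code.exists_code.2 ⟨_, rfl⟩
  have h2 : Nat.Partrec.Code.eval (Denumerable.ofNat Nat.Partrec.Code e) = fun x => Part.some (f x) :=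
    funext fun x => Part.eq_some_iff.2 (h x)
  rw [h2] at h1
  exact Partrec.nat_iff.2 h1

end

end Pool.Agent.LIN
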