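import Pool.Agent.LIN.RD3
import Pool.Agent.LIN.RB3

/-! # [LIN-RHanf] `HanfStatement` from `MachineStatement`, `TowerStatement`, `SatStatement` -/

namespace Pool.Agent.LIN

open FirstOrder

section
variable {α : Type} [Primcodable α]

theorem re_of_Sg {p : α → Prop} (h : Sg 1 p) : REPred p := by
  obtain ⟨q, hq, h⟩ := h.cert
  have hq' : ComputablePred q := Sg.of_iff (n := 0) (ComputablePred.not hq) (fun _ => not_not.symm)
  obtain ⟨f, hf, rfl⟩ := ComputablePred.computable_iff.1 hq'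
  have h0 : Partrec₂ (fun (a : α) (k : ℕ) => (Part.some (f (a, k)) : Part Bool)) := hf
  have h1 : Partrec (fun a : α => Nat.rfind (fun k => (Part.some (f (a, k)) : Part Bool))) :=
    Partrec.rfind h0
  refine h1.dom_re.of_eq (fun a => ?_)
  rw [h a]
  refine Iff.trans (Nat.rfind_dom (p := fun k => (Part.some (f (a, k)) : Part Bool))) ?_
  constructor
  · rintro ⟨k, hk, -⟩
    exact ⟨k, (Part.mem_some_iff.1 hk).symm⟩
  · rintro ⟨k, hk⟩
    exact ⟨k, Part.mem_some_iff.2 (Eq.symm hk), fun _ => trivial⟩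

theorem computablePred_of_Sg {p : α → Prop} (h : Sg 1 p) (h' : Sg 1 (fun a => ¬ p a)) :
    ComputablePred p :=
  ComputablePred.computable_iff_re_compl_re'.2 ⟨re_of_Sg h, re_of_Sg h'⟩

theorem computable_of_graph {f : ℕ → ℕ} (h : ComputablePred (fun x : ℕ × ℕ => f x.1 = x.2)) :
    Computable f := by
  obtain ⟨g, hg, he⟩ := ComputablePred.computable_iff.1 h
  have hg' : ∀ n k, g (n, k) = true ↔ f n = k := fun n k => (iff_of_eq (congrFun he (n, k))).symm
  have h0 : Partrec₂ (fun (a : ℕ) (k : ℕ) => (Part.some (g (a, k)) : Part Bool)) := hg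
  have h1 : Partrec (fun n : ℕ => Nat.rfind (fun k => (Part.some (g (n, k)) : Part Bool))) :=
    Partrec.rfind h0
  refine h1.of_eq (fun n => ?_)
  refine Part.eq_some_iff.2 (Nat.mem_rfind.2 ⟨Part.mem_some_iff.2 ((hg' n _).2 rfl).symm, ?_⟩)
  intro k hk
  refine Part.mem_some_iff.2 ?_
  cases hb : g (n, k)
  · rfl
  · exact absurd ((hg' n k).1 hb) (by omega)

end

/-- compactness of the class -/
theorem uniform_of_local {R : List Bool → Prop} (P : Cls R → Prop)
    (h : ∀ X : Cls R, ∃ n, ∀ Y : Cls R, pre X.1 n = pre Y.1 n → (P X ↔ P Y)) :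
    ∃ n, ∀ X Y : Cls R, pre X.1 n = pre Y.1 n → (P X ↔ P Y) := by
  classical
  choose n hn using h
  let K : Set (ℕ → Bool) := {X | ∀ k, R (pre X k)}
  have hopen : ∀ (X : ℕ → Bool) (m : ℕ), IsOpen {Y : ℕ → Bool | pre Y m = pre X m} := by
    intro X m
    have h1 : {Y : ℕ → Bool | pre Y m = pre X m} = Set.pi (Set.Iio m) (fun i => {X i}) := by
      ext Y
      rw [Set.mem_ofPred_eq, pre_eq_iff]
      exact Iff.rfl
    rw [h1]
    exact isOpen_set_pi (Set.finite_Iio m) (fun _ _ => isOpen_discrete _)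
  have hK : IsClosed K := by
    have h1 : K = ⋂ k, {X : ℕ → Bool | R (pre X k)} := by
      ext X
      exact ⟨fun h1 => Set.mem_iInter.2 h1, fun h1 k => Set.mem_iInter.1 h1 k⟩
    rw [h1]
    refine isClosed_iInter (fun k => ⟨isOpen_iff_mem_nhds.2 (fun X hX => ?_)⟩)
    refine Filter.mem_of_superset ((hopen X k).mem_nhds rfl) (fun Y hY hR => hX ?_)
    have hY' : pre Y k = pre X k := hY
    have hR' : R (pre Y k) := hR
    rw [hY'] at hR'
    exact hR'
  let nn : (ℕ → Bool) → ℕ := fun X => if hX : X ∈ K then n ⟨X, hX⟩ else 0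
  have hnn : ∀ X : Cls R, nn X.1 = n X := fun X => dif_pos (show X.1 ∈ K from X.2)
  obtain ⟨t, ht, hcov⟩ := hK.isCompact.elim_nhds_subcover (fun X => {Y : ℕ → Bool | pre Y (nn X) = pre X (nn X)})
    (fun X _ => (hopen X _).mem_nhds rfl)
  refine ⟨t.sup nn, ?_⟩
  intro X Y hXY
  have h1 := hcov (show X.1 ∈ K from X.2)
  rw [Set.mem_iUnion₂] at h1
  obtain ⟨Z, hZt, hZ⟩ := h1
  have hZ' : pre X.1 (nn Z) = pre Z (nn Z) := hZ
  have hZK : Z ∈ K := ht Z hZt
  have hle : nn Z ≤ t.sup nn := Finset.le_sup hZt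
  have h2 : pre Y.1 (nn Z) = pre Z (nn Z) := by
    rw [← hZ', eq_comm]
    rw [pre_eq_iff] at hXY ⊢
    exact fun i hi => hXY i (lt_of_lt_of_le hi hle)
  have h3 : nn Z = n ⟨Z, hZK⟩ := hnn ⟨Z, hZK⟩
  rw [h3] at hZ' h2
  exact (hn ⟨Z, hZK⟩ X hZ'.symm).symm.trans (hn ⟨Z, hZK⟩ Y h2.symm)

section
variable {L : FirstOrder.Language.{0, 0}} {ι κ : Type} {Th : ι → L.Theory}

theorem df_and (hTh : ∀ X, IsTh (Th X)) (s : Finset κ) (A : κ → ι → Prop)
    (hA : ∀ k ∈ s, ∃ φ : L.Sentence, ∀ X, φ ∈ Th X ↔ A k X) :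
    ∃ φ : L.Sentence, ∀ X, φ ∈ Th X ↔ ∀ k ∈ s, A k X := by
  classical
  induction s using Finset.induction_on with
  | empty =>
    refine ⟨⊤, fun X => ?_⟩
    obtain ⟨M, _, _, h⟩ := hTh X
    rw [h]
    simp [FirstOrder.Language.completeTheory, FirstOrder.Language.Sentence.Realize,
      FirstOrder.Language.Formula.Realize]
  | insert k s hk ih =>
    obtain ⟨φ, hφ⟩ := ih (fun k' hk' => hA k' (Finset.mem_insert_of_mem hk'))
    obtain ⟨ψ, hψ⟩ := hA k (Finset.mem_insert_self k s)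
    refine ⟨ψ ⊓ φ, fun X => ?_⟩
    rw [(hTh X).mem_inf, hφ, hψ]
    constructor
    · rintro ⟨h1, h2⟩ k' hk'
      rcases Finset.mem_insert.1 hk' with rfl | h3
      · exact h1
      · exact h2 k' h3
    · intro h1
      exact ⟨h1 k (Finset.mem_insert_self k s), fun k' hk' => h1 k' (Finset.mem_insert_of_mem hk')⟩

theorem df_or (hTh : ∀ X, IsTh (Th X)) (s : Finset κ) (A : κ → ι → Prop)
    (hA : ∀ k ∈ s, ∃ φ : L.Sentence, ∀ X, φ ∈ Th X ↔ A k X) :
    ∃ φ : L.Sentence, ∀ X, φ ∈ Th X ↔ ∃ k ∈ s, A k X := by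
  obtain ⟨φ, hφ⟩ := df_and hTh s (fun k X => ¬ A k X) (fun k hk => by
    obtain ⟨ψ, hψ⟩ := hA k hk
    exact ⟨ψ.not, fun X => by rw [(hTh X).mem_not, hψ]⟩)
  refine ⟨φ.not, fun X => ?_⟩
  rw [(hTh X).mem_not, hφ]
  push Not
  exact Iff.rfl

end

theorem hanf_of_tower (hM : MachineStatement) (hT : TowerStatement) (hS : SatStatement) :
    HanfStatement := by
  classical
  intro L E hL R hR
  obtain ⟨m, c0, Φ, hrich, hc1, hc2, hcomp⟩ := hM R hR
  obtain ⟨a, Th', h1, h2, g, hg, hsent⟩ := hT L E hL m c0 hrich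
  obtain ⟨ca, hca⟩ := sent_surj E a
  have hTh : ∀ X : Cls R, IsTh (Th' (Φ X)) := fun X => (h1 _).1
  -- equal states imply equal points
  have hstate : ∀ X Y : Cls R, (∀ j, ((Φ X).1 j).1 = ((Φ Y).1 j).1) → X = Y := by
    intro X Y h
    apply Subtype.ext
    funext n
    obtain ⟨N, hN⟩ := hc2 (n + 1)
    have h3 := hN X Y (fun j _ => h j)
    rw [pre_eq_iff] at h3
    exact h3 n (Nat.lt_succ_self n)
  -- compactness of first order logic
  have hB : ∀ (X : Cls R) (φ : L.Sentence), φ ∈ Th' (Φ X) → ∃ J : ℕ, ∀ (M : Type) [L.Structure M] [Nonempty M],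
      (M ⊨ a) → (∀ j ≤ J, M ⊨ sent E (g (j, (((Φ X).1 j).1 : ℕ)))) → (M ⊨ φ) := by
    intro X φ hφ
    let T0 : L.Theory := {a} ∪ Set.range (fun j => sent E (g (j, (((Φ X).1 j).1 : ℕ))))
    have h3 : T0 ⊨ᵇ φ := by
      rw [FirstOrder.Language.Theory.models_sentence_iff]
      intro M
      have ha : a ∈ L.completeTheory M :=
        FirstOrder.Language.Theory.realize_sentence_of_mem (T := T0) (M := M) (Or.inl rfl)
      obtain ⟨r, hr⟩ := h2 M ha
      have h4 : Φ.symm r = X := by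
        apply hstate
        intro j
        rw [Equiv.apply_symm_apply]
        have h5 : sent E (g (j, (((Φ X).1 j).1 : ℕ))) ∈ L.completeTheory M :=
          FirstOrder.Language.Theory.realize_sentence_of_mem (T := T0) (M := M) (Or.inr ⟨j, rfl⟩)
        rw [hr, hsent] at h5
        exact Fin.ext h5
      have h6 : r = Φ X := by rw [← h4, Equiv.apply_symm_apply]
      have h7 : φ ∈ L.completeTheory M := by rw [hr, h6]; exact hφ
      exact h7
    obtain ⟨T1, hT1, hT1'⟩ := FirstOrder.Language.Theory.models_iff_finset_models.1 h3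
    have h8 : ∃ J : ℕ, ∀ ψ ∈ T1, ψ = a ∨ ∃ j ≤ J, ψ = sent E (g (j, (((Φ X).1 j).1 : ℕ))) := by
      clear hT1'
      induction T1 using Finset.induction_on with
      | empty => exact ⟨0, fun ψ h => absurd h (Finset.notMem_empty ψ)⟩
      | insert ψ s hψ ih =>
        obtain ⟨J, hJ⟩ := ih (fun x hx => hT1 (Finset.mem_coe.2 (Finset.mem_insert_of_mem (Finset.mem_coe.1 hx))))
        have h9 : ψ ∈ T0 := hT1 (Finset.mem_coe.2 (Finset.mem_insert_self ψ s))
        rcases h9 with h9 | ⟨j, h9⟩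
        · refine ⟨J, fun x hx => ?_⟩
          rcases Finset.mem_insert.1 hx with rfl | hx'
          · exact Or.inl h9
          · exact hJ x hx'
        · refine ⟨max J j, fun x hx => ?_⟩
          rcases Finset.mem_insert.1 hx with rfl | hx'
          · exact Or.inr ⟨j, le_max_right _ _, h9.symm⟩
          · rcases hJ x hx' with h10 | ⟨j', hj', h10⟩
            · exact Or.inl h10
            · exact Or.inr ⟨j', hj'.trans (le_max_left _ _), h10⟩
    obtain ⟨J, hJ⟩ := h8
    refine ⟨J, ?_⟩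
    intro M _ _ hMa hMj
    have hmod : M ⊨ (T1 : L.Theory) := by
      rw [FirstOrder.Language.Theory.model_iff]
      intro ψ hψ
      rcases hJ ψ (Finset.mem_coe.1 hψ) with h10 | ⟨j, hj, h10⟩
      · rw [h10]
        exact hMa
      · rw [h10]
        exact hMj j hj
    exact hT1'.realize_sentence M
  have hmemA : ∀ r, a ∈ Th' r := fun r => (h1 r).2
  -- membership passes to points with the same states
  have hloc : ∀ (X : Cls R) (φ : L.Sentence), φ ∈ Th' (Φ X) → ∃ n, ∀ Y : Cls R, pre X.1 n = pre Y.1 n →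
      φ ∈ Th' (Φ Y) := by
    intro X φ hφ
    obtain ⟨J, hJ⟩ := hB X φ hφ
    obtain ⟨N, hN⟩ := hc1 J
    refine ⟨N, fun Y hXY => ?_⟩
    obtain ⟨M, iM, nM, hMT⟩ := (h1 (Φ Y)).1
    rw [hMT]
    refine hJ M ?_ ?_
    · have h3 := hmemA (Φ Y)
      rw [hMT] at h3
      exact h3
    · intro j hj
      have h3 : sent E (g (j, (((Φ X).1 j).1 : ℕ))) ∈ Th' (Φ Y) := by
        rw [hsent, hN X Y hXY j hj]
      rw [hMT] at h3
      exact h3
  refine ⟨a, fun X => Th' (Φ X), ?_, ?_, ?_, ?_, ?_, ?_⟩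
  · intro X Y hXY
    apply hstate
    intro j
    have h3 : sent E (g (j, (((Φ Y).1 j).1 : ℕ))) ∈ Th' (Φ X) := by
      have h4 : Th' (Φ X) = Th' (Φ Y) := hXY
      rw [h4, hsent]
    rw [hsent] at h3
    exact Fin.ext h3
  · exact fun X => h1 _
  · intro T hT' haT
    obtain ⟨M, _, _, rfl⟩ := hT'
    obtain ⟨r, hr⟩ := h2 M haT
    exact ⟨Φ.symm r, by rw [hr]; simp⟩
  · intro φ
    apply uniform_of_local (fun X : Cls R => φ ∈ Th' (Φ X))
    intro X
    by_cases hφ : φ ∈ Th' (Φ X)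
    · obtain ⟨n, hn⟩ := hloc X φ hφ
      exact ⟨n, fun Y hXY => iff_of_true hφ (hn Y hXY)⟩
    · obtain ⟨n, hn⟩ := hloc X φ.not (((hTh X).mem_not φ).2 hφ)
      exact ⟨n, fun Y hXY => iff_of_false hφ (((hTh Y).mem_not φ).1 (hn Y hXY))⟩
  · intro n
    obtain ⟨N, hN⟩ := hc2 (n + 1)
    obtain ⟨φ, hφ⟩ := df_or (Th := fun X : Cls R => Th' (Φ X)) hTh
      (Finset.univ.filter (fun w : Fin (N + 1) → Fin m.nQ =>
        ∃ X : Cls R, (∀ j : Fin (N + 1), ((Φ X).1 j).1 = w j) ∧ X.1 n = true))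
      (fun w X => ∀ j ∈ (Finset.univ : Finset (Fin (N + 1))), ((Φ X).1 j).1 = w j) (by
        intro w _
        refine df_and hTh Finset.univ (fun (j : Fin (N + 1)) X => ((Φ X).1 j).1 = w j) ?_
        intro j _
        refine ⟨sent E (g (j, (w j : ℕ))), fun X => ?_⟩
        rw [hsent]
        exact ⟨fun h => Fin.ext h, fun h => by rw [h]⟩)
    refine ⟨φ, fun X => ?_⟩
    rw [hφ]
    constructor
    · rintro ⟨w, hw, hX⟩
      obtain ⟨X0, hX0, hb⟩ := (Finset.mem_filter.1 hw).2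
      have h3 : pre X.1 (n + 1) = pre X0.1 (n + 1) := by
        apply hN
        intro j hj
        have h4 := hX ⟨j, Nat.lt_succ_of_le hj⟩ (Finset.mem_univ _)
        have h5 := hX0 ⟨j, Nat.lt_succ_of_le hj⟩
        rw [h4, h5]
      rw [pre_eq_iff] at h3
      rw [h3 n (Nat.lt_succ_self n)]
      exact hb
    · intro hb
      exact ⟨fun j => ((Φ X).1 j).1, Finset.mem_filter.2 ⟨Finset.mem_univ _, X, fun _ => rfl, hb⟩, fun _ _ => rfl⟩
  · intro X
    rw [hcomp X]
    constructor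
    · intro hdec
      apply computable_of_graph
      have h3 : Sg 0 (fun x : ℕ × ℕ => sent E (g x) ∈ Th' (Φ X)) := Sg.comp (n := 0) hdec hg
      exact Sg.of_iff (n := 0) h3 (fun x => (hsent (Φ X) x.1 x.2).symm)
    · intro hst
      -- codes of the conjunctions
      let cj : ℕ → ℕ := fun J => Nat.rec (cAnd ca (g (0, (((Φ X).1 0).1 : ℕ))))
        (fun j c => cAnd c (g (j + 1, (((Φ X).1 (j + 1)).1 : ℕ)))) J
      have hcj : Computable cj := by
        refine Computable.nat_rec (f := fun J : ℕ => J) (g := fun _ => cAnd ca (g (0, (((Φ X).1 0).1 : ℕ))))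
          (h := fun _ y => cAnd y.2 (g (y.1 + 1, (((Φ X).1 (y.1 + 1)).1 : ℕ)))) Computable.id
          (Computable.const _) ?_
        have h3 : Computable (fun y : ℕ × (ℕ × ℕ) => y.2.1 + 1) :=
          Computable.succ.comp (Computable.fst.comp Computable.snd)
        exact cAnd_comp.comp (Computable.snd.comp Computable.snd) (hg.comp (h3.pair (hst.comp h3)))
      have hcjr : ∀ (J : ℕ) (M : Type) [L.Structure M] [Nonempty M], (M ⊨ sent E (cj J)) ↔
          ((M ⊨ a) ∧ ∀ j ≤ J, M ⊨ sent E (g (j, (((Φ X).1 j).1 : ℕ)))) := by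
        intro J M _ _
        induction J with
        | zero =>
          show (M ⊨ sent E (cAnd ca (g (0, (((Φ X).1 0).1 : ℕ))))) ↔ _
          rw [realize_cAnd, hca]
          constructor
          · rintro ⟨h3, h4⟩
            refine ⟨h3, fun j hj => ?_⟩
            obtain rfl : j = 0 := by omega
            exact h4
          · rintro ⟨h3, h4⟩
            exact ⟨h3, h4 0 le_rfl⟩
        | succ J ih =>
          show (M ⊨ sent E (cAnd (cj J) (g (J + 1, (((Φ X).1 (J + 1)).1 : ℕ))))) ↔ _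
          rw [realize_cAnd, ih]
          constructor
          · rintro ⟨⟨h3, h4⟩, h5⟩
            refine ⟨h3, fun j hj => ?_⟩
            rcases Nat.le_succ_iff.1 hj with h6 | h6
            · exact h4 j h6
            · rw [h6]
              exact h5
          · rintro ⟨h3, h4⟩
            exact ⟨⟨h3, fun j hj => h4 j (by omega)⟩, h4 (J + 1) le_rfl⟩
      have hiff : ∀ c, sent E c ∈ Th' (Φ X) ↔ ∃ J, ¬ Sat E (cAnd (cj J) (cNot c)) := by
        intro c
        constructor
        · intro hc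
          obtain ⟨J, hJ⟩ := hB X _ hc
          refine ⟨J, ?_⟩
          rintro ⟨M, _, _, hMs⟩
          rw [realize_cAnd, realize_cNot, hcjr] at hMs
          exact hMs.2 (hJ M hMs.1.1 hMs.1.2)
        · rintro ⟨J, hJ⟩
          by_contra hc
          apply hJ
          obtain ⟨M, iM, nM, hMT⟩ := hTh X
          refine ⟨M, iM, nM, ?_⟩
          rw [realize_cAnd, realize_cNot, hcjr]
          refine ⟨⟨?_, fun j _ => ?_⟩, fun h3 => hc ?_⟩
          · have h3 := hmemA (Φ X)
            rw [hMT] at h3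
            exact h3
          · have h3 : sent E (g (j, (((Φ X).1 j).1 : ℕ))) ∈ Th' (Φ X) := by rw [hsent]
            rw [hMT] at h3
            exact h3
          · rw [hMT]
            exact h3
      have hsg : Sg 1 (fun c : ℕ => sent E c ∈ Th' (Φ X)) := by
        refine Sg.of_iff (Sg.ex (n := 0) (p := fun x : ℕ × ℕ => ¬ Sat E (cAnd (cj x.2) (cNot x.1))) ?_) hiff
        exact Sg.comp (Sat_pg E hS).not (cAnd_comp.comp (hcj.comp Computable.snd) (cNot_comp.comp Computable.fst))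
      apply computablePred_of_Sg hsg
      refine Sg.of_iff (Sg.comp hsg cNot_comp) ?_
      intro c
      exact ((hTh X).cNot_mem E c).symm

end Pool.Agent.LIN
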