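import Pool.Agent.LIN.RG3
import Pool.Agent.LIN.LDefs


/-! # [LIN-RZ] The final statement for every Lindenbaum algebra of the theory of the class -/

namespace Pool.Agent.LIN

open FirstOrder FirstOrder.Language

variable {L : FirstOrder.Language.{0, 0}}

/-- the class of a sentence -/
def cls (E : Enum L) (φ : L.Sentence) : LindND E := ⟨{T : ND E | φ ∈ T.1}, φ, fun _ => Iff.rfl⟩

theorem cls_eq_iff (E : Enum L) (φ ψ : L.Sentence) :
    cls E φ = cls E ψ ↔ BoundedFormula.iff φ ψ ∈ ThND E := by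
  constructor
  · intro h M i hM h1 h2
    have h3 : {T : ND E | φ ∈ T.1} = {T : ND E | ψ ∈ T.1} := congrArg Subtype.val h
    have h4 := Set.ext_iff.1 h3 ⟨L.completeTheory M, ⟨M, i, hM, rfl⟩, h1, h2⟩
    have h5 : (M ⊨ φ) ↔ (M ⊨ ψ) := h4
    show BoundedFormula.Realize _ _ _
    rw [BoundedFormula.realize_iff]
    exact h5
  · intro h
    apply Subtype.ext
    ext ⟨T, ⟨M, i, hM, hMT⟩, h1, h2⟩
    subst hMT
    have h3 := h M i hM h1 h2
    have h4 : BoundedFormula.Realize (BoundedFormula.iff φ ψ) (default : Empty → M) (default : Fin 0 → M) := h3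
    rw [BoundedFormula.realize_iff] at h4
    exact h4

theorem isLind_cls (E : Enum L) : IsLind (ThND E) (cls E) where
  surj := by
    rintro ⟨s, φ, hφ⟩
    exact ⟨φ, Subtype.ext (Set.ext fun T => (hφ T).symm)⟩
  inf φ ψ := Subtype.ext (Set.ext fun T => T.2.1.mem_inf φ ψ)
  sup φ ψ := by
    refine Subtype.ext (Set.ext fun T => ?_)
    obtain ⟨T, ⟨M, i, hM, hMT⟩, h1, h2⟩ := T
    subst hMT
    exact BoundedFormula.realize_sup
  compl φ := Subtype.ext (Set.ext fun T => T.2.1.mem_not φ)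
  eq_iff := cls_eq_iff E

/-- the Lindenbaum algebra is unique -/
theorem IsLind.iso {T : L.Theory} {B B' : Type} [BooleanAlgebra B] [BooleanAlgebra B'] {γ : L.Sentence → B}
    {γ' : L.Sentence → B'} (h : IsLind T γ) (h' : IsLind T γ') : ∃ e : B ≃o B', ∀ φ, e (γ φ) = γ' φ := by
  have hle : ∀ φ ψ, γ φ ≤ γ ψ ↔ γ' φ ≤ γ' ψ := by
    intro φ ψ
    rw [← inf_eq_left, ← inf_eq_left, ← h.inf, ← h'.inf, h.eq_iff, h'.eq_iff]
  let f : B → B' := fun b => γ' (Function.surjInv h.surj b)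
  have hf : ∀ φ, f (γ φ) = γ' φ := by
    intro φ
    have h1 : γ (Function.surjInv h.surj (γ φ)) = γ φ := Function.surjInv_eq h.surj _
    exact (h'.eq_iff _ _).2 ((h.eq_iff _ _).1 h1)
  have hfle : ∀ a b, f a ≤ f b ↔ a ≤ b := by
    intro a b
    obtain ⟨φ, rfl⟩ := h.surj a
    obtain ⟨ψ, rfl⟩ := h.surj b
    rw [hf, hf, hle]
  have hfs : Function.Surjective f := by
    intro b
    obtain ⟨φ, rfl⟩ := h'.surj b
    exact ⟨γ φ, hf φ⟩
  have hfi : Function.Injective f := fun a b hab =>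
    le_antisymm ((hfle a b).1 hab.le) ((hfle b a).1 hab.ge)
  exact ⟨⟨Equiv.ofBijective f ⟨hfi, hfs⟩, fun {a b} => hfle a b⟩, hf⟩

theorem PiAlg.congr {n : ℕ} {A B : Type} [BooleanAlgebra A] [BooleanAlgebra B] {ν : ℕ → A} (h : PiAlg n ν)
    (e : A ≃o B) : PiAlg n (fun m => e (ν m)) := by
  obtain ⟨hν, ⟨⟨fs, hfs, hfs'⟩, ⟨fi, hfi, hfi'⟩, ⟨fc, hfc, hfc'⟩⟩, hP⟩ := h
  refine ⟨e.surjective.comp hν, ⟨⟨fs, hfs, fun m n => ?_⟩, ⟨fi, hfi, fun m n => ?_⟩, ⟨fc, hfc, fun m => ?_⟩⟩, ?_⟩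
  · show e (ν (fs m n)) = e (ν m) ⊔ e (ν n)
    rw [hfs', e.map_sup]
  · show e (ν (fi m n)) = e (ν m) ⊓ e (ν n)
    rw [hfi', e.map_inf]
  · show e (ν (fc m)) = (e (ν m))ᶜ
    rw [hfc']
    exact (e.isCompl (isCompl_compl (x := ν m))).compl_eq.symm
  · exact Pg.of_iff hP fun p => e.injective.eq_iff

/-- principal ideals are transported along isomorphisms -/
theorem iic_congr {A B B' : Type} [BooleanAlgebra A] [BooleanAlgebra B] [BooleanAlgebra B'] (e : B ≃o B')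
    (h : ∃ b : B, Nonempty (A ≃o Set.Iic b)) : ∃ b : B', Nonempty (A ≃o Set.Iic b) := by
  obtain ⟨b, ⟨μ⟩⟩ := h
  refine ⟨e b, ⟨μ.trans ?_⟩⟩
  refine ⟨⟨fun x => ⟨e x.1, e.monotone x.2⟩, fun y => ⟨e.symm y.1, ?_⟩, fun x => ?_, fun y => ?_⟩, ?_⟩
  · have h1 : y.1 ≤ e b := y.2
    show e.symm y.1 ≤ b
    rw [OrderIso.symm_apply_le]
    exact h1
  · exact Subtype.ext (e.symm_apply_apply _)
  · exact Subtype.ext (e.apply_symm_apply _)
  · intro x y
    exact e.le_iff_le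

/-- The final statement. -/
theorem main_of (hF : FinalStatement) (hS : SatStatement) (L : FirstOrder.Language.{0, 0})
    (E : Enum L) (hL : Rich L) :
    (∃ (B : Type) (_ : BooleanAlgebra B) (γ : L.Sentence → B), IsLind (ThND E) γ) ∧
    ∀ (B : Type) [BooleanAlgebra B] (γ : L.Sentence → B), IsLind (ThND E) γ →
      PiAlg 4 (fun c => γ (sent E c)) ∧
      (∀ (A : Type) [BooleanAlgebra A] (α : ℕ → A), PiAlg 4 α →
        ∃ b : B, Nonempty (A ≃o Set.Iic b)) ∧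
      (∀ (B' : Type) [BooleanAlgebra B'] (β : ℕ → B'), PiAlg 4 β →
        (∀ (A : Type) [BooleanAlgebra A] (α : ℕ → A), PiAlg 4 α →
          ∃ b : B', Nonempty (A ≃o Set.Iic b)) → Nonempty (B ≃o B')) ∧
      ∀ (B' : Type) [BooleanAlgebra B'] (β : ℕ → B'), NumUniversal 4 β → Nonempty (B ≃o B') := by
  refine ⟨⟨LindND E, inferInstance, cls E, isLind_cls E⟩, ?_⟩
  intro B _ γ hγ
  obtain ⟨e, he⟩ := (isLind_cls E).iso hγ
  have h1 := hF L E hL
  have key : ∀ (B' : Type) [BooleanAlgebra B'] (β : ℕ → B'), PiAlg 4 β →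
        (∀ (A : Type) [BooleanAlgebra A] (α : ℕ → A), PiAlg 4 α →
          ∃ b : B', Nonempty (A ≃o Set.Iic b)) → Nonempty (B ≃o B') := by
    intro B' _ β hβ hU
    have h2 : UnivPi 4 B' := ⟨⟨β, hβ⟩, fun A _ hA => by
      obtain ⟨α, hα⟩ := hA
      exact hU A α hα⟩
    obtain ⟨e'⟩ := h1.2 B' h2
    exact ⟨e.symm.trans e'.symm⟩
  refine ⟨?_, ?_, key, ?_⟩
  · have h2 := (piAlg_gnum E hS).congr e
    have h3 : (fun c => γ (sent E c)) = fun c => e (gnum E c) := funext fun c => (he _).symm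
    rw [h3]
    exact h2
  · intro A _ α hα
    exact iic_congr e (h1.1.2 A ⟨α, hα⟩)
  · intro B' _ β hβ
    refine key B' β hβ.1 ?_
    intro A _ α hα
    obtain ⟨b, μ, -⟩ := hβ.2 A α hα
    exact ⟨b, ⟨μ⟩⟩

end Pool.Agent.LIN
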