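import Pool.Agent.LIN.TW0

/-! # [LIN-TA1] block C: the successor `S` has no cycles -/

namespace Pool.Agent.LIN.Tower

variable {m : Mach} {A : Tower m} {c0 : m.Config}

theorem TA1_p_SS (hA : A.Ax c0) (z : A.T) : A.p (A.S (A.S z)) = A.S (A.p z) := by
  by_cases hz : A.Lf z
  · have h1 : ¬ A.Lf (A.S z) := fun h => (hA.Lf_S z).1 h hz
    rw [hA.p_odd _ h1, hA.p_even _ hz]
  · have h1 : A.Lf (A.S z) := (hA.Lf_S z).2 hz
    rw [hA.p_even _ h1, hA.p_odd _ hz]

theorem TA1_p_iter (hA : A.Ax c0) (z : A.T) (n : ℕ) :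
    A.p (A.S^[2 * n] z) = A.S^[n] (A.p z) := by
  induction n with
  | zero => rfl
  | succ n ih =>
    have h : 2 * (n + 1) = 2 * n + 1 + 1 := by ring
    rw [h, Function.iterate_succ_apply', Function.iterate_succ_apply', TA1_p_SS hA, ih,
      Function.iterate_succ_apply']

theorem TA1_Lf_iter (hA : A.Ax c0) (z : A.T) (n : ℕ) :
    A.Lf (A.S^[n] z) ↔ (n % 2 = 0 ↔ A.Lf z) := by
  induction n with
  | zero => simp
  | succ n ih =>
    rw [Function.iterate_succ_apply', hA.Lf_S, ih]
    have h : (n + 1) % 2 = 0 ↔ ¬ n % 2 = 0 := by omega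
    rw [h]
    tauto

/-- Descent: strong induction on `l` for all `y`. If `S^l y = y` with `l` odd, then `Lf y` and
`Lf (S^l y)` are opposite (`Lf_S` iterated), contradiction. If `l = 2 l'` then
`S^l' (p y) = p (S^(2 l') y) = p y` (apply `p` twice two steps: `p (S (S z)) = S (p z)` for every `z`
by `p_even`, `p_odd`, `Lf_S`), and `1 <= l' < l`. -/
theorem S_iter_ne (hA : A.Ax c0) (y : A.T) (l : ℕ) (hl : 1 ≤ l) : A.S^[l] y ≠ y := by
  induction l using Nat.strong_induction_on generalizing y with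
  | _ l ih =>
    intro h
    rcases Nat.even_or_odd' l with ⟨n, hn | hn⟩
    · subst hn
      refine ih n (by omega) (A.p y) (by omega) ?_
      rw [← TA1_p_iter hA, h]
    · have h1 := TA1_Lf_iter hA y l
      rw [h] at h1
      have h2 : ¬ l % 2 = 0 := by omega
      tauto

theorem S_iter_cancel (hA : A.Ax c0) (y z : A.T) (k : ℕ) : A.S^[k] y = A.S^[k] z ↔ y = z :=
  (hA.S_inj.iterate k).eq_iff

/-- For `a <= b`: cancel `S^a`. -/
theorem S_iter_sub (hA : A.Ax c0) (y z : A.T) (a b : ℕ) (hab : a ≤ b) :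
    A.S^[a] y = A.S^[b] z ↔ y = A.S^[b - a] z := by
  have h : A.S^[b] z = A.S^[a] (A.S^[b - a] z) := by
    rw [← Function.iterate_add_apply]
    congr 1
    omega
  rw [h, S_iter_cancel hA]

theorem S_iter_inj (hA : A.Ax c0) (y : A.T) (a b : ℕ) : A.S^[a] y = A.S^[b] y ↔ a = b := by
  constructor
  · intro h
    by_contra hne
    rcases Nat.lt_or_gt_of_ne hne with h1 | h1
    · exact S_iter_ne hA y (b - a) (by omega) ((S_iter_sub hA y y a b h1.le).1 h).symm
    · exact S_iter_ne hA y (a - b) (by omega) ((S_iter_sub hA y y b a h1.le).1 h.symm).symm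
  · rintro rfl
    rfl

/-- An element that is not an origin has a predecessor. -/
theorem exists_pred (y : A.T) (h : ¬ A.Org y) : ∃ z, A.S z = y := by
  unfold Org at h
  push Not at h
  exact h

end Pool.Agent.LIN.Tower
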