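import Pool.Agent.LIN.TA1

/-! # [LIN-TA2] block C: parity, halving, residues -/

namespace Pool.Agent.LIN.Tower

variable {m : Mach} {A : Tower m} {c0 : m.Config}

open Classical in
/-- The residue of `y` modulo `2^a`: the digit number `j` is `0` iff `p^j y` is a left child. -/
noncomputable def rs (A : Tower m) : ℕ → A.T → ℕ
  | 0, _ => 0
  | a + 1, y => (if A.Lf y then 0 else 1) + 2 * A.rs a (A.p y)

theorem TA2_rs_left (A : Tower m) (a : ℕ) (y : A.T) (h : A.Lf y) :
    A.rs (a + 1) y = 2 * A.rs a (A.p y) := by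
  simp [rs, h]

theorem TA2_rs_right (A : Tower m) (a : ℕ) (y : A.T) (h : ¬ A.Lf y) :
    A.rs (a + 1) y = 1 + 2 * A.rs a (A.p y) := by
  simp [rs, h]

theorem rs_lt (A : Tower m) (a : ℕ) (y : A.T) : A.rs a y < 2 ^ a := by
  induction a generalizing y with
  | zero => simp [rs]
  | succ a ih =>
    have := ih (A.p y)
    by_cases h : A.Lf y
    · rw [TA2_rs_left A a y h, pow_succ]; omega
    · rw [TA2_rs_right A a y h, pow_succ]; omega

/-- Two residues agree iff all the digits agree. Induction on `a`. -/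
theorem rs_eq_iff {B : Tower m} (a : ℕ) (y : A.T) (z : B.T) :
    A.rs a y = B.rs a z ↔ ∀ j < a, (A.Lf (A.p^[j] y) ↔ B.Lf (B.p^[j] z)) := by
  induction a generalizing y z with
  | zero => simp [rs]
  | succ a ih =>
    have key : A.rs (a + 1) y = B.rs (a + 1) z ↔
        ((A.Lf y ↔ B.Lf z) ∧ A.rs a (A.p y) = B.rs a (B.p z)) := by
      by_cases h : A.Lf y <;> by_cases h' : B.Lf z
      · rw [TA2_rs_left A a y h, TA2_rs_left B a z h']
        constructor
        · intro e; exact ⟨iff_of_true h h', by omega⟩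
        · rintro ⟨-, e⟩; omega
      · rw [TA2_rs_left A a y h, TA2_rs_right B a z h']
        constructor
        · intro e; omega
        · rintro ⟨e, -⟩; exact absurd (e.1 h) h'
      · rw [TA2_rs_right A a y h, TA2_rs_left B a z h']
        constructor
        · intro e; omega
        · rintro ⟨e, -⟩; exact absurd (e.2 h') h
      · rw [TA2_rs_right A a y h, TA2_rs_right B a z h']
        constructor
        · intro e; exact ⟨iff_of_false h h', by omega⟩
        · rintro ⟨-, e⟩; omega
    rw [key, ih]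
    constructor
    · rintro ⟨h0, h⟩ j hj
      cases j with
      | zero => exact h0
      | succ j =>
        rw [Function.iterate_succ_apply, Function.iterate_succ_apply]
        exact h j (by omega)
    · intro h
      refine ⟨h 0 (by omega), fun j hj => ?_⟩
      have := h (j + 1) (by omega)
      rwa [Function.iterate_succ_apply, Function.iterate_succ_apply] at this

/-- `rs (a + b) y = rs a y + 2^a * rs b (p^a y)`. -/
theorem rs_add (A : Tower m) (a b : ℕ) (y : A.T) :
    A.rs (a + b) y = A.rs a y + 2 ^ a * A.rs b (A.p^[a] y) := by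
  induction a generalizing y with
  | zero => simp [rs]
  | succ a ih =>
    rw [show a + 1 + b = (a + b) + 1 by ring, Function.iterate_succ_apply, pow_succ]
    by_cases h : A.Lf y
    · rw [TA2_rs_left A _ y h, TA2_rs_left A _ y h, ih]; ring
    · rw [TA2_rs_right A _ y h, TA2_rs_right A _ y h, ih]; ring

theorem Lf_S_iter (hA : A.Ax c0) (y : A.T) (n : ℕ) :
    A.Lf (A.S^[n] y) ↔ (n % 2 = 0 ↔ A.Lf y) := by
  induction n with
  | zero => simp
  | succ n ih =>
    rw [Function.iterate_succ_apply', hA.Lf_S, ih]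
    by_cases h : A.Lf y
    · simp only [h, iff_true]; omega
    · simp only [h, iff_false]; omega

theorem p_S_iter (hA : A.Ax c0) (y : A.T) (n : ℕ) :
    A.p (A.S^[n] y) = A.S^[(n + A.rs 1 y) / 2] (A.p y) := by
  induction n with
  | zero =>
    have := A.rs_lt 1 y
    rw [show (0 + A.rs 1 y) / 2 = 0 by omega]
    rfl
  | succ n ih =>
    rw [Function.iterate_succ_apply']
    have hL := Lf_S_iter hA y n
    have hr : (A.Lf y → A.rs 1 y = 0) ∧ (¬ A.Lf y → A.rs 1 y = 1) := by
      constructor
      · intro h; rw [TA2_rs_left A 0 y h]; simp [rs]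
      · intro h; rw [TA2_rs_right A 0 y h]; simp [rs]
    by_cases hc : A.Lf (A.S^[n] y)
    · rw [hA.p_even _ hc, ih]
      have : (n + 1 + A.rs 1 y) / 2 = (n + A.rs 1 y) / 2 := by
        by_cases hy : A.Lf y
        · have := hr.1 hy
          have := (hL.1 hc).2 hy
          omega
        · have := hr.2 hy
          have : ¬ n % 2 = 0 := fun e => hy ((hL.1 hc).1 e)
          omega
      rw [this]
    · rw [hA.p_odd _ hc, ih, ← Function.iterate_succ_apply' A.S]
      have : (n + 1 + A.rs 1 y) / 2 = (n + A.rs 1 y) / 2 + 1 := by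
        by_cases hy : A.Lf y
        · have h0 := hr.1 hy
          have : ¬ n % 2 = 0 := fun e => hc (hL.2 ⟨fun _ => hy, fun _ => e⟩)
          omega
        · have h0 := hr.2 hy
          have : n % 2 = 0 := by
            by_contra e
            exact hc (hL.2 ⟨fun e' => absurd e' e, fun h => absurd h hy⟩)
          omega
      rw [this]

theorem TA2_rs_succ (A : Tower m) (a : ℕ) (y : A.T) :
    A.rs (a + 1) y = A.rs 1 y + 2 * A.rs a (A.p y) := by
  rw [show a + 1 = 1 + a by ring, rs_add A 1 a y]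
  simp

/-- Induction on `a` from `p_S_iter`: `(n + rs (a+1) y) / 2^(a+1) =
((n + rs 1 y) / 2 + rs a (p y)) / 2^a`. -/
theorem p_iter_S_iter (hA : A.Ax c0) (a : ℕ) (y : A.T) (n : ℕ) :
    A.p^[a] (A.S^[n] y) = A.S^[(n + A.rs a y) / 2 ^ a] (A.p^[a] y) := by
  induction a generalizing y n with
  | zero => simp [rs]
  | succ a ih =>
    have e : (n + A.rs (a + 1) y) / 2 ^ (a + 1) =
        ((n + A.rs 1 y) / 2 + A.rs a (A.p y)) / 2 ^ a := by
      rw [TA2_rs_succ A a y, pow_succ, mul_comm (2 ^ a) 2, ← Nat.div_div_eq_div_mul]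
      congr 1
      omega
    rw [Function.iterate_succ_apply, p_S_iter hA, ih, Function.iterate_succ_apply, e]

theorem rs_S_iter (hA : A.Ax c0) (a : ℕ) (y : A.T) (n : ℕ) :
    A.rs a (A.S^[n] y) = (n + A.rs a y) % 2 ^ a := by
  induction a generalizing y n with
  | zero => simp [rs, Nat.mod_one]
  | succ a ih =>
    rw [TA2_rs_succ A a (A.S^[n] y), p_S_iter hA, ih, TA2_rs_succ A a y, pow_succ,
      mul_comm (2 ^ a) 2, Nat.mod_mul]
    have h1 : A.rs 1 (A.S^[n] y) = (n + A.rs 1 y) % 2 := by
      have hL := Lf_S_iter hA y n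
      have e1 : ∀ x : A.T, A.Lf x → A.rs 1 x = 0 := fun x h => by
        rw [TA2_rs_left A 0 x h]; simp [rs]
      have e2 : ∀ x : A.T, ¬ A.Lf x → A.rs 1 x = 1 := fun x h => by
        rw [TA2_rs_right A 0 x h]; simp [rs]
      by_cases hc : A.Lf (A.S^[n] y) <;> by_cases hy : A.Lf y
      · rw [e1 _ hc, e1 _ hy]
        have := (hL.1 hc).2 hy
        omega
      · rw [e1 _ hc, e2 _ hy]
        have : ¬ n % 2 = 0 := fun e => hy ((hL.1 hc).1 e)
        omega
      · rw [e2 _ hc, e1 _ hy]
        have : ¬ n % 2 = 0 := fun e => hc (hL.2 ⟨fun _ => hy, fun _ => e⟩)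
        omega
      · rw [e2 _ hc, e2 _ hy]
        have : n % 2 = 0 := by
          by_contra e
          exact hc (hL.2 ⟨fun e' => absurd e' e, fun h => absurd h hy⟩)
        omega
    rw [h1]
    have e3 : (n + (A.rs 1 y + 2 * A.rs a (A.p y))) % 2 = (n + A.rs 1 y) % 2 := by omega
    have e4 : (n + (A.rs 1 y + 2 * A.rs a (A.p y))) / 2 = (n + A.rs 1 y) / 2 + A.rs a (A.p y) := by
      omega
    rw [e3, e4]

end Pool.Agent.LIN.Tower
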