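import Pool.Agent.LIN.TA2

/-! # [LIN-TA3] block C: levels and origins -/

namespace Pool.Agent.LIN.Tower

variable {m : Mach} {A : Tower m} {c0 : m.Config}

theorem h_S_iter (hA : A.Ax c0) (n : ℕ) (y : A.T) : A.h (A.S^[n] y) = A.h y := by
  induction n with
  | zero => rfl
  | succ n ih => rw [Function.iterate_succ_apply', hA.h_S, ih]

theorem h_p_iter (hA : A.Ax c0) (a : ℕ) (y : A.T) : A.h (A.p^[a] y) = A.p^[a] (A.h y) := by
  induction a with
  | zero => rfl
  | succ a ih => rw [Function.iterate_succ_apply', hA.h_p, ih, Function.iterate_succ_apply']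

theorem h_h (hA : A.Ax c0) (y : A.T) : A.h (A.h y) = A.h y :=
  hA.org_h _ (hA.h_org y)

theorem org_iff (hA : A.Ax c0) (y : A.T) : A.Org y ↔ A.h y = y := by
  constructor
  · exact hA.org_h y
  · intro h
    have h1 := hA.h_org y
    rwa [h] at h1

/-- `h (p y) = p (h y) = p y` for an origin `y`. -/
theorem org_p_iter (hA : A.Ax c0) (a : ℕ) (y : A.T) (hy : A.Org y) : A.Org (A.p^[a] y) := by
  rw [org_iff hA, h_p_iter hA, hA.org_h y hy]

theorem TA3_org_p (hA : A.Ax c0) (y : A.T) (hy : A.Org y) : A.Org (A.p y) :=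
  org_p_iter hA 1 y hy

/-- Origins are left children: `child_inj`. -/
theorem p_org_inj (hA : A.Ax c0) (y z : A.T) (hy : A.Org y) (hz : A.Org z) (a : ℕ)
    (h : A.p^[a] y = A.p^[a] z) : y = z := by
  induction a with
  | zero => exact h
  | succ a ih =>
    rw [Function.iterate_succ_apply', Function.iterate_succ_apply'] at h
    exact ih (hA.child_inj _ _ (hA.Lf_org _ (org_p_iter hA a y hy))
      (hA.Lf_org _ (org_p_iter hA a z hz)) h)

theorem TA3_lt_p_of (hA : A.Ax c0) (y z : A.T) (hz : A.Org z) (h : A.lt y z) :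
    A.lt (A.p y) (A.p z) := by
  rcases hA.p_succ y z h with h1 | h1
  · rw [← h1]
    exact hA.p_lt z hz
  · exact hA.lt_trans _ _ _ h1 (hA.p_lt z hz)

theorem TA3_lt_p (hA : A.Ax c0) (y z : A.T) (hy : A.Org y) (hz : A.Org z) :
    A.lt (A.p y) (A.p z) ↔ A.lt y z := by
  constructor
  · intro h
    rcases hA.lt_total y z hy hz with h1 | h1 | h1
    · rw [h1] at h
      exact absurd h (hA.lt_irrefl _)
    · exact h1
    · exact absurd (hA.lt_trans _ _ _ h (TA3_lt_p_of hA z y hy h1)) (hA.lt_irrefl _)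
  · exact TA3_lt_p_of hA y z hz

theorem lt_p_iter (hA : A.Ax c0) (y z : A.T) (hy : A.Org y) (hz : A.Org z) (a : ℕ) :
    A.lt (A.p^[a] y) (A.p^[a] z) ↔ A.lt y z := by
  induction a with
  | zero => rfl
  | succ a ih =>
    rw [Function.iterate_succ_apply', Function.iterate_succ_apply',
      TA3_lt_p hA _ _ (org_p_iter hA a y hy) (org_p_iter hA a z hz), ih]

theorem TA3_lt_add (hA : A.Ax c0) (y : A.T) (hy : A.Org y) (a b : ℕ) :
    A.lt (A.p^[a] y) (A.p^[a + 1 + b] y) := by
  induction b with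
  | zero =>
    show A.lt (A.p^[a] y) (A.p^[a + 1] y)
    rw [Function.iterate_succ_apply']
    exact hA.p_lt _ (org_p_iter hA a y hy)
  | succ b ih =>
    show A.lt (A.p^[a] y) (A.p^[a + 1 + b + 1] y)
    rw [Function.iterate_succ_apply' _ (a + 1 + b)]
    exact hA.lt_trans _ _ _ ih (hA.p_lt _ (org_p_iter hA _ y hy))

theorem TA3_lt_of (hA : A.Ax c0) (y : A.T) (hy : A.Org y) {a b : ℕ} (h : a < b) :
    A.lt (A.p^[a] y) (A.p^[b] y) := by
  obtain ⟨c, rfl⟩ := Nat.exists_eq_add_of_lt h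
  have h1 : a + c + 1 = a + 1 + c := by omega
  rw [h1]
  exact TA3_lt_add hA y hy a c

theorem lt_iter_iter (hA : A.Ax c0) (y : A.T) (hy : A.Org y) (a b : ℕ) :
    A.lt (A.p^[a] y) (A.p^[b] y) ↔ a < b := by
  constructor
  · intro h
    by_contra hn
    rcases Nat.eq_or_lt_of_le (Nat.le_of_not_lt hn) with h1 | h1
    · rw [h1] at h
      exact hA.lt_irrefl _ h
    · exact hA.lt_irrefl _ (hA.lt_trans _ _ _ h (TA3_lt_of hA y hy h1))
  · exact TA3_lt_of hA y hy

theorem p_iter_org_inj (hA : A.Ax c0) (y : A.T) (hy : A.Org y) (a b : ℕ) :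
    A.p^[a] y = A.p^[b] y ↔ a = b := by
  constructor
  · intro h
    by_contra hne
    rcases Nat.lt_or_gt_of_ne hne with h1 | h1
    · have h2 := TA3_lt_of hA y hy h1
      rw [h] at h2
      exact hA.lt_irrefl _ h2
    · have h2 := TA3_lt_of hA y hy h1
      rw [h] at h2
      exact hA.lt_irrefl _ h2
  · rintro rfl
    rfl

/-- `lt (h y) (p (h y)) = lt (h y) (h (p y))`, and nothing is below `o`. -/
theorem h_p_ne_o (hA : A.Ax c0) (y : A.T) : A.h (A.p y) ≠ A.o := by
  intro h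
  rw [hA.h_p] at h
  have h1 := hA.p_lt _ (hA.h_org y)
  rw [h] at h1
  exact hA.o_least _ h1

theorem o_lt (hA : A.Ax c0) (y : A.T) (hy : A.Org y) (hne : y ≠ A.o) : A.lt A.o y := by
  rcases hA.lt_total y A.o hy hA.o_org with h1 | h1 | h1
  · exact absurd h1 hne
  · exact absurd h1 (hA.o_least y)
  · exact h1

/-- Every origin other than `o` is `p` of an origin (`child`, then `h` of the child). -/
theorem org_pred (hA : A.Ax c0) (y : A.T) (hy : A.Org y) (hne : y ≠ A.o) :
    ∃ z, A.Org z ∧ A.p z = y := by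
  have h1 := hA.org_h y hy
  obtain ⟨z, _, hz⟩ := hA.child y (by rw [h1]; exact hne)
  refine ⟨A.h z, hA.h_org z, ?_⟩
  rw [← hA.h_p, hz, h1]

theorem rs_org (hA : A.Ax c0) (a : ℕ) (y : A.T) (hy : A.Org y) : A.rs a y = 0 := by
  induction a generalizing y with
  | zero => rfl
  | succ a ih =>
    unfold rs
    rw [if_pos (hA.Lf_org y hy), ih _ (TA3_org_p hA y hy)]

end Pool.Agent.LIN.Tower
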