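import Pool.Agent.LIN.TA3

/-! # [LIN-TA4] block C: descendants, comparison of elements of different levels -/

namespace Pool.Agent.LIN.Tower

variable {m : Mach} {A : Tower m} {c0 : m.Config}

/-- The case of two right children: both are `S` of a left child with the same `p`. -/
theorem eq_iff_p (hA : A.Ax c0) (y z : A.T) : y = z ↔ A.p y = A.p z ∧ (A.Lf y ↔ A.Lf z) := by
  constructor
  · rintro rfl
    exact ⟨rfl, Iff.rfl⟩
  · rintro ⟨h1, h2⟩
    by_cases hy : A.Lf y
    · exact hA.child_inj y z hy (h2.1 hy) h1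
    · have hz : ¬ A.Lf z := fun h => hy (h2.2 h)
      obtain ⟨y', rfl⟩ := exists_pred (A := A) y fun h => hy (hA.Lf_org y h)
      obtain ⟨z', rfl⟩ := exists_pred (A := A) z fun h => hz (hA.Lf_org z h)
      have hy' : A.Lf y' := by
        by_contra h
        exact hy ((hA.Lf_S y').2 h)
      have hz' : A.Lf z' := by
        by_contra h
        exact hz ((hA.Lf_S z').2 h)
      rw [hA.p_even _ hy', hA.p_even _ hz'] at h1
      rw [hA.child_inj y' z' hy' hz' h1]

theorem eq_of_p_iter (hA : A.Ax c0) (a : ℕ) (y z : A.T) (h : A.p^[a] y = A.p^[a] z)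
    (hr : A.rs a y = A.rs a z) : y = z := by
  induction a generalizing y z with
  | zero => exact h
  | succ a ih =>
    rw [Function.iterate_succ_apply, Function.iterate_succ_apply] at h
    unfold rs at hr
    have h1 : (A.Lf y ↔ A.Lf z) ∧ A.rs a (A.p y) = A.rs a (A.p z) := by
      by_cases hy : A.Lf y
      · by_cases hz : A.Lf z
        · rw [if_pos hy, if_pos hz] at hr
          exact ⟨⟨fun _ => hz, fun _ => hy⟩, by omega⟩
        · rw [if_pos hy, if_neg hz] at hr
          exfalso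
          omega
      · by_cases hz : A.Lf z
        · rw [if_neg hy, if_pos hz] at hr
          exfalso
          omega
        · rw [if_neg hy, if_neg hz] at hr
          exact ⟨⟨fun h => absurd h hy, fun h => absurd h hz⟩, by omega⟩
    exact (eq_iff_p hA y z).2 ⟨ih _ _ h h1.2, h1.1⟩

theorem exists_left (hA : A.Ax c0) (y : A.T) (hy : A.h y ≠ A.o) :
    ∃ z, A.p z = y ∧ A.Lf z := hA.child y hy |>.imp fun _ h => ⟨h.2, h.1⟩

/-- The right child is `S` of the left child. -/
theorem exists_right (hA : A.Ax c0) (y : A.T) (hy : A.h y ≠ A.o) :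
    ∃ z, A.p z = y ∧ ¬ A.Lf z := by
  obtain ⟨z, hz, hl⟩ := exists_left hA y hy
  exact ⟨A.S z, by rw [hA.p_even _ hl, hz], fun h => (hA.Lf_S z).1 h hl⟩

/-- If the level of `y` is `p^a` of an origin `u`, there is a descendant of `y` of order `a` with
any prescribed residue; its level is `u` (by `p_org_inj`). -/
theorem exists_desc (hA : A.Ax c0) (a : ℕ) (y u : A.T) (hu : A.Org u) (hy : A.h y = A.p^[a] u)
    (ρ : ℕ) (hρ : ρ < 2 ^ a) : ∃ z, A.p^[a] z = y ∧ A.rs a z = ρ ∧ A.h z = u := by
  induction a generalizing u ρ with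
  | zero =>
    refine ⟨y, rfl, ?_, hy⟩
    have : ρ = 0 := by
      rw [pow_zero] at hρ
      omega
    rw [this]
    rfl
  | succ a ih =>
    rw [Function.iterate_succ_apply] at hy
    rw [pow_succ] at hρ
    have hpu : A.Org (A.p u) := TA3_org_p hA u hu
    obtain ⟨w, hw1, hw2, hw3⟩ := ih (A.p u) hpu hy (ρ / 2) (by omega)
    have hne : A.h w ≠ A.o := by
      rw [hw3]
      have h1 := h_p_ne_o hA u
      rwa [hA.org_h _ hpu] at h1
    have key : ∀ z, A.p z = w → A.h z = u := by
      intro z hz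
      refine p_org_inj hA _ _ (hA.h_org z) hu 1 ?_
      show A.p (A.h z) = A.p u
      rw [← hA.h_p, hz, hw3]
    rcases Nat.mod_two_eq_zero_or_one ρ with h0 | h0
    · obtain ⟨z, hz, hl⟩ := exists_left hA w hne
      refine ⟨z, ?_, ?_, key z hz⟩
      · rw [Function.iterate_succ_apply, hz, hw1]
      · unfold rs
        rw [hz, hw2, if_pos hl]
        omega
    · obtain ⟨z, hz, hl⟩ := exists_right hA w hne
      refine ⟨z, ?_, ?_, key z hz⟩
      · rw [Function.iterate_succ_apply, hz, hw1]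
      · unfold rs
        rw [hz, hw2, if_neg hl]
        omega

/-- A left child of an origin is an origin. -/
theorem org_of_left (hA : A.Ax c0) (y z : A.T) (hz : A.Org z) (h : A.p y = z) (hy : A.Lf y) :
    A.Org y := by
  rw [org_iff hA]
  refine hA.child_inj _ _ (hA.Lf_org _ (hA.h_org y)) hy ?_
  rw [← hA.h_p, h, hA.org_h z hz]

theorem level_of_rel (hA : A.Ax c0) (y z : A.T) (a b k l : ℕ)
    (h : A.S^[k] (A.p^[a] y) = A.S^[l] (A.p^[b] z)) : A.p^[a] (A.h y) = A.p^[b] (A.h z) := by
  have h1 := congrArg A.h h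
  rwa [h_S_iter hA, h_S_iter hA, h_p_iter hA, h_p_iter hA] at h1

/-- `level_of_rel` and `p_iter_org_inj` give `a = b`, then `S_iter_inj`. -/
theorem rel_self (hA : A.Ax c0) (y : A.T) (a b k l : ℕ) :
    A.S^[k] (A.p^[a] y) = A.S^[l] (A.p^[b] y) ↔ a = b ∧ k = l := by
  constructor
  · intro h
    have h1 := level_of_rel hA y y a b k l h
    have h2 := (p_iter_org_inj hA _ (hA.h_org y) a b).1 h1
    subst h2
    exact ⟨rfl, (S_iter_inj hA _ k l).1 h⟩
  · rintro ⟨rfl, rfl⟩
    rfl

/-- Going up: a relation between `p^a y` and `p^b z` gives one between `p^(a+j) y` and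
`p^(b+j) z` (`p_iter_S_iter`), and conversely if the residues match. -/
theorem rel_up (hA : A.Ax c0) (y z : A.T) (k l j : ℕ) :
    A.S^[k] y = A.S^[l] z ↔
      A.S^[(k + A.rs j y) / 2 ^ j] (A.p^[j] y) = A.S^[(l + A.rs j z) / 2 ^ j] (A.p^[j] z) ∧
      (k + A.rs j y) % 2 ^ j = (l + A.rs j z) % 2 ^ j := by
  rw [← p_iter_S_iter hA, ← p_iter_S_iter hA, ← rs_S_iter hA, ← rs_S_iter hA]
  constructor
  · intro h
    rw [h]
    exact ⟨rfl, rfl⟩
  · rintro ⟨h1, h2⟩
    exact eq_of_p_iter hA j _ _ h1 h2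

end Pool.Agent.LIN.Tower
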