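import Pool.Agent.LIN.TA4

/-! # [LIN-TA5] block C: the predicate `Ev` (powers of two) -/

namespace Pool.Agent.LIN.Tower

variable {m : Mach} {A : Tower m} {c0 : m.Config}

/-- Strong induction on `n` for all origins `y`: for `n` even use `Ev_even`, `p_S_iter` and the
origin `p y`; for `n` odd `Ev_odd` gives `S^n y = S z` with an origin `z`, so `n = 1`. -/
theorem Ev_pow (hA : A.Ax c0) (y : A.T) (hy : A.Org y) (n : ℕ) :
    A.Ev (A.S^[n] y) ↔ ∃ k, n = 2 ^ k := by
  induction n using Nat.strong_induction_on generalizing y with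
  | _ n ih =>
    rcases Nat.eq_zero_or_pos n with h0 | h0
    · subst h0
      constructor
      · intro h
        exact absurd h (hA.Ev_org y hy)
      · rintro ⟨k, hk⟩
        have := Nat.two_pow_pos k
        omega
    · rcases Nat.even_or_odd' n with ⟨n', hn | hn⟩
      · subst hn
        have hl : A.Lf (A.S^[2 * n'] y) := by
          rw [Lf_S_iter hA]
          exact ⟨fun _ => hA.Lf_org y hy, fun _ => by omega⟩
        rw [hA.Ev_even _ hl, TA1_p_iter hA, ih n' (by omega) (A.p y) (TA3_org_p hA y hy)]
        constructor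
        · rintro ⟨k, hk⟩
          exact ⟨k + 1, by rw [hk, pow_succ]; ring⟩
        · rintro ⟨k, hk⟩
          cases k with
          | zero => omega
          | succ k =>
            refine ⟨k, ?_⟩
            rw [pow_succ] at hk
            omega
      · have hl : ¬ A.Lf (A.S^[n] y) := by
          rw [Lf_S_iter hA]
          intro h
          have := h.2 (hA.Lf_org y hy)
          omega
        constructor
        · intro h
          obtain ⟨z, hz, hzz⟩ := hA.Ev_odd _ hl h
          subst hn
          rw [Function.iterate_succ_apply'] at hzz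
          have h1 := hA.S_inj hzz
          rcases Nat.eq_zero_or_pos n' with h2 | h2
          · exact ⟨0, by rw [h2]; rfl⟩
          · obtain ⟨c, hc⟩ : ∃ c, 2 * n' = c + 1 := ⟨2 * n' - 1, by omega⟩
            rw [hc, Function.iterate_succ_apply'] at h1
            exact absurd h1 (hz _)
        · rintro ⟨k, hk⟩
          cases k with
          | zero =>
            rw [pow_zero] at hk
            rw [hk]
            exact hA.Ev_one y hy
          | succ k =>
            rw [pow_succ] at hk
            omega

/-- Two elements of `Ev` at distance `k >= 1`: the first one is among the elements number `<= k`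
of its row. Strong induction on `k`: if `y` is not `Lf`, `y = S z`, `z` an origin, `n = 1`.
If `Lf y` and `k` is odd: `S^k y` is not `Lf`, so `S^k y = S z` with `z` an origin, `S^(k-1) y = z`,
hence `k = 1` and `y = z` is an origin, contradiction with `Ev_org`. If `k = 2 k'`: apply the
induction hypothesis to `p y`: `p y = S^n' (h (p y)) = S^n' (p (h y)) = p (S^(2 n') (h y))`, both
`Lf`, so `y = S^(2 n') (h y)`. -/
theorem Ev_pair (hA : A.Ax c0) (y : A.T) (k : ℕ) (hk : 1 ≤ k) (h1 : A.Ev y)
    (h2 : A.Ev (A.S^[k] y)) : ∃ n ≤ k, y = A.S^[n] (A.h y) := by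
  induction k using Nat.strong_induction_on generalizing y with
  | _ k ih =>
    by_cases hl : A.Lf y
    · rcases Nat.even_or_odd' k with ⟨k', hk' | hk'⟩
      · subst hk'
        have hl2 : A.Lf (A.S^[2 * k'] y) := by
          rw [Lf_S_iter hA]
          exact ⟨fun _ => hl, fun _ => by omega⟩
        rw [hA.Ev_even _ hl2, TA1_p_iter hA] at h2
        obtain ⟨n, hn, hy⟩ := ih k' (by omega) (A.p y) (by omega) ((hA.Ev_even y hl).1 h1) h2
        refine ⟨2 * n, by omega, ?_⟩
        rw [hA.h_p, ← TA1_p_iter hA] at hy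
        refine hA.child_inj _ _ hl ?_ hy
        rw [Lf_S_iter hA]
        exact ⟨fun _ => hA.Lf_org _ (hA.h_org y), fun _ => by omega⟩
      · exfalso
        have hl2 : ¬ A.Lf (A.S^[k] y) := by
          rw [Lf_S_iter hA]
          intro h
          have := h.2 hl
          omega
        obtain ⟨z, hz, hzz⟩ := hA.Ev_odd _ hl2 h2
        subst hk'
        rw [Function.iterate_succ_apply'] at hzz
        have h3 := hA.S_inj hzz
        rcases Nat.eq_zero_or_pos k' with h4 | h4
        · subst h4
          have h5 : y = z := h3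
          rw [← h5] at hz
          exact hA.Ev_org y hz h1
        · obtain ⟨c, hc⟩ : ∃ c, 2 * k' = c + 1 := ⟨2 * k' - 1, by omega⟩
          rw [hc, Function.iterate_succ_apply'] at h3
          exact absurd h3 (hz _)
    · obtain ⟨z, hz, hzz⟩ := hA.Ev_odd _ hl h1
      refine ⟨1, hk, ?_⟩
      subst hzz
      rw [hA.h_S, hA.org_h z hz]
      rfl

/-- If the residue of `d` modulo `2^a` is zero, `Ev d` iff `Ev (p^a d)` (`Ev_even` iterated). -/
theorem Ev_up (hA : A.Ax c0) (a : ℕ) (d : A.T) (hd : A.rs a d = 0) :
    A.Ev (A.p^[a] d) ↔ A.Ev d := by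
  induction a generalizing d with
  | zero => exact Iff.rfl
  | succ a ih =>
    unfold rs at hd
    have hl : A.Lf d := by
      by_contra h
      rw [if_neg h] at hd
      omega
    rw [if_pos hl] at hd
    rw [Function.iterate_succ_apply, ih _ (by omega), ← hA.Ev_even d hl]

/-- An element of `Ev` that is not among the elements number `< 2^a` of its row has residue zero
modulo `2^a`. Induction on `a`. -/
theorem Ev_rs (hA : A.Ax c0) (a : ℕ) (d : A.T) (hd : A.Ev d)
    (hf : ∀ n < 2 ^ a, d ≠ A.S^[n] (A.h d)) : A.rs a d = 0 := by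
  induction a generalizing d with
  | zero => rfl
  | succ a ih =>
    have h2a : 0 < 2 ^ a := Nat.two_pow_pos a
    have hl : A.Lf d := by
      by_contra h
      obtain ⟨z, hz, hzz⟩ := hA.Ev_odd _ h hd
      refine hf 1 (by rw [pow_succ]; omega) ?_
      subst hzz
      rw [hA.h_S, hA.org_h z hz]
      rfl
    unfold rs
    rw [if_pos hl, ih (A.p d) ((hA.Ev_even d hl).1 hd) ?_]
    intro n hn h
    refine hf (2 * n) (by rw [pow_succ]; omega) ?_
    rw [hA.h_p, ← TA1_p_iter hA] at h
    refine hA.child_inj _ _ hl ?_ h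
    rw [Lf_S_iter hA]
    exact ⟨fun _ => hA.Lf_org _ (hA.h_org d), fun _ => by omega⟩

/-- Elements of `Ev` on the higher levels, seen from the level of `y`: if `y` is not among the first
elements of its row, then `S^k (p^a y)` is in `Ev` iff the element at (signed) distance
`k 2^a - rs a y` from `y` is. Stated for the distance written as `S^i y = S^j d`,
`i - j = k 2^a - rs a y`. Proof: `d` has residue `0` modulo `2^a` and `p^a d = S^k (p^a y)`:
both from `rel_up`/`p_iter_S_iter`/`rs_S_iter`; then `Ev_up`. -/
theorem Ev_shift (hA : A.Ax c0) (a : ℕ) (y d : A.T) (k i j : ℕ)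
    (hd : A.S^[i] y = A.S^[j] d) (hij : i + A.rs a y = j + k * 2 ^ a) :
    A.Ev (A.S^[k] (A.p^[a] y)) ↔ A.Ev d := by
  obtain ⟨h1, h2⟩ := (rel_up hA y d i j a).1 hd
  have h2a : 0 < 2 ^ a := Nat.two_pow_pos a
  have hlt := rs_lt A a d
  have h3 : A.rs a d = 0 := by
    rw [hij, Nat.add_mul_mod_self_right] at h2
    have h4 : (j + 0) ≡ (j + A.rs a d) [MOD 2 ^ a] := h2
    have h5 := Nat.ModEq.add_left_cancel' j h4
    have h6 : 0 % 2 ^ a = A.rs a d % 2 ^ a := h5
    rw [Nat.zero_mod, Nat.mod_eq_of_lt hlt] at h6
    exact h6.symm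
  rw [h3, hij, Nat.add_mul_div_right _ _ h2a, Nat.add_zero, Function.iterate_add_apply] at h1
  rw [(S_iter_cancel hA _ _ _).1 h1]
  exact Ev_up hA a d h3

end Pool.Agent.LIN.Tower
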