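import Pool.Agent.LIN.TW1

/-! # [LIN-TB1] block C: rows: next and previous element -/

namespace Pool.Agent.LIN.Tower

variable {m : Mach} {A : Tower m} {c0 : m.Config}

/-- `flt_row`. -/
theorem Nx_row (hA : A.Ax c0) (b c : A.F) (h : A.Nx b c) : A.pi c = A.pi b ∧ A.ix c = A.ix b := by
  obtain ⟨h1, h2⟩ := hA.flt_row b c h.1
  exact ⟨h1.symm, h2.symm⟩

/-- Two next elements: each is equal to or below the other one. -/
theorem Nx_unique (hA : A.Ax c0) (b c c' : A.F) (h : A.Nx b c) (h' : A.Nx b c') : c = c' := by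
  rcases h.2 c' h'.1 with h1 | h1
  · exact h1.symm
  · rcases h'.2 c h.1 with h2 | h2
    · exact h2
    · exact absurd (hA.flt_trans c c' c h1 h2) (hA.flt_irrefl c)

theorem TB1_not_flt (hA : A.Ax c0) (b b' c : A.F) (h : A.Nx b c) (h' : A.Nx b' c) :
    ¬ A.flt b b' := by
  intro hb
  rcases h.2 b' hb with h1 | h1
  · subst h1
    exact hA.flt_irrefl _ h'.1
  · exact hA.flt_irrefl c (hA.flt_trans c b' c h1 h'.1)

/-- If `b` is below `b'` then `b' = c` or `c` is below `b'`, but `b'` is below `c`. -/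
theorem Nx_inj (hA : A.Ax c0) (b b' c : A.F) (h : A.Nx b c) (h' : A.Nx b' c) : b = b' := by
  obtain ⟨h1, h2⟩ := hA.flt_row b c h.1
  obtain ⟨h3, h4⟩ := hA.flt_row b' c h'.1
  rcases hA.flt_total b b' (h1.trans h3.symm) (h2.trans h4.symm) with h5 | h5 | h5
  · exact h5
  · exact absurd h5 (TB1_not_flt hA b b' c h h')
  · exact absurd h5 (TB1_not_flt hA b' b c h' h)

theorem Nx_nxt (hA : A.Ax c0) (b : A.F) : A.Nx b (A.nxt b) := by
  unfold nxt
  rw [dif_pos (hA.row_next b)]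
  exact (hA.row_next b).choose_spec

theorem Nx_iff (hA : A.Ax c0) (b c : A.F) : A.Nx b c ↔ c = A.nxt b := by
  constructor
  · intro h
    exact Nx_unique hA b c _ h (Nx_nxt hA b)
  · rintro rfl
    exact Nx_nxt hA b

theorem nxt_inj (hA : A.Ax c0) : Function.Injective A.nxt := by
  intro b b' h
  have h1 := Nx_nxt hA b
  rw [h] at h1
  exact Nx_inj hA b b' _ h1 (Nx_nxt hA b')

theorem pi_nxt (hA : A.Ax c0) (b : A.F) : A.pi (A.nxt b) = A.pi b := by
  exact (Nx_row hA b _ (Nx_nxt hA b)).1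

theorem ix_nxt (hA : A.Ax c0) (b : A.F) : A.ix (A.nxt b) = A.ix b := by
  exact (Nx_row hA b _ (Nx_nxt hA b)).2

theorem TB1_Nx_prv {b : A.F} (h : ∃ c, A.Nx c b) : A.Nx (A.prv b) b := by
  unfold prv
  rw [dif_pos h]
  exact h.choose_spec

theorem prv_nxt (hA : A.Ax c0) (b : A.F) : A.prv (A.nxt b) = b := by
  exact Nx_inj hA _ _ _ (TB1_Nx_prv ⟨b, Nx_nxt hA b⟩) (Nx_nxt hA b)

theorem nxt_prv (hA : A.Ax c0) (b : A.F) (h : ¬ A.Fst b) : A.nxt (A.prv b) = b := by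
  exact ((Nx_iff hA _ _).1 (TB1_Nx_prv (hA.row_prev b h))).symm

theorem prv_fst (b : A.F) (h : A.Fst b) : A.prv b = b := by
  unfold prv
  rw [dif_neg]
  rintro ⟨c, hc⟩
  exact h c hc.1

theorem pi_prv (hA : A.Ax c0) (b : A.F) : A.pi (A.prv b) = A.pi b := by
  by_cases h : A.Fst b
  · rw [prv_fst b h]
  · exact (Nx_row hA _ _ (TB1_Nx_prv (hA.row_prev b h))).1.symm

theorem ix_prv (hA : A.Ax c0) (b : A.F) : A.ix (A.prv b) = A.ix b := by
  by_cases h : A.Fst b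
  · rw [prv_fst b h]
  · exact (Nx_row hA _ _ (TB1_Nx_prv (hA.row_prev b h))).2.symm

theorem not_fst_nxt (hA : A.Ax c0) (b : A.F) : ¬ A.Fst (A.nxt b) := by
  exact fun h => h b (Nx_nxt hA b).1

end Pool.Agent.LIN.Tower
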