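import Pool.Agent.LIN.TB1

/-! # [LIN-TB2] block C: rows: iterates of the next element, order -/

namespace Pool.Agent.LIN.Tower

variable {m : Mach} {A : Tower m} {c0 : m.Config}

theorem pi_nxt_iter (hA : A.Ax c0) (n : ℕ) (b : A.F) : A.pi (A.nxt^[n] b) = A.pi b := by
  induction n with
  | zero => rfl
  | succ n ih => rw [Function.iterate_succ_apply', pi_nxt hA, ih]

theorem ix_nxt_iter (hA : A.Ax c0) (n : ℕ) (b : A.F) : A.ix (A.nxt^[n] b) = A.ix b := by
  induction n with
  | zero => rfl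
  | succ n ih => rw [Function.iterate_succ_apply', ix_nxt hA, ih]

theorem TB2_lt (hA : A.Ax c0) (b : A.F) : A.flt b (A.nxt b) := (Nx_nxt hA b).1

theorem TB2_succ (hA : A.Ax c0) (b c : A.F) (h : A.flt b c) : c = A.nxt b ∨ A.flt (A.nxt b) c :=
  (Nx_nxt hA b).2 c h

theorem TB2_flt_nxt_of (hA : A.Ax c0) (b c : A.F) (h : A.flt b c) :
    A.flt (A.nxt b) (A.nxt c) := by
  rcases TB2_succ hA b c h with h1 | h1
  · rw [← h1]
    exact TB2_lt hA c
  · exact hA.flt_trans _ _ _ h1 (TB2_lt hA c)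

theorem TB2_flt_nxt (hA : A.Ax c0) (b c : A.F) :
    A.flt (A.nxt b) (A.nxt c) ↔ A.flt b c := by
  constructor
  · intro h
    have h1 := hA.flt_row _ _ h
    rw [pi_nxt hA, pi_nxt hA, ix_nxt hA, ix_nxt hA] at h1
    rcases hA.flt_total b c h1.1 h1.2 with h2 | h2 | h2
    · rw [h2] at h
      exact absurd h (hA.flt_irrefl _)
    · exact h2
    · exact absurd (hA.flt_trans _ _ _ h (TB2_flt_nxt_of hA c b h2)) (hA.flt_irrefl _)
  · exact TB2_flt_nxt_of hA b c

theorem flt_nxt_nxt (hA : A.Ax c0) (b c : A.F) (k : ℕ) :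
    A.flt (A.nxt^[k] b) (A.nxt^[k] c) ↔ A.flt b c := by
  induction k with
  | zero => exact Iff.rfl
  | succ k ih =>
    rw [Function.iterate_succ_apply', Function.iterate_succ_apply', TB2_flt_nxt hA, ih]

theorem TB2_flt_add (hA : A.Ax c0) (b : A.F) (a e : ℕ) :
    A.flt (A.nxt^[a] b) (A.nxt^[a + 1 + e] b) := by
  induction e with
  | zero =>
    show A.flt (A.nxt^[a] b) (A.nxt^[a + 1] b)
    rw [Function.iterate_succ_apply']
    exact TB2_lt hA _
  | succ e ih =>
    show A.flt (A.nxt^[a] b) (A.nxt^[a + 1 + e + 1] b)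
    rw [Function.iterate_succ_apply' _ (a + 1 + e)]
    exact hA.flt_trans _ _ _ ih (TB2_lt hA _)

theorem TB2_flt_of (hA : A.Ax c0) (b : A.F) {a c : ℕ} (h : a < c) :
    A.flt (A.nxt^[a] b) (A.nxt^[c] b) := by
  obtain ⟨e, rfl⟩ := Nat.exists_eq_add_of_lt h
  have h1 : a + e + 1 = a + 1 + e := by omega
  rw [h1]
  exact TB2_flt_add hA b a e

theorem flt_nxt_iter (hA : A.Ax c0) (b : A.F) (a c : ℕ) :
    A.flt (A.nxt^[a] b) (A.nxt^[c] b) ↔ a < c := by
  constructor
  · intro h
    by_contra hn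
    rcases Nat.eq_or_lt_of_le (Nat.le_of_not_lt hn) with h1 | h1
    · rw [h1] at h
      exact hA.flt_irrefl _ h
    · exact hA.flt_irrefl _ (hA.flt_trans _ _ _ h (TB2_flt_of hA b h1))
  · exact TB2_flt_of hA b

theorem nxt_iter_inj (hA : A.Ax c0) (b : A.F) (a c : ℕ) :
    A.nxt^[a] b = A.nxt^[c] b ↔ a = c := by
  constructor
  · intro h
    by_contra hne
    rcases Nat.lt_or_gt_of_ne hne with h1 | h1
    · have h2 := TB2_flt_of hA b h1
      rw [h] at h2
      exact hA.flt_irrefl _ h2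
    · have h2 := TB2_flt_of hA b h1
      rw [h] at h2
      exact hA.flt_irrefl _ h2
  · rintro rfl
    rfl

theorem nxt_iter_cancel (hA : A.Ax c0) (b c : A.F) (k : ℕ) :
    A.nxt^[k] b = A.nxt^[k] c ↔ b = c :=
  ((nxt_inj hA).iterate k).eq_iff

theorem fst_unique (hA : A.Ax c0) (b c : A.F) (hb : A.Fst b) (hc : A.Fst c)
    (hpi : A.pi b = A.pi c) (hix : A.ix b = A.ix c) : b = c := by
  rcases hA.flt_total b c hpi hix with h | h | h
  · exact h
  · exact absurd h (hc b)
  · exact absurd h (hb c)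

theorem fst_lt (hA : A.Ax c0) (b c : A.F) (hb : A.Fst b)
    (hpi : A.pi b = A.pi c) (hix : A.ix b = A.ix c) : c = b ∨ A.flt b c := by
  rcases hA.flt_total b c hpi hix with h | h | h
  · exact Or.inl h.symm
  · exact Or.inr h
  · exact absurd h (hb c)

/-- Induction on `g`: `b < z` and `nxt b <> z` give `nxt b < z`. -/
theorem flt_iter_left (hA : A.Ax c0) (b z : A.F) (g : ℕ) (h : ∀ j ≤ g, A.nxt^[j] b ≠ z) :
    A.flt (A.nxt^[g] b) z ↔ A.flt b z := by
  induction g with
  | zero => exact Iff.rfl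
  | succ g ih =>
    rw [← ih fun j hj => h j (by omega), Function.iterate_succ_apply']
    have h1 := h (g + 1) le_rfl
    rw [Function.iterate_succ_apply'] at h1
    constructor
    · intro h2
      exact hA.flt_trans _ _ _ (TB2_lt hA _) h2
    · intro h2
      rcases TB2_succ hA _ _ h2 with h3 | h3
      · exact absurd h3.symm h1
      · exact h3

/-- From `flt_iter_left` and totality. -/
theorem flt_iter_right (hA : A.Ax c0) (b z : A.F) (g : ℕ) (h : ∀ j ≤ g, A.nxt^[j] b ≠ z) :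
    A.flt z (A.nxt^[g] b) ↔ A.flt z b := by
  induction g with
  | zero => exact Iff.rfl
  | succ g ih =>
    rw [← ih fun j hj => h j (by omega), Function.iterate_succ_apply']
    have h1 := h (g + 1) le_rfl
    rw [Function.iterate_succ_apply'] at h1
    have h0 := h g (by omega)
    constructor
    · intro h2
      have h3 := hA.flt_row _ _ h2
      rw [pi_nxt hA, ix_nxt hA] at h3
      rcases hA.flt_total _ _ h3.1 h3.2 with h4 | h4 | h4
      · exact absurd h4.symm h0
      · exact h4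
      · rcases TB2_succ hA _ _ h4 with h5 | h5
        · exact absurd h5.symm h1
        · exact absurd (hA.flt_trans _ _ _ h2 h5) (hA.flt_irrefl _)
    · intro h2
      exact hA.flt_trans _ _ _ h2 (TB2_lt hA _)

/-- Either `b` has `g` predecessors in its row, or it is close to the first element. -/
theorem exists_prv_iter (hA : A.Ax c0) (b : A.F) (g : ℕ) :
    (∃ c, A.nxt^[g] c = b) ∨ ∃ j < g, ∃ a, A.Fst a ∧ A.nxt^[j] a = b := by
  induction g with
  | zero => exact Or.inl ⟨b, rfl⟩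
  | succ g ih =>
    rcases ih with ⟨c, hc⟩ | ⟨j, hj, a, ha⟩
    · by_cases hf : A.Fst c
      · exact Or.inr ⟨g, by omega, c, hf, hc⟩
      · refine Or.inl ⟨A.prv c, ?_⟩
        rw [Function.iterate_succ_apply, nxt_prv hA c hf, hc]
    · exact Or.inr ⟨j, by omega, a, ha⟩

theorem At_iff (hA : A.Ax c0) (n : ℕ) (b : A.F) :
    A.At n b ↔ ∃ a, A.Fst a ∧ A.nxt^[n] a = b := by
  induction n generalizing b with
  | zero =>
    constructor
    · intro h
      exact ⟨b, h, rfl⟩
    · rintro ⟨a, ha, rfl⟩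
      exact ha
  | succ n ih =>
    constructor
    · rintro ⟨c, hc, hn⟩
      obtain ⟨a, ha, hac⟩ := (ih c).1 hc
      refine ⟨a, ha, ?_⟩
      rw [Function.iterate_succ_apply', hac]
      exact ((Nx_iff hA c b).1 hn).symm
    · rintro ⟨a, ha, hab⟩
      rw [Function.iterate_succ_apply'] at hab
      exact ⟨A.nxt^[n] a, (ih _).2 ⟨a, ha, rfl⟩, (Nx_iff hA _ _).2 hab.symm⟩

theorem prv_iter_nxt_iter (hA : A.Ax c0) (b : A.F) (g : ℕ) : A.prv^[g] (A.nxt^[g] b) = b := by
  induction g with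
  | zero => rfl
  | succ g ih =>
    rw [Function.iterate_succ_apply' A.nxt, Function.iterate_succ_apply A.prv, prv_nxt hA, ih]

end Pool.Agent.LIN.Tower
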