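import Pool.Agent.LIN.TB2
import Pool.Agent.LIN.TA5

/-! # [LIN-TB3] block C: rows: transport `V` along the time -/

namespace Pool.Agent.LIN.Tower

variable {m : Mach} {A : Tower m} {c0 : m.Config}

theorem TB3_S_ne (hA : A.Ax c0) (y : A.T) : A.S y ≠ A.o := fun h => hA.o_org y h

theorem TB3_surj (hA : A.Ax c0) (b d : A.F) (h : A.pi d = A.pi (A.V b)) : ∃ d', A.V d' = d :=
  hA.V_surj d (by rw [h, hA.pi_V]; exact TB3_S_ne hA _)

/-- `Nx (V b) (V (nxt b))` by `flt_V` and `V_surj` (an element `d` above `V b` lies over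
`S (pi b)`, which is not `o` by `o_org`, so `d = V d'`). -/
theorem V_nxt (hA : A.Ax c0) (b : A.F) : A.V (A.nxt b) = A.nxt (A.V b) := by
  refine (Nx_iff hA (A.V b) (A.V (A.nxt b))).1 ⟨(hA.flt_V _ _).2 (Nx_nxt hA b).1, fun d hd => ?_⟩
  obtain ⟨d', rfl⟩ := TB3_surj hA b d (hA.flt_row _ _ hd).1.symm
  rcases (Nx_nxt hA b).2 d' ((hA.flt_V _ _).1 hd) with h | h
  · left
    rw [h]
  · right
    exact (hA.flt_V _ _).2 h

theorem V_nxt_iter (hA : A.Ax c0) (b : A.F) (a c : ℕ) :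
    A.V^[a] (A.nxt^[c] b) = A.nxt^[c] (A.V^[a] b) := by
  have h : Function.Commute A.V A.nxt := fun x => V_nxt hA x
  exact h.iterate_iterate a c b

theorem pi_V_iter (hA : A.Ax c0) (n : ℕ) (b : A.F) : A.pi (A.V^[n] b) = A.S^[n] (A.pi b) := by
  induction n with
  | zero => rfl
  | succ n ih => rw [Function.iterate_succ_apply', Function.iterate_succ_apply', hA.pi_V, ih]

theorem ix_V_iter (hA : A.Ax c0) (n : ℕ) (b : A.F) : A.ix (A.V^[n] b) = A.ix b := by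
  induction n with
  | zero => rfl
  | succ n ih => rw [Function.iterate_succ_apply', hA.ix_V, ih]

theorem flt_V_iter (hA : A.Ax c0) (b c : A.F) (n : ℕ) :
    A.flt (A.V^[n] b) (A.V^[n] c) ↔ A.flt b c := by
  induction n with
  | zero => exact Iff.rfl
  | succ n ih => rw [Function.iterate_succ_apply', Function.iterate_succ_apply', hA.flt_V, ih]

theorem V_iter_cancel (hA : A.Ax c0) (b c : A.F) (n : ℕ) : A.V^[n] b = A.V^[n] c ↔ b = c := by
  exact (hA.V_inj.iterate n).eq_iff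

theorem Fst_V (hA : A.Ax c0) (b : A.F) : A.Fst (A.V b) ↔ A.Fst b := by
  constructor
  · intro h c hc
    exact h _ ((hA.flt_V c b).2 hc)
  · intro h d hd
    obtain ⟨d', rfl⟩ := TB3_surj hA b d (hA.flt_row _ _ hd).1
    exact h d' ((hA.flt_V _ _).1 hd)

theorem Fst_V_iter (hA : A.Ax c0) (n : ℕ) (b : A.F) : A.Fst (A.V^[n] b) ↔ A.Fst b := by
  induction n with
  | zero => exact Iff.rfl
  | succ n ih => rw [Function.iterate_succ_apply', Fst_V hA, ih]

theorem vPre_V (hA : A.Ax c0) (b : A.F) : A.vPre (A.V b) = b := by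
  have h : ∃ c, A.V c = A.V b := ⟨b, rfl⟩
  unfold vPre
  rw [dif_pos h]
  exact hA.V_inj h.choose_spec

theorem vPre_iter_V_iter (hA : A.Ax c0) (n : ℕ) (b : A.F) : A.vPre^[n] (A.V^[n] b) = b := by
  have h : Function.LeftInverse A.vPre A.V := fun b => vPre_V hA b
  exact h.iterate n b

theorem V_vPre (hA : A.Ax c0) (b : A.F) (h : A.pi b ≠ A.o) : A.V (A.vPre b) = b := by
  have h' := hA.V_surj b h
  unfold vPre
  rw [dif_pos h']
  exact h'.choose_spec

/-- `pi (V c) = S (pi c)` is not `o`. -/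
theorem vPre_o (hA : A.Ax c0) (b : A.F) (h : A.pi b = A.o) : A.vPre b = b := by
  unfold vPre
  rw [dif_neg]
  rintro ⟨c, rfl⟩
  rw [hA.pi_V] at h
  exact TB3_S_ne hA _ h

theorem ix_vPre (hA : A.Ax c0) (b : A.F) : A.ix (A.vPre b) = A.ix b := by
  by_cases h : A.pi b = A.o
  · rw [vPre_o hA b h]
  · have h1 := hA.ix_V (A.vPre b)
    rw [V_vPre hA b h] at h1
    exact h1.symm

theorem exists_V_iter (hA : A.Ax c0) (b : A.F) (x : A.T) (n : ℕ) (h : A.pi b = A.S^[n] x) :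
    ∃ c, A.V^[n] c = b ∧ A.pi c = x ∧ A.ix c = A.ix b := by
  induction n generalizing b with
  | zero => exact ⟨b, rfl, h, rfl⟩
  | succ n ih =>
    rw [Function.iterate_succ_apply'] at h
    obtain ⟨b', rfl⟩ := hA.V_surj b (by rw [h]; exact TB3_S_ne hA _)
    rw [hA.pi_V] at h
    obtain ⟨c, hc1, hc2, hc3⟩ := ih b' (hA.S_inj h)
    refine ⟨c, ?_, hc2, ?_⟩
    · rw [Function.iterate_succ_apply', hc1]
    · rw [hA.ix_V, hc3]

theorem TB3_pi (hA : A.Ax c0) (b : A.F) (n g : ℕ) :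
    A.pi (A.V^[n] (A.nxt^[g] b)) = A.S^[n] (A.pi b) := by
  rw [pi_V_iter hA, pi_nxt_iter hA]

/-- Positions in the rows over one component: the time is determined by `pi`. -/
theorem V_nxt_eq_iff (hA : A.Ax c0) (b c : A.F) (hpi : A.pi b = A.pi c) (n n' g g' : ℕ) :
    A.V^[n] (A.nxt^[g] b) = A.V^[n'] (A.nxt^[g'] c) ↔ n = n' ∧ A.nxt^[g] b = A.nxt^[g'] c := by
  constructor
  · intro h
    have h1 := congrArg A.pi h
    rw [TB3_pi hA, TB3_pi hA, ← hpi, S_iter_inj hA] at h1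
    subst h1
    exact ⟨rfl, (V_iter_cancel hA _ _ n).1 h⟩
  · rintro ⟨rfl, h⟩
    rw [h]

theorem V_nxt_flt_iff (hA : A.Ax c0) (b c : A.F) (hpi : A.pi b = A.pi c) (n n' g g' : ℕ) :
    A.flt (A.V^[n] (A.nxt^[g] b)) (A.V^[n'] (A.nxt^[g'] c)) ↔
      n = n' ∧ A.flt (A.nxt^[g] b) (A.nxt^[g'] c) := by
  constructor
  · intro h
    have h1 := (hA.flt_row _ _ h).1
    rw [TB3_pi hA, TB3_pi hA, ← hpi, S_iter_inj hA] at h1
    subst h1
    exact ⟨rfl, (flt_V_iter hA _ _ n).1 h⟩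
  · rintro ⟨rfl, h⟩
    exact (flt_V_iter hA _ _ n).2 h

end Pool.Agent.LIN.Tower
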