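import Pool.Agent.LIN.TW1
import Pool.Agent.LIN.TA5

/-! # [LIN-TB4] block C: predecessor and left child as total functions -/

namespace Pool.Agent.LIN.Tower

variable {m : Mach} {A : Tower m} {c0 : m.Config}

theorem sPre_S (hA : A.Ax c0) (y : A.T) : A.sPre (A.S y) = y := by
  have h : ∃ z, A.S z = A.S y := ⟨y, rfl⟩
  unfold sPre
  rw [dif_pos h]
  exact hA.S_inj h.choose_spec

theorem sPre_iter_S_iter (hA : A.Ax c0) (n : ℕ) (y : A.T) : A.sPre^[n] (A.S^[n] y) = y := by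
  induction n with
  | zero => rfl
  | succ n ih =>
    rw [Function.iterate_succ_apply' A.S, Function.iterate_succ_apply A.sPre, sPre_S hA, ih]

theorem S_sPre (y : A.T) (h : ¬ A.Org y) : A.S (A.sPre y) = y := by
  have h1 := exists_pred (A := A) y h
  unfold sPre
  rw [dif_pos h1]
  exact h1.choose_spec

theorem sPre_org (y : A.T) (h : A.Org y) : A.sPre y = y := by
  unfold sPre
  rw [dif_neg]
  rintro ⟨z, hz⟩
  exact h z hz

theorem h_sPre (hA : A.Ax c0) (y : A.T) : A.h (A.sPre y) = A.h y := by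
  by_cases h : A.Org y
  · rw [sPre_org y h]
  · rw [← hA.h_S, S_sPre y h]

/-- A time has no child (`h_p_ne_o`). -/
theorem lft_tm (hA : A.Ax c0) (y : A.T) (h : A.Tm y) : A.lft y = y := by
  unfold lft
  rw [dif_neg]
  rintro ⟨z, _, hz⟩
  apply h_p_ne_o hA z
  rw [hz]
  exact h

theorem p_lft (hA : A.Ax c0) (y : A.T) (h : ¬ A.Tm y) : A.p (A.lft y) = y := by
  have h1 := hA.child y h
  unfold lft
  rw [dif_pos h1]
  exact h1.choose_spec.2

theorem Lf_lft (hA : A.Ax c0) (y : A.T) (h : ¬ A.Tm y) : A.Lf (A.lft y) := by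
  have h1 := hA.child y h
  unfold lft
  rw [dif_pos h1]
  exact h1.choose_spec.1

theorem TB4_rs_lf (y : A.T) (h : A.Lf y) : A.rs 1 y = 0 := by
  unfold rs
  rw [if_pos h]
  rfl

theorem TB4_rs_nlf (y : A.T) (h : ¬ A.Lf y) : A.rs 1 y = 1 := by
  unfold rs
  rw [if_neg h]
  rfl

theorem TB4_ntm (hA : A.Ax c0) (y : A.T) : ¬ A.Tm (A.p y) := h_p_ne_o hA y

theorem TB4_lft_eq (hA : A.Ax c0) (y z : A.T) (h : ¬ A.Tm y) (hz : A.Lf z) (hp : A.p z = y) :
    A.lft y = z :=
  hA.child_inj _ _ (Lf_lft hA y h) hz (by rw [p_lft hA y h, hp])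

theorem TB4_even (hA : A.Ax c0) (z : A.T) (hz : A.Lf z) (r : ℕ) :
    A.Lf (A.S^[2 * r] z) ∧ A.p (A.S^[2 * r] z) = A.S^[r] (A.p z) := by
  constructor
  · rw [Lf_S_iter hA]
    exact ⟨fun _ => hz, fun _ => by omega⟩
  · rw [p_S_iter hA, TB4_rs_lf z hz]
    congr 1
    omega

theorem lft_p (hA : A.Ax c0) (y : A.T) : A.S^[A.rs 1 y] (A.lft (A.p y)) = y := by
  by_cases hl : A.Lf y
  · rw [TB4_rs_lf y hl]
    exact TB4_lft_eq hA _ _ (TB4_ntm hA y) hl rfl
  · rw [TB4_rs_nlf y hl]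
    obtain ⟨y', rfl⟩ := exists_pred (A := A) y fun h => hl (hA.Lf_org y h)
    have hy' : A.Lf y' := by
      by_contra h
      exact hl ((hA.Lf_S y').2 h)
    rw [TB4_lft_eq hA _ _ (TB4_ntm hA _) hy' (hA.p_even _ hy').symm]
    rfl

/-- `p (S^(2 j - rs 1 y) y) = S^j (p y)` by `p_S_iter`, and this element is a left child by
`Lf_S_iter`; then `child_inj`. -/
theorem lft_S_iter_p (hA : A.Ax c0) (y : A.T) (j : ℕ) (h : A.rs 1 y ≤ 2 * j) :
    A.lft (A.S^[j] (A.p y)) = A.S^[2 * j - A.rs 1 y] y := by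
  apply TB4_lft_eq hA
  · show ¬ (A.h (A.S^[j] (A.p y)) = A.o)
    rw [h_S_iter hA]
    exact h_p_ne_o hA y
  · rw [Lf_S_iter hA]
    by_cases hl : A.Lf y
    · rw [TB4_rs_lf y hl]
      exact ⟨fun _ => hl, fun _ => by omega⟩
    · rw [TB4_rs_nlf y hl] at h ⊢
      exact ⟨fun h1 => by omega, fun h1 => absurd h1 hl⟩
  · rw [p_S_iter hA]
    have h1 : (2 * j - A.rs 1 y + A.rs 1 y) / 2 = j := by omega
    rw [h1]

theorem TB4_tm_o (hA : A.Ax c0) : A.Tm A.o := hA.org_h _ hA.o_org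

/-- For times both sides are `o`. Otherwise `h (lft y)` is an origin (so a left child) with
`p (h (lft y)) = h (p (lft y)) = h y`. -/
theorem h_lft (hA : A.Ax c0) (y : A.T) : A.h (A.lft y) = A.lft (A.h y) := by
  by_cases h : A.Tm y
  · have h1 : A.h y = A.o := h
    rw [lft_tm hA y h, h1, lft_tm hA _ (TB4_tm_o hA)]
  · symm
    apply TB4_lft_eq hA
    · show ¬ (A.h (A.h y) = A.o)
      rw [h_h hA]
      exact h
    · exact hA.Lf_org _ (hA.h_org _)
    · rw [← hA.h_p, p_lft hA y h]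

/-- Origins: the left child of an origin that is not `o` is an origin. -/
theorem org_lft (hA : A.Ax c0) (y : A.T) (hy : A.Org y) : A.Org (A.lft y) := by
  rw [org_iff hA, h_lft hA, hA.org_h y hy]

theorem lft_p_org (hA : A.Ax c0) (y : A.T) (hy : A.Org y) : A.lft (A.p y) = y :=
  TB4_lft_eq hA _ _ (TB4_ntm hA y) (hA.Lf_org y hy) rfl

theorem lft_iter_p_iter_org (hA : A.Ax c0) (a : ℕ) (y : A.T) (hy : A.Org y) :
    A.lft^[a] (A.p^[a] y) = y := by
  induction a with
  | zero => rfl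
  | succ a ih =>
    rw [Function.iterate_succ_apply' A.p, Function.iterate_succ_apply A.lft,
      lft_p_org hA _ (org_p_iter hA a y hy), ih]

/-- `lft^a (p^a y) = S^(- rs a y) y`: induction on `a` from `lft_S_iter_p`; stated as
`S^(rs a y) (lft^a (p^a y)) = y`. -/
theorem lft_iter_p_iter (hA : A.Ax c0) (a : ℕ) (y : A.T) :
    A.S^[A.rs a y] (A.lft^[a] (A.p^[a] y)) = y := by
  induction a generalizing y with
  | zero => rfl
  | succ a ih =>
    have h1 : A.rs (a + 1) y = A.rs 1 y + 2 * A.rs a (A.p y) := by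
      by_cases hl : A.Lf y
      · rw [TB4_rs_lf y hl]
        conv_lhs => unfold rs
        rw [if_pos hl]
      · rw [TB4_rs_nlf y hl]
        conv_lhs => unfold rs
        rw [if_neg hl]
    rw [h1, Function.iterate_succ_apply A.p, Function.iterate_succ_apply' A.lft,
      Function.iterate_add_apply]
    have h2 := ih (A.p y)
    have h3 : ¬ A.Tm (A.lft^[a] (A.p^[a] (A.p y))) := by
      intro h
      apply h_p_ne_o hA y
      have h4 : A.h (A.lft^[a] (A.p^[a] (A.p y))) = A.o := h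
      rw [← h_S_iter hA (A.rs a (A.p y)), h2] at h4
      exact h4
    have h5 := TB4_even hA _ (Lf_lft hA _ h3) (A.rs a (A.p y))
    rw [p_lft hA _ h3, h2] at h5
    rw [← TB4_lft_eq hA _ _ (TB4_ntm hA y) h5.1 h5.2]
    exact lft_p hA y

/-- Either `y` has `a` iterated left children or its level is close to `o`. -/
theorem p_iter_lft_iter (hA : A.Ax c0) (a : ℕ) (y : A.T) (h : ∀ j < a, A.h y ≠ A.p^[j] A.o) :
    A.p^[a] (A.lft^[a] y) = y ∧ A.rs a (A.lft^[a] y) = 0 ∧
      A.p^[a] (A.h (A.lft^[a] y)) = A.h y := by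
  induction a with
  | zero => exact ⟨rfl, rfl, rfl⟩
  | succ a ih =>
    obtain ⟨h1, h2, h3⟩ := ih fun j hj => h j (by omega)
    have h4 : ¬ A.Tm (A.lft^[a] y) := by
      intro h5
      have h6 : A.h (A.lft^[a] y) = A.o := h5
      rw [h6] at h3
      exact h a (by omega) h3.symm
    have h5 : A.p^[a + 1] (A.lft^[a + 1] y) = y := by
      rw [Function.iterate_succ_apply' A.lft, Function.iterate_succ_apply A.p, p_lft hA _ h4, h1]
    refine ⟨h5, ?_, ?_⟩
    · rw [Function.iterate_succ_apply' A.lft]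
      unfold rs
      rw [if_pos (Lf_lft hA _ h4), p_lft hA _ h4, h2]
    · rw [← h_p_iter hA, h5]

end Pool.Agent.LIN.Tower
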