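import Pool.Agent.LIN.TB1
import Pool.Agent.LIN.TB2

/-! # [LIN-TB5] block C: first elements, marks, pointers as total functions -/

namespace Pool.Agent.LIN.Tower

variable {m : Mach} {A : Tower m} {c0 : m.Config}

theorem fstU_tm (hA : A.Ax c0) (i : Fin m.k) (x : A.T) (hx : A.Tm x) :
    ∃ b, A.fstU i x = Sum.inr b ∧ A.pi b = x ∧ A.ix b = i ∧ A.Fst b := by
  have h := hA.row_first x i hx
  unfold fstU
  rw [dif_pos h]
  exact ⟨h.choose, rfl, h.choose_spec⟩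

theorem fstU_ntm (hA : A.Ax c0) (i : Fin m.k) (x : A.T) (hx : ¬ A.Tm x) :
    A.fstU i x = Sum.inl x := by
  unfold fstU
  rw [dif_neg]
  rintro ⟨b, rfl, -, -⟩
  exact hx (hA.pi_tm b)

theorem fstU_eq (hA : A.Ax c0) (b : A.F) (hb : A.Fst b) :
    A.fstU (A.ix b) (A.pi b) = Sum.inr b := by
  have h : ∃ b', A.pi b' = A.pi b ∧ A.ix b' = A.ix b ∧ A.Fst b' := ⟨b, rfl, rfl, hb⟩
  unfold fstU
  rw [dif_pos h]
  obtain ⟨h1, h2, h3⟩ := h.choose_spec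
  rw [fst_unique hA h.choose b h3 hb h1 h2]

theorem mkU_tm (hA : A.Ax c0) (i : Fin m.k) (x : A.T) (hx : A.Tm x) (hne : x ≠ A.o) :
    ∃ b, A.mkU i x = Sum.inr b ∧ A.pi b = x ∧ A.ix b = i ∧ A.Mk b := by
  have h := hA.mk_ex x i hx hne
  unfold mkU
  rw [dif_pos h]
  exact ⟨h.choose, rfl, h.choose_spec⟩

theorem mkU_else (hA : A.Ax c0) (i : Fin m.k) (x : A.T) (hx : ¬ (A.Tm x ∧ x ≠ A.o)) :
    A.mkU i x = Sum.inl x := by
  unfold mkU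
  rw [dif_neg]
  rintro ⟨b, rfl, -, hb⟩
  exact hx ⟨hA.pi_tm b, hA.mk_o b hb⟩

theorem mkU_eq (hA : A.Ax c0) (b : A.F) (hb : A.Mk b) :
    A.mkU (A.ix b) (A.pi b) = Sum.inr b := by
  have h : ∃ b', A.pi b' = A.pi b ∧ A.ix b' = A.ix b ∧ A.Mk b' := ⟨b, rfl, rfl, hb⟩
  unfold mkU
  rw [dif_pos h]
  obtain ⟨h1, h2, h3⟩ := h.choose_spec
  rw [hA.mk_uniq h.choose b h3 hb h1 h2]

/-- `pt_ex`; the index by `pt_st` and `st_uniq`. -/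
theorem ptU_test (hA : A.Ax c0) (x : A.T) (q : Fin m.nQ) (i : Fin m.k)
    (z p : Option (Fin m.nQ)) (hs : A.st x q) (hp : m.prog q = Instr.test i z p) :
    ∃ b, A.ptU x = Sum.inr b ∧ A.pi b = x ∧ A.ix b = i ∧ A.Pt b := by
  obtain ⟨b, hb1, hb2, hb3⟩ := hA.pt_ex x q i z p hs hp
  have h : ∃ b, A.pi b = x ∧ A.Pt b := ⟨b, hb1, hb3⟩
  unfold ptU
  rw [dif_pos h]
  obtain ⟨h1, h2⟩ := h.choose_spec
  have e : h.choose = b := hA.pt_uniq h.choose b h2 hb3 (h1.trans hb1.symm)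
  exact ⟨h.choose, rfl, h1, by rw [e]; exact hb2, h2⟩

theorem ptU_else (hA : A.Ax c0) (x : A.T)
    (h : ∀ q i z p, A.st x q → m.prog q ≠ Instr.test i z p) : A.ptU x = Sum.inl x := by
  unfold ptU
  rw [dif_neg]
  rintro ⟨b, rfl, hb⟩
  obtain ⟨q, z, p, h1, h2⟩ := hA.pt_st b hb
  exact h q _ z p h1 h2

theorem ptU_eq (hA : A.Ax c0) (b : A.F) (hb : A.Pt b) : A.ptU (A.pi b) = Sum.inr b := by
  have h : ∃ b', A.pi b' = A.pi b ∧ A.Pt b' := ⟨b, rfl, hb⟩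
  unfold ptU
  rw [dif_pos h]
  obtain ⟨h1, h2⟩ := h.choose_spec
  rw [hA.pt_uniq h.choose b h2 hb h1]

end Pool.Agent.LIN.Tower
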