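import Pool.Agent.LIN.TW1

/-! # [LIN-TC1] block C: words and local equivalence, basic facts -/

namespace Pool.Agent.LIN.Tower

variable {m : Mach} {A B : Tower m}

theorem act_append (A : Tower m) (w w' : List (Letter m)) (u : A.T ⊕ A.F) :
    A.act (w ++ w') u = A.act w (A.act w' u) := by
  induction w with
  | nil => rfl
  | cons a w ih =>
    show A.act1 a (A.act (w ++ w') u) = A.act1 a (A.act w (A.act w' u))
    rw [ih]

/-- Words made of one letter. -/
theorem act_replicate (A : Tower m) (a : Letter m) (n : ℕ) (u : A.T ⊕ A.F) :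
    A.act (List.replicate n a) u = (A.act1 a)^[n] u := by
  induction n with
  | zero => rfl
  | succ n ih =>
    rw [List.replicate_succ, Function.iterate_succ_apply', ← ih]
    rfl

theorem act1_s_inl (A : Tower m) (n : ℕ) (y : A.T) :
    (A.act1 Letter.s)^[n] (Sum.inl y) = Sum.inl (A.S^[n] y) := by
  induction n with
  | zero => rfl
  | succ n ih =>
    rw [Function.iterate_succ_apply', Function.iterate_succ_apply', ih]
    rfl

theorem act1_s_inr (A : Tower m) (n : ℕ) (b : A.F) :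
    (A.act1 Letter.s)^[n] (Sum.inr b) = Sum.inr (A.V^[n] b) := by
  induction n with
  | zero => rfl
  | succ n ih =>
    rw [Function.iterate_succ_apply', Function.iterate_succ_apply', ih]
    rfl

theorem act1_s'_inl (A : Tower m) (n : ℕ) (y : A.T) :
    (A.act1 Letter.s')^[n] (Sum.inl y) = Sum.inl (A.sPre^[n] y) := by
  induction n with
  | zero => rfl
  | succ n ih =>
    rw [Function.iterate_succ_apply', Function.iterate_succ_apply', ih]
    rfl

theorem act1_s'_inr (A : Tower m) (n : ℕ) (b : A.F) :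
    (A.act1 Letter.s')^[n] (Sum.inr b) = Sum.inr (A.vPre^[n] b) := by
  induction n with
  | zero => rfl
  | succ n ih =>
    rw [Function.iterate_succ_apply', Function.iterate_succ_apply', ih]
    rfl

theorem act1_p_inl (A : Tower m) (n : ℕ) (y : A.T) :
    (A.act1 Letter.p)^[n] (Sum.inl y) = Sum.inl (A.p^[n] y) := by
  induction n with
  | zero => rfl
  | succ n ih =>
    rw [Function.iterate_succ_apply', Function.iterate_succ_apply', ih]
    rfl

theorem act1_l_inl (A : Tower m) (n : ℕ) (y : A.T) :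
    (A.act1 Letter.l)^[n] (Sum.inl y) = Sum.inl (A.lft^[n] y) := by
  induction n with
  | zero => rfl
  | succ n ih =>
    rw [Function.iterate_succ_apply', Function.iterate_succ_apply', ih]
    rfl

theorem act1_n_inr (A : Tower m) (n : ℕ) (b : A.F) :
    (A.act1 Letter.n)^[n] (Sum.inr b) = Sum.inr (A.nxt^[n] b) := by
  induction n with
  | zero => rfl
  | succ n ih =>
    rw [Function.iterate_succ_apply', Function.iterate_succ_apply', ih]
    rfl

theorem act1_n'_inr (A : Tower m) (n : ℕ) (b : A.F) :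
    (A.act1 Letter.n')^[n] (Sum.inr b) = Sum.inr (A.prv^[n] b) := by
  induction n with
  | zero => rfl
  | succ n ih =>
    rw [Function.iterate_succ_apply', Function.iterate_succ_apply', ih]
    rfl

theorem Loc.mono {k j : ℕ} {l : List ((A.T ⊕ A.F) × (B.T ⊕ B.F))} (h : A.Loc B k l)
    (hk : j ≤ k) : A.Loc B j l := by
  intro a ha w hw
  obtain ⟨h1, h2⟩ := h a ha w (hw.trans hk)
  exact ⟨h1, fun b hb w' hw' => h2 b hb w' (hw'.trans hk)⟩

theorem Loc.sub {k : ℕ} {l l' : List ((A.T ⊕ A.F) × (B.T ⊕ B.F))} (h : A.Loc B k l)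
    (hs : l' ⊆ l) : A.Loc B k l' := by
  intro a ha w hw
  obtain ⟨h1, h2⟩ := h a (hs ha) w hw
  exact ⟨h1, fun b hb w' hw' => h2 b (hs hb) w' hw'⟩

theorem Loc.swap {k : ℕ} {l : List ((A.T ⊕ A.F) × (B.T ⊕ B.F))} (h : A.Loc B k l) :
    B.Loc A k (l.map Prod.swap) := by
  intro a ha w hw
  obtain ⟨a', ha', rfl⟩ := List.mem_map.1 ha
  obtain ⟨h1, h2⟩ := h a' ha' w hw
  refine ⟨fun c => (h1 c).symm, fun b hb w' hw' => ?_⟩
  obtain ⟨b', hb', rfl⟩ := List.mem_map.1 hb
  obtain ⟨h3, h4⟩ := h2 b' hb' w' hw'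
  exact ⟨h3.symm, h4.symm⟩

/-- Words of words (`act_append`). -/
theorem Loc.near {k j : ℕ} {l : List ((A.T ⊕ A.F) × (B.T ⊕ B.F))} (h : A.Loc B (k + j) l)
    (b : (A.T ⊕ A.F) × (B.T ⊕ B.F)) (hb : b ∈ l) (w : List (Letter m)) (hw : w.length ≤ j) :
    A.Loc B k ((A.act w b.1, B.act w b.2) :: l) := by
  have key : ∀ a ∈ (A.act w b.1, B.act w b.2) :: l, ∃ c ∈ l, ∃ v : List (Letter m),
      v.length ≤ j ∧ a.1 = A.act v c.1 ∧ a.2 = B.act v c.2 := by
    intro a ha
    rcases List.mem_cons.1 ha with rfl | ha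
    · exact ⟨b, hb, w, hw, rfl, rfl⟩
    · exact ⟨a, ha, [], Nat.zero_le _, rfl, rfl⟩
  intro a ha u hu
  obtain ⟨c, hc, v, hv, e1, e2⟩ := key a ha
  have hl : (u ++ v).length ≤ k + j := by
    rw [List.length_append]
    omega
  obtain ⟨h1, h2⟩ := h c hc (u ++ v) hl
  rw [act_append, act_append] at h1 h2
  rw [e1, e2]
  refine ⟨h1, fun a' ha' u' hu' => ?_⟩
  obtain ⟨c', hc', v', hv', e1', e2'⟩ := key a' ha'
  have hl' : (u' ++ v').length ≤ k + j := by
    rw [List.length_append]
    omega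
  have h3 := h2 c' hc' (u' ++ v') hl'
  rw [act_append, act_append] at h3
  rw [e1', e2']
  exact h3

/-- The binary relations are atomic statements about words of length at most one. -/
theorem rel_iff (A : Tower m) (c : Sym m) (a b : A.T ⊕ A.F) : A.rel c a b ↔
    match c with
    | Sym.S => A.act1 Letter.s a = b
    | Sym.p => A.Pr PSym.T a ∧ A.act1 Letter.p a = b
    | Sym.h => A.act1 Letter.h a = b
    | Sym.lt => A.ltU a b
    | Sym.uT => A.Pr PSym.T a ∧ a = b
    | Sym.uL => A.Pr PSym.L a ∧ a = b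
    | Sym.uE => A.Pr PSym.E a ∧ a = b
    | Sym.uM => A.Pr PSym.M a ∧ a = b
    | Sym.uP => A.Pr PSym.P a ∧ a = b
    | Sym.uq q => A.Pr (PSym.q q) a ∧ a = b
    | Sym.ui i => A.Pr (PSym.i i) a ∧ a = b := by
  cases c <;> cases a <;> cases b <;> simp [rel, act1, Pr, ltU, and_comm]

theorem Loc.EF0 {l : List ((A.T ⊕ A.F) × (B.T ⊕ B.F))} (h : A.Loc B 1 l) :
    EF A.rel B.rel 0 l := by
  intro a ha b hb
  have h0 := (h a ha [] (by simp)).2 b hb [] (by simp)
  have hP : ∀ c, A.Pr c a.1 ↔ B.Pr c a.2 := (h a ha [] (by simp)).1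
  have hL : ∀ x : Letter m, (A.act1 x a.1 = b.1 ↔ B.act1 x a.2 = b.2) := fun x =>
    ((h a ha [x] (by simp)).2 b hb [] (by simp)).1
  have he : a.1 = b.1 ↔ a.2 = b.2 := h0.1
  have hlt : A.ltU a.1 b.1 ↔ B.ltU a.2 b.2 := h0.2
  refine ⟨he, fun c => ?_⟩
  rw [rel_iff, rel_iff]
  cases c with
  | S => exact hL _
  | p => exact and_congr (hP _) (hL _)
  | h => exact hL _
  | lt => exact hlt
  | uT => exact and_congr (hP _) he
  | uL => exact and_congr (hP _) he
  | uE => exact and_congr (hP _) he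
  | uM => exact and_congr (hP _) he
  | uP => exact and_congr (hP _) he
  | uq q => exact and_congr (hP _) he
  | ui i => exact and_congr (hP _) he

end Pool.Agent.LIN.Tower
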