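import Pool.Agent.LIN.TC1

/-! # [LIN-TC2] block C: the extension principle -/

namespace Pool.Agent.LIN.Tower

variable {m : Mach} {A B : Tower m}

theorem TC2_mono {K k : ℕ} {l : List ((A.T ⊕ A.F) × (B.T ⊕ B.F))}
    {C : ℕ → A.T ⊕ A.F → B.T ⊕ B.F → Prop} (hC : A.NSys B K k l C) (r : ℕ) (hr : r ≤ k)
    (y : A.T ⊕ A.F) (y' : B.T ⊕ B.F) (h : C r y y') : C 0 y y' := by
  induction r with
  | zero => exact h
  | succ r ih => exact ih (by omega) (hC.mono r (by omega) y y' h)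

theorem TC2_words {K k : ℕ} {l : List ((A.T ⊕ A.F) × (B.T ⊕ B.F))}
    {C : ℕ → A.T ⊕ A.F → B.T ⊕ B.F → Prop} (hC : A.NSys B K k l C)
    (u : A.T ⊕ A.F) (u' : B.T ⊕ B.F) (hu : C k u u') (w : List (Letter m)) :
    ∀ r, w.length + r = k → C r (A.act w u) (B.act w u') ∨ A.Lc B K l r (A.act w u) (B.act w u') := by
  induction w with
  | nil =>
    intro r hr
    left
    have h : r = k := by simpa using hr
    rw [h]
    exact hu
  | cons a w ih =>
    intro r hr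
    rw [List.length_cons] at hr
    rcases ih (r + 1) (by omega) with h | ⟨b, hb, w0, hw0, h1, h2⟩
    · exact hC.step r (by omega) _ _ h a
    · refine Or.inr ⟨b, hb, a :: w0, ?_, ?_, ?_⟩
      · rw [List.length_cons]
        omega
      · show A.act1 a (A.act w u) = A.act1 a (A.act w0 b.1)
        rw [h1]
      · show B.act1 a (B.act w u') = B.act1 a (B.act w0 b.2)
        rw [h2]

theorem TC2_pr {K k : ℕ} {l : List ((A.T ⊕ A.F) × (B.T ⊕ B.F))}
    {C : ℕ → A.T ⊕ A.F → B.T ⊕ B.F → Prop} (h : A.Loc B K l)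
    (hC : A.NSys B K k l C) (y : A.T ⊕ A.F) (y' : B.T ⊕ B.F)
    (hy : C 0 y y' ∨ A.Lc B K l 0 y y') (c : PSym m) : A.Pr c y ↔ B.Pr c y' := by
  rcases hy with hy | ⟨b, hb, w, hw, rfl, rfl⟩
  · exact hC.pr y y' hy c
  · exact (h b hb w hw).1 c

theorem TC2_bin {K k : ℕ} {l : List ((A.T ⊕ A.F) × (B.T ⊕ B.F))}
    {C : ℕ → A.T ⊕ A.F → B.T ⊕ B.F → Prop} (h : A.Loc B K l)
    (hC : A.NSys B K k l C) (y : A.T ⊕ A.F) (y' : B.T ⊕ B.F)
    (hy : C 0 y y' ∨ A.Lc B K l 0 y y') (z : A.T ⊕ A.F) (z' : B.T ⊕ B.F)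
    (hz : C 0 z z' ∨ A.Lc B K l 0 z z') :
    (y = z ↔ y' = z') ∧ (A.ltU y z ↔ B.ltU y' z') := by
  rcases hy with hy | hy
  · rcases hz with hz | hz
    · exact ⟨hC.eq _ _ _ _ hy hz, hC.lt _ _ _ _ hy hz⟩
    · exact ⟨hC.eqL _ _ _ _ hy hz, hC.ltL _ _ _ _ hy hz⟩
  · rcases hz with hz | hz
    · have h1 := hC.eqL _ _ _ _ hz hy
      exact ⟨⟨fun e => (h1.1 e.symm).symm, fun e => (h1.2 e.symm).symm⟩, hC.ltR _ _ _ _ hz hy⟩
    · obtain ⟨b, hb, w, hw, rfl, rfl⟩ := hy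
      obtain ⟨b', hb', w', hw', rfl, rfl⟩ := hz
      exact (h b hb w hw).2 b' hb' w' hw'

/-- Put `D r y y' := C r y y' or Lc r y y'`. By induction on the length of `w` (`<= k`):
`D (k - length w) (act w u) (act w u')` (`NSys.step`; a pair of `Lc (r+1)` goes to `Lc r` by adding
the letter to the word), and `D (r+1)` implies `D r`, so `D 0`. The words of length `<= k` at the
elements of `l` are in `Lc 0`. Then the atomic statements: two pairs of `C 0` by `pr, eq, lt`, a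
pair of `C 0` and one of `Lc 0` by `eqL, ltL, ltR`, two pairs of `Lc 0` by `Loc K l`. -/
theorem Loc_cons {K k : ℕ} {l : List ((A.T ⊕ A.F) × (B.T ⊕ B.F))}
    {C : ℕ → A.T ⊕ A.F → B.T ⊕ B.F → Prop} (hK : k ≤ K) (h : A.Loc B K l)
    (hC : A.NSys B K k l C) (u : A.T ⊕ A.F) (u' : B.T ⊕ B.F) (hu : C k u u') :
    A.Loc B k ((u, u') :: l) := by
  have key : ∀ a ∈ (u, u') :: l, ∀ w : List (Letter m), w.length ≤ k →
      C 0 (A.act w a.1) (B.act w a.2) ∨ A.Lc B K l 0 (A.act w a.1) (B.act w a.2) := by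
    intro a ha w hw
    rcases List.mem_cons.1 ha with rfl | ha
    · rcases TC2_words hC u u' hu w (k - w.length) (by omega) with h1 | ⟨b, hb, w0, hw0, h1, h2⟩
      · exact Or.inl (TC2_mono hC _ (by omega) _ _ h1)
      · exact Or.inr ⟨b, hb, w0, by omega, h1, h2⟩
    · exact Or.inr ⟨a, ha, w, by omega, rfl, rfl⟩
  intro a ha w hw
  exact ⟨TC2_pr h hC _ _ (key a ha w hw), fun b hb w' hw' =>
    TC2_bin h hC _ _ (key a ha w hw) _ _ (key b hb w' hw')⟩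

end Pool.Agent.LIN.Tower
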