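import Pool.Agent.LIN.TC1

/-! # [LIN-TC3] block C: finitely many elements near a given list -/

namespace Pool.Agent.LIN.Tower

variable {m : Mach} {A B : Tower m}

/-- E.g. by an injection into `Fin 8 + Fin m.k + Fin m.k`. -/
theorem finite_letter (m : Mach) : Finite (Letter m) := by
  let g : Letter m → Fin 8 ⊕ (Fin m.k ⊕ Fin m.k) := fun a =>
    match a with
    | Letter.s => Sum.inl 0
    | Letter.s' => Sum.inl 1
    | Letter.p => Sum.inl 2
    | Letter.l => Sum.inl 3
    | Letter.h => Sum.inl 4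
    | Letter.n => Sum.inl 5
    | Letter.n' => Sum.inl 6
    | Letter.t => Sum.inl 7
    | Letter.f i => Sum.inr (Sum.inl i)
    | Letter.k i => Sum.inr (Sum.inr i)
  refine Finite.of_injective g ?_
  intro a b h
  cases a <;> cases b <;> simp_all [g]

/-- `List.finite_length_le`. -/
theorem finite_words (m : Mach) (K : ℕ) : {w : List (Letter m) | w.length ≤ K}.Finite := by
  haveI := finite_letter m
  exact List.finite_length_le (Letter m) K

theorem tc3_pairs {β : Type} (m : Mach) (K : ℕ) (l : List β) :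
    {x : List (Letter m) × β | x.1.length ≤ K ∧ x.2 ∈ l}.Finite :=
  ((finite_words m K).prod l.finite_toSet).subset fun x hx => ⟨hx.1, hx.2⟩

theorem tc3_max {α β : Type} (val : α → β) (lt : β → β → Prop)
    (htr : ∀ x y z, lt x y → lt y z → lt x z) (s : Finset α) (hs : s.Nonempty) :
    (∀ x ∈ s, ∀ y ∈ s, val x = val y ∨ lt (val x) (val y) ∨ lt (val y) (val x)) →
    ∃ x ∈ s, ∀ y ∈ s, val y = val x ∨ lt (val y) (val x) := by
  induction hs using Finset.Nonempty.cons_induction with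
  | singleton a =>
    intro _
    refine ⟨a, Finset.mem_singleton_self a, fun y hy => ?_⟩
    rw [Finset.mem_singleton.1 hy]
    exact Or.inl rfl
  | cons a s ha hs ih =>
    intro htot
    obtain ⟨x, hx, hmax⟩ := ih fun y hy z hz =>
      htot y (Finset.mem_cons_of_mem hy) z (Finset.mem_cons_of_mem hz)
    rcases htot a (Finset.mem_cons_self a s) x (Finset.mem_cons_of_mem hx) with h | h | h
    · refine ⟨x, Finset.mem_cons_of_mem hx, fun y hy => ?_⟩
      rcases Finset.mem_cons.1 hy with rfl | hy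
      · exact Or.inl h
      · exact hmax y hy
    · refine ⟨x, Finset.mem_cons_of_mem hx, fun y hy => ?_⟩
      rcases Finset.mem_cons.1 hy with rfl | hy
      · exact Or.inr h
      · exact hmax y hy
    · refine ⟨a, Finset.mem_cons_self a s, fun y hy => ?_⟩
      rcases Finset.mem_cons.1 hy with rfl | hy
      · exact Or.inl rfl
      · rcases hmax y hy with h1 | h1
        · rw [h1]
          exact Or.inr h
        · exact Or.inr (htr _ _ _ h1 h)

/-- The set of the elements `act w b.2` with `b` in `l` and `w` of length `<= K` is finite, and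
`f` is injective, so only finitely many `f c` are in it. -/
theorem exists_farR (K : ℕ) (l : List ((A.T ⊕ A.F) × (B.T ⊕ B.F))) (f : ℕ → B.T ⊕ B.F)
    (hf : Function.Injective f) : ∃ N, ∀ c ≥ N, A.FarR B K l (f c) := by
  have h1 := (tc3_pairs m K l).image (fun x => B.act x.1 x.2.2)
  have h2 := h1.preimage (hf.injOn (s := f ⁻¹' ((fun x => B.act x.1 x.2.2) ''
    {x : List (Letter m) × ((A.T ⊕ A.F) × (B.T ⊕ B.F)) | x.1.length ≤ K ∧ x.2 ∈ l})))
  obtain ⟨N, hN⟩ := h2.bddAbove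
  refine ⟨N + 1, fun c hc b hb w hw he => ?_⟩
  have h3 : c ∈ f ⁻¹' ((fun x => B.act x.1 x.2.2) ''
      {x : List (Letter m) × ((A.T ⊕ A.F) × (B.T ⊕ B.F)) | x.1.length ≤ K ∧ x.2 ∈ l}) :=
    ⟨(w, b), ⟨hw, hb⟩, he⟩
  have h4 : c ≤ N := hN h3
  omega

/-- Maximal near elements. `P w b` selects some of the pairs (word of length `<= K`, element of
`l`), finitely many and at least one; `val` (the element of the left side) is compared by a
transitive irreflexive total relation. -/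
theorem exists_max (K : ℕ) (l : List ((A.T ⊕ A.F) × (B.T ⊕ B.F)))
    (P : List (Letter m) → (A.T ⊕ A.F) × (B.T ⊕ B.F) → Prop)
    (hne : ∃ w : List (Letter m), w.length ≤ K ∧ ∃ b ∈ l, P w b)
    (htr : ∀ x y z : A.T ⊕ A.F, A.ltU x y → A.ltU y z → A.ltU x z)
    (htot : ∀ w w' b b', P w b → P w' b' → A.act w b.1 = A.act w' b'.1 ∨
      A.ltU (A.act w b.1) (A.act w' b'.1) ∨ A.ltU (A.act w' b'.1) (A.act w b.1)) :
    ∃ w : List (Letter m), w.length ≤ K ∧ ∃ b ∈ l, P w b ∧
      ∀ w' : List (Letter m), w'.length ≤ K → ∀ b' ∈ l, P w' b' →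
        A.act w' b'.1 = A.act w b.1 ∨ A.ltU (A.act w' b'.1) (A.act w b.1) := by
  have hfin : {x : List (Letter m) × ((A.T ⊕ A.F) × (B.T ⊕ B.F)) |
      (x.1.length ≤ K ∧ x.2 ∈ l) ∧ P x.1 x.2}.Finite :=
    (tc3_pairs m K l).subset fun x hx => hx.1
  obtain ⟨w₀, hw₀, b₀, hb₀, hP₀⟩ := hne
  obtain ⟨x, hx, hmax⟩ := tc3_max (fun x : List (Letter m) × ((A.T ⊕ A.F) × (B.T ⊕ B.F)) =>
    A.act x.1 x.2.1) A.ltU htr hfin.toFinset
    ⟨(w₀, b₀), hfin.mem_toFinset.2 ⟨⟨hw₀, hb₀⟩, hP₀⟩⟩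
    (fun x hx y hy => htot _ _ _ _ (hfin.mem_toFinset.1 hx).2 (hfin.mem_toFinset.1 hy).2)
  have hx' := hfin.mem_toFinset.1 hx
  exact ⟨x.1, hx'.1.1, x.2, hx'.1.2, hx'.2, fun w' hw' b' hb' hP' =>
    hmax (w', b') (hfin.mem_toFinset.2 ⟨⟨hw', hb'⟩, hP'⟩)⟩

end Pool.Agent.LIN.Tower
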