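import Pool.Agent.LIN.TC1

/-! # [LIN-TC4] block C: from the extension property to the game -/

namespace Pool.Agent.LIN

/-- Fewer pairs. Induction on `r`. -/
theorem EF_sub {C U U' : Type} (R : C → U → U → Prop) (R' : C → U' → U' → Prop) (r : ℕ)
    (l l' : List (U × U')) (hs : l' ⊆ l) (h : EF R R' r l) : EF R R' r l' := by
  induction r generalizing l l' with
  | zero => exact fun a ha b hb => h a (hs ha) b (hs hb)
  | succ r ih =>
    obtain ⟨h1, h2, h3⟩ := h
    refine ⟨fun a ha b hb => h1 a (hs ha) b (hs hb), fun u => ?_, fun u' => ?_⟩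
    · obtain ⟨u', hu⟩ := h2 u
      exact ⟨u', ih _ _ (List.cons_subset_cons _ hs) hu⟩
    · obtain ⟨u, hu⟩ := h3 u'
      exact ⟨u, ih _ _ (List.cons_subset_cons _ hs) hu⟩

namespace Tower

variable {m : Mach} {A B : Tower m}

/-- By induction on `r`: there is `K` such that `EF r l` for every list `l` containing
`(o, o)` with `Loc K l`. For the moves in `B` use the hypothesis `hE'` for the swapped list
(`Loc.swap`). Finally `EF_sub` from `[(o, o)]` to `[]`. -/
theorem EF_of_ext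
    (hE : ∀ k, ∃ K, ∀ l, A.Loc B K l → (Sum.inl A.o, Sum.inl B.o) ∈ l → ∀ u, ∃ u',
      A.Loc B k ((u, u') :: l))
    (hE' : ∀ k, ∃ K, ∀ l, B.Loc A K l → (Sum.inl B.o, Sum.inl A.o) ∈ l → ∀ u, ∃ u',
      B.Loc A k ((u, u') :: l))
    (hb : ∀ K, A.Loc B K [(Sum.inl A.o, Sum.inl B.o)]) (r : ℕ) : EF A.rel B.rel r [] := by
  have key : ∀ r, ∃ K, ∀ l, A.Loc B K l → (Sum.inl A.o, Sum.inl B.o) ∈ l →
      EF A.rel B.rel r l := by
    intro r
    induction r with
    | zero => exact ⟨1, fun l hl _ => Loc.EF0 hl⟩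
    | succ r ih =>
      obtain ⟨K, hK⟩ := ih
      obtain ⟨K1, hK1⟩ := hE K
      obtain ⟨K2, hK2⟩ := hE' K
      refine ⟨max 1 (max K1 K2), fun l hl hmem => ⟨?_, fun u => ?_, fun u' => ?_⟩⟩
      · exact Loc.EF0 (Loc.mono hl (le_max_left _ _))
      · obtain ⟨u', hu⟩ := hK1 l (Loc.mono hl ((le_max_left _ _).trans (le_max_right _ _))) hmem u
        exact ⟨u', hK _ hu (List.mem_cons_of_mem _ hmem)⟩
      · have h1 : B.Loc A K2 (l.map Prod.swap) :=
          Loc.swap (Loc.mono hl ((le_max_right _ _).trans (le_max_right _ _)))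
        have h2 : (Sum.inl B.o, Sum.inl A.o) ∈ l.map Prod.swap :=
          List.mem_map.2 ⟨(Sum.inl A.o, Sum.inl B.o), hmem, rfl⟩
        obtain ⟨u, hu⟩ := hK2 _ h1 h2 u'
        have h3 := Loc.swap hu
        have h4 : ((u', u) :: l.map Prod.swap).map Prod.swap = (u, u') :: l := by
          rw [List.map_cons, List.map_map, Prod.swap_swap_eq, List.map_id]
          rfl
        rw [h4] at h3
        exact ⟨u, hK _ h3 (List.mem_cons_of_mem _ hmem)⟩
  obtain ⟨K, hK⟩ := key r
  exact EF_sub _ _ r _ _ (List.nil_subset _) (hK _ (hb K) (List.mem_singleton.2 rfl))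

end Tower

end Pool.Agent.LIN
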