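import Pool.Agent.LIN.TB3
import Pool.Agent.LIN.TB5

/-! # [LIN] block C: the run of a tower (definitions) -/

namespace Pool.Agent.LIN.Tower

variable {m : Mach}

/-- The standard time number `x` shows the configuration `c` of phase `n` (`2^n <= x`):
state, marks in position `x + R_i`, pointer in position `2 (x - 2^n)`. -/
def SpecAt (A : Tower m) (c : m.Config) (n x : ℕ) : Prop :=
  A.st (A.S^[x] A.o) c.1 ∧
  (∀ b, A.pi b = A.S^[x] A.o → A.Mk b → ∃ a, A.Fst a ∧ A.nxt^[x + c.2 (A.ix b)] a = b) ∧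
  (∀ b, A.pi b = A.S^[x] A.o → A.Pt b → ∃ a, A.Fst a ∧ A.nxt^[2 * (x - 2 ^ n)] a = b)

/-- The standard part of the tower shows the sequence of configurations `r`. -/
def Spec (A : Tower m) (r : ℕ → m.Config) : Prop :=
  ∀ n x, 2 ^ n ≤ x → x < 2 ^ (n + 1) → A.SpecAt (r n) n x

/-- The number of positions a mark moves when an event happens after a time with state `q`
(`z`: the tested register is zero). -/
def dl (m : Mach) (q : Fin m.nQ) (z : Prop) [Decidable z] (i : Fin m.k) : ℕ :=
  match m.prog q with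
  | Instr.inc i₀ _ => if i = i₀ then 2 else 1
  | Instr.test i₀ _ _ => if z then 1 else if i = i₀ then 0 else 1
  | Instr.guess _ _ => 1

/-- The possible new states. -/
def ns (m : Mach) (q : Fin m.nQ) (z : Prop) (q' : Fin m.nQ) : Prop :=
  match m.prog q with
  | Instr.inc _ q₁ => q' = q₁
  | Instr.test _ z₁ p₁ => (z ∧ z₁ = some q') ∨ (¬ z ∧ p₁ = some q')
  | Instr.guess a b => q' = a ∨ q' = b

end Pool.Agent.LIN.Tower
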