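import Pool.Agent.LIN.TD0

/-! # [LIN-TD1] block C: what happens from `x` to `S x` -/

namespace Pool.Agent.LIN.Tower

variable {m : Mach} {A : Tower m} {c0 : m.Config}

/-- Ordinary steps (no event at `S x`): state. -/
theorem quiet_st (hA : A.Ax c0) (x : A.T) (q : Fin m.nQ) (hs : A.st x q) (he : ¬ A.Ev (A.S x)) :
    A.st (A.S x) q := hA.st_const x q hs he

theorem S_ne_o (hA : A.Ax c0) (x : A.T) : A.S x ≠ A.o := hA.o_org x

theorem Tm_S (hA : A.Ax c0) (x : A.T) (hx : A.Tm x) : A.Tm (A.S x) := by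
  unfold Tm at *
  rw [hA.h_S, hx]

/-- The mark over `S (pi b)` in the row of `b`. -/
theorem mk_next (hA : A.Ax c0) (b : A.F) :
    ∃ c, A.pi c = A.S (A.pi b) ∧ A.ix c = A.ix b ∧ A.Mk c :=
  hA.mk_ex (A.S (A.pi b)) (A.ix b) (Tm_S hA _ (hA.pi_tm b)) (S_ne_o hA _)

/-- Ordinary steps: the mark over `S x` is `nxt (V b)` (`mk_ex`, `mk_move`, `Nx_iff`). -/
theorem quiet_mk (hA : A.Ax c0) (b : A.F) (hb : A.Mk b) (he : ¬ A.Ev (A.S (A.pi b))) :
    A.Mk (A.nxt (A.V b)) := by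
  obtain ⟨c, h1, h2, h3⟩ := mk_next hA b
  have h := hA.mk_move b c hb h3 h1 h2 he
  rw [Mv1, Nx_iff hA] at h
  rw [← h]; exact h3

/-- Ordinary steps: the pointer over `S x` is `nxt (nxt (V b))` (`pt_st` gives the state and the
index; `st_const`, `pt_ex`, `pt_move`). -/
theorem quiet_pt (hA : A.Ax c0) (b : A.F) (hb : A.Pt b) (he : ¬ A.Ev (A.S (A.pi b))) :
    A.Pt (A.nxt (A.nxt (A.V b))) := by
  obtain ⟨q, z, p, hs, hq⟩ := hA.pt_st b hb
  obtain ⟨c, h1, _, h3⟩ := hA.pt_ex (A.S (A.pi b)) q (A.ix b) z p (hA.st_const _ q hs he) hq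
  obtain ⟨d, hd1, hd2⟩ := hA.pt_move b c hb h3 h1 he
  rw [Nx_iff hA] at hd1 hd2
  rw [← hd1, ← hd2]; exact h3

/-- Events: after an event at `S x` the pointer over `S x` (if any) is the first element. -/
theorem event_pt (hA : A.Ax c0) (b : A.F) (hb : A.Pt b) (he : A.Ev (A.pi b)) : A.Fst b :=
  hA.pt_start b hb he

theorem mk_of_Mv1 (hA : A.Ax c0) (b c : A.F) (hc : A.Mk c) (h : A.Mv1 b c) :
    A.Mk (A.nxt^[1] (A.V b)) := by
  rw [Mv1, Nx_iff hA] at h
  rw [Function.iterate_one, ← h]; exact hc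

theorem mk_of_Mv2 (hA : A.Ax c0) (b c : A.F) (hc : A.Mk c) (h : A.Mv2 b c) :
    A.Mk (A.nxt^[2] (A.V b)) := by
  obtain ⟨d, hd1, hd2⟩ := h
  rw [Nx_iff hA] at hd1 hd2
  have : A.nxt^[2] (A.V b) = c := by
    rw [hd2, hd1]; rfl
  rw [this]; exact hc

theorem mk_of_Mv0 (b c : A.F) (hc : A.Mk c) (h : A.Mv0 b c) :
    A.Mk (A.nxt^[0] (A.V b)) := by
  rw [Mv0] at h
  rw [Function.iterate_zero_apply, ← h]; exact hc

open Classical in
/-- Events, a state that is not a test state. -/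
theorem event_other (hA : A.Ax c0) (x : A.T) (q : Fin m.nQ) (hs : A.st x q) (he : A.Ev (A.S x))
    (hq : ∀ i z p, m.prog q ≠ Instr.test i z p) (z : Prop) [Decidable z] :
    (∃ q', A.st (A.S x) q' ∧ ns m q z q') ∧
      ∀ b, A.pi b = x → A.Mk b → A.Mk (A.nxt^[dl m q z (A.ix b)] (A.V b)) := by
  cases hp : m.prog q with
  | inc i q₁ =>
    obtain ⟨h1, h2⟩ := hA.tr_inc x q i q₁ hs he hp
    refine ⟨⟨q₁, h1, ?_⟩, ?_⟩
    · simp only [ns, hp]
    · intro b hb hm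
      subst hb
      obtain ⟨c, c1, c2, c3⟩ := mk_next hA b
      obtain ⟨k1, k2⟩ := h2 b c hm c3 rfl c1 c2
      by_cases hi : A.ix b = i
      · have : dl m q z (A.ix b) = 2 := by simp only [dl, hp]; rw [if_pos hi]
        rw [this]; exact mk_of_Mv2 hA b c c3 (k1 hi)
      · have : dl m q z (A.ix b) = 1 := by simp only [dl, hp]; rw [if_neg hi]
        rw [this]; exact mk_of_Mv1 hA b c c3 (k2 hi)
  | test i z' p' => exact absurd hp (hq i z' p')
  | guess a a' =>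
    obtain ⟨h1, h2⟩ := hA.tr_guess x q a a' hs he hp
    refine ⟨?_, ?_⟩
    · rcases h1 with h1 | h1
      · exact ⟨a, h1, by simp [ns, hp]⟩
      · exact ⟨a', h1, by simp [ns, hp]⟩
    · intro b hb hm
      subst hb
      obtain ⟨c, c1, c2, c3⟩ := mk_next hA b
      have : dl m q z (A.ix b) = 1 := by simp only [dl, hp]
      rw [this]; exact mk_of_Mv1 hA b c c3 (h2 b c hm c3 rfl c1 c2)

open Classical in
/-- Events, a test state: `b` the pointer, `c` the mark of the tested register over `x`, and the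
register is zero iff `c` is next to `b`. Cases `tr_zero`, `tr_pos`. -/
theorem event_test (hA : A.Ax c0) (x : A.T) (q : Fin m.nQ) (i : Fin m.k)
    (z p : Option (Fin m.nQ)) (hs : A.st x q) (he : A.Ev (A.S x))
    (hq : m.prog q = Instr.test i z p) (b c : A.F) (hb : A.Pt b) (hc : A.Mk c)
    (hpb : A.pi b = x) (hpc : A.pi c = x) (hic : A.ix c = i) :
    (∃ q', A.st (A.S x) q' ∧ ns m q (c = A.nxt b) q') ∧
      ∀ d, A.pi d = x → A.Mk d → A.Mk (A.nxt^[dl m q (c = A.nxt b) (A.ix d)] (A.V d)) := by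
  by_cases hz : c = A.nxt b
  · obtain ⟨⟨q', hq1, hq2⟩, h2⟩ :=
      hA.tr_zero x q i z p b c hs he hq hb hc hpb hpc hic ((Nx_iff hA b c).2 hz)
    refine ⟨⟨q', hq2, ?_⟩, ?_⟩
    · simp only [ns, hq]; exact Or.inl ⟨hz, hq1⟩
    · intro d hd hm
      subst hd
      obtain ⟨e, e1, e2, e3⟩ := mk_next hA d
      have : dl m q (c = A.nxt b) (A.ix d) = 1 := by simp only [dl, hq]; rw [if_pos hz]
      rw [this]; exact mk_of_Mv1 hA d e e3 (h2 d e hm e3 rfl e1 e2)
  · obtain ⟨⟨q', hq1, hq2⟩, h2⟩ :=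
      hA.tr_pos x q i z p b c hs he hq hb hc hpb hpc hic (fun h => hz ((Nx_iff hA b c).1 h))
    refine ⟨⟨q', hq2, ?_⟩, ?_⟩
    · simp only [ns, hq]; exact Or.inr ⟨hz, hq1⟩
    · intro d hd hm
      subst hd
      obtain ⟨e, e1, e2, e3⟩ := mk_next hA d
      obtain ⟨k1, k2⟩ := h2 d e hm e3 rfl e1 e2
      by_cases hi : A.ix d = i
      · have : dl m q (c = A.nxt b) (A.ix d) = 0 := by
          simp only [dl, hq]; rw [if_neg hz, if_pos hi]
        rw [this]; exact mk_of_Mv0 d e e3 (k1 hi)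
      · have : dl m q (c = A.nxt b) (A.ix d) = 1 := by
          simp only [dl, hq]; rw [if_neg hz, if_neg hi]
        rw [this]; exact mk_of_Mv1 hA d e e3 (k2 hi)

end Pool.Agent.LIN.Tower
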