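import Pool.Agent.LIN.TD1

/-! # [LIN-TD2] block C: quiet stretches of time -/

namespace Pool.Agent.LIN.Tower

variable {m : Mach} {A : Tower m} {c0 : m.Config}

/-- The state is constant (induction on `n`; the times are `S^1 x, ..., S^n x`). -/
theorem stretch_st (hA : A.Ax c0) (x : A.T) (q : Fin m.nQ) (hs : A.st x q) (n : ℕ)
    (he : ∀ j, 1 ≤ j → j ≤ n → ¬ A.Ev (A.S^[j] x)) : A.st (A.S^[n] x) q := by
  induction n with
  | zero => simpa using hs
  | succ n ih =>
    have h1 := ih (fun j hj hj' => he j hj (by omega))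
    have h2 := he (n + 1) (by omega) le_rfl
    rw [Function.iterate_succ_apply'] at h2 ⊢
    exact quiet_st hA _ q h1 h2

theorem stretch_mk (hA : A.Ax c0) (b : A.F) (hb : A.Mk b) (n : ℕ)
    (he : ∀ j, 1 ≤ j → j ≤ n → ¬ A.Ev (A.S^[j] (A.pi b))) : A.Mk (A.V^[n] (A.nxt^[n] b)) := by
  induction n with
  | zero => simpa using hb
  | succ n ih =>
    have h1 := ih (fun j hj hj' => he j hj (by omega))
    have h2 := he (n + 1) (by omega) le_rfl
    have hpi : A.pi (A.V^[n] (A.nxt^[n] b)) = A.S^[n] (A.pi b) := by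
      rw [pi_V_iter hA, pi_nxt_iter hA]
    rw [Function.iterate_succ_apply', ← hpi] at h2
    have h3 := quiet_mk hA _ h1 h2
    have e : A.V^[n + 1] (A.nxt^[n + 1] b) = A.nxt (A.V (A.V^[n] (A.nxt^[n] b))) := by
      have := V_nxt_iter hA (A.nxt^[n] b) (n + 1) 1
      simp only [Function.iterate_one] at this
      rw [Function.iterate_succ_apply' A.nxt, this, Function.iterate_succ_apply' A.V]
    rw [e]
    exact h3

theorem stretch_pt (hA : A.Ax c0) (b : A.F) (hb : A.Pt b) (n : ℕ)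
    (he : ∀ j, 1 ≤ j → j ≤ n → ¬ A.Ev (A.S^[j] (A.pi b))) :
    A.Pt (A.V^[n] (A.nxt^[2 * n] b)) := by
  induction n with
  | zero => simpa using hb
  | succ n ih =>
    have h1 := ih (fun j hj hj' => he j hj (by omega))
    have h2 := he (n + 1) (by omega) le_rfl
    have hpi : A.pi (A.V^[n] (A.nxt^[2 * n] b)) = A.S^[n] (A.pi b) := by
      rw [pi_V_iter hA, pi_nxt_iter hA]
    rw [Function.iterate_succ_apply', ← hpi] at h2
    have h3 := quiet_pt hA _ h1 h2
    have e : A.V^[n + 1] (A.nxt^[2 * (n + 1)] b) =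
        A.nxt (A.nxt (A.V (A.V^[n] (A.nxt^[2 * n] b)))) := by
      have := V_nxt_iter hA (A.nxt^[2 * n] b) (n + 1) 2
      rw [show 2 * (n + 1) = 2 + 2 * n by ring, Function.iterate_add_apply A.nxt, this,
        Function.iterate_succ_apply' A.V]
      rfl
    rw [e]
    exact h3

/-- In a quiet stretch the state before is the state after. -/
theorem stretch_st_back (hA : A.Ax c0) (x : A.T) (q : Fin m.nQ) (hx : A.Tm x) (hxo : x ≠ A.o)
    (n : ℕ) (hs : A.st (A.S^[n] x) q)
    (he : ∀ j, 1 ≤ j → j ≤ n → ¬ A.Ev (A.S^[j] x)) : A.st x q := by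
  obtain ⟨q', hq'⟩ := hA.st_ex x hx hxo
  have h := stretch_st hA x q' hq' n he
  have := hA.st_uniq _ _ _ hs h
  rw [this]
  exact hq'

/-- A pointer stays below the mark: if no event happens in the next `n` steps, then the pointer
is more than `n` positions below the mark of its register. From `stretch_mk`, `stretch_pt` and
`pt_mk` at the time `S^n x`: `V^n nxt^(2n) b < V^n nxt^n c`, so `nxt^n b < c`. -/
theorem pt_far_mk (hA : A.Ax c0) (b c : A.F) (hb : A.Pt b) (hc : A.Mk c) (hpi : A.pi b = A.pi c)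
    (hix : A.ix b = A.ix c) (n : ℕ)
    (he : ∀ j, 1 ≤ j → j ≤ n → ¬ A.Ev (A.S^[j] (A.pi b))) : A.flt (A.nxt^[n] b) c := by
  have h1 := stretch_pt hA b hb n he
  have h2 := stretch_mk hA c hc n (by rw [← hpi]; exact he)
  have h3 := hA.pt_mk _ _ h1 h2
    (by rw [pi_V_iter hA, pi_nxt_iter hA, pi_V_iter hA, pi_nxt_iter hA, hpi])
    (by rw [ix_V_iter hA, ix_nxt_iter hA, ix_V_iter hA, ix_nxt_iter hA, hix])
  rw [flt_V_iter hA, show 2 * n = n + n by ring, Function.iterate_add_apply,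
    flt_nxt_nxt hA] at h3
  exact h3

/-- A pointer is far from the first element if the last event is long ago: the pointer over
`S^n x` is `V^n nxt^(2n)` of the pointer over `x` (the state over `x` is the same test state by
`stretch_st_back`). -/
theorem pt_far_fst (hA : A.Ax c0) (x : A.T) (hx : A.Tm x) (hxo : x ≠ A.o) (n : ℕ) (b : A.F)
    (hb : A.Pt b) (hpi : A.pi b = A.S^[n] x)
    (he : ∀ j, 1 ≤ j → j ≤ n → ¬ A.Ev (A.S^[j] x)) : ∃ c, A.pi c = A.S^[n] x ∧
      A.ix c = A.ix b ∧ A.nxt^[2 * n] c = b := by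
  obtain ⟨q, z, p, hs, hq⟩ := hA.pt_st b hb
  rw [hpi] at hs
  have hs' := stretch_st_back hA x q hx hxo n hs he
  obtain ⟨b', hb1, hb2, hb3⟩ := hA.pt_ex x q _ z p hs' hq
  have h1 := stretch_pt hA b' hb3 n (by rw [hb1]; exact he)
  have h2 : A.V^[n] (A.nxt^[2 * n] b') = b := by
    apply hA.pt_uniq _ _ h1 hb
    rw [pi_V_iter hA, pi_nxt_iter hA, hb1, hpi]
  refine ⟨A.V^[n] b', ?_, ?_, ?_⟩
  · rw [pi_V_iter hA, hb1]
  · rw [ix_V_iter hA, hb2]
  · rw [← V_nxt_iter hA, h2]

end Pool.Agent.LIN.Tower
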