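import Pool.Agent.LIN.TD2

/-! # [LIN-TD3] block C: the run of a tower -/

namespace Pool.Agent.LIN.Tower

variable {m : Mach} {A : Tower m} {c0 : m.Config}

/-- The step functions `dl` and `ns` describe the machine. In a test state `z` is the statement
that the register is zero. -/
theorem step_of_dl (m : Mach) (c : m.Config) (q' : Fin m.nQ) (z : Prop) [Decidable z]
    (hz : ∀ i z₁ p₁, m.prog c.1 = Instr.test i z₁ p₁ → (z ↔ c.2 i = 0)) (hn : ns m c.1 z q') :
    m.Step c (q', fun i => c.2 i + dl m c.1 z i - 1) := by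
  unfold Mach.Step
  unfold ns at hn
  unfold dl
  cases h : m.prog c.1 with
  | inc i q =>
    simp only [h] at hn ⊢
    refine ⟨hn, ?_⟩
    funext j
    by_cases hj : j = i
    · subst hj
      rw [if_pos rfl, Function.update_self]
      omega
    · rw [if_neg hj, Function.update_of_ne hj]
      omega
  | test i z₁ p₁ =>
    have hzi := hz i z₁ p₁ h
    simp only [h] at hn ⊢
    rcases hn with ⟨hz1, hn⟩ | ⟨hz1, hn⟩
    · refine Or.inl ⟨hzi.1 hz1, hn, ?_⟩
      funext j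
      rw [if_pos hz1]
      omega
    · have h0 : c.2 i ≠ 0 := fun h0 => hz1 (hzi.2 h0)
      refine Or.inr ⟨Nat.pos_of_ne_zero h0, hn, ?_⟩
      funext j
      rw [if_neg hz1]
      by_cases hj : j = i
      · subst hj
        rw [if_pos rfl, Function.update_self]
        omega
      · rw [if_neg hj, Function.update_of_ne hj]
        omega
  | guess a b =>
    simp only [h] at hn ⊢
    refine ⟨hn, ?_⟩
    funext j
    omega

/-- standard times are times -/
theorem TD3_tm (hA : A.Ax c0) (k : ℕ) : A.Tm (A.S^[k] A.o) := by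
  unfold Tm
  rw [h_S_iter hA, hA.org_h _ hA.o_org]

theorem TD3_ne_o (hA : A.Ax c0) (k : ℕ) (hk : 1 ≤ k) : A.S^[k] A.o ≠ A.o := by
  obtain ⟨j, rfl⟩ : ∃ j, k = j + 1 := ⟨k - 1, by omega⟩
  rw [Function.iterate_succ_apply']
  exact hA.o_org _

theorem TD3_quiet (hA : A.Ax c0) (n j : ℕ) (hj : j < 2 ^ n) :
    ∀ i, 1 ≤ i → i ≤ j → ¬ A.Ev (A.S^[i] (A.S^[2 ^ n] A.o)) := by
  intro i hi hij he
  rw [← Function.iterate_add_apply, Ev_pow hA _ hA.o_org] at he
  obtain ⟨k, hk⟩ := he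
  have h1 : 2 ^ n < 2 ^ k := by omega
  have h2 : 2 ^ k < 2 ^ (n + 1) := by
    rw [pow_succ]
    omega
  have h3 := (Nat.pow_lt_pow_iff_right (by norm_num : 1 < 2)).1 h1
  have h4 := (Nat.pow_lt_pow_iff_right (by norm_num : 1 < 2)).1 h2
  omega

/-- From the beginning of the phase to the time `x` of the phase (`stretch_*`, `Ev_pow`: the
times strictly between `2^n` and `2^(n+1)` are not in `Ev`). -/
theorem spec_phase (hA : A.Ax c0) (c : m.Config) (n x : ℕ) (h : A.SpecAt c n (2 ^ n))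
    (h1 : 2 ^ n ≤ x) (h2 : x < 2 ^ (n + 1)) : A.SpecAt c n x := by
  obtain ⟨j, rfl⟩ : ∃ j, x = j + 2 ^ n := ⟨x - 2 ^ n, by omega⟩
  have hj : j < 2 ^ n := by
    rw [pow_succ] at h2
    omega
  have hq := TD3_quiet hA n j hj
  have hpos : 1 ≤ 2 ^ n := Nat.one_le_two_pow
  have htm := TD3_tm hA (2 ^ n)
  have hne := TD3_ne_o hA (2 ^ n) hpos
  obtain ⟨hs, hm, hp⟩ := h
  have hst : A.st (A.S^[j + 2 ^ n] A.o) c.1 := by
    rw [Function.iterate_add_apply]
    exact stretch_st hA _ c.1 hs j hq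
  refine ⟨hst, ?_, ?_⟩
  · intro b hb hbm
    obtain ⟨b0, hpi0, hix0, hm0⟩ := hA.mk_ex _ (A.ix b) htm hne
    obtain ⟨a0, ha0, hab⟩ := hm b0 hpi0 hm0
    have hmv := stretch_mk hA b0 hm0 j (by rw [hpi0]; exact hq)
    have hpi : A.pi (A.V^[j] (A.nxt^[j] b0)) = A.pi b := by
      rw [pi_V_iter hA, pi_nxt_iter hA, hpi0, hb, Function.iterate_add_apply]
    have hix : A.ix (A.V^[j] (A.nxt^[j] b0)) = A.ix b := by
      rw [ix_V_iter hA, ix_nxt_iter hA, hix0]
    have heq := hA.mk_uniq _ _ hmv hbm hpi hix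
    refine ⟨A.V^[j] a0, (Fst_V_iter hA j a0).2 ha0, ?_⟩
    rw [hix0] at hab
    have h3 : A.nxt^[j + 2 ^ n + c.2 (A.ix b)] (A.V^[j] a0) = A.V^[j] (A.nxt^[j] b0) := by
      rw [← hab, ← Function.iterate_add_apply, V_nxt_iter hA, Nat.add_assoc]
    exact h3.trans heq
  · intro b hb hbp
    obtain ⟨q, z, p, hq1, hq2⟩ := hA.pt_st b hbp
    rw [hb] at hq1
    have hqc : q = c.1 := hA.st_uniq _ _ _ hq1 hst
    rw [hqc] at hq2
    obtain ⟨b0, hpi0, hix0, hp0⟩ := hA.pt_ex _ c.1 (A.ix b) z p hs hq2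
    obtain ⟨a0, ha0, hab⟩ := hp b0 hpi0 hp0
    have hpv := stretch_pt hA b0 hp0 j (by rw [hpi0]; exact hq)
    have hpi : A.pi (A.V^[j] (A.nxt^[2 * j] b0)) = A.pi b := by
      rw [pi_V_iter hA, pi_nxt_iter hA, hpi0, hb, Function.iterate_add_apply]
    have heq := hA.pt_uniq _ _ hpv hbp hpi
    refine ⟨A.V^[j] a0, (Fst_V_iter hA j a0).2 ha0, ?_⟩
    have e0 : 2 * (2 ^ n - 2 ^ n) = 0 := by omega
    rw [e0] at hab
    have e1 : 2 * (j + 2 ^ n - 2 ^ n) = 2 * j := by omega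
    rw [← heq, ← hab, e1, V_nxt_iter hA]
    rfl

/-- the final part of `spec_next`: the configuration after the event -/
theorem TD3_next (hA : A.Ax c0) (c : m.Config) (n : ℕ) (h : A.SpecAt c n (2 ^ (n + 1) - 1))
    (q' : Fin m.nQ) (hq' : A.st (A.S (A.S^[2 ^ (n + 1) - 1] A.o)) q') (d : Fin m.k → ℕ)
    (hd : ∀ i, 1 ≤ c.2 i + d i)
    (hmk : ∀ b, A.pi b = A.S^[2 ^ (n + 1) - 1] A.o → A.Mk b → A.Mk (A.nxt^[d (A.ix b)] (A.V b))) :
    A.SpecAt (q', fun i => c.2 i + d i - 1) (n + 1) (2 ^ (n + 1)) := by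
  have hpos : 1 ≤ 2 ^ n := Nat.one_le_two_pow
  have hpow : 2 ^ (n + 1) = 2 * 2 ^ n := by rw [pow_succ]; ring
  have hS : A.S (A.S^[2 ^ (n + 1) - 1] A.o) = A.S^[2 ^ (n + 1)] A.o := by
    have h4 : 2 ^ (n + 1) = (2 ^ (n + 1) - 1) + 1 := by omega
    conv_rhs => rw [h4]
    rw [Function.iterate_succ_apply']
  have htm := TD3_tm hA (2 ^ (n + 1) - 1)
  have hne := TD3_ne_o hA (2 ^ (n + 1) - 1) (by omega)
  obtain ⟨hs, hm, hp⟩ := h
  have hev : A.Ev (A.S^[2 ^ (n + 1)] A.o) := (Ev_pow hA _ hA.o_org _).2 ⟨n + 1, rfl⟩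
  refine ⟨by rw [← hS]; exact hq', ?_, ?_⟩
  · intro b hb hbm
    obtain ⟨b0, hpi0, hix0, hm0⟩ := hA.mk_ex _ (A.ix b) htm hne
    obtain ⟨a0, ha0, hab⟩ := hm b0 hpi0 hm0
    have hmv := hmk b0 hpi0 hm0
    have hpi : A.pi (A.nxt^[d (A.ix b0)] (A.V b0)) = A.pi b := by
      rw [pi_nxt_iter hA, hA.pi_V, hpi0, hb, hS]
    have hix : A.ix (A.nxt^[d (A.ix b0)] (A.V b0)) = A.ix b := by
      rw [ix_nxt_iter hA, hA.ix_V, hix0]
    have heq := hA.mk_uniq _ _ hmv hbm hpi hix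
    refine ⟨A.V a0, (Fst_V hA a0).2 ha0, ?_⟩
    rw [hix0] at hab heq
    have hV := V_nxt_iter hA a0 1 (2 ^ (n + 1) - 1 + c.2 (A.ix b))
    rw [Function.iterate_one] at hV
    have hdi := hd (A.ix b)
    have h3 : A.nxt^[2 ^ (n + 1) + (c.2 (A.ix b) + d (A.ix b) - 1)] (A.V a0)
        = A.nxt^[d (A.ix b)] (A.V b0) := by
      rw [← hab, hV, ← Function.iterate_add_apply]
      have h4 : 2 ^ (n + 1) + (c.2 (A.ix b) + d (A.ix b) - 1)
          = d (A.ix b) + (2 ^ (n + 1) - 1 + c.2 (A.ix b)) := by omega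
      rw [h4]
    exact h3.trans heq
  · intro b hb hbp
    have hf := event_pt hA b hbp (by rw [hb]; exact hev)
    refine ⟨b, hf, ?_⟩
    have e0 : 2 * (2 ^ (n + 1) - 2 ^ (n + 1)) = 0 := by omega
    rw [e0]
    rfl

open Classical in
/-- From the end of the phase to the beginning of the next one (`event_other`, `event_test`,
`event_pt`, `step_of_dl`). At the time `x = 2^(n+1) - 1` the pointer is in position
`2^(n+1) - 2 = x - 1` and the mark in position `x + R`, so they are next to each other iff `R = 0`. -/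
theorem spec_next (hA : A.Ax c0) (c : m.Config) (n : ℕ) (h : A.SpecAt c n (2 ^ (n + 1) - 1)) :
    ∃ c', m.Step c c' ∧ A.SpecAt c' (n + 1) (2 ^ (n + 1)) := by
  have hpos : 1 ≤ 2 ^ n := Nat.one_le_two_pow
  have hpow : 2 ^ (n + 1) = 2 * 2 ^ n := by rw [pow_succ]; ring
  have hS : A.S (A.S^[2 ^ (n + 1) - 1] A.o) = A.S^[2 ^ (n + 1)] A.o := by
    have h4 : 2 ^ (n + 1) = (2 ^ (n + 1) - 1) + 1 := by omega
    conv_rhs => rw [h4]
    rw [Function.iterate_succ_apply']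
  have hev : A.Ev (A.S (A.S^[2 ^ (n + 1) - 1] A.o)) := by
    rw [hS]
    exact (Ev_pow hA _ hA.o_org _).2 ⟨n + 1, rfl⟩
  have htm := TD3_tm hA (2 ^ (n + 1) - 1)
  have hne := TD3_ne_o hA (2 ^ (n + 1) - 1) (by omega)
  by_cases ht : ∃ i z p, m.prog c.1 = Instr.test i z p
  · obtain ⟨i, z, p, ht⟩ := ht
    obtain ⟨b, hpb, hib, hb⟩ := hA.pt_ex _ c.1 i z p h.1 ht
    obtain ⟨cc, hpc, hic, hc⟩ := hA.mk_ex _ i htm hne
    obtain ⟨⟨q', hq1, hq2⟩, hmk⟩ := event_test hA _ c.1 i z p h.1 hev ht b cc hb hc hpb hpc hic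
    obtain ⟨a, ha, hab⟩ := h.2.2 b hpb hb
    obtain ⟨a', ha', hac⟩ := h.2.1 cc hpc hc
    rw [hic] at hac
    have hpa : A.pi a = A.pi a' := by
      have h3 := pi_nxt_iter hA (2 * (2 ^ (n + 1) - 1 - 2 ^ n)) a
      have h4 := pi_nxt_iter hA (2 ^ (n + 1) - 1 + c.2 i) a'
      rw [hab] at h3
      rw [hac] at h4
      rw [← h3, ← h4, hpb, hpc]
    have hia : A.ix a = A.ix a' := by
      have h3 := ix_nxt_iter hA (2 * (2 ^ (n + 1) - 1 - 2 ^ n)) a
      have h4 := ix_nxt_iter hA (2 ^ (n + 1) - 1 + c.2 i) a'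
      rw [hab] at h3
      rw [hac] at h4
      rw [← h3, ← h4, hib, hic]
    have haa : a = a' := fst_unique hA a a' ha ha' hpa hia
    have hzero : cc = A.nxt b ↔ c.2 i = 0 := by
      rw [← hac, ← hab, ← haa, ← Function.iterate_succ_apply' (f := A.nxt), nxt_iter_inj hA]
      omega
    refine ⟨(q', fun j => c.2 j + dl m c.1 (cc = A.nxt b) j - 1), ?_, ?_⟩
    · refine step_of_dl m c q' (cc = A.nxt b) (fun i' z' p' h' => ?_) hq2
      rw [ht] at h'
      injection h' with h5 h6 h7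
      rw [← h5]
      exact hzero
    · refine TD3_next hA c n h q' hq1 (fun j => dl m c.1 (cc = A.nxt b) j) (fun j => ?_) hmk
      unfold dl
      simp only [ht]
      by_cases hz : cc = A.nxt b
      · rw [if_pos hz]
        omega
      · rw [if_neg hz]
        by_cases hj : j = i
        · rw [if_pos hj, hj]
          have : c.2 i ≠ 0 := fun h0 => hz (hzero.2 h0)
          omega
        · rw [if_neg hj]
          omega
  · push Not at ht
    obtain ⟨⟨q', hq1, hq2⟩, hmk⟩ := event_other hA _ c.1 h.1 hev ht False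
    refine ⟨(q', fun j => c.2 j + dl m c.1 False j - 1), ?_, ?_⟩
    · exact step_of_dl m c q' False (fun i' z' p' h' => absurd h' (ht i' z' p')) hq2
    · refine TD3_next hA c n h q' hq1 (fun j => dl m c.1 False j) (fun j => ?_) hmk
      unfold dl
      cases hh : m.prog c.1 with
      | inc i q =>
        simp only
        split_ifs <;> omega
      | test i z p => exact absurd hh (ht i z p)
      | guess a b =>
        simp only
        omega

/-- Time one shows `c0` (`in_st`, `in_mk`, `pt_start`, `Ev_one`). -/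
theorem spec_zero (hA : A.Ax c0) : A.SpecAt c0 0 (2 ^ 0) := by
  refine ⟨hA.in_st, ?_, ?_⟩
  · intro b hb hbm
    have h1 := (At_iff hA _ b).1 (hA.in_mk b hbm hb)
    obtain ⟨a, ha, hab⟩ := h1
    refine ⟨a, ha, ?_⟩
    have h2 : 2 ^ 0 + c0.2 (A.ix b) = c0.2 (A.ix b) + 1 := by omega
    rw [h2]
    exact hab
  · intro b hb hbp
    have hev : A.Ev (A.pi b) := by
      rw [hb]
      exact hA.Ev_one _ hA.o_org
    exact ⟨b, hA.pt_start b hbp hev, rfl⟩

/-- The run of a tower: from `spec_zero`, `spec_phase`, `spec_next` by dependent choice. -/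
theorem exists_run (hA : A.Ax c0) : ∃ r : m.Run c0, A.Spec r.1 := by
  have hstep : ∀ (n : ℕ) (c : {c : m.Config // A.SpecAt c n (2 ^ n)}),
      ∃ c' : {c' : m.Config // A.SpecAt c' (n + 1) (2 ^ (n + 1))}, m.Step c.1 c'.1 := by
    intro n c
    have hpos : 1 ≤ 2 ^ n := Nat.one_le_two_pow
    have hpow : 2 ^ (n + 1) = 2 * 2 ^ n := by rw [pow_succ]; ring
    have h1 := spec_phase hA c.1 n (2 ^ (n + 1) - 1) c.2 (by omega) (by omega)
    obtain ⟨c', h2, h3⟩ := spec_next hA c.1 n h1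
    exact ⟨⟨c', h3⟩, h2⟩
  choose g hg using hstep
  let f : ∀ n : ℕ, {c : m.Config // A.SpecAt c n (2 ^ n)} := fun n =>
    Nat.rec (motive := fun n => {c : m.Config // A.SpecAt c n (2 ^ n)}) ⟨c0, spec_zero hA⟩
      (fun n c => g n c) n
  refine ⟨⟨fun n => (f n).1, rfl, fun n => hg n (f n)⟩, ?_⟩
  intro n x h1 h2
  exact spec_phase hA _ n x (f n).2 h1 h2

end Pool.Agent.LIN.Tower
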