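import Pool.Agent.LIN.TC2
import Pool.Agent.LIN.TC3
import Pool.Agent.LIN.TC4
import Pool.Agent.LIN.TB3
import Pool.Agent.LIN.TB4
import Pool.Agent.LIN.TB5

/-!
# [LIN] block C : definitions for the extension steps
-/

namespace Pool.Agent.LIN.Tower

variable {m : Mach}

/-- Two new elements `b₀`, `b₀'` in corresponding rows, far from the old elements and in the same
cut of the old elements of the row. -/
structure RowPair (A B : Tower m) (K : ℕ) (l : List ((A.T ⊕ A.F) × (B.T ⊕ B.F)))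
    (x₀ : A.T) (x₀' : B.T) (i : Fin m.k) (b₀ : A.F) (b₀' : B.F) : Prop where
  mem : (Sum.inl x₀, Sum.inl x₀') ∈ l
  memo : (Sum.inl A.o, Sum.inl B.o) ∈ l
  pi : A.pi b₀ = x₀
  pi' : B.pi b₀' = x₀'
  ix : A.ix b₀ = i
  ix' : B.ix b₀' = i
  far : A.FarL B K l (Sum.inr b₀)
  far' : A.FarR B K l (Sum.inr b₀')
  cut : ∀ b ∈ l, ∀ w : List (Letter m), w.length ≤ K → ∀ v v', A.act w b.1 = Sum.inr v →
    B.act w b.2 = Sum.inr v' → A.pi v = x₀ → A.ix v = i → (A.flt v b₀ ↔ B.flt v' b₀')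

/-- The pairs obtained from the new elements of a row. -/
def CF (A B : Tower m) (b₀ : A.F) (b₀' : B.F) (n₀ k r : ℕ) (y : A.T ⊕ A.F) (y' : B.T ⊕ B.F) :
    Prop :=
  ∃ n g, r ≤ g ∧ g + r ≤ 2 * k ∧ n + r ≤ n₀ + k ∧ (r ≤ n ∨ A.pi b₀ = A.o) ∧
    y = Sum.inr (A.V^[n] (A.nxt^[g] b₀)) ∧ y' = Sum.inr (B.V^[n] (B.nxt^[g] b₀'))

/-- Two new origins, far from the old elements, in the same cut of the old origins. -/
structure LevPair (A B : Tower m) (K : ℕ) (l : List ((A.T ⊕ A.F) × (B.T ⊕ B.F)))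
    (u₀ : A.T) (u₀' : B.T) : Prop where
  memo : (Sum.inl A.o, Sum.inl B.o) ∈ l
  org : A.Org u₀
  org' : B.Org u₀'
  far : A.FarL B K l (Sum.inl u₀)
  far' : A.FarR B K l (Sum.inl u₀')
  cut : ∀ b ∈ l, ∀ w : List (Letter m), w.length ≤ K → ∀ v v', A.act w b.1 = Sum.inl v →
    B.act w b.2 = Sum.inl v' → A.Org v → (A.lt v u₀ ↔ B.lt v' u₀')

/-- The pairs obtained from a new origin. -/
def CL (A B : Tower m) (u₀ : A.T) (u₀' : B.T) (k r : ℕ) (y : A.T ⊕ A.F) (y' : B.T ⊕ B.F) : Prop :=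
  ∃ a j, r ≤ a ∧ a + r ≤ 2 * k ∧ j + 1 ≤ 2 ^ (k - r) ∧
    y = Sum.inl (A.S^[j] (A.p^[a] u₀)) ∧ y' = Sum.inl (B.S^[j] (B.p^[a] u₀'))

/-- The position of the new element in its window, in units of level `κ`. -/
def j0 (k : ℕ) : ℕ := (k + 1) * 2 ^ (k + 1)

/-- The length of the window. -/
def Wd (κ k : ℕ) : ℕ := (2 * k + 1) * 2 ^ (κ + k + 1)

/-- Length of the words leading back to the first element of the window. -/
def RN (κ k : ℕ) : ℕ := (2 * k + 3) * 2 ^ (κ + k + 1)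

/-- First elements `x₀`, `x₀'` of two windows: the same residue; either both are times (`κ = 0`) or
both are on a high level (`κ = k`). -/
structure TPair (A B : Tower m) (κ k : ℕ) (x₀ : A.T) (x₀' : B.T) : Prop where
  rs : A.rs (κ + k + 1) x₀ = B.rs (κ + k + 1) x₀'
  typ : (κ = 0 ∧ A.Tm x₀ ∧ B.Tm x₀') ∨ (κ = k ∧ ¬ A.Tm x₀ ∧ ¬ B.Tm x₀')

/-- The pairs of elements of `T` obtained from a new element: `S^j p^a x₀` with the position
`j 2^a` near the middle of the window. -/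
def NT (A B : Tower m) (x₀ : A.T) (x₀' : B.T) (κ k r : ℕ) (y : A.T ⊕ A.F) (y' : B.T ⊕ B.F) :
    Prop :=
  ∃ a j, a + r ≤ κ + k ∧ (r ≤ a ∨ κ = 0) ∧
    j0 k * 2 ^ κ ≤ j * 2 ^ a + (k - r) * 2 ^ (κ + k + 1) ∧
    j * 2 ^ a ≤ j0 k * 2 ^ κ + (k - r) * 2 ^ (κ + k + 1) ∧
    y = Sum.inl (A.S^[j] (A.p^[a] x₀)) ∧ y' = Sum.inl (B.S^[j] (B.p^[a] x₀'))

end Pool.Agent.LIN.Tower
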