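import Pool.Agent.LIN.TE0

/-! # [LIN-TE1] block C: a new element of a row, the pairs obtained by words -/

namespace Pool.Agent.LIN.Tower

variable {m : Mach} {A B : Tower m} {c0 : m.Config} {K k n₀ : ℕ}
  {l : List ((A.T ⊕ A.F) × (B.T ⊕ B.F))} {x₀ : A.T} {x₀' : B.T} {i : Fin m.k}
  {b₀ : A.F} {b₀' : B.F}

/-- `x₀ = o` iff `x₀' = o` (both pairs are in `l`). -/
theorem row_o (hl : A.Loc B K l) (hp : A.RowPair B K l x₀ x₀' i b₀ b₀') :
    x₀ = A.o ↔ x₀' = B.o := by
  have h1 := (hl _ hp.mem [] (Nat.zero_le _)).2 _ hp.memo [] (Nat.zero_le _)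
  have h2 : (Sum.inl x₀ : A.T ⊕ A.F) = Sum.inl A.o ↔ (Sum.inl x₀' : B.T ⊕ B.F) = Sum.inl B.o := h1.1
  constructor
  · intro h
    exact Sum.inl_injective (h2.1 (congrArg Sum.inl h))
  · intro h
    exact Sum.inl_injective (h2.2 (congrArg Sum.inl h))

theorem row_mono {r : ℕ} {y : A.T ⊕ A.F} {y' : B.T ⊕ B.F} (h : A.CF B b₀ b₀' n₀ k (r + 1) y y') :
    A.CF B b₀ b₀' n₀ k r y y' := by
  obtain ⟨n, g, h1, h2, h3, h4, h5, h6⟩ := h
  refine ⟨n, g, by omega, by omega, by omega, ?_, h5, h6⟩
  rcases h4 with h4 | h4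
  · left; omega
  · right; exact h4

/-- Letter by letter. `s`: `n + 1`. `s'`: `n - 1` (`vPre_V`), and for `n = 0` the row lies over `o` and
the letter acts as the identity on both sides (`vPre_o`, `row_o`). `n`: `g + 1`. `n'`: `g - 1`
(`V_nxt_iter`, `prv_nxt`). `h`: the time `S^n x₀`, which is the word `s^n` at `x₀`: in `Lc`.
The other letters act as the identity. -/
theorem row_step (hA : A.Ax c0) (hB : B.Ax c0) (hl : A.Loc B K l)
    (hp : A.RowPair B K l x₀ x₀' i b₀ b₀') (hn : n₀ ≤ k) {r : ℕ}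
    {y : A.T ⊕ A.F} {y' : B.T ⊕ B.F} (h : A.CF B b₀ b₀' n₀ k (r + 1) y y') (a : Letter m) :
    A.CF B b₀ b₀' n₀ k r (A.act1 a y) (B.act1 a y') ∨
      A.Lc B (2 * k) l r (A.act1 a y) (B.act1 a y') := by
  have hm := row_mono h
  obtain ⟨n, g, h1, h2, h3, h4, rfl, rfl⟩ := h
  cases a with
  | s =>
    left
    refine ⟨n + 1, g, by omega, by omega, by omega, ?_, ?_, ?_⟩
    · rcases h4 with h4 | h4
      · left; omega
      · right; exact h4
    · rw [Function.iterate_succ_apply']
      rfl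
    · rw [Function.iterate_succ_apply']
      rfl
  | s' =>
    left
    cases n with
    | zero =>
      rcases h4 with h4 | h4
      · omega
      · have h5 : A.vPre (A.nxt^[g] b₀) = A.nxt^[g] b₀ :=
          vPre_o hA _ (by rw [pi_nxt_iter hA, h4])
        have h6 : x₀' = B.o := (row_o hl hp).1 (hp.pi ▸ h4)
        have h7 : B.vPre (B.nxt^[g] b₀') = B.nxt^[g] b₀' :=
          vPre_o hB _ (by rw [pi_nxt_iter hB, hp.pi', h6])
        refine ⟨0, g, by omega, by omega, by omega, Or.inr h4, ?_, ?_⟩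
        · show Sum.inr (A.vPre (A.nxt^[g] b₀)) = _
          rw [h5]
          rfl
        · show Sum.inr (B.vPre (B.nxt^[g] b₀')) = _
          rw [h7]
          rfl
    | succ n =>
      refine ⟨n, g, by omega, by omega, by omega, ?_, ?_, ?_⟩
      · rcases h4 with h4 | h4
        · left; omega
        · right; exact h4
      · show Sum.inr (A.vPre (A.V^[n + 1] (A.nxt^[g] b₀))) = _
        rw [Function.iterate_succ_apply', vPre_V hA]
      · show Sum.inr (B.vPre (B.V^[n + 1] (B.nxt^[g] b₀'))) = _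
        rw [Function.iterate_succ_apply', vPre_V hB]
  | p => exact Or.inl hm
  | l => exact Or.inl hm
  | h =>
    right
    refine ⟨_, hp.mem, List.replicate n Letter.s, by rw [List.length_replicate]; omega, ?_, ?_⟩
    · rw [act_replicate, act1_s_inl]
      show Sum.inl (A.pi (A.V^[n] (A.nxt^[g] b₀))) = _
      rw [pi_V_iter hA, pi_nxt_iter hA, hp.pi]
    · rw [act_replicate, act1_s_inl]
      show Sum.inl (B.pi (B.V^[n] (B.nxt^[g] b₀'))) = _
      rw [pi_V_iter hB, pi_nxt_iter hB, hp.pi']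
  | n =>
    left
    refine ⟨n, g + 1, by omega, by omega, by omega, ?_, ?_, ?_⟩
    · rcases h4 with h4 | h4
      · left; omega
      · right; exact h4
    · show Sum.inr (A.nxt (A.V^[n] (A.nxt^[g] b₀))) = _
      rw [V_nxt_iter hA, V_nxt_iter hA, Function.iterate_succ_apply']
    · show Sum.inr (B.nxt (B.V^[n] (B.nxt^[g] b₀'))) = _
      rw [V_nxt_iter hB, V_nxt_iter hB, Function.iterate_succ_apply']
  | n' =>
    left
    cases g with
    | zero => omega
    | succ g =>
      refine ⟨n, g, by omega, by omega, by omega, ?_, ?_, ?_⟩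
      · rcases h4 with h4 | h4
        · left; omega
        · right; exact h4
      · show Sum.inr (A.prv (A.V^[n] (A.nxt^[g + 1] b₀))) = _
        rw [V_nxt_iter hA, V_nxt_iter hA, Function.iterate_succ_apply', prv_nxt hA]
      · show Sum.inr (B.prv (B.V^[n] (B.nxt^[g + 1] b₀'))) = _
        rw [V_nxt_iter hB, V_nxt_iter hB, Function.iterate_succ_apply', prv_nxt hB]
  | t => exact Or.inl hm
  | f j => exact Or.inl hm
  | k j => exact Or.inl hm

/-- From an element of `CF 0` one comes back to `b₀` by a word of length `<= 4 k`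
(`s'^n`, then `n'^g`), the same word on both sides. -/
theorem row_rev (hA : A.Ax c0) (hB : B.Ax c0) (hn : n₀ ≤ k)
    {y : A.T ⊕ A.F} {y' : B.T ⊕ B.F} (h : A.CF B b₀ b₀' n₀ k 0 y y') :
    ∃ w : List (Letter m), w.length ≤ 4 * k ∧ A.act w y = Sum.inr b₀ ∧
      B.act w y' = Sum.inr b₀' := by
  obtain ⟨n, g, h1, h2, h3, h4, rfl, rfl⟩ := h
  refine ⟨List.replicate g Letter.n' ++ List.replicate n Letter.s', ?_, ?_, ?_⟩
  · rw [List.length_append, List.length_replicate, List.length_replicate]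
    omega
  · rw [act_append, act_replicate, act_replicate, act1_s'_inr, act1_n'_inr, vPre_iter_V_iter hA,
      prv_iter_nxt_iter hA]
  · rw [act_append, act_replicate, act_replicate, act1_s'_inr, act1_n'_inr, vPre_iter_V_iter hB,
      prv_iter_nxt_iter hB]

end Pool.Agent.LIN.Tower
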