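import Pool.Agent.LIN.TE1

/-! # [LIN-TE2] block C: a new element of a row, atomic statements -/

namespace Pool.Agent.LIN.Tower

variable {m : Mach} {A B : Tower m} {c0 : m.Config} {K k n₀ : ℕ}
  {l : List ((A.T ⊕ A.F) × (B.T ⊕ B.F))} {x₀ : A.T} {x₀' : B.T} {i : Fin m.k}
  {b₀ : A.F} {b₀' : B.F}

theorem te2_L (hA : A.Ax c0) (hB : B.Ax c0)
    (hp : A.RowPair B K l x₀ x₀' i b₀ b₀') (hn : n₀ ≤ k) (hK : 8 * k + 8 ≤ K)
    {y : A.T ⊕ A.F} {y' : B.T ⊕ B.F} (h : A.CF B b₀ b₀' n₀ k 0 y y')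
    (b : (A.T ⊕ A.F) × (B.T ⊕ B.F)) (hb : b ∈ l) (w' : List (Letter m))
    (hw' : w'.length ≤ 2 * k + 1) : A.act w' b.1 ≠ y := by
  intro he
  obtain ⟨w, hw, h1, -⟩ := row_rev hA hB hn h
  refine hp.far b hb (w ++ w') ?_ ?_
  · rw [List.length_append]
    omega
  · rw [act_append, he, h1]

theorem te2_R (hA : A.Ax c0) (hB : B.Ax c0)
    (hp : A.RowPair B K l x₀ x₀' i b₀ b₀') (hn : n₀ ≤ k) (hK : 8 * k + 8 ≤ K)
    {y : A.T ⊕ A.F} {y' : B.T ⊕ B.F} (h : A.CF B b₀ b₀' n₀ k 0 y y')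
    (b : (A.T ⊕ A.F) × (B.T ⊕ B.F)) (hb : b ∈ l) (w' : List (Letter m))
    (hw' : w'.length ≤ 2 * k + 1) : B.act w' b.2 ≠ y' := by
  intro he
  obtain ⟨w, hw, -, h1⟩ := row_rev hA hB hn h
  refine hp.far' b hb (w ++ w') ?_ ?_
  · rw [List.length_append]
    omega
  · rw [act_append, he, h1]

theorem te2_word (A : Tower m) (a : Letter m) (n : ℕ) (x : A.T) :
    A.act (a :: List.replicate n Letter.s) (Sum.inl x) = A.act1 a (Sum.inl (A.S^[n] x)) := by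
  show A.act1 a (A.act (List.replicate n Letter.s) (Sum.inl x)) = _
  rw [act_replicate, act1_s_inl]

theorem te2_mk (hA : A.Ax c0) (b : A.F) (n : ℕ) (x : A.T) (hx : A.pi b = A.S^[n] x)
    (hb : A.Mk b) : A.act (Letter.k (A.ix b) :: List.replicate n Letter.s) (Sum.inl x) =
      Sum.inr b := by
  rw [te2_word, ← hx]
  exact mkU_eq hA b hb

theorem te2_pt (hA : A.Ax c0) (b : A.F) (n : ℕ) (x : A.T) (hx : A.pi b = A.S^[n] x)
    (hb : A.Pt b) : A.act (Letter.t :: List.replicate n Letter.s) (Sum.inl x) =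
      Sum.inr b := by
  rw [te2_word, ← hx]
  exact ptU_eq hA b hb

/-- `T, L, E, q`: false on both sides. `i`: the index is `i` on both sides. `M`: a mark
`V^n nxt^g b₀` is `mkU i (S^n x₀)` (`mkU_eq`), a word of length `n + 1` at `x₀`; with `row_rev` this
contradicts `far` (and `far'` on the right side): false on both sides. `P`: the same with `ptU`. -/
theorem row_pr (hA : A.Ax c0) (hB : B.Ax c0) (hl : A.Loc B K l)
    (hp : A.RowPair B K l x₀ x₀' i b₀ b₀') (hn : n₀ ≤ k) (hK : 8 * k + 8 ≤ K)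
    {y : A.T ⊕ A.F} {y' : B.T ⊕ B.F} (h : A.CF B b₀ b₀' n₀ k 0 y y') (c : PSym m) :
    A.Pr c y ↔ B.Pr c y' := by
  have hL := te2_L hA hB hp hn hK h _ hp.mem
  have hR := te2_R hA hB hp hn hK h _ hp.mem
  obtain ⟨n, g, -, hg, hnk, -, rfl, rfl⟩ := h
  have hpi : A.pi (A.V^[n] (A.nxt^[g] b₀)) = A.S^[n] x₀ := by
    rw [pi_V_iter hA, pi_nxt_iter hA, hp.pi]
  have hpi' : B.pi (B.V^[n] (B.nxt^[g] b₀')) = B.S^[n] x₀' := by
    rw [pi_V_iter hB, pi_nxt_iter hB, hp.pi']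
  have hlen : ∀ a : Letter m, (a :: List.replicate n Letter.s).length ≤ 2 * k + 1 := by
    intro a
    rw [List.length_cons, List.length_replicate]
    omega
  cases c with
  | T => exact Iff.rfl
  | L => exact Iff.rfl
  | E => exact Iff.rfl
  | M =>
    exact ⟨fun hb => absurd (te2_mk hA _ n x₀ hpi hb) (hL _ (hlen _)),
      fun hb => absurd (te2_mk hB _ n x₀' hpi' hb) (hR _ (hlen _))⟩
  | P =>
    exact ⟨fun hb => absurd (te2_pt hA _ n x₀ hpi hb) (hL _ (hlen _)),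
      fun hb => absurd (te2_pt hB _ n x₀' hpi' hb) (hR _ (hlen _))⟩
  | q q => exact Iff.rfl
  | i j =>
    show A.ix (A.V^[n] (A.nxt^[g] b₀)) = j ↔ B.ix (B.V^[n] (B.nxt^[g] b₀')) = j
    rw [ix_V_iter hA, ix_nxt_iter hA, ix_V_iter hB, ix_nxt_iter hB, hp.ix, hp.ix']

/-- `V_nxt_eq_iff`, `nxt_iter_inj`. -/
theorem row_eq (hA : A.Ax c0) (hB : B.Ax c0)
    {y z : A.T ⊕ A.F} {y' z' : B.T ⊕ B.F} (h : A.CF B b₀ b₀' n₀ k 0 y y')
    (h' : A.CF B b₀ b₀' n₀ k 0 z z') : y = z ↔ y' = z' := by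
  obtain ⟨n, g, -, -, -, -, rfl, rfl⟩ := h
  obtain ⟨n', g', -, -, -, -, rfl, rfl⟩ := h'
  rw [Sum.inr.injEq, Sum.inr.injEq, V_nxt_eq_iff hA b₀ b₀ rfl, V_nxt_eq_iff hB b₀' b₀' rfl,
    nxt_iter_inj hA, nxt_iter_inj hB]

/-- `V_nxt_flt_iff`, `flt_nxt_iter`. -/
theorem row_lt (hA : A.Ax c0) (hB : B.Ax c0)
    {y z : A.T ⊕ A.F} {y' z' : B.T ⊕ B.F} (h : A.CF B b₀ b₀' n₀ k 0 y y')
    (h' : A.CF B b₀ b₀' n₀ k 0 z z') : A.ltU y z ↔ B.ltU y' z' := by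
  obtain ⟨n, g, -, -, -, -, rfl, rfl⟩ := h
  obtain ⟨n', g', -, -, -, -, rfl, rfl⟩ := h'
  show A.flt _ _ ↔ B.flt _ _
  rw [V_nxt_flt_iff hA b₀ b₀ rfl, V_nxt_flt_iff hB b₀' b₀' rfl,
    flt_nxt_iter hA, flt_nxt_iter hB]

/-- False on both sides: `row_rev`, `far`, `far'`. -/
theorem row_eqL (hA : A.Ax c0) (hB : B.Ax c0)
    (hp : A.RowPair B K l x₀ x₀' i b₀ b₀') (hn : n₀ ≤ k) (hK : 8 * k + 8 ≤ K)
    {y z : A.T ⊕ A.F} {y' z' : B.T ⊕ B.F} (h : A.CF B b₀ b₀' n₀ k 0 y y')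
    (h' : A.Lc B (2 * k) l 0 z z') : y = z ↔ y' = z' := by
  obtain ⟨b, hb, w, hw, rfl, rfl⟩ := h'
  exact ⟨fun e => absurd e.symm (te2_L hA hB hp hn hK h b hb w (by omega)),
    fun e => absurd e.symm (te2_R hA hB hp hn hK h b hb w (by omega))⟩

end Pool.Agent.LIN.Tower
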