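import Pool.Agent.LIN.TE1

/-! # [LIN-TE2b] block C: a new element of a row, comparison with the old elements -/

namespace Pool.Agent.LIN.Tower

variable {m : Mach} {A B : Tower m} {c0 : m.Config} {K k n₀ : ℕ}
  {l : List ((A.T ⊕ A.F) × (B.T ⊕ B.F))} {x₀ : A.T} {x₀' : B.T} {i : Fin m.k}
  {b₀ : A.F} {b₀' : B.F}

/-- both components are of the same sort -/
theorem te2b_sort (hl : A.Loc B K l) {b : (A.T ⊕ A.F) × (B.T ⊕ B.F)} (hb : b ∈ l)
    {w : List (Letter m)} (hw : w.length ≤ K) :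
    (∃ t t', A.act w b.1 = Sum.inl t ∧ B.act w b.2 = Sum.inl t') ∨
      ∃ v v', A.act w b.1 = Sum.inr v ∧ B.act w b.2 = Sum.inr v' := by
  have h1 := (hl b hb w hw).1 PSym.T
  rcases h2 : A.act w b.1 with t | v <;> rcases h3 : B.act w b.2 with t' | v'
  · exact Or.inl ⟨t, t', rfl, rfl⟩
  · rw [h2, h3] at h1
    exact (h1.1 trivial).elim
  · rw [h2, h3] at h1
    exact (h1.2 trivial).elim
  · exact Or.inr ⟨v, v', rfl, rfl⟩

theorem te2b_vPre (A : Tower m) (w : List (Letter m)) (u : A.T ⊕ A.F) (v₁ : A.F) (n : ℕ)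
    (h : A.act w u = Sum.inr v₁) :
    A.act (List.replicate n Letter.s' ++ w) u = Sum.inr (A.vPre^[n] v₁) := by
  rw [act_append, h, act_replicate, act1_s'_inr]

theorem te2b_prv (A : Tower m) (w : List (Letter m)) (u : A.T ⊕ A.F) (v₁ : A.F) (n : ℕ)
    (h : A.act w u = Sum.inr v₁) :
    A.act (List.replicate n Letter.n' ++ w) u = Sum.inr (A.prv^[n] v₁) := by
  rw [act_append, h, act_replicate, act1_n'_inr]

theorem te2b_cases (hA : A.Ax c0) (hB : B.Ax c0) (hl : A.Loc B K l)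
    (hp : A.RowPair B K l x₀ x₀' i b₀ b₀') (hK : 8 * k + 8 ≤ K) {n g : ℕ} (hg : g ≤ 2 * k)
    (hn : n ≤ 2 * k) {b : (A.T ⊕ A.F) × (B.T ⊕ B.F)} (hb : b ∈ l) {w : List (Letter m)}
    (hw : w.length ≤ 2 * k) {v₁ : A.F} {v₁' : B.F} (hz : A.act w b.1 = Sum.inr v₁)
    (hz' : B.act w b.2 = Sum.inr v₁') :
    (¬ (A.pi v₁ = A.S^[n] x₀ ∧ A.ix v₁ = i) ∧ ¬ (B.pi v₁' = B.S^[n] x₀' ∧ B.ix v₁' = i)) ∨
      ∃ v v', A.V^[n] v = v₁ ∧ B.V^[n] v' = v₁' ∧ A.pi v = x₀ ∧ A.ix v = i ∧ B.pi v' = x₀' ∧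
        B.ix v' = i ∧ (∀ j ≤ g, A.nxt^[j] b₀ ≠ v) ∧ (∀ j ≤ g, B.nxt^[j] b₀' ≠ v') ∧
        (A.flt v b₀ ↔ B.flt v' b₀') := by
  have h1 : A.pi v₁ = A.S^[n] x₀ ↔ B.pi v₁' = B.S^[n] x₀' := by
    have h2 := ((hl b hb (Letter.h :: w) (by rw [List.length_cons]; omega)).2 _ hp.mem
      (List.replicate n Letter.s) (by rw [List.length_replicate]; omega)).1
    have e1 : A.act (Letter.h :: w) b.1 = Sum.inl (A.pi v₁) := by
      show A.act1 Letter.h (A.act w b.1) = _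
      rw [hz]
      rfl
    have e2 : B.act (Letter.h :: w) b.2 = Sum.inl (B.pi v₁') := by
      show B.act1 Letter.h (B.act w b.2) = _
      rw [hz']
      rfl
    have e3 : A.act (List.replicate n Letter.s) (Sum.inl x₀) = Sum.inl (A.S^[n] x₀) := by
      rw [act_replicate, act1_s_inl]
    have e4 : B.act (List.replicate n Letter.s) (Sum.inl x₀') = Sum.inl (B.S^[n] x₀') := by
      rw [act_replicate, act1_s_inl]
    rw [e1, e2, e3, e4, Sum.inl.injEq, Sum.inl.injEq] at h2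
    exact h2
  have h2 : A.ix v₁ = i ↔ B.ix v₁' = i := by
    have h3 := (hl b hb w (by omega)).1 (PSym.i i)
    rw [hz, hz'] at h3
    exact h3
  by_cases h3 : A.pi v₁ = A.S^[n] x₀ ∧ A.ix v₁ = i
  · right
    have h3' : B.pi v₁' = B.S^[n] x₀' ∧ B.ix v₁' = i := ⟨h1.1 h3.1, h2.1 h3.2⟩
    obtain ⟨v, hv1, hv2, hv3⟩ := exists_V_iter hA v₁ x₀ n h3.1
    obtain ⟨v', hv1', hv2', hv3'⟩ := exists_V_iter hB v₁' x₀' n h3'.1
    have e1 : A.vPre^[n] v₁ = v := by rw [← hv1, vPre_iter_V_iter hA]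
    have e1' : B.vPre^[n] v₁' = v' := by rw [← hv1', vPre_iter_V_iter hB]
    have e2 := te2b_vPre A w b.1 v₁ n hz
    have e2' := te2b_vPre B w b.2 v₁' n hz'
    rw [e1] at e2
    rw [e1'] at e2'
    have hlen : (List.replicate n Letter.s' ++ w : List (Letter m)).length = n + w.length := by
      rw [List.length_append, List.length_replicate]
    refine ⟨v, v', hv1, hv1', hv2, hv3.trans h3.2, hv2', hv3'.trans h3'.2, ?_, ?_, ?_⟩
    · intro j hj h4
      have e3 := te2b_prv A _ b.1 v j e2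
      rw [← h4, prv_iter_nxt_iter hA] at e3
      exact hp.far b hb _ (by
        rw [List.length_append, List.length_replicate, hlen]
        omega) e3
    · intro j hj h4
      have e3 := te2b_prv B _ b.2 v' j e2'
      rw [← h4, prv_iter_nxt_iter hB] at e3
      exact hp.far' b hb _ (by
        rw [List.length_append, List.length_replicate, hlen]
        omega) e3
    · exact hp.cut b hb _ (by rw [hlen]; omega) v v' e2 e2' hv2 (hv3.trans h3.2)
  · left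
    exact ⟨h3, fun h4 => h3 ⟨h1.2 h4.1, h2.2 h4.2⟩⟩

theorem te2b_row (hA : A.Ax c0) {x : A.T} {j : Fin m.k} {b : A.F} (h1 : A.pi b = x)
    (h2 : A.ix b = j) (n g : ℕ) :
    A.pi (A.V^[n] (A.nxt^[g] b)) = A.S^[n] x ∧ A.ix (A.V^[n] (A.nxt^[g] b)) = j := by
  rw [pi_V_iter hA, pi_nxt_iter hA, h1, ix_V_iter hA, ix_nxt_iter hA, h2]
  exact ⟨rfl, rfl⟩

/-- in a row, for different elements -/
theorem te2b_not (hA : A.Ax c0) {b v : A.F} (h1 : A.pi b = A.pi v) (h2 : A.ix b = A.ix v)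
    (h3 : b ≠ v) : A.flt b v ↔ ¬ A.flt v b := by
  constructor
  · intro h4 h5
    exact hA.flt_irrefl _ (hA.flt_trans _ _ _ h4 h5)
  · intro h4
    rcases hA.flt_total b v h1 h2 with h5 | h5 | h5
    · exact absurd h5 h3
    · exact h5
    · exact absurd h5 h4

/-- Let `y = V^n nxt^g b₀` and `z = act w b`. If `z` is not in the row `(S^n x₀, i)` both sides are
false (this property is the same on both sides by `Loc`: words `h w` and `s^n` at `x₀`, and the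
predicates `T`, `i`). Otherwise `z = V^n v`, where `v = vPre^n z` is the word `s'^n w` at `b` and
lies in the row `(x₀, i)`. By `flt_V_iter` and `flt_iter_left` (`nxt^j b₀ <> v` for `j <= g` because
`b₀` is far), `y < z` iff `b₀ < v` iff not `v < b₀`; the same on the right side; `cut`. -/
theorem row_ltL (hA : A.Ax c0) (hB : B.Ax c0) (hl : A.Loc B K l)
    (hp : A.RowPair B K l x₀ x₀' i b₀ b₀') (hn : n₀ ≤ k) (hK : 8 * k + 8 ≤ K)
    {y z : A.T ⊕ A.F} {y' z' : B.T ⊕ B.F} (h : A.CF B b₀ b₀' n₀ k 0 y y')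
    (h' : A.Lc B (2 * k) l 0 z z') : A.ltU y z ↔ B.ltU y' z' := by
  obtain ⟨n, g, -, hg, hng, -, rfl, rfl⟩ := h
  obtain ⟨b, hb, w, hw, rfl, rfl⟩ := h'
  rw [add_zero] at hg hng hw
  rcases te2b_sort hl hb (w := w) (by omega) with ⟨t, t', ht, ht'⟩ | ⟨v₁, v₁', hz, hz'⟩
  · rw [ht, ht']
    exact Iff.rfl
  · rw [hz, hz']
    have hr := te2b_row hA hp.pi hp.ix n g
    have hr' := te2b_row hB hp.pi' hp.ix' n g
    rcases te2b_cases hA hB hl hp hK hg (by omega : n ≤ 2 * k) hb hw hz hz' with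
      ⟨h1, h2⟩ | ⟨v, v', rfl, rfl, h1, h2, h1', h2', h3, h3', h4⟩
    · constructor
      · intro h5
        have h6 := hA.flt_row _ _ h5
        exact absurd ⟨h6.1.symm.trans hr.1, h6.2.symm.trans hr.2⟩ h1
      · intro h5
        have h6 := hB.flt_row _ _ h5
        exact absurd ⟨h6.1.symm.trans hr'.1, h6.2.symm.trans hr'.2⟩ h2
    · show A.flt _ _ ↔ B.flt _ _
      rw [flt_V_iter hA, flt_V_iter hB, flt_iter_left hA _ _ _ h3, flt_iter_left hB _ _ _ h3',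
        te2b_not hA (hp.pi.trans h1.symm) (hp.ix.trans h2.symm) (h3 0 (Nat.zero_le _)),
        te2b_not hB (hp.pi'.trans h1'.symm) (hp.ix'.trans h2'.symm) (h3' 0 (Nat.zero_le _)), h4]

/-- The same with `flt_iter_right`. -/
theorem row_ltR (hA : A.Ax c0) (hB : B.Ax c0) (hl : A.Loc B K l)
    (hp : A.RowPair B K l x₀ x₀' i b₀ b₀') (hn : n₀ ≤ k) (hK : 8 * k + 8 ≤ K)
    {y z : A.T ⊕ A.F} {y' z' : B.T ⊕ B.F} (h : A.CF B b₀ b₀' n₀ k 0 y y')
    (h' : A.Lc B (2 * k) l 0 z z') : A.ltU z y ↔ B.ltU z' y' := by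
  obtain ⟨n, g, -, hg, hng, -, rfl, rfl⟩ := h
  obtain ⟨b, hb, w, hw, rfl, rfl⟩ := h'
  rw [add_zero] at hg hng hw
  rcases te2b_sort hl hb (w := w) (by omega) with ⟨t, t', ht, ht'⟩ | ⟨v₁, v₁', hz, hz'⟩
  · rw [ht, ht']
    exact Iff.rfl
  · rw [hz, hz']
    have hr := te2b_row hA hp.pi hp.ix n g
    have hr' := te2b_row hB hp.pi' hp.ix' n g
    rcases te2b_cases hA hB hl hp hK hg (by omega : n ≤ 2 * k) hb hw hz hz' with
      ⟨h1, h2⟩ | ⟨v, v', rfl, rfl, h1, h2, h1', h2', h3, h3', h4⟩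
    · constructor
      · intro h5
        have h6 := hA.flt_row _ _ h5
        exact absurd ⟨h6.1.trans hr.1, h6.2.trans hr.2⟩ h1
      · intro h5
        have h6 := hB.flt_row _ _ h5
        exact absurd ⟨h6.1.trans hr'.1, h6.2.trans hr'.2⟩ h2
    · show A.flt _ _ ↔ B.flt _ _
      rw [flt_V_iter hA, flt_V_iter hB, flt_iter_right hA _ _ _ h3, flt_iter_right hB _ _ _ h3', h4]

end Pool.Agent.LIN.Tower
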