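import Pool.Agent.LIN.TE2
import Pool.Agent.LIN.TE2b

/-! # [LIN-TE3] block C: extension by an element of a row: core and choice -/

namespace Pool.Agent.LIN.Tower

variable {m : Mach} {A B : Tower m} {c0 : m.Config} {K k n₀ : ℕ}
  {l : List ((A.T ⊕ A.F) × (B.T ⊕ B.F))} {x₀ : A.T} {x₀' : B.T} {i : Fin m.k}
  {b₀ : A.F} {b₀' : B.F}

theorem te3_nxt (hA : A.Ax c0) (b : A.F) : A.Nx b (A.nxt b) := by
  have h := hA.row_next b
  unfold nxt
  rw [dif_pos h]
  exact h.choose_spec

theorem te3_ltU_trans (hA : A.Ax c0) (x y z : A.T ⊕ A.F) (h : A.ltU x y) (h' : A.ltU y z) :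
    A.ltU x z := by
  rcases x with x | x <;> rcases y with y | y <;> rcases z with z | z
  · exact hA.lt_trans _ _ _ h h'
  · exact h'.elim
  · exact h.elim
  · exact h.elim
  · exact h.elim
  · exact h.elim
  · exact h'.elim
  · exact hA.flt_trans _ _ _ h h'

/-- `Loc_cons` with `NSys (2 k) k l (CF b₀ b₀' n₀ k)` from `row_step, row_mono, row_pr, ...`;
the pair `(u, u')` is in `CF k` (`n = n₀`, `g = k`). -/
theorem row_core (hA : A.Ax c0) (hB : B.Ax c0) (hl : A.Loc B K l)
    (hp : A.RowPair B K l x₀ x₀' i b₀ b₀') (hn : n₀ ≤ k) (hn' : n₀ = k ∨ x₀ = A.o)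
    (hK : 8 * k + 8 ≤ K) :
    A.Loc B k ((Sum.inr (A.V^[n₀] (A.nxt^[k] b₀)), Sum.inr (B.V^[n₀] (B.nxt^[k] b₀'))) :: l) := by
  refine Loc_cons (K := 2 * k) (C := fun r y y' => A.CF B b₀ b₀' n₀ k r y y') (by omega)
    (Loc.mono hl (by omega)) ?_ _ _ ?_
  · exact
      { step := fun r _ y y' h a => row_step hA hB hl hp hn h a
        mono := fun r _ y y' h => row_mono h
        pr := fun y y' h c => row_pr hA hB hl hp hn hK h c
        eq := fun y y' z z' h h' => row_eq hA hB h h'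
        lt := fun y y' z z' h h' => row_lt hA hB h h'
        eqL := fun y y' z z' h h' => row_eqL hA hB hp hn hK h h'
        ltL := fun y y' z z' h h' => row_ltL hA hB hl hp hn hK h h'
        ltR := fun y y' z z' h h' => row_ltR hA hB hl hp hn hK h h' }
  · refine ⟨n₀, k, le_rfl, by omega, le_rfl, ?_, rfl, rfl⟩
    rcases hn' with h | h
    · exact Or.inl h.ge
    · exact Or.inr (hp.pi.trans h)

/-- Choice of `b₀'`. Let `v` be the largest element of the row `(x₀, i)` below `b₀` that is a word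
of length `<= K` at an element of `l` (`exists_max`; the first element of the row is such an
element: the letter `f i` at `x₀`, and it is below `b₀` since `b₀` is far). Let `v'` be the
corresponding element and `b₀' = nxt v'`. `far'`: if `b₀' = act w b.2` with `|w| <= K`, then by
`Loc (K + 1)` `nxt v = act w b.1`; `nxt v < b₀` (`b₀` is not the word `n w`), against maximality.
`cut`: `z < b₀` implies `z <= v`, so `z' <= v' < b₀'`; otherwise `b₀ < z`, so `nxt v < z`,
so `nxt v' < z'` by `Loc (K + 1)`. -/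
theorem row_choice (hA : A.Ax c0) (hB : B.Ax c0) (hK : 1 ≤ K) (hl : A.Loc B (K + 1) l)
    (ho : (Sum.inl A.o, Sum.inl B.o) ∈ l) (hx : (Sum.inl x₀, Sum.inl x₀') ∈ l)
    (hpi : A.pi b₀ = x₀) (hfar : A.FarL B (K + 1) l (Sum.inr b₀)) :
    ∃ b₀', A.RowPair B K l x₀ x₀' (A.ix b₀) b₀ b₀' := by
  have hTm : A.Tm x₀ := by rw [← hpi]; exact hA.pi_tm b₀
  have hnx : ∀ b, A.Nx b (A.nxt b) := fun b => te3_nxt hA b
  have hnx' : ∀ b, B.Nx b (B.nxt b) := fun b => te3_nxt hB b
  have hne : ∃ w : List (Letter m), w.length ≤ K ∧ ∃ b ∈ l,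
      ∃ v, A.act w b.1 = Sum.inr v ∧ A.pi v = x₀ ∧ A.ix v = A.ix b₀ ∧ A.flt v b₀ := by
    refine ⟨[Letter.f (A.ix b₀)], hK, _, hx, ?_⟩
    have hex : ∃ b, A.pi b = x₀ ∧ A.ix b = A.ix b₀ ∧ A.Fst b := hA.row_first x₀ (A.ix b₀) hTm
    have hact : A.act [Letter.f (A.ix b₀)] (Sum.inl x₀) = Sum.inr hex.choose := by
      show A.fstU (A.ix b₀) x₀ = _
      unfold fstU
      rw [dif_pos hex]
    obtain ⟨h1, h2, h3⟩ := hex.choose_spec
    refine ⟨hex.choose, hact, h1, h2, ?_⟩
    rcases hA.flt_total hex.choose b₀ (by rw [h1, hpi]) h2 with h | h | h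
    · exact absurd (hact.trans (congrArg Sum.inr h)) (hfar _ hx _ (by simp))
    · exact h
    · exact absurd h (h3 _)
  obtain ⟨w, hw, b, hb, ⟨v, hv, hvpi, hvix, hvlt⟩, hmax⟩ := exists_max (A := A) (B := B) K l
    (fun w b => ∃ v, A.act w b.1 = Sum.inr v ∧ A.pi v = x₀ ∧ A.ix v = A.ix b₀ ∧ A.flt v b₀) hne
    (te3_ltU_trans hA) (by
      rintro w w' b b' ⟨v, hv, h1, h2, -⟩ ⟨v', hv', h1', h2', -⟩
      rw [hv, hv']
      rcases hA.flt_total v v' (by rw [h1, h1']) (by rw [h2, h2']) with h | h | h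
      · exact Or.inl (congrArg Sum.inr h)
      · exact Or.inr (Or.inl h)
      · exact Or.inr (Or.inr h))
  have hLw := hl b hb w (by omega)
  obtain ⟨v', hv'⟩ : ∃ v', B.act w b.2 = Sum.inr v' := by
    have h1 := hLw.1 PSym.T
    rw [hv] at h1
    rcases hB' : B.act w b.2 with y | v'
    · rw [hB'] at h1
      exact absurd (h1.2 trivial) (fun h => h)
    · exact ⟨v', rfl⟩
  have hactn : A.act (Letter.n :: w) b.1 = Sum.inr (A.nxt v) := by
    show A.act1 Letter.n (A.act w b.1) = _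
    rw [hv]
    rfl
  have hactn' : B.act (Letter.n :: w) b.2 = Sum.inr (B.nxt v') := by
    show B.act1 Letter.n (B.act w b.2) = _
    rw [hv']
    rfl
  have hlen : (Letter.n :: w : List (Letter m)).length ≤ K + 1 := by
    rw [List.length_cons]; omega
  have hLn := hl b hb (Letter.n :: w) hlen
  have hpi' : B.pi v' = x₀' := by
    have h1 := ((hl b hb (Letter.h :: w) (by rw [List.length_cons]; omega)).2 _ hx [] (by simp)).1
    have h2 : A.act (Letter.h :: w) b.1 = A.act [] (Sum.inl x₀) := by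
      show A.act1 Letter.h (A.act w b.1) = Sum.inl x₀
      rw [hv]
      exact congrArg Sum.inl hvpi
    have h3 := h1.1 h2
    have h4 : B.act1 Letter.h (B.act w b.2) = Sum.inl x₀' := h3
    rw [hv'] at h4
    exact Sum.inl.inj h4
  have hix' : B.ix v' = A.ix b₀ := by
    have h1 := hLw.1 (PSym.i (A.ix b₀))
    rw [hv, hv'] at h1
    exact h1.1 hvix
  have hnv := hnx v
  have hnv' := hnx' v'
  have hnpi : A.pi (A.nxt v) = x₀ := by rw [← (hA.flt_row _ _ hnv.1).1, hvpi]
  have hnix : A.ix (A.nxt v) = A.ix b₀ := by rw [← (hA.flt_row _ _ hnv.1).2, hvix]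
  have hnlt : A.flt (A.nxt v) b₀ := by
    rcases hnv.2 b₀ hvlt with h | h
    · exact absurd (hactn.trans (congrArg Sum.inr h.symm)) (hfar _ hb _ hlen)
    · exact h
  refine ⟨B.nxt v',
    { mem := hx
      memo := ho
      pi := hpi
      pi' := by rw [← (hB.flt_row _ _ hnv'.1).1, hpi']
      ix := rfl
      ix' := by rw [← (hB.flt_row _ _ hnv'.1).2, hix']
      far := fun b1 hb1 w1 hw1 => hfar b1 hb1 w1 (by omega)
      far' := ?_
      cut := ?_ }⟩
  · intro b1 hb1 w1 hw1 heq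
    have h1 := (hLn.2 b1 hb1 w1 (by omega)).1.2 (hactn'.trans heq.symm)
    rw [hactn] at h1
    rcases hmax w1 hw1 b1 hb1 ⟨A.nxt v, h1.symm, hnpi, hnix, hnlt⟩ with h | h
    · rw [← h1, hv] at h
      have h2 : A.nxt v = v := Sum.inr.inj h
      have h3 := hnv.1
      rw [h2] at h3
      exact hA.flt_irrefl _ h3
    · rw [← h1, hv] at h
      exact hA.flt_irrefl _ (hA.flt_trans _ _ _ hnv.1 h)
  · intro b1 hb1 w1 hw1 z z' hz hz' hzpi hzix
    have hLz := hLw.2 b1 hb1 w1 (by omega)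
    have hLz' := (hl b1 hb1 w1 (by omega)).2 b hb w (by omega)
    constructor
    · intro hlt
      rcases hmax w1 hw1 b1 hb1 ⟨z, hz, hzpi, hzix, hlt⟩ with h | h
      · have h1 := hLz'.1.1 h
        rw [hz', hv'] at h1
        rw [Sum.inr.inj h1]
        exact hnv'.1
      · have h1 := hLz'.2.1 h
        rw [hz', hv'] at h1
        exact hB.flt_trans _ _ _ h1 hnv'.1
    · intro hlt'
      by_contra hnot
      have h1 : A.flt b₀ z := by
        rcases hA.flt_total z b₀ (by rw [hzpi, hpi]) hzix with h | h | h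
        · exact absurd (hz.trans (congrArg Sum.inr h)) (hfar _ hb1 _ (by omega))
        · exact absurd h hnot
        · exact h
      have h2 : A.flt (A.nxt v) z := hA.flt_trans _ _ _ hnlt h1
      have h3 := (hLn.2 b1 hb1 w1 (by omega)).2.1 (by rw [hactn, hz]; exact h2)
      rw [hactn', hz'] at h3
      exact hB.flt_irrefl _ (hB.flt_trans _ _ _ h3 hlt')

end Pool.Agent.LIN.Tower
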