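import Pool.Agent.LIN.TE3

/-! # [LIN-TE4] block C: extension by an element of a row -/

namespace Pool.Agent.LIN.Tower

variable {m : Mach} {A B : Tower m} {c0 : m.Config} {K k n₀ : ℕ}
  {l : List ((A.T ⊕ A.F) × (B.T ⊕ B.F))} {x₀ : A.T} {x₀' : B.T} {i : Fin m.k}
  {b₀ : A.F} {b₀' : B.F}

/-- Going back at most `k` steps in time. -/
theorem exists_back (hA : A.Ax c0) (x : A.T) (hx : A.Tm x) (k : ℕ) :
    ∃ n₀ ≤ k, ∃ x₀, A.S^[n₀] x₀ = x ∧ x₀ = A.sPre^[n₀] x ∧ (n₀ = k ∨ x₀ = A.o) := by
  induction k with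
  | zero => exact ⟨0, le_rfl, x, rfl, rfl, Or.inl rfl⟩
  | succ k ih =>
    obtain ⟨n₀, hn, x₀, h1, h2, h3⟩ := ih
    by_cases h0 : x₀ = A.o
    · exact ⟨n₀, hn.trans (Nat.le_succ k), x₀, h1, h2, Or.inr h0⟩
    · have h4 : n₀ = k := h3.resolve_right h0
      have h5 : A.h x₀ = A.o := by
        rw [← h_S_iter hA n₀ x₀, h1]
        exact hx
      have h6 : ¬ A.Org x₀ := by
        intro h
        apply h0
        rw [← h5]
        exact (hA.org_h x₀ h).symm
      refine ⟨n₀ + 1, by omega, A.sPre x₀, ?_, ?_, Or.inl (by omega)⟩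
      · rw [Function.iterate_succ_apply, S_sPre x₀ h6, h1]
      · rw [Function.iterate_succ_apply', ← h2]

theorem TE4_s' (A : Tower m) (n : ℕ) (y : A.T) :
    A.act (List.replicate n Letter.s') (Sum.inl y) = Sum.inl (A.sPre^[n] y) := by
  rw [act_replicate, act1_s'_inl]

theorem TE4_sn (A : Tower m) (n g : ℕ) (b : A.F) :
    A.act (List.replicate n Letter.s ++ List.replicate g Letter.n) (Sum.inr b)
      = Sum.inr (A.V^[n] (A.nxt^[g] b)) := by
  rw [act_append, act_replicate, act_replicate, act1_n_inr, act1_s_inr]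

/-- Put `K₀ = 8 k + 8` and `K = K₀ + 4 k + 4`. If `b = act w c.1` with `c` in `l` and
`|w| <= K₀ + 3 k + 3`, use `Loc.near`. Otherwise take `n₀`, `x₀` from `exists_back` for `x = pi b`,
`l₁ = (x₀, x₀') :: l` with `x₀' = act s'^n₀ x'` (`Loc.near`), `b = V^n₀ b₁` (`exists_V_iter`),
`b₁ = nxt^k b₀` (`exists_prv_iter`: otherwise `b` is a short word at `x`), `b₀` is far from `l₁`,
`row_choice`, `row_core`, `Loc.sub`. -/
theorem row_ext (hA : A.Ax c0) (hB : B.Ax c0) (k : ℕ) :
    ∃ K, ∀ l, A.Loc B K l → (Sum.inl A.o, Sum.inl B.o) ∈ l → ∀ (b : A.F) (x' : B.T),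
      (Sum.inl (A.pi b), Sum.inl x') ∈ l → ∃ u', A.Loc B k ((Sum.inr b, u') :: l) := by
  refine ⟨(8 * k + 8) + (4 * k + 4), fun l hl ho b x' hx => ?_⟩
  by_cases hnear : ∃ c ∈ l, ∃ w : List (Letter m), w.length ≤ 8 * k + 8 + (3 * k + 3) ∧
      A.act w c.1 = Sum.inr b
  · obtain ⟨c, hc, w, hw, hwb⟩ := hnear
    have h1 : A.Loc B (k + (8 * k + 8 + (3 * k + 3))) l := hl.mono (by omega)
    have h2 := Loc.near h1 c hc w hw
    rw [hwb] at h2
    exact ⟨_, h2⟩
  · push Not at hnear
    obtain ⟨n₀, hn, x₀, h1, h2, h3⟩ := exists_back hA (A.pi b) (hA.pi_tm b) k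
    have hx0 : A.act (List.replicate n₀ Letter.s') (Sum.inl (A.pi b)) = Sum.inl x₀ := by
      rw [TE4_s', ← h2]
    have hx0' : B.act (List.replicate n₀ Letter.s') (Sum.inl x') = Sum.inl (B.sPre^[n₀] x') :=
      TE4_s' B n₀ x'
    have hl1 : A.Loc B (8 * k + 8 + 1) ((Sum.inl x₀, Sum.inl (B.sPre^[n₀] x')) :: l) := by
      have h4 : A.Loc B (8 * k + 8 + 1 + n₀) l := hl.mono (by omega)
      have h5 := Loc.near h4 _ hx (List.replicate n₀ Letter.s') (by rw [List.length_replicate])
      simp only [hx0, hx0'] at h5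
      exact h5
    obtain ⟨b₁, hb1, hb2, hb3⟩ := exists_V_iter hA b x₀ n₀ h1.symm
    rcases exists_prv_iter hA b₁ k with ⟨b₀, hb0⟩ | ⟨j, hj, a, ha, hja⟩
    · have hpi0 : A.pi b₀ = x₀ := by
        rw [← hb2, ← hb0, pi_nxt_iter hA]
      have hb : A.V^[n₀] (A.nxt^[k] b₀) = b := by rw [hb0, hb1]
      have hfar : A.FarL B (8 * k + 8 + 1) ((Sum.inl x₀, Sum.inl (B.sPre^[n₀] x')) :: l)
          (Sum.inr b₀) := by
        intro c hc w hw hwb
        rcases List.mem_cons.1 hc with hc | hc
        · rw [hc] at hwb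
          refine hnear _ hx ((List.replicate n₀ Letter.s ++ List.replicate k Letter.n) ++
            (w ++ List.replicate n₀ Letter.s')) ?_ ?_
          · simp only [List.length_append, List.length_replicate]
            omega
          · rw [act_append, act_append A w]
            simp only [hx0]
            rw [hwb, TE4_sn, hb]
        · refine hnear c hc ((List.replicate n₀ Letter.s ++ List.replicate k Letter.n) ++ w) ?_ ?_
          · simp only [List.length_append, List.length_replicate]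
            omega
          · rw [act_append, hwb, TE4_sn, hb]
      obtain ⟨b₀', hp⟩ := row_choice hA hB (K := 8 * k + 8) (by omega) hl1
        (List.mem_cons_of_mem _ ho) (x₀' := B.sPre^[n₀] x') List.mem_cons_self hpi0 hfar
      have hcore := row_core hA hB (hl1.mono (Nat.le_succ _)) hp hn h3 le_rfl
      rw [hb] at hcore
      refine ⟨Sum.inr (B.V^[n₀] (B.nxt^[k] b₀')), hcore.sub ?_⟩
      intro c hc
      rcases List.mem_cons.1 hc with hc | hc
      · exact List.mem_cons.2 (Or.inl hc)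
      · exact List.mem_cons_of_mem _ (List.mem_cons_of_mem _ hc)
    · exfalso
      have hpa : A.pi a = x₀ := by
        rw [← hb2, ← hja, pi_nxt_iter hA]
      refine hnear _ hx ((List.replicate n₀ Letter.s ++ List.replicate j Letter.n) ++
        ([Letter.f (A.ix a)] ++ List.replicate n₀ Letter.s')) ?_ ?_
      · simp only [List.length_append, List.length_replicate, List.length_singleton]
        omega
      · rw [act_append, act_append A [Letter.f (A.ix a)]]
        simp only [hx0]
        have h5 : A.act [Letter.f (A.ix a)] (Sum.inl x₀) = Sum.inr a := by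
          show A.fstU (A.ix a) x₀ = Sum.inr a
          rw [← hpa]
          exact fstU_eq hA a ha
        rw [h5, TE4_sn, hja, hb1]

end Pool.Agent.LIN.Tower
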