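import Pool.Agent.LIN.TE0

/-! # [LIN-TF1] block C: a new level (origin): words -/

namespace Pool.Agent.LIN.Tower

variable {m : Mach} {A B : Tower m} {c0 : m.Config} {K k : ℕ}
  {l : List ((A.T ⊕ A.F) × (B.T ⊕ B.F))} {u₀ : A.T} {u₀' : B.T}

/-- The origins with `p` as next element: as `flt_iter_left`. -/
theorem lt_iter_left (hA : A.Ax c0) (y z : A.T) (hy : A.Org y) (hz : A.Org z) (g : ℕ)
    (h : ∀ j ≤ g, A.p^[j] y ≠ z) : A.lt (A.p^[g] y) z ↔ A.lt y z := by
  induction g with
  | zero => rfl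
  | succ g ih =>
    rw [Function.iterate_succ_apply']
    have h1 := ih fun j hj => h j (Nat.le_succ_of_le hj)
    have ho : A.Org (A.p^[g] y) := org_p_iter hA g y hy
    rw [← h1]
    constructor
    · intro h2
      exact hA.lt_trans _ _ _ (hA.p_lt _ ho) h2
    · intro h2
      rcases hA.p_succ _ _ h2 with h3 | h3
      · exact absurd h3.symm (by
          have := h (g + 1) le_rfl
          rwa [Function.iterate_succ_apply'] at this)
      · exact h3

theorem lt_iter_right (hA : A.Ax c0) (y z : A.T) (hy : A.Org y) (hz : A.Org z) (g : ℕ)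
    (h : ∀ j ≤ g, A.p^[j] y ≠ z) : A.lt z (A.p^[g] y) ↔ A.lt z y := by
  have key : ∀ w : A.T, A.Org w → w ≠ z → (A.lt z w ↔ ¬ A.lt w z) := by
    intro w hw hne
    constructor
    · intro h1 h2
      exact hA.lt_irrefl _ (hA.lt_trans _ _ _ h1 h2)
    · intro h1
      rcases hA.lt_total w z hw hz with h2 | h2 | h2
      · exact absurd h2 hne
      · exact absurd h2 h1
      · exact h2
  rw [key _ (org_p_iter hA g y hy) (h g le_rfl), key y hy (h 0 (Nat.zero_le _)),
    lt_iter_left hA y z hy hz g h]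

/-- `S^j` of an origin is an origin only for `j = 0`. -/
theorem org_S_iter_p_iter (hA : A.Ax c0) (hu : A.Org u₀) (a j : ℕ) :
    A.Org (A.S^[j] (A.p^[a] u₀)) ↔ j = 0 := by
  cases j with
  | zero =>
    constructor
    · intro _
      rfl
    · intro _
      exact org_p_iter hA a u₀ hu
  | succ j =>
    constructor
    · intro h
      rw [Function.iterate_succ_apply'] at h
      exact absurd rfl (h _)
    · intro h
      exact absurd h (Nat.succ_ne_zero j)

/-- `p^a u₀` is not `o` (for `a = 0` because `u₀` is far from `o`; `h_p_ne_o`). -/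
theorem lev_ntm (hA : A.Ax c0) (hp : A.LevPair B K l u₀ u₀') (a j : ℕ) :
    ¬ A.Tm (A.S^[j] (A.p^[a] u₀)) := by
  intro h
  have h1 : A.h (A.S^[j] (A.p^[a] u₀)) = A.o := h
  rw [h_S_iter hA] at h1
  cases a with
  | zero =>
    have h2 : u₀ = A.o := by
      rw [← h1]
      exact (hA.org_h u₀ hp.org).symm
    exact hp.far _ hp.memo [] (Nat.zero_le _) (congrArg Sum.inl h2.symm)
  | succ a =>
    rw [Function.iterate_succ_apply'] at h1
    exact h_p_ne_o hA _ h1

theorem lev_ntm' (hB : B.Ax c0) (hp : A.LevPair B K l u₀ u₀') (a j : ℕ) :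
    ¬ B.Tm (B.S^[j] (B.p^[a] u₀')) := by
  intro h
  have h1 : B.h (B.S^[j] (B.p^[a] u₀')) = B.o := h
  rw [h_S_iter hB] at h1
  cases a with
  | zero =>
    have h2 : u₀' = B.o := by
      rw [← h1]
      exact (hB.org_h u₀' hp.org').symm
    exact hp.far' _ hp.memo [] (Nat.zero_le _) (congrArg Sum.inl h2.symm)
  | succ a =>
    rw [Function.iterate_succ_apply'] at h1
    exact h_p_ne_o hB _ h1

theorem lev_mono {r : ℕ} {y : A.T ⊕ A.F} {y' : B.T ⊕ B.F} (hr : r < k)
    (h : A.CL B u₀ u₀' k (r + 1) y y') : A.CL B u₀ u₀' k r y y' := by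
  obtain ⟨a, j, h1, h2, h3, h4, h5⟩ := h
  refine ⟨a, j, by omega, by omega, le_trans h3 ?_, h4, h5⟩
  exact Nat.pow_le_pow_right (by norm_num) (by omega)

/-- Letter by letter. `s`: `j + 1`. `s'`: `j - 1`, or the identity for `j = 0` (`sPre_org`). `p`:
`(a + 1, j / 2)` (`p_S_iter`, residue zero). `l`: `(a - 1, 2 j)` (`lft_S_iter_p`, residue zero,
`1 <= a`). `h`: `j = 0`. `n, n'`: identity; `t, f, k`: identity because these elements are not
times (`fstU_ntm`, `mkU_else`, `ptU_else` with `st_tm`). -/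
theorem lev_step (hA : A.Ax c0) (hB : B.Ax c0) (hp : A.LevPair B K l u₀ u₀') {r : ℕ} (hr : r < k)
    {y : A.T ⊕ A.F} {y' : B.T ⊕ B.F} (h : A.CL B u₀ u₀' k (r + 1) y y') (a : Letter m) :
    A.CL B u₀ u₀' k r (A.act1 a y) (B.act1 a y') := by
  have hm := lev_mono hr h
  obtain ⟨b, j, h1, h2, h3, rfl, rfl⟩ := h
  have h4 : 2 ^ (k - r) = 2 * 2 ^ (k - (r + 1)) := by
    rw [← pow_succ']
    congr 1
    omega
  have n1 := lev_ntm hA hp b j
  have n2 := lev_ntm' hB hp b j
  cases a with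
  | s =>
    refine ⟨b, j + 1, by omega, by omega, by omega, ?_, ?_⟩
    · rw [Function.iterate_succ_apply']
      rfl
    · rw [Function.iterate_succ_apply']
      rfl
  | s' =>
    cases j with
    | zero =>
      refine ⟨b, 0, by omega, by omega, by omega, ?_, ?_⟩
      · exact congrArg Sum.inl (sPre_org _ (org_p_iter hA b u₀ hp.org))
      · exact congrArg Sum.inl (sPre_org _ (org_p_iter hB b u₀' hp.org'))
    | succ j =>
      refine ⟨b, j, by omega, by omega, by omega, ?_, ?_⟩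
      · rw [Function.iterate_succ_apply']
        exact congrArg Sum.inl (sPre_S hA _)
      · rw [Function.iterate_succ_apply']
        exact congrArg Sum.inl (sPre_S hB _)
  | p =>
    refine ⟨b + 1, j / 2, by omega, by omega, by omega, ?_, ?_⟩
    · show Sum.inl (A.p (A.S^[j] (A.p^[b] u₀))) = _
      rw [p_S_iter hA, rs_org hA 1 _ (org_p_iter hA b u₀ hp.org), add_zero,
        Function.iterate_succ_apply']
    · show Sum.inl (B.p (B.S^[j] (B.p^[b] u₀'))) = _
      rw [p_S_iter hB, rs_org hB 1 _ (org_p_iter hB b u₀' hp.org'), add_zero,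
        Function.iterate_succ_apply']
  | l =>
    cases b with
    | zero => omega
    | succ b =>
      refine ⟨b, 2 * j, by omega, by omega, by omega, ?_, ?_⟩
      · show Sum.inl (A.lft (A.S^[j] (A.p^[b + 1] u₀))) = _
        have hr0 := rs_org hA 1 _ (org_p_iter hA b u₀ hp.org)
        rw [Function.iterate_succ_apply', lft_S_iter_p hA _ j (by rw [hr0]; omega), hr0, Nat.sub_zero]
      · show Sum.inl (B.lft (B.S^[j] (B.p^[b + 1] u₀'))) = _
        have hr0 := rs_org hB 1 _ (org_p_iter hB b u₀' hp.org')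
        rw [Function.iterate_succ_apply', lft_S_iter_p hB _ j (by rw [hr0]; omega), hr0, Nat.sub_zero]
  | h =>
    refine ⟨b, 0, by omega, by omega, by omega, ?_, ?_⟩
    · show Sum.inl (A.h (A.S^[j] (A.p^[b] u₀))) = _
      rw [h_S_iter hA, hA.org_h _ (org_p_iter hA b u₀ hp.org)]
      rfl
    · show Sum.inl (B.h (B.S^[j] (B.p^[b] u₀'))) = _
      rw [h_S_iter hB, hB.org_h _ (org_p_iter hB b u₀' hp.org')]
      rfl
  | n => exact hm
  | n' => exact hm
  | t =>
    have e1 : A.act1 Letter.t (Sum.inl (A.S^[j] (A.p^[b] u₀))) =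
        Sum.inl (A.S^[j] (A.p^[b] u₀)) :=
      ptU_else hA _ fun q i z p hs => absurd (hA.st_tm _ q hs).1 n1
    have e2 : B.act1 Letter.t (Sum.inl (B.S^[j] (B.p^[b] u₀'))) =
        Sum.inl (B.S^[j] (B.p^[b] u₀')) :=
      ptU_else hB _ fun q i z p hs => absurd (hB.st_tm _ q hs).1 n2
    rw [e1, e2]
    exact hm
  | f i =>
    have e1 : A.act1 (Letter.f i) (Sum.inl (A.S^[j] (A.p^[b] u₀))) =
        Sum.inl (A.S^[j] (A.p^[b] u₀)) := fstU_ntm hA i _ n1
    have e2 : B.act1 (Letter.f i) (Sum.inl (B.S^[j] (B.p^[b] u₀'))) =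
        Sum.inl (B.S^[j] (B.p^[b] u₀')) := fstU_ntm hB i _ n2
    rw [e1, e2]
    exact hm
  | k i =>
    have e1 : A.act1 (Letter.k i) (Sum.inl (A.S^[j] (A.p^[b] u₀))) =
        Sum.inl (A.S^[j] (A.p^[b] u₀)) := mkU_else hA i _ fun hh => n1 hh.1
    have e2 : B.act1 (Letter.k i) (Sum.inl (B.S^[j] (B.p^[b] u₀'))) =
        Sum.inl (B.S^[j] (B.p^[b] u₀')) := mkU_else hB i _ fun hh => n2 hh.1
    rw [e1, e2]
    exact hm

/-- Back to `u₀` by the word `l^a s'^j`. -/
theorem lev_rev (hA : A.Ax c0) (hB : B.Ax c0) (hp : A.LevPair B K l u₀ u₀')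
    {y : A.T ⊕ A.F} {y' : B.T ⊕ B.F} (h : A.CL B u₀ u₀' k 0 y y') :
    ∃ w : List (Letter m), w.length ≤ 2 * k + 2 ^ k ∧ A.act w y = Sum.inl u₀ ∧
      B.act w y' = Sum.inl u₀' := by
  obtain ⟨a, j, h1, h2, h3, rfl, rfl⟩ := h
  refine ⟨List.replicate a Letter.l ++ List.replicate j Letter.s', ?_, ?_, ?_⟩
  · rw [List.length_append, List.length_replicate, List.length_replicate]
    rw [Nat.sub_zero] at h3
    omega
  · rw [act_append, act_replicate, act_replicate, act1_s'_inl, sPre_iter_S_iter hA, act1_l_inl,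
      lft_iter_p_iter_org hA a u₀ hp.org]
  · rw [act_append, act_replicate, act_replicate, act1_s'_inl, sPre_iter_S_iter hB, act1_l_inl,
      lft_iter_p_iter_org hB a u₀' hp.org']

end Pool.Agent.LIN.Tower
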