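import Pool.Agent.LIN.TF1

/-! # [LIN-TF2] block C: a new level (origin): atomic statements -/

namespace Pool.Agent.LIN.Tower

variable {m : Mach} {A B : Tower m} {c0 : m.Config} {K k : ℕ}
  {l : List ((A.T ⊕ A.F) × (B.T ⊕ B.F))} {u₀ : A.T} {u₀' : B.T}

theorem TF2_Lf (hA : A.Ax c0) (hu : A.Org u₀) (a j : ℕ) :
    A.Lf (A.S^[j] (A.p^[a] u₀)) ↔ j % 2 = 0 := by
  have h1 : A.Lf (A.p^[a] u₀) := hA.Lf_org _ (org_p_iter hA a u₀ hu)
  rw [Lf_S_iter hA]
  exact ⟨fun h => h.2 h1, fun h => ⟨fun _ => h1, fun _ => h⟩⟩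

theorem TF2_lt (hA : A.Ax c0) (hu : A.Org u₀) (a j a' j' : ℕ) :
    A.lt (A.S^[j] (A.p^[a] u₀)) (A.S^[j'] (A.p^[a'] u₀)) ↔ j = 0 ∧ j' = 0 ∧ a < a' := by
  constructor
  · intro h
    obtain ⟨h1, h2⟩ := hA.lt_org _ _ h
    have h3 := (org_S_iter_p_iter hA hu a j).1 h1
    have h4 := (org_S_iter_p_iter hA hu a' j').1 h2
    subst h3
    subst h4
    exact ⟨rfl, rfl, (lt_iter_iter hA u₀ hu a a').1 h⟩
  · rintro ⟨h1, h2, h3⟩
    subst h1
    subst h2
    exact (lt_iter_iter hA u₀ hu a a').2 h3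

/-- `T` true; `L`: `j` even (`Lf_S_iter`, `Lf_org`); `E`: `Ev_pow`; `q`: false (`st_tm`); the
others false. -/
theorem lev_pr (hA : A.Ax c0) (hB : B.Ax c0) (hp : A.LevPair B K l u₀ u₀')
    {y : A.T ⊕ A.F} {y' : B.T ⊕ B.F} (h : A.CL B u₀ u₀' k 0 y y') (c : PSym m) :
    A.Pr c y ↔ B.Pr c y' := by
  obtain ⟨a, j, -, -, -, rfl, rfl⟩ := h
  cases c with
  | T => exact Iff.rfl
  | L =>
    show A.Lf _ ↔ B.Lf _
    rw [TF2_Lf hA hp.org, TF2_Lf hB hp.org']
  | E =>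
    show A.Ev _ ↔ B.Ev _
    rw [Ev_pow hA _ (org_p_iter hA a u₀ hp.org), Ev_pow hB _ (org_p_iter hB a u₀' hp.org')]
  | M => exact Iff.rfl
  | P => exact Iff.rfl
  | q q =>
    constructor
    · intro h
      exact absurd (hA.st_tm _ _ h).1 (lev_ntm hA hp a j)
    · intro h
      exact absurd (hB.st_tm _ _ h).1 (lev_ntm' hB hp a j)
  | i i => exact Iff.rfl

/-- `rel_self`. -/
theorem lev_eq (hA : A.Ax c0) (hB : B.Ax c0)
    {y z : A.T ⊕ A.F} {y' z' : B.T ⊕ B.F} (h : A.CL B u₀ u₀' k 0 y y')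
    (h' : A.CL B u₀ u₀' k 0 z z') : y = z ↔ y' = z' := by
  obtain ⟨a, j, -, -, -, rfl, rfl⟩ := h
  obtain ⟨a', j', -, -, -, rfl, rfl⟩ := h'
  rw [Sum.inl.injEq, Sum.inl.injEq, rel_self hA, rel_self hB]

/-- Both sides: `j = 0`, `j' = 0`, `a < a'` (`lt_org`, `lt_iter_iter`). -/
theorem lev_lt (hA : A.Ax c0) (hB : B.Ax c0) (hp : A.LevPair B K l u₀ u₀')
    {y z : A.T ⊕ A.F} {y' z' : B.T ⊕ B.F} (h : A.CL B u₀ u₀' k 0 y y')
    (h' : A.CL B u₀ u₀' k 0 z z') : A.ltU y z ↔ B.ltU y' z' := by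
  obtain ⟨a, j, -, -, -, rfl, rfl⟩ := h
  obtain ⟨a', j', -, -, -, rfl, rfl⟩ := h'
  show A.lt _ _ ↔ B.lt _ _
  rw [TF2_lt hA hp.org, TF2_lt hB hp.org']

theorem TF2_ne (hA : A.Ax c0) (hB : B.Ax c0) (hp : A.LevPair B K l u₀ u₀')
    (hK : 4 * k + 2 ^ k + 4 ≤ K)
    {y z : A.T ⊕ A.F} {y' z' : B.T ⊕ B.F} (h : A.CL B u₀ u₀' k 0 y y')
    (h' : A.Lc B k l 0 z z') : y ≠ z ∧ y' ≠ z' := by
  obtain ⟨w, hw, h1, h2⟩ := lev_rev hA hB hp h
  obtain ⟨b, hb, w', hw', h3, h4⟩ := h'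
  constructor
  · intro h5
    refine hp.far b hb (w ++ w') ?_ ?_
    · rw [List.length_append]
      omega
    · rw [act_append, ← h3, ← h5, h1]
  · intro h5
    refine hp.far' b hb (w ++ w') ?_ ?_
    · rw [List.length_append]
      omega
    · rw [act_append, ← h4, ← h5, h2]

/-- False on both sides (`lev_rev`). -/
theorem lev_eqL (hA : A.Ax c0) (hB : B.Ax c0) (hp : A.LevPair B K l u₀ u₀')
    (hK : 4 * k + 2 ^ k + 4 ≤ K)
    {y z : A.T ⊕ A.F} {y' z' : B.T ⊕ B.F} (h : A.CL B u₀ u₀' k 0 y y')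
    (h' : A.Lc B k l 0 z z') : y = z ↔ y' = z' := by
  obtain ⟨h1, h2⟩ := TF2_ne hA hB hp hK h h'
  exact ⟨fun h => absurd h h1, fun h => absurd h h2⟩

/-- the sorts of the two elements of a pair of `Lc` agree -/
theorem TF2_sort (hl : A.Loc B K l) (hK : k ≤ K) {z : A.T ⊕ A.F} {z' : B.T ⊕ B.F}
    (h' : A.Lc B k l 0 z z') :
    (∃ Z Z', z = Sum.inl Z ∧ z' = Sum.inl Z') ∨ ∃ Z Z', z = Sum.inr Z ∧ z' = Sum.inr Z' := by
  obtain ⟨b, hb, w, hw, rfl, rfl⟩ := h'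
  have h1 := (hl b hb w (by omega)).1 PSym.T
  rcases hz : A.act w b.1 with Z | Z
  · rcases hz' : B.act w b.2 with Z' | Z'
    · exact Or.inl ⟨Z, Z', rfl, rfl⟩
    · rw [hz, hz'] at h1
      exact absurd (h1.1 trivial) (fun h => h)
  · rcases hz' : B.act w b.2 with Z' | Z'
    · rw [hz, hz'] at h1
      exact absurd (h1.2 trivial) (fun h => h)
    · exact Or.inr ⟨Z, Z', rfl, rfl⟩

/-- both elements are origins or none of them -/
theorem TF2_org (hA : A.Ax c0) (hB : B.Ax c0) (hl : A.Loc B K l) (hK : k + 1 ≤ K)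
    {Z : A.T} {Z' : B.T} (h' : A.Lc B k l 0 (Sum.inl Z) (Sum.inl Z')) : A.Org Z ↔ B.Org Z' := by
  obtain ⟨b, hb, w, hw, h1, h2⟩ := h'
  have h3 := ((hl b hb (Letter.h :: w) (by rw [List.length_cons]; omega)).2 b hb w
    (by omega)).1
  rw [org_iff hA, org_iff hB]
  have h4 : A.act (Letter.h :: w) b.1 = Sum.inl (A.h Z) := by
    show A.act1 Letter.h (A.act w b.1) = _
    rw [← h1]
    rfl
  have h5 : B.act (Letter.h :: w) b.2 = Sum.inl (B.h Z') := by
    show B.act1 Letter.h (B.act w b.2) = _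
    rw [← h2]
    rfl
  rw [h4, h5, ← h1, ← h2, Sum.inl.injEq, Sum.inl.injEq] at h3
  exact h3

/-- `p^i u₀` is not an old element -/
theorem TF2_up (hA : A.Ax c0) (hB : B.Ax c0) (hp : A.LevPair B K l u₀ u₀')
    (hK : 4 * k + 2 ^ k + 4 ≤ K) {Z : A.T} {Z' : B.T}
    (h' : A.Lc B k l 0 (Sum.inl Z) (Sum.inl Z')) (i : ℕ) (hi : i ≤ 2 * k) :
    A.p^[i] u₀ ≠ Z ∧ B.p^[i] u₀' ≠ Z' := by
  have hpow : 1 ≤ 2 ^ k := Nat.one_le_two_pow
  obtain ⟨b, hb, w, hw, h1, h2⟩ := h'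
  constructor
  · intro h3
    refine hp.far b hb (List.replicate i Letter.l ++ w) ?_ ?_
    · rw [List.length_append, List.length_replicate]
      omega
    · rw [act_append, ← h1, ← h3, act_replicate, act1_l_inl, lft_iter_p_iter_org hA i u₀ hp.org]
  · intro h3
    refine hp.far' b hb (List.replicate i Letter.l ++ w) ?_ ?_
    · rw [List.length_append, List.length_replicate]
      omega
    · rw [act_append, ← h2, ← h3, act_replicate, act1_l_inl, lft_iter_p_iter_org hB i u₀' hp.org']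

theorem TF2_cut (hp : A.LevPair B K l u₀ u₀')
    (hK : 4 * k + 2 ^ k + 4 ≤ K) {Z : A.T} {Z' : B.T} (hZ : A.Org Z)
    (h' : A.Lc B k l 0 (Sum.inl Z) (Sum.inl Z')) : A.lt Z u₀ ↔ B.lt Z' u₀' := by
  have hpow : 1 ≤ 2 ^ k := Nat.one_le_two_pow
  obtain ⟨b, hb, w, hw, h1, h2⟩ := h'
  exact hp.cut b hb w (by omega) Z Z' h1.symm h2.symm hZ

/-- Let `y = S^j p^a u₀`, `z = act w b`. If `j > 0` or `z` is not an origin (`h z = z`, the same on
both sides by `Loc`) both sides are false. Otherwise `lt_iter_left` (`p^i u₀ <> z` for `i <= a`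
because `u₀` is far: `u₀` is the word `l^i w`), totality, `cut`. -/
theorem lev_ltL (hA : A.Ax c0) (hB : B.Ax c0) (hl : A.Loc B K l) (hp : A.LevPair B K l u₀ u₀')
    (hK : 4 * k + 2 ^ k + 4 ≤ K)
    {y z : A.T ⊕ A.F} {y' z' : B.T ⊕ B.F} (h : A.CL B u₀ u₀' k 0 y y')
    (h' : A.Lc B k l 0 z z') : A.ltU y z ↔ B.ltU y' z' := by
  obtain ⟨a, j, -, ha, -, rfl, rfl⟩ := h
  have hpow : 1 ≤ 2 ^ k := Nat.one_le_two_pow
  rcases TF2_sort hl (by omega) h' with ⟨Z, Z', rfl, rfl⟩ | ⟨Z, Z', rfl, rfl⟩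
  · have horg := TF2_org hA hB hl (by omega) h'
    show A.lt (A.S^[j] (A.p^[a] u₀)) Z ↔ B.lt (B.S^[j] (B.p^[a] u₀')) Z'
    by_cases hj : j = 0
    · subst hj
      by_cases hZ : A.Org Z
      · have hZ' := horg.1 hZ
        have h1 := lt_iter_left hA u₀ Z hp.org hZ a
          (fun i hi => (TF2_up hA hB hp hK h' i (by omega)).1)
        have h2 := lt_iter_left hB u₀' Z' hp.org' hZ' a
          (fun i hi => (TF2_up hA hB hp hK h' i (by omega)).2)
        show A.lt (A.p^[a] u₀) Z ↔ B.lt (B.p^[a] u₀') Z'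
        rw [h1, h2]
        have h3 := TF2_cut hp hK hZ h'
        have h4 := (TF2_up hA hB hp hK h' 0 (by omega))
        have h5 : A.lt u₀ Z ↔ ¬ A.lt Z u₀ := by
          constructor
          · intro h6 h7
            exact hA.lt_irrefl _ (hA.lt_trans _ _ _ h6 h7)
          · intro h6
            rcases hA.lt_total u₀ Z hp.org hZ with h7 | h7 | h7
            · exact absurd h7 h4.1
            · exact h7
            · exact absurd h7 h6
        have h6 : B.lt u₀' Z' ↔ ¬ B.lt Z' u₀' := by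
          constructor
          · intro h6 h7
            exact hB.lt_irrefl _ (hB.lt_trans _ _ _ h6 h7)
          · intro h6
            rcases hB.lt_total u₀' Z' hp.org' hZ' with h7 | h7 | h7
            · exact absurd h7 h4.2
            · exact h7
            · exact absurd h7 h6
        rw [h5, h6, h3]
      · constructor
        · intro h1
          exact absurd (hA.lt_org _ _ h1).2 hZ
        · intro h1
          exact absurd (horg.2 (hB.lt_org _ _ h1).2) hZ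
    · constructor
      · intro h1
        exact absurd ((org_S_iter_p_iter hA hp.org a j).1 (hA.lt_org _ _ h1).1) hj
      · intro h1
        exact absurd ((org_S_iter_p_iter hB hp.org' a j).1 (hB.lt_org _ _ h1).1) hj
  · exact Iff.rfl

theorem lev_ltR (hA : A.Ax c0) (hB : B.Ax c0) (hl : A.Loc B K l) (hp : A.LevPair B K l u₀ u₀')
    (hK : 4 * k + 2 ^ k + 4 ≤ K)
    {y z : A.T ⊕ A.F} {y' z' : B.T ⊕ B.F} (h : A.CL B u₀ u₀' k 0 y y')
    (h' : A.Lc B k l 0 z z') : A.ltU z y ↔ B.ltU z' y' := by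
  obtain ⟨a, j, -, ha, -, rfl, rfl⟩ := h
  have hpow : 1 ≤ 2 ^ k := Nat.one_le_two_pow
  rcases TF2_sort hl (by omega) h' with ⟨Z, Z', rfl, rfl⟩ | ⟨Z, Z', rfl, rfl⟩
  · have horg := TF2_org hA hB hl (by omega) h'
    show A.lt Z (A.S^[j] (A.p^[a] u₀)) ↔ B.lt Z' (B.S^[j] (B.p^[a] u₀'))
    by_cases hj : j = 0
    · subst hj
      by_cases hZ : A.Org Z
      · have hZ' := horg.1 hZ
        have h1 := lt_iter_right hA u₀ Z hp.org hZ a
          (fun i hi => (TF2_up hA hB hp hK h' i (by omega)).1)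
        have h2 := lt_iter_right hB u₀' Z' hp.org' hZ' a
          (fun i hi => (TF2_up hA hB hp hK h' i (by omega)).2)
        show A.lt Z (A.p^[a] u₀) ↔ B.lt Z' (B.p^[a] u₀')
        rw [h1, h2]
        exact TF2_cut hp hK hZ h'
      · constructor
        · intro h1
          exact absurd (hA.lt_org _ _ h1).1 hZ
        · intro h1
          exact absurd (horg.2 (hB.lt_org _ _ h1).1) hZ
    · constructor
      · intro h1
        exact absurd ((org_S_iter_p_iter hA hp.org a j).1 (hA.lt_org _ _ h1).2) hj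
      · intro h1
        exact absurd ((org_S_iter_p_iter hB hp.org' a j).1 (hB.lt_org _ _ h1).2) hj
  · exact Iff.rfl

end Pool.Agent.LIN.Tower
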