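import Pool.Agent.LIN.TF2

/-! # [LIN-TF3] block C: extension by a new level -/

namespace Pool.Agent.LIN.Tower

variable {m : Mach} {A B : Tower m} {c0 : m.Config} {K k : ℕ}
  {l : List ((A.T ⊕ A.F) × (B.T ⊕ B.F))} {u₀ : A.T} {u₀' : B.T}

/-- `Loc_cons` with `NSys k k l (CL u₀ u₀' k)`. -/
theorem lev_core (hA : A.Ax c0) (hB : B.Ax c0) (hl : A.Loc B K l) (hp : A.LevPair B K l u₀ u₀')
    (hK : 4 * k + 2 ^ k + 4 ≤ K) :
    A.Loc B k ((Sum.inl (A.p^[k] u₀), Sum.inl (B.p^[k] u₀')) :: l) := by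
  have hpow : 1 ≤ 2 ^ k := Nat.one_le_two_pow
  have hN : A.NSys B k k l (A.CL B u₀ u₀' k) :=
    { step := fun r hr y y' h a => Or.inl (lev_step hA hB hp hr h a)
      mono := fun r hr y y' h => lev_mono hr h
      pr := fun y y' h c => lev_pr hA hB hp h c
      eq := fun y y' z z' h h' => lev_eq hA hB h h'
      lt := fun y y' z z' h h' => lev_lt hA hB hp h h'
      eqL := fun y y' z z' h h' => lev_eqL hA hB hp hK h h'
      ltL := fun y y' z z' h h' => lev_ltL hA hB hl hp hK h h'
      ltR := fun y y' z z' h h' => lev_ltR hA hB hl hp hK h h' }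
  refine Loc_cons le_rfl (hl.mono (by omega)) hN _ _ ?_
  refine ⟨k, 0, le_rfl, by omega, ?_, rfl, rfl⟩
  rw [Nat.sub_self]
  norm_num

theorem TF3_ltU_trans (hA : A.Ax c0) (x y z : A.T ⊕ A.F) (h : A.ltU x y) (h' : A.ltU y z) :
    A.ltU x z := by
  rcases x with x | x <;> rcases y with y | y <;> rcases z with z | z
  · exact hA.lt_trans _ _ _ h h'
  · exact h'.elim
  · exact h.elim
  · exact h.elim
  · exact h.elim
  · exact h.elim
  · exact h'.elim
  · exact hA.flt_trans _ _ _ h h'

/-- As `row_choice` (file TE3): let `v` be the largest origin below `u₀` that is a word of length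
`<= K` at an element of `l` (`exists_max`; `o` is below `u₀`), `v'` the corresponding element,
`u₀' = p v'` (`p` is the next origin: `p_lt`, `p_succ`). That `act w b.1` is an origin iff
`act w b.2` is: `h z = z`, `Loc (K + 1)`. -/
theorem lev_choice (hA : A.Ax c0) (hB : B.Ax c0) (hl : A.Loc B (K + 1) l)
    (ho : (Sum.inl A.o, Sum.inl B.o) ∈ l) (hu : A.Org u₀)
    (hfar : A.FarL B (K + 1) l (Sum.inl u₀)) :
    ∃ u₀', A.LevPair B K l u₀ u₀' := by
  have hne : u₀ ≠ A.o := by
    intro h
    refine hfar _ ho [] (by simp) ?_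
    rw [h]
    rfl
  obtain ⟨w, hw, b, hb, ⟨v, hv, hvo, hvu⟩, hmax⟩ := exists_max K l
    (fun w b => ∃ v, A.act w b.1 = Sum.inl v ∧ A.Org v ∧ A.lt v u₀)
    ⟨[], by simp, _, ho, A.o, rfl, hA.o_org, o_lt hA u₀ hu hne⟩
    (fun x y z => TF3_ltU_trans hA x y z)
    (by
      rintro w w' b b' ⟨v, hv, hvo, -⟩ ⟨v', hv', hvo', -⟩
      rw [hv, hv', Sum.inl.injEq]
      exact hA.lt_total v v' hvo hvo')
  -- the corresponding element
  have hw1 := hl b hb w (by omega)
  obtain ⟨v', hv'⟩ : ∃ v', B.act w b.2 = Sum.inl v' := by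
    have h1 := hw1.1 PSym.T
    rw [hv] at h1
    have h2 := h1.1 trivial
    rcases h3 : B.act w b.2 with x | x
    · exact ⟨x, rfl⟩
    · rw [h3] at h2
      exact h2.elim
  have hvo' : B.Org v' := by
    rw [org_iff hB]
    have h3 := ((hl b hb (Letter.h :: w) (by rw [List.length_cons]; omega)).2 b hb w
      (by omega)).1
    have h4 : A.act (Letter.h :: w) b.1 = Sum.inl (A.h v) := by
      show A.act1 Letter.h (A.act w b.1) = _
      rw [hv]
      rfl
    have h5 : B.act (Letter.h :: w) b.2 = Sum.inl (B.h v') := by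
      show B.act1 Letter.h (B.act w b.2) = _
      rw [hv']
      rfl
    rw [h4, h5, hv, hv', Sum.inl.injEq, Sum.inl.injEq] at h3
    exact h3.1 ((org_iff hA v).1 hvo)
  have hpw : A.act (Letter.p :: w) b.1 = Sum.inl (A.p v) := by
    show A.act1 Letter.p (A.act w b.1) = _
    rw [hv]
    rfl
  have hpw' : B.act (Letter.p :: w) b.2 = Sum.inl (B.p v') := by
    show B.act1 Letter.p (B.act w b.2) = _
    rw [hv']
    rfl
  have hlen : (Letter.p :: w : List (Letter m)).length ≤ K + 1 := by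
    rw [List.length_cons]
    omega
  have hpo : A.Org (A.p v) := org_p_iter hA 1 v hvo
  have hpo' : B.Org (B.p v') := org_p_iter hB 1 v' hvo'
  have hpu : A.lt (A.p v) u₀ := by
    rcases hA.p_succ v u₀ hvu with h1 | h1
    · exact absurd (hpw.trans (by rw [h1])) (hfar b hb _ hlen)
    · exact h1
  refine ⟨B.p v', ho, hu, hpo', fun c hc w1 hw1 => hfar c hc w1 (by omega), ?_, ?_⟩
  · intro c hc w1 hw1 h1
    have h2 := ((hl b hb (Letter.p :: w) hlen).2 c hc w1 (by omega)).1
    rw [hpw, hpw', h1] at h2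
    have h3 := h2.2 rfl
    have h4 := hmax w1 hw1 c hc ⟨A.p v, h3.symm, hpo, hpu⟩
    rw [← h3, hv, Sum.inl.injEq] at h4
    have h5 := hA.p_lt v hvo
    rcases h4 with h4 | h4
    · rw [h4] at h5
      exact hA.lt_irrefl _ h5
    · exact hA.lt_irrefl _ (hA.lt_trans _ _ _ h5 h4)
  · intro c hc w1 hw1 x x' hx hx' hxo
    constructor
    · intro h1
      have h4 := hmax w1 hw1 c hc ⟨x, hx, hxo, h1⟩
      have h5 := (hl c hc w1 (by omega)).2 b hb w (by omega)
      have h6 := hB.p_lt v' hvo'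
      rcases h4 with h4 | h4
      · have h7 := h5.1.1 h4
        rw [hx', hv', Sum.inl.injEq] at h7
        rw [h7]
        exact h6
      · have h7 := h5.2.1 h4
        rw [hx', hv'] at h7
        exact hB.lt_trans _ _ _ h7 h6
    · intro h1
      by_contra h2
      have h3 : A.lt u₀ x := by
        rcases hA.lt_total u₀ x hu hxo with h4 | h4 | h4
        · exact absurd (hx.trans (by rw [h4])) (hfar c hc w1 (by omega))
        · exact h4
        · exact absurd h4 h2
      have h4 : A.lt (A.p v) x := hA.lt_trans _ _ _ hpu h3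
      have h5 := ((hl b hb (Letter.p :: w) hlen).2 c hc w1 (by omega)).2
      rw [hpw, hpw', hx, hx'] at h5
      have h6 : B.lt (B.p v') x' := h5.1 h4
      exact hB.lt_irrefl _ (hB.lt_trans _ _ _ h1 h6)

/-- Put `K₀ = 4 k + 2^k + 4`, `K = K₀ + 2 k + 2`. If `u` is a word of length `<= K₀ + k + 1` at an
element of `l`: `Loc.near`. Otherwise `u = p^k u₀` with `u₀ = lft^k u` an origin
(`p_iter_lft_iter`: `h u = u` is not `p^j o`), which is far; `lev_choice`, `lev_core`. -/
theorem lev_ext (hA : A.Ax c0) (hB : B.Ax c0) (k : ℕ) :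
    ∃ K, ∀ l, A.Loc B K l → (Sum.inl A.o, Sum.inl B.o) ∈ l → ∀ u : A.T, A.Org u →
      ∃ u', A.Loc B k ((Sum.inl u, u') :: l) := by
  have hpow : 1 ≤ 2 ^ k := Nat.one_le_two_pow
  refine ⟨(4 * k + 2 ^ k + 4) + (2 * k + 2), fun l hl ho u hu => ?_⟩
  by_cases hnear : ∃ c ∈ l, ∃ w : List (Letter m), w.length ≤ (4 * k + 2 ^ k + 4) + (k + 1) ∧
      A.act w c.1 = Sum.inl u
  · obtain ⟨c, hc, w, hw, hwb⟩ := hnear
    have h1 : A.Loc B (k + ((4 * k + 2 ^ k + 4) + (k + 1))) l := hl.mono (by omega)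
    have h2 := Loc.near h1 c hc w hw
    rw [hwb] at h2
    exact ⟨_, h2⟩
  · push Not at hnear
    have hpit : ∀ j (y : A.T), A.act (List.replicate j Letter.p) (Sum.inl y)
        = Sum.inl (A.p^[j] y) := by
      intro j y
      rw [act_replicate, act1_p_inl]
    have h1 := p_iter_lft_iter hA k u (fun j hj h2 => by
      refine hnear _ ho (List.replicate j Letter.p) ?_ ?_
      · rw [List.length_replicate]
        omega
      · rw [hpit, ← h2, (org_iff hA u).1 hu])
    have horg : ∀ j, A.Org (A.lft^[j] u) := by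
      intro j
      induction j with
      | zero => exact hu
      | succ j ih =>
        rw [Function.iterate_succ_apply']
        exact org_lft hA _ ih
    have hfar : A.FarL B ((4 * k + 2 ^ k + 4) + 1) l (Sum.inl (A.lft^[k] u)) := by
      intro c hc w hw h2
      refine hnear c hc (List.replicate k Letter.p ++ w) ?_ ?_
      · rw [List.length_append, List.length_replicate]
        omega
      · rw [act_append, h2, hpit, h1.1]
    obtain ⟨u₀', hp⟩ := lev_choice hA hB (hl.mono (by omega)) ho (horg k) hfar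
    have h2 := lev_core hA hB (hl.mono (by omega)) hp le_rfl
    rw [h1.1] at h2
    exact ⟨_, h2⟩

end Pool.Agent.LIN.Tower
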