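import Pool.Agent.LIN.TE0

/-! # [LIN-TG1] block C: the pairs of elements of T obtained from a new element, letters -/

namespace Pool.Agent.LIN.Tower

variable {m : Mach} {A B : Tower m} {c0 : m.Config} {κ k r : ℕ} {x₀ : A.T} {x₀' : B.T}

/-- The digits of the two first elements agree. -/
theorem TPair.digit (h : A.TPair B κ k x₀ x₀') (a : ℕ) (ha : a ≤ κ + k) :
    A.rs 1 (A.p^[a] x₀) = B.rs 1 (B.p^[a] x₀') := by
  have h1 := (rs_eq_iff (κ + k + 1) x₀ x₀').1 h.rs a (by omega)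
  rw [rs_eq_iff 1]
  intro j hj
  obtain rfl : j = 0 := by omega
  exact h1

theorem tg1_j0 (κ k : ℕ) : j0 k * 2 ^ κ = (k + 1) * 2 ^ (κ + k + 1) := by
  unfold j0
  rw [mul_assoc, ← pow_add]
  congr 2
  omega

theorem tg1_pow {a κ k : ℕ} (ha : a ≤ κ + k) : 2 ^ a * 2 ≤ 2 ^ (κ + k + 1) := by
  rw [pow_succ]
  exact Nat.mul_le_mul_right 2 (Nat.pow_le_pow_right (by norm_num) ha)

theorem tg1_sub {k r : ℕ} (hr : r < k) (P : ℕ) : (k - r) * P = (k - (r + 1)) * P + P := by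
  have h : k - r = (k - (r + 1)) + 1 := by omega
  rw [h, Nat.add_mul, Nat.one_mul]

/-- The elements of `NT (r+1)` are in the middle of the window: `2 <= j` (here
`j0 k * 2^κ = (k + 1) * 2^(κ + k + 1)`, so `j 2^a >= (r + 2) 2^(κ+k+1)`, and `2^a <= 2^(κ+k)`). -/
theorem NT_ge {a j : ℕ} (hr : r ≤ k) (ha : a + r ≤ κ + k)
    (h : j0 k * 2 ^ κ ≤ j * 2 ^ a + (k - r) * 2 ^ (κ + k + 1)) : 2 ≤ j := by
  by_contra hj
  have h1 : j ≤ 1 := by omega
  have h2 : 2 ^ a * 2 ≤ 2 ^ (κ + k + 1) := tg1_pow (by omega)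
  have h3 : j * 2 ^ a ≤ 1 * 2 ^ a := Nat.mul_le_mul_right _ h1
  have h4 : (k - r) * 2 ^ (κ + k + 1) ≤ k * 2 ^ (κ + k + 1) :=
    Nat.mul_le_mul_right _ (Nat.sub_le k r)
  have h5 : 0 < 2 ^ a := Nat.pow_pos (by norm_num)
  rw [tg1_j0, Nat.add_mul, Nat.one_mul] at h
  rw [Nat.one_mul] at h3
  omega

theorem NT_mono {y : A.T ⊕ A.F} {y' : B.T ⊕ B.F} (hr : r < k)
    (h : A.NT B x₀ x₀' κ k (r + 1) y y') : A.NT B x₀ x₀' κ k r y y' := by
  obtain ⟨a, j, h1, h2, h3, h4, h5, h6⟩ := h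
  have h7 := tg1_sub hr (2 ^ (κ + k + 1))
  have h8 : 0 < 2 ^ (κ + k + 1) := Nat.pow_pos (by norm_num)
  refine ⟨a, j, by omega, ?_, by omega, by omega, h5, h6⟩
  rcases h2 with h2 | h2
  · exact Or.inl (by omega)
  · exact Or.inr h2

/-- `j + 1`. -/
theorem NT_s {y : A.T ⊕ A.F} {y' : B.T ⊕ B.F} (hr : r < k)
    (h : A.NT B x₀ x₀' κ k (r + 1) y y') :
    A.NT B x₀ x₀' κ k r (A.act1 Letter.s y) (B.act1 Letter.s y') := by
  obtain ⟨a, j, h1, h2, h3, h4, rfl, rfl⟩ := h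
  have h7 := tg1_sub hr (2 ^ (κ + k + 1))
  have h8 : 2 ^ a * 2 ≤ 2 ^ (κ + k + 1) := tg1_pow (by omega)
  have h9 : (j + 1) * 2 ^ a = j * 2 ^ a + 2 ^ a := by rw [Nat.add_mul, Nat.one_mul]
  refine ⟨a, j + 1, by omega, ?_, by omega, by omega, ?_, ?_⟩
  · rcases h2 with h2 | h2
    · exact Or.inl (by omega)
    · exact Or.inr h2
  · rw [Function.iterate_succ_apply']
    rfl
  · rw [Function.iterate_succ_apply']
    rfl

/-- `j - 1` (`sPre_S`). -/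
theorem NT_s' (hA : A.Ax c0) (hB : B.Ax c0) {y : A.T ⊕ A.F} {y' : B.T ⊕ B.F} (hr : r < k)
    (h : A.NT B x₀ x₀' κ k (r + 1) y y') :
    A.NT B x₀ x₀' κ k r (A.act1 Letter.s' y) (B.act1 Letter.s' y') := by
  obtain ⟨a, j, h1, h2, h3, h4, rfl, rfl⟩ := h
  have h7 := tg1_sub hr (2 ^ (κ + k + 1))
  have h8 : 2 ^ a * 2 ≤ 2 ^ (κ + k + 1) := tg1_pow (by omega)
  have hj : 2 ≤ j := NT_ge (by omega) h1 h3
  obtain ⟨i, rfl⟩ : ∃ i, j = i + 1 := ⟨j - 1, by omega⟩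
  have h9 : (i + 1) * 2 ^ a = i * 2 ^ a + 2 ^ a := by rw [Nat.add_mul, Nat.one_mul]
  refine ⟨a, i, by omega, ?_, by omega, by omega, ?_, ?_⟩
  · rcases h2 with h2 | h2
    · exact Or.inl (by omega)
    · exact Or.inr h2
  · rw [Function.iterate_succ_apply']
    exact congrArg Sum.inl (sPre_S hA _)
  · rw [Function.iterate_succ_apply']
    exact congrArg Sum.inl (sPre_S hB _)

/-- A digit is at most one. -/
theorem tg1_rs_one (A : Tower m) (y : A.T) : A.rs 1 y ≤ 1 := by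
  have h := rs_lt A 1 y
  omega

/-- `(a + 1, (j + digit) / 2)` (`p_S_iter`). -/
theorem NT_p (hA : A.Ax c0) (hB : B.Ax c0) (hx : A.TPair B κ k x₀ x₀')
    {y : A.T ⊕ A.F} {y' : B.T ⊕ B.F} (hr : r < k)
    (h : A.NT B x₀ x₀' κ k (r + 1) y y') :
    A.NT B x₀ x₀' κ k r (A.act1 Letter.p y) (B.act1 Letter.p y') := by
  obtain ⟨a, j, h1, h2, h3, h4, rfl, rfl⟩ := h
  have h7 := tg1_sub hr (2 ^ (κ + k + 1))
  have h8 : 2 ^ a * 2 ≤ 2 ^ (κ + k + 1) := tg1_pow (by omega)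
  have hd := hx.digit a (by omega)
  have hd1 := tg1_rs_one A (A.p^[a] x₀)
  have hj : 2 ≤ j := NT_ge (by omega) h1 h3
  obtain ⟨i, rfl⟩ : ∃ i, j = i + 1 := ⟨j - 1, by omega⟩
  have h9 : (i + 1) * 2 ^ a = i * 2 ^ a + 2 ^ a := by rw [Nat.add_mul, Nat.one_mul]
  have h10 : (i + 2) * 2 ^ a = i * 2 ^ a + 2 * 2 ^ a := by rw [Nat.add_mul]
  generalize hD : A.rs 1 (A.p^[a] x₀) = D at *
  have h11 : (i + 1 + D) / 2 * 2 ^ (a + 1) = ((i + 1 + D) / 2 * 2) * 2 ^ a := by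
    rw [pow_succ]; ring
  have h12 : i * 2 ^ a ≤ ((i + 1 + D) / 2 * 2) * 2 ^ a :=
    Nat.mul_le_mul_right _ (by omega)
  have h13 : ((i + 1 + D) / 2 * 2) * 2 ^ a ≤ (i + 2) * 2 ^ a :=
    Nat.mul_le_mul_right _ (by omega)
  refine ⟨a + 1, (i + 1 + D) / 2, by omega, ?_, by omega, by omega, ?_, ?_⟩
  · rcases h2 with h2 | h2
    · exact Or.inl (by omega)
    · exact Or.inr h2
  · rw [Function.iterate_succ_apply' A.p]
    show Sum.inl (A.p (A.S^[i + 1] (A.p^[a] x₀))) = _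
    rw [p_S_iter hA, hD]
  · rw [Function.iterate_succ_apply' B.p]
    show Sum.inl (B.p (B.S^[i + 1] (B.p^[a] x₀'))) = _
    rw [p_S_iter hB, ← hd]

/-- `(a - 1, 2 j - digit)` (`lft_S_iter_p`) for `a >= 1`; for `a = 0` (then `κ = 0`, so these are
times: in the case `κ = k` one has `r + 1 <= a` or `k = 0`) the identity (`lft_tm`). -/
theorem NT_l (hA : A.Ax c0) (hB : B.Ax c0) (hx : A.TPair B κ k x₀ x₀')
    {y : A.T ⊕ A.F} {y' : B.T ⊕ B.F} (hr : r < k)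
    (h : A.NT B x₀ x₀' κ k (r + 1) y y') :
    A.NT B x₀ x₀' κ k r (A.act1 Letter.l y) (B.act1 Letter.l y') := by
  obtain ⟨a, j, h1, h2, h3, h4, rfl, rfl⟩ := h
  have h7 := tg1_sub hr (2 ^ (κ + k + 1))
  rcases Nat.eq_zero_or_pos a with ha | ha
  · subst ha
    have hκ : κ = 0 := by
      rcases h2 with h2 | h2
      · omega
      · exact h2
    have htm : A.Tm x₀ ∧ B.Tm x₀' := by
      rcases hx.typ with ⟨_, ht⟩ | ⟨hk, _⟩
      · exact ht
      · omega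
    have h8 : 0 < 2 ^ (κ + k + 1) := Nat.pow_pos (by norm_num)
    refine ⟨0, j, by omega, Or.inr hκ, by omega, by omega, ?_, ?_⟩
    · refine congrArg Sum.inl (lft_tm hA _ ?_)
      show A.h (A.S^[j] x₀) = A.o
      rw [h_S_iter hA]
      exact htm.1
    · refine congrArg Sum.inl (lft_tm hB _ ?_)
      show B.h (B.S^[j] x₀') = B.o
      rw [h_S_iter hB]
      exact htm.2
  · obtain ⟨i, rfl⟩ : ∃ i, a = i + 1 := ⟨a - 1, by omega⟩
    have hd := hx.digit i (by omega)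
    have hd1 := tg1_rs_one A (A.p^[i] x₀)
    have hj : 2 ≤ j := NT_ge (by omega) h1 h3
    have h8 : 2 ^ i * 2 ≤ 2 ^ (κ + k + 1) := tg1_pow (by omega)
    generalize hD : A.rs 1 (A.p^[i] x₀) = D at *
    have h11 : j * 2 ^ (i + 1) = (2 * j) * 2 ^ i := by
      rw [pow_succ]; ring
    have h12 : (2 * j - D) * 2 ^ i ≤ (2 * j) * 2 ^ i :=
      Nat.mul_le_mul_right _ (by omega)
    have h13 : (2 * j) * 2 ^ i ≤ (2 * j - D + 1) * 2 ^ i :=
      Nat.mul_le_mul_right _ (by omega)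
    rw [Nat.add_mul, Nat.one_mul] at h13
    refine ⟨i, 2 * j - D, by omega, ?_, by omega, by omega, ?_, ?_⟩
    · rcases h2 with h2 | h2
      · exact Or.inl (by omega)
      · exact Or.inr h2
    · rw [Function.iterate_succ_apply' A.p]
      show Sum.inl (A.lft (A.S^[j] (A.p (A.p^[i] x₀)))) = _
      rw [lft_S_iter_p hA _ _ (by omega), hD]
    · rw [Function.iterate_succ_apply' B.p]
      show Sum.inl (B.lft (B.S^[j] (B.p (B.p^[i] x₀')))) = _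
      rw [lft_S_iter_p hB _ _ (by omega), ← hd]

/-- Elements with `a >= 1`, and all elements in the case of a high level, are not times. -/
theorem NT_ntm (hA : A.Ax c0) (hx : A.TPair B κ k x₀ x₀') (a j : ℕ)
    (h : 1 ≤ a ∨ ¬ A.Tm x₀) : ¬ A.Tm (A.S^[j] (A.p^[a] x₀)) := by
  intro ht
  have h1 : A.h (A.S^[j] (A.p^[a] x₀)) = A.o := ht
  rw [h_S_iter hA] at h1
  rcases Nat.eq_zero_or_pos a with ha | ha
  · subst ha
    rcases h with h | h
    · omega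
    · exact h h1
  · obtain ⟨i, rfl⟩ : ∃ i, a = i + 1 := ⟨a - 1, by omega⟩
    rw [Function.iterate_succ_apply'] at h1
    exact h_p_ne_o hA _ h1

/-- The letters `n, n', t, f, k` act as the identity on elements of `T` that are not times
(`fstU_ntm`, `mkU_else`, `ptU_else` and `st_tm`). -/
theorem act1_ntm (hA : A.Ax c0) (z : A.T) (hz : ¬ A.Tm z) (i : Fin m.k) :
    A.act1 Letter.n (Sum.inl z) = Sum.inl z ∧ A.act1 Letter.n' (Sum.inl z) = Sum.inl z ∧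
    A.act1 Letter.t (Sum.inl z) = Sum.inl z ∧ A.act1 (Letter.f i) (Sum.inl z) = Sum.inl z ∧
    A.act1 (Letter.k i) (Sum.inl z) = Sum.inl z := by
  refine ⟨rfl, rfl, ?_, ?_, ?_⟩
  · exact ptU_else hA z fun q i z' p hs _ => hz (hA.st_tm z q hs).1
  · exact fstU_ntm hA i z hz
  · exact mkU_else hA i z fun h => hz h.1

end Pool.Agent.LIN.Tower
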