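import Pool.Agent.LIN.TG1

/-! # [LIN-TG2] block C: the pairs of elements of T obtained from a new element, atomic facts -/

namespace Pool.Agent.LIN.Tower

variable {m : Mach} {A B : Tower m} {c0 : m.Config} {κ k r : ℕ} {x₀ : A.T} {x₀' : B.T}

theorem tg2_j0 (κ k : ℕ) : j0 k * 2 ^ κ = (k + 1) * 2 ^ (κ + k + 1) := by
  have e : κ + k + 1 = (k + 1) + κ := by omega
  rw [j0, e, pow_add 2 (k + 1) κ, mul_assoc]

/-- The data of an element of `NT 0`. -/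
theorem tg2_data {y : A.T ⊕ A.F} {y' : B.T ⊕ B.F} (h : A.NT B x₀ x₀' κ k 0 y y') :
    ∃ a j, a ≤ κ + k ∧ 2 ^ (κ + k + 1) ≤ j * 2 ^ a ∧ j * 2 ^ a ≤ Wd κ k ∧ 1 ≤ j ∧
      y = Sum.inl (A.S^[j] (A.p^[a] x₀)) ∧ y' = Sum.inl (B.S^[j] (B.p^[a] x₀')) := by
  obtain ⟨a, j, ha, -, h1, h2, hy, hy'⟩ := h
  rw [tg2_j0, Nat.sub_zero] at h1 h2
  have e1 : (k + 1) * 2 ^ (κ + k + 1) = k * 2 ^ (κ + k + 1) + 2 ^ (κ + k + 1) := by ring
  have e2 : Wd κ k = k * 2 ^ (κ + k + 1) + k * 2 ^ (κ + k + 1) + 2 ^ (κ + k + 1) := by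
    rw [Wd]; ring
  have hpos : 0 < 2 ^ (κ + k + 1) := by positivity
  refine ⟨a, j, by omega, by omega, by omega, ?_, hy, hy'⟩
  rcases Nat.eq_zero_or_pos j with hj | hj
  · subst hj
    omega
  · exact hj

theorem tg2_rs (hx : A.TPair B κ k x₀ x₀') (a : ℕ) (ha : a ≤ κ + k) :
    A.rs a x₀ = B.rs a x₀' := by
  have h := (rs_eq_iff (κ + k + 1) x₀ x₀').1 hx.rs
  exact (rs_eq_iff a x₀ x₀').2 fun j hj => h j (by omega)

/-- Parity: `(j + digit)` (`Lf_S_iter`). -/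
theorem NT_prL (hA : A.Ax c0) (hB : B.Ax c0) (hx : A.TPair B κ k x₀ x₀')
    {z : A.T} {z' : B.T} (h : A.NT B x₀ x₀' κ k 0 (Sum.inl z) (Sum.inl z')) :
    A.Lf z ↔ B.Lf z' := by
  obtain ⟨a, j, ha, -, -, -, hy, hy'⟩ := tg2_data h
  obtain rfl := Sum.inl.inj hy
  obtain rfl := Sum.inl.inj hy'
  have hd := (rs_eq_iff 1 (A.p^[a] x₀) (B.p^[a] x₀')).1 (hx.digit a ha) 0 (by norm_num)
  simp only [Function.iterate_zero, id_eq] at hd
  rw [Lf_S_iter hA, Lf_S_iter hB, hd]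

/-- `Ev_shift` with `d = S^n x₀`, `n = j 2^a - rs a x₀`, which is at most `Wd κ k`; the two residues
modulo `2^a` agree (`rs_eq_iff`). -/
theorem NT_prE (hA : A.Ax c0) (hB : B.Ax c0) (hx : A.TPair B κ k x₀ x₀')
    (hev : ∀ n ≤ Wd κ k, A.Ev (A.S^[n] x₀) ↔ B.Ev (B.S^[n] x₀'))
    {z : A.T} {z' : B.T} (h : A.NT B x₀ x₀' κ k 0 (Sum.inl z) (Sum.inl z')) :
    A.Ev z ↔ B.Ev z' := by
  obtain ⟨a, j, ha, -, h2, hj, hy, hy'⟩ := tg2_data h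
  obtain rfl := Sum.inl.inj hy
  obtain rfl := Sum.inl.inj hy'
  have hr := tg2_rs hx a ha
  have hlt := rs_lt A a x₀
  have hle : 2 ^ a ≤ j * 2 ^ a := Nat.le_mul_of_pos_left _ hj
  have e : (j * 2 ^ a - A.rs a x₀) + A.rs a x₀ = 0 + j * 2 ^ a := by omega
  have e' : (j * 2 ^ a - A.rs a x₀) + B.rs a x₀' = 0 + j * 2 ^ a := by rw [← hr]; omega
  have h3 := Ev_shift hA a x₀ (A.S^[j * 2 ^ a - A.rs a x₀] x₀) j (j * 2 ^ a - A.rs a x₀) 0 rfl e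
  have h4 := Ev_shift hB a x₀' (B.S^[j * 2 ^ a - A.rs a x₀] x₀') j (j * 2 ^ a - A.rs a x₀) 0 rfl e'
  rw [h3, h4]
  exact hev _ (by omega)

/-- `rel_self` on both sides. -/
theorem NT_eq (hA : A.Ax c0) (hB : B.Ax c0)
    {y z : A.T ⊕ A.F} {y' z' : B.T ⊕ B.F} (h : A.NT B x₀ x₀' κ k 0 y y')
    (h' : A.NT B x₀ x₀' κ k 0 z z') : y = z ↔ y' = z' := by
  obtain ⟨a, j, ha, -, h2, hj, hy, hy'⟩ := tg2_data h
  obtain ⟨b, i, hb, -, g2, hi, hz, hz'⟩ := tg2_data h'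
  rw [hy, hz, hy', hz', Sum.inl.injEq, Sum.inl.injEq, rel_self hA, rel_self hB]

/-- The elements of `NT 0` are not origins (`1 <= j`). -/
theorem NT_norg {z : A.T} {y' : B.T ⊕ B.F} (h : A.NT B x₀ x₀' κ k 0 (Sum.inl z) y') :
    ¬ A.Org z := by
  obtain ⟨a, j, ha, -, h2, hj, hy, hy'⟩ := tg2_data h
  obtain rfl := Sum.inl.inj hy
  obtain ⟨i, rfl⟩ : ∃ i, j = i + 1 := ⟨j - 1, by omega⟩
  intro ho
  rw [Function.iterate_succ_apply'] at ho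
  exact ho _ rfl

theorem NT_norg' {z' : B.T} {y : A.T ⊕ A.F} (h : A.NT B x₀ x₀' κ k 0 y (Sum.inl z')) :
    ¬ B.Org z' := by
  obtain ⟨a, j, ha, -, h2, hj, hy, hy'⟩ := tg2_data h
  obtain rfl := Sum.inl.inj hy'
  obtain ⟨i, rfl⟩ : ∃ i, j = i + 1 := ⟨j - 1, by omega⟩
  intro ho
  rw [Function.iterate_succ_apply'] at ho
  exact ho _ rfl

/-- So `ltU` is false with an element of `NT 0` on either side (`lt_org`). -/
theorem NT_nlt (hA : A.Ax c0) {y : A.T ⊕ A.F} {y' : B.T ⊕ B.F}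
    (h : A.NT B x₀ x₀' κ k 0 y y') (z : A.T ⊕ A.F) : ¬ A.ltU y z ∧ ¬ A.ltU z y := by
  obtain ⟨a, j, ha, -, h2, hj, hy, hy'⟩ := tg2_data h
  subst hy
  have ho := NT_norg h
  rcases z with z | z
  · exact ⟨fun hl => ho (hA.lt_org _ _ hl).1, fun hl => ho (hA.lt_org _ _ hl).2⟩
  · exact ⟨fun hl => hl, fun hl => hl⟩

theorem NT_nlt' (hB : B.Ax c0) {y : A.T ⊕ A.F} {y' : B.T ⊕ B.F}
    (h : A.NT B x₀ x₀' κ k 0 y y') (z : B.T ⊕ B.F) : ¬ B.ltU y' z ∧ ¬ B.ltU z y' := by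
  obtain ⟨a, j, ha, -, h2, hj, hy, hy'⟩ := tg2_data h
  subst hy'
  have ho := NT_norg' h
  rcases z with z | z
  · exact ⟨fun hl => ho (hB.lt_org _ _ hl).1, fun hl => ho (hB.lt_org _ _ hl).2⟩
  · exact ⟨fun hl => hl, fun hl => hl⟩

/-- The levels: `h` of an element of `NT r` is `p^a` of the level. -/
theorem NT_h (hA : A.Ax c0) (hB : B.Ax c0)
    {y : A.T ⊕ A.F} {y' : B.T ⊕ B.F} (h : A.NT B x₀ x₀' κ k r y y') :
    ∃ a, a + r ≤ κ + k ∧ A.act1 Letter.h y = Sum.inl (A.p^[a] (A.h x₀)) ∧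
      B.act1 Letter.h y' = Sum.inl (B.p^[a] (B.h x₀')) := by
  obtain ⟨a, j, ha, -, -, -, hy, hy'⟩ := h
  subst hy
  subst hy'
  refine ⟨a, ha, ?_, ?_⟩
  · show Sum.inl (A.h _) = _
    rw [h_S_iter hA, h_p_iter hA]
  · show Sum.inl (B.h _) = _
    rw [h_S_iter hB, h_p_iter hB]

/-- Back to `x₀`: the word `s^(rs a x₀) l^a s'^j` (`sPre_iter_S_iter`, `lft_iter_p_iter`). Length
`<= j + a + 2^a <= (2 k + 1) 2^(κ+k+1) + (κ + k) + 2^(κ+k) <= RN κ k`. -/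
theorem NT_rev (hA : A.Ax c0) (hB : B.Ax c0) (hx : A.TPair B κ k x₀ x₀')
    {y : A.T ⊕ A.F} {y' : B.T ⊕ B.F} (h : A.NT B x₀ x₀' κ k 0 y y') :
    ∃ w : List (Letter m), w.length ≤ RN κ k ∧ A.act w y = Sum.inl x₀ ∧
      B.act w y' = Sum.inl x₀' := by
  obtain ⟨a, j, ha, -, h2, hj, hy, hy'⟩ := tg2_data h
  subst hy
  subst hy'
  have hr := tg2_rs hx a ha
  refine ⟨List.replicate (A.rs a x₀) Letter.s ++ (List.replicate a Letter.l ++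
    List.replicate j Letter.s'), ?_, ?_, ?_⟩
  · simp only [List.length_append, List.length_replicate]
    have hlt := rs_lt A a x₀
    have h3 : 2 ^ a ≤ 2 ^ (κ + k) := Nat.pow_le_pow_right (by norm_num) ha
    have h4 : κ + k < 2 ^ (κ + k) := Nat.lt_two_pow_self
    have h5 : j ≤ j * 2 ^ a := Nat.le_mul_of_pos_right _ (by positivity)
    have e1 : 2 ^ (κ + k + 1) = 2 ^ (κ + k) + 2 ^ (κ + k) := by rw [pow_succ]; ring
    have e2 : RN κ k = Wd κ k + 2 ^ (κ + k + 1) + 2 ^ (κ + k + 1) := by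
      rw [Wd, RN]; ring
    omega
  · rw [act_append, act_append, act_replicate, act_replicate, act_replicate, act1_s'_inl,
      sPre_iter_S_iter hA, act1_l_inl, act1_s_inl, lft_iter_p_iter hA]
  · rw [act_append, act_append, act_replicate, act_replicate, act_replicate, act1_s'_inl,
      sPre_iter_S_iter hB, act1_l_inl, act1_s_inl, hr, lft_iter_p_iter hB]

end Pool.Agent.LIN.Tower
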