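import Pool.Agent.LIN.TG2

/-! # [LIN-TG3] block C: a new element on a high level, local equivalence -/

namespace Pool.Agent.LIN.Tower

variable {m : Mach} {A B : Tower m} {c0 : m.Config} {K k : ℕ}
  {l : List ((A.T ⊕ A.F) × (B.T ⊕ B.F))} {x₀ : A.T} {x₀' : B.T}

/-- Closure under the letters. -/
theorem tg3_step (hA : A.Ax c0) (hB : B.Ax c0)
    (hv : (Sum.inl (A.h x₀), Sum.inl (B.h x₀')) ∈ l)
    (hx : A.TPair B k k x₀ x₀') (hn : ¬ A.Tm x₀) (hn' : ¬ B.Tm x₀')
    {r : ℕ} (hr : r < k) {y : A.T ⊕ A.F} {y' : B.T ⊕ B.F}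
    (h : A.NT B x₀ x₀' k k (r + 1) y y') (a : Letter m) :
    A.NT B x₀ x₀' k k r (A.act1 a y) (B.act1 a y') ∨
      A.Lc B (2 * k) l r (A.act1 a y) (B.act1 a y') := by
  have hm := NT_mono hr h
  have h1 : ∃ z z', y = Sum.inl z ∧ y' = Sum.inl z' ∧ ¬ A.Tm z ∧ ¬ B.Tm z' := by
    obtain ⟨a, j, -, -, -, -, hy, hy'⟩ := h
    refine ⟨_, _, hy, hy', ?_, ?_⟩
    · intro ht
      unfold Tm at ht
      rw [h_S_iter hA, h_p_iter hA] at ht
      rcases Nat.eq_zero_or_pos a with ha | ha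
      · subst ha
        exact hn ht
      · obtain ⟨b, rfl⟩ : ∃ b, a = b + 1 := ⟨a - 1, by omega⟩
        rw [Function.iterate_succ_apply', ← h_p_iter hA, ← hA.h_p] at ht
        exact h_p_ne_o hA _ ht
    · intro ht
      unfold Tm at ht
      rw [h_S_iter hB, h_p_iter hB] at ht
      rcases Nat.eq_zero_or_pos a with ha | ha
      · subst ha
        exact hn' ht
      · obtain ⟨b, rfl⟩ : ∃ b, a = b + 1 := ⟨a - 1, by omega⟩
        rw [Function.iterate_succ_apply', ← h_p_iter hB, ← hB.h_p] at ht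
        exact h_p_ne_o hB _ ht
  obtain ⟨z, z', hz, hz', ht, ht'⟩ := h1
  have hi : ∀ b : Letter m, A.act1 b (Sum.inl z) = Sum.inl z →
      B.act1 b (Sum.inl z') = Sum.inl z' →
      A.NT B x₀ x₀' k k r (A.act1 b y) (B.act1 b y') ∨
      A.Lc B (2 * k) l r (A.act1 b y) (B.act1 b y') := by
    intro b hb hb'
    left
    rw [hz, hz', hb, hb', ← hz, ← hz']
    exact hm
  cases a with
  | s => exact Or.inl (NT_s hr h)
  | s' => exact Or.inl (NT_s' hA hB hr h)
  | p => exact Or.inl (NT_p hA hB hx hr h)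
  | l => exact Or.inl (NT_l hA hB hx hr h)
  | h =>
    right
    obtain ⟨a, ha, h1, h2⟩ := NT_h hA hB h
    refine ⟨_, hv, List.replicate a Letter.p, ?_, ?_, ?_⟩
    · rw [List.length_replicate]
      omega
    · rw [h1, act_replicate, act1_p_inl]
    · rw [h2, act_replicate, act1_p_inl]
  | n => exact hi _ rfl rfl
  | n' => exact hi _ rfl rfl
  | t =>
    by_cases hk : Nonempty (Fin m.k)
    · obtain ⟨i⟩ := hk
      exact hi _ (act1_ntm hA z ht i).2.2.1 (act1_ntm hB z' ht' i).2.2.1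
    · refine hi _ ?_ ?_
      · show A.ptU z = Sum.inl z
        exact ptU_else hA z fun q i => (hk ⟨i⟩).elim
      · show B.ptU z' = Sum.inl z'
        exact ptU_else hB z' fun q i => (hk ⟨i⟩).elim
  | f i => exact hi _ (act1_ntm hA z ht i).2.2.2.1 (act1_ntm hB z' ht' i).2.2.2.1
  | k i => exact hi _ (act1_ntm hA z ht i).2.2.2.2 (act1_ntm hB z' ht' i).2.2.2.2

/-- The unary predicates. -/
theorem tg3_pr (hA : A.Ax c0) (hB : B.Ax c0)
    (hx : A.TPair B k k x₀ x₀') (hn : ¬ A.Tm x₀) (hn' : ¬ B.Tm x₀')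
    (hev : ∀ n ≤ Wd k k, A.Ev (A.S^[n] x₀) ↔ B.Ev (B.S^[n] x₀'))
    {y : A.T ⊕ A.F} {y' : B.T ⊕ B.F}
    (h : A.NT B x₀ x₀' k k 0 y y') (c : PSym m) : A.Pr c y ↔ B.Pr c y' := by
  obtain ⟨a, j, ha, -, h2, hj, hy, hy'⟩ := tg2_data h
  subst hy
  subst hy'
  have ht : ¬ A.Tm (A.S^[j] (A.p^[a] x₀)) := NT_ntm hA hx a j (Or.inr hn)
  have ht' : ¬ B.Tm (B.S^[j] (B.p^[a] x₀')) := by
    have hx' : B.TPair A k k x₀' x₀ := ⟨hx.rs.symm, by
      rcases hx.typ with h | h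
      · exact Or.inl ⟨h.1, h.2.2, h.2.1⟩
      · exact Or.inr ⟨h.1, h.2.2, h.2.1⟩⟩
    exact NT_ntm hB hx' a j (Or.inr hn')
  cases c with
  | T => exact ⟨fun _ => trivial, fun _ => trivial⟩
  | L => exact NT_prL hA hB hx h
  | E => exact NT_prE hA hB hx hev h
  | M => exact Iff.rfl
  | P => exact Iff.rfl
  | q q =>
    constructor
    · intro hq
      exact (ht (hA.st_tm _ _ hq).1).elim
    · intro hq
      exact (ht' (hB.st_tm _ _ hq).1).elim
  | i i => exact Iff.rfl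

/-- `Loc_cons` with `NSys (2 k) k l (NT x₀ x₀' k k)`. `step`: `NT_s, NT_s', NT_p, NT_l, act1_ntm`
(all elements are not times: `NT_ntm`), and `h` goes to `Lc` by `NT_h` (the word `p^a` at the pair
of the levels). `pr`: `T` true, `NT_prL`, `NT_prE`, `q` false (`st_tm`), the others false. `eq`:
`NT_eq`; `lt, ltL, ltR`: `NT_nlt`, `NT_nlt'`; `eqL`: false on both sides by `NT_rev` and `far`.
The new pair is in `NT k` (`a = k`, `j = j0 k`). -/
theorem high_core (hA : A.Ax c0) (hB : B.Ax c0) (hl : A.Loc B K l)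
    (hv : (Sum.inl (A.h x₀), Sum.inl (B.h x₀')) ∈ l)
    (hx : A.TPair B k k x₀ x₀') (hn : ¬ A.Tm x₀) (hn' : ¬ B.Tm x₀')
    (hev : ∀ n ≤ Wd k k, A.Ev (A.S^[n] x₀) ↔ B.Ev (B.S^[n] x₀'))
    (hfar : A.FarL B K l (Sum.inl x₀)) (hfar' : A.FarR B K l (Sum.inl x₀'))
    (hK : RN k k + 4 * k + 4 ≤ K) :
    A.Loc B k ((Sum.inl (A.S^[j0 k] (A.p^[k] x₀)), Sum.inl (B.S^[j0 k] (B.p^[k] x₀'))) :: l) := by
  have hkK : k ≤ 2 * k := by omega
  refine Loc_cons (C := A.NT B x₀ x₀' k k) hkK (hl.mono (by omega)) ?_ _ _ ?_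
  · -- the system
    have hnl : ∀ y y', A.NT B x₀ x₀' k k 0 y y' → ∀ z z', A.Lc B (2 * k) l 0 z z' →
        y ≠ z ∧ y' ≠ z' := by
      intro y y' h z z' h'
      obtain ⟨w, hw, hwy, hwy'⟩ := NT_rev hA hB hx h
      obtain ⟨b, hb, w', hw', hz, hz'⟩ := h'
      constructor
      · intro e
        refine hfar b hb (w ++ w') ?_ ?_
        · rw [List.length_append]
          omega
        · rw [act_append, ← hz, ← e, hwy]
      · intro e
        refine hfar' b hb (w ++ w') ?_ ?_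
        · rw [List.length_append]
          omega
        · rw [act_append, ← hz', ← e, hwy']
    refine ⟨?_, ?_, ?_, ?_, ?_, ?_, ?_, ?_⟩
    · intro r hr y y' h a
      exact tg3_step hA hB hv hx hn hn' hr h a
    · intro r hr y y' h
      exact NT_mono hr h
    · intro y y' h c
      exact tg3_pr hA hB hx hn hn' hev h c
    · intro y y' z z' h h'
      exact NT_eq hA hB h h'
    · intro y y' z z' h h'
      exact iff_of_false (NT_nlt hA h z).1 (NT_nlt' hB h z').1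
    · intro y y' z z' h h'
      exact iff_of_false (hnl y y' h z z' h').1 (hnl y y' h z z' h').2
    · intro y y' z z' h h'
      exact iff_of_false (NT_nlt hA h z).1 (NT_nlt' hB h z').1
    · intro y y' z z' h h'
      exact iff_of_false (NT_nlt hA h z).2 (NT_nlt' hB h z').2
  · exact ⟨k, j0 k, le_rfl, Or.inl le_rfl, by omega, by omega, rfl, rfl⟩

end Pool.Agent.LIN.Tower
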