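import Pool.Agent.LIN.TA5

/-! # [LIN-TG4] block C: windows with at most one event; the numbers that realise them -/

namespace Pool.Agent.LIN

/-- Windows `[2^N - e, 2^N - e + W]` for large `N`. -/
theorem num_event (W a e Bd : ℕ) (he : e ≤ W) : ∃ N₀, ∀ N ≥ N₀,
    Bd + e ≤ 2 ^ N ∧ 2 ^ a ∣ 2 ^ N ∧ ∀ n ≤ W, (∃ k, 2 ^ N - e + n = 2 ^ k) ↔ n = e := by
  refine ⟨Bd + W + a + 2, fun N hN => ?_⟩
  obtain ⟨M, rfl⟩ : ∃ M, N = M + 1 := ⟨N - 1, by omega⟩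
  have h1 : M < 2 ^ M := Nat.lt_two_pow_self
  have h2 : 2 ^ (M + 1) = 2 ^ M + 2 ^ M := by rw [pow_succ]; ring
  refine ⟨by omega, pow_dvd_pow 2 (by omega), fun n hn => ⟨?_, ?_⟩⟩
  · rintro ⟨k, hk⟩
    rcases lt_trichotomy k (M + 1) with h | h | h
    · have h3 : 2 ^ k ≤ 2 ^ M := Nat.pow_le_pow_right (by norm_num) (by omega)
      omega
    · rw [h] at hk
      omega
    · have h3 : 2 ^ (M + 1 + 1) ≤ 2 ^ k := Nat.pow_le_pow_right (by norm_num) (by omega)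
      have h4 : 2 ^ (M + 1 + 1) = 2 ^ (M + 1) + 2 ^ (M + 1) := by rw [pow_succ]; ring
      omega
  · rintro rfl
    exact ⟨M + 1, by omega⟩

/-- Windows in the middle of a long phase. -/
theorem num_quiet (W a ρ Bd : ℕ) : ∃ N₀, ∀ N ≥ N₀,
    Bd ≤ 2 ^ (N - 1) ∧ 2 ^ a ∣ 2 ^ N + 2 ^ (N - 1) ∧
      2 ^ N + 2 ^ (N - 1) + ρ + W + Bd < 2 ^ (N + 1) ∧
      ∀ n ≤ W, ¬ ∃ k, 2 ^ N + 2 ^ (N - 1) + ρ + n = 2 ^ k := by
  refine ⟨Bd + W + ρ + a + 2, fun N hN => ?_⟩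
  obtain ⟨M, rfl⟩ : ∃ M, N = M + 1 := ⟨N - 1, by omega⟩
  have h1 : M < 2 ^ M := Nat.lt_two_pow_self
  have h2 : 2 ^ (M + 1) = 2 ^ M + 2 ^ M := by rw [pow_succ]; ring
  have h4 : 2 ^ (M + 1 + 1) = 2 ^ (M + 1) + 2 ^ (M + 1) := by rw [pow_succ]; ring
  have h5 : M + 1 - 1 = M := by omega
  rw [h5]
  refine ⟨by omega, dvd_add (pow_dvd_pow 2 (by omega)) (pow_dvd_pow 2 (by omega)), by omega,
    fun n hn => ?_⟩
  rintro ⟨k, hk⟩
  rcases Nat.lt_or_ge k (M + 2) with h | h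
  · have h3 : 2 ^ k ≤ 2 ^ (M + 1) := Nat.pow_le_pow_right (by norm_num) (by omega)
    omega
  · have h3 : 2 ^ (M + 1 + 1) ≤ 2 ^ k := Nat.pow_le_pow_right (by norm_num) (by omega)
    omega

theorem res_unique (M e x y : ℕ) (hx : x < M) (hy : y < M) (h1 : (e + x) % M = 0)
    (h2 : (e + y) % M = 0) : x = y := by
  have h : e + x ≡ e + y [MOD M] := by
    unfold Nat.ModEq
    rw [h1, h2]
  exact Nat.ModEq.eq_of_lt_of_lt (Nat.ModEq.add_left_cancel' e h) hx hy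

namespace Tower

variable {m : Mach} {A : Tower m} {c0 : m.Config}

/-- Say `n < n'`. By `Ev_pair`, `S^n x₀ = S^j (h x₀)` with `j <= n' - n <= W`. If `n <= j`, cancel
`S^n`; otherwise `h x₀` has a predecessor. -/
theorem one_event (hA : A.Ax c0) (x₀ : A.T) (W : ℕ) (hf : ∀ n ≤ W, x₀ ≠ A.S^[n] (A.h x₀))
    (n n' : ℕ) (hn : n ≤ W) (hn' : n' ≤ W) (h : A.Ev (A.S^[n] x₀)) (h' : A.Ev (A.S^[n'] x₀)) :
    n = n' := by
  have key : ∀ n n', n ≤ W → n' ≤ W → A.Ev (A.S^[n] x₀) → A.Ev (A.S^[n'] x₀) → n < n' → False := by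
    intro n n' hn hn' h h' hlt
    have e1 : A.S^[n' - n] (A.S^[n] x₀) = A.S^[n'] x₀ := by
      rw [← Function.iterate_add_apply]
      congr 2
      omega
    obtain ⟨j, hj, hj'⟩ := Ev_pair hA (A.S^[n] x₀) (n' - n) (by omega) h (by rw [e1]; exact h')
    rw [h_S_iter hA] at hj'
    rcases Nat.lt_or_ge j n with hjn | hjn
    · have e2 := (S_iter_sub hA (A.h x₀) x₀ j n hjn.le).1 hj'.symm
      obtain ⟨t, ht⟩ : ∃ t, n - j = t + 1 := ⟨n - j - 1, by omega⟩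
      rw [ht, Function.iterate_succ_apply'] at e2
      exact hA.h_org x₀ _ e2.symm
    · have e2 := (S_iter_sub hA x₀ (A.h x₀) n j hjn).1 hj'
      exact hf (j - n) (by omega) e2
  rcases lt_trichotomy n n' with hlt | hlt | hlt
  · exact (key n n' hn hn' h h' hlt).elim
  · exact hlt
  · exact (key n' n hn' hn h' h hlt).elim

/-- `Ev_rs` and `rs_S_iter`. -/
theorem event_res (hA : A.Ax c0) (x₀ : A.T) (a e : ℕ)
    (hf : ∀ n < 2 ^ a, x₀ ≠ A.S^[n] (A.h x₀)) (h : A.Ev (A.S^[e] x₀)) :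
    (e + A.rs a x₀) % 2 ^ a = 0 := by
  rw [← rs_S_iter hA]
  refine Ev_rs hA a _ h fun n hn he => ?_
  rw [h_S_iter hA] at he
  rcases Nat.lt_or_ge n e with hne | hne
  · have e2 := (S_iter_sub hA (A.h x₀) x₀ n e hne.le).1 he.symm
    obtain ⟨t, ht⟩ : ∃ t, e - n = t + 1 := ⟨e - n - 1, by omega⟩
    rw [ht, Function.iterate_succ_apply'] at e2
    exact hA.h_org x₀ _ e2.symm
  · have e2 := (S_iter_sub hA x₀ (A.h x₀) e n hne).1 he
    exact hf (n - e) (by omega) e2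

/-- Residue and events at the position number `c` of a level. -/
theorem rs_pos (hA : A.Ax c0) (v : A.T) (hv : A.Org v) (a c : ℕ) :
    A.rs a (A.S^[c] v) = c % 2 ^ a := by
  rw [rs_S_iter hA, rs_org hA a v hv, add_zero]

theorem ev_pos (hA : A.Ax c0) (v : A.T) (hv : A.Org v) (c n : ℕ) :
    A.Ev (A.S^[n] (A.S^[c] v)) ↔ ∃ k, c + n = 2 ^ k := by
  rw [← Function.iterate_add_apply, Ev_pow hA v hv, Nat.add_comm]

end Tower

end Pool.Agent.LIN
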