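import Pool.Agent.LIN.TG3
import Pool.Agent.LIN.TG4

/-! # [LIN-TG5] block C: choice of an element on a high level -/

namespace Pool.Agent.LIN.Tower

variable {m : Mach} {A B : Tower m} {c0 : m.Config} {K k : ℕ}
  {l : List ((A.T ⊕ A.F) × (B.T ⊕ B.F))} {x₀ : A.T}

/-- `v'` is an origin and not `o` because `h x₀` is (`Loc 1`). `x₀` is not one of the first
`R` elements of its level (`hfar` for the words `s^n` at `h x₀`), so there is at most one `e <= Wd k k`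
with `Ev (S^e x₀)` (`one_event`). If there is one, take `x₀' = S^(2^N - e) v'` with `N` large:
residues by `event_res`, `rs_pos`, `res_unique`, events by `ev_pos` and `num_event`. If there is
none, take `x₀' = S^(2^N + 2^(N-1) + rs x₀) v'` (`num_quiet`). `FarR` for `N` large: `exists_farR`
with `f c = S^c v'` (injective by `S_iter_inj`). -/
theorem high_choice (hA : A.Ax c0) (hB : B.Ax c0) (hl : A.Loc B 1 l)
    (ho : (Sum.inl A.o, Sum.inl B.o) ∈ l) (v' : B.T)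
    (hv : (Sum.inl (A.h x₀), Sum.inl v') ∈ l) (hn : ¬ A.Tm x₀)
    (hfar : A.FarL B (Wd k k + 2 ^ (2 * k + 1)) l (Sum.inl x₀)) (K : ℕ) :
    ∃ x₀' : B.T, B.h x₀' = v' ∧ ¬ B.Tm x₀' ∧ A.TPair B k k x₀ x₀' ∧
      (∀ n ≤ Wd k k, A.Ev (A.S^[n] x₀) ↔ B.Ev (B.S^[n] x₀')) ∧
      A.FarR B K l (Sum.inl x₀') := by
  -- `v'` is an origin, not `o`
  have hv0 : B.h v' = v' := by
    have h1 := ((hl _ hv [Letter.h] (by simp)).2 _ hv [] (by simp)).1
    have h2 : A.act [Letter.h] (Sum.inl (A.h x₀)) = A.act [] (Sum.inl (A.h x₀)) := by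
      show Sum.inl (A.h (A.h x₀)) = Sum.inl (A.h x₀)
      rw [h_h hA]
    exact Sum.inl.inj (h1.1 h2)
  have hvo : B.Org v' := (org_iff hB v').2 hv0
  have hvne : v' ≠ B.o := by
    have h1 := ((hl _ hv [] (by simp)).2 _ ho [] (by simp)).1
    intro h2
    have h3 : (Sum.inl v' : B.T ⊕ B.F) = Sum.inl B.o := by rw [h2]
    exact hn (Sum.inl.inj (h1.2 h3))
  -- `x₀` is not among the first elements
  have hf : ∀ n ≤ Wd k k + 2 ^ (2 * k + 1), x₀ ≠ A.S^[n] (A.h x₀) := by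
    intro n hn he
    refine hfar _ hv (List.replicate n Letter.s) (by simpa using hn) ?_
    rw [act_replicate, act1_s_inl, ← he]
  have e2k : 2 * k + 1 = k + k + 1 := by omega
  rw [e2k] at hf
  obtain ⟨N₁, hN₁⟩ := exists_farR (A := A) K l (fun c => (Sum.inl (B.S^[c] v') : B.T ⊕ B.F))
    (fun c c' hc => (S_iter_inj hB v' c c').1 (Sum.inl.inj hc))
  have hM : 0 < 2 ^ (k + k + 1) := by positivity
  -- it suffices to find the position
  suffices hs : ∃ c, N₁ ≤ c ∧ A.rs (k + k + 1) x₀ = c % 2 ^ (k + k + 1) ∧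
      ∀ n ≤ Wd k k, A.Ev (A.S^[n] x₀) ↔ ∃ j, c + n = 2 ^ j by
    obtain ⟨c, hc, hr, hev⟩ := hs
    have hh : B.h (B.S^[c] v') = v' := by rw [h_S_iter hB, hv0]
    have hnt : ¬ B.Tm (B.S^[c] v') := by
      unfold Tm
      rw [hh]
      exact hvne
    refine ⟨B.S^[c] v', hh, hnt, ⟨?_, Or.inr ⟨rfl, hn, hnt⟩⟩, ?_, hN₁ c hc⟩
    · rw [rs_pos hB v' hvo]
      exact hr
    · intro n hn
      rw [ev_pos hB v' hvo]
      exact hev n hn
  by_cases hex : ∃ e ≤ Wd k k, A.Ev (A.S^[e] x₀)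
  · obtain ⟨e, he, hev⟩ := hex
    obtain ⟨N₀, hN₀⟩ := num_event (Wd k k) (k + k + 1) e N₁ he
    obtain ⟨h1, h2, h3⟩ := hN₀ N₀ le_rfl
    refine ⟨2 ^ N₀ - e, by omega, ?_, ?_⟩
    · have h4 := event_res hA x₀ (k + k + 1) e (fun n hn => hf n (by omega)) hev
      refine res_unique (2 ^ (k + k + 1)) e _ _ (rs_lt A _ _) (Nat.mod_lt _ hM) h4 ?_
      rw [Nat.add_mod_mod]
      have h5 : e + (2 ^ N₀ - e) = 2 ^ N₀ := by omega
      rw [h5]
      exact Nat.mod_eq_zero_of_dvd h2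
    · intro n hn
      rw [h3 n hn]
      constructor
      · intro h6
        exact one_event hA x₀ (Wd k k) (fun n hn => hf n (by omega)) n e hn he h6 hev
      · rintro rfl
        exact hev
  · obtain ⟨N₀, hN₀⟩ := num_quiet (Wd k k) (k + k + 1) (A.rs (k + k + 1) x₀) N₁
    obtain ⟨h1, h2, -, h3⟩ := hN₀ N₀ le_rfl
    have h7 : N₁ ≤ 2 ^ N₀ + 2 ^ (N₀ - 1) + A.rs (k + k + 1) x₀ :=
      le_trans h1 (le_trans (Nat.le_add_left _ _) (Nat.le_add_right _ _))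
    refine ⟨2 ^ N₀ + 2 ^ (N₀ - 1) + A.rs (k + k + 1) x₀, h7, ?_, ?_⟩
    · rw [Nat.add_mod, Nat.mod_eq_zero_of_dvd h2, zero_add, Nat.mod_mod,
        Nat.mod_eq_of_lt (rs_lt A _ _)]
    · intro n hn
      exact iff_of_false (fun h => hex ⟨n, hn, h⟩) (h3 n hn)

end Pool.Agent.LIN.Tower
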