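import Pool.Agent.LIN.TG5

/-! # [LIN-TG6] block C: extension by an element on a high level -/

namespace Pool.Agent.LIN.Tower

variable {m : Mach} {A B : Tower m} {c0 : m.Config} {K k : ℕ}
  {l : List ((A.T ⊕ A.F) × (B.T ⊕ B.F))} {x₀ : A.T}

/-- An element far from its level has many predecessors. -/
theorem tg6_pred (hA : A.Ax c0) (u : A.T) (M : ℕ) (hf : ∀ n ≤ M, A.S^[n] (A.h u) ≠ u) :
    ∀ n ≤ M + 1, ∃ u₁, A.S^[n] u₁ = u := by
  intro n
  induction n with
  | zero => exact fun _ => ⟨u, rfl⟩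
  | succ n ih =>
    intro hn
    obtain ⟨u₁, h₁⟩ := ih (by omega)
    have hno : ¬ A.Org u₁ := by
      intro ho
      have h2 : A.h u = u₁ := by rw [← h₁, h_S_iter hA, hA.org_h u₁ ho]
      exact hf n (by omega) (by rw [h2, h₁])
    obtain ⟨z, hz⟩ := exists_pred u₁ hno
    refine ⟨z, ?_⟩
    rw [Function.iterate_succ_apply, hz, h₁]

/-- Let `K₀ = RN k k + 4 k + 4 + Wd k k + 2^(2k+1)`, `K = K₀ + j0 k + 6 k + 10`. If `u` is a word of
length `<= K₀ + j0 k + 2 k + 2` at an element of `l`: `Loc.near`. Otherwise `u = S^(j0 k) u₁`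
(`u` is not `S^j (h u)` for `j <= j0 k`), `x₀ = lft^k u₁`: `p^k x₀ = u₁`, `p^k (h x₀) = h u`
(`p_iter_lft_iter`), `h x₀ = lft^k (h u)` (`h_lft`), not a time because `h u` is not `p^k o`. Add the
pair of the levels `(lft^k (h u), lft^k v')` to `l` (`Loc.near`, the word `l^k`); `x₀` is far from
the new list; `high_choice`, `high_core`, `Loc.sub`. -/
theorem high_ext (hA : A.Ax c0) (hB : B.Ax c0) (k : ℕ) :
    ∃ K, ∀ l, A.Loc B K l → (Sum.inl A.o, Sum.inl B.o) ∈ l → ∀ (u : A.T) (v' : B.T),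
      (Sum.inl (A.h u), Sum.inl v') ∈ l → (∀ j ≤ k, A.h u ≠ A.p^[j] A.o) →
      ∃ u', A.Loc B k ((Sum.inl u, u') :: l) := by
  obtain ⟨K₁, hK₁⟩ : ∃ K₁, K₁ = RN k k + 4 * k + 4 := ⟨_, rfl⟩
  obtain ⟨W, hW⟩ : ∃ W, W = Wd k k + 2 ^ (2 * k + 1) := ⟨_, rfl⟩
  obtain ⟨L, hL⟩ : ∃ L, L = K₁ + W + j0 k + 2 * k + 2 := ⟨_, rfl⟩
  refine ⟨L + 4 * k + 8, fun l hl ho u v' hv hj => ?_⟩
  by_cases hnear : ∃ b ∈ l, ∃ w : List (Letter m), w.length ≤ L ∧ A.act w b.1 = Sum.inl u
  · obtain ⟨b, hb, w, hw, hwu⟩ := hnear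
    refine ⟨B.act w b.2, ?_⟩
    rw [← hwu]
    exact (hl.mono (by omega : k + L ≤ L + 4 * k + 8)).near b hb w hw
  · have hfar : ∀ b ∈ l, ∀ w : List (Letter m), w.length ≤ L → A.act w b.1 ≠ Sum.inl u :=
      fun b hb w hw he => hnear ⟨b, hb, w, hw, he⟩
    obtain ⟨u₁, hu₁⟩ := tg6_pred hA u (j0 k) (fun n hn he => hfar _ hv
      (List.replicate n Letter.s) (by rw [List.length_replicate]; omega)
      (by rw [act_replicate, act1_s_inl, he])) (j0 k) (by omega)
    have hh : A.h u₁ = A.h u := by rw [← hu₁, h_S_iter hA]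
    obtain ⟨hp, -, hph⟩ := p_iter_lft_iter hA k u₁ (fun j hjk => by
      rw [hh]
      exact hj j hjk.le)
    obtain ⟨x₀, hx₀⟩ : ∃ x₀, x₀ = A.lft^[k] u₁ := ⟨_, rfl⟩
    rw [← hx₀] at hp hph
    rw [hh] at hph
    have hn : ¬ A.Tm x₀ := by
      intro ht
      unfold Tm at ht
      rw [ht] at hph
      exact hj k le_rfl hph.symm
    have hhx : A.lft^[k] (A.h u) = A.h x₀ := by
      rw [← hph]
      exact lft_iter_p_iter_org hA k _ (hA.h_org x₀)
    -- the list with the pair of the levels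
    have hl₁ := (hl.mono (by omega : K₁ + k ≤ L + 4 * k + 8)).near _ hv
      (List.replicate k Letter.l) (by simp)
    rw [act_replicate, act_replicate, act1_l_inl, act1_l_inl, hhx] at hl₁
    obtain ⟨l₁, hl₁d⟩ : ∃ l₁ : List ((A.T ⊕ A.F) × (B.T ⊕ B.F)),
      l₁ = (Sum.inl (A.h x₀), Sum.inl (B.lft^[k] v')) :: l := ⟨_, rfl⟩
    rw [← hl₁d] at hl₁
    have hfar₁ : A.FarL B (K₁ + W) l₁ (Sum.inl x₀) := by
      intro b hb w hw he
      have h1 : A.act (List.replicate (j0 k) Letter.s ++ (List.replicate k Letter.p ++ w)) b.1 =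
          Sum.inl u := by
        rw [act_append, act_append, he, act_replicate, act_replicate, act1_p_inl, act1_s_inl,
          hp, hu₁]
      rw [hl₁d] at hb
      rcases List.mem_cons.1 hb with hb | hb
      · rw [hb] at h1
        refine hfar _ hv ((List.replicate (j0 k) Letter.s ++ (List.replicate k Letter.p ++ w)) ++
          List.replicate k Letter.l) ?_ ?_
        · simp only [List.length_append, List.length_replicate]
          omega
        · rw [act_append, act_replicate A Letter.l k, act1_l_inl, hhx]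
          exact h1
      · refine hfar _ hb _ ?_ h1
        simp only [List.length_append, List.length_replicate]
        omega
    have ho₁ : (Sum.inl A.o, Sum.inl B.o) ∈ l₁ := by
      rw [hl₁d]
      exact List.mem_cons_of_mem _ ho
    have hv₁ : (Sum.inl (A.h x₀), Sum.inl (B.lft^[k] v')) ∈ l₁ := by
      rw [hl₁d]
      exact List.mem_cons_self
    obtain ⟨x₀', hx1, hx2, hx3, hx4, hx5⟩ := high_choice (k := k) hA hB
      (hl₁.mono (by omega)) ho₁
      (B.lft^[k] v') hv₁ hn (fun b hb w hw => hfar₁ b hb w (by omega)) K₁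
    have hc := high_core hA hB hl₁ (by rw [hx1]; exact hv₁) hx3 hn hx2 hx4
      (fun b hb w hw => hfar₁ b hb w (by omega)) hx5 hK₁.ge
    rw [hp, hu₁] at hc
    refine ⟨Sum.inl (B.S^[j0 k] (B.p^[k] x₀')), hc.sub ?_⟩
    rw [hl₁d]
    intro b hb
    rcases List.mem_cons.1 hb with hb | hb
    · rw [hb]
      exact List.mem_cons_self
    · exact List.mem_cons_of_mem _ (List.mem_cons_of_mem _ hb)

end Pool.Agent.LIN.Tower
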