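import Pool.Agent.LIN.TG5
import Pool.Agent.LIN.TD2

/-!
# [LIN] block C : windows of times (definitions)

A chart describes the rows over the times `S^n x₀`, `n <= W`, of a window. In every row `i` there are
three base points `β i 0` (the first element), `β i 1`, `β i 2` over the time `x₀`, separated by more
than `C` positions; the marks and pointers are given by coordinates relative to the base points.
-/

namespace Pool.Agent.LIN.Tower

variable {m : Mach}

/-- The data of a chart: states, events, coordinates of the marks (relative to `β i 2`), base point and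
coordinate of the pointer. -/
structure Chart (m : Mach) where
  Q : ℕ → Fin m.nQ
  ev : ℕ → Prop
  M : Fin m.k → ℕ → ℕ
  P : ℕ → Fin 3 × ℕ

/-- Coordinates stay in the range. -/
structure Chart.OK (ch : Chart m) (k W C : ℕ) : Prop where
  kC : k ≤ C
  M1 : ∀ i n, n ≤ W → k ≤ ch.M i n
  M2 : ∀ i n, n ≤ W → ch.M i n + k ≤ C
  P1 : ∀ n, n ≤ W → (ch.P n).1 = 0 ∨ k ≤ (ch.P n).2
  P2 : ∀ n, n ≤ W → (ch.P n).2 + k ≤ C

/-- The window beginning with `x₀` is described by the chart. -/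
structure Real (A : Tower m) (x₀ : A.T) (W C : ℕ) (ch : Chart m) (β : Fin m.k → Fin 3 → A.F) :
    Prop where
  tm : A.Tm x₀
  pi : ∀ i t, A.pi (β i t) = x₀
  ix : ∀ i t, A.ix (β i t) = i
  fst : ∀ i, A.Fst (β i 0)
  sep1 : ∀ i c, c ≤ C → A.flt (A.nxt^[c] (β i 0)) (β i 1)
  sep2 : ∀ i c, c ≤ C → A.flt (A.nxt^[c] (β i 1)) (β i 2)
  st : ∀ n ≤ W, A.st (A.S^[n] x₀) (ch.Q n)
  ev : ∀ n ≤ W, A.Ev (A.S^[n] x₀) ↔ ch.ev n
  mrk : ∀ i, ∀ n ≤ W, A.Mk (A.V^[n] (A.nxt^[ch.M i n] (β i 2)))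
  ptr : ∀ n ≤ W, ∀ i z p, m.prog (ch.Q n) = Instr.test i z p →
    A.Pt (A.V^[n] (A.nxt^[(ch.P n).2] (β i (ch.P n).1)))

/-- The pairs of elements of rows obtained from a new time. -/
def NF (A B : Tower m) (β : Fin m.k → Fin 3 → A.F) (β' : Fin m.k → Fin 3 → B.F) (k C r : ℕ)
    (y : A.T ⊕ A.F) (y' : B.T ⊕ B.F) : Prop :=
  ∃ n i t c, j0 k ≤ n + (k - r) * 2 ^ (k + 1) ∧ n ≤ j0 k + (k - r) * 2 ^ (k + 1) ∧
    (t = 0 ∨ r ≤ c) ∧ c + r ≤ C ∧
    y = Sum.inr (A.V^[n] (A.nxt^[c] (β i t))) ∧ y' = Sum.inr (B.V^[n] (B.nxt^[c] (β' i t)))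

/-- All the marks over `x` are more than `n` positions above the first element. -/
def MkFar (A : Tower m) (x : A.T) (n : ℕ) : Prop :=
  ∀ b a, A.Mk b → A.pi b = x → A.Fst a → A.pi a = x → A.ix a = A.ix b → A.flt (A.nxt^[n] a) b

/-- The pointer over `x` (if any) is more than `n` positions above the first element. -/
def PtFar (A : Tower m) (x : A.T) (n : ℕ) : Prop :=
  ∀ b a, A.Pt b → A.pi b = x → A.Fst a → A.pi a = x → A.ix a = A.ix b → A.flt (A.nxt^[n] a) b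

/-- The pointer over `x` (if any) is more than `n` positions below its mark. -/
def PtMk (A : Tower m) (x : A.T) (n : ℕ) : Prop :=
  ∀ b c, A.Pt b → A.Mk c → A.pi b = x → A.pi c = x → A.ix b = A.ix c → A.flt (A.nxt^[n] b) c

/-- Window length. -/
def WW (k : ℕ) : ℕ := (2 * k + 1) * 2 ^ (k + 1)

/-- Range of coordinates, charts `a` and `c`. -/
def C1 (k : ℕ) : ℕ := 2 * WW k + 2 * k + 10

/-- Length of the relevant past. -/
def ZP (k : ℕ) : ℕ := C1 k + k + 2

/-- Range of coordinates, chart `b`. -/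
def C2 (k : ℕ) : ℕ := 2 * (WW k + ZP k) + 2 * k + 10

/-- Coordinate of the mark over `x₀`, chart `d`. -/
def E3 (k : ℕ) : ℕ := C1 k + k + 5

/-- Range of coordinates, chart `d`. -/
def C3 (k : ℕ) : ℕ := E3 k + 2 * WW k + 2 * k + 10

/-- How far the marks have to be from the first element. -/
def MF (k : ℕ) : ℕ := 2 * C2 k + 2 * C3 k + E3 k + k + 10

/-- Chart `a`: no event, state `q`. -/
def chA (m : Mach) (k : ℕ) (q : Fin m.nQ) : Chart m where
  Q _ := q
  ev _ := False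
  M _ n := k + n
  P n := (1, k + 2 * n)

/-- Chart `b`: the last event was `j` steps before `x₀`, state `q`. -/
def chB (m : Mach) (k j : ℕ) (q : Fin m.nQ) : Chart m where
  Q _ := q
  ev n := j = 0 ∧ n = 0
  M _ n := k + n
  P n := (0, 2 * (j + n))

open Classical in
/-- Chart `c`: an event at `e`, states `q`, `q'`, the pointer far from its mark. -/
noncomputable def chC (m : Mach) (k e : ℕ) (q q' : Fin m.nQ) : Chart m where
  Q n := if n < e then q else q'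
  ev n := n = e
  M i n := if n < e then k + 1 + n else k + n + dl m q False i
  P n := if n < e then (1, k + 2 * n) else (0, 2 * (n - e))

open Classical in
/-- Chart `d`: an event at `e`, states `q`, `q'`, the pointer over `x₀` is `e + d` positions below its
mark. -/
noncomputable def chD (m : Mach) (k e d : ℕ) (q q' : Fin m.nQ) : Chart m where
  Q n := if n < e then q else q'
  ev n := n = e
  M i n := if n < e then E3 k + n else E3 k + n + dl m q (d = 0) i - 1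
  P n := if n < e then (2, E3 k + 2 * n - e - d) else (0, 2 * (n - e))

/-- Hypotheses of a new time. -/
structure TimePair (A B : Tower m) (K k C : ℕ) (l : List ((A.T ⊕ A.F) × (B.T ⊕ B.F)))
    (x₀ : A.T) (x₀' : B.T) (ch : Chart m) (β : Fin m.k → Fin 3 → A.F)
    (β' : Fin m.k → Fin 3 → B.F) : Prop where
  memo : (Sum.inl A.o, Sum.inl B.o) ∈ l
  real : A.Real x₀ (WW k) C ch β
  real' : B.Real x₀' (WW k) C ch β'
  ok : ch.OK k (WW k) C
  rs : A.rs (k + 1) x₀ = B.rs (k + 1) x₀'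
  far : A.FarL B K l (Sum.inl x₀)
  far' : A.FarR B K l (Sum.inl x₀')

/-- Kind `a`: quiet window. -/
structure HypA (A : Tower m) (x₀ : A.T) (k : ℕ) (q : Fin m.nQ) : Prop where
  tm : A.Tm x₀
  ne : x₀ ≠ A.o
  st : A.st x₀ q
  ev : ∀ n ≤ WW k, ¬ A.Ev (A.S^[n] x₀)
  mf : A.MkFar x₀ (MF k)
  pf : A.PtFar x₀ (C1 k + k)
  pm : A.PtMk x₀ (C1 k)

/-- Kind `b`: an event `j` steps before `x₀`. -/
structure HypB (A : Tower m) (x₀ : A.T) (k j : ℕ) (q : Fin m.nQ) : Prop where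
  tm : A.Tm x₀
  st : A.st x₀ q
  le : j ≤ ZP k
  ex : ∃ d, d ≠ A.o ∧ A.Ev d ∧ A.S^[j] d = x₀ ∧
    ∀ n, 1 ≤ n → n ≤ j + WW k → ¬ A.Ev (A.S^[n] d)
  mf : A.MkFar x₀ (MF k)

/-- Kind `c`: an event in the window, the pointer over `x₀` far from its mark. -/
structure HypC (A : Tower m) (x₀ : A.T) (k e : ℕ) (q q' : Fin m.nQ) : Prop where
  tm : A.Tm x₀
  ne : x₀ ≠ A.o
  st : A.st x₀ q
  st' : A.st (A.S^[e] x₀) q'
  e1 : 1 ≤ e
  e2 : e ≤ WW k
  ev : ∀ n ≤ WW k, A.Ev (A.S^[n] x₀) ↔ n = e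
  mf : A.MkFar x₀ (MF k)
  pf : A.PtFar x₀ (C1 k + k)
  pm : A.PtMk x₀ (C1 k + 1)
  ns : ns m q False q'

/-- Kind `d`: a test state, the pointer over `x₀` is `e + d` positions below its mark, the event is
at `e`. -/
structure HypD (A : Tower m) (x₀ : A.T) (k e d : ℕ) (q q' : Fin m.nQ) : Prop where
  tm : A.Tm x₀
  ne : x₀ ≠ A.o
  st : A.st x₀ q
  st' : A.st (A.S^[e] x₀) q'
  e1 : 1 ≤ e
  ed : e + d ≤ C1 k + 1
  ev : ∀ n ≤ C1 k + 1, A.Ev (A.S^[n] x₀) ↔ n = e
  mf : A.MkFar x₀ (MF k)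
  ex : ∃ b c i z p, m.prog q = Instr.test i z p ∧ A.Pt b ∧ A.Mk c ∧ A.pi b = x₀ ∧ A.pi c = x₀ ∧
    A.ix b = i ∧ A.ix c = i ∧ A.nxt^[e + d] b = c
  ns : ns m q (d = 0) q'

end Pool.Agent.LIN.Tower
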