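import Pool.Agent.LIN.TH0

/-! # [LIN-TH1] block C: charts: addresses -/

namespace Pool.Agent.LIN.Tower

variable {m : Mach} {A : Tower m} {c0 : m.Config} {x₀ : A.T} {W C : ℕ} {ch : Chart m}
  {β : Fin m.k → Fin 3 → A.F}

theorem th1_base (hA : A.Ax c0) (hr : A.Real x₀ W C ch β) (i : Fin m.k) (t t' : Fin 3)
    (c : ℕ) (hc : c ≤ C) (h : t < t') : A.flt (A.nxt^[c] (β i t)) (β i t') := by
  have h1 := hr.sep1 i
  have h2 := hr.sep2 i
  have h3 : (t = 0 ∧ t' = 1) ∨ (t = 0 ∧ t' = 2) ∨ (t = 1 ∧ t' = 2) := by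
    revert h
    revert t t'
    decide
  rcases h3 with ⟨rfl, rfl⟩ | ⟨rfl, rfl⟩ | ⟨rfl, rfl⟩
  · exact h1 c hc
  · exact hA.flt_trans _ _ _ (h1 c hc) (h2 0 (Nat.zero_le _))
  · exact h2 c hc

theorem th1_lt (hA : A.Ax c0) (hr : A.Real x₀ W C ch β) (i : Fin m.k) (t t' : Fin 3)
    (c c' : ℕ) (hc : c ≤ C) (h : t < t') : A.flt (A.nxt^[c] (β i t)) (A.nxt^[c'] (β i t')) := by
  have h1 := th1_base hA hr i t t' c hc h
  rcases Nat.eq_zero_or_pos c' with h0 | h0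
  · rw [h0]
    exact h1
  · exact hA.flt_trans _ _ _ h1 ((flt_nxt_iter hA (β i t') 0 c').2 h0)

theorem th1_ix (hA : A.Ax c0) (hr : A.Real x₀ W C ch β) (i : Fin m.k) (t : Fin 3) (n c : ℕ) :
    A.ix (A.V^[n] (A.nxt^[c] (β i t))) = i := by
  rw [ix_V_iter hA, ix_nxt_iter hA, hr.ix]

theorem th1_pi (hA : A.Ax c0) (hr : A.Real x₀ W C ch β) (i : Fin m.k) (t : Fin 3) (n c : ℕ) :
    A.pi (A.V^[n] (A.nxt^[c] (β i t))) = A.S^[n] x₀ := by
  rw [pi_V_iter hA, pi_nxt_iter hA, hr.pi]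

/-- For `t < t'`: `nxt^c (β i t) < β i t' <= nxt^c' (β i t')` (`sep1`, `sep2`, and for `0, 2` both);
for `t = t'`: `flt_nxt_iter`; different registers: `flt_row`. -/
theorem chart_flt (hA : A.Ax c0) (hr : A.Real x₀ W C ch β) (i i' : Fin m.k) (t t' : Fin 3)
    (c c' : ℕ) (hc : c ≤ C) (hc' : c' ≤ C) :
    A.flt (A.nxt^[c] (β i t)) (A.nxt^[c'] (β i' t')) ↔ i = i' ∧ (t < t' ∨ t = t' ∧ c < c') := by
  constructor
  · intro h
    have hi : i = i' := by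
      have h1 := (hA.flt_row _ _ h).2
      rw [ix_nxt_iter hA, ix_nxt_iter hA, hr.ix, hr.ix] at h1
      exact h1
    subst hi
    refine ⟨rfl, ?_⟩
    rcases lt_trichotomy t t' with ht | ht | ht
    · exact Or.inl ht
    · subst ht
      exact Or.inr ⟨rfl, (flt_nxt_iter hA _ _ _).1 h⟩
    · exact absurd (hA.flt_trans _ _ _ h (th1_lt hA hr i t' t c' c hc' ht)) (hA.flt_irrefl _)
  · rintro ⟨rfl, h | ⟨rfl, h⟩⟩
    · exact th1_lt hA hr i t t' c c' hc h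
    · exact (flt_nxt_iter hA _ _ _).2 h

theorem chart_inj (hA : A.Ax c0) (hr : A.Real x₀ W C ch β) (i i' : Fin m.k) (t t' : Fin 3)
    (c c' : ℕ) (hc : c ≤ C) (hc' : c' ≤ C) :
    A.nxt^[c] (β i t) = A.nxt^[c'] (β i' t') ↔ i = i' ∧ t = t' ∧ c = c' := by
  constructor
  · intro h
    have hi : i = i' := by
      have h1 := congrArg A.ix h
      rw [ix_nxt_iter hA, ix_nxt_iter hA, hr.ix, hr.ix] at h1
      exact h1
    subst hi
    rcases lt_trichotomy t t' with ht | ht | ht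
    · have h1 := th1_lt hA hr i t t' c c' hc ht
      rw [h] at h1
      exact absurd h1 (hA.flt_irrefl _)
    · subst ht
      exact ⟨rfl, rfl, (nxt_iter_inj hA _ _ _).1 h⟩
    · have h1 := th1_lt hA hr i t' t c' c hc' ht
      rw [h] at h1
      exact absurd h1 (hA.flt_irrefl _)
  · rintro ⟨rfl, rfl, rfl⟩
    rfl

/-- `V_nxt_eq_iff`. -/
theorem chart_eq (hA : A.Ax c0) (hr : A.Real x₀ W C ch β) (i i' : Fin m.k) (t t' : Fin 3)
    (n n' c c' : ℕ) (hc : c ≤ C) (hc' : c' ≤ C) :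
    A.V^[n] (A.nxt^[c] (β i t)) = A.V^[n'] (A.nxt^[c'] (β i' t')) ↔
      n = n' ∧ i = i' ∧ t = t' ∧ c = c' := by
  rw [V_nxt_eq_iff hA _ _ (by rw [hr.pi, hr.pi]), chart_inj hA hr i i' t t' c c' hc hc']

/-- `V_nxt_flt_iff`. -/
theorem chart_lt (hA : A.Ax c0) (hr : A.Real x₀ W C ch β) (i i' : Fin m.k) (t t' : Fin 3)
    (n n' c c' : ℕ) (hc : c ≤ C) (hc' : c' ≤ C) :
    A.flt (A.V^[n] (A.nxt^[c] (β i t))) (A.V^[n'] (A.nxt^[c'] (β i' t'))) ↔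
      n = n' ∧ i = i' ∧ (t < t' ∨ t = t' ∧ c < c') := by
  rw [V_nxt_flt_iff hA _ _ (by rw [hr.pi, hr.pi]), chart_flt hA hr i i' t t' c c' hc hc']

/-- The marks of the window (`mrk`, `mk_uniq`, `chart_inj`); `x₀ <> o` because `x₀` has a state. -/
theorem chart_mk (hA : A.Ax c0) (hr : A.Real x₀ W C ch β) (i : Fin m.k) (t : Fin 3) (n c : ℕ)
    (hn : n ≤ W) (hc : c ≤ C) (hM : ch.M i n ≤ C) :
    A.Mk (A.V^[n] (A.nxt^[c] (β i t))) ↔ t = 2 ∧ c = ch.M i n := by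
  constructor
  · intro h
    have h1 := hA.mk_uniq _ _ h (hr.mrk i n hn)
      (by rw [th1_pi hA hr, th1_pi hA hr]) (by rw [th1_ix hA hr, th1_ix hA hr])
    have h2 := (chart_eq hA hr i i t 2 n n c (ch.M i n) hc hM).1 h1
    exact ⟨h2.2.2.1, h2.2.2.2⟩
  · rintro ⟨rfl, rfl⟩
    exact hr.mrk i n hn

/-- The pointers of the window (`pt_st`, `st_uniq`, `ptr`, `pt_uniq`, `chart_inj`). -/
theorem chart_pt (hA : A.Ax c0) (hr : A.Real x₀ W C ch β) (i : Fin m.k) (t : Fin 3) (n c : ℕ)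
    (hn : n ≤ W) (hc : c ≤ C) (hP : (ch.P n).2 ≤ C) :
    A.Pt (A.V^[n] (A.nxt^[c] (β i t))) ↔
      (∃ z p, m.prog (ch.Q n) = Instr.test i z p) ∧ t = (ch.P n).1 ∧ c = (ch.P n).2 := by
  constructor
  · intro h
    obtain ⟨q, z, p, h1, h2⟩ := hA.pt_st _ h
    rw [th1_pi hA hr] at h1
    rw [th1_ix hA hr] at h2
    have h3 := hA.st_uniq _ _ _ h1 (hr.st n hn)
    rw [h3] at h2
    have h4 := hA.pt_uniq _ _ h (hr.ptr n hn i z p h2) (by rw [th1_pi hA hr, th1_pi hA hr])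
    have h5 := (chart_eq hA hr i i t (ch.P n).1 n n c (ch.P n).2 hc hP).1 h4
    exact ⟨⟨z, p, h2⟩, h5.2.2.1, h5.2.2.2⟩
  · rintro ⟨⟨z, p, h⟩, rfl, rfl⟩
    exact hr.ptr n hn i z p h

/-- The three special letters over a time of the window. -/
theorem chart_fstU (hA : A.Ax c0) (hr : A.Real x₀ W C ch β) (i : Fin m.k) (n : ℕ) :
    A.fstU i (A.S^[n] x₀) = Sum.inr (A.V^[n] (β i 0)) := by
  have h1 := fstU_eq hA (A.V^[n] (β i 0)) ((Fst_V_iter hA n _).2 (hr.fst i))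
  rw [ix_V_iter hA, pi_V_iter hA, hr.pi, hr.ix] at h1
  exact h1

theorem chart_mkU (hA : A.Ax c0) (hr : A.Real x₀ W C ch β) (i : Fin m.k) (n : ℕ) (hn : n ≤ W) :
    A.mkU i (A.S^[n] x₀) = Sum.inr (A.V^[n] (A.nxt^[ch.M i n] (β i 2))) := by
  have h1 := mkU_eq hA _ (hr.mrk i n hn)
  rw [th1_ix hA hr, th1_pi hA hr] at h1
  exact h1

theorem chart_ptU (hA : A.Ax c0) (hr : A.Real x₀ W C ch β) (n : ℕ) (hn : n ≤ W)
    (i : Fin m.k) (z p : Option (Fin m.nQ)) (h : m.prog (ch.Q n) = Instr.test i z p) :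
    A.ptU (A.S^[n] x₀) = Sum.inr (A.V^[n] (A.nxt^[(ch.P n).2] (β i (ch.P n).1))) := by
  have h1 := ptU_eq hA _ (hr.ptr n hn i z p h)
  rw [th1_pi hA hr] at h1
  exact h1

theorem chart_ptU_else (hA : A.Ax c0) (hr : A.Real x₀ W C ch β) (n : ℕ) (hn : n ≤ W)
    (h : ∀ i z p, m.prog (ch.Q n) ≠ Instr.test i z p) :
    A.ptU (A.S^[n] x₀) = Sum.inl (A.S^[n] x₀) := by
  refine ptU_else hA _ (fun q i z p hs => ?_)
  rw [hA.st_uniq _ _ _ hs (hr.st n hn)]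
  exact h i z p

end Pool.Agent.LIN.Tower
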