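import Pool.Agent.LIN.TH1

/-! # [LIN-TH2] block C: a new time: words -/

namespace Pool.Agent.LIN.Tower

variable {m : Mach} {A B : Tower m} {c0 : m.Config} {K k C r : ℕ}
  {l : List ((A.T ⊕ A.F) × (B.T ⊕ B.F))} {x₀ : A.T} {x₀' : B.T} {ch : Chart m}
  {β : Fin m.k → Fin 3 → A.F} {β' : Fin m.k → Fin 3 → B.F}

/-- Case `κ = 0` of `TPair`. -/
theorem TimePair.tp (hp : A.TimePair B K k C l x₀ x₀' ch β β') : A.TPair B 0 k x₀ x₀' := by
  refine ⟨?_, Or.inl ⟨rfl, hp.real.tm, hp.real'.tm⟩⟩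
  rw [Nat.zero_add]
  exact hp.rs

theorem th2_swap {κ : ℕ} (h : A.TPair B κ k x₀ x₀') : B.TPair A κ k x₀' x₀ := by
  refine ⟨h.rs.symm, ?_⟩
  rcases h.typ with ⟨h1, h2, h3⟩ | ⟨h1, h2, h3⟩
  · exact Or.inl ⟨h1, h3, h2⟩
  · exact Or.inr ⟨h1, h3, h2⟩

/-- The positions in the window: `j0 k = (k + 1) 2^(k+1)`. -/
theorem win_pos {n : ℕ} (hr : r < k) (h1 : j0 k ≤ n + (k - (r + 1)) * 2 ^ (k + 1))
    (h2 : n ≤ j0 k + (k - (r + 1)) * 2 ^ (k + 1)) :
    1 ≤ n ∧ n + 1 ≤ WW k ∧ j0 k ≤ (n - 1) + (k - r) * 2 ^ (k + 1) ∧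
      n + 1 ≤ j0 k + (k - r) * 2 ^ (k + 1) := by
  obtain ⟨e, rfl⟩ : ∃ e, k = r + 1 + e := ⟨k - (r + 1), by omega⟩
  have e1 : r + 1 + e - (r + 1) = e := by omega
  have e2 : r + 1 + e - r = e + 1 := by omega
  rw [e1] at h1 h2
  rw [e2]
  unfold j0 at h1 h2 ⊢
  unfold WW
  have hP : 1 ≤ 2 ^ (r + 1 + e + 1) := Nat.one_le_two_pow
  generalize 2 ^ (r + 1 + e + 1) = P at h1 h2 hP ⊢
  have f1 : (r + 1 + e + 1) * P = r * P + e * P + 2 * P := by ring
  have f2 : (2 * (r + 1 + e) + 1) * P = 2 * (r * P) + 2 * (e * P) + 3 * P := by ring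
  have f3 : (e + 1) * P = e * P + P := by ring
  rw [f1] at h1 h2 ⊢
  rw [f2, f3]
  generalize r * P = u at *
  generalize e * P = v at *
  omega

theorem th2_dn {n : ℕ} (hr : r < k) (h1 : j0 k ≤ n + (k - (r + 1)) * 2 ^ (k + 1))
    (h2 : n ≤ j0 k + (k - (r + 1)) * 2 ^ (k + 1)) :
    j0 k ≤ n + (k - r) * 2 ^ (k + 1) ∧ n ≤ j0 k + (k - r) * 2 ^ (k + 1) := by
  obtain ⟨h3, h4, h5, h6⟩ := win_pos hr h1 h2
  omega

/-- The letters at an element of `T`. `s, s', p, l`: `NT_s, ...`; `n, n'`: identity; `h`: `Lc` with the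
word `p^a` at the pair `(o, o)` (`NT_h`, `h x₀ = o`). `f i, k i, t`: if `a >= 1` or the element is not
a time the identity (`act1_ntm`, `NT_ntm`), for `a = 0` the element is `S^j x₀` and the value is given
by `chart_fstU, chart_mkU, chart_ptU, chart_ptU_else` on both sides: it is in `NF r`, respectively
(no pointer) in `NT r`. -/
theorem time_stepT (hA : A.Ax c0) (hB : B.Ax c0) (hp : A.TimePair B K k C l x₀ x₀' ch β β')
    (hr : r < k) {y : A.T ⊕ A.F} {y' : B.T ⊕ B.F} (h : A.NT B x₀ x₀' 0 k (r + 1) y y')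
    (a : Letter m) :
    (A.NT B x₀ x₀' 0 k r (A.act1 a y) (B.act1 a y') ∨
      A.NF B β β' k C r (A.act1 a y) (B.act1 a y')) ∨
      A.Lc B k l r (A.act1 a y) (B.act1 a y') := by
  have hx := hp.tp
  cases a with
  | s => exact Or.inl (Or.inl (NT_s hr h))
  | s' => exact Or.inl (Or.inl (NT_s' hA hB hr h))
  | p => exact Or.inl (Or.inl (NT_p hA hB hx hr h))
  | l => exact Or.inl (Or.inl (NT_l hA hB hx hr h))
  | h =>
    right
    obtain ⟨a, ha, e1, e2⟩ := NT_h hA hB h
    refine ⟨_, hp.memo, List.replicate a Letter.p, ?_, ?_, ?_⟩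
    · rw [List.length_replicate]
      omega
    · have h3 : A.h x₀ = A.o := hp.real.tm
      rw [e1, act_replicate, act1_p_inl, h3]
    · have h3 : B.h x₀' = B.o := hp.real'.tm
      rw [e2, act_replicate, act1_p_inl, h3]
  | n =>
    obtain ⟨a, j, h1, h2, h3, h4, rfl, rfl⟩ := id h
    exact Or.inl (Or.inl (NT_mono hr h))
  | n' =>
    obtain ⟨a, j, h1, h2, h3, h4, rfl, rfl⟩ := id h
    exact Or.inl (Or.inl (NT_mono hr h))
  | t =>
    left
    obtain ⟨a, j, h1, h2, h3, h4, rfl, rfl⟩ := id h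
    by_cases ha : 1 ≤ a
    · left
      have e1 : A.act1 Letter.t (Sum.inl (A.S^[j] (A.p^[a] x₀))) =
          Sum.inl (A.S^[j] (A.p^[a] x₀)) := by
        show A.ptU _ = _
        refine ptU_else hA _ fun q i z p hs => ?_
        exact absurd (hA.st_tm _ _ hs).1 (NT_ntm hA hx a j (Or.inl ha))
      have e2 : B.act1 Letter.t (Sum.inl (B.S^[j] (B.p^[a] x₀'))) =
          Sum.inl (B.S^[j] (B.p^[a] x₀')) := by
        show B.ptU _ = _
        refine ptU_else hB _ fun q i z p hs => ?_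
        exact absurd (hB.st_tm _ _ hs).1 (NT_ntm hB (th2_swap hx) a j (Or.inl ha))
      rw [e1, e2]
      exact NT_mono hr h
    · obtain rfl : a = 0 := by omega
      rw [Nat.pow_zero, Nat.mul_one, Nat.mul_one, Nat.zero_add] at h3 h4
      obtain ⟨g1, g2, g3, g4⟩ := win_pos hr h3 h4
      obtain ⟨g5, g6⟩ := th2_dn hr h3 h4
      by_cases hq : ∃ i z p, m.prog (ch.Q j) = Instr.test i z p
      · right
        obtain ⟨i, z, p, hq⟩ := hq
        refine ⟨j, i, (ch.P j).1, (ch.P j).2, g5, g6, ?_, ?_, ?_, ?_⟩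
        · rcases hp.ok.P1 j (by omega) with h7 | h7
          · exact Or.inl h7
          · exact Or.inr (by omega)
        · have := hp.ok.P2 j (by omega)
          omega
        · exact chart_ptU hA hp.real j (by omega) i z p hq
        · exact chart_ptU hB hp.real' j (by omega) i z p hq
      · left
        have hq' : ∀ i z p, m.prog (ch.Q j) ≠ Instr.test i z p := fun i z p h8 => hq ⟨i, z, p, h8⟩
        have e1 : A.act1 Letter.t (Sum.inl (A.S^[j] (A.p^[0] x₀))) =
            Sum.inl (A.S^[j] (A.p^[0] x₀)) := chart_ptU_else hA hp.real j (by omega) hq'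
        have e2 : B.act1 Letter.t (Sum.inl (B.S^[j] (B.p^[0] x₀'))) =
            Sum.inl (B.S^[j] (B.p^[0] x₀')) := chart_ptU_else hB hp.real' j (by omega) hq'
        rw [e1, e2]
        exact NT_mono hr h
  | f i =>
    left
    obtain ⟨a, j, h1, h2, h3, h4, rfl, rfl⟩ := id h
    by_cases ha : 1 ≤ a
    · left
      rw [(act1_ntm hA _ (NT_ntm hA hx a j (Or.inl ha)) i).2.2.2.1,
        (act1_ntm hB _ (NT_ntm hB (th2_swap hx) a j (Or.inl ha)) i).2.2.2.1]
      exact NT_mono hr h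
    · obtain rfl : a = 0 := by omega
      rw [Nat.pow_zero, Nat.mul_one, Nat.mul_one, Nat.zero_add] at h3 h4
      obtain ⟨g1, g2, g3, g4⟩ := win_pos hr h3 h4
      obtain ⟨g5, g6⟩ := th2_dn hr h3 h4
      right
      have := hp.ok.kC
      exact ⟨j, i, 0, 0, g5, g6, Or.inl rfl, by omega, chart_fstU hA hp.real i j,
        chart_fstU hB hp.real' i j⟩
  | k i =>
    left
    obtain ⟨a, j, h1, h2, h3, h4, rfl, rfl⟩ := id h
    by_cases ha : 1 ≤ a
    · left
      rw [(act1_ntm hA _ (NT_ntm hA hx a j (Or.inl ha)) i).2.2.2.2,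
        (act1_ntm hB _ (NT_ntm hB (th2_swap hx) a j (Or.inl ha)) i).2.2.2.2]
      exact NT_mono hr h
    · obtain rfl : a = 0 := by omega
      rw [Nat.pow_zero, Nat.mul_one, Nat.mul_one, Nat.zero_add] at h3 h4
      obtain ⟨g1, g2, g3, g4⟩ := win_pos hr h3 h4
      obtain ⟨g5, g6⟩ := th2_dn hr h3 h4
      right
      have o1 := hp.ok.M1 i j (by omega)
      have o2 := hp.ok.M2 i j (by omega)
      exact ⟨j, i, 2, ch.M i j, g5, g6, Or.inr (by omega), by omega,
        chart_mkU hA hp.real i j (by omega), chart_mkU hB hp.real' i j (by omega)⟩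

theorem th2_NF_mono (hr : r < k) {y : A.T ⊕ A.F} {y' : B.T ⊕ B.F}
    (h : A.NF B β β' k C (r + 1) y y') : A.NF B β β' k C r y y' := by
  obtain ⟨n, i, t, c, h1, h2, h3, h4, h5, h6⟩ := h
  obtain ⟨g5, g6⟩ := th2_dn hr h1 h2
  refine ⟨n, i, t, c, g5, g6, ?_, by omega, h5, h6⟩
  rcases h3 with h3 | h3
  · exact Or.inl h3
  · exact Or.inr (by omega)

/-- The letters at an element of `F`. `s`: `n + 1`; `s'`: `n - 1` (`vPre_V`, `1 <= n`); `n`: `c + 1`;
`n'`: `c - 1`, or for `c = 0` (then `t = 0`) the identity (`prv_fst`, `Fst_V_iter`); `h`: the time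
`S^n x₀`, in `NT r` with `a = 0`; the others: identity. -/
theorem time_stepF (hA : A.Ax c0) (hB : B.Ax c0) (hp : A.TimePair B K k C l x₀ x₀' ch β β')
    (hr : r < k) {y : A.T ⊕ A.F} {y' : B.T ⊕ B.F} (h : A.NF B β β' k C (r + 1) y y')
    (a : Letter m) :
    A.NT B x₀ x₀' 0 k r (A.act1 a y) (B.act1 a y') ∨
      A.NF B β β' k C r (A.act1 a y) (B.act1 a y') := by
  obtain ⟨n, i, t, c, h1, h2, h3, h4, rfl, rfl⟩ := id h
  obtain ⟨g1, g2, g3, g4⟩ := win_pos hr h1 h2
  obtain ⟨g5, g6⟩ := th2_dn hr h1 h2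
  have h3' : t = 0 ∨ r ≤ c := by
    rcases h3 with h3 | h3
    · exact Or.inl h3
    · exact Or.inr (by omega)
  cases a with
  | s =>
    right
    refine ⟨n + 1, i, t, c, by omega, g4, h3', by omega, ?_, ?_⟩
    · rw [Function.iterate_succ_apply']
      rfl
    · rw [Function.iterate_succ_apply']
      rfl
  | s' =>
    right
    obtain ⟨n', rfl⟩ : ∃ n', n = n' + 1 := ⟨n - 1, by omega⟩
    refine ⟨n', i, t, c, by omega, by omega, h3', by omega, ?_, ?_⟩
    · rw [Function.iterate_succ_apply']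
      show Sum.inr (A.vPre (A.V _)) = _
      rw [vPre_V hA]
    · rw [Function.iterate_succ_apply']
      show Sum.inr (B.vPre (B.V _)) = _
      rw [vPre_V hB]
  | p => exact Or.inr (th2_NF_mono hr h)
  | l => exact Or.inr (th2_NF_mono hr h)
  | h =>
    left
    refine ⟨0, n, by omega, Or.inr rfl, ?_, ?_, ?_, ?_⟩
    · rw [Nat.pow_zero, Nat.mul_one, Nat.mul_one, Nat.zero_add]
      exact g5
    · rw [Nat.pow_zero, Nat.mul_one, Nat.mul_one, Nat.zero_add]
      exact g6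
    · show Sum.inl (A.pi _) = _
      rw [pi_V_iter hA, pi_nxt_iter hA, hp.real.pi]
      rfl
    · show Sum.inl (B.pi _) = _
      rw [pi_V_iter hB, pi_nxt_iter hB, hp.real'.pi]
      rfl
  | n =>
    right
    refine ⟨n, i, t, c + 1, g5, g6, ?_, by omega, ?_, ?_⟩
    · rcases h3' with h | h
      · exact Or.inl h
      · exact Or.inr (by omega)
    · show Sum.inr (A.nxt _) = _
      rw [V_nxt_iter hA, V_nxt_iter hA, Function.iterate_succ_apply']
    · show Sum.inr (B.nxt _) = _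
      rw [V_nxt_iter hB, V_nxt_iter hB, Function.iterate_succ_apply']
  | n' =>
    right
    cases c with
    | zero =>
      have ht : t = 0 := by
        rcases h3 with h | h
        · exact h
        · omega
      subst ht
      have e1 : A.act1 Letter.n' (Sum.inr (A.V^[n] (A.nxt^[0] (β i 0)))) =
          Sum.inr (A.V^[n] (A.nxt^[0] (β i 0))) := by
        show Sum.inr (A.prv _) = _
        rw [prv_fst]
        exact (Fst_V_iter hA n _).2 (hp.real.fst i)
      have e2 : B.act1 Letter.n' (Sum.inr (B.V^[n] (B.nxt^[0] (β' i 0)))) =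
          Sum.inr (B.V^[n] (B.nxt^[0] (β' i 0))) := by
        show Sum.inr (B.prv _) = _
        rw [prv_fst]
        exact (Fst_V_iter hB n _).2 (hp.real'.fst i)
      rw [e1, e2]
      exact th2_NF_mono hr h
    | succ c =>
      refine ⟨n, i, t, c, g5, g6, ?_, by omega, ?_, ?_⟩
      · rcases h3 with h | h
        · exact Or.inl h
        · exact Or.inr (by omega)
      · show Sum.inr (A.prv _) = _
        rw [V_nxt_iter hA, V_nxt_iter hA, Function.iterate_succ_apply', prv_nxt hA]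
      · show Sum.inr (B.prv _) = _
        rw [V_nxt_iter hB, V_nxt_iter hB, Function.iterate_succ_apply', prv_nxt hB]
  | t => exact Or.inr (th2_NF_mono hr h)
  | f i => exact Or.inr (th2_NF_mono hr h)
  | k i => exact Or.inr (th2_NF_mono hr h)

theorem NF_mono (hr : r < k) {y : A.T ⊕ A.F} {y' : B.T ⊕ B.F}
    (h : A.NF B β β' k C (r + 1) y y') : A.NF B β β' k C r y y' :=
  th2_NF_mono hr h

/-- Back to `x₀` from an element of `F`: the word `s'^n h`. -/
theorem NF_rev (hA : A.Ax c0) (hB : B.Ax c0) (hp : A.TimePair B K k C l x₀ x₀' ch β β')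
    {y : A.T ⊕ A.F} {y' : B.T ⊕ B.F} (h : A.NF B β β' k C 0 y y') :
    ∃ w : List (Letter m), w.length ≤ WW k + 1 ∧ A.act w y = Sum.inl x₀ ∧
      B.act w y' = Sum.inl x₀' := by
  obtain ⟨n, i, t, c, h1, h2, h3, h4, rfl, rfl⟩ := h
  refine ⟨Letter.h :: List.replicate n Letter.s', ?_, ?_, ?_⟩
  · rw [List.length_cons, List.length_replicate]
    have : j0 k + (k - 0) * 2 ^ (k + 1) = WW k := by
      unfold j0 WW
      rw [Nat.sub_zero]
      ring
    omega
  · show A.act1 Letter.h (A.act (List.replicate n Letter.s') _) = _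
    rw [act_replicate, act1_s'_inr, vPre_iter_V_iter hA]
    show Sum.inl (A.pi _) = _
    rw [pi_nxt_iter hA, hp.real.pi]
  · show B.act1 Letter.h (B.act (List.replicate n Letter.s') _) = _
    rw [act_replicate, act1_s'_inr, vPre_iter_V_iter hB]
    show Sum.inl (B.pi _) = _
    rw [pi_nxt_iter hB, hp.real'.pi]

end Pool.Agent.LIN.Tower
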