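import Pool.Agent.LIN.TH2

/-! # [LIN-TH3] block C: a new time: atomic statements -/

namespace Pool.Agent.LIN.Tower

variable {m : Mach} {A B : Tower m} {c0 : m.Config} {K k C : ℕ}
  {l : List ((A.T ⊕ A.F) × (B.T ⊕ B.F))} {x₀ : A.T} {x₀' : B.T} {ch : Chart m}
  {β : Fin m.k → Fin 3 → A.F} {β' : Fin m.k → Fin 3 → B.F}

theorem th3_le {n : ℕ} (h : n ≤ j0 k + (k - 0) * 2 ^ (k + 1)) : n ≤ WW k := by
  have : WW k = j0 k + (k - 0) * 2 ^ (k + 1) := by
    unfold WW j0
    rw [Nat.sub_zero]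
    ring
  omega

theorem th3_swap (h : A.TPair B 0 k x₀ x₀') : B.TPair A 0 k x₀' x₀ :=
  ⟨h.rs.symm, h.typ.imp (fun h => ⟨h.1, h.2.2, h.2.1⟩) (fun h => ⟨h.1, h.2.2, h.2.1⟩)⟩

theorem th3_back (hA : A.Ax c0) (n : ℕ) (z : A.T ⊕ A.F) (v : A.F)
    (hz : A.ltU (Sum.inr v) z ∨ A.ltU z (Sum.inr v)) (hv : A.pi v = A.S^[n] x₀) :
    A.act (List.replicate n Letter.s' ++ [Letter.h]) z = Sum.inl x₀ := by
  have hh : A.act [Letter.h] z = Sum.inl (A.S^[n] x₀) := by
    rcases z with z | z
    · rcases hz with hz | hz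
      · exact hz.elim
      · exact hz.elim
    · have hp : A.pi z = A.pi v := by
        rcases hz with hz | hz
        · exact ((hA.flt_row _ _ hz).1).symm
        · exact (hA.flt_row _ _ hz).1
      show Sum.inl (A.pi z) = _
      rw [hp, hv]
  rw [act_append, hh, act_replicate, act1_s'_inl, sPre_iter_S_iter hA]

theorem th3_piV (hA : A.Ax c0) {W : ℕ} (hr : A.Real x₀ W C ch β) (n c : ℕ) (i : Fin m.k) (t : Fin 3) :
    A.pi (A.V^[n] (A.nxt^[c] (β i t))) = A.S^[n] x₀ := by
  rw [pi_V_iter hA, pi_nxt_iter hA, hr.pi]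

/-- `T`: true; `L`: `NT_prL`; `E`: `NT_prE` (`WW k = Wd 0 k`); `q`: for `a >= 1` false, for `a = 0` the
state of `S^j x₀` is `ch.Q j` on both sides (`j <= WW k`); the others: false. -/
theorem time_prT (hA : A.Ax c0) (hB : B.Ax c0) (hp : A.TimePair B K k C l x₀ x₀' ch β β')
    {y : A.T ⊕ A.F} {y' : B.T ⊕ B.F} (h : A.NT B x₀ x₀' 0 k 0 y y') (c : PSym m) :
    A.Pr c y ↔ B.Pr c y' := by
  have h0 := h
  obtain ⟨a, j, ha, _, h1, h2, rfl, rfl⟩ := h
  cases c with
  | T => exact Iff.rfl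
  | L => exact NT_prL hA hB hp.tp h0
  | E =>
    refine NT_prE hA hB hp.tp ?_ h0
    intro n hn
    have hn' : n ≤ WW k := by
      have : Wd 0 k = WW k := by unfold Wd WW; rw [Nat.zero_add]
      omega
    rw [hp.real.ev n hn', hp.real'.ev n hn']
  | M => exact Iff.rfl
  | P => exact Iff.rfl
  | i i => exact Iff.rfl
  | q q =>
    show A.st (A.S^[j] (A.p^[a] x₀)) q ↔ B.st (B.S^[j] (B.p^[a] x₀')) q
    rcases Nat.eq_zero_or_pos a with ha0 | ha1
    · subst ha0
      have hj : j ≤ WW k := by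
        apply th3_le
        simpa using h2
      show A.st (A.S^[j] x₀) q ↔ B.st (B.S^[j] x₀') q
      have e1 := hp.real.st j hj
      have e2 := hp.real'.st j hj
      constructor
      · intro h3
        rw [hA.st_uniq _ _ _ h3 e1]
        exact e2
      · intro h3
        rw [hB.st_uniq _ _ _ h3 e2]
        exact e1
    · have n1 := NT_ntm hA hp.tp a j (Or.inl ha1)
      have n2 := NT_ntm hB (th3_swap hp.tp) a j (Or.inl ha1)
      constructor
      · intro h3
        exact absurd (hA.st_tm _ _ h3).1 n1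
      · intro h3
        exact absurd (hB.st_tm _ _ h3).1 n2

/-- `i`: the index; `M`: `chart_mk`; `P`: `chart_pt`; the others: false. -/
theorem time_prF (hA : A.Ax c0) (hB : B.Ax c0) (hp : A.TimePair B K k C l x₀ x₀' ch β β')
    {y : A.T ⊕ A.F} {y' : B.T ⊕ B.F} (h : A.NF B β β' k C 0 y y') (c : PSym m) :
    A.Pr c y ↔ B.Pr c y' := by
  obtain ⟨n, i, t, cc, h1, h2, _, hc, rfl, rfl⟩ := h
  have hn : n ≤ WW k := th3_le h2
  have hc' : cc ≤ C := by omega
  cases c with
  | T => exact Iff.rfl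
  | L => exact Iff.rfl
  | E => exact Iff.rfl
  | q q => exact Iff.rfl
  | i i' =>
    show A.ix (A.V^[n] (A.nxt^[cc] (β i t))) = i' ↔ B.ix (B.V^[n] (B.nxt^[cc] (β' i t))) = i'
    rw [ix_V_iter hA, ix_V_iter hB, ix_nxt_iter hA, ix_nxt_iter hB, hp.real.ix, hp.real'.ix]
  | M =>
    have hM : ch.M i n ≤ C := by
      have := hp.ok.M2 i n hn
      omega
    exact (chart_mk hA hp.real i t n cc hn hc' hM).trans
      (chart_mk hB hp.real' i t n cc hn hc' hM).symm
  | P =>
    have hP : (ch.P n).2 ≤ C := by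
      have := hp.ok.P2 n hn
      omega
    exact (chart_pt hA hp.real i t n cc hn hc' hP).trans
      (chart_pt hB hp.real' i t n cc hn hc' hP).symm

/-- Two elements of `T`: `NT_eq`; two of `F`: `chart_eq`; mixed: different sorts. -/
theorem time_eq (hA : A.Ax c0) (hB : B.Ax c0) (hp : A.TimePair B K k C l x₀ x₀' ch β β')
    {y z : A.T ⊕ A.F} {y' z' : B.T ⊕ B.F}
    (h : A.NT B x₀ x₀' 0 k 0 y y' ∨ A.NF B β β' k C 0 y y')
    (h' : A.NT B x₀ x₀' 0 k 0 z z' ∨ A.NF B β β' k C 0 z z') : y = z ↔ y' = z' := by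
  rcases h with h | h
  · rcases h' with h' | h'
    · exact NT_eq hA hB h h'
    · obtain ⟨a, j, _, _, _, _, rfl, rfl⟩ := h
      obtain ⟨n, i, t, cc, _, _, _, _, rfl, rfl⟩ := h'
      exact ⟨fun h => (nomatch h), fun h => (nomatch h)⟩
  · rcases h' with h' | h'
    · obtain ⟨a, j, _, _, _, _, rfl, rfl⟩ := h'
      obtain ⟨n, i, t, cc, _, _, _, _, rfl, rfl⟩ := h
      exact ⟨fun h => (nomatch h), fun h => (nomatch h)⟩
    · obtain ⟨n, i, t, cc, _, _, _, hc, rfl, rfl⟩ := h
      obtain ⟨n', i', t', cc', _, _, _, hc', rfl, rfl⟩ := h'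
      rw [Sum.inr_injective.eq_iff, Sum.inr_injective.eq_iff,
        chart_eq hA hp.real i i' t t' n n' cc cc' (by omega) (by omega),
        chart_eq hB hp.real' i i' t t' n n' cc cc' (by omega) (by omega)]

/-- With an element of `T`: false on both sides (`NT_nlt`, `NT_nlt'`); two of `F`: `chart_lt`. -/
theorem time_lt (hA : A.Ax c0) (hB : B.Ax c0) (hp : A.TimePair B K k C l x₀ x₀' ch β β')
    {y z : A.T ⊕ A.F} {y' z' : B.T ⊕ B.F}
    (h : A.NT B x₀ x₀' 0 k 0 y y' ∨ A.NF B β β' k C 0 y y')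
    (h' : A.NT B x₀ x₀' 0 k 0 z z' ∨ A.NF B β β' k C 0 z z') : A.ltU y z ↔ B.ltU y' z' := by
  rcases h with h | h
  · have e1 := (NT_nlt hA h z).1
    have e2 := (NT_nlt' hB h z').1
    exact ⟨fun h => absurd h e1, fun h => absurd h e2⟩
  · rcases h' with h' | h'
    · have e1 := (NT_nlt hA h' y).2
      have e2 := (NT_nlt' hB h' y').2
      exact ⟨fun h => absurd h e1, fun h => absurd h e2⟩
    · obtain ⟨n, i, t, cc, _, _, _, hc, rfl, rfl⟩ := h
      obtain ⟨n', i', t', cc', _, _, _, hc', rfl, rfl⟩ := h'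
      exact (chart_lt hA hp.real i i' t t' n n' cc cc' (by omega) (by omega)).trans
        (chart_lt hB hp.real' i i' t t' n n' cc cc' (by omega) (by omega)).symm

/-- Old elements: never equal (`NT_rev`, `NF_rev`, `far`, `far'`). -/
theorem time_neL (hA : A.Ax c0) (hB : B.Ax c0) (hp : A.TimePair B K k C l x₀ x₀' ch β β')
    (hK : RN 0 k + WW k + 4 * k + 10 ≤ K) {y z : A.T ⊕ A.F} {y' z' : B.T ⊕ B.F}
    (h : A.NT B x₀ x₀' 0 k 0 y y' ∨ A.NF B β β' k C 0 y y')
    (h' : A.Lc B k l 0 z z') : y ≠ z ∧ y' ≠ z' := by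
  have hw : ∃ w : List (Letter m), w.length + k ≤ K ∧ A.act w y = Sum.inl x₀ ∧
      B.act w y' = Sum.inl x₀' := by
    rcases h with h | h
    · obtain ⟨w, h1, h2, h3⟩ := NT_rev hA hB hp.tp h
      exact ⟨w, by omega, h2, h3⟩
    · obtain ⟨w, h1, h2, h3⟩ := NF_rev hA hB hp h
      exact ⟨w, by omega, h2, h3⟩
  obtain ⟨w, hw1, hw2, hw3⟩ := hw
  obtain ⟨b, hb, w', hw', rfl, rfl⟩ := h'
  constructor
  · intro he
    refine hp.far b hb (w ++ w') (by rw [List.length_append]; omega) ?_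
    rw [act_append, ← he, hw2]
  · intro he
    refine hp.far' b hb (w ++ w') (by rw [List.length_append]; omega) ?_
    rw [act_append, ← he, hw3]

/-- Old elements: never comparable. For an element of `T`: `NT_nlt`. For an element `y` of `F` an
element comparable with it lies over the same time, so the word `h` gives the same value `S^n x₀`,
which would be near the old element (words of length `<= k + 1`). -/
theorem time_nltL (hA : A.Ax c0) (hB : B.Ax c0) (hp : A.TimePair B K k C l x₀ x₀' ch β β')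
    (hK : RN 0 k + WW k + 4 * k + 10 ≤ K) {y z : A.T ⊕ A.F} {y' z' : B.T ⊕ B.F}
    (h : A.NT B x₀ x₀' 0 k 0 y y' ∨ A.NF B β β' k C 0 y y')
    (h' : A.Lc B k l 0 z z') : ¬ A.ltU y z ∧ ¬ A.ltU z y ∧ ¬ B.ltU y' z' ∧ ¬ B.ltU z' y' := by
  rcases h with h | h
  · exact ⟨(NT_nlt hA h z).1, (NT_nlt hA h z).2, (NT_nlt' hB h z').1, (NT_nlt' hB h z').2⟩
  · obtain ⟨n, i, t, cc, _, h2, _, hc, rfl, rfl⟩ := h
    have hn : n ≤ WW k := th3_le h2
    obtain ⟨b, hb, w', hw', rfl, rfl⟩ := h'
    have e1 : ¬ (A.ltU (Sum.inr (A.V^[n] (A.nxt^[cc] (β i t)))) (A.act w' b.1) ∨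
        A.ltU (A.act w' b.1) (Sum.inr (A.V^[n] (A.nxt^[cc] (β i t))))) := by
      intro hz
      have := th3_back hA n (A.act w' b.1) _ hz (th3_piV hA hp.real n cc i t)
      rw [← act_append] at this
      refine hp.far b hb _ ?_ this
      simp only [List.length_append, List.length_replicate, List.length_cons, List.length_nil]
      omega
    have e2 : ¬ (B.ltU (Sum.inr (B.V^[n] (B.nxt^[cc] (β' i t)))) (B.act w' b.2) ∨
        B.ltU (B.act w' b.2) (Sum.inr (B.V^[n] (B.nxt^[cc] (β' i t))))) := by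
      intro hz
      have := th3_back hB n (B.act w' b.2) _ hz (th3_piV hB hp.real' n cc i t)
      rw [← act_append] at this
      refine hp.far' b hb _ ?_ this
      simp only [List.length_append, List.length_replicate, List.length_cons, List.length_nil]
      omega
    exact ⟨fun h => e1 (Or.inl h), fun h => e1 (Or.inr h), fun h => e2 (Or.inl h),
      fun h => e2 (Or.inr h)⟩

/-- `Loc_cons` with `NSys k k l (NT x₀ x₀' 0 k or NF β β' k C)`. -/
theorem time_core (hA : A.Ax c0) (hB : B.Ax c0) (hl : A.Loc B K l)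
    (hp : A.TimePair B K k C l x₀ x₀' ch β β') (hK : RN 0 k + WW k + 4 * k + 10 ≤ K) :
    A.Loc B k ((Sum.inl (A.S^[j0 k] x₀), Sum.inl (B.S^[j0 k] x₀')) :: l) := by
  have hkK : k ≤ K := by omega
  refine Loc_cons (K := k) (k := k)
    (C := fun r y y' => A.NT B x₀ x₀' 0 k r y y' ∨ A.NF B β β' k C r y y') (le_refl k)
    (hl.mono hkK) ?_ _ _ ?_
  · constructor
    · intro r hr y y' h a
      rcases h with h | h
      · exact time_stepT hA hB hp hr h a
      · exact Or.inl (time_stepF hA hB hp hr h a)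
    · intro r hr y y' h
      rcases h with h | h
      · exact Or.inl (NT_mono hr h)
      · exact Or.inr (NF_mono hr h)
    · intro y y' h c
      rcases h with h | h
      · exact time_prT hA hB hp h c
      · exact time_prF hA hB hp h c
    · intro y y' z z' h h'
      exact time_eq hA hB hp h h'
    · intro y y' z z' h h'
      exact time_lt hA hB hp h h'
    · intro y y' z z' h h'
      have := time_neL hA hB hp hK h h'
      exact ⟨fun h => absurd h this.1, fun h => absurd h this.2⟩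
    · intro y y' z z' h h'
      have := time_nltL hA hB hp hK h h'
      exact ⟨fun h => absurd h this.1, fun h => absurd h this.2.2.1⟩
    · intro y y' z z' h h'
      have := time_nltL hA hB hp hK h h'
      exact ⟨fun h => absurd h this.2.1, fun h => absurd h this.2.2.2⟩
  · left
    refine ⟨0, j0 k, by omega, Or.inr rfl, ?_, ?_, rfl, rfl⟩
    · simp
    · simp

end Pool.Agent.LIN.Tower
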