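import Pool.Agent.LIN.TH0

/-! # [LIN-TH4] block C: existence of charts, kind `a` -/

namespace Pool.Agent.LIN.Tower

variable {m : Mach} {A : Tower m} {c0 : m.Config} {x₀ : A.T} {k : ℕ}

/-- Going down `g` positions from an element `b` that is more than `n >= g` positions above the first
element (`exists_prv_iter`; compare with `fst_unique`, `flt_nxt_iter`, `flt_nxt_nxt`). -/
theorem go_down (hA : A.Ax c0) (a b : A.F) (n g : ℕ) (hg : g ≤ n) (ha : A.Fst a)
    (h : A.flt (A.nxt^[n] a) b) :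
    ∃ c, A.nxt^[g] c = b ∧ A.pi c = A.pi b ∧ A.ix c = A.ix b ∧
      ∀ j, j + g ≤ n → A.flt (A.nxt^[j] a) c := by
  have hrow := hA.flt_row _ _ h
  rw [pi_nxt_iter hA, ix_nxt_iter hA] at hrow
  rcases exists_prv_iter hA b g with ⟨c, hc⟩ | ⟨j, hj, a', ha', hab⟩
  · refine ⟨c, hc, ?_, ?_, ?_⟩
    · rw [← hc, pi_nxt_iter hA]
    · rw [← hc, ix_nxt_iter hA]
    · intro j hj
      rw [← flt_nxt_nxt hA _ _ g, hc, ← Function.iterate_add_apply]
      rcases Nat.lt_or_ge (g + j) n with h1 | h1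
      · exact hA.flt_trans _ _ _ ((flt_nxt_iter hA a (g + j) n).2 h1) h
      · have h2 : g + j = n := by omega
        rw [h2]
        exact h
  · exfalso
    have h1 : a' = a := by
      refine fst_unique hA a' a ha' ha ?_ ?_
      · rw [hrow.1, ← hab, pi_nxt_iter hA]
      · rw [hrow.2, ← hab, ix_nxt_iter hA]
    rw [← hab, h1, flt_nxt_iter hA] at h
    omega

theorem chA_OK (q : Fin m.nQ) : (chA m k q).OK k (WW k) (C1 k) := by
  refine ⟨?_, ?_, ?_, ?_, ?_⟩
  · unfold C1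
    omega
  · intro i n hn
    show k ≤ k + n
    omega
  · intro i n hn
    show k + n + k ≤ C1 k
    unfold C1
    omega
  · intro n hn
    right
    show k ≤ k + 2 * n
    omega
  · intro n hn
    show k + 2 * n + k ≤ C1 k
    unfold C1
    omega

theorem th4_mono (hA : A.Ax c0) {b c : A.F} {j n : ℕ} (hj : j ≤ n) (h : A.flt (A.nxt^[n] b) c) :
    A.flt (A.nxt^[j] b) c := by
  rcases Nat.lt_or_ge j n with h1 | h1
  · exact hA.flt_trans _ _ _ ((flt_nxt_iter hA b j n).2 h1) h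
  · have h2 : j = n := by omega
    rw [h2]
    exact h

theorem th4_row (hA : A.Ax c0) (q : Fin m.nQ) (h : A.HypA x₀ k q) (i : Fin m.k) :
    ∃ b0 b1 b2 : A.F, (A.pi b0 = x₀ ∧ A.pi b1 = x₀ ∧ A.pi b2 = x₀) ∧
      (A.ix b0 = i ∧ A.ix b1 = i ∧ A.ix b2 = i) ∧ A.Fst b0 ∧
      (∀ c ≤ C1 k, A.flt (A.nxt^[c] b0) b1) ∧ (∀ c ≤ C1 k, A.flt (A.nxt^[c] b1) b2) ∧
      A.Mk (A.nxt^[k] b2) ∧ ∀ z p, m.prog q = Instr.test i z p → A.Pt (A.nxt^[k] b1) := by
  obtain ⟨a, ha1, ha2, ha3⟩ := hA.row_first x₀ i h.tm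
  obtain ⟨M, hM1, hM2, hM3⟩ := hA.mk_ex x₀ i h.tm h.ne
  have hkM : k ≤ MF k := by
    unfold MF
    omega
  obtain ⟨b2, hb2, hp2, hi2, hd2⟩ := go_down hA a M (MF k) k hkM ha3
    (h.mf M a hM3 hM1 ha3 ha1 (by rw [ha2, hM2]))
  by_cases ht : ∃ z p, m.prog q = Instr.test i z p
  · obtain ⟨z, p, hzp⟩ := ht
    obtain ⟨P, hP1, hP2, hP3⟩ := hA.pt_ex x₀ q i z p h.st hzp
    obtain ⟨b1, hb1, hp1, hi1, hd1⟩ := go_down hA a P (C1 k + k) k (by omega) ha3
      (h.pf P a hP3 hP1 ha3 ha1 (by rw [ha2, hP2]))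
    have hpm := h.pm P M hP3 hM3 hP1 hM1 (by rw [hP2, hM2])
    refine ⟨a, b1, b2, ⟨ha1, hp1.trans hP1, hp2.trans hM1⟩, ⟨ha2, hi1.trans hP2, hi2.trans hM2⟩,
      ha3, ?_, ?_, ?_, ?_⟩
    · intro c hc
      exact hd1 c (by omega)
    · intro c hc
      rw [← flt_nxt_nxt hA _ _ k, hb2, ← Function.iterate_add_apply, Nat.add_comm,
        Function.iterate_add_apply, hb1]
      exact th4_mono hA hc hpm
    · rw [hb2]
      exact hM3
    · intro z' p' _
      rw [hb1]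
      exact hP3
  · refine ⟨a, A.nxt^[C1 k + 1] a, b2, ⟨ha1, ?_, hp2.trans hM1⟩, ⟨ha2, ?_, hi2.trans hM2⟩,
      ha3, ?_, ?_, ?_, ?_⟩
    · rw [pi_nxt_iter hA, ha1]
    · rw [ix_nxt_iter hA, ha2]
    · intro c hc
      exact (flt_nxt_iter hA a c (C1 k + 1)).2 (by omega)
    · intro c hc
      rw [← Function.iterate_add_apply]
      refine hd2 _ ?_
      unfold MF C2 ZP
      omega
    · rw [hb2]
      exact hM3
    · intro z p hzp
      exact absurd ⟨z, p, hzp⟩ ht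

/-- `β i 0` = first element, `β i 2` = `k` positions below the mark (`go_down`), `β i 1` = `k` positions
below the pointer if the state `q` tests the register `i`, otherwise `nxt^(C1 + 1) (β i 0)`.
`sep1, sep2` from `pf` (first `< k + c` positions `<` pointer), `pm` and `mf` (cancel `nxt^k` with
`flt_nxt_nxt`). States, marks, pointers by the quiet stretch `x₀ .. S^n x₀` (`stretch_st, stretch_mk,
stretch_pt`, `V_nxt_iter`). -/
theorem real_A (hA : A.Ax c0) (q : Fin m.nQ) (h : A.HypA x₀ k q) :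
    ∃ β, A.Real x₀ (WW k) (C1 k) (chA m k q) β := by
  choose b0 b1 b2 hpi hix hf hs1 hs2 hmk hpt using th4_row hA q h
  refine ⟨fun i => ![b0 i, b1 i, b2 i], ?_⟩
  refine ⟨h.tm, ?_, ?_, ?_, ?_, ?_, ?_, ?_, ?_, ?_⟩
  · intro i t
    fin_cases t
    · exact (hpi i).1
    · exact (hpi i).2.1
    · exact (hpi i).2.2
  · intro i t
    fin_cases t
    · exact (hix i).1
    · exact (hix i).2.1
    · exact (hix i).2.2
  · intro i
    exact hf i
  · intro i c hc
    exact hs1 i c hc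
  · intro i c hc
    exact hs2 i c hc
  · intro n hn
    exact stretch_st hA x₀ q h.st n fun j _ hj => h.ev j (hj.trans hn)
  · intro n hn
    exact ⟨fun h1 => h.ev n hn h1, fun h1 => h1.elim⟩
  · intro i n hn
    show A.Mk (A.V^[n] (A.nxt^[k + n] (b2 i)))
    rw [Nat.add_comm, Function.iterate_add_apply]
    refine stretch_mk hA _ (hmk i) n fun j _ hj => ?_
    rw [pi_nxt_iter hA, (hpi i).2.2]
    exact h.ev j (hj.trans hn)
  · intro n hn i z p hzp
    show A.Pt (A.V^[n] (A.nxt^[k + 2 * n] (b1 i)))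
    rw [Nat.add_comm, Function.iterate_add_apply]
    refine stretch_pt hA _ (hpt i z p hzp) n fun j _ hj => ?_
    rw [pi_nxt_iter hA, (hpi i).2.1]
    exact h.ev j (hj.trans hn)

end Pool.Agent.LIN.Tower
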