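import Pool.Agent.LIN.TH4

/-! # [LIN-TH4b] block C: existence of charts, kind `b` -/

namespace Pool.Agent.LIN.Tower

variable {m : Mach} {A : Tower m} {c0 : m.Config} {x₀ : A.T} {k : ℕ}

theorem chB_OK (q : Fin m.nQ) (j : ℕ) (hj : j ≤ ZP k) : (chB m k j q).OK k (WW k) (C2 k) := by
  refine ⟨?_, ?_, ?_, ?_, ?_⟩
  · unfold C2
    omega
  · intro i n _
    show k ≤ k + n
    omega
  · intro i n hn
    show k + n + k ≤ C2 k
    unfold C2
    omega
  · intro n _
    left
    rfl
  · intro n hn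
    show 2 * (j + n) + k ≤ C2 k
    unfold C2
    omega

/-- `β i 0` = first element, `β i 1 = nxt^(C2 + 1) (β i 0)`, `β i 2` = `k` positions below the mark. The
pointer over `d` (if any) is the first element (`pt_start`), so the pointer over `S^(j+n) d` is
`V^(j+n) nxt^(2(j+n))` of it (`stretch_pt`), and `V^j` of the first element over `d` is the first
element over `x₀` (`Fst_V_iter`, `fst_unique`). The state of `d` is `q` (`stretch_st_back`; `d` is a
time because `h d = h x₀`). -/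
theorem real_B (hA : A.Ax c0) (q : Fin m.nQ) (j : ℕ) (h : A.HypB x₀ k j q) :
    ∃ β, A.Real x₀ (WW k) (C2 k) (chB m k j q) β := by
  obtain ⟨d, hdo, hEd, hjd, hq⟩ := h.ex
  have hxo : x₀ ≠ A.o := (hA.st_tm _ _ h.st).2
  have hit : ∀ n, A.S^[n] x₀ = A.S^[n + j] d := by
    intro n
    rw [Function.iterate_add_apply, hjd]
  have hquiet : ∀ n ≤ WW k, ∀ n', 1 ≤ n' → n' ≤ n → ¬ A.Ev (A.S^[n'] x₀) := by
    intro n hn n' h1 h2
    rw [hit]
    exact hq _ (by omega) (by omega)
  have hfst : ∀ i : Fin m.k, ∃ a, A.pi a = x₀ ∧ A.ix a = i ∧ A.Fst a := fun i =>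
    hA.row_first x₀ i h.tm
  choose a ha1 ha2 ha3 using hfst
  have hmk : ∀ i : Fin m.k, ∃ b, A.pi b = x₀ ∧ A.ix b = i ∧ A.Mk b := fun i =>
    hA.mk_ex x₀ i h.tm hxo
  choose b hb1 hb2 hb3 using hmk
  have hkMF : k ≤ MF k := by unfold MF; omega
  have hdown : ∀ i : Fin m.k, ∃ c, A.nxt^[k] c = b i ∧ A.pi c = A.pi (b i) ∧ A.ix c = A.ix (b i) ∧
      ∀ j, j + k ≤ MF k → A.flt (A.nxt^[j] (a i)) c := fun i =>
    go_down hA (a i) (b i) (MF k) k hkMF (ha3 i)
      (h.mf (b i) (a i) (hb3 i) (hb1 i) (ha3 i) (ha1 i) (by rw [ha2, hb2]))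
  choose c hc1 hc2 hc3 hc4 using hdown
  refine ⟨fun i => ![a i, A.nxt^[C2 k + 1] (a i), c i], ?_⟩
  refine ⟨h.tm, ?_, ?_, ?_, ?_, ?_, ?_, ?_, ?_, ?_⟩
  · intro i t
    fin_cases t
    · exact ha1 i
    · show A.pi (A.nxt^[C2 k + 1] (a i)) = x₀
      rw [pi_nxt_iter hA]
      exact ha1 i
    · show A.pi (c i) = x₀
      rw [hc2, hb1]
  · intro i t
    fin_cases t
    · exact ha2 i
    · show A.ix (A.nxt^[C2 k + 1] (a i)) = i
      rw [ix_nxt_iter hA]
      exact ha2 i
    · show A.ix (c i) = i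
      rw [hc3, hb2]
  · intro i
    exact ha3 i
  · intro i n hn
    show A.flt (A.nxt^[n] (a i)) (A.nxt^[C2 k + 1] (a i))
    rw [flt_nxt_iter hA]
    omega
  · intro i n hn
    show A.flt (A.nxt^[n] (A.nxt^[C2 k + 1] (a i))) (c i)
    rw [← Function.iterate_add_apply]
    apply hc4
    unfold MF
    omega
  · intro n hn
    exact stretch_st hA x₀ q h.st n (hquiet n hn)
  · intro n hn
    show A.Ev (A.S^[n] x₀) ↔ j = 0 ∧ n = 0
    constructor
    · intro hE
      by_contra hcon
      rw [hit] at hE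
      exact hq _ (by omega) (by omega) hE
    · rintro ⟨hj0, hn0⟩
      subst hj0
      subst hn0
      show A.Ev x₀
      rw [← hjd]
      exact hEd
  · intro i n hn
    show A.Mk (A.V^[n] (A.nxt^[k + n] (c i)))
    rw [Nat.add_comm k n, Function.iterate_add_apply, hc1]
    apply stretch_mk hA (b i) (hb3 i) n
    rw [hb1]
    exact hquiet n hn
  · intro n hn i z p hprog
    show A.Pt (A.V^[n] (A.nxt^[2 * (j + n)] (a i)))
    have hprog' : m.prog q = Instr.test i z p := hprog
    have htd : A.Tm d := by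
      have h1 : A.h (A.S^[j] d) = A.h d := h_S_iter hA j d
      rw [hjd] at h1
      show A.h d = A.o
      rw [← h1]
      exact h.tm
    have hsd : A.st d q := by
      refine stretch_st_back hA d q htd hdo j ?_ ?_
      · rw [hjd]
        exact h.st
      · intro n' h1 h2
        exact hq n' h1 (by omega)
    obtain ⟨e, he1, he2, he3⟩ := hA.pt_ex d q i z p hsd hprog'
    have hefst : A.Fst e := hA.pt_start e he3 (by rw [he1]; exact hEd)
    have hpt := stretch_pt hA e he3 (j + n) (by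
      rw [he1]
      intro n' h1 h2
      exact hq n' h1 (by omega))
    have hVe : A.V^[j] e = a i := by
      apply fst_unique hA _ _ ((Fst_V_iter hA j e).2 hefst) (ha3 i)
      · rw [pi_V_iter hA, he1, hjd, ha1]
      · rw [ix_V_iter hA, he2, ha2]
    rw [show A.V^[j + n] = A.V^[n + j] by rw [Nat.add_comm], Function.iterate_add_apply,
      V_nxt_iter hA, hVe] at hpt
    exact hpt

end Pool.Agent.LIN.Tower
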