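import Pool.Agent.LIN.TH4

/-! # [LIN-TH5] block C: one event in the window -/

namespace Pool.Agent.LIN.Tower

variable {m : Mach} {A : Tower m} {c0 : m.Config} {x₀ : A.T} {k : ℕ}

open Classical in
/-- Congruence of `dl` with arbitrary decidability instances. -/
theorem th5_dl_congr (q : Fin m.nQ) (z z' : Prop) [Decidable z] [Decidable z'] (h : z ↔ z')
    (i : Fin m.k) : dl m q z i = dl m q z' i := by
  have hz : z = z' := propext h
  subst hz
  congr

theorem th5_ev_not {x₀ : A.T} {e n j : ℕ} (hev : ∀ j ≤ n, A.Ev (A.S^[j] x₀) ↔ j = e) (hj : j ≤ n)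
    (hne : j ≠ e) : ¬ A.Ev (A.S^[j] x₀) := fun h => hne ((hev j hj).1 h)

theorem th5_S_pred (x : A.T) (e : ℕ) (he : 1 ≤ e) : A.S (A.S^[e - 1] x) = A.S^[e] x := by
  obtain ⟨f, rfl⟩ : ∃ f, e = f + 1 := ⟨e - 1, by omega⟩
  rw [Nat.add_sub_cancel, Function.iterate_succ_apply']

theorem th5_V_pred (b : A.F) (e : ℕ) (he : 1 ≤ e) : A.V (A.V^[e - 1] b) = A.V^[e] b := by
  obtain ⟨f, rfl⟩ : ∃ f, e = f + 1 := ⟨e - 1, by omega⟩
  rw [Nat.add_sub_cancel, Function.iterate_succ_apply']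

/-- The mark (moved by `e - 1` steps) is next to the pointer (moved by `e - 1` steps) iff it was `e`
positions above it. -/
theorem th5_next_iff (hA : A.Ax c0) (b c : A.F) (e : ℕ) (he : 1 ≤ e) :
    A.V^[e - 1] (A.nxt^[e - 1] c) = A.nxt (A.V^[e - 1] (A.nxt^[2 * (e - 1)] b)) ↔
      c = A.nxt^[e] b := by
  have h1 : A.nxt (A.V^[e - 1] (A.nxt^[2 * (e - 1)] b)) =
      A.V^[e - 1] (A.nxt^[e - 1] (A.nxt^[e] b)) := by
    have h2 := V_nxt_iter hA (A.nxt^[2 * (e - 1)] b) (e - 1) 1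
    simp only [Function.iterate_one] at h2
    rw [← h2, ← Function.iterate_succ_apply' A.nxt, ← Function.iterate_add_apply]
    congr 2
    have : (2 * (e - 1)).succ = e - 1 + e := by omega
    rw [this]
  rw [h1, V_iter_cancel hA, nxt_iter_cancel hA]

open Classical in
theorem dl_congr (q : Fin m.nQ) (z z' : Prop) (h : z ↔ z') (i : Fin m.k) :
    dl m q z i = dl m q z' i := by
  exact th5_dl_congr q z z' h i

open Classical in
theorem dl_le (q : Fin m.nQ) (z : Prop) (i : Fin m.k) : dl m q z i ≤ 2 := by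
  unfold dl
  split
  · split_ifs <;> omega
  · split_ifs <;> omega
  · omega

open Classical in
/-- Marks from `x₀` to `S^n x₀` when the only event among `S^1 x₀ .. S^n x₀` is at `e` (`1 <= e <= n`):
quiet stretch up to `S^(e-1) x₀`, then the event step moves the marks by `dl`, then a quiet stretch.
`z` is the truth value used at the event. -/
theorem marks_over_event (hA : A.Ax c0) (q : Fin m.nQ) (z : Prop) (e n : ℕ) (he : 1 ≤ e)
    (hen : e ≤ n) (hev : ∀ j ≤ n, A.Ev (A.S^[j] x₀) ↔ j = e)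
    (hstep : ∀ b, A.pi b = A.S^[e - 1] x₀ → A.Mk b → A.Mk (A.nxt^[dl m q z (A.ix b)] (A.V b)))
    (b : A.F) (hb : A.Mk b) (hpi : A.pi b = x₀) :
    A.Mk (A.V^[n] (A.nxt^[n + dl m q z (A.ix b) - 1] b)) := by
  have h1 : A.Mk (A.V^[e - 1] (A.nxt^[e - 1] b)) := by
    refine stretch_mk hA b hb (e - 1) fun j hj1 hj2 => ?_
    rw [hpi]
    exact th5_ev_not hev (by omega) (by omega)
  have hpi1 : A.pi (A.V^[e - 1] (A.nxt^[e - 1] b)) = A.S^[e - 1] x₀ := by
    rw [pi_V_iter hA, pi_nxt_iter hA, hpi]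
  have hix1 : A.ix (A.V^[e - 1] (A.nxt^[e - 1] b)) = A.ix b := by
    rw [ix_V_iter hA, ix_nxt_iter hA]
  have h2 := hstep _ hpi1 h1
  rw [hix1, th5_V_pred _ e he] at h2
  have hpi2 : A.pi (A.nxt^[dl m q z (A.ix b)] (A.V^[e] (A.nxt^[e - 1] b))) = A.S^[e] x₀ := by
    rw [pi_nxt_iter hA, pi_V_iter hA, pi_nxt_iter hA, hpi]
  have h3 := stretch_mk hA _ h2 (n - e) fun j hj1 hj2 => by
    rw [hpi2, ← Function.iterate_add_apply]
    exact th5_ev_not hev (by omega) (by omega)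
  rw [← Function.iterate_add_apply A.nxt, ← V_nxt_iter hA, ← Function.iterate_add_apply A.nxt,
    ← Function.iterate_add_apply A.V] at h3
  have e1 : n - e + e = n := by omega
  have e2 : n - e + dl m q z (A.ix b) + (e - 1) = n + dl m q z (A.ix b) - 1 := by omega
  rw [e1, e2] at h3
  exact h3

open Classical in
/-- The event step in kind `c`: at `S^(e-1) x₀` the mark is not next to the pointer (they are more than
`C1 + 1 - (e - 1)` positions apart), so `z = False` (`event_other`, `event_test`, `dl_congr`). -/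
theorem step_C (hA : A.Ax c0) (q q' : Fin m.nQ) (e : ℕ) (h : A.HypC x₀ k e q q') :
    ∀ b, A.pi b = A.S^[e - 1] x₀ → A.Mk b → A.Mk (A.nxt^[dl m q False (A.ix b)] (A.V b)) := by
  intro b hpi hb
  have he1 := h.e1
  have he2 := h.e2
  have hq0 : ∀ j, 1 ≤ j → j ≤ e - 1 → ¬ A.Ev (A.S^[j] x₀) := fun j hj1 hj2 =>
    th5_ev_not h.ev (by omega) (by omega)
  have hs : A.st (A.S^[e - 1] x₀) q := stretch_st hA x₀ q h.st (e - 1) hq0
  have hev : A.Ev (A.S (A.S^[e - 1] x₀)) := by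
    rw [th5_S_pred x₀ e he1]
    exact (h.ev e he2).2 rfl
  by_cases hq : ∃ i z p, m.prog q = Instr.test i z p
  · obtain ⟨i, z, p, hq⟩ := hq
    obtain ⟨b0, hpb0, hib0, hb0⟩ := hA.pt_ex x₀ q i z p h.st hq
    obtain ⟨c1, hpc1, hic1, hc1⟩ := hA.mk_ex x₀ i h.tm h.ne
    have hfar := h.pm b0 c1 hb0 hc1 hpb0 hpc1 (by rw [hib0, hic1])
    have hP := stretch_pt hA b0 hb0 (e - 1) (by rw [hpb0]; exact hq0)
    have hM := stretch_mk hA c1 hc1 (e - 1) (by rw [hpc1]; exact hq0)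
    have h2 := (event_test hA (A.S^[e - 1] x₀) q i z p hs hev hq _ _ hP hM
      (by rw [pi_V_iter hA, pi_nxt_iter hA, hpb0]) (by rw [pi_V_iter hA, pi_nxt_iter hA, hpc1])
      (by rw [ix_V_iter hA, ix_nxt_iter hA, hic1])).2 b hpi hb
    rw [th5_dl_congr q _ False ?_ (A.ix b)] at h2
    · exact h2
    · rw [th5_next_iff hA b0 c1 e he1, iff_false]
      rintro rfl
      rw [flt_nxt_iter hA] at hfar
      unfold C1 at hfar
      omega
  · exact (event_other hA (A.S^[e - 1] x₀) q hs hev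
      (fun i z p hh => hq ⟨i, z, p, hh⟩) False).2 b hpi hb

open Classical in
/-- The event step in kind `d`: at `S^(e-1) x₀` the mark is `d + 1` positions above the pointer. -/
theorem step_D (hA : A.Ax c0) (q q' : Fin m.nQ) (e d : ℕ) (h : A.HypD x₀ k e d q q') :
    ∀ b, A.pi b = A.S^[e - 1] x₀ → A.Mk b → A.Mk (A.nxt^[dl m q (d = 0) (A.ix b)] (A.V b)) := by
  intro b hpi hb
  have he1 := h.e1
  have hed := h.ed
  have hq0 : ∀ j, 1 ≤ j → j ≤ e - 1 → ¬ A.Ev (A.S^[j] x₀) := fun j hj1 hj2 =>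
    th5_ev_not h.ev (by omega) (by omega)
  have hs : A.st (A.S^[e - 1] x₀) q := stretch_st hA x₀ q h.st (e - 1) hq0
  have hev : A.Ev (A.S (A.S^[e - 1] x₀)) := by
    rw [th5_S_pred x₀ e he1]
    exact (h.ev e (by omega)).2 rfl
  obtain ⟨b0, c1, i, z, p, hq, hb0, hc1, hpb0, hpc1, hib0, hic1, hbc⟩ := h.ex
  have hP := stretch_pt hA b0 hb0 (e - 1) (by rw [hpb0]; exact hq0)
  have hM := stretch_mk hA c1 hc1 (e - 1) (by rw [hpc1]; exact hq0)
  have h2 := (event_test hA (A.S^[e - 1] x₀) q i z p hs hev hq _ _ hP hM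
    (by rw [pi_V_iter hA, pi_nxt_iter hA, hpb0]) (by rw [pi_V_iter hA, pi_nxt_iter hA, hpc1])
    (by rw [ix_V_iter hA, ix_nxt_iter hA, hic1])).2 b hpi hb
  rw [th5_dl_congr q _ (d = 0) ?_ (A.ix b)] at h2
  · exact h2
  · rw [th5_next_iff hA b0 c1 e he1, ← hbc, nxt_iter_inj hA]
    omega

end Pool.Agent.LIN.Tower
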