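import Pool.Agent.LIN.TH5

/-! # [LIN-TH5c] block C: existence of charts, kind `c` -/

namespace Pool.Agent.LIN.Tower

variable {m : Mach} {A : Tower m} {c0 : m.Config} {x₀ : A.T} {k : ℕ}

/-- The numerical inequality used to compare the constants. -/
theorem c_MF_le (k : ℕ) : 2 * C1 k + k + 2 ≤ MF k := by
  unfold MF C2 C3 E3 C1
  omega

theorem c_dl_inst (q : Fin m.nQ) (z : Prop) (i : Fin m.k) (d1 d2 : Decidable z) :
    @dl m q z d1 i = @dl m q z d2 i := by
  rw [Subsingleton.elim d1 d2]

theorem chC_OK (q q' : Fin m.nQ) (e : ℕ) (he : 1 ≤ e) : (chC m k e q q').OK k (WW k) (C1 k) := by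
  classical
  refine ⟨?_, ?_, ?_, ?_, ?_⟩
  · unfold C1; omega
  · intro i n _
    change k ≤ if n < e then k + 1 + n else k + n + dl m q False i
    split_ifs <;> omega
  · intro i n hn
    have h2 := dl_le q False i
    rw [c_dl_inst q False i _ instDecidableFalse] at h2
    change (if n < e then k + 1 + n else k + n + @dl m q False instDecidableFalse i) + k ≤ C1 k
    unfold C1
    split_ifs <;> omega
  · intro n _
    change (if n < e then ((1 : Fin 3), k + 2 * n) else (0, 2 * (n - e))).1 = 0 ∨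
      k ≤ (if n < e then ((1 : Fin 3), k + 2 * n) else (0, 2 * (n - e))).2
    split_ifs
    · right; simp
    · left; rfl
  · intro n hn
    change (if n < e then ((1 : Fin 3), k + 2 * n) else (0, 2 * (n - e))).2 + k ≤ C1 k
    unfold C1
    split_ifs
    · simp only []
      omega
    · simp only []
      omega

theorem c_base (hA : A.Ax c0) (q q' : Fin m.nQ) (e : ℕ) (h : A.HypC x₀ k e q q') (i : Fin m.k) :
    ∃ a b d : A.F, (A.pi a = x₀ ∧ A.ix a = i ∧ A.Fst a) ∧ (A.pi b = x₀ ∧ A.ix b = i) ∧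
      (A.pi d = x₀ ∧ A.ix d = i) ∧ (∀ c ≤ C1 k, A.flt (A.nxt^[c] a) b) ∧
      (∀ c ≤ C1 k, A.flt (A.nxt^[c] b) d) ∧ A.Mk (A.nxt^[k + 1] d) ∧
      (∀ z p, m.prog q = Instr.test i z p → A.Pt (A.nxt^[k] b)) := by
  have hMF := c_MF_le k
  obtain ⟨a, ha1, ha2, ha3⟩ := hA.row_first x₀ i h.tm
  obtain ⟨c, hc1, hc2, hc3⟩ := hA.mk_ex x₀ i h.tm h.ne
  have hf : A.flt (A.nxt^[MF k] a) c := h.mf c a hc3 hc1 ha3 ha1 (ha2.trans hc2.symm)
  obtain ⟨d, hd1, hd2, hd3, hd4⟩ := go_down hA a c (MF k) (k + 1) (by omega) ha3 hf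
  by_cases hq : ∃ z p, m.prog q = Instr.test i z p
  · obtain ⟨z, p, hq⟩ := hq
    obtain ⟨b, hb1, hb2, hb3⟩ := hA.pt_ex x₀ q i z p h.st hq
    have hbf : A.flt (A.nxt^[C1 k + k] a) b := h.pf b a hb3 hb1 ha3 ha1 (ha2.trans hb2.symm)
    obtain ⟨b', hb1', hb2', hb3', hb4'⟩ := go_down hA a b (C1 k + k) k (by omega) ha3 hbf
    have hbm : A.flt (A.nxt^[C1 k + 1] b) c :=
      h.pm b c hb3 hc3 hb1 hc1 (hb2.trans hc2.symm)
    refine ⟨a, b', d, ⟨ha1, ha2, ha3⟩, ⟨hb2'.trans hb1, hb3'.trans hb2⟩,
      ⟨hd2.trans hc1, hd3.trans hc2⟩, fun j hj => hb4' j (by omega), fun j hj => ?_, ?_,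
      fun _ _ _ => ?_⟩
    · rw [← hb1', ← hd1, ← Function.iterate_add_apply,
        show C1 k + 1 + k = (k + 1) + C1 k by omega, Function.iterate_add_apply,
        flt_nxt_nxt hA] at hbm
      rcases Nat.lt_or_eq_of_le hj with hj | hj
      · exact hA.flt_trans _ _ _ ((flt_nxt_iter hA b' j (C1 k)).2 hj) hbm
      · rw [hj]; exact hbm
    · rw [hd1]; exact hc3
    · rw [hb1']; exact hb3
  · refine ⟨a, A.nxt^[C1 k + 1] a, d, ⟨ha1, ha2, ha3⟩,
      ⟨(pi_nxt_iter hA _ a).trans ha1, (ix_nxt_iter hA _ a).trans ha2⟩,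
      ⟨hd2.trans hc1, hd3.trans hc2⟩, fun j hj => ?_, fun j hj => ?_, ?_, ?_⟩
    · exact (flt_nxt_iter hA a j (C1 k + 1)).2 (by omega)
    · rw [← Function.iterate_add_apply]
      exact hd4 _ (by omega)
    · rw [hd1]; exact hc3
    · exact fun z p hp => absurd ⟨z, p, hp⟩ hq

/-- As `real_A`, with `β i 2` = `k + 1` positions below the mark. For `n >= e`: state by `st'` and
`stretch_st`, marks by `marks_over_event`, pointers: over `S^e x₀` the first element (`pt_start`),
then `stretch_pt`. -/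
theorem real_C (hA : A.Ax c0) (q q' : Fin m.nQ) (e : ℕ) (h : A.HypC x₀ k e q q') :
    ∃ β, A.Real x₀ (WW k) (C1 k) (chC m k e q q') β := by
  classical
  choose a b d ha hb hd hab hbd hmk hpt using c_base hA q q' e h
  have he1 := h.e1
  have he2 := h.e2
  refine ⟨fun i t => (![a i, b i, d i] : Fin 3 → A.F) t, h.tm, ?_, ?_, fun i => (ha i).2.2,
    fun i c hc => hab i c hc, fun i c hc => hbd i c hc, ?_, fun n hn => h.ev n hn, ?_, ?_⟩
  · intro i t
    fin_cases t
    · exact (ha i).1
    · exact (hb i).1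
    · exact (hd i).1
  · intro i t
    fin_cases t
    · exact (ha i).2.1
    · exact (hb i).2
    · exact (hd i).2
  · intro n hn
    change A.st (A.S^[n] x₀) (if n < e then q else q')
    split_ifs with hne
    · exact stretch_st hA x₀ q h.st n (fun j _ hj2 hev => by
        have := (h.ev j (by omega)).1 hev
        omega)
    · have h1 : A.S^[n] x₀ = A.S^[n - e] (A.S^[e] x₀) := by
        rw [← Function.iterate_add_apply]
        congr 1
        rw [Nat.sub_add_cancel (by omega)]
      rw [h1]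
      refine stretch_st hA _ q' h.st' (n - e) (fun j hj1 hj2 hev => ?_)
      rw [← Function.iterate_add_apply] at hev
      have := (h.ev (j + e) (by omega)).1 hev
      omega
  · intro i n hn
    change A.Mk (A.V^[n] (A.nxt^[if n < e then k + 1 + n else
      k + n + @dl m q False instDecidableFalse i] (d i)))
    have hpd : A.pi (A.nxt^[k + 1] (d i)) = x₀ := (pi_nxt_iter hA _ _).trans (hd i).1
    have hid : A.ix (A.nxt^[k + 1] (d i)) = i := (ix_nxt_iter hA _ _).trans (hd i).2
    split_ifs with hne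
    · rw [show k + 1 + n = n + (k + 1) by omega, Function.iterate_add_apply]
      refine stretch_mk hA _ (hmk i) n (fun j hj1 hj2 hev => ?_)
      rw [hpd] at hev
      have := (h.ev j (by omega)).1 hev
      omega
    · have h1 := marks_over_event hA q False e n he1 (by omega)
        (fun j hj => h.ev j (by omega)) (fun b hb hm => by
          have h2 := step_C hA q q' e h b hb hm
          rw [c_dl_inst q False (A.ix b) _ instDecidableFalse]
          exact h2) (A.nxt^[k + 1] (d i)) (hmk i) hpd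
      rw [hid, ← Function.iterate_add_apply, c_dl_inst q False i _ instDecidableFalse,
        show n + @dl m q False instDecidableFalse i - 1 + (k + 1) =
          k + n + @dl m q False instDecidableFalse i by omega] at h1
      exact h1
  · intro n hn i z p hp
    change A.Pt (A.V^[n] (A.nxt^[(if n < e then ((1 : Fin 3), k + 2 * n) else (0, 2 * (n - e))).2]
      ((![a i, b i, d i] : Fin 3 → A.F)
        (if n < e then ((1 : Fin 3), k + 2 * n) else (0, 2 * (n - e))).1)))
    change m.prog (if n < e then q else q') = Instr.test i z p at hp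
    split_ifs at hp ⊢ with hne
    · change A.Pt (A.V^[n] (A.nxt^[k + 2 * n] (b i)))
      rw [Nat.add_comm k, Function.iterate_add_apply]
      refine stretch_pt hA _ (hpt i z p hp) n (fun j hj1 hj2 hev => ?_)
      rw [pi_nxt_iter hA, (hb i).1] at hev
      have := (h.ev j (by omega)).1 hev
      omega
    · change A.Pt (A.V^[n] (A.nxt^[2 * (n - e)] (a i)))
      obtain ⟨b', hb1, hb2, hb3⟩ := hA.pt_ex (A.S^[e] x₀) q' i z p h.st' hp
      have hev : A.Ev (A.pi b') := by
        rw [hb1]; exact (h.ev e he2).2 rfl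
      have hf := hA.pt_start b' hb3 hev
      have hbb : b' = A.V^[e] (a i) :=
        fst_unique hA _ _ hf ((Fst_V_iter hA e (a i)).2 (ha i).2.2)
          (by rw [hb1, pi_V_iter hA, (ha i).1]) (by rw [hb2, ix_V_iter hA, (ha i).2.1])
      have h1 := stretch_pt hA b' hb3 (n - e) (fun j hj1 hj2 hev' => by
        rw [hb1, ← Function.iterate_add_apply] at hev'
        have := (h.ev (j + e) (by omega)).1 hev'
        omega)
      rw [hbb, ← V_nxt_iter hA, ← Function.iterate_add_apply,
        Nat.sub_add_cancel (by omega : e ≤ n)] at h1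
      exact h1

end Pool.Agent.LIN.Tower
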