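import Pool.Agent.LIN.TH5

/-! # [LIN-TH5d] block C: existence of charts, kind `d` -/

namespace Pool.Agent.LIN.Tower

variable {m : Mach} {A : Tower m} {c0 : m.Config} {x₀ : A.T} {k : ℕ}

theorem d_dl_inst (q : Fin m.nQ) (z : Prop) (i : Fin m.k) (d1 d2 : Decidable z) :
    @dl m q z d1 i = @dl m q z d2 i := by
  rw [Subsingleton.elim d1 d2]

/-- The numerical inequality used to compare the constants. -/
theorem d_MF_le (k : ℕ) : 2 * C3 k + E3 k + 1 ≤ MF k := by
  unfold MF
  omega

theorem d_WW_le (k : ℕ) : WW k ≤ C1 k + 1 := by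
  unfold C1
  omega

theorem chD_OK (q q' : Fin m.nQ) (e d : ℕ) (he : 1 ≤ e) (hed : e + d ≤ C1 k + 1) :
    (chD m k e d q q').OK k (WW k) (C3 k) := by
  have hE : E3 k = C1 k + k + 5 := rfl
  have hC : C3 k = E3 k + 2 * WW k + 2 * k + 10 := rfl
  refine ⟨?_, ?_, ?_, ?_, ?_⟩
  · omega
  · intro i n _
    change k ≤ if n < e then E3 k + n else E3 k + n + @dl m q (d = 0) (Nat.decEq d 0) i - 1
    split_ifs <;> omega
  · intro i n hn
    have h2 := dl_le q (d = 0) i
    rw [d_dl_inst q (d = 0) i _ (Nat.decEq d 0)] at h2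
    change (if n < e then E3 k + n else
      E3 k + n + @dl m q (d = 0) (Nat.decEq d 0) i - 1) + k ≤ C3 k
    split_ifs <;> omega
  · intro n _
    change (if n < e then ((2 : Fin 3), E3 k + 2 * n - e - d) else (0, 2 * (n - e))).1 = 0 ∨
      k ≤ (if n < e then ((2 : Fin 3), E3 k + 2 * n - e - d) else (0, 2 * (n - e))).2
    split_ifs
    · right
      change k ≤ E3 k + 2 * n - e - d
      omega
    · left; rfl
  · intro n hn
    change (if n < e then ((2 : Fin 3), E3 k + 2 * n - e - d) else (0, 2 * (n - e))).2 + k ≤ C3 k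
    split_ifs
    · change E3 k + 2 * n - e - d + k ≤ C3 k
      omega
    · change 2 * (n - e) + k ≤ C3 k
      omega

theorem d_base (hA : A.Ax c0) (q q' : Fin m.nQ) (e d : ℕ) (h : A.HypD x₀ k e d q q')
    (i : Fin m.k) :
    ∃ a c : A.F, (A.pi a = x₀ ∧ A.ix a = i ∧ A.Fst a) ∧ (A.pi c = x₀ ∧ A.ix c = i) ∧
      (∀ j ≤ C3 k, A.flt (A.nxt^[j] (A.nxt^[C3 k + 1] a)) c) ∧ A.Mk (A.nxt^[E3 k] c) := by
  have hMF := d_MF_le k
  obtain ⟨a, ha1, ha2, ha3⟩ := hA.row_first x₀ i h.tm
  obtain ⟨c, hc1, hc2, hc3⟩ := hA.mk_ex x₀ i h.tm h.ne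
  have hf : A.flt (A.nxt^[MF k] a) c := h.mf c a hc3 hc1 ha3 ha1 (ha2.trans hc2.symm)
  obtain ⟨g, hg1, hg2, hg3, hg4⟩ := go_down hA a c (MF k) (E3 k) (by omega) ha3 hf
  refine ⟨a, g, ⟨ha1, ha2, ha3⟩, ⟨hg2.trans hc1, hg3.trans hc2⟩, fun j hj => ?_, ?_⟩
  · rw [← Function.iterate_add_apply]
    exact hg4 _ (by omega)
  · rw [hg1]; exact hc3

/-- `β i 0` = first element, `β i 1 = nxt^(C3 + 1) (β i 0)`, `β i 2` = `E3` positions below the mark; the
pointer over `x₀` is `nxt^(E3 - e - d) (β i 2)` for the tested register `i`. -/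
theorem real_D (hA : A.Ax c0) (q q' : Fin m.nQ) (e d : ℕ) (h : A.HypD x₀ k e d q q') :
    ∃ β, A.Real x₀ (WW k) (C3 k) (chD m k e d q q') β := by
  choose a g ha hg hsep hmk using d_base hA q q' e d h
  have he1 := h.e1
  have hed := h.ed
  have hW := d_WW_le k
  have hE : E3 k = C1 k + k + 5 := rfl
  have hpd : ∀ i, A.pi (A.nxt^[E3 k] (g i)) = x₀ := fun i =>
    (pi_nxt_iter hA _ _).trans (hg i).1
  have hid : ∀ i, A.ix (A.nxt^[E3 k] (g i)) = i := fun i =>
    (ix_nxt_iter hA _ _).trans (hg i).2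
  refine ⟨fun i t => (![a i, A.nxt^[C3 k + 1] (a i), g i] : Fin 3 → A.F) t, h.tm, ?_, ?_,
    fun i => (ha i).2.2, fun i c hc => (flt_nxt_iter hA (a i) c (C3 k + 1)).2 (by omega),
    fun i c hc => hsep i c hc, ?_, fun n hn => h.ev n (by omega), ?_, ?_⟩
  · intro i t
    fin_cases t
    · exact (ha i).1
    · exact (pi_nxt_iter hA _ _).trans (ha i).1
    · exact (hg i).1
  · intro i t
    fin_cases t
    · exact (ha i).2.1
    · exact (ix_nxt_iter hA _ _).trans (ha i).2.1
    · exact (hg i).2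
  · intro n hn
    change A.st (A.S^[n] x₀) (if n < e then q else q')
    split_ifs with hne
    · exact stretch_st hA x₀ q h.st n (fun j _ hj2 hev => by
        have := (h.ev j (by omega)).1 hev
        omega)
    · have h1 : A.S^[n] x₀ = A.S^[n - e] (A.S^[e] x₀) := by
        rw [← Function.iterate_add_apply]
        congr 1
        rw [Nat.sub_add_cancel (by omega)]
      rw [h1]
      refine stretch_st hA _ q' h.st' (n - e) (fun j hj1 hj2 hev => ?_)
      rw [← Function.iterate_add_apply] at hev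
      have := (h.ev (j + e) (by omega)).1 hev
      omega
  · intro i n hn
    change A.Mk (A.V^[n] (A.nxt^[if n < e then E3 k + n else
      E3 k + n + @dl m q (d = 0) (Nat.decEq d 0) i - 1] (g i)))
    split_ifs with hne
    · rw [Nat.add_comm (E3 k) n, Function.iterate_add_apply]
      refine stretch_mk hA _ (hmk i) n (fun j hj1 hj2 hev => ?_)
      rw [hpd] at hev
      have := (h.ev j (by omega)).1 hev
      omega
    · have h1 := marks_over_event hA q (d = 0) e n he1 (by omega)
        (fun j hj => h.ev j (by omega)) (fun b hb hm => by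
          have h2 := step_D hA q q' e d h b hb hm
          rw [d_dl_inst q (d = 0) (A.ix b) _ (Nat.decEq d 0)]
          exact h2) (A.nxt^[E3 k] (g i)) (hmk i) (hpd i)
      rw [hid, ← Function.iterate_add_apply, d_dl_inst q (d = 0) i _ (Nat.decEq d 0),
        show n + @dl m q (d = 0) (Nat.decEq d 0) i - 1 + E3 k =
          E3 k + n + @dl m q (d = 0) (Nat.decEq d 0) i - 1 by omega] at h1
      exact h1
  · intro n hn i z p hp
    change A.Pt (A.V^[n] (A.nxt^[(if n < e then ((2 : Fin 3), E3 k + 2 * n - e - d)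
        else (0, 2 * (n - e))).2]
      ((![a i, A.nxt^[C3 k + 1] (a i), g i] : Fin 3 → A.F)
        (if n < e then ((2 : Fin 3), E3 k + 2 * n - e - d) else (0, 2 * (n - e))).1)))
    change m.prog (if n < e then q else q') = Instr.test i z p at hp
    split_ifs at hp ⊢ with hne
    · change A.Pt (A.V^[n] (A.nxt^[E3 k + 2 * n - e - d] (g i)))
      obtain ⟨b, c, i', z', p', hq, hb, hc, hpb, hpc, hib, hic, hbc⟩ := h.ex
      rw [hq] at hp
      have hii : i' = i := by
        injection hp
      subst hii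
      have hcc : c = A.nxt^[E3 k] (g i') :=
        hA.mk_uniq _ _ hc (hmk i') (hpc.trans (hpd i').symm) (hic.trans (hid i').symm)
      have hbg : b = A.nxt^[E3 k - (e + d)] (g i') := by
        rw [← nxt_iter_cancel hA _ _ (e + d), hbc, hcc, ← Function.iterate_add_apply]
        congr 1
        rw [Nat.add_sub_cancel' (by omega)]
      have h1 := stretch_pt hA b hb n (fun j hj1 hj2 hev => by
        rw [hpb] at hev
        have := (h.ev j (by omega)).1 hev
        omega)
      rw [hbg, ← Function.iterate_add_apply,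
        show 2 * n + (E3 k - (e + d)) = E3 k + 2 * n - e - d by omega] at h1
      exact h1
    · change A.Pt (A.V^[n] (A.nxt^[2 * (n - e)] (a i)))
      obtain ⟨b', hb1, hb2, hb3⟩ := hA.pt_ex (A.S^[e] x₀) q' i z p h.st' hp
      have hev : A.Ev (A.pi b') := by
        rw [hb1]; exact (h.ev e (by omega)).2 rfl
      have hf := hA.pt_start b' hb3 hev
      have hbb : b' = A.V^[e] (a i) :=
        fst_unique hA _ _ hf ((Fst_V_iter hA e (a i)).2 (ha i).2.2)
          (by rw [hb1, pi_V_iter hA, (ha i).1]) (by rw [hb2, ix_V_iter hA, (ha i).2.1])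
      have h1 := stretch_pt hA b' hb3 (n - e) (fun j hj1 hj2 hev' => by
        rw [hb1, ← Function.iterate_add_apply] at hev'
        have := (h.ev (j + e) (by omega)).1 hev'
        omega)
      rw [hbb, ← V_nxt_iter hA, ← Function.iterate_add_apply,
        Nat.sub_add_cancel (by omega : e ≤ n)] at h1
      exact h1

end Pool.Agent.LIN.Tower
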