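import Pool.Agent.LIN.TH0

/-! # [LIN-TH6] block C: marks and pointers far from `o` -/

namespace Pool.Agent.LIN.Tower

variable {m : Mach} {A : Tower m} {c0 : m.Config} {x₀ x₁ : A.T} {k : ℕ}

/-- A time `S^N x₁` is a time and not `o`. -/
theorem th6_tm (hA : A.Ax c0) (hx : A.Tm x₁) (hne : x₁ ≠ A.o) (N : ℕ) :
    A.Tm (A.S^[N] x₁) ∧ A.S^[N] x₁ ≠ A.o := by
  refine ⟨?_, ?_⟩
  · have h := h_S_iter hA N x₁
    unfold Tm at hx ⊢
    rw [h, hx]
  · cases N with
    | zero => exact hne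
    | succ N =>
      rw [Function.iterate_succ_apply']
      exact fun h => hA.o_org _ h

theorem th6_le_nxt (hA : A.Ax c0) (a b : A.F) (h : a = b ∨ A.flt a b) (k : ℕ) :
    a = A.nxt^[k] b ∨ A.flt a (A.nxt^[k] b) := by
  cases k with
  | zero => exact h
  | succ k =>
    right
    have h2 : A.flt b (A.nxt^[k+1] b) := by
      have := (flt_nxt_iter hA b 0 (k+1)).2 (by omega)
      simpa using this
    rcases h with h | h
    · rw [h]; exact h2
    · exact hA.flt_trans _ _ _ h h2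

open Classical in
/-- One step. -/
theorem th6_step (hA : A.Ax c0) (y : A.T) (hy : A.Tm y) (hyo : y ≠ A.o) (b : A.F) (hb : A.Mk b)
    (hpi : A.pi b = A.S y) : ∃ b', A.Mk b' ∧ A.pi b' = y ∧ A.ix b' = A.ix b ∧
      (¬ A.Ev (A.S y) → b = A.nxt (A.V b')) ∧ ∃ k, b = A.nxt^[k] (A.V b') := by
  obtain ⟨b', hb1, hb2, hb3⟩ := hA.mk_ex y (A.ix b) hy hyo
  have key : ∀ c, A.Mk c → A.pi c = A.S y → A.ix c = A.ix b → b = c := fun c h1 h2 h3 =>
    hA.mk_uniq _ _ hb h1 (by rw [hpi, h2]) h3.symm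
  have hq : ¬ A.Ev (A.S y) → b = A.nxt (A.V b') := by
    intro he
    refine key _ (quiet_mk hA b' hb3 (by rw [hb1]; exact he)) ?_ ?_
    · rw [pi_nxt hA, hA.pi_V, hb1]
    · rw [ix_nxt hA, hA.ix_V, hb2]
  refine ⟨b', hb3, hb1, hb2, hq, ?_⟩
  by_cases he : A.Ev (A.S y)
  · obtain ⟨q, hs⟩ := hA.st_ex y hy hyo
    have key2 : ∀ k, A.Mk (A.nxt^[k] (A.V b')) → b = A.nxt^[k] (A.V b') := fun k h =>
      key _ h (by rw [pi_nxt_iter hA, hA.pi_V, hb1]) (by rw [ix_nxt_iter hA, hA.ix_V, hb2])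
    by_cases ht : ∃ i z p, m.prog q = Instr.test i z p
    · obtain ⟨i, z, p, ht⟩ := ht
      obtain ⟨u, hu1, hu2, hu3⟩ := hA.pt_ex y q i z p hs ht
      obtain ⟨c, hc1, hc2, hc3⟩ := hA.mk_ex y i hy hyo
      have := (event_test hA y q i z p hs he ht u c hu3 hc3 hu1 hc1 hc2).2 b' hb1 hb3
      exact ⟨_, key2 _ this⟩
    · push Not at ht
      have := (event_other hA y q hs he ht False).2 b' hb1 hb3
      exact ⟨_, key2 _ this⟩
  · exact ⟨1, hq he⟩

theorem th6_quiet (hA : A.Ax c0) (hx : A.Tm x₁) (hne : x₁ ≠ A.o) (N : ℕ) :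
    (∀ i, 1 ≤ i → i ≤ N → ¬ A.Ev (A.S^[i] x₁)) → ∀ b a, A.Mk b → A.pi b = A.S^[N] x₁ → A.Fst a →
      A.pi a = A.S^[N] x₁ → A.ix a = A.ix b → A.nxt^[N] a = b ∨ A.flt (A.nxt^[N] a) b := by
  induction N with
  | zero =>
    intro _ b a _ hpb ha hpa hix
    have := fst_lt hA a b ha (by rw [hpa, hpb]) hix
    rcases this with h | h
    · left; exact h.symm
    · right; exact h
  | succ N ih =>
    intro he b a hb hpb ha hpa hix
    obtain ⟨hT, hO⟩ := th6_tm hA hx hne N
    have hpb' : A.pi b = A.S (A.S^[N] x₁) := by rw [hpb, Function.iterate_succ_apply']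
    obtain ⟨b', h1, h2, h3, h4, -⟩ := th6_step hA _ hT hO b hb hpb'
    have h4 := h4 (by
      have := he (N+1) (by omega) le_rfl
      rwa [Function.iterate_succ_apply'] at this)
    obtain ⟨a', ha1, ha2, ha3⟩ := exists_V_iter hA a (A.S^[N] x₁) 1 (by
      rw [hpa, Function.iterate_succ_apply']; rfl)
    have ha1 : A.V a' = a := ha1
    have hfa : A.Fst a' := by rw [← Fst_V hA, ha1]; exact ha
    have := ih (fun i h1 h2 => he i h1 (by omega)) b' a' h1 h2 hfa ha2 (by rw [ha3, hix, h3])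
    have e1 : A.nxt^[N+1] a = A.nxt (A.V (A.nxt^[N] a')) := by
      rw [Function.iterate_succ_apply', ← ha1]
      have := V_nxt_iter hA a' 1 N
      simp only [Function.iterate_one] at this
      rw [this]
    rw [h4, e1]
    rcases this with h | h
    · left; rw [h]
    · right
      have h5 := (hA.flt_V _ _).2 h
      have h6 := (flt_nxt_nxt hA _ _ 1).2 h5
      simpa using h6

theorem th6_one (hA : A.Ax c0) (hx : A.Tm x₁) (hne : x₁ ≠ A.o) (N : ℕ) :
    (∀ i j, 1 ≤ i → i ≤ N → 1 ≤ j → j ≤ N → A.Ev (A.S^[i] x₁) → A.Ev (A.S^[j] x₁) → i = j) →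
      ∀ b a, A.Mk b → A.pi b = A.S^[N] x₁ → A.Fst a →
      A.pi a = A.S^[N] x₁ → A.ix a = A.ix b →
      A.nxt^[N - 1] a = b ∨ A.flt (A.nxt^[N - 1] a) b := by
  induction N with
  | zero =>
    intro _ b a _ hpb ha hpa hix
    have := fst_lt hA a b ha (by rw [hpa, hpb]) hix
    rcases this with h | h
    · left; exact h.symm
    · right; exact h
  | succ N ih =>
    intro he b a hb hpb ha hpa hix
    obtain ⟨hT, hO⟩ := th6_tm hA hx hne N
    have hpb' : A.pi b = A.S (A.S^[N] x₁) := by rw [hpb, Function.iterate_succ_apply']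
    obtain ⟨b', h1, h2, h3, h4, k, h5⟩ := th6_step hA _ hT hO b hb hpb'
    obtain ⟨a', ha1, ha2, ha3⟩ := exists_V_iter hA a (A.S^[N] x₁) 1 (by
      rw [hpa, Function.iterate_succ_apply']; rfl)
    have ha1 : A.V a' = a := ha1
    have hfa : A.Fst a' := by rw [← Fst_V hA, ha1]; exact ha
    have hV : ∀ n, A.nxt^[n] a = A.V (A.nxt^[n] a') := by
      intro n
      rw [← ha1]
      have := V_nxt_iter hA a' 1 n
      simp only [Function.iterate_one] at this
      rw [this]
    by_cases hev : A.Ev (A.S (A.S^[N] x₁))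
    · have hq := th6_quiet hA hx hne N (fun i h1 h2 h3 => by
        have := he i (N+1) h1 (by omega) (by omega) le_rfl h3
          (by rw [Function.iterate_succ_apply']; exact hev)
        omega) b' a' h1 h2 hfa ha2 (by rw [ha3, hix, h3])
      rw [h5]
      apply th6_le_nxt hA
      rw [show N + 1 - 1 = N from rfl, hV]
      rcases hq with h | h
      · left; rw [h]
      · right; exact (hA.flt_V _ _).2 h
    · have h4 := h4 hev
      have := ih (fun i j h1 h2 h3 h4 => he i j h1 (by omega) h3 (by omega)) b' a' h1 h2 hfa ha2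
        (by rw [ha3, hix, h3])
      rw [show N + 1 - 1 = N from rfl, h4]
      cases N with
      | zero =>
        have h7 : A.nxt^[0] a = a := rfl
        rw [h7]
        have := fst_lt hA a (A.nxt (A.V b')) ha (by rw [pi_nxt hA, hA.pi_V, h2, hpa,
          Function.iterate_succ_apply']) (by rw [ix_nxt hA, hA.ix_V, h3, hix])
        rcases this with h | h
        · left; exact h.symm
        · right; exact h
      | succ N =>
        have e1 : A.nxt^[N+1] a = A.nxt (A.V (A.nxt^[N] a')) := by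
          rw [Function.iterate_succ_apply', hV]
        rw [e1]
        rw [show N + 1 - 1 = N from rfl] at this
        rcases this with h | h
        · left; rw [h]
        · right
          have h5 := (hA.flt_V _ _).2 h
          have h6 := (flt_nxt_nxt hA _ _ 1).2 h5
          simpa using h6

/-- The mark moves by at least one position per step, except at the event (at most one), where it
moves by `dl >= 0`. Induction on `N`: for the mark `b` over `S^N x₁` and the first element `a`,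
`nxt^(N - 1) a <= b` (`nxt^N a <= b` if there was no event yet). `event_other`, `event_test`,
`quiet_mk`, `mk_ex`, `mk_uniq`. -/
theorem mk_far (hA : A.Ax c0) (hx : A.Tm x₁) (hne : x₁ ≠ A.o) (N n : ℕ) (hn : n + 2 ≤ N)
    (hreg : ∀ i j, 1 ≤ i → i ≤ N → 1 ≤ j → j ≤ N → A.Ev (A.S^[i] x₁) → A.Ev (A.S^[j] x₁) → i = j) :
    A.MkFar (A.S^[N] x₁) n := by
  intro b a hb hpb ha hpa hix
  have h := th6_one hA hx hne N hreg b a hb hpb ha hpa hix
  have h2 : A.flt (A.nxt^[n] a) (A.nxt^[N - 1] a) := (flt_nxt_iter hA a n (N - 1)).2 (by omega)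
  rcases h with h | h
  · rw [← h]; exact h2
  · exact hA.flt_trans _ _ _ h2 h

/-- `pt_far_fst`. -/
theorem pt_far (hA : A.Ax c0) (hx : A.Tm x₁) (hne : x₁ ≠ A.o) (N n : ℕ) (hn : n < 2 * N)
    (hreg : ∀ i, 1 ≤ i → i ≤ N → ¬ A.Ev (A.S^[i] x₁)) : A.PtFar (A.S^[N] x₁) n := by
  intro b a hb hpb ha hpa hix
  obtain ⟨c, hc1, hc2, hc3⟩ := pt_far_fst hA x₁ hx hne N b hb hpb hreg
  have h1 : A.flt (A.nxt^[n] a) (A.nxt^[2 * N] a) := (flt_nxt_iter hA a n (2 * N)).2 hn
  have h2 := fst_lt hA a c ha (by rw [hpa, hc1]) (by rw [hix, hc2])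
  rcases h2 with h | h
  · rw [← hc3, h]; exact h1
  · rw [← hc3]
    exact hA.flt_trans _ _ _ h1 ((flt_nxt_nxt hA _ _ _).2 h)

/-- A test state: either the pointer over `x₀` is more than `N` positions below its mark, or it is
exactly `δ <= N` positions below, and then there is an event `e` with `1 <= e <= δ` (`pt_far_mk`). -/
theorem pt_mk_dist (hA : A.Ax c0) (b c : A.F) (hb : A.Pt b) (hc : A.Mk c)
    (hpi : A.pi b = A.pi c) (hix : A.ix b = A.ix c) (N : ℕ) :
    A.flt (A.nxt^[N] b) c ∨ ∃ δ ≤ N, A.nxt^[δ] b = c ∧ ∃ e, 1 ≤ e ∧ e ≤ δ ∧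
      A.Ev (A.S^[e] (A.pi b)) := by
  have hlt := hA.pt_mk b c hb hc hpi hix
  by_cases hd : ∃ δ ≤ N, A.nxt^[δ] b = c
  · right
    obtain ⟨δ, h1, h2⟩ := hd
    refine ⟨δ, h1, h2, ?_⟩
    by_contra hcon
    push Not at hcon
    have := pt_far_mk hA b c hb hc hpi hix δ hcon
    rw [h2] at this
    exact hA.flt_irrefl _ this
  · left
    push Not at hd
    exact (flt_iter_left hA b c N hd).2 hlt

end Pool.Agent.LIN.Tower
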