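import Pool.Agent.LIN.TH6

/-! # [LIN-TH6b] block C: the state after the next event -/

namespace Pool.Agent.LIN.Tower

variable {m : Mach} {A : Tower m} {c0 : m.Config} {x₀ x₁ : A.T} {k : ℕ}

open Classical in
/-- The new state at the first event after `x₀`, in terms of the distance of pointer and mark. -/
theorem next_state (hA : A.Ax c0) (hx : A.Tm x₀) (hne : x₀ ≠ A.o) (q : Fin m.nQ)
    (hs : A.st x₀ q) (e : ℕ) (he : 1 ≤ e) (hev : ∀ n ≤ e, A.Ev (A.S^[n] x₀) ↔ n = e) :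
    ∃ q', A.st (A.S^[e] x₀) q' ∧
      ((∀ i z p, m.prog q ≠ Instr.test i z p) → ns m q False q') ∧
      (∀ b c, A.Pt b → A.Mk c → A.pi b = x₀ → A.pi c = x₀ → A.ix b = A.ix c →
        ns m q (A.nxt^[e] b = c) q') := by
  obtain ⟨e', rfl⟩ : ∃ e', e = e' + 1 := ⟨e - 1, by omega⟩
  have hno : ∀ j, 1 ≤ j → j ≤ e' → ¬ A.Ev (A.S^[j] x₀) := fun j h1 h2 h3 => by
    have := (hev j (by omega)).1 h3
    omega
  have hev1 : A.Ev (A.S (A.S^[e'] x₀)) := by
    have := (hev (e' + 1) le_rfl).2 rfl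
    rwa [Function.iterate_succ_apply'] at this
  have hsy : A.st (A.S^[e'] x₀) q := stretch_st hA x₀ q hs e' hno
  by_cases ht : ∃ i z p, m.prog q = Instr.test i z p
  · obtain ⟨i, z, p, ht⟩ := ht
    obtain ⟨b₁, hb1, hb2, hb3⟩ := hA.pt_ex x₀ q i z p hs ht
    obtain ⟨c₁, hc1, hc2, hc3⟩ := hA.mk_ex x₀ i hx hne
    have hpb := stretch_pt hA b₁ hb3 e' (by rw [hb1]; exact hno)
    have hpc := stretch_mk hA c₁ hc3 e' (by rw [hc1]; exact hno)
    have e1 : A.pi (A.V^[e'] (A.nxt^[2 * e'] b₁)) = A.S^[e'] x₀ := by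
      rw [pi_V_iter hA, pi_nxt_iter hA, hb1]
    have e2 : A.pi (A.V^[e'] (A.nxt^[e'] c₁)) = A.S^[e'] x₀ := by
      rw [pi_V_iter hA, pi_nxt_iter hA, hc1]
    have e3 : A.ix (A.V^[e'] (A.nxt^[e'] c₁)) = i := by
      rw [ix_V_iter hA, ix_nxt_iter hA, hc2]
    obtain ⟨⟨q', hq1, hq2⟩, -⟩ := event_test hA _ q i z p hsy hev1 ht _ _ hpb hpc e1 e2 e3
    refine ⟨q', ?_, ?_, ?_⟩
    · rw [Function.iterate_succ_apply']; exact hq1
    · intro h; exact absurd ht (h i z p)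
    · intro b c hb hc hbp hcp hbc
      have hbb : b = b₁ := hA.pt_uniq _ _ hb hb3 (by rw [hbp, hb1])
      have hcc : c = c₁ := hA.mk_uniq _ _ hc hc3 (by rw [hcp, hc1]) (by rw [← hbc, hbb, hb2, hc2])
      have e4 : (A.V^[e'] (A.nxt^[e'] c₁) = A.nxt (A.V^[e'] (A.nxt^[2 * e'] b₁))) ↔
          A.nxt^[e' + 1] b = c := by
        rw [hbb, hcc]
        have h1 := V_nxt_iter hA (A.nxt^[2 * e'] b₁) e' 1
        simp only [Function.iterate_one] at h1
        rw [← h1, V_iter_cancel hA]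
        have h2 : A.nxt (A.nxt^[2 * e'] b₁) = A.nxt^[e'] (A.nxt^[e' + 1] b₁) := by
          rw [← Function.iterate_add_apply, ← Function.iterate_succ_apply' A.nxt]
          congr 1
          omega
        rw [h2, nxt_iter_cancel hA]
        exact eq_comm
      have e5 : (A.V^[e'] (A.nxt^[e'] c₁) = A.nxt (A.V^[e'] (A.nxt^[2 * e'] b₁))) =
          (A.nxt^[e' + 1] b = c) := propext e4
      rw [← e5]
      exact hq2
  · push Not at ht
    obtain ⟨⟨q', hq1, hq2⟩, -⟩ := event_other hA _ q hsy hev1 ht False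
    refine ⟨q', ?_, ?_, ?_⟩
    · rw [Function.iterate_succ_apply']; exact hq1
    · intro _; exact hq2
    · intro b c hb hc hbp hcp hbc
      exfalso
      obtain ⟨q₂, z, p, h1, h2⟩ := hA.pt_st b hb
      rw [hbp] at h1
      have := hA.st_uniq _ _ _ h1 hs
      rw [this] at h2
      exact ht _ _ _ h2

end Pool.Agent.LIN.Tower
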