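import Pool.Agent.LIN.TH6b

/-! # [LIN-TH6c] block C: classification of the times far from `o` -/

namespace Pool.Agent.LIN.Tower

variable {m : Mach} {A : Tower m} {c0 : m.Config} {x₀ x₁ : A.T} {k : ℕ}

/-- Classification. `x₀ = S^(MF k + 2) x₁` and there is at most one event from `x₁` to
`S^(C1 k + 1) x₀`. `mf` is `mk_far`. If there is an event at most `ZP k` steps before `x₀` (or at
`x₀`): kind `b`. Otherwise `pf` is `pt_far`. If the state is a test state and pointer and mark
(`pt_mk_dist` with `N = C1 k + 1`) are at distance `δ <= C1 k + 1`: kind `d` with the event `e <= δ`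
and `d = δ - e` (`next_state`; `nxt^e b = c` iff `d = 0`). Otherwise (`pm`, vacuous if the state is
not a test state): kind `c` if there is an event `e` with `1 <= e <= WW k` (`nxt^e b = c` is false),
kind `a` if there is none. -/
theorem classify (hA : A.Ax c0) (hx : A.Tm x₁) (hne : x₁ ≠ A.o)
    (h01 : x₀ = A.S^[MF k + 2] x₁)
    (hreg : ∀ i j, i ≤ MF k + 2 + C1 k + 1 → j ≤ MF k + 2 + C1 k + 1 →
      A.Ev (A.S^[i] x₁) → A.Ev (A.S^[j] x₁) → i = j) :
    (∃ q, A.HypA x₀ k q) ∨ (∃ j q, A.HypB x₀ k j q) ∨ (∃ e q q', A.HypC x₀ k e q q') ∨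
      ∃ e d q q', A.HypD x₀ k e d q q' := by
  have hWC : WW k ≤ C1 k := by unfold C1; omega
  have hZP : ZP k ≤ MF k := by unfold ZP MF C3 E3; omega
  have hZC : C1 k + k < 2 * ZP k := by unfold ZP; omega
  have hx0 : A.Tm x₀ ∧ x₀ ≠ A.o := by rw [h01]; exact th6_tm hA hx hne _
  obtain ⟨hT, hO⟩ := hx0
  obtain ⟨q, hs⟩ := hA.st_ex x₀ hT hO
  have hmf : A.MkFar x₀ (MF k) := by
    rw [h01]
    exact mk_far hA hx hne _ _ le_rfl (fun i j _ h2 _ h4 h5 h6 =>
      hreg i j (by omega) (by omega) h5 h6)
  have hadd : ∀ n, A.S^[n] x₀ = A.S^[MF k + 2 + n] x₁ := by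
    intro n
    rw [h01, ← Function.iterate_add_apply]
    congr 1
    omega
  by_cases hb : ∃ j ≤ ZP k, A.Ev (A.S^[MF k + 2 - j] x₁)
  · right; left
    obtain ⟨j, hj, hev⟩ := hb
    refine ⟨j, q, hT, hs, hj, ⟨A.S^[MF k + 2 - j] x₁, ?_, hev, ?_, ?_⟩, hmf⟩
    · intro h
      rw [h] at hev
      exact hA.Ev_org _ hA.o_org hev
    · rw [h01, ← Function.iterate_add_apply]
      congr 1
      omega
    · intro n h1 h2 h3
      rw [← Function.iterate_add_apply] at h3
      have := hreg _ _ (by omega) (by omega) hev h3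
      omega
  · push Not at hb
    have hpf : A.PtFar x₀ (C1 k + k) := by
      have e1 : x₀ = A.S^[ZP k] (A.S^[MF k + 2 - ZP k] x₁) := by
        rw [h01, ← Function.iterate_add_apply]
        congr 1
        omega
      obtain ⟨t1, t2⟩ := th6_tm hA hx hne (MF k + 2 - ZP k)
      rw [e1]
      refine pt_far hA t1 t2 _ _ hZC (fun i h1 h2 h3 => ?_)
      rw [← Function.iterate_add_apply] at h3
      refine hb (ZP k - i) (by omega) ?_
      rw [show MF k + 2 - (ZP k - i) = i + (MF k + 2 - ZP k) by omega]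
      exact h3
    have hev0 : ¬ A.Ev x₀ := by
      have := hb 0 (by omega)
      rw [Nat.sub_zero, ← h01] at this
      exact this
    have huniq : ∀ i j, i ≤ C1 k + 1 → j ≤ C1 k + 1 → A.Ev (A.S^[i] x₀) → A.Ev (A.S^[j] x₀) →
        i = j := by
      intro i j h1 h2 h3 h4
      rw [hadd] at h3 h4
      have := hreg _ _ (by omega) (by omega) h3 h4
      omega
    -- main dichotomy
    by_cases hd : A.PtMk x₀ (C1 k + 1)
    · by_cases hc : ∃ e ≤ WW k, A.Ev (A.S^[e] x₀)
      · right; right; left
        obtain ⟨e, he, hev⟩ := hc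
        have he1 : 1 ≤ e := by
          rcases Nat.eq_zero_or_pos e with h | h
          · rw [h] at hev; exact absurd hev hev0
          · exact h
        have hev' : ∀ n ≤ WW k, A.Ev (A.S^[n] x₀) ↔ n = e := fun n hn =>
          ⟨fun h => huniq _ _ (by omega) (by omega) h hev, fun h => by rw [h]; exact hev⟩
        obtain ⟨q', hq1, hq2, hq3⟩ := next_state hA hT hO q hs e he1
          (fun n hn => hev' n (by omega))
        refine ⟨e, q, q', hT, hO, hs, hq1, he1, he, hev', hmf, hpf, hd, ?_⟩
        by_cases ht : ∃ i z p, m.prog q = Instr.test i z p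
        · obtain ⟨i, z, p, ht⟩ := ht
          obtain ⟨b, hb1, hb2, hb3⟩ := hA.pt_ex x₀ q i z p hs ht
          obtain ⟨c, hc1, hc2, hc3⟩ := hA.mk_ex x₀ i hT hO
          have h4 := hq3 b c hb3 hc3 hb1 hc1 (by rw [hb2, hc2])
          have h5 := hd b c hb3 hc3 hb1 hc1 (by rw [hb2, hc2])
          have h6 : (A.nxt^[e] b = c) = False := by
            apply propext
            refine ⟨fun h => ?_, False.elim⟩
            rw [← h] at h5
            have := (flt_nxt_iter hA b _ _).1 h5
            omega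
          rw [h6] at h4
          exact h4
        · push Not at ht
          exact hq2 ht
      · left
        push Not at hc
        refine ⟨q, hT, hO, hs, hc, hmf, hpf, ?_⟩
        intro b c h1 h2 h3 h4 h5
        have h6 := hd b c h1 h2 h3 h4 h5
        exact hA.flt_trans _ _ _ ((flt_nxt_iter hA b (C1 k) (C1 k + 1)).2 (by omega)) h6
    · right; right; right
      unfold PtMk at hd
      push Not at hd
      obtain ⟨b, c, hb1, hc1, hb2, hc2, hbc, hn⟩ := hd
      rcases pt_mk_dist hA b c hb1 hc1 (by rw [hb2, hc2]) hbc (C1 k + 1) with h | h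
      · exact absurd h hn
      · obtain ⟨δ, hδ, hδc, e, he1, he2, hev⟩ := h
        rw [hb2] at hev
        obtain ⟨q₂, z, p, hst, hpr⟩ := hA.pt_st b hb1
        rw [hb2] at hst
        have hqq : q₂ = q := hA.st_uniq _ _ _ hst hs
        rw [hqq] at hpr
        have hev' : ∀ n ≤ C1 k + 1, A.Ev (A.S^[n] x₀) ↔ n = e := fun n hn =>
          ⟨fun h => huniq _ _ (by omega) (by omega) h hev, fun h => by rw [h]; exact hev⟩
        obtain ⟨q', hq1, hq2, hq3⟩ := next_state hA hT hO q hs e he1
          (fun n hn => hev' n (by omega))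
        refine ⟨e, δ - e, q, q', hT, hO, hs, hq1, he1, by omega, hev', hmf,
          ⟨b, c, A.ix b, z, p, hpr, hb1, hc1, hb2, hc2, rfl, hbc.symm, ?_⟩, ?_⟩
        · rw [show e + (δ - e) = δ by omega]; exact hδc
        · have h4 := hq3 b c hb1 hc1 hb2 hc2 hbc
          have h6 : (A.nxt^[e] b = c) = (δ - e = 0) := by
            apply propext
            rw [← hδc, nxt_iter_inj hA]
            omega
          rw [h6] at h4
          exact h4

end Pool.Agent.LIN.Tower
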