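import Pool.Agent.LIN.TH0
import Pool.Agent.LIN.TD3

/-! # [LIN-TH7] block C: standard times: distances -/

namespace Pool.Agent.LIN.Tower

variable {m : Mach} {B : Tower m} {c0 : m.Config} {k : ℕ} {r : ℕ → m.Config}

theorem std_tm_aux (hB : B.Ax c0) (c : ℕ) (hc : 1 ≤ c) :
    B.Tm (B.S^[c] B.o) ∧ B.S^[c] B.o ≠ B.o :=
  ⟨(h_S_iter hB c B.o).trans (hB.org_h B.o hB.o_org), S_iter_ne hB B.o c hc⟩

/-- Marks over a standard time. -/
theorem std_mk_pos (hB : B.Ax c0) (n c : ℕ) (q : m.Config) (h : B.SpecAt q n c) (a b : B.F)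
    (ha : B.Fst a) (hb : B.Mk b) (hpa : B.pi a = B.S^[c] B.o) (hpb : B.pi b = B.S^[c] B.o)
    (hi : B.ix a = B.ix b) : B.nxt^[c + q.2 (B.ix b)] a = b := by
  obtain ⟨a', ha', hab⟩ := h.2.1 b hpb hb
  have h1 : B.pi a' = B.pi b := by
    rw [← pi_nxt_iter hB (c + q.2 (B.ix b)) a', hab]
  have h2 : B.ix a' = B.ix b := by
    have h3 := ix_nxt_iter hB (c + q.2 (B.ix b)) a'
    rw [hab] at h3
    exact h3.symm
  have h4 : a = a' := fst_unique hB a a' ha ha' (by rw [hpa, h1, hpb]) (by rw [hi, h2])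
  rw [h4]
  exact hab

/-- Pointers over a standard time. -/
theorem std_pt_pos (hB : B.Ax c0) (n c : ℕ) (q : m.Config) (h : B.SpecAt q n c) (a b : B.F)
    (ha : B.Fst a) (hb : B.Pt b) (hpa : B.pi a = B.S^[c] B.o) (hpb : B.pi b = B.S^[c] B.o)
    (hi : B.ix a = B.ix b) : B.nxt^[2 * (c - 2 ^ n)] a = b := by
  obtain ⟨a', ha', hab⟩ := h.2.2 b hpb hb
  have h1 : B.pi a' = B.pi b := by
    rw [← pi_nxt_iter hB (2 * (c - 2 ^ n)) a', hab]
  have h2 : B.ix a' = B.ix b := by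
    rw [← ix_nxt_iter hB (2 * (c - 2 ^ n)) a', hab]
  have h4 : a = a' := fst_unique hB a a' ha ha' (by rw [hpa, h1, hpb]) (by rw [hi, h2])
  rw [h4]
  exact hab

/-- The standard times: marks in position `c + R`, pointers in position `2 (c - 2^n)`. -/
theorem std_mkFar (hB : B.Ax c0) (hs : B.Spec r) (c F : ℕ) (hc : F < c) :
    B.MkFar (B.S^[c] B.o) F := by
  intro b a hb hpb ha hpa hi
  have h := hs (Nat.log 2 c) c (Nat.pow_log_le_self 2 (by omega))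
    (Nat.lt_pow_succ_log_self (by norm_num) c)
  have h1 := std_mk_pos hB _ c _ h a b ha hb hpa hpb hi
  rw [← h1]
  exact (flt_nxt_iter hB a _ _).2 (by omega)

/-- Pointer and first element. -/
theorem std_ptFar (hB : B.Ax c0) (hs : B.Spec r) (n c F : ℕ) (h1 : 2 ^ n ≤ c)
    (h2 : c < 2 ^ (n + 1)) (h3 : F < 2 * (c - 2 ^ n)) : B.PtFar (B.S^[c] B.o) F := by
  intro b a hb hpb ha hpa hi
  have h4 := std_pt_pos hB n c _ (hs n c h1 h2) a b ha hb hpa hpb hi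
  rw [← h4]
  exact (flt_nxt_iter hB a _ _).2 h3

/-- Pointer and mark: the distance at the time `c` of phase `n` is `2^(n+1) - c + R`, where `R` is the
tested register. -/
theorem std_ptMk (hB : B.Ax c0) (hs : B.Spec r) (n c F : ℕ) (h1 : 2 ^ n ≤ c)
    (h2 : c < 2 ^ (n + 1))
    (h3 : ∀ i z p, m.prog (r n).1 = Instr.test i z p → F < 2 ^ (n + 1) - c + (r n).2 i) :
    B.PtMk (B.S^[c] B.o) F := by
  intro b d hb hd hpb hpd hi
  have h := hs n c h1 h2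
  have htm : B.Tm (B.S^[c] B.o) := by
    rw [← hpb]; exact hB.pi_tm b
  obtain ⟨a, hpa, hia, ha⟩ := hB.row_first (B.S^[c] B.o) (B.ix b) htm
  have hab := std_pt_pos hB n c _ h a b ha hb hpa hpb hia
  have had := std_mk_pos hB n c _ h a d ha hd hpa hpd (hia.trans hi)
  obtain ⟨q, z, p, hq, hqp⟩ := hB.pt_st b hb
  have hqr : q = (r n).1 := by
    rw [hpb] at hq
    exact hB.st_uniq _ _ _ hq h.1
  rw [hqr] at hqp
  have h4 := h3 _ z p hqp
  rw [hi] at h4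
  have h5 : 2 ^ (n + 1) = 2 * 2 ^ n := pow_succ' 2 n
  rw [← hab, ← had, ← Function.iterate_add_apply]
  exact (flt_nxt_iter hB a _ _).2 (by omega)

theorem std_dist (hB : B.Ax c0) (hs : B.Spec r) (n c : ℕ) (h1 : 2 ^ n ≤ c)
    (h2 : c < 2 ^ (n + 1)) (i : Fin m.k) (z p : Option (Fin m.nQ))
    (hq : m.prog (r n).1 = Instr.test i z p) :
    ∃ b d, B.Pt b ∧ B.Mk d ∧ B.pi b = B.S^[c] B.o ∧ B.pi d = B.S^[c] B.o ∧ B.ix b = i ∧
      B.ix d = i ∧ B.nxt^[2 ^ (n + 1) - c + (r n).2 i] b = d := by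
  have h := hs n c h1 h2
  have hc : 1 ≤ c := le_trans (Nat.one_le_two_pow) h1
  obtain ⟨htm, hne⟩ := std_tm_aux hB c hc
  obtain ⟨a, hpa, hia, ha⟩ := hB.row_first (B.S^[c] B.o) i htm
  obtain ⟨b, hpb, hib, hb⟩ := hB.pt_ex (B.S^[c] B.o) _ i z p h.1 hq
  obtain ⟨d, hpd, hid, hd⟩ := hB.mk_ex (B.S^[c] B.o) i htm hne
  have hab := std_pt_pos hB n c _ h a b ha hb hpa hpb (hia.trans hib.symm)
  have had := std_mk_pos hB n c _ h a d ha hd hpa hpd (hia.trans hid.symm)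
  rw [hid] at had
  have h5 : 2 ^ (n + 1) = 2 * 2 ^ n := pow_succ' 2 n
  refine ⟨b, d, hb, hd, hpb, hpd, hib, hid, ?_⟩
  rw [← hab, ← had, ← Function.iterate_add_apply]
  congr 1
  rw [show 2 ^ (n + 1) - c + (r n).2 i + 2 * (c - 2 ^ n) = c + (r n).2 i by omega]

theorem std_tm (hB : B.Ax c0) (c : ℕ) (hc : 1 ≤ c) :
    B.Tm (B.S^[c] B.o) ∧ B.S^[c] B.o ≠ B.o :=
  std_tm_aux hB c hc

end Pool.Agent.LIN.Tower
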