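import Pool.Agent.LIN.TH7

/-! # [LIN-TH7b] block C: standard times of the kinds `a` and `b` -/

namespace Pool.Agent.LIN.Tower

variable {m : Mach} {B : Tower m} {c0 : m.Config} {k : ℕ} {r : ℕ → m.Config}

/-- `c = 2^N + 2^(N-1) + ρ` for `N` large with `(r N).1 = q` (`num_quiet`). -/
theorem std_A (hB : B.Ax c0) (hs : B.Spec r) (q : Fin m.nQ)
    (hq : ∀ N, ∃ n ≥ N, (r n).1 = q) (ρ Bd : ℕ) (hρ : ρ < 2 ^ (k + 1)) :
    ∃ c ≥ Bd, c % 2 ^ (k + 1) = ρ ∧ B.HypA (B.S^[c] B.o) k q := by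
  obtain ⟨N₀, hN₀⟩ := num_quiet (WW k) (k + 1) ρ (Bd + MF k + C1 k + k + 2)
  obtain ⟨N, hN, hqN⟩ := hq N₀
  obtain ⟨h1, h2, h3, h4⟩ := hN₀ N hN
  have hc1 : 2 ^ N ≤ 2 ^ N + 2 ^ (N - 1) + ρ := by omega
  have hc2 : 2 ^ N + 2 ^ (N - 1) + ρ < 2 ^ (N + 1) := by omega
  have hpos : 1 ≤ 2 ^ N := Nat.one_le_two_pow
  have htm := std_tm (B := B) hB (2 ^ N + 2 ^ (N - 1) + ρ) (by omega)
  refine ⟨2 ^ N + 2 ^ (N - 1) + ρ, by omega, ?_, ?_⟩
  · obtain ⟨t, ht⟩ := h2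
    rw [ht, Nat.add_comm, Nat.add_mul_mod_self_left, Nat.mod_eq_of_lt hρ]
  · refine ⟨htm.1, htm.2, ?_, ?_, ?_, ?_, ?_⟩
    · have h := (hs N _ hc1 hc2).1
      rw [hqN] at h
      exact h
    · intro n hn he
      exact h4 n hn ((ev_pos hB B.o hB.o_org _ n).mp he)
    · exact std_mkFar hB hs _ _ (by omega)
    · exact std_ptFar hB hs N _ _ hc1 hc2 (by omega)
    · refine std_ptMk hB hs N _ _ hc1 hc2 ?_
      intro i z p _
      omega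

/-- `c = 2^N + j` for `N` large with `(r N).1 = q`. -/
theorem std_B (hB : B.Ax c0) (hs : B.Spec r) (q : Fin m.nQ)
    (hq : ∀ N, ∃ n ≥ N, (r n).1 = q) (j Bd : ℕ) (hj : j ≤ ZP k) :
    ∃ c ≥ Bd, c % 2 ^ (k + 1) = j % 2 ^ (k + 1) ∧ B.HypB (B.S^[c] B.o) k j q := by
  obtain ⟨N, hN, hqN⟩ := hq (Bd + MF k + j + WW k + k + 1)
  have h0 : N < 2 ^ N := Nat.lt_two_pow_self
  have hpow : 2 ^ (N + 1) = 2 ^ N + 2 ^ N := by rw [pow_succ]; omega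
  have hc1 : 2 ^ N ≤ j + 2 ^ N := by omega
  have hc2 : j + 2 ^ N < 2 ^ (N + 1) := by omega
  have htm := std_tm (B := B) hB (j + 2 ^ N) (by omega)
  have htm' := std_tm (B := B) hB (2 ^ N) (by omega)
  refine ⟨j + 2 ^ N, by omega, ?_, ?_⟩
  · have ht : 2 ^ N = 2 ^ (k + 1) * 2 ^ (N - (k + 1)) := by
      rw [← pow_add]
      congr 1
      omega
    rw [ht, Nat.add_mul_mod_self_left]
  · refine ⟨htm.1, ?_, hj, ?_, ?_⟩
    · have h := (hs N _ hc1 hc2).1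
      rw [hqN] at h
      exact h
    · refine ⟨B.S^[2 ^ N] B.o, htm'.2, ?_, ?_, ?_⟩
      · exact (Ev_pow hB B.o hB.o_org (2 ^ N)).mpr ⟨N, rfl⟩
      · exact (Function.iterate_add_apply B.S j (2 ^ N) B.o).symm
      · intro n hn1 hn2 he
        obtain ⟨t, ht⟩ := (ev_pos hB B.o hB.o_org (2 ^ N) n).mp he
        have h5 : 2 ^ N < 2 ^ t := by omega
        have h6 : 2 ^ t < 2 ^ (N + 1) := by omega
        have h7 : N < t := (Nat.pow_lt_pow_iff_right (by norm_num)).mp h5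
        have h8 : t < N + 1 := (Nat.pow_lt_pow_iff_right (by norm_num)).mp h6
        omega
    · exact std_mkFar hB hs _ _ (by omega)

end Pool.Agent.LIN.Tower
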