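import Pool.Agent.LIN.TH7

/-! # [LIN-TH7c] block C: standard times of the kinds `c` and `d` -/

namespace Pool.Agent.LIN.Tower

variable {m : Mach} {B : Tower m} {c0 : m.Config} {k : ℕ} {r : ℕ → m.Config}

theorem th7c_num (W e Bd : ℕ) (he : e ≤ W) : ∃ N₀, ∀ N ≥ N₀,
    Bd + e ≤ 2 ^ N ∧ (e + (2 ^ (N + 1) - e)) % 2 ^ (k + 1) = 0 ∧ e + (2 ^ (N + 1) - e) = 2 ^ (N + 1) ∧
      2 ^ N ≤ 2 ^ (N + 1) - e ∧ Bd ≤ 2 ^ (N + 1) - e - 2 ^ N ∧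
      (1 ≤ e → 2 ^ (N + 1) - e < 2 ^ (N + 1)) ∧
      ∀ n ≤ W, (∃ k, 2 ^ (N + 1) - e + n = 2 ^ k) ↔ n = e := by
  obtain ⟨N₀, h₀⟩ := num_event W (k + 1) e Bd he
  refine ⟨N₀ + k, fun N hN => ?_⟩
  obtain ⟨h1, -, -⟩ := h₀ N (by omega)
  obtain ⟨h2, h3, h4⟩ := h₀ (N + 1) (by omega)
  have h5 : 2 ^ (N + 1) = 2 * 2 ^ N := by rw [pow_succ]; ring
  have h6 : e + (2 ^ (N + 1) - e) = 2 ^ (N + 1) := by omega
  refine ⟨h1, ?_, h6, by omega, by omega, by omega, h4⟩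
  rw [h6]
  exact Nat.mod_eq_zero_of_dvd h3

theorem th7c_st (hs : B.Spec r) (N e : ℕ) (h6 : e + (2 ^ (N + 1) - e) = 2 ^ (N + 1)) :
    B.st (B.S^[e] (B.S^[2 ^ (N + 1) - e] B.o)) (r (N + 1)).1 := by
  rw [← Function.iterate_add_apply, h6]
  have h7 : 2 ^ (N + 1) < 2 ^ (N + 1 + 1) := Nat.pow_lt_pow_right (by norm_num) (by omega)
  exact (hs (N + 1) (2 ^ (N + 1)) le_rfl h7).1

/-- `c = 2^(N+1) - e` for `N` large with `(r N).1 = q`, `(r (N+1)).1 = q'` and, if `q` tests a register,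
this register is `C1 k + 1` (`num_event`). -/
theorem std_C (hB : B.Ax c0) (hs : B.Spec r) (q q' : Fin m.nQ) (hns : ns m q False q')
    (hq : ∀ N, ∃ n ≥ N, (r n).1 = q ∧ (r (n + 1)).1 = q' ∧
      ∀ i z p, m.prog q = Instr.test i z p → (r n).2 i = C1 k + 1)
    (e Bd : ℕ) (he : 1 ≤ e) (he' : e ≤ WW k) :
    ∃ c ≥ Bd, (e + c) % 2 ^ (k + 1) = 0 ∧ B.HypC (B.S^[c] B.o) k e q q' := by
  obtain ⟨N₀, h₀⟩ := th7c_num (k := k) (WW k) e (Bd + MF k + C1 k + k + 10) he'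
  obtain ⟨N, hN, hN1, hN2, hN3⟩ := hq N₀
  obtain ⟨h1, h2, h3, h4, h5, h6, h7⟩ := h₀ N hN
  have h8 : 2 ^ (N + 1) - e < 2 ^ (N + 1) := h6 he
  have hc1 : 1 ≤ 2 ^ (N + 1) - e := by omega
  have htm := std_tm hB (2 ^ (N + 1) - e) hc1
  have hst := (hs N (2 ^ (N + 1) - e) h4 h8).1
  rw [hN1] at hst
  have hst' := th7c_st hs N e h3
  rw [hN2] at hst'
  refine ⟨2 ^ (N + 1) - e, by omega, h2, ?_⟩
  exact
    { tm := htm.1
      ne := htm.2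
      st := hst
      st' := hst'
      e1 := he
      e2 := he'
      ev := fun n hn => (ev_pos hB B.o hB.o_org _ n).trans (h7 n hn)
      mf := std_mkFar hB hs _ _ (by omega)
      pf := std_ptFar hB hs N _ _ h4 h8 (by omega)
      pm := std_ptMk hB hs N _ _ h4 h8 (fun i z p hp => by
        rw [hN1] at hp
        have h9 := hN3 i z p hp
        omega)
      ns := hns }

/-- `c = 2^(N+1) - e` for `N` large with `(r N).1 = q`, `(r (N+1)).1 = q'` and the tested register equal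
to `d`. -/
theorem std_D (hB : B.Ax c0) (hs : B.Spec r) (q q' : Fin m.nQ) (i : Fin m.k)
    (z p : Option (Fin m.nQ)) (hqi : m.prog q = Instr.test i z p) (d : ℕ)
    (hns : ns m q (d = 0) q')
    (hq : ∀ N, ∃ n ≥ N, (r n).1 = q ∧ (r (n + 1)).1 = q' ∧ (r n).2 i = d)
    (e Bd : ℕ) (he : 1 ≤ e) (he' : e + d ≤ C1 k + 1) :
    ∃ c ≥ Bd, (e + c) % 2 ^ (k + 1) = 0 ∧ B.HypD (B.S^[c] B.o) k e d q q' := by
  obtain ⟨N₀, h₀⟩ := th7c_num (k := k) (C1 k + 1) e (Bd + MF k + C1 k + k + 10) (by omega)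
  obtain ⟨N, hN, hN1, hN2, hN3⟩ := hq N₀
  obtain ⟨h1, h2, h3, h4, h5, h6, h7⟩ := h₀ N hN
  have h8 : 2 ^ (N + 1) - e < 2 ^ (N + 1) := h6 he
  have hc1 : 1 ≤ 2 ^ (N + 1) - e := by omega
  have htm := std_tm hB (2 ^ (N + 1) - e) hc1
  have hst := (hs N (2 ^ (N + 1) - e) h4 h8).1
  rw [hN1] at hst
  have hst' := th7c_st hs N e h3
  rw [hN2] at hst'
  obtain ⟨b, c, hb, hc, hpb, hpc, hib, hic, hbc⟩ :=
    std_dist hB hs N (2 ^ (N + 1) - e) h4 h8 i z p (by rw [hN1]; exact hqi)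
  have h9 : 2 ^ (N + 1) - (2 ^ (N + 1) - e) + (r N).2 i = e + d := by omega
  rw [h9] at hbc
  refine ⟨2 ^ (N + 1) - e, by omega, h2, ?_⟩
  exact
    { tm := htm.1
      ne := htm.2
      st := hst
      st' := hst'
      e1 := he
      ed := he'
      ev := fun n hn => (ev_pos hB B.o hB.o_org _ n).trans (h7 n hn)
      mf := std_mkFar hB hs _ _ (by omega)
      ex := ⟨b, c, i, z, p, hqi, hb, hc, hpb, hpc, hib, hic, hbc⟩
      ns := hns }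

end Pool.Agent.LIN.Tower
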