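import Pool.Agent.LIN.TH0
import Pool.Agent.LIN.TD3

/-! # [LIN-TH7d] block C: richness -/

namespace Pool.Agent.LIN.Tower

variable {m : Mach} {B : Tower m} {c0 : m.Config} {k : ℕ} {r : ℕ → m.Config}

/-- Richness: the new state. For a test state with value `d` of the tested register: `d = 0` needs
the zero branch (`ns`), `d > 0` the positive branch; the new state is determined by `Step`. -/
theorem rich_test (R : m.Run c0) (hr : m.Rich R.1) (q q' : Fin m.nQ) (i : Fin m.k)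
    (z p : Option (Fin m.nQ)) (hqi : m.prog q = Instr.test i z p) (d : ℕ)
    (hns : ns m q (d = 0) q') (N : ℕ) :
    ∃ n ≥ N, (R.1 n).1 = q ∧ (R.1 (n + 1)).1 = q' ∧ (R.1 n).2 i = d := by
  have h0 := (hr q).2
  rw [hqi] at h0
  have h0 : (z.isSome = true → ∀ N, ∃ n ≥ N, (R.1 n).1 = q ∧ (R.1 n).2 i = 0) ∧
    (p.isSome = true → ∀ d ≥ 1, ∀ N, ∃ n ≥ N, (R.1 n).1 = q ∧ (R.1 n).2 i = d) := h0
  have hs : ∀ n, (R.1 n).1 = q → ((R.1 n).2 i = 0 ∧ z = some (R.1 (n + 1)).1 ∧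
      (R.1 (n + 1)).2 = (R.1 n).2) ∨
      (0 < (R.1 n).2 i ∧ p = some (R.1 (n + 1)).1 ∧
        (R.1 (n + 1)).2 = Function.update (R.1 n).2 i ((R.1 n).2 i - 1)) := by
    intro n hn
    have h1 := R.2.2 n
    unfold Mach.Step at h1
    rw [hn, hqi] at h1
    exact h1
  unfold ns at hns
  rw [hqi] at hns
  have hns : (d = 0 ∧ z = some q') ∨ (¬ d = 0 ∧ p = some q') := hns
  rcases hns with ⟨hd, hz⟩ | ⟨hd, hp⟩
  · obtain ⟨n, hn, h1, h2⟩ := h0.1 (by rw [hz]; rfl) N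
    refine ⟨n, hn, h1, ?_, by rw [h2, hd]⟩
    rcases hs n h1 with ⟨-, h3, -⟩ | ⟨h3, -⟩
    · rw [hz] at h3
      exact (Option.some.inj h3).symm
    · omega
  · obtain ⟨n, hn, h1, h2⟩ := h0.2 (by rw [hp]; rfl) d (Nat.one_le_iff_ne_zero.2 hd) N
    refine ⟨n, hn, h1, ?_, h2⟩
    rcases hs n h1 with ⟨h3, -⟩ | ⟨-, h3, -⟩
    · omega
    · rw [hp] at h3
      exact (Option.some.inj h3).symm

/-- Other states. -/
theorem rich_other (R : m.Run c0) (hr : m.Rich R.1) (q q' : Fin m.nQ)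
    (hq : ∀ i z p, m.prog q ≠ Instr.test i z p) (hns : ns m q False q') (N : ℕ) :
    ∃ n ≥ N, (R.1 n).1 = q ∧ (R.1 (n + 1)).1 = q' := by
  have h0 := hr q
  unfold ns at hns
  cases hp : m.prog q with
  | test i z p => exact absurd hp (hq i z p)
  | inc i q₁ =>
    rw [hp] at hns
    have hns : q' = q₁ := hns
    obtain ⟨n, hn, h1⟩ := h0.1 N
    refine ⟨n, hn, h1, ?_⟩
    have h2 := R.2.2 n
    unfold Mach.Step at h2
    rw [h1, hp] at h2
    rw [hns]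
    exact h2.1
  | guess a b =>
    rw [hp] at hns
    have hns : q' = a ∨ q' = b := hns
    have h1 := h0.2
    rw [hp] at h1
    have h1 : (∀ N, ∃ n ≥ N, (R.1 n).1 = q ∧ (R.1 (n + 1)).1 = a) ∧
      (∀ N, ∃ n ≥ N, (R.1 n).1 = q ∧ (R.1 (n + 1)).1 = b) := h1
    rcases hns with rfl | rfl
    · exact h1.1 N
    · exact h1.2 N

end Pool.Agent.LIN.Tower
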