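import Pool.Agent.LIN.TH3
import Pool.Agent.LIN.TH4b
import Pool.Agent.LIN.TH5c
import Pool.Agent.LIN.TH5d
import Pool.Agent.LIN.TH6c
import Pool.Agent.LIN.TH7b
import Pool.Agent.LIN.TH7c
import Pool.Agent.LIN.TH7d

/-! # [LIN-TH8] block C: choice of a time -/

namespace Pool.Agent.LIN.Tower

variable {m : Mach} {A B : Tower m} {c0 : m.Config} {k : ℕ}

theorem th8_org (hA : A.Ax c0) (n : ℕ) (hn : 1 ≤ n) (x : A.T) : A.S^[n] x ≠ A.o := by
  obtain ⟨n', rfl⟩ := Nat.exists_eq_add_of_le' hn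
  intro h
  rw [Function.iterate_succ_apply'] at h
  exact hA.o_org _ h

theorem th8_far (hA : A.Ax c0) (x₀ x₁ : A.T) (M F : ℕ) (h01 : x₀ = A.S^[M] x₁)
    (hf : ∀ n ≤ F, x₁ ≠ A.S^[n] A.o) (n : ℕ) (hn : n ≤ F) : x₀ ≠ A.S^[n] A.o := by
  intro h
  rw [h01] at h
  rcases le_or_gt M n with h1 | h1
  · rw [S_iter_sub hA _ _ _ _ h1] at h
    exact hf (n - M) (by omega) h
  · have h2 := (S_iter_sub hA A.o x₁ n M h1.le).1 h.symm
    exact th8_org hA (M - n) (by omega) x₁ h2.symm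

theorem th8_rich (R : m.Run c0) (hr : m.Rich R.1) (q q' : Fin m.nQ) (hns : ns m q False q')
    (v : ℕ) (hv : 1 ≤ v) (N : ℕ) : ∃ n ≥ N, (R.1 n).1 = q ∧ (R.1 (n + 1)).1 = q' ∧
      ∀ i z p, m.prog q = Instr.test i z p → (R.1 n).2 i = v := by
  by_cases h : ∃ i z p, m.prog q = Instr.test i z p
  · obtain ⟨i, z, p, h⟩ := h
    have e : (v = 0) = False := propext ⟨fun h => by omega, fun h => h.elim⟩
    obtain ⟨n, hn, h1, h2, h3⟩ := rich_test R hr q q' i z p h v (by rw [e]; exact hns) N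
    refine ⟨n, hn, h1, h2, fun i' z' p' h' => ?_⟩
    rw [h] at h'
    injection h' with h4 h5 h6
    rw [← h4]
    exact h3
  · obtain ⟨n, hn, h1, h2⟩ := rich_other R hr q q' (fun i z p h' => h ⟨i, z, p, h'⟩) hns N
    exact ⟨n, hn, h1, h2, fun i z p h' => absurd ⟨i, z, p, h'⟩ h⟩

theorem th8_res (M e x c : ℕ) (hx : x < M) (h1 : (e + x) % M = 0) (h2 : (e + c) % M = 0) :
    x = c % M := by
  have hM : 0 < M := lt_of_le_of_lt (Nat.zero_le _) hx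
  refine res_unique M e x (c % M) hx (Nat.mod_lt _ hM) h1 ?_
  rw [Nat.add_mod_mod]
  exact h2

/-- `classify` (with `one_event` for the window of length `MF k + 2 + C1 k + 1` beginning with `x₁`).
Kind `a` with residue `ρ = rs (k + 1) x₀`: `std_A`, `real_A` on both sides, `chA_OK`. Kind `b`:
`x₀ = S^j d`, `rs (k + 1) d = 0` by `event_res` (with `e` such that `d = S^e x₁`) or `Ev_rs`, so
`rs (k + 1) x₀ = j % 2^(k+1)` (`rs_S_iter`); `std_B`, `real_B`. Kinds `c`, `d`: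
`(e + rs (k + 1) x₀) % 2^(k+1) = 0` by `event_res`; `rich_test`, `rich_other` give the hypotheses of
`std_C` (for a test state with the value `C1 k + 1`), `std_D`; `res_unique`, `rs_pos`. The bound `Bd`
is given by `exists_farR` for `f c = S^c o`. -/
theorem time_choice (hA : A.Ax c0) (hB : B.Ax c0) (R : m.Run c0) (hr : m.Rich R.1)
    (hs : B.Spec R.1) (K : ℕ) (l : List ((A.T ⊕ A.F) × (B.T ⊕ B.F)))
    (ho : (Sum.inl A.o, Sum.inl B.o) ∈ l) (x₀ x₁ : A.T) (hx : A.Tm x₁)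
    (h01 : x₀ = A.S^[MF k + 2] x₁)
    (hf : ∀ n ≤ MF k + 2 + C1 k + 1 + 2 ^ (k + 1), x₁ ≠ A.S^[n] A.o)
    (hfar : A.FarL B K l (Sum.inl x₀)) :
    ∃ C ch β x₀' β', A.TimePair B K k C l x₀ x₀' ch β β' := by
  have hh : A.h x₁ = A.o := hx
  have hreg : ∀ i j, i ≤ MF k + 2 + C1 k + 1 → j ≤ MF k + 2 + C1 k + 1 →
      A.Ev (A.S^[i] x₁) → A.Ev (A.S^[j] x₁) → i = j := by
    intro i j hi hj h1 h2
    refine one_event hA x₁ (MF k + 2 + C1 k + 1) (fun n hn => ?_) i j hi hj h1 h2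
    rw [hh]
    exact hf n (hn.trans (Nat.le_add_right _ _))
  have hne : x₁ ≠ A.o := hf 0 (Nat.zero_le _)
  have hfar0 : ∀ n ≤ MF k + 2 + C1 k + 1 + 2 ^ (k + 1), x₀ ≠ A.S^[n] A.o :=
    fun n hn => th8_far hA x₀ x₁ (MF k + 2) _ h01 hf n hn
  have hh0 : A.h x₀ = A.o := by
    rw [h01, h_S_iter hA, hh]
  have hinj : Function.Injective fun c => (Sum.inl (B.S^[c] B.o) : B.T ⊕ B.F) := by
    intro a b hab
    exact (S_iter_inj hB B.o a b).1 (Sum.inl_injective hab)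
  obtain ⟨Bd, hBd⟩ := exists_farR (A := A) (B := B) K l _ hinj
  have hlt := rs_lt A (k + 1) x₀
  have hev0 : ∀ e, A.Ev (A.S^[e] x₀) → (e + A.rs (k + 1) x₀) % 2 ^ (k + 1) = 0 := by
    intro e he
    refine event_res hA x₀ (k + 1) e (fun n hn => ?_) he
    rw [hh0]
    exact hfar0 n (by omega)
  rcases classify hA hx hne h01 hreg with ⟨q, h⟩ | ⟨j, q, h⟩ | ⟨e, q, q', h⟩ | ⟨e, d, q, q', h⟩
  · obtain ⟨c, hc, hcr, hc'⟩ := std_A hB hs q (hr q).1 (A.rs (k + 1) x₀) Bd hlt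
    obtain ⟨β, hβ⟩ := real_A hA q h
    obtain ⟨β', hβ'⟩ := real_A hB q hc'
    exact ⟨_, _, β, _, β', ho, hβ, hβ', chA_OK q, by rw [rs_pos hB B.o hB.o_org, hcr], hfar,
      hBd c hc⟩
  · obtain ⟨c, hc, hcr, hc'⟩ := std_B hB hs q (hr q).1 j Bd h.le
    obtain ⟨β, hβ⟩ := real_B hA q j h
    obtain ⟨β', hβ'⟩ := real_B hB q j hc'
    refine ⟨_, _, β, _, β', ho, hβ, hβ', chB_OK q j h.le, ?_, hfar, hBd c hc⟩
    obtain ⟨d, hdo, hdE, hdj, _⟩ := h.ex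
    have hhd : A.h d = A.o := by
      rw [← h_S_iter hA j d, hdj, hh0]
    have hd0 : A.rs (k + 1) d = 0 := by
      refine Ev_rs hA (k + 1) d hdE fun n hn h1 => ?_
      rw [hhd] at h1
      have h2 : x₀ = A.S^[j + n] A.o := by
        rw [Function.iterate_add_apply, ← h1, hdj]
      have h3 := h.le
      have h4 : ZP k ≤ MF k + 2 + C1 k + 1 := by
        unfold ZP MF
        omega
      exact hfar0 (j + n) (by omega) h2
    rw [rs_pos hB B.o hB.o_org, hcr, ← hdj, rs_S_iter hA, hd0, add_zero]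
  · obtain ⟨c, hc, hcr, hc'⟩ := std_C hB hs q q' h.ns
      (th8_rich R hr q q' h.ns (C1 k + 1) (by omega)) e Bd h.e1 h.e2
    obtain ⟨β, hβ⟩ := real_C hA q q' e h
    obtain ⟨β', hβ'⟩ := real_C hB q q' e hc'
    refine ⟨_, _, β, _, β', ho, hβ, hβ', chC_OK q q' e h.e1, ?_, hfar, hBd c hc⟩
    rw [rs_pos hB B.o hB.o_org]
    exact th8_res _ e _ c hlt (hev0 e ((h.ev e h.e2).2 rfl)) hcr
  · obtain ⟨b, c', i, z, p, hqi, _⟩ := h.ex
    obtain ⟨c, hc, hcr, hc'⟩ := std_D hB hs q q' i z p hqi d h.ns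
      (rich_test R hr q q' i z p hqi d h.ns) e Bd h.e1 h.ed
    obtain ⟨β, hβ⟩ := real_D hA q q' e d h
    obtain ⟨β', hβ'⟩ := real_D hB q q' e d hc'
    refine ⟨_, _, β, _, β', ho, hβ, hβ', chD_OK q q' e d h.e1 h.ed, ?_, hfar, hBd c hc⟩
    rw [rs_pos hB B.o hB.o_org]
    have h1 := h.ed
    exact th8_res _ e _ c hlt (hev0 e ((h.ev e (by omega)).2 rfl)) hcr

end Pool.Agent.LIN.Tower
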