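import Pool.Agent.LIN.TH8

/-! # [LIN-TH9] block C: extension by a time -/

namespace Pool.Agent.LIN.Tower

variable {m : Mach} {A B : Tower m} {c0 : m.Config} {k : ℕ}

/-- A time that is not one of the first `n` times is `S^n` of a time. -/
theorem time_back (hA : A.Ax c0) (x : A.T) (hx : A.Tm x) (n : ℕ)
    (h : ∀ j < n, x ≠ A.S^[j] A.o) : ∃ z, A.Tm z ∧ A.S^[n] z = x := by
  induction n with
  | zero => exact ⟨x, hx, rfl⟩
  | succ n ih =>
    obtain ⟨z, hz, hzx⟩ := ih (fun j hj => h j (by omega))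
    have hno : ¬ A.Org z := by
      intro ho
      have h1 : A.h z = z := hA.org_h z ho
      have h2 : A.h z = A.o := hz
      have h3 : z = A.o := h1.symm.trans h2
      exact h n (by omega) (by rw [← hzx, h3])
    obtain ⟨z', hz'⟩ := exists_pred z hno
    refine ⟨z', ?_, ?_⟩
    · have h4 : A.h (A.S z') = A.h z' := hA.h_S z'
      rw [hz'] at h4
      exact h4.symm.trans hz
    · rw [Function.iterate_succ_apply, hz', hzx]

/-- The word `s^n` at an element of `T`. -/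
theorem act_s_iter (A : Tower m) (n : ℕ) (w : List (Letter m)) (u : A.T ⊕ A.F) (y : A.T)
    (h : A.act w u = Sum.inl y) :
    A.act (List.replicate n Letter.s ++ w) u = Sum.inl (A.S^[n] y) := by
  rw [act_append, h, act_replicate, act1_s_inl]

/-- Let `K₀ = RN 0 k + WW k + 4 k + 10` and `K = K₀ + j0 k + MF k + C1 k + 2^(k+1) + k + 20`. If `u` is a
word of length `<= K - k` at an element of `l`: `Loc.near`. Otherwise `u` is not `S^n o` for
`n <= K - k` (the word `s^n` at `o`), so `u = S^(j0 k) x₀`, `x₀ = S^(MF k + 2) x₁`; `time_choice`,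
`time_core`. -/
theorem time_ext (hA : A.Ax c0) (hB : B.Ax c0) (R : m.Run c0) (hr : m.Rich R.1)
    (hs : B.Spec R.1) (k : ℕ) :
    ∃ K, ∀ l, A.Loc B K l → (Sum.inl A.o, Sum.inl B.o) ∈ l → ∀ u : A.T, A.Tm u →
      ∃ u', A.Loc B k ((Sum.inl u, u') :: l) := by
  obtain ⟨r, hr'⟩ : ∃ r, r = RN 0 k := ⟨_, rfl⟩
  obtain ⟨P, hP⟩ : ∃ P, P = 2 ^ (k + 1) := ⟨_, rfl⟩
  obtain ⟨K₀, hK₀⟩ : ∃ K₀, K₀ = r + WW k + 4 * k + 10 := ⟨_, rfl⟩
  obtain ⟨J, hJ⟩ : ∃ J, J = K₀ + j0 k + 2 * MF k + C1 k + P + 20 := ⟨_, rfl⟩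
  refine ⟨k + J, ?_⟩
  intro l hl ho u hu
  by_cases hnear : ∃ b ∈ l, ∃ w : List (Letter m), w.length ≤ J ∧ A.act w b.1 = Sum.inl u
  · obtain ⟨b, hb, w, hw, hwu⟩ := hnear
    refine ⟨B.act w b.2, ?_⟩
    rw [← hwu]
    exact Loc.near hl b hb w hw
  · push Not at hnear
    have hno : ∀ n ≤ J, u ≠ A.S^[n] A.o := by
      intro n hn he
      refine hnear _ ho (List.replicate n Letter.s ++ []) (by simpa using hn) ?_
      rw [he]
      exact act_s_iter A n [] _ _ rfl
    obtain ⟨x₁, hx₁, hux⟩ := time_back hA u hu (j0 k + (MF k + 2))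
      (fun j hj => hno j (by omega))
    have hux' : A.S^[j0 k] (A.S^[MF k + 2] x₁) = u := by
      rw [← Function.iterate_add_apply]; exact hux
    have hf : ∀ n ≤ MF k + 2 + C1 k + 1 + 2 ^ (k + 1), x₁ ≠ A.S^[n] A.o := by
      intro n hn he
      rw [← hP] at hn
      refine hno (j0 k + (MF k + 2) + n) (by omega) ?_
      rw [Function.iterate_add_apply, ← he, hux]
    have hfar : A.FarL B K₀ l (Sum.inl (A.S^[MF k + 2] x₁)) := by
      intro b hb w hw he
      refine hnear b hb (List.replicate (j0 k) Letter.s ++ w) ?_ ?_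
      · rw [List.length_append, List.length_replicate]
        omega
      · rw [← hux']
        exact act_s_iter A (j0 k) w _ _ he
    obtain ⟨C, ch, β, x₀', β', hp⟩ := time_choice (k := k) hA hB R hr hs K₀ l ho
      (A.S^[MF k + 2] x₁) x₁ hx₁ rfl hf hfar
    refine ⟨Sum.inl (B.S^[j0 k] x₀'), ?_⟩
    have h1 := time_core hA hB (Loc.mono hl (by omega : K₀ ≤ k + J)) hp (by rw [← hr', hK₀])
    rw [hux'] at h1
    exact h1

end Pool.Agent.LIN.Tower
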