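import Pool.Agent.LIN.TH0
import Pool.Agent.LIN.TD3

/-! # [LIN-TI1] block C: the standard parts of two towers with the same run: words -/

namespace Pool.Agent.LIN.Tower

variable {m : Mach} {A B : Tower m} {c0 : m.Config} {r : ℕ → m.Config}

/-- Corresponding standard elements. -/
def CB (A B : Tower m) (y : A.T ⊕ A.F) (y' : B.T ⊕ B.F) : Prop :=
  (∃ j c, y = Sum.inl (A.S^[c] (A.p^[j] A.o)) ∧ y' = Sum.inl (B.S^[c] (B.p^[j] B.o))) ∨
  ∃ x c a a', A.pi a = A.o ∧ A.Fst a ∧ B.pi a' = B.o ∧ B.Fst a' ∧ A.ix a = B.ix a' ∧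
    y = Sum.inr (A.V^[x] (A.nxt^[c] a)) ∧ y' = Sum.inr (B.V^[x] (B.nxt^[c] a'))

theorem ti1_tm (hA : A.Ax c0) (x : ℕ) : A.Tm (A.S^[x] A.o) := by
  show A.h (A.S^[x] A.o) = A.o
  rw [h_S_iter hA, hA.org_h _ hA.o_org]

theorem ti1_ntm (hA : A.Ax c0) (j c : ℕ) : ¬ A.Tm (A.S^[c] (A.p^[j + 1] A.o)) := by
  intro h
  have h' : A.h (A.S^[c] (A.p^[j + 1] A.o)) = A.o := h
  rw [h_S_iter hA, Function.iterate_succ_apply'] at h'
  exact h_p_ne_o hA _ h'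

theorem ti1_ne (hA : A.Ax c0) (x : ℕ) (hx : 1 ≤ x) : A.S^[x] A.o ≠ A.o := S_iter_ne hA _ _ hx

/-- an element of the row number `x` in position `c` -/
theorem ti1_row (hA : A.Ax c0) (x c : ℕ) (a : A.F) (ha : A.Fst a) (hpi : A.pi a = A.o)
    (b : A.F) (hb : A.pi b = A.S^[x] A.o) (hi : A.ix b = A.ix a)
    (h : ∃ a', A.Fst a' ∧ A.nxt^[c] a' = b) : b = A.V^[x] (A.nxt^[c] a) := by
  obtain ⟨a', ha', hab⟩ := h
  have h1 : A.pi a' = A.S^[x] A.o := by rw [← hb, ← hab, pi_nxt_iter hA]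
  have h2 : A.ix a' = A.ix a := by rw [← hi, ← hab, ix_nxt_iter hA]
  obtain ⟨d, hd, hdo, hdi⟩ := exists_V_iter hA a' A.o x h1
  have h3 : A.Fst d := by
    rw [← hd, Fst_V_iter hA] at ha'
    exact ha'
  have h4 : d = a := fst_unique hA d a h3 ha (hdo.trans hpi.symm) (hdi.trans h2)
  rw [← hab, ← hd, h4, V_nxt_iter hA]

/-- The mark of the row `(S^x o, i)` for `1 <= x` in phase `n`, from `Spec`. -/
theorem std_mkU (hA : A.Ax c0) (hs : A.Spec r) (n x : ℕ) (h1 : 2 ^ n ≤ x) (h2 : x < 2 ^ (n + 1))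
    (a : A.F) (ha : A.Fst a) (hpi : A.pi a = A.o) :
    A.mkU (A.ix a) (A.S^[x] A.o) =
      Sum.inr (A.V^[x] (A.nxt^[x + (r n).2 (A.ix a)] a)) := by
  have hx : 1 ≤ x := Nat.one_le_two_pow.trans h1
  obtain ⟨b, hb, hb1, hb2, hb3⟩ := mkU_tm hA (A.ix a) (A.S^[x] A.o) (ti1_tm hA x) (ti1_ne hA x hx)
  rw [hb]
  have h3 := (hs n x h1 h2).2.1 b hb1 hb3
  rw [hb2] at h3
  rw [ti1_row hA x _ a ha hpi b hb1 hb2 h3]

theorem std_ptU (hA : A.Ax c0) (hs : A.Spec r) (n x : ℕ) (h1 : 2 ^ n ≤ x) (h2 : x < 2 ^ (n + 1))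
    (a : A.F) (ha : A.Fst a) (hpi : A.pi a = A.o) (z p : Option (Fin m.nQ))
    (hq : m.prog (r n).1 = Instr.test (A.ix a) z p) :
    A.ptU (A.S^[x] A.o) = Sum.inr (A.V^[x] (A.nxt^[2 * (x - 2 ^ n)] a)) := by
  obtain ⟨b, hb, hb1, hb2, hb3⟩ := ptU_test hA (A.S^[x] A.o) (r n).1 (A.ix a) z p
    (hs n x h1 h2).1 hq
  rw [hb]
  have h3 := (hs n x h1 h2).2.2 b hb1 hb3
  rw [ti1_row hA x _ a ha hpi b hb1 hb2 h3]

theorem std_ptU_else (hA : A.Ax c0) (hs : A.Spec r) (n x : ℕ) (h1 : 2 ^ n ≤ x)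
    (h2 : x < 2 ^ (n + 1)) (hq : ∀ i z p, m.prog (r n).1 ≠ Instr.test i z p) :
    A.ptU (A.S^[x] A.o) = Sum.inl (A.S^[x] A.o) := by
  apply ptU_else hA
  intro q i z p hst
  rw [hA.st_uniq _ _ _ hst (hs n x h1 h2).1]
  exact hq i z p

/-- codes of standard elements -/
def ti1_V (A : Tower m) : (ℕ × ℕ) ⊕ (ℕ × ℕ × Fin m.k) → A.T ⊕ A.F → Prop
  | Sum.inl s, y => y = Sum.inl (A.S^[s.2] (A.p^[s.1] A.o))
  | Sum.inr s, y => ∃ a, A.pi a = A.o ∧ A.Fst a ∧ A.ix a = s.2.2 ∧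
      y = Sum.inr (A.V^[s.1] (A.nxt^[s.2.1] a))

theorem ti1_log (x : ℕ) (hx : 1 ≤ x) : ∃ n, 2 ^ n ≤ x ∧ x < 2 ^ (n + 1) :=
  ⟨Nat.log 2 x, Nat.pow_log_le_self 2 (by omega), Nat.lt_pow_succ_log_self (by norm_num) x⟩

theorem ti1_org (hA : A.Ax c0) (j : ℕ) : A.Org (A.p^[j] A.o) := org_p_iter hA j _ hA.o_org

/-- the letters on the tower -/
theorem ti1_stepl (c0 : m.Config) (r : ℕ → m.Config) (j c : ℕ) (a : Letter m) : ∃ t,
    ∀ A : Tower m, A.Ax c0 → A.Spec r →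
      ti1_V A t (A.act1 a (Sum.inl (A.S^[c] (A.p^[j] A.o)))) := by
  cases a with
  | s =>
    refine ⟨Sum.inl (j, c + 1), fun A hA hs => ?_⟩
    show Sum.inl (A.S (A.S^[c] (A.p^[j] A.o))) = Sum.inl (A.S^[c + 1] (A.p^[j] A.o))
    rw [Function.iterate_succ_apply']
  | s' =>
    refine ⟨Sum.inl (j, c - 1), fun A hA hs => ?_⟩
    show Sum.inl (A.sPre (A.S^[c] (A.p^[j] A.o))) = Sum.inl (A.S^[c - 1] (A.p^[j] A.o))
    cases c with
    | zero => exact congrArg Sum.inl (sPre_org _ (ti1_org hA j))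
    | succ c =>
      rw [Function.iterate_succ_apply', sPre_S hA]
      rfl
  | p =>
    refine ⟨Sum.inl (j + 1, c / 2), fun A hA hs => ?_⟩
    show Sum.inl (A.p (A.S^[c] (A.p^[j] A.o))) = Sum.inl (A.S^[c / 2] (A.p^[j + 1] A.o))
    rw [p_S_iter hA, rs_org hA _ _ (ti1_org hA j), Function.iterate_succ_apply', add_zero]
  | l =>
    cases j with
    | zero =>
      refine ⟨Sum.inl (0, c), fun A hA hs => ?_⟩
      exact congrArg Sum.inl (lft_tm hA _ (ti1_tm hA c))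
    | succ j =>
      refine ⟨Sum.inl (j, 2 * c), fun A hA hs => ?_⟩
      show Sum.inl (A.lft (A.S^[c] (A.p^[j + 1] A.o))) = Sum.inl (A.S^[2 * c] (A.p^[j] A.o))
      have h0 := rs_org hA 1 _ (ti1_org hA j)
      rw [Function.iterate_succ_apply' A.p, lft_S_iter_p hA _ _ (by rw [h0]; omega), h0]
      rfl
  | h =>
    refine ⟨Sum.inl (j, 0), fun A hA hs => ?_⟩
    show Sum.inl (A.h (A.S^[c] (A.p^[j] A.o))) = Sum.inl (A.p^[j] A.o)
    rw [h_S_iter hA, hA.org_h _ (ti1_org hA j)]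
  | n => exact ⟨Sum.inl (j, c), fun A hA hs => rfl⟩
  | n' => exact ⟨Sum.inl (j, c), fun A hA hs => rfl⟩
  | t =>
    cases j with
    | succ j =>
      refine ⟨Sum.inl (j + 1, c), fun A hA hs => ?_⟩
      refine ptU_else hA _ fun q i z p hst => ?_
      exact absurd (hA.st_tm _ _ hst).1 (ti1_ntm hA j c)
    | zero =>
      rcases Nat.eq_zero_or_pos c with hc | hc
      · subst hc
        refine ⟨Sum.inl (0, 0), fun A hA hs => ?_⟩
        refine ptU_else hA _ fun q i z p hst => ?_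
        exact absurd rfl (hA.st_tm _ _ hst).2
      · obtain ⟨n, h1, h2⟩ := ti1_log c hc
        by_cases hq : ∃ i z p, m.prog (r n).1 = Instr.test i z p
        · obtain ⟨i, z, p, hq⟩ := hq
          refine ⟨Sum.inr (c, 2 * (c - 2 ^ n), i), fun A hA hs => ?_⟩
          obtain ⟨b, hb1, hb2, hb3⟩ := hA.row_first A.o i (ti1_tm hA 0)
          subst hb2
          exact ⟨b, hb1, hb3, rfl, std_ptU hA hs n c h1 h2 b hb3 hb1 z p hq⟩
        · refine ⟨Sum.inl (0, c), fun A hA hs => ?_⟩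
          exact std_ptU_else hA hs n c h1 h2 fun i z p e => hq ⟨i, z, p, e⟩
  | f i =>
    cases j with
    | succ j =>
      refine ⟨Sum.inl (j + 1, c), fun A hA hs => ?_⟩
      exact fstU_ntm hA i _ (ti1_ntm hA j c)
    | zero =>
      refine ⟨Sum.inr (c, 0, i), fun A hA hs => ?_⟩
      obtain ⟨b, hb1, hb2, hb3⟩ := hA.row_first A.o i (ti1_tm hA 0)
      refine ⟨b, hb1, hb3, hb2, ?_⟩
      have h := fstU_eq hA (A.V^[c] b) ((Fst_V_iter hA c b).2 hb3)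
      rw [ix_V_iter hA, pi_V_iter hA, hb2, hb1] at h
      exact h
  | k i =>
    cases j with
    | succ j =>
      refine ⟨Sum.inl (j + 1, c), fun A hA hs => ?_⟩
      exact mkU_else hA i _ fun h => ti1_ntm hA j c h.1
    | zero =>
      rcases Nat.eq_zero_or_pos c with hc | hc
      · subst hc
        refine ⟨Sum.inl (0, 0), fun A hA hs => ?_⟩
        exact mkU_else hA i _ fun h => h.2 rfl
      · obtain ⟨n, h1, h2⟩ := ti1_log c hc
        refine ⟨Sum.inr (c, c + (r n).2 i, i), fun A hA hs => ?_⟩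
        obtain ⟨b, hb1, hb2, hb3⟩ := hA.row_first A.o i (ti1_tm hA 0)
        subst hb2
        exact ⟨b, hb1, hb3, rfl, std_mkU hA hs n c h1 h2 b hb3 hb1⟩

/-- the letters on the rows -/
theorem ti1_stepr (c0 : m.Config) (r : ℕ → m.Config) (x c : ℕ) (i : Fin m.k) (a : Letter m) : ∃ t,
    ∀ A : Tower m, A.Ax c0 → A.Spec r → ∀ b, A.pi b = A.o → A.Fst b → A.ix b = i →
      ti1_V A t (A.act1 a (Sum.inr (A.V^[x] (A.nxt^[c] b)))) := by
  cases a with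
  | s =>
    refine ⟨Sum.inr (x + 1, c, i), fun A hA hs b h1 h2 h3 => ⟨b, h1, h2, h3, ?_⟩⟩
    show Sum.inr (A.V (A.V^[x] (A.nxt^[c] b))) = Sum.inr (A.V^[x + 1] (A.nxt^[c] b))
    rw [Function.iterate_succ_apply' A.V]
  | s' =>
    refine ⟨Sum.inr (x - 1, c, i), fun A hA hs b h1 h2 h3 => ⟨b, h1, h2, h3, ?_⟩⟩
    show Sum.inr (A.vPre (A.V^[x] (A.nxt^[c] b))) = Sum.inr (A.V^[x - 1] (A.nxt^[c] b))
    cases x with
    | zero =>
      refine congrArg Sum.inr (vPre_o hA _ ?_)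
      show A.pi (A.nxt^[c] b) = A.o
      rw [pi_nxt_iter hA, h1]
    | succ x =>
      rw [Function.iterate_succ_apply' A.V, vPre_V hA]
      rfl
  | p => exact ⟨Sum.inr (x, c, i), fun A hA hs b h1 h2 h3 => ⟨b, h1, h2, h3, rfl⟩⟩
  | l => exact ⟨Sum.inr (x, c, i), fun A hA hs b h1 h2 h3 => ⟨b, h1, h2, h3, rfl⟩⟩
  | t => exact ⟨Sum.inr (x, c, i), fun A hA hs b h1 h2 h3 => ⟨b, h1, h2, h3, rfl⟩⟩
  | f i' => exact ⟨Sum.inr (x, c, i), fun A hA hs b h1 h2 h3 => ⟨b, h1, h2, h3, rfl⟩⟩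
  | k i' => exact ⟨Sum.inr (x, c, i), fun A hA hs b h1 h2 h3 => ⟨b, h1, h2, h3, rfl⟩⟩
  | h =>
    refine ⟨Sum.inl (0, x), fun A hA hs b h1 h2 h3 => ?_⟩
    show Sum.inl (A.pi (A.V^[x] (A.nxt^[c] b))) = Sum.inl (A.S^[x] A.o)
    rw [pi_V_iter hA, pi_nxt_iter hA, h1]
  | n =>
    refine ⟨Sum.inr (x, c + 1, i), fun A hA hs b h1 h2 h3 => ⟨b, h1, h2, h3, ?_⟩⟩
    show Sum.inr (A.nxt (A.V^[x] (A.nxt^[c] b))) = Sum.inr (A.V^[x] (A.nxt^[c + 1] b))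
    rw [V_nxt_iter hA, V_nxt_iter hA, Function.iterate_succ_apply' A.nxt]
  | n' =>
    refine ⟨Sum.inr (x, c - 1, i), fun A hA hs b h1 h2 h3 => ⟨b, h1, h2, h3, ?_⟩⟩
    show Sum.inr (A.prv (A.V^[x] (A.nxt^[c] b))) = Sum.inr (A.V^[x] (A.nxt^[c - 1] b))
    cases c with
    | zero => exact congrArg Sum.inr (prv_fst _ ((Fst_V_iter hA x b).2 h2))
    | succ c =>
      rw [V_nxt_iter hA, V_nxt_iter hA, Function.iterate_succ_apply' A.nxt, prv_nxt hA]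
      rfl

theorem ti1_step (c0 : m.Config) (r : ℕ → m.Config) (t : (ℕ × ℕ) ⊕ (ℕ × ℕ × Fin m.k))
    (a : Letter m) : ∃ t', ∀ A : Tower m, A.Ax c0 → A.Spec r → ∀ y, ti1_V A t y →
      ti1_V A t' (A.act1 a y) := by
  rcases t with ⟨j, c⟩ | ⟨x, c, i⟩
  · obtain ⟨t', ht⟩ := ti1_stepl c0 r j c a
    refine ⟨t', fun A hA hs y hy => ?_⟩
    have hy' : y = Sum.inl (A.S^[c] (A.p^[j] A.o)) := hy
    rw [hy']
    exact ht A hA hs
  · obtain ⟨t', ht⟩ := ti1_stepr c0 r x c i a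
    refine ⟨t', fun A hA hs y hy => ?_⟩
    obtain ⟨b, h1, h2, h3, h4⟩ := hy
    rw [h4]
    exact ht A hA hs b h1 h2 h3

/-- Letter by letter. On `(j, c)`: `s`: `(j, c+1)`; `s'`: `(j, c-1)` or identity for `c = 0`; `p`:
`(j+1, c/2)`; `l`: identity for `j = 0`, `(j-1, 2c)` otherwise (`lft_S_iter_p`, residue zero); `h`:
`(j, 0)`; `n, n'`: identity; `f, k, t`: identity for `j > 0` (not times), for `j = 0` the elements of
`F` from `fstU_tm`, `std_mkU`, `std_ptU` (over `o` there is neither mark nor pointer). On `(x, c, a)`: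
`s`: `x + 1`; `s'`: `x - 1` or identity for `x = 0` (`vPre_o`); `n`: `c + 1`; `n'`: `c - 1` or identity;
`h`: `(0, x)`; the others: identity. -/
theorem base_step (hA : A.Ax c0) (hB : B.Ax c0) (hs : A.Spec r) (hs' : B.Spec r)
    {y : A.T ⊕ A.F} {y' : B.T ⊕ B.F} (h : A.CB B y y') (a : Letter m) :
    A.CB B (A.act1 a y) (B.act1 a y') := by
  have key : ∃ t, ti1_V A t y ∧ ti1_V B t y' := by
    rcases h with ⟨j, c, h1, h2⟩ | ⟨x, c, a, a', h1, h2, h3, h4, h5, h6, h7⟩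
    · exact ⟨Sum.inl (j, c), h1, h2⟩
    · exact ⟨Sum.inr (x, c, A.ix a), ⟨a, h1, h2, rfl, h6⟩, ⟨a', h3, h4, h5.symm, h7⟩⟩
  obtain ⟨t, h1, h2⟩ := key
  obtain ⟨t', ht⟩ := ti1_step c0 r t a
  have h3 := ht A hA hs y h1
  have h4 := ht B hB hs' y' h2
  rcases t' with ⟨j, c⟩ | ⟨x, c, i⟩
  · exact Or.inl ⟨j, c, h3, h4⟩
  · obtain ⟨b, e1, e2, e3, e4⟩ := h3
    obtain ⟨b', f1, f2, f3, f4⟩ := h4
    exact Or.inr ⟨x, c, b, b', e1, e2, f1, f2, e3.trans f3.symm, e4, f4⟩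

end Pool.Agent.LIN.Tower
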