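import Pool.Agent.LIN.TI1

/-! # [LIN-TI2] block C: the standard parts of two towers with the same run: atomic statements -/

namespace Pool.Agent.LIN.Tower

variable {m : Mach} {A B : Tower m} {c0 : m.Config} {r : ℕ → m.Config}

theorem ti2_org (hA : A.Ax c0) (j : ℕ) : A.Org (A.p^[j] A.o) :=
  org_p_iter hA j A.o hA.o_org

/-- phases -/
theorem ti2_phase (x : ℕ) (h : x ≠ 0) : ∃ n, 2 ^ n ≤ x ∧ x < 2 ^ (n + 1) :=
  ⟨Nat.log 2 x, Nat.pow_log_le_self 2 h, Nat.lt_pow_succ_log_self (by norm_num) x⟩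

theorem ti2_st (hA : A.Ax c0) (hs : A.Spec r) (j c : ℕ) (q : Fin m.nQ) :
    A.st (A.S^[c] (A.p^[j] A.o)) q ↔
      j = 0 ∧ ∃ n, 2 ^ n ≤ c ∧ c < 2 ^ (n + 1) ∧ q = (r n).1 := by
  constructor
  · intro h
    obtain ⟨h1, h2⟩ := hA.st_tm _ _ h
    have hj : j = 0 := by
      have h3 : A.h (A.S^[c] (A.p^[j] A.o)) = A.o := h1
      rw [h_S_iter hA, h_p_iter hA, (org_iff hA A.o).1 hA.o_org] at h3
      have h4 : A.p^[j] A.o = A.p^[0] A.o := h3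
      exact (p_iter_org_inj hA A.o hA.o_org j 0).1 h4
    subst hj
    have hc : c ≠ 0 := by
      rintro rfl
      exact h2 rfl
    obtain ⟨n, hn1, hn2⟩ := ti2_phase c hc
    exact ⟨rfl, n, hn1, hn2, hA.st_uniq _ _ _ h (hs n c hn1 hn2).1⟩
  · rintro ⟨rfl, n, hn1, hn2, rfl⟩
    exact (hs n c hn1 hn2).1

/-- `T` true; `L`: `c` even; `E`: `Ev_pow`; `q`: only for `j = 0`, `c >= 1`, the state `(r n).1` of the
phase `n` of `c`. -/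
theorem base_prT (hA : A.Ax c0) (hB : B.Ax c0) (hs : A.Spec r) (hs' : B.Spec r) (j c : ℕ)
    (s : PSym m) : A.Pr s (Sum.inl (A.S^[c] (A.p^[j] A.o))) ↔
      B.Pr s (Sum.inl (B.S^[c] (B.p^[j] B.o))) := by
  cases s with
  | T => exact Iff.rfl
  | L =>
    show A.Lf _ ↔ B.Lf _
    rw [Lf_S_iter hA, Lf_S_iter hB]
    have h1 := hA.Lf_org _ (ti2_org hA j)
    have h2 := hB.Lf_org _ (ti2_org hB j)
    simp only [h1, h2]
  | E =>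
    show A.Ev _ ↔ B.Ev _
    rw [Ev_pow hA _ (ti2_org hA j), Ev_pow hB _ (ti2_org hB j)]
  | M => exact Iff.rfl
  | P => exact Iff.rfl
  | q q =>
    show A.st _ q ↔ B.st _ q
    rw [ti2_st hA hs, ti2_st hB hs']
  | i i => exact Iff.rfl

theorem ti2_pi (hA : A.Ax c0) (x c : ℕ) (a : A.F) (ha : A.pi a = A.o) :
    A.pi (A.V^[x] (A.nxt^[c] a)) = A.S^[x] A.o := by
  rw [pi_V_iter hA, pi_nxt_iter hA, ha]

theorem ti2_ix (hA : A.Ax c0) (x c : ℕ) (a : A.F) :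
    A.ix (A.V^[x] (A.nxt^[c] a)) = A.ix a := by
  rw [ix_V_iter hA, ix_nxt_iter hA]

theorem ti2_S_ne (hA : A.Ax c0) (x : ℕ) (h : x ≠ 0) : A.S^[x] A.o ≠ A.o := by
  intro h1
  have h2 : A.S^[x] A.o = A.S^[0] A.o := h1
  exact h ((S_iter_inj hA A.o x 0).1 h2)

theorem ti2_tm (hA : A.Ax c0) (x : ℕ) : A.Tm (A.S^[x] A.o) := by
  show A.h _ = A.o
  rw [h_S_iter hA]
  exact (org_iff hA A.o).1 hA.o_org

theorem ti2_mk (hA : A.Ax c0) (hs : A.Spec r) (x c : ℕ) (a : A.F) (ha : A.pi a = A.o)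
    (hf : A.Fst a) : A.Mk (A.V^[x] (A.nxt^[c] a)) ↔
      ∃ n, 2 ^ n ≤ x ∧ x < 2 ^ (n + 1) ∧ c = x + (r n).2 (A.ix a) := by
  constructor
  · intro h
    have hx : x ≠ 0 := by
      rintro rfl
      exact hA.mk_o _ h (ti2_pi hA 0 c a ha)
    obtain ⟨n, hn1, hn2⟩ := ti2_phase x hx
    refine ⟨n, hn1, hn2, ?_⟩
    have h1 := std_mkU hA hs n x hn1 hn2 a hf ha
    have h2 := mkU_eq hA _ h
    rw [ti2_pi hA x c a ha, ti2_ix hA, h1] at h2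
    have h3 := Sum.inr.inj h2
    rw [V_iter_cancel hA, nxt_iter_inj hA] at h3
    exact h3.symm
  · rintro ⟨n, hn1, hn2, rfl⟩
    have hx : x ≠ 0 := by
      rintro rfl
      exact absurd hn1 (by simp)
    obtain ⟨b, hb, -, -, hb2⟩ := mkU_tm hA (A.ix a) (A.S^[x] A.o) (ti2_tm hA x)
      (ti2_S_ne hA x hx)
    rw [std_mkU hA hs n x hn1 hn2 a hf ha] at hb
    rw [Sum.inr.inj hb]
    exact hb2

theorem ti2_pt (hA : A.Ax c0) (hs : A.Spec r) (x c : ℕ) (a : A.F) (ha : A.pi a = A.o)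
    (hf : A.Fst a) : A.Pt (A.V^[x] (A.nxt^[c] a)) ↔
      ∃ n, 2 ^ n ≤ x ∧ x < 2 ^ (n + 1) ∧ c = 2 * (x - 2 ^ n) ∧
        ∃ z p, m.prog (r n).1 = Instr.test (A.ix a) z p := by
  constructor
  · intro h
    obtain ⟨q, z, p, h1, h2⟩ := hA.pt_st _ h
    rw [ti2_pi hA x c a ha] at h1
    rw [ti2_ix hA] at h2
    obtain ⟨-, n, hn1, hn2, rfl⟩ := (ti2_st hA hs 0 x q).1 h1
    refine ⟨n, hn1, hn2, ?_, z, p, h2⟩
    have h3 := std_ptU hA hs n x hn1 hn2 a hf ha z p h2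
    have h4 := ptU_eq hA _ h
    rw [ti2_pi hA x c a ha, h3] at h4
    have h5 := Sum.inr.inj h4
    rw [V_iter_cancel hA, nxt_iter_inj hA] at h5
    exact h5.symm
  · rintro ⟨n, hn1, hn2, rfl, z, p, h2⟩
    obtain ⟨b, hb, -, -, hb2⟩ := ptU_test hA (A.S^[x] A.o) (r n).1 (A.ix a) z p
      (hs n x hn1 hn2).1 h2
    rw [std_ptU hA hs n x hn1 hn2 a hf ha z p h2] at hb
    rw [Sum.inr.inj hb]
    exact hb2

/-- `M`: `x >= 1` and `c = x + R_i` (`std_mkU`, `mkU_eq`); `P`: `x >= 1`, the state of the phase tests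
the register `i` and `c = 2 (x - 2^n)`; `i`: the index. -/
theorem base_prF (hA : A.Ax c0) (hB : B.Ax c0) (hs : A.Spec r) (hs' : B.Spec r) (x c : ℕ)
    (a : A.F) (a' : B.F) (ha : A.pi a = A.o) (hf : A.Fst a) (ha' : B.pi a' = B.o)
    (hf' : B.Fst a') (hi : A.ix a = B.ix a') (s : PSym m) :
    A.Pr s (Sum.inr (A.V^[x] (A.nxt^[c] a))) ↔ B.Pr s (Sum.inr (B.V^[x] (B.nxt^[c] a'))) := by
  cases s with
  | T => exact Iff.rfl
  | L => exact Iff.rfl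
  | E => exact Iff.rfl
  | M =>
    show A.Mk _ ↔ B.Mk _
    rw [ti2_mk hA hs x c a ha hf, ti2_mk hB hs' x c a' ha' hf', hi]
  | P =>
    show A.Pt _ ↔ B.Pt _
    rw [ti2_pt hA hs x c a ha hf, ti2_pt hB hs' x c a' ha' hf', hi]
  | q q => exact Iff.rfl
  | i i =>
    show A.ix _ = i ↔ B.ix _ = i
    rw [ti2_ix hA, ti2_ix hB, hi]

theorem ti2_eqF (hA : A.Ax c0) (x c x₂ c₂ : ℕ) (a a₂ : A.F) (ha : A.pi a = A.o) (hf : A.Fst a)
    (ha₂ : A.pi a₂ = A.o) (hf₂ : A.Fst a₂) :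
    A.V^[x] (A.nxt^[c] a) = A.V^[x₂] (A.nxt^[c₂] a₂) ↔
      x = x₂ ∧ A.ix a = A.ix a₂ ∧ c = c₂ := by
  rw [V_nxt_eq_iff hA a a₂ (ha.trans ha₂.symm)]
  refine and_congr Iff.rfl ⟨fun h => ?_, ?_⟩
  · have h1 : A.ix a = A.ix a₂ := by
      rw [← ix_nxt_iter hA c a, h, ix_nxt_iter hA]
    have h2 := fst_unique hA a a₂ hf hf₂ (ha.trans ha₂.symm) h1
    subst h2
    exact ⟨rfl, (nxt_iter_inj hA a c c₂).1 h⟩
  · rintro ⟨h1, rfl⟩
    rw [fst_unique hA a a₂ hf hf₂ (ha.trans ha₂.symm) h1]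

theorem ti2_ltF (hA : A.Ax c0) (x c x₂ c₂ : ℕ) (a a₂ : A.F) (ha : A.pi a = A.o) (hf : A.Fst a)
    (ha₂ : A.pi a₂ = A.o) (hf₂ : A.Fst a₂) :
    A.flt (A.V^[x] (A.nxt^[c] a)) (A.V^[x₂] (A.nxt^[c₂] a₂)) ↔
      x = x₂ ∧ A.ix a = A.ix a₂ ∧ c < c₂ := by
  rw [V_nxt_flt_iff hA a a₂ (ha.trans ha₂.symm)]
  refine and_congr Iff.rfl ⟨fun h => ?_, ?_⟩
  · have h1 : A.ix a = A.ix a₂ := by
      have h3 := (hA.flt_row _ _ h).2
      rwa [ix_nxt_iter hA, ix_nxt_iter hA] at h3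
    have h2 := fst_unique hA a a₂ hf hf₂ (ha.trans ha₂.symm) h1
    subst h2
    exact ⟨rfl, (flt_nxt_iter hA a c c₂).1 h⟩
  · rintro ⟨h1, h2⟩
    rw [← fst_unique hA a a₂ hf hf₂ (ha.trans ha₂.symm) h1]
    exact (flt_nxt_iter hA a c c₂).2 h2

theorem ti2_ltT (hA : A.Ax c0) (j c j₂ c₂ : ℕ) :
    A.lt (A.S^[c] (A.p^[j] A.o)) (A.S^[c₂] (A.p^[j₂] A.o)) ↔ c = 0 ∧ c₂ = 0 ∧ j < j₂ := by
  have hz : ∀ (y : A.T) (c : ℕ), A.Org (A.S^[c] y) → c = 0 := by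
    intro y c h
    cases c with
    | zero => rfl
    | succ c =>
      rw [Function.iterate_succ_apply'] at h
      exact absurd rfl (h _)
  constructor
  · intro h
    obtain ⟨h1, h2⟩ := hA.lt_org _ _ h
    have h3 := hz _ _ h1
    have h4 := hz _ _ h2
    subst h3
    subst h4
    exact ⟨rfl, rfl, (lt_iter_iter hA A.o hA.o_org j j₂).1 h⟩
  · rintro ⟨rfl, rfl, h⟩
    exact (lt_iter_iter hA A.o hA.o_org j j₂).2 h

/-- Two elements of `T`: `rel_self`. Two of `F`: `V_nxt_eq_iff`; the first elements of different rows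
are different, of the same row equal (`fst_unique`); `nxt_iter_inj`. -/
theorem base_eq (hA : A.Ax c0) (hB : B.Ax c0) {y z : A.T ⊕ A.F} {y' z' : B.T ⊕ B.F}
    (h : A.CB B y y') (h' : A.CB B z z') : y = z ↔ y' = z' := by
  rcases h with ⟨j, c, rfl, rfl⟩ | ⟨x, c, a, a', ha, hf, ha', hf', hi, rfl, rfl⟩ <;>
  rcases h' with ⟨j₂, c₂, rfl, rfl⟩ | ⟨x₂, c₂, a₂, a₂', ha₂, hf₂, ha₂', hf₂', hi₂, rfl, rfl⟩
  · rw [Sum.inl.injEq, Sum.inl.injEq, rel_self hA, rel_self hB]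
  · exact ⟨fun h => absurd h Sum.inl_ne_inr, fun h => absurd h Sum.inl_ne_inr⟩
  · exact ⟨fun h => absurd h Sum.inr_ne_inl, fun h => absurd h Sum.inr_ne_inl⟩
  · rw [Sum.inr.injEq, Sum.inr.injEq, ti2_eqF hA x c x₂ c₂ a a₂ ha hf ha₂ hf₂,
      ti2_eqF hB x c x₂ c₂ a' a₂' ha' hf' ha₂' hf₂', hi, hi₂]

/-- `lt_org`, `lt_iter_iter`; `V_nxt_flt_iff`, `flt_nxt_iter`. -/
theorem base_lt (hA : A.Ax c0) (hB : B.Ax c0) {y z : A.T ⊕ A.F} {y' z' : B.T ⊕ B.F}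
    (h : A.CB B y y') (h' : A.CB B z z') : A.ltU y z ↔ B.ltU y' z' := by
  rcases h with ⟨j, c, rfl, rfl⟩ | ⟨x, c, a, a', ha, hf, ha', hf', hi, rfl, rfl⟩ <;>
  rcases h' with ⟨j₂, c₂, rfl, rfl⟩ | ⟨x₂, c₂, a₂, a₂', ha₂, hf₂, ha₂', hf₂', hi₂, rfl, rfl⟩
  · show A.lt _ _ ↔ B.lt _ _
    rw [ti2_ltT hA, ti2_ltT hB]
  · exact Iff.rfl
  · exact Iff.rfl
  · show A.flt _ _ ↔ B.flt _ _
    rw [ti2_ltF hA x c x₂ c₂ a a₂ ha hf ha₂ hf₂,
      ti2_ltF hB x c x₂ c₂ a' a₂' ha' hf' ha₂' hf₂', hi, hi₂]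

theorem ti2_CB (hA : A.Ax c0) (hB : B.Ax c0) (hs : A.Spec r) (hs' : B.Spec r)
    (w : List (Letter m)) : A.CB B (A.act w (Sum.inl A.o)) (B.act w (Sum.inl B.o)) := by
  induction w with
  | nil => exact Or.inl ⟨0, 0, rfl, rfl⟩
  | cons a w ih => exact base_step hA hB hs hs' ih a

/-- `Loc_cons` with `l = []` and `C r = CB`. -/
theorem base_loc (hA : A.Ax c0) (hB : B.Ax c0) (hs : A.Spec r) (hs' : B.Spec r) (K : ℕ) :
    A.Loc B K [(Sum.inl A.o, Sum.inl B.o)] := by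
  intro a ha w _
  rw [List.mem_singleton] at ha
  subst ha
  have h1 := ti2_CB hA hB hs hs' w
  refine ⟨fun s => ?_, fun b hb w' _ => ?_⟩
  · show A.Pr s (A.act w (Sum.inl A.o)) ↔ B.Pr s (B.act w (Sum.inl B.o))
    rcases h1 with ⟨j, c, h2, h3⟩ | ⟨x, c, a, a', ha, hf, ha', hf', hi, h2, h3⟩
    · rw [h2, h3]
      exact base_prT hA hB hs hs' j c s
    · rw [h2, h3]
      exact base_prF hA hB hs hs' x c a a' ha hf ha' hf' hi s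
  · rw [List.mem_singleton] at hb
    subst hb
    have h2 := ti2_CB hA hB hs hs' w'
    exact ⟨base_eq hA hB h1 h2, base_lt hA hB h1 h2⟩

end Pool.Agent.LIN.Tower
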