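import Pool.Agent.LIN.TI2
import Pool.Agent.LIN.TH9
import Pool.Agent.LIN.TF3
import Pool.Agent.LIN.TE4
import Pool.Agent.LIN.TG6

/-! # [LIN-TI3] block C: extension by an element of T -/

namespace Pool.Agent.LIN.Tower

variable {m : Mach} {A B : Tower m} {c0 : m.Config}

/-- Let `K₁` be the bound of `high_ext k` and `K₂` the one of `time_ext (2 k)`, `K₃` the one of `lev_ext` for
`max K₁ K₂`. Add the level `h u` (an origin) by `lev_ext`; the new element of `B` is in `T` (`Loc`,
predicate `T`). If `h u` is not `p^j o` for all `j <= k`: `high_ext`. Otherwise `h u = p^j o` with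
`j <= k`, `z = lft^j u` is a time with `p^j z = u` (`p_iter_lft_iter`, `p_iter_org_inj`, `p_org_inj`);
add `z` by `time_ext` and then `u` by `Loc.near` (the word `p^j`), `Loc.sub`. -/
theorem T_ext (hA : A.Ax c0) (hB : B.Ax c0) (R : m.Run c0) (hr : m.Rich R.1)
    (hs : B.Spec R.1) (k : ℕ) :
    ∃ K, ∀ l, A.Loc B K l → (Sum.inl A.o, Sum.inl B.o) ∈ l → ∀ u : A.T,
      ∃ u', A.Loc B k ((Sum.inl u, u') :: l) := by
  obtain ⟨K₁, h1⟩ := high_ext hA hB k
  obtain ⟨K₂, h2⟩ := time_ext hA hB R hr hs (2 * k)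
  obtain ⟨K₃, h3⟩ := lev_ext hA hB (max K₁ K₂)
  refine ⟨max K₃ K₂, fun l hl ho u => ?_⟩
  by_cases hne : ∀ j ≤ k, A.h u ≠ A.p^[j] A.o
  · obtain ⟨v', hv'⟩ := h3 l (hl.mono (le_max_left _ _)) ho (A.h u) (hA.h_org u)
    have hT := ((hv' _ List.mem_cons_self [] (Nat.zero_le _)).1 PSym.T).1 (by
      show A.Pr PSym.T (Sum.inl (A.h u))
      trivial)
    have hT' : B.Pr PSym.T v' := hT
    rcases v' with v' | v'
    · obtain ⟨u', hu'⟩ := h1 _ (hv'.mono (le_max_left _ _)) (List.mem_cons_of_mem _ ho) u v'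
        List.mem_cons_self hne
      refine ⟨u', hu'.sub ?_⟩
      intro a ha
      rcases List.mem_cons.1 ha with rfl | ha
      · exact List.mem_cons_self
      · exact List.mem_cons_of_mem _ (List.mem_cons_of_mem _ ha)
    · exact absurd hT' (by intro h; exact h)
  · push Not at hne
    obtain ⟨j, hj, hju⟩ := hne
    have hlow : ∀ i < j, A.h u ≠ A.p^[i] A.o := by
      intro i hi hiu
      have := (p_iter_org_inj hA A.o hA.o_org i j).1 (hiu.symm.trans hju)
      omega
    obtain ⟨hz1, -, hz3⟩ := p_iter_lft_iter hA j u hlow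
    have hz : A.Tm (A.lft^[j] u) :=
      p_org_inj hA _ _ (hA.h_org _) hA.o_org j (hz3.trans hju)
    obtain ⟨z', hz'⟩ := h2 l (hl.mono (le_max_right _ _)) ho _ hz
    have hz'' : A.Loc B (k + k) ((Sum.inl (A.lft^[j] u), z') :: l) := by
      rw [← two_mul]
      exact hz'
    have hn := hz''.near (Sum.inl (A.lft^[j] u), z') List.mem_cons_self
      (List.replicate j Letter.p) (by rw [List.length_replicate]; exact hj)
    have he : A.act (List.replicate j Letter.p) (Sum.inl (A.lft^[j] u)) = Sum.inl u := by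
      rw [act_replicate, act1_p_inl, hz1]
    refine ⟨B.act (List.replicate j Letter.p) z', ?_⟩
    have hn' : A.Loc B k ((Sum.inl u, B.act (List.replicate j Letter.p) z') ::
        (Sum.inl (A.lft^[j] u), z') :: l) := by
      rw [← he]
      exact hn
    refine hn'.sub ?_
    intro a ha
    rcases List.mem_cons.1 ha with rfl | ha
    · exact List.mem_cons_self
    · exact List.mem_cons_of_mem _ (List.mem_cons_of_mem _ ha)

end Pool.Agent.LIN.Tower
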