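import Pool.Agent.LIN.TI3

/-! # [LIN-TI4] block C: the control theorem -/

namespace Pool.Agent.LIN.Tower

variable {m : Mach} {A B : Tower m} {c0 : m.Config}

/-- For `u` in `F` first add the time `pi u` by `time_ext`, then `row_ext`, then `Loc.sub`. -/
theorem U_ext (hA : A.Ax c0) (hB : B.Ax c0) (R : m.Run c0) (hr : m.Rich R.1)
    (hs : B.Spec R.1) (k : ℕ) :
    ∃ K, ∀ l, A.Loc B K l → (Sum.inl A.o, Sum.inl B.o) ∈ l → ∀ u : A.T ⊕ A.F,
      ∃ u', A.Loc B k ((u, u') :: l) := by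
  obtain ⟨K₁, h1⟩ := row_ext hA hB k
  obtain ⟨K₂, h2⟩ := time_ext hA hB R hr hs K₁
  obtain ⟨K₃, h3⟩ := T_ext hA hB R hr hs k
  refine ⟨max K₂ K₃, fun l hl ho u => ?_⟩
  rcases u with t | b
  · exact h3 l (hl.mono (le_max_right _ _)) ho t
  · obtain ⟨u', hu'⟩ := h2 l (hl.mono (le_max_left _ _)) ho (A.pi b) (hA.pi_tm b)
    have h4 := (hu' (Sum.inl (A.pi b), u') List.mem_cons_self [] (Nat.zero_le _)).1 PSym.T
    have h5 : B.Pr PSym.T u' := h4.1 trivial
    rcases u' with x' | c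
    · obtain ⟨u'', hu''⟩ := h1 _ hu' (List.mem_cons_of_mem _ ho) b x' List.mem_cons_self
      refine ⟨u'', hu''.sub ?_⟩
      intro a ha
      rcases List.mem_cons.1 ha with ha | ha
      · rw [ha]
        exact List.mem_cons_self
      · exact List.mem_cons_of_mem _ (List.mem_cons_of_mem _ ha)
    · exact h5.elim

/-- The control theorem: `EF_of_ext`, `U_ext` in both directions, `base_loc`. -/
theorem control (hA : A.Ax c0) (hB : B.Ax c0) (R : m.Run c0) (hr : m.Rich R.1)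
    (hs : A.Spec R.1) (hs' : B.Spec R.1) (n : ℕ) : EF A.rel B.rel n [] :=
  EF_of_ext (fun k => U_ext hA hB R hr hs' k) (fun k => U_ext hB hA R hr hs k)
    (fun K => base_loc hA hB hs hs' K) n

end Pool.Agent.LIN.Tower
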