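import Pool.Agent.LIN.TD3

/-!
# [LIN] block C : the standard tower of a run (definitions)
-/

namespace Pool.Agent.LIN.Tower

variable {m : Mach}

/-- The standard tower of a run. -/
def std (r : ℕ → m.Config) : Tower m where
  T := ℕ × ℕ
  F := ℕ × ℕ × Fin m.k
  o := (0, 0)
  S y := (y.1, y.2 + 1)
  p y := (y.1 + 1, y.2 / 2)
  h y := (y.1, 0)
  lt y z := y.2 = 0 ∧ z.2 = 0 ∧ y.1 < z.1
  Lf y := y.2 % 2 = 0
  Ev y := ∃ k, y.2 = 2 ^ k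
  st y q := y.1 = 0 ∧ y.2 ≠ 0 ∧ (r (Nat.log 2 y.2)).1 = q
  pi b := (0, b.1)
  ix b := b.2.2
  V b := (b.1 + 1, b.2.1, b.2.2)
  flt b c := b.1 = c.1 ∧ b.2.2 = c.2.2 ∧ b.2.1 < c.2.1
  Mk b := b.1 ≠ 0 ∧ b.2.1 = b.1 + (r (Nat.log 2 b.1)).2 b.2.2
  Pt b := b.1 ≠ 0 ∧ b.2.1 = 2 * (b.1 - 2 ^ Nat.log 2 b.1) ∧
    ∃ z p, m.prog (r (Nat.log 2 b.1)).1 = Instr.test b.2.2 z p

/-- Part of the axioms (same fields as `Ax`). -/
structure AxT (A : Tower m) (c0 : m.Config) : Prop where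
  S_inj : Function.Injective A.S
  h_org : ∀ y, A.Org (A.h y)
  h_S : ∀ y, A.h (A.S y) = A.h y
  org_h : ∀ y, A.Org y → A.h y = y
  h_p : ∀ y, A.h (A.p y) = A.p (A.h y)
  Lf_S : ∀ y, A.Lf (A.S y) ↔ ¬ A.Lf y
  Lf_org : ∀ y, A.Org y → A.Lf y
  p_even : ∀ y, A.Lf y → A.p (A.S y) = A.p y
  p_odd : ∀ y, ¬ A.Lf y → A.p (A.S y) = A.S (A.p y)
  child : ∀ y, A.h y ≠ A.o → ∃ z, A.Lf z ∧ A.p z = y
  child_inj : ∀ y z, A.Lf y → A.Lf z → A.p y = A.p z → y = z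
  lt_org : ∀ y z, A.lt y z → A.Org y ∧ A.Org z
  lt_irrefl : ∀ y, ¬ A.lt y y
  lt_trans : ∀ x y z, A.lt x y → A.lt y z → A.lt x z
  lt_total : ∀ y z, A.Org y → A.Org z → y = z ∨ A.lt y z ∨ A.lt z y
  o_org : A.Org A.o
  o_least : ∀ y, ¬ A.lt y A.o
  p_lt : ∀ y, A.Org y → A.lt y (A.p y)
  p_succ : ∀ y z, A.lt y z → z = A.p y ∨ A.lt (A.p y) z
  Ev_org : ∀ y, A.Org y → ¬ A.Ev y
  Ev_one : ∀ y, A.Org y → A.Ev (A.S y)
  Ev_even : ∀ y, A.Lf y → (A.Ev y ↔ A.Ev (A.p y))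
  Ev_odd : ∀ y, ¬ A.Lf y → A.Ev y → ∃ z, A.Org z ∧ y = A.S z

/-- Part of the axioms (same fields as `Ax`). -/
structure AxR (A : Tower m) (c0 : m.Config) : Prop where
  st_tm : ∀ y q, A.st y q → A.Tm y ∧ y ≠ A.o
  st_ex : ∀ y, A.Tm y → y ≠ A.o → ∃ q, A.st y q
  st_uniq : ∀ y q q', A.st y q → A.st y q' → q = q'
  st_const : ∀ y q, A.st y q → ¬ A.Ev (A.S y) → A.st (A.S y) q
  pi_tm : ∀ b, A.Tm (A.pi b)
  pi_V : ∀ b, A.pi (A.V b) = A.S (A.pi b)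
  ix_V : ∀ b, A.ix (A.V b) = A.ix b
  V_inj : Function.Injective A.V
  V_surj : ∀ b, A.pi b ≠ A.o → ∃ c, A.V c = b
  flt_row : ∀ b c, A.flt b c → A.pi b = A.pi c ∧ A.ix b = A.ix c
  flt_irrefl : ∀ b, ¬ A.flt b b
  flt_trans : ∀ b c d, A.flt b c → A.flt c d → A.flt b d
  flt_total : ∀ b c, A.pi b = A.pi c → A.ix b = A.ix c → b = c ∨ A.flt b c ∨ A.flt c b
  flt_V : ∀ b c, A.flt (A.V b) (A.V c) ↔ A.flt b c
  row_first : ∀ x i, A.Tm x → ∃ b, A.pi b = x ∧ A.ix b = i ∧ A.Fst b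
  row_next : ∀ b, ∃ c, A.Nx b c
  row_prev : ∀ b, ¬ A.Fst b → ∃ c, A.Nx c b

/-- Part of the axioms (same fields as `Ax`). -/
structure AxM (A : Tower m) (c0 : m.Config) : Prop where
  mk_o : ∀ b, A.Mk b → A.pi b ≠ A.o
  mk_ex : ∀ x i, A.Tm x → x ≠ A.o → ∃ b, A.pi b = x ∧ A.ix b = i ∧ A.Mk b
  mk_uniq : ∀ b c, A.Mk b → A.Mk c → A.pi b = A.pi c → A.ix b = A.ix c → b = c
  mk_move : ∀ b c, A.Mk b → A.Mk c → A.pi c = A.S (A.pi b) → A.ix c = A.ix b →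
    ¬ A.Ev (A.S (A.pi b)) → A.Mv1 b c
  pt_st : ∀ b, A.Pt b → ∃ q z p, A.st (A.pi b) q ∧ m.prog q = Instr.test (A.ix b) z p
  pt_ex : ∀ x q i z p, A.st x q → m.prog q = Instr.test i z p →
    ∃ b, A.pi b = x ∧ A.ix b = i ∧ A.Pt b
  pt_uniq : ∀ b c, A.Pt b → A.Pt c → A.pi b = A.pi c → b = c
  pt_start : ∀ b, A.Pt b → A.Ev (A.pi b) → A.Fst b
  pt_mk : ∀ b c, A.Pt b → A.Mk c → A.pi b = A.pi c → A.ix b = A.ix c → A.flt b c
  pt_move : ∀ b c, A.Pt b → A.Pt c → A.pi c = A.S (A.pi b) → ¬ A.Ev (A.S (A.pi b)) →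
    A.Mv2 b c

/-- Part of the axioms (same fields as `Ax`). -/
structure AxX (A : Tower m) (c0 : m.Config) : Prop where
  tr_inc : ∀ x q i q', A.st x q → A.Ev (A.S x) → m.prog q = Instr.inc i q' →
    A.st (A.S x) q' ∧ ∀ b c, A.Mk b → A.Mk c → A.pi b = x → A.pi c = A.S x → A.ix c = A.ix b →
      (A.ix b = i → A.Mv2 b c) ∧ (A.ix b ≠ i → A.Mv1 b c)
  tr_guess : ∀ x q a a', A.st x q → A.Ev (A.S x) → m.prog q = Instr.guess a a' →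
    (A.st (A.S x) a ∨ A.st (A.S x) a') ∧
      ∀ b c, A.Mk b → A.Mk c → A.pi b = x → A.pi c = A.S x → A.ix c = A.ix b → A.Mv1 b c
  tr_zero : ∀ x q i z p b c, A.st x q → A.Ev (A.S x) → m.prog q = Instr.test i z p →
    A.Pt b → A.Mk c → A.pi b = x → A.pi c = x → A.ix c = i → A.Nx b c →
    (∃ q', z = some q' ∧ A.st (A.S x) q') ∧
      ∀ b c, A.Mk b → A.Mk c → A.pi b = x → A.pi c = A.S x → A.ix c = A.ix b → A.Mv1 b c
  tr_pos : ∀ x q i z p b c, A.st x q → A.Ev (A.S x) → m.prog q = Instr.test i z p →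
    A.Pt b → A.Mk c → A.pi b = x → A.pi c = x → A.ix c = i → ¬ A.Nx b c →
    (∃ q', p = some q' ∧ A.st (A.S x) q') ∧
      ∀ b c, A.Mk b → A.Mk c → A.pi b = x → A.pi c = A.S x → A.ix c = A.ix b →
      (A.ix b = i → A.Mv0 b c) ∧ (A.ix b ≠ i → A.Mv1 b c)
  in_st : A.st (A.S A.o) c0.1
  in_mk : ∀ b, A.Mk b → A.pi b = A.S A.o → A.At (c0.2 (A.ix b) + 1) b

/-- The axioms from the four parts. -/
theorem Ax.of_parts {A : Tower m} {c0 : m.Config} (h1 : A.AxT c0) (h2 : A.AxR c0) (h3 : A.AxM c0)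
    (h4 : A.AxX c0) : A.Ax c0 where
  S_inj := h1.S_inj
  h_org := h1.h_org
  h_S := h1.h_S
  org_h := h1.org_h
  h_p := h1.h_p
  Lf_S := h1.Lf_S
  Lf_org := h1.Lf_org
  p_even := h1.p_even
  p_odd := h1.p_odd
  child := h1.child
  child_inj := h1.child_inj
  lt_org := h1.lt_org
  lt_irrefl := h1.lt_irrefl
  lt_trans := h1.lt_trans
  lt_total := h1.lt_total
  o_org := h1.o_org
  o_least := h1.o_least
  p_lt := h1.p_lt
  p_succ := h1.p_succ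
  Ev_org := h1.Ev_org
  Ev_one := h1.Ev_one
  Ev_even := h1.Ev_even
  Ev_odd := h1.Ev_odd
  st_tm := h2.st_tm
  st_ex := h2.st_ex
  st_uniq := h2.st_uniq
  st_const := h2.st_const
  pi_tm := h2.pi_tm
  pi_V := h2.pi_V
  ix_V := h2.ix_V
  V_inj := h2.V_inj
  V_surj := h2.V_surj
  flt_row := h2.flt_row
  flt_irrefl := h2.flt_irrefl
  flt_trans := h2.flt_trans
  flt_total := h2.flt_total
  flt_V := h2.flt_V
  row_first := h2.row_first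
  row_next := h2.row_next
  row_prev := h2.row_prev
  mk_o := h3.mk_o
  mk_ex := h3.mk_ex
  mk_uniq := h3.mk_uniq
  mk_move := h3.mk_move
  pt_st := h3.pt_st
  pt_ex := h3.pt_ex
  pt_uniq := h3.pt_uniq
  pt_start := h3.pt_start
  pt_mk := h3.pt_mk
  pt_move := h3.pt_move
  tr_inc := h4.tr_inc
  tr_guess := h4.tr_guess
  tr_zero := h4.tr_zero
  tr_pos := h4.tr_pos
  in_st := h4.in_st
  in_mk := h4.in_mk

end Pool.Agent.LIN.Tower
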