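import Pool.Agent.LIN.TJ0

/-! # [LIN-TJ1] block C: the standard tower: the clock tower axioms -/

namespace Pool.Agent.LIN.Tower

variable {m : Mach}

theorem tj1_org (r : ℕ → m.Config) (y : ℕ × ℕ) : (std r).Org y ↔ y.2 = 0 := by
  constructor
  · intro h
    by_contra hy
    exact h ((y.1, y.2 - 1) : ℕ × ℕ) (by
      show (y.1, y.2 - 1 + 1) = y
      rw [Nat.sub_add_cancel (Nat.pos_of_ne_zero hy)])
  · intro h z hz
    have h1 : (((z.1, z.2 + 1) : ℕ × ℕ)) = y := hz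
    have h2 := congrArg Prod.snd h1
    simp only at h2
    omega

theorem tj1_ext {y z : ℕ × ℕ} (h1 : y.1 = z.1) (h2 : y.2 = z.2) : y = z := Prod.ext h1 h2

/-- All the fields are elementary arithmetic. `child`: `(j + 1, c)` is `p` of `(j, 2 c)`. `Ev_even`: an
even power of two is twice the half. `Ev_odd`: an odd power of two is `1`. -/
theorem std_AxT (r : ℕ → m.Config) (c0 : m.Config) : (std r).AxT c0 := by
  refine
    { S_inj := ?_, h_org := ?_, h_S := ?_, org_h := ?_, h_p := ?_, Lf_S := ?_, Lf_org := ?_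
      p_even := ?_, p_odd := ?_, child := ?_, child_inj := ?_, lt_org := ?_, lt_irrefl := ?_
      lt_trans := ?_, lt_total := ?_, o_org := ?_, o_least := ?_, p_lt := ?_, p_succ := ?_
      Ev_org := ?_, Ev_one := ?_, Ev_even := ?_, Ev_odd := ?_ }
  · rintro (y : ℕ × ℕ) (z : ℕ × ℕ) (h : (((y.1, y.2 + 1) : ℕ × ℕ)) = (z.1, z.2 + 1))
    have h1 := congrArg Prod.fst h
    have h2 := congrArg Prod.snd h
    simp only at h1 h2
    exact tj1_ext h1 (by omega)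
  · rintro (y : ℕ × ℕ)
    exact (tj1_org r _).2 rfl
  · rintro (y : ℕ × ℕ)
    rfl
  · rintro (y : ℕ × ℕ) hy
    exact tj1_ext rfl ((tj1_org r y).1 hy).symm
  · rintro (y : ℕ × ℕ)
    exact tj1_ext rfl (Nat.zero_div 2).symm
  · rintro (y : ℕ × ℕ)
    show (y.2 + 1) % 2 = 0 ↔ ¬ (y.2 % 2 = 0)
    omega
  · rintro (y : ℕ × ℕ) hy
    have h := (tj1_org r y).1 hy
    show y.2 % 2 = 0
    omega
  · rintro (y : ℕ × ℕ) hy
    have h : y.2 % 2 = 0 := hy
    refine tj1_ext rfl ?_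
    show (y.2 + 1) / 2 = y.2 / 2
    omega
  · rintro (y : ℕ × ℕ) hy
    have h : ¬ (y.2 % 2 = 0) := hy
    refine tj1_ext rfl ?_
    show (y.2 + 1) / 2 = y.2 / 2 + 1
    omega
  · rintro (y : ℕ × ℕ) hy
    have h : y.1 ≠ 0 := by
      intro h0
      exact hy (tj1_ext h0 rfl)
    refine ⟨((y.1 - 1, 2 * y.2) : ℕ × ℕ), ?_, tj1_ext ?_ ?_⟩
    · show 2 * y.2 % 2 = 0
      omega
    · show y.1 - 1 + 1 = y.1
      omega
    · show 2 * y.2 / 2 = y.2
      omega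
  · rintro (y : ℕ × ℕ) (z : ℕ × ℕ) hy hz h
    have hy' : y.2 % 2 = 0 := hy
    have hz' : z.2 % 2 = 0 := hz
    have h1 : y.1 + 1 = z.1 + 1 := congrArg Prod.fst h
    have h2 : y.2 / 2 = z.2 / 2 := congrArg Prod.snd h
    exact tj1_ext (by omega) (by omega)
  · rintro (y : ℕ × ℕ) (z : ℕ × ℕ) h
    exact ⟨(tj1_org r y).2 h.1, (tj1_org r z).2 h.2.1⟩
  · rintro (y : ℕ × ℕ) h
    exact lt_irrefl _ h.2.2
  · rintro (x : ℕ × ℕ) (y : ℕ × ℕ) (z : ℕ × ℕ) h h'
    exact ⟨h.1, h'.2.1, lt_trans h.2.2 h'.2.2⟩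
  · rintro (y : ℕ × ℕ) (z : ℕ × ℕ) hy hz
    have hy' := (tj1_org r y).1 hy
    have hz' := (tj1_org r z).1 hz
    rcases lt_trichotomy y.1 z.1 with h | h | h
    · exact Or.inr (Or.inl ⟨hy', hz', h⟩)
    · exact Or.inl (tj1_ext h (hy'.trans hz'.symm))
    · exact Or.inr (Or.inr ⟨hz', hy', h⟩)
  · exact (tj1_org r _).2 rfl
  · rintro (y : ℕ × ℕ) h
    exact Nat.not_lt_zero _ h.2.2
  · rintro (y : ℕ × ℕ) hy
    have hy' := (tj1_org r y).1 hy
    refine ⟨hy', ?_, ?_⟩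
    · show y.2 / 2 = 0
      omega
    · show y.1 < y.1 + 1
      omega
  · rintro (y : ℕ × ℕ) (z : ℕ × ℕ) h
    obtain ⟨h1, h2, h3⟩ := h
    rcases Nat.eq_or_lt_of_le (Nat.succ_le_of_lt h3) with h4 | h4
    · refine Or.inl (tj1_ext ?_ ?_)
      · show z.1 = y.1 + 1
        omega
      · show z.2 = y.2 / 2
        omega
    · refine Or.inr ⟨?_, h2, ?_⟩
      · show y.2 / 2 = 0
        omega
      · show y.1 + 1 < z.1
        omega
  · rintro (y : ℕ × ℕ) hy h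
    have hy' := (tj1_org r y).1 hy
    obtain ⟨k, hk⟩ := h
    have : 0 < 2 ^ k := Nat.two_pow_pos k
    omega
  · rintro (y : ℕ × ℕ) hy
    have hy' := (tj1_org r y).1 hy
    refine ⟨0, ?_⟩
    show y.2 + 1 = 2 ^ 0
    omega
  · rintro (y : ℕ × ℕ) hy
    have hy' : y.2 % 2 = 0 := hy
    show (∃ k, y.2 = 2 ^ k) ↔ (∃ k, y.2 / 2 = 2 ^ k)
    constructor
    · rintro ⟨k, hk⟩
      cases k with
      | zero =>
        rw [pow_zero] at hk
        omega
      | succ k =>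
        refine ⟨k, ?_⟩
        rw [pow_succ] at hk
        omega
    · rintro ⟨k, hk⟩
      refine ⟨k + 1, ?_⟩
      rw [pow_succ]
      omega
  · rintro (y : ℕ × ℕ) hy h
    have hy' : ¬ (y.2 % 2 = 0) := hy
    obtain ⟨k, hk⟩ := h
    cases k with
    | zero =>
      rw [pow_zero] at hk
      refine ⟨((y.1, 0) : ℕ × ℕ), (tj1_org r _).2 rfl, tj1_ext rfl ?_⟩
      show y.2 = 0 + 1
      omega
    | succ k =>
      rw [pow_succ] at hk
      omega

end Pool.Agent.LIN.Tower
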