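import Pool.Agent.LIN.TJ0

/-! # [LIN-TJ2] block C: the standard tower: states, rows -/

namespace Pool.Agent.LIN.Tower

variable {m : Mach}

theorem tj2_nx (r : ℕ → m.Config) (a b : ℕ) (i : Fin m.k) :
    (std r).Nx ((a, b, i) : ℕ × ℕ × Fin m.k) ((a, b + 1, i) : ℕ × ℕ × Fin m.k) := by
  refine ⟨⟨rfl, rfl, Nat.lt_succ_self b⟩, ?_⟩
  rintro ⟨a', b', i'⟩ ⟨h1, h2, h3⟩
  have h1' : a = a' := h1
  have h2' : i = i' := h2
  have h3' : b < b' := h3
  subst h1' h2'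
  rcases Nat.lt_or_ge (b + 1) b' with h4 | h4
  · exact Or.inr ⟨rfl, rfl, h4⟩
  · have h5 : b' = b + 1 := by omega
    subst h5
    exact Or.inl rfl

/-- `Nat.log 2 (x + 1) = Nat.log 2 x` if `x >= 1` and `x + 1` is not a power of two. -/
theorem log_succ (x : ℕ) (hx : x ≠ 0) (h : ¬ ∃ k, x + 1 = 2 ^ k) :
    Nat.log 2 (x + 1) = Nat.log 2 x := by
  have h1 := Nat.pow_log_le_self 2 hx
  have h2 := Nat.lt_pow_succ_log_self (b := 2) (by norm_num) x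
  have h3 : x + 1 ≠ 2 ^ (Nat.log 2 x + 1) := fun h' => h ⟨_, h'⟩
  exact Nat.log_eq_of_pow_le_of_lt_pow (by omega) (by omega)

/-- `Nat.log 2 (x + 1) = Nat.log 2 x + 1`, `x + 1 = 2 ^ (Nat.log 2 x + 1)` if `x >= 1` and `x + 1` is a
power of two. -/
theorem log_succ_pow (x : ℕ) (hx : x ≠ 0) (h : ∃ k, x + 1 = 2 ^ k) :
    Nat.log 2 (x + 1) = Nat.log 2 x + 1 ∧ x + 1 = 2 ^ (Nat.log 2 x + 1) := by
  obtain ⟨k, hk⟩ := h
  have h1 := Nat.pow_log_le_self 2 hx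
  have h2 := Nat.lt_pow_succ_log_self (b := 2) (by norm_num) x
  have h3 : Nat.log 2 x < k := by
    apply (Nat.pow_lt_pow_iff_right (a := 2) (by norm_num)).1
    omega
  have h4 : k ≤ Nat.log 2 x + 1 := by
    apply (Nat.pow_le_pow_iff_right (a := 2) (by norm_num)).1
    omega
  have h5 : k = Nat.log 2 x + 1 := by omega
  rw [← h5]
  exact ⟨by rw [hk, Nat.log_pow (by norm_num)], hk⟩

/-- The order of a row is the order of the natural numbers; next = plus one. -/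
theorem std_AxR (r : ℕ → m.Config) (c0 : m.Config) : (std r).AxR c0 := by
  have hTm : ∀ y : ℕ × ℕ, (std r).Tm y → y.1 = 0 := fun y hy => congrArg Prod.fst hy
  refine
    { st_tm := ?_, st_ex := ?_, st_uniq := ?_, st_const := ?_, pi_tm := ?_, pi_V := ?_, ix_V := ?_,
      V_inj := ?_, V_surj := ?_, flt_row := ?_, flt_irrefl := ?_, flt_trans := ?_, flt_total := ?_,
      flt_V := ?_, row_first := ?_, row_next := ?_, row_prev := ?_ }
  · rintro ⟨a, b⟩ q ⟨h1, h2, h3⟩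
    have h1' : a = 0 := h1
    have h2' : b ≠ 0 := h2
    subst h1'
    exact ⟨rfl, fun h => h2' (congrArg Prod.snd h)⟩
  · rintro ⟨a, b⟩ h1 h2
    have h1' : a = 0 := hTm _ h1
    subst h1'
    refine ⟨_, rfl, ?_, rfl⟩
    intro h3
    have h3' : b = 0 := h3
    subst h3'
    exact h2 rfl
  · rintro y q q' ⟨_, _, h1⟩ ⟨_, _, h2⟩
    exact h1.symm.trans h2
  · rintro ⟨a, b⟩ q ⟨h1, h2, h3⟩ h4
    refine ⟨h1, Nat.succ_ne_zero b, ?_⟩
    show (r (Nat.log 2 (b + 1))).1 = q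
    rw [log_succ b h2 h4]
    exact h3
  · intro b
    rfl
  · intro b
    rfl
  · intro b
    rfl
  · rintro ⟨a, b, i⟩ ⟨a', b', i'⟩ h
    have h1 : a + 1 = a' + 1 := congrArg Prod.fst h
    have h2 : (b, i) = (b', i') := congrArg Prod.snd h
    have h3 : a = a' := by omega
    show (a, b, i) = (a', b', i')
    rw [h3, h2]
  · rintro ⟨a, b, i⟩ h
    have h1 : a ≠ 0 := by
      intro h1
      subst h1
      exact h rfl
    refine ⟨((a - 1, b, i) : ℕ × ℕ × Fin m.k), ?_⟩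
    show (a - 1 + 1, b, i) = (a, b, i)
    rw [Nat.sub_add_cancel (Nat.pos_of_ne_zero h1)]
  · rintro ⟨a, b, i⟩ ⟨a', b', i'⟩ ⟨h1, h2, h3⟩
    have h1' : a = a' := h1
    subst h1'
    exact ⟨rfl, h2⟩
  · rintro b ⟨h1, h2, h3⟩
    exact lt_irrefl _ h3
  · rintro b c d ⟨h1, h2, h3⟩ ⟨h4, h5, h6⟩
    exact ⟨h1.trans h4, h2.trans h5, h3.trans h6⟩
  · rintro ⟨a, b, i⟩ ⟨a', b', i'⟩ h1 h2
    have h1' : a = a' := congrArg Prod.snd h1
    have h2' : i = i' := h2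
    subst h1' h2'
    rcases Nat.lt_trichotomy b b' with h3 | h3 | h3
    · exact Or.inr (Or.inl ⟨rfl, rfl, h3⟩)
    · subst h3
      exact Or.inl rfl
    · exact Or.inr (Or.inr ⟨rfl, rfl, h3⟩)
  · rintro ⟨a, b, i⟩ ⟨a', b', i'⟩
    constructor
    · rintro ⟨h1, h2, h3⟩
      exact ⟨Nat.succ_injective h1, h2, h3⟩
    · rintro ⟨h1, h2, h3⟩
      exact ⟨congrArg Nat.succ h1, h2, h3⟩
  · rintro ⟨a, b⟩ i h1
    have h1' : a = 0 := hTm _ h1
    subst h1'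
    refine ⟨((b, 0, i) : ℕ × ℕ × Fin m.k), rfl, rfl, ?_⟩
    rintro c ⟨_, _, h2⟩
    exact Nat.not_lt_zero _ h2
  · rintro ⟨a, b, i⟩
    exact ⟨_, tj2_nx r a b i⟩
  · rintro ⟨a, b, i⟩ h
    have h1 : b ≠ 0 := by
      intro h1
      subst h1
      apply h
      rintro c ⟨_, _, h2⟩
      exact Nat.not_lt_zero _ h2
    obtain ⟨b, rfl⟩ := Nat.exists_eq_succ_of_ne_zero h1
    exact ⟨_, tj2_nx r a b i⟩

end Pool.Agent.LIN.Tower
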