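import Pool.Agent.LIN.TJ2

/-! # [LIN-TJ3] block C: the standard tower: marks and pointers -/

namespace Pool.Agent.LIN.Tower

variable {m : Mach}

theorem tj3_nx (r : ℕ → m.Config) (x y : ℕ) (i : Fin m.k) :
    (std r).Nx ((x, y, i) : ℕ × ℕ × Fin m.k) ((x, y + 1, i) : ℕ × ℕ × Fin m.k) := by
  refine ⟨⟨rfl, rfl, Nat.lt_succ_self y⟩, ?_⟩
  rintro ⟨x', y', i'⟩ ⟨h1, h2, h3⟩
  have h1' : x = x' := h1
  have h2' : i = i' := h2
  have h3' : y < y' := h3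
  subst h1' h2'
  rcases Nat.eq_or_lt_of_le (Nat.succ_le_of_lt h3') with h | h
  · left
    rw [← h]
  · right
    exact ⟨rfl, rfl, h⟩

/-- `mk_move`, `pt_move`: `log_succ`. `pt_start`: `x = 2^k`, `Nat.log 2 x = k`. `pt_mk`:
`2 (x - 2^n) < x + R` because `x < 2^(n+1)`. -/
theorem std_AxM (r : ℕ → m.Config) (c0 : m.Config) : (std r).AxM c0 := by
  refine
    { mk_o := ?_, mk_ex := ?_, mk_uniq := ?_, mk_move := ?_, pt_st := ?_, pt_ex := ?_,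
      pt_uniq := ?_, pt_start := ?_, pt_mk := ?_, pt_move := ?_ }
  · rintro ⟨x, y, i⟩ ⟨h1, -⟩ h2
    exact h1 (congrArg Prod.snd h2)
  · rintro ⟨x1, x2⟩ i h1 h2
    have e1 : x1 = 0 := congrArg Prod.fst h1
    subst e1
    have e2 : x2 ≠ 0 := by
      rintro rfl
      exact h2 rfl
    exact ⟨(x2, x2 + (r (Nat.log 2 x2)).2 i, i), rfl, rfl, e2, rfl⟩
  · rintro ⟨x, y, i⟩ ⟨x', y', i'⟩ ⟨h1, h2⟩ ⟨h3, h4⟩ h5 h6
    have e1 : x = x' := congrArg Prod.snd h5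
    have e2 : i = i' := h6
    subst e1 e2
    have e3 : y = x + (r (Nat.log 2 x)).2 i := h2
    have e4 : y' = x + (r (Nat.log 2 x)).2 i := h4
    rw [e3, e4]
  · rintro ⟨x, y, i⟩ ⟨x', y', i'⟩ ⟨h1, h2⟩ ⟨h3, h4⟩ h5 h6 h7
    have e1 : x' = x + 1 := congrArg Prod.snd h5
    have e2 : i' = i := h6
    subst e1 e2
    have e3 : y = x + (r (Nat.log 2 x)).2 i' := h2
    have e4 : y' = x + 1 + (r (Nat.log 2 (x + 1))).2 i' := h4
    rw [log_succ x h1 h7] at e4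
    have e5 : y' = y + 1 := by omega
    subst e5
    exact tj3_nx r (x + 1) y i'
  · rintro ⟨x, y, i⟩ ⟨h1, h2, z, p, h3⟩
    exact ⟨(r (Nat.log 2 x)).1, z, p, ⟨rfl, h1, rfl⟩, h3⟩
  · rintro ⟨x1, x2⟩ q i z p ⟨h1, h2, h3⟩ h4
    have e1 : x1 = 0 := h1
    subst e1
    have e3 : (r (Nat.log 2 x2)).1 = q := h3
    subst e3
    exact ⟨(x2, 2 * (x2 - 2 ^ Nat.log 2 x2), i), rfl, rfl, h2, rfl, z, p, h4⟩
  · rintro ⟨x, y, i⟩ ⟨x', y', i'⟩ ⟨h1, h2, z, p, h3⟩ ⟨h4, h5, z', p', h6⟩ h7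
    have e1 : x = x' := congrArg Prod.snd h7
    subst e1
    have e2 : y = 2 * (x - 2 ^ Nat.log 2 x) := h2
    have e3 : y' = 2 * (x - 2 ^ Nat.log 2 x) := h5
    have e4 : m.prog (r (Nat.log 2 x)).1 = Instr.test i z p := h3
    have e5 : m.prog (r (Nat.log 2 x)).1 = Instr.test i' z' p' := h6
    have e6 : i = i' := by
      have := e4.symm.trans e5
      injection this
    rw [e2, e3, e6]
  · rintro ⟨x, y, i⟩ ⟨h1, h2, -⟩ ⟨k, hk⟩ ⟨x', y', i'⟩ ⟨h3, h4, h5⟩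
    have e1 : x = 2 ^ k := hk
    have e2 : y = 2 * (x - 2 ^ Nat.log 2 x) := h2
    have e3 : y' < y := h5
    rw [e1, Nat.log_pow (by norm_num), Nat.sub_self] at e2
    omega
  · rintro ⟨x, y, i⟩ ⟨x', y', i'⟩ ⟨h1, h2, -⟩ ⟨h3, h4⟩ h5 h6
    have e1 : x = x' := congrArg Prod.snd h5
    have e2 : i = i' := h6
    subst e1 e2
    have e3 : y = 2 * (x - 2 ^ Nat.log 2 x) := h2
    have e4 : y' = x + (r (Nat.log 2 x)).2 i := h4
    have e5 : x < 2 ^ (Nat.log 2 x + 1) := Nat.lt_pow_succ_log_self (by norm_num) x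
    have e6 : 2 ^ Nat.log 2 x ≤ x := Nat.pow_log_le_self 2 h1
    rw [pow_succ] at e5
    refine ⟨rfl, rfl, ?_⟩
    show y < y'
    omega
  · rintro ⟨x, y, i⟩ ⟨x', y', i'⟩ ⟨h1, h2, z, p, h3⟩ ⟨h4, h5, z', p', h6⟩ h7 h8
    have e1 : x' = x + 1 := congrArg Prod.snd h7
    subst e1
    have e2 : y = 2 * (x - 2 ^ Nat.log 2 x) := h2
    have e3 : y' = 2 * (x + 1 - 2 ^ Nat.log 2 (x + 1)) := h5
    have e4 : m.prog (r (Nat.log 2 x)).1 = Instr.test i z p := h3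
    have e5 : m.prog (r (Nat.log 2 (x + 1))).1 = Instr.test i' z' p' := h6
    rw [log_succ x h1 h8] at e3 e5
    have e6 : i = i' := by
      have := e4.symm.trans e5
      injection this
    subst e6
    have e7 : 2 ^ Nat.log 2 x ≤ x := Nat.pow_log_le_self 2 h1
    have e8 : y' = y + 1 + 1 := by omega
    subst e8
    exact ⟨(x + 1, y + 1, i), tj3_nx r (x + 1) y i, tj3_nx r (x + 1) (y + 1) i⟩

end Pool.Agent.LIN.Tower
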