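import Pool.Agent.LIN.TJ1
import Pool.Agent.LIN.TJ2
import Pool.Agent.LIN.TJ3

/-! # [LIN-TJ4] block C: the standard tower: transitions -/

namespace Pool.Agent.LIN.Tower

variable {m : Mach} {c0 : m.Config}

theorem tj4_Nx (r : ℕ → m.Config) (b c : ℕ × ℕ × Fin m.k) :
    (std r).Nx b c ↔ b.1 = c.1 ∧ b.2.2 = c.2.2 ∧ c.2.1 = b.2.1 + 1 := by
  constructor
  · rintro ⟨⟨h1, h2, h3⟩, h4⟩
    refine ⟨h1, h2, ?_⟩
    have h5 : (std r).flt b ((b.1, b.2.1 + 1, b.2.2) : ℕ × ℕ × Fin m.k) :=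
      ⟨rfl, rfl, Nat.lt_succ_self _⟩
    rcases h4 _ h5 with h6 | ⟨_, _, h6⟩
    · have h7 := congrArg (fun z : ℕ × ℕ × Fin m.k => z.2.1) h6
      exact h7.symm
    · have h7 : c.2.1 < b.2.1 + 1 := h6
      have h8 : b.2.1 < c.2.1 := h3
      omega
  · rintro ⟨h1, h2, h3⟩
    refine ⟨⟨h1, h2, by omega⟩, ?_⟩
    rintro (d : ℕ × ℕ × Fin m.k) ⟨h4, h5, h6⟩
    have h7 : b.2.1 < d.2.1 := h6
    rcases Nat.lt_or_ge c.2.1 d.2.1 with h | h
    · exact Or.inr ⟨h1.symm.trans h4, h2.symm.trans h5, h⟩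
    · left
      have h8 : d.1 = c.1 := h4.symm.trans h1
      have h9 : d.2.2 = c.2.2 := h5.symm.trans h2
      have h10 : d.2.1 = c.2.1 := by omega
      exact Prod.ext h8 (Prod.ext h10 h9)

theorem tj4_mv1 (r : ℕ → m.Config) (b c : ℕ × ℕ × Fin m.k) (hb : (std r).Mk b)
    (hc : (std r).Mk c) (h1 : c.1 = b.1 + 1) (h2 : c.2.2 = b.2.2)
    (h3 : Nat.log 2 (b.1 + 1) = Nat.log 2 b.1 + 1)
    (h4 : (r (Nat.log 2 b.1 + 1)).2 b.2.2 = (r (Nat.log 2 b.1)).2 b.2.2) : (std r).Mv1 b c := by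
  refine (tj4_Nx r _ _).2 ⟨h1.symm, h2.symm, ?_⟩
  have h5 : b.2.1 = b.1 + (r (Nat.log 2 b.1)).2 b.2.2 := hb.2
  have h6 : c.2.1 = c.1 + (r (Nat.log 2 c.1)).2 c.2.2 := hc.2
  rw [h2, h1, h3, h4] at h6
  show c.2.1 = b.2.1 + 1
  omega

theorem tj4_mv2 (r : ℕ → m.Config) (b c : ℕ × ℕ × Fin m.k) (hb : (std r).Mk b)
    (hc : (std r).Mk c) (h1 : c.1 = b.1 + 1) (h2 : c.2.2 = b.2.2)
    (h3 : Nat.log 2 (b.1 + 1) = Nat.log 2 b.1 + 1)
    (h4 : (r (Nat.log 2 b.1 + 1)).2 b.2.2 = (r (Nat.log 2 b.1)).2 b.2.2 + 1) :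
    (std r).Mv2 b c := by
  have h5 : b.2.1 = b.1 + (r (Nat.log 2 b.1)).2 b.2.2 := hb.2
  have h6 : c.2.1 = c.1 + (r (Nat.log 2 c.1)).2 c.2.2 := hc.2
  rw [h2, h1, h3, h4] at h6
  refine ⟨((b.1 + 1, b.2.1 + 1, b.2.2) : ℕ × ℕ × Fin m.k), (tj4_Nx r _ _).2 ⟨rfl, rfl, rfl⟩,
    (tj4_Nx r _ _).2 ⟨h1.symm, h2.symm, ?_⟩⟩
  show c.2.1 = b.2.1 + 1 + 1
  omega

theorem tj4_mv0 (r : ℕ → m.Config) (b c : ℕ × ℕ × Fin m.k) (hb : (std r).Mk b)
    (hc : (std r).Mk c) (h1 : c.1 = b.1 + 1) (h2 : c.2.2 = b.2.2)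
    (h3 : Nat.log 2 (b.1 + 1) = Nat.log 2 b.1 + 1)
    (h4 : (r (Nat.log 2 b.1 + 1)).2 b.2.2 + 1 = (r (Nat.log 2 b.1)).2 b.2.2) :
    (std r).Mv0 b c := by
  have h5 : b.2.1 = b.1 + (r (Nat.log 2 b.1)).2 b.2.2 := hb.2
  have h6 : c.2.1 = c.1 + (r (Nat.log 2 c.1)).2 c.2.2 := hc.2
  rw [h2, h1, h3] at h6
  have h7 : c.2.1 = b.2.1 := by omega
  exact Prod.ext h1 (Prod.ext h7 h2)

theorem tj4_At (r : ℕ → m.Config) : ∀ (n : ℕ) (b : ℕ × ℕ × Fin m.k),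
    b.2.1 = n → (std r).At n b
  | 0, b, h => by
    rintro (c : ℕ × ℕ × Fin m.k) ⟨_, _, h1⟩
    have h2 : c.2.1 < b.2.1 := h1
    omega
  | n + 1, b, h => ⟨((b.1, n, b.2.2) : ℕ × ℕ × Fin m.k), tj4_At r n _ rfl,
      (tj4_Nx r _ _).2 ⟨rfl, rfl, h⟩⟩

theorem tj4_S (r : ℕ → m.Config) (x : ℕ) :
    (std r).S^[x] (std r).o = ((0, x) : ℕ × ℕ) := by
  induction x with
  | zero => rfl
  | succ x ih =>
    rw [Function.iterate_succ_apply', ih]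
    rfl

theorem tj4_nxt (r : ℕ → m.Config) (b : ℕ × ℕ × Fin m.k) :
    (std r).nxt b = ((b.1, b.2.1 + 1, b.2.2) : ℕ × ℕ × Fin m.k) := by
  have h : ∃ c, (std r).Nx b c :=
    ⟨((b.1, b.2.1 + 1, b.2.2) : ℕ × ℕ × Fin m.k), (tj4_Nx r _ _).2 ⟨rfl, rfl, rfl⟩⟩
  have h1 : (std r).nxt b = h.choose := dif_pos h
  obtain ⟨h2, h3, h4⟩ := (tj4_Nx r _ _).1 h.choose_spec
  rw [h1]
  exact Prod.ext h2.symm (Prod.ext h4 h3.symm)

theorem tj4_nxt_iter (r : ℕ → m.Config) (x : ℕ) (i : Fin m.k) (j : ℕ) :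
    (std r).nxt^[j] ((x, 0, i) : ℕ × ℕ × Fin m.k) = ((x, j, i) : ℕ × ℕ × Fin m.k) := by
  induction j with
  | zero => rfl
  | succ j ih =>
    exact (Function.iterate_succ_apply' (std r).nxt j ((x, 0, i) : ℕ × ℕ × Fin m.k)).trans
      ((congrArg (std r).nxt ih).trans (tj4_nxt r _))

theorem tj4_Fst (r : ℕ → m.Config) (x : ℕ) (i : Fin m.k) :
    (std r).Fst ((x, 0, i) : ℕ × ℕ × Fin m.k) := by
  rintro (c : ℕ × ℕ × Fin m.k) ⟨_, _, h1⟩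
  exact Nat.not_lt_zero _ h1

/-- the pointer is next to the mark iff the register is zero -/
theorem tj4_zero (r : ℕ → m.Config) (b c : ℕ × ℕ × Fin m.k) (hb : (std r).Pt b)
    (hc : (std r).Mk c) (h1 : b.1 = c.1) (h2 : b.2.2 = c.2.2)
    (h3 : c.1 + 1 = 2 ^ (Nat.log 2 c.1 + 1)) :
    (std r).Nx b c ↔ (r (Nat.log 2 c.1)).2 c.2.2 = 0 := by
  have h5 : b.2.1 = 2 * (b.1 - 2 ^ Nat.log 2 b.1) := hb.2.1
  have h6 : c.2.1 = c.1 + (r (Nat.log 2 c.1)).2 c.2.2 := hc.2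
  have h7 : c.1 ≠ 0 := hc.1
  have h8 : 2 ^ Nat.log 2 c.1 ≤ c.1 := Nat.pow_log_le_self 2 h7
  rw [pow_succ] at h3
  rw [h1] at h5
  rw [tj4_Nx]
  constructor
  · rintro ⟨_, _, h9⟩
    omega
  · intro h9
    exact ⟨h1, h2, by omega⟩

/-- `log_succ_pow`: the configuration changes from `R.1 n` to `R.1 (n + 1)`, `Step`. At the time
`x = 2^(n+1) - 1` the pointer is in position `x - 1` and the mark in position `x + R`; they are next
to each other iff `R = 0`. -/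
theorem std_AxX (R : m.Run c0) : (std R.1).AxX c0 := by
  have key : ∀ x q, (std R.1).st x q → (std R.1).Ev ((std R.1).S x) →
      ∃ t : ℕ, x = ((0, t) : ℕ × ℕ) ∧ t ≠ 0 ∧ (R.1 (Nat.log 2 t)).1 = q ∧
        Nat.log 2 (t + 1) = Nat.log 2 t + 1 ∧ t + 1 = 2 ^ (Nat.log 2 t + 1) := by
    rintro ⟨x1, x2⟩ q ⟨h1, h2, h3⟩ h4
    have h5 := log_succ_pow x2 h2 h4
    exact ⟨x2, Prod.ext h1 rfl, h2, h3, h5⟩
  refine ⟨?_, ?_, ?_, ?_, ?_, ?_⟩
  · intro x q i q' hs he hp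
    obtain ⟨t, rfl, ht, hq, hl, ht2⟩ := key x q hs he
    have hstep := R.2.2 (Nat.log 2 t)
    unfold Mach.Step at hstep
    rw [hq, hp] at hstep
    obtain ⟨hs1, hs2⟩ := hstep
    refine ⟨⟨rfl, Nat.succ_ne_zero t, ?_⟩, ?_⟩
    · show (R.1 (Nat.log 2 (t + 1))).1 = q'
      rw [hl]
      exact hs1
    · rintro (b : ℕ × ℕ × Fin m.k) (c : ℕ × ℕ × Fin m.k) hb hc hpb hpc hix
      have hb1 : b.1 = t := congrArg (fun z : ℕ × ℕ => z.2) hpb
      have hc1 : c.1 = t + 1 := congrArg (fun z : ℕ × ℕ => z.2) hpc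
      constructor
      · intro hi
        have hi' : b.2.2 = i := hi
        refine tj4_mv2 R.1 b c hb hc (by rw [hb1, hc1]) hix (by rw [hb1]; exact hl) ?_
        rw [hb1, hs2, hi', Function.update_self]
      · intro hi
        have hi' : b.2.2 ≠ i := hi
        refine tj4_mv1 R.1 b c hb hc (by rw [hb1, hc1]) hix (by rw [hb1]; exact hl) ?_
        rw [hb1, hs2, Function.update_of_ne hi']
  · intro x q a a' hs he hp
    obtain ⟨t, rfl, ht, hq, hl, ht2⟩ := key x q hs he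
    have hstep := R.2.2 (Nat.log 2 t)
    unfold Mach.Step at hstep
    rw [hq, hp] at hstep
    obtain ⟨hs1, hs2⟩ := hstep
    refine ⟨?_, ?_⟩
    · rcases hs1 with h | h
      · left
        refine ⟨rfl, Nat.succ_ne_zero t, ?_⟩
        show (R.1 (Nat.log 2 (t + 1))).1 = a
        rw [hl]
        exact h
      · right
        refine ⟨rfl, Nat.succ_ne_zero t, ?_⟩
        show (R.1 (Nat.log 2 (t + 1))).1 = a'
        rw [hl]
        exact h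
    · rintro (b : ℕ × ℕ × Fin m.k) (c : ℕ × ℕ × Fin m.k) hb hc hpb hpc hix
      have hb1 : b.1 = t := congrArg (fun z : ℕ × ℕ => z.2) hpb
      have hc1 : c.1 = t + 1 := congrArg (fun z : ℕ × ℕ => z.2) hpc
      refine tj4_mv1 R.1 b c hb hc (by rw [hb1, hc1]) hix (by rw [hb1]; exact hl) ?_
      rw [hb1, hs2]
  · rintro x q i z p (b : ℕ × ℕ × Fin m.k) (c : ℕ × ℕ × Fin m.k) hs he hp hb hc hpb hpc hic hn
    obtain ⟨t, rfl, ht, hq, hl, ht2⟩ := key x q hs he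
    have hb1 : b.1 = t := congrArg (fun z : ℕ × ℕ => z.2) hpb
    have hc1 : c.1 = t := congrArg (fun z : ℕ × ℕ => z.2) hpc
    have hci : c.2.2 = i := hic
    have h1 := ((tj4_Nx R.1 b c).1 hn)
    have hz : (R.1 (Nat.log 2 t)).2 i = 0 := by
      have := (tj4_zero R.1 b c hb hc h1.1 h1.2.1 (by rw [hc1]; exact ht2)).1 hn
      rwa [hc1, hci] at this
    have hstep := R.2.2 (Nat.log 2 t)
    unfold Mach.Step at hstep
    rw [hq, hp] at hstep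
    rcases hstep with ⟨_, hs1, hs2⟩ | ⟨hs0, _⟩
    · refine ⟨⟨_, hs1, rfl, Nat.succ_ne_zero t, ?_⟩, ?_⟩
      · show (R.1 (Nat.log 2 (t + 1))).1 = _
        rw [hl]
      · rintro (b : ℕ × ℕ × Fin m.k) (c : ℕ × ℕ × Fin m.k) hb hc hpb hpc hix
        have hb1 : b.1 = t := congrArg (fun z : ℕ × ℕ => z.2) hpb
        have hc1 : c.1 = t + 1 := congrArg (fun z : ℕ × ℕ => z.2) hpc
        refine tj4_mv1 R.1 b c hb hc (by rw [hb1, hc1]) hix (by rw [hb1]; exact hl) ?_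
        rw [hb1, hs2]
    · omega
  · rintro x q i z p (b : ℕ × ℕ × Fin m.k) (c : ℕ × ℕ × Fin m.k) hs he hp hb hc hpb hpc hic hn
    obtain ⟨t, rfl, ht, hq, hl, ht2⟩ := key x q hs he
    have hb1 : b.1 = t := congrArg (fun z : ℕ × ℕ => z.2) hpb
    have hc1 : c.1 = t := congrArg (fun z : ℕ × ℕ => z.2) hpc
    have hci : c.2.2 = i := hic
    have hbi : b.2.2 = i := by
      obtain ⟨_, _, z', p', h⟩ := hb
      have h' : m.prog (R.1 (Nat.log 2 b.1)).1 = Instr.test b.2.2 z' p' := h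
      rw [hb1, hq, hp] at h'
      injection h' with h1 h2 h3
      exact h1.symm
    have hz : (R.1 (Nat.log 2 t)).2 i ≠ 0 := by
      intro h0
      refine hn ((tj4_zero R.1 b c hb hc (hb1.trans hc1.symm) (hbi.trans hci.symm)
        (by rw [hc1]; exact ht2)).2 ?_)
      rw [hc1, hci]
      exact h0
    have hstep := R.2.2 (Nat.log 2 t)
    unfold Mach.Step at hstep
    rw [hq, hp] at hstep
    rcases hstep with ⟨hs0, _⟩ | ⟨hs0, hs1, hs2⟩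
    · exact absurd hs0 hz
    · refine ⟨⟨_, hs1, rfl, Nat.succ_ne_zero t, ?_⟩, ?_⟩
      · show (R.1 (Nat.log 2 (t + 1))).1 = _
        rw [hl]
      · rintro (b : ℕ × ℕ × Fin m.k) (c : ℕ × ℕ × Fin m.k) hb hc hpb hpc hix
        have hb1 : b.1 = t := congrArg (fun z : ℕ × ℕ => z.2) hpb
        have hc1 : c.1 = t + 1 := congrArg (fun z : ℕ × ℕ => z.2) hpc
        constructor
        · intro hi
          have hi' : b.2.2 = i := hi
          refine tj4_mv0 R.1 b c hb hc (by rw [hb1, hc1]) hix (by rw [hb1]; exact hl) ?_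
          rw [hb1, hs2, hi', Function.update_self]
          omega
        · intro hi
          have hi' : b.2.2 ≠ i := hi
          refine tj4_mv1 R.1 b c hb hc (by rw [hb1, hc1]) hix (by rw [hb1]; exact hl) ?_
          rw [hb1, hs2, Function.update_of_ne hi']
  · refine ⟨rfl, Nat.one_ne_zero, ?_⟩
    show (R.1 (Nat.log 2 1)).1 = c0.1
    rw [Nat.log_one_right, R.2.1]
  · rintro (b : ℕ × ℕ × Fin m.k) hb hpb
    have hb1 : b.1 = 1 := congrArg (fun z : ℕ × ℕ => z.2) hpb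
    apply tj4_At
    have h6 : b.2.1 = b.1 + (R.1 (Nat.log 2 b.1)).2 b.2.2 := hb.2
    rw [hb1, Nat.log_one_right, R.2.1] at h6
    rw [h6, add_comm]
    rfl

theorem std_Ax (R : m.Run c0) : (std R.1).Ax c0 :=
  Ax.of_parts (std_AxT _ _) (std_AxR _ _) (std_AxM _ _) (std_AxX R)

/-- `S^x o = (0, x)`; `Nat.log 2 x = n` in phase `n`; the element number `c` of the row is
`(x, c, i)` (iterate `nxt` by `Nx_iff`). -/
theorem std_Spec (R : m.Run c0) : (std R.1).Spec R.1 := by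
  intro n x h1 h2
  have hx : x ≠ 0 := by
    have : 0 < 2 ^ n := Nat.pos_of_ne_zero (by positivity)
    omega
  have hlog : Nat.log 2 x = n := Nat.log_eq_of_pow_le_of_lt_pow h1 h2
  refine ⟨?_, ?_, ?_⟩
  · rw [tj4_S]
    refine ⟨rfl, hx, ?_⟩
    show (R.1 (Nat.log 2 x)).1 = _
    rw [hlog]
  · rintro (b : ℕ × ℕ × Fin m.k) hpb hb
    rw [tj4_S] at hpb
    have hb1 : b.1 = x := congrArg (fun z : ℕ × ℕ => z.2) hpb
    have h6 : b.2.1 = b.1 + (R.1 (Nat.log 2 b.1)).2 b.2.2 := hb.2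
    refine ⟨((x, 0, b.2.2) : ℕ × ℕ × Fin m.k), tj4_Fst _ _ _, ?_⟩
    rw [tj4_nxt_iter]
    rw [hb1, hlog] at h6
    exact Prod.ext hb1.symm (Prod.ext h6.symm rfl)
  · rintro (b : ℕ × ℕ × Fin m.k) hpb hb
    rw [tj4_S] at hpb
    have hb1 : b.1 = x := congrArg (fun z : ℕ × ℕ => z.2) hpb
    have h6 : b.2.1 = 2 * (b.1 - 2 ^ Nat.log 2 b.1) := hb.2.1
    refine ⟨((x, 0, b.2.2) : ℕ × ℕ × Fin m.k), tj4_Fst _ _ _, ?_⟩
    rw [tj4_nxt_iter]
    rw [hb1, hlog] at h6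
    exact Prod.ext hb1.symm (Prod.ext h6.symm rfl)

end Pool.Agent.LIN.Tower
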