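import Pool.Agent.LIN.TI4
import Pool.Agent.LIN.TD3
import Pool.Agent.LIN.GA3

namespace Pool.Agent.LIN

theorem controlStatement : ControlStatement := by
  intro m c0 hrich
  refine ⟨fun A hA => Tower.exists_run hA, ?_⟩
  intro A B r hA hB hs hs' n
  exact Tower.control hA hB r (hrich r) hs hs' n

end Pool.Agent.LIN
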