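import Pool.Agent.LIN.Iface

/-!
# [LIN] block C : clock towers

A tower for the machine `m` has two sorts: `T` (the clock tower; the elements `y` with
`h y = o` are the times) and `F` (the rows: for every time `x` and every register `i` a discrete
linear order with a first and without a last element).
-/

namespace Pool.Agent.LIN

variable {m : Mach}

/-- The data of a tower. -/
structure Tower (m : Mach) where
  T : Type
  F : Type
  o : T
  S : T → T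
  p : T → T
  h : T → T
  lt : T → T → Prop
  Lf : T → Prop
  Ev : T → Prop
  st : T → Fin m.nQ → Prop
  pi : F → T
  ix : F → Fin m.k
  V : F → F
  flt : F → F → Prop
  Mk : F → Prop
  Pt : F → Prop

namespace Tower

/-- Origin: an element without `S`-predecessor. -/
def Org (A : Tower m) (y : A.T) : Prop := ∀ z, A.S z ≠ y

/-- Time: an element of level zero. -/
def Tm (A : Tower m) (y : A.T) : Prop := A.h y = A.o

/-- `c` is the next element after `b` in its row. -/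
def Nx (A : Tower m) (b c : A.F) : Prop := A.flt b c ∧ ∀ d, A.flt b d → d = c ∨ A.flt c d

/-- `b` is the first element of its row. -/
def Fst (A : Tower m) (b : A.F) : Prop := ∀ c, ¬ A.flt c b

/-- `b` is the element number `n` of its row (the first one has number `0`). -/
def At (A : Tower m) : ℕ → A.F → Prop
  | 0, b => A.Fst b
  | n + 1, b => ∃ c, A.At n c ∧ A.Nx c b

/-- The mark `c` is the mark `b` moved one time step, in the ordinary way (one position). -/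
def Mv1 (A : Tower m) (b c : A.F) : Prop := A.Nx (A.V b) c

/-- Moved by two positions (the register has been increased). -/
def Mv2 (A : Tower m) (b c : A.F) : Prop := ∃ d, A.Nx (A.V b) d ∧ A.Nx d c

/-- Moved by zero positions (the register has been decreased). -/
def Mv0 (A : Tower m) (b c : A.F) : Prop := c = A.V b

/-- The axioms of towers for the machine `m` started in `c0`. -/
structure Ax (A : Tower m) (c0 : m.Config) : Prop where
  S_inj : Function.Injective A.S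
  h_org : ∀ y, A.Org (A.h y)
  h_S : ∀ y, A.h (A.S y) = A.h y
  org_h : ∀ y, A.Org y → A.h y = y
  h_p : ∀ y, A.h (A.p y) = A.p (A.h y)
  Lf_S : ∀ y, A.Lf (A.S y) ↔ ¬ A.Lf y
  Lf_org : ∀ y, A.Org y → A.Lf y
  p_even : ∀ y, A.Lf y → A.p (A.S y) = A.p y
  p_odd : ∀ y, ¬ A.Lf y → A.p (A.S y) = A.S (A.p y)
  child : ∀ y, A.h y ≠ A.o → ∃ z, A.Lf z ∧ A.p z = y
  child_inj : ∀ y z, A.Lf y → A.Lf z → A.p y = A.p z → y = z
  lt_org : ∀ y z, A.lt y z → A.Org y ∧ A.Org z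
  lt_irrefl : ∀ y, ¬ A.lt y y
  lt_trans : ∀ x y z, A.lt x y → A.lt y z → A.lt x z
  lt_total : ∀ y z, A.Org y → A.Org z → y = z ∨ A.lt y z ∨ A.lt z y
  o_org : A.Org A.o
  o_least : ∀ y, ¬ A.lt y A.o
  p_lt : ∀ y, A.Org y → A.lt y (A.p y)
  p_succ : ∀ y z, A.lt y z → z = A.p y ∨ A.lt (A.p y) z
  Ev_org : ∀ y, A.Org y → ¬ A.Ev y
  Ev_one : ∀ y, A.Org y → A.Ev (A.S y)
  Ev_even : ∀ y, A.Lf y → (A.Ev y ↔ A.Ev (A.p y))
  Ev_odd : ∀ y, ¬ A.Lf y → A.Ev y → ∃ z, A.Org z ∧ y = A.S z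
  -- states
  st_tm : ∀ y q, A.st y q → A.Tm y ∧ y ≠ A.o
  st_ex : ∀ y, A.Tm y → y ≠ A.o → ∃ q, A.st y q
  st_uniq : ∀ y q q', A.st y q → A.st y q' → q = q'
  st_const : ∀ y q, A.st y q → ¬ A.Ev (A.S y) → A.st (A.S y) q
  -- rows
  pi_tm : ∀ b, A.Tm (A.pi b)
  pi_V : ∀ b, A.pi (A.V b) = A.S (A.pi b)
  ix_V : ∀ b, A.ix (A.V b) = A.ix b
  V_inj : Function.Injective A.V
  V_surj : ∀ b, A.pi b ≠ A.o → ∃ c, A.V c = b
  flt_row : ∀ b c, A.flt b c → A.pi b = A.pi c ∧ A.ix b = A.ix c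
  flt_irrefl : ∀ b, ¬ A.flt b b
  flt_trans : ∀ b c d, A.flt b c → A.flt c d → A.flt b d
  flt_total : ∀ b c, A.pi b = A.pi c → A.ix b = A.ix c → b = c ∨ A.flt b c ∨ A.flt c b
  flt_V : ∀ b c, A.flt (A.V b) (A.V c) ↔ A.flt b c
  row_first : ∀ x i, A.Tm x → ∃ b, A.pi b = x ∧ A.ix b = i ∧ A.Fst b
  row_next : ∀ b, ∃ c, A.Nx b c
  row_prev : ∀ b, ¬ A.Fst b → ∃ c, A.Nx c b
  -- marks
  mk_o : ∀ b, A.Mk b → A.pi b ≠ A.o
  mk_ex : ∀ x i, A.Tm x → x ≠ A.o → ∃ b, A.pi b = x ∧ A.ix b = i ∧ A.Mk b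
  mk_uniq : ∀ b c, A.Mk b → A.Mk c → A.pi b = A.pi c → A.ix b = A.ix c → b = c
  mk_move : ∀ b c, A.Mk b → A.Mk c → A.pi c = A.S (A.pi b) → A.ix c = A.ix b →
    ¬ A.Ev (A.S (A.pi b)) → A.Mv1 b c
  -- pointers
  pt_st : ∀ b, A.Pt b → ∃ q z p, A.st (A.pi b) q ∧ m.prog q = Instr.test (A.ix b) z p
  pt_ex : ∀ x q i z p, A.st x q → m.prog q = Instr.test i z p →
    ∃ b, A.pi b = x ∧ A.ix b = i ∧ A.Pt b
  pt_uniq : ∀ b c, A.Pt b → A.Pt c → A.pi b = A.pi c → b = c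
  pt_start : ∀ b, A.Pt b → A.Ev (A.pi b) → A.Fst b
  pt_mk : ∀ b c, A.Pt b → A.Mk c → A.pi b = A.pi c → A.ix b = A.ix c → A.flt b c
  pt_move : ∀ b c, A.Pt b → A.Pt c → A.pi c = A.S (A.pi b) → ¬ A.Ev (A.S (A.pi b)) →
    A.Mv2 b c
  -- transitions
  tr_inc : ∀ x q i q', A.st x q → A.Ev (A.S x) → m.prog q = Instr.inc i q' →
    A.st (A.S x) q' ∧ ∀ b c, A.Mk b → A.Mk c → A.pi b = x → A.pi c = A.S x → A.ix c = A.ix b →
      (A.ix b = i → A.Mv2 b c) ∧ (A.ix b ≠ i → A.Mv1 b c)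
  tr_guess : ∀ x q a a', A.st x q → A.Ev (A.S x) → m.prog q = Instr.guess a a' →
    (A.st (A.S x) a ∨ A.st (A.S x) a') ∧
      ∀ b c, A.Mk b → A.Mk c → A.pi b = x → A.pi c = A.S x → A.ix c = A.ix b → A.Mv1 b c
  tr_zero : ∀ x q i z p b c, A.st x q → A.Ev (A.S x) → m.prog q = Instr.test i z p →
    A.Pt b → A.Mk c → A.pi b = x → A.pi c = x → A.ix c = i → A.Nx b c →
    (∃ q', z = some q' ∧ A.st (A.S x) q') ∧
      ∀ b c, A.Mk b → A.Mk c → A.pi b = x → A.pi c = A.S x → A.ix c = A.ix b → A.Mv1 b c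
  tr_pos : ∀ x q i z p b c, A.st x q → A.Ev (A.S x) → m.prog q = Instr.test i z p →
    A.Pt b → A.Mk c → A.pi b = x → A.pi c = x → A.ix c = i → ¬ A.Nx b c →
    (∃ q', p = some q' ∧ A.st (A.S x) q') ∧
      ∀ b c, A.Mk b → A.Mk c → A.pi b = x → A.pi c = A.S x → A.ix c = A.ix b →
      (A.ix b = i → A.Mv0 b c) ∧ (A.ix b ≠ i → A.Mv1 b c)
  -- initial configuration
  in_st : A.st (A.S A.o) c0.1
  in_mk : ∀ b, A.Mk b → A.pi b = A.S A.o → A.At (c0.2 (A.ix b) + 1) b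

/-! ### the one-sorted relational structure of a tower -/

/-- The relation symbols. -/
inductive Sym (m : Mach) : Type
  | S | p | h | lt | uT | uL | uE | uM | uP
  | uq (q : Fin m.nQ)
  | ui (i : Fin m.k)

/-- The universe. -/
abbrev U (A : Tower m) : Type := A.T ⊕ A.F

/-- The relations (unary predicates are subsets of the diagonal). -/
def rel (A : Tower m) : Sym m → A.U → A.U → Prop
  | Sym.S, Sum.inl y, Sum.inl z => A.S y = z
  | Sym.S, Sum.inr b, Sum.inr c => A.V b = c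
  | Sym.p, Sum.inl y, Sum.inl z => A.p y = z
  | Sym.h, Sum.inl y, Sum.inl z => A.h y = z
  | Sym.h, Sum.inr b, Sum.inl z => A.pi b = z
  | Sym.lt, Sum.inl y, Sum.inl z => A.lt y z
  | Sym.lt, Sum.inr b, Sum.inr c => A.flt b c
  | Sym.uT, Sum.inl y, Sum.inl z => y = z
  | Sym.uL, Sum.inl y, Sum.inl z => y = z ∧ A.Lf y
  | Sym.uE, Sum.inl y, Sum.inl z => y = z ∧ A.Ev y
  | Sym.uM, Sum.inr b, Sum.inr c => b = c ∧ A.Mk b
  | Sym.uP, Sum.inr b, Sum.inr c => b = c ∧ A.Pt b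
  | Sym.uq q, Sum.inl y, Sum.inl z => y = z ∧ A.st y q
  | Sym.ui i, Sum.inr b, Sum.inr c => b = c ∧ A.ix b = i
  | _, _, _ => False

end Tower

/-! ### Ehrenfeucht-Fraisse games for binary relational structures -/

/-- The positions `l` of the game on the structures `(U, R)` and `(U', R')` won by the second
player in `r` more rounds. -/
def EF {C U U' : Type} (R : C → U → U → Prop) (R' : C → U' → U' → Prop) :
    ℕ → List (U × U') → Prop
  | 0, l => ∀ a ∈ l, ∀ b ∈ l, (a.1 = b.1 ↔ a.2 = b.2) ∧ ∀ c, R c a.1 b.1 ↔ R' c a.2 b.2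
  | r + 1, l => (∀ a ∈ l, ∀ b ∈ l, (a.1 = b.1 ↔ a.2 = b.2) ∧ ∀ c, R c a.1 b.1 ↔ R' c a.2 b.2) ∧
      (∀ u, ∃ u', EF R R' r ((u, u') :: l)) ∧ (∀ u', ∃ u, EF R R' r ((u, u') :: l))

end Pool.Agent.LIN
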