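import Pool.Agent.LIN.TW0

/-!
# [LIN] block C : letters, words, local equivalence

Every function of a tower is made total and unary on the universe `U = T + F`; a word is a list of
letters. `Loc A B k l`: the pairs of the list `l` satisfy the same atomic statements about words of
length at most `k`.
-/

namespace Pool.Agent.LIN

/-- The letters: unary total functions on the universe of a tower. `s`: `S` and `V`; `s'`: their
partial inverses; `p`: `p`; `l`: left child; `h`: `h` and `pi`; `n`, `n'`: next and previous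
element of the row; `t`: pointer over a time; `f i`, `k i`: first element and mark of row `i`
over a time. A letter acts as the identity where it makes no sense. -/
inductive Letter (m : Mach) : Type
  | s | s' | p | l | h | n | n' | t
  | f (i : Fin m.k)
  | k (i : Fin m.k)

/-- The unary predicates. -/
inductive PSym (m : Mach) : Type
  | T | L | E | M | P
  | q (q : Fin m.nQ)
  | i (i : Fin m.k)

namespace Tower

variable {m : Mach}

open Classical in
/-- The `S`-predecessor (the element itself if there is none). -/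
noncomputable def sPre (A : Tower m) (y : A.T) : A.T :=
  if h : ∃ z, A.S z = y then h.choose else y

open Classical in
/-- The left child (the element itself if there is none). -/
noncomputable def lft (A : Tower m) (y : A.T) : A.T :=
  if h : ∃ z, A.Lf z ∧ A.p z = y then h.choose else y

open Classical in
/-- The `V`-predecessor (the element itself if there is none). -/
noncomputable def vPre (A : Tower m) (b : A.F) : A.F :=
  if h : ∃ c, A.V c = b then h.choose else b

open Classical in
/-- The next element of the row. -/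
noncomputable def nxt (A : Tower m) (b : A.F) : A.F :=
  if h : ∃ c, A.Nx b c then h.choose else b

open Classical in
/-- The previous element of the row (the element itself if there is none). -/
noncomputable def prv (A : Tower m) (b : A.F) : A.F :=
  if h : ∃ c, A.Nx c b then h.choose else b

open Classical in
/-- The first element of the row `(y, i)`. -/
noncomputable def fstU (A : Tower m) (i : Fin m.k) (y : A.T) : A.T ⊕ A.F :=
  if h : ∃ b, A.pi b = y ∧ A.ix b = i ∧ A.Fst b then Sum.inr h.choose else Sum.inl y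

open Classical in
/-- The mark of the row `(y, i)`. -/
noncomputable def mkU (A : Tower m) (i : Fin m.k) (y : A.T) : A.T ⊕ A.F :=
  if h : ∃ b, A.pi b = y ∧ A.ix b = i ∧ A.Mk b then Sum.inr h.choose else Sum.inl y

open Classical in
/-- The pointer over the time `y`. -/
noncomputable def ptU (A : Tower m) (y : A.T) : A.T ⊕ A.F :=
  if h : ∃ b, A.pi b = y ∧ A.Pt b then Sum.inr h.choose else Sum.inl y

/-- The action of a letter. -/
noncomputable def act1 (A : Tower m) : Letter m → A.T ⊕ A.F → A.T ⊕ A.F
  | Letter.s, Sum.inl y => Sum.inl (A.S y)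
  | Letter.s, Sum.inr b => Sum.inr (A.V b)
  | Letter.s', Sum.inl y => Sum.inl (A.sPre y)
  | Letter.s', Sum.inr b => Sum.inr (A.vPre b)
  | Letter.p, Sum.inl y => Sum.inl (A.p y)
  | Letter.p, Sum.inr b => Sum.inr b
  | Letter.l, Sum.inl y => Sum.inl (A.lft y)
  | Letter.l, Sum.inr b => Sum.inr b
  | Letter.h, Sum.inl y => Sum.inl (A.h y)
  | Letter.h, Sum.inr b => Sum.inl (A.pi b)
  | Letter.n, Sum.inl y => Sum.inl y
  | Letter.n, Sum.inr b => Sum.inr (A.nxt b)
  | Letter.n', Sum.inl y => Sum.inl y
  | Letter.n', Sum.inr b => Sum.inr (A.prv b)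
  | Letter.t, Sum.inl y => A.ptU y
  | Letter.t, Sum.inr b => Sum.inr b
  | Letter.f i, Sum.inl y => A.fstU i y
  | Letter.f _, Sum.inr b => Sum.inr b
  | Letter.k i, Sum.inl y => A.mkU i y
  | Letter.k _, Sum.inr b => Sum.inr b

/-- The action of a word (the head letter is applied last). -/
noncomputable def act (A : Tower m) : List (Letter m) → A.T ⊕ A.F → A.T ⊕ A.F
  | [], u => u
  | a :: w, u => A.act1 a (A.act w u)

/-- The order of the universe. -/
def ltU (A : Tower m) : A.T ⊕ A.F → A.T ⊕ A.F → Prop
  | Sum.inl y, Sum.inl z => A.lt y z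
  | Sum.inr b, Sum.inr c => A.flt b c
  | _, _ => False

/-- The unary predicates. -/
def Pr (A : Tower m) : PSym m → A.T ⊕ A.F → Prop
  | PSym.T, Sum.inl _ => True
  | PSym.L, Sum.inl y => A.Lf y
  | PSym.E, Sum.inl y => A.Ev y
  | PSym.M, Sum.inr b => A.Mk b
  | PSym.P, Sum.inr b => A.Pt b
  | PSym.q q, Sum.inl y => A.st y q
  | PSym.i i, Sum.inr b => A.ix b = i
  | _, _ => False

/-- The pairs of the list `l` satisfy the same atomic statements about words of length at most
`k`. -/
def Loc (A B : Tower m) (k : ℕ) (l : List ((A.T ⊕ A.F) × (B.T ⊕ B.F))) : Prop :=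
  ∀ a ∈ l, ∀ w : List (Letter m), w.length ≤ k →
    (∀ c, A.Pr c (A.act w a.1) ↔ B.Pr c (B.act w a.2)) ∧
    ∀ b ∈ l, ∀ w' : List (Letter m), w'.length ≤ k →
      (A.act w a.1 = A.act w' b.1 ↔ B.act w a.2 = B.act w' b.2) ∧
      (A.ltU (A.act w a.1) (A.act w' b.1) ↔ B.ltU (B.act w a.2) (B.act w' b.2))

/-- The pairs obtained from the list `l` by words of length at most `K - r`. -/
def Lc (A B : Tower m) (K : ℕ) (l : List ((A.T ⊕ A.F) × (B.T ⊕ B.F))) (r : ℕ)
    (y : A.T ⊕ A.F) (y' : B.T ⊕ B.F) : Prop :=
  ∃ b ∈ l, ∃ w : List (Letter m), w.length + r ≤ K ∧ y = A.act w b.1 ∧ y' = B.act w b.2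

/-- `u` (in `A`) is not obtained from the left components of `l` by a word of length `<= K`. -/
def FarL (A B : Tower m) (K : ℕ) (l : List ((A.T ⊕ A.F) × (B.T ⊕ B.F))) (u : A.T ⊕ A.F) : Prop :=
  ∀ b ∈ l, ∀ w : List (Letter m), w.length ≤ K → A.act w b.1 ≠ u

/-- `u` (in `B`) is not obtained from the right components of `l` by a word of length `<= K`. -/
def FarR (A B : Tower m) (K : ℕ) (l : List ((A.T ⊕ A.F) × (B.T ⊕ B.F))) (u : B.T ⊕ B.F) : Prop :=
  ∀ b ∈ l, ∀ w : List (Letter m), w.length ≤ K → B.act w b.2 ≠ u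

/-- A system of pairs (with the number of remaining steps) that is, together with the pairs
obtained from `l`, closed under the letters, and on which the atomic statements agree. -/
structure NSys (A B : Tower m) (K k : ℕ) (l : List ((A.T ⊕ A.F) × (B.T ⊕ B.F)))
    (C : ℕ → A.T ⊕ A.F → B.T ⊕ B.F → Prop) : Prop where
  step : ∀ r < k, ∀ y y', C (r + 1) y y' → ∀ a : Letter m,
    C r (A.act1 a y) (B.act1 a y') ∨ A.Lc B K l r (A.act1 a y) (B.act1 a y')
  mono : ∀ r < k, ∀ y y', C (r + 1) y y' → C r y y'
  pr : ∀ y y', C 0 y y' → ∀ c, A.Pr c y ↔ B.Pr c y'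
  eq : ∀ y y' z z', C 0 y y' → C 0 z z' → (y = z ↔ y' = z')
  lt : ∀ y y' z z', C 0 y y' → C 0 z z' → (A.ltU y z ↔ B.ltU y' z')
  eqL : ∀ y y' z z', C 0 y y' → A.Lc B K l 0 z z' → (y = z ↔ y' = z')
  ltL : ∀ y y' z z', C 0 y y' → A.Lc B K l 0 z z' → (A.ltU y z ↔ B.ltU y' z')
  ltR : ∀ y y' z z', C 0 y y' → A.Lc B K l 0 z z' → (A.ltU z y ↔ B.ltU z' y')

end Tower

end Pool.Agent.LIN
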