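import Pool.Agent.LIN.TK
import Pool.Agent.LIN.GR4
import Pool.Agent.LIN.GA3
import Pool.Agent.LIN.GK
import Pool.Agent.LIN.GCH
import Pool.Agent.LIN.S.D1
import Pool.Agent.LIN.M.H3
import Pool.Agent.LIN.RZ
import Pool.Agent.LIN.RHanf

/-!
# [LIN] assembly

`hanfStatement` is the theorem of Hanf: in every finite rich language every `Pi^0_1` class is the
space of the complete extensions of a finitely axiomatised theory, with decidable = computable.
-/

namespace Pool.Agent.LIN

theorem towerStatement : TowerStatement :=
  tower_of codeStatement codingStatement relAx controlStatement

theorem hanfStatement : HanfStatement :=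
  hanf_of_tower machineStatement towerStatement satStatement

theorem finalStatement : FinalStatement :=
  final_of_hanf hanfStatement satStatement

end Pool.Agent.LIN
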